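import Pool.Agent.BK.ElemAb2

/-!
Elementary abelian quotients that avoid a finite set of proper subgroups.
-/

namespace Pool.BK

namespace Avoid

theorem exists_lin (A : Type) [AddCommGroup A] [Finite A] (q : ℕ) [Fact q.Prime]
    [Module (ZMod q) A] (t : ℕ) (hcard : Nat.card A = q ^ (2 * t)) :
    Nonempty (A ≃+ (Fin t → ZMod q × ZMod q)) := by
  have hfin : Module.Finite (ZMod q) A := Module.Finite.of_finite
  have hrank : Module.finrank (ZMod q) A =
      Module.finrank (ZMod q) (Fin t → ZMod q × ZMod q) := by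
    have h1 := Module.natCard_eq_pow_finrank (K := ZMod q) (V := A)
    rw [hcard, Nat.card_zmod] at h1
    have h3 := Nat.pow_right_injective (Fact.out : q.Prime).two_le h1
    rw [← h3]
    rw [Module.finrank_pi_fintype]
    simp [Module.finrank_prod, mul_comm]
  let e : A ≃ₗ[ZMod q] (Fin t → ZMod q × ZMod q) :=
    LinearEquiv.ofFinrankEq _ _ hrank
  exact ⟨e.toAddEquiv⟩

theorem exists_equiv (A : Type) [CommGroup A] [Finite A] (q : ℕ) [Fact q.Prime] (t : ℕ)
    (hcard : Nat.card A = q ^ (2 * t)) (hA : ∀ a : A, a ^ q = 1) :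
    Nonempty (A ≃* Multiplicative (Fin t → ZMod q × ZMod q)) := by
  let m : Module (ZMod q) (Additive A) := AddCommGroup.zmodModule (fun a => hA (Additive.toMul a))
  have : Finite (Additive A) := ‹Finite A›
  obtain ⟨e⟩ := @exists_lin (Additive A) _ _ q _ m t hcard
  exact ⟨AddEquiv.toMultiplicativeRight e⟩

/-- a group with an elementary abelian quotient of order `q ^ (2 t)` has a surjection onto
`(ℤ/q)² ^ t` with the same kernel -/
theorem exists_hom {G : Type} [Group G] (q : ℕ) [Fact q.Prime] (t : ℕ) (C : Subgroup G)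
    [C.Normal] (hC : C.index = q ^ (2 * t)) (hq : ∀ g, g ^ q ∈ C)
    (hcomm : ∀ g h : G, g * h * g⁻¹ * h⁻¹ ∈ C) :
    ∃ f : G →* Multiplicative (Fin t → ZMod q × ZMod q), Function.Surjective f ∧ C ≤ f.ker := by
  have hne : q ^ (2 * t) ≠ 0 := pow_ne_zero _ (Fact.out : q.Prime).ne_zero
  have hcard : Nat.card (G ⧸ C) = q ^ (2 * t) := hC
  have hfinq : Finite (G ⧸ C) := Nat.finite_of_card_ne_zero (by rw [hcard]; exact hne)
  have hA : ∀ a : G ⧸ C, a ^ q = 1 := by
    intro a
    obtain ⟨g, hg⟩ := QuotientGroup.mk_surjective a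
    rw [← hg, ← QuotientGroup.mk_pow, (QuotientGroup.eq_one_iff _).2 (hq g)]
  have hc : ∀ a b : G ⧸ C, a * b = b * a := by
    intro a b
    obtain ⟨a, rfl⟩ := QuotientGroup.mk_surjective a
    obtain ⟨b, rfl⟩ := QuotientGroup.mk_surjective b
    rw [← QuotientGroup.mk_mul, ← QuotientGroup.mk_mul, eq_comm, QuotientGroup.eq]
    have := hcomm a⁻¹ b⁻¹
    simpa [mul_assoc] using this
  let hcg : CommGroup (G ⧸ C) := { (inferInstance : Group (G ⧸ C)) with mul_comm := hc }
  obtain ⟨e⟩ := @exists_equiv (G ⧸ C) hcg hfinq q _ t hcard hA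
  let e' : (G ⧸ C) →* Multiplicative (Fin t → ZMod q × ZMod q) := e.toMonoidHom
  have he' : Function.Surjective e' := e.surjective
  exact ⟨e'.comp (QuotientGroup.mk' C), he'.comp (QuotientGroup.mk'_surjective C), fun g hg => by
    rw [MonoidHom.mem_ker, MonoidHom.comp_apply, QuotientGroup.mk'_apply,
      (QuotientGroup.eq_one_iff _).2 hg, map_one]⟩

variable (K : Type) [Field K] [NumberField K] (Ω : Type) [Field Ω] [Algebra K Ω] [IsAlgClosed Ω]
  [Algebra.IsAlgebraic K Ω]

theorem exists_quot_avoid (q : ℕ) [Fact q.Prime] (X : Set (Subgroup (Ω ≃ₐ[K] Ω))) (hX : X.Finite)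
    (hproper : ∀ U ∈ X, U ≠ ⊤) : ∃ C : Subgroup (Ω ≃ₐ[K] Ω), C.Normal ∧
      IsOpen (C : Set (Ω ≃ₐ[K] Ω)) ∧ C.index = q ^ 2 ∧ (∀ g, g ^ q ∈ C) ∧
      ∀ U ∈ X, ¬ C ≤ U := by
  classical
  set t := X.ncard + 1 with ht
  obtain ⟨C0, hn, ho, hi, hq, hcomm⟩ := exists_quot_gen K Ω q (2 * t)
  obtain ⟨f, hf, hker⟩ := exists_hom q t C0 hi hq hcomm
  let p : Fin t → (Ω ≃ₐ[K] Ω) →* Multiplicative (ZMod q × ZMod q) := fun i =>
    MonoidHom.mk' (fun g => Multiplicative.ofAdd ((Multiplicative.toAdd (f g)) i))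
      (fun a b => by rw [map_mul]; rfl)
  have hp : ∀ i, Function.Surjective (p i) := by
    intro i y
    obtain ⟨g, hg⟩ := hf (Multiplicative.ofAdd (fun _ => Multiplicative.toAdd y))
    refine ⟨g, ?_⟩
    change Multiplicative.ofAdd ((Multiplicative.toAdd (f g)) i) = y
    rw [hg]
    rfl
  have hle : ∀ i, C0 ≤ (p i).ker := by
    intro i g hg
    change Multiplicative.ofAdd ((Multiplicative.toAdd (f g)) i) = 1
    rw [show f g = 1 from hker hg]
    rfl
  have hindex : ∀ i, (p i).ker.index = q ^ 2 := by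
    intro i
    rw [Subgroup.index_ker, MonoidHom.range_eq_top.2 (hp i)]
    rw [Nat.card_congr Subgroup.topEquiv.toEquiv]
    change Nat.card (ZMod q × ZMod q) = q ^ 2
    rw [Nat.card_prod, Nat.card_zmod, pow_two]
  by_contra hcon
  push Not at hcon
  have hch : ∀ i, ∃ U ∈ X, (p i).ker ≤ U := fun i =>
    hcon (p i).ker inferInstance (Subgroup.isOpen_mono (hle i) ho) (hindex i)
      (fun g => hle i (hq g))
  choose U hUX hU using hch
  -- pigeonhole
  have hcard : X.ncard < Fintype.card (Fin t) := by rw [Fintype.card_fin]; omega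
  have : Fintype X := hX.fintype
  obtain ⟨i, j, hij, hUij⟩ := Fintype.exists_ne_map_eq_of_card_lt
    (fun i => (⟨U i, hUX i⟩ : X)) (by rwa [← Nat.card_eq_fintype_card, Nat.card_coe_set_eq])
  have hUij' : U i = U j := congrArg Subtype.val hUij
  apply hproper (U i) (hUX i)
  rw [eq_top_iff]
  intro g _
  -- split `g`
  obtain ⟨a, ha⟩ := hf (Multiplicative.ofAdd (fun k => if k = i then 0 else
    (Multiplicative.toAdd (f g)) k))
  have h1 : a ∈ (p i).ker := by
    change Multiplicative.ofAdd ((Multiplicative.toAdd (f a)) i) = 1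
    rw [ha]
    simp
  have h2 : g * a⁻¹ ∈ (p j).ker := by
    change Multiplicative.ofAdd ((Multiplicative.toAdd (f (g * a⁻¹))) j) = 1
    rw [map_mul, map_inv, ha]
    simp [hij.symm]
  have h3 := hU i h1
  have h4 := hU j h2
  rw [← hUij'] at h4
  have := mul_mem h4 h3
  simpa using this

end Avoid

end Pool.BK
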