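import Pool.Agent.BK.Reduction
import Pool.Agent.BK.Avoid

/-!
Finitely many exceptional fields of each degree are harmless.
-/

open scoped Pointwise NumberField
open Polynomial IsDedekindDomain

namespace Pool.BK

namespace Almost

variable {K : Type} [Field K] [NumberField K] {Ω : Type} [Field Ω] [Algebra K Ω] [IsAlgClosed Ω]
  [Algebra.IsAlgebraic K Ω]

/-- the degree of the fixed field is the index -/
theorem finrank_fixedField (A : Subgroup (Ω ≃ₐ[K] Ω)) (hA : IsOpen (A : Set (Ω ≃ₐ[K] Ω))) :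
    Module.finrank K (IntermediateField.fixedField A) = A.index := by
  obtain ⟨hf, hfix⟩ := Reduction.open_field A hA
  have hG : IsGalois K Ω := by
    have : Normal K Ω := normal_iff.2 fun x =>
      ⟨Algebra.IsIntegral.isIntegral x, IsAlgClosed.splits _⟩
    exact ⟨⟩
  rw [IntermediateField.finrank_eq_fixingSubgroup_index, hfix]

/-- relations of total value `1` between fields of degree `2, 3, 4, 9` that avoid a finite set of
fields -/
theorem exists_family (X : Set (Subgroup (Ω ≃ₐ[K] Ω)))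
    (hX : ∀ n : ℕ, 0 < n → {U | U ∈ X ∧ U.index = n}.Finite) :
    ∃ (ι : Type) (_ : Fintype ι) (S : ι → Subgroup (Ω ≃ₐ[K] Ω)) (a : ι → ℤ),
      (∀ i, IsOpen (S i : Set (Ω ≃ₐ[K] Ω)) ∧ S i ∉ X ∧ (S i).index ≠ 1) ∧
      ∀ g, ∑ i, a i * (fixCount (S i) g : ℤ) = 1 := by
  classical
  have : Fact (Nat.Prime 3) := ⟨Nat.prime_three⟩
  -- the exceptional subgroups
  let Y : Set (Subgroup (Ω ≃ₐ[K] Ω)) := {U | U ∈ X ∧ U.index = 2} ∪ {U | U ∈ X ∧ U.index = 3} ∪
    {U | U ∈ X ∧ U.index = 4} ∪ {U | U ∈ X ∧ U.index = 9}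
  have hY : Y.Finite := (((hX 2 (by norm_num)).union (hX 3 (by norm_num))).union
    (hX 4 (by norm_num))).union (hX 9 (by norm_num))
  have hYtop : ∀ U ∈ Y, U ≠ ⊤ := by
    rintro U hU rfl
    simp only [Y, Set.mem_union, Set.mem_ofPred_eq, Subgroup.index_top] at hU
    omega
  obtain ⟨C3, hn3, ho3, hi3, hq3, hav3⟩ := Avoid.exists_quot_avoid K Ω 3 Y hY hYtop
  obtain ⟨C2, hn2, ho2, hi2, hq2, hav2⟩ := Avoid.exists_quot_avoid K Ω 2 Y hY hYtop
  obtain ⟨hf3, hr3⟩ := quot_relation 3 C3 hi3 hq3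
  obtain ⟨hf2, hr2⟩ := quot_relation 2 C2 hi2 hq2
  have : Fintype {A : Subgroup (Ω ≃ₐ[K] Ω) | C3 ≤ A ∧ A.index = 3} := hf3.fintype
  have : Fintype {A : Subgroup (Ω ≃ₐ[K] Ω) | C2 ≤ A ∧ A.index = 2} := hf2.fintype
  let ι : Type := ({A : Subgroup (Ω ≃ₐ[K] Ω) | C3 ≤ A ∧ A.index = 3} ⊕ Unit) ⊕
    ({A : Subgroup (Ω ≃ₐ[K] Ω) | C2 ≤ A ∧ A.index = 2} ⊕ Unit)
  let S : ι → Subgroup (Ω ≃ₐ[K] Ω) :=
    Sum.elim (Sum.elim (fun A => A.1) (fun _ => C3)) (Sum.elim (fun A => A.1) (fun _ => C2))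
  let a : ι → ℤ := Sum.elim (Sum.elim (fun _ => 1) (fun _ => -1)) (Sum.elim (fun _ => -1) (fun _ => 1))
  have hav : ∀ (C A : Subgroup (Ω ≃ₐ[K] Ω)), C ≤ A → (∀ U ∈ Y, ¬ C ≤ U) →
      (A.index = 2 ∨ A.index = 3 ∨ A.index = 4 ∨ A.index = 9) → A ∉ X := by
    intro C A hCA hC hi hAX
    refine hC A ?_ hCA
    simp only [Y, Set.mem_union, Set.mem_ofPred_eq]
    tauto
  refine ⟨ι, inferInstance, S, a, ?_, fun g => ?_⟩
  · rintro ((A | u) | (A | u))
    · refine ⟨Subgroup.isOpen_mono A.2.1 ho3, hav C3 A.1 A.2.1 hav3 (by have := A.2.2; tauto), ?_⟩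
      change A.1.index ≠ 1
      rw [A.2.2]; norm_num
    · refine ⟨ho3, hav C3 C3 le_rfl hav3 (by rw [hi3]; norm_num), ?_⟩
      change C3.index ≠ 1
      rw [hi3]; norm_num
    · refine ⟨Subgroup.isOpen_mono A.2.1 ho2, hav C2 A.1 A.2.1 hav2 (by have := A.2.2; tauto), ?_⟩
      change A.1.index ≠ 1
      rw [A.2.2]; norm_num
    · refine ⟨ho2, hav C2 C2 le_rfl hav2 (by rw [hi2]; norm_num), ?_⟩
      change C2.index ≠ 1
      rw [hi2]; norm_num
  · have e3 := hr3 g
    have e2 := hr2 g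
    rw [← finsum_set_coe_eq_finsum_mem, finsum_eq_sum_of_fintype] at e3 e2
    rw [Fintype.sum_sum_type, Fintype.sum_sum_type, Fintype.sum_sum_type]
    simp only [a, S, Sum.elim_inl, Sum.elim_inr, one_mul, neg_mul, Finset.sum_neg_distrib,
      Finset.univ_unique, Finset.sum_const, Finset.card_singleton, one_smul]
    push_cast at e3 e2
    linarith

theorem restrict_inj {L : IntermediateField K Ω} {E E' : IntermediateField L Ω}
    (h : E.restrictScalars K = E'.restrictScalars K) : E = E' := by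
  ext x
  have := SetLike.ext_iff.1 h x
  exact this

end Almost

variable (K : Type) [Field K] [NumberField K] (Ω : Type) [Field Ω] [Algebra K Ω] [IsAlgClosed Ω]
  [Algebra.IsAlgebraic K Ω]

theorem reduction_almost (V : LSystem (Ω ≃ₐ[K] Ω))
    (B : ∀ (p : ℕ) [Fact p.Prime], PeriodData (Ω ≃ₐ[K] Ω) (𝓞 Ω) p)
    (C : IntermediateField K Ω → Prop) (hC : ∀ L L', L ≤ L' → C L → C L')
    (X : Set (IntermediateField K Ω))
    (hX : ∀ n : ℕ, 0 < n → {L | L ∈ X ∧ Module.finrank K L = n}.Finite)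
    (h : ∀ (L : IntermediateField K Ω) [NumberField L], C L → L ∉ X →
      BKHolds L Ω (V.res L) (fun p _ => (B p).res L)) :
    ∀ (L : IntermediateField K Ω) [NumberField L], C L →
      BKHolds L Ω (V.res L) (fun p _ => (B p).res L) := by
  intro L hL hCL
  have : Algebra.IsAlgebraic L Ω := Algebra.IsAlgebraic.tower_top (K := K) L
  have hfL : FiniteDimensional K L := Module.Finite.of_restrictScalars_finite ℚ K L
  have hdeg : 0 < Module.finrank K L := Module.finrank_pos
  let Y : Set (Subgroup (Ω ≃ₐ[L] Ω)) := {U | IsOpen (U : Set (Ω ≃ₐ[L] Ω)) ∧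
    (IntermediateField.fixedField U).restrictScalars K ∈ X}
  have hY : ∀ n : ℕ, 0 < n → {U | U ∈ Y ∧ U.index = n}.Finite := by
    intro n hn
    refine Set.Finite.of_finite_image (f := fun U : Subgroup (Ω ≃ₐ[L] Ω) =>
      (IntermediateField.fixedField U).restrictScalars K)
      ((hX (Module.finrank K L * n) (Nat.mul_pos hdeg hn)).subset ?_) ?_
    · rintro _ ⟨U, ⟨⟨hUo, hUX⟩, hUn⟩, rfl⟩
      refine ⟨hUX, ?_⟩
      have h1 : Module.finrank L (IntermediateField.fixedField U) = n := by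
        rw [Almost.finrank_fixedField U hUo, hUn]
      rw [← h1]
      exact (Module.finrank_mul_finrank K L (IntermediateField.fixedField U)).symm
    · rintro U ⟨⟨hUo, -⟩, -⟩ U' ⟨⟨hUo', -⟩, -⟩ hUU
      have h2 := Almost.restrict_inj hUU
      rw [← (Reduction.open_field U hUo).2, ← (Reduction.open_field U' hUo').2, h2]
  obtain ⟨ι, _, S, a, hS, hrel⟩ := Almost.exists_family Y hY
  have hfd : ∀ i, FiniteDimensional L (IntermediateField.fixedField (S i)) :=
    fun i => (Reduction.open_field (S i) (hS i).1).1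
  have hnf : ∀ i, NumberField (IntermediateField.fixedField (S i)) :=
    fun i => Reduction.numberField_of _
  refine rel_base L Ω (V.res L) (fun p _ => (B p).res L)
    (fun i => IntermediateField.fixedField (S i)) a (fun g => ?_) (fun i => ?_)
  · rw [← hrel g]
    exact Finset.sum_congr rfl fun i _ => by rw [(Reduction.open_field (S i) (hS i).1).2]
  · have hnfE : NumberField ((IntermediateField.fixedField (S i)).restrictScalars K) := hnf i
    have hle : L ≤ (IntermediateField.fixedField (S i)).restrictScalars K := by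
      intro x hx
      exact (IntermediateField.fixedField (S i)).algebraMap_mem ⟨x, hx⟩
    exact h ((IntermediateField.fixedField (S i)).restrictScalars K) (hC _ _ hle hCL)
      (fun hmem => (hS i).2.1 ⟨(hS i).1, hmem⟩)

end Pool.BK
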