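import Pool.Agent.Helper95.BK.Defs2

/-!
Artin's induction theorem for integral class functions which only depend on the cyclic
subgroup generated by the argument.
-/

namespace Pool.BK

namespace Artin

open scoped Classical

variable {Γ : Type} [Group Γ] [Finite Γ]

/-- The number of `g` such that `g⁻¹ x g` generates `C`. -/
noncomputable def theta (C : Subgroup Γ) (x : Γ) : ℕ :=
  Nat.card {g : Γ // Subgroup.zpowers (g⁻¹ * x * g) = C}

omit [Finite Γ] in
lemma card_mul_fixCount (C : Subgroup Γ) (x : Γ) :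
    Nat.card C * fixCount C x = Nat.card {g : Γ // g⁻¹ * x * g ∈ C} := by
  have h := Nat.card_congr (QuotientGroup.preimageMkEquivSubgroupProdSet C
    (MulAction.fixedBy (Γ ⧸ C) x))
  rw [Nat.card_prod] at h
  unfold fixCount
  rw [← h]
  apply Nat.card_congr
  apply Equiv.subtypeEquivRight
  intro g
  show (x • (QuotientGroup.mk g : Γ ⧸ C) = QuotientGroup.mk g) ↔ _
  rw [MulAction.Quotient.smul_mk, eq_comm, QuotientGroup.eq, smul_eq_mul, mul_assoc]

lemma card_mem_eq_sum (C : Subgroup Γ) (x : Γ) [Fintype (Subgroup Γ)] :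
    Nat.card {g : Γ // g⁻¹ * x * g ∈ C} = ∑ B : Subgroup Γ, if B ≤ C then theta B x else 0 := by
  have : Fintype Γ := Fintype.ofFinite Γ
  rw [Nat.card_eq_fintype_card, Fintype.card_subtype]
  rw [Finset.card_eq_sum_card_fiberwise (f := fun g => Subgroup.zpowers (g⁻¹ * x * g))
    (t := Finset.univ) (fun _ _ => Finset.mem_coe.2 (Finset.mem_univ _))]
  refine Finset.sum_congr rfl fun B _ => ?_
  rw [Finset.filter_filter]
  split_ifs with hB
  · unfold theta
    rw [Nat.card_eq_fintype_card, Fintype.card_subtype]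
    congr 1
    ext g
    simp only [Finset.mem_filter, Finset.mem_univ, true_and]
    constructor
    · rintro ⟨_, h⟩
      exact h
    · intro h
      refine ⟨?_, h⟩
      have : g⁻¹ * x * g ∈ B := by
        rw [← h]
        exact Subgroup.mem_zpowers _
      exact hB this
  · rw [Finset.card_eq_zero, Finset.filter_eq_empty_iff]
    rintro g _ ⟨h1, h2⟩
    apply hB
    rw [← h2, Subgroup.zpowers_le]
    exact h1

lemma exists_coeff (C : Subgroup Γ) [Fintype (Subgroup Γ)] :
    ∃ c : Subgroup Γ → ℤ, (∀ B, c B ≠ 0 → B ≤ C) ∧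
      ∀ x, (theta C x : ℤ) = ∑ B, c B * (fixCount B x : ℤ) := by
  induction C using WellFoundedLT.induction with
  | ind C ih =>
    choose c hc1 hc2 using ih
    refine ⟨fun B => (if B = C then (Nat.card C : ℤ) else 0) -
      ∑ D : Subgroup Γ, if h : D < C then c D h B else 0, ?_, ?_⟩
    · intro B hB
      by_contra hBC
      apply hB
      have h1 : B ≠ C := fun h => hBC h.le
      beta_reduce
      rw [if_neg h1, zero_sub, neg_eq_zero]
      apply Finset.sum_eq_zero
      intro D _
      split_ifs with h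
      · by_contra hne
        exact hBC ((hc1 D h B hne).trans h.le)
      · rfl
    · intro x
      have h1 := card_mul_fixCount C x
      rw [card_mem_eq_sum C x] at h1
      have h2 : (∑ B : Subgroup Γ, if B ≤ C then theta B x else 0) =
          theta C x + ∑ B : Subgroup Γ, if B < C then theta B x else 0 := by
        rw [← Finset.add_sum_erase _ _ (Finset.mem_univ C), if_pos le_rfl]
        congr 1
        rw [← Finset.add_sum_erase Finset.univ (fun B => if B < C then theta B x else 0)
          (Finset.mem_univ C), if_neg (lt_irrefl C), zero_add]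
        refine Finset.sum_congr rfl fun B hB => ?_
        have hne : B ≠ C := Finset.ne_of_mem_erase hB
        by_cases h : B ≤ C
        · rw [if_pos h, if_pos (lt_of_le_of_ne h hne)]
        · rw [if_neg h, if_neg (fun h' => h h'.le)]
      rw [h2] at h1
      have h3 : (theta C x : ℤ) = (Nat.card C : ℤ) * (fixCount C x : ℤ) -
          ∑ B : Subgroup Γ, if B < C then (theta B x : ℤ) else 0 := by
        have := congrArg (Nat.cast : ℕ → ℤ) h1
        push_cast at this
        linarith
      rw [h3]
      simp only [sub_mul, Finset.sum_sub_distrib]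
      congr 1
      · rw [Finset.sum_eq_single C]
        · rw [if_pos rfl]
        · intro B _ hB
          rw [if_neg hB, zero_mul]
        · intro h
          exact absurd (Finset.mem_univ C) h
      · simp only [Finset.sum_mul]
        rw [Finset.sum_comm]
        refine Finset.sum_congr rfl fun D _ => ?_
        split_ifs with h
        · exact hc2 D h x
        · simp

lemma sum_conj (ψ : Γ → ℤ)
    (hψ : ∀ x y, Subgroup.zpowers x = Subgroup.zpowers y → ψ x = ψ y)
    (hc : ∀ x g, ψ (g⁻¹ * x * g) = ψ x) [Fintype (Subgroup Γ)] (x : Γ) :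
    (Nat.card Γ : ℤ) * ψ x = ∑ C : Subgroup Γ,
      (if h : ∃ y, Subgroup.zpowers y = C then ψ h.choose else 0) * (theta C x : ℤ) := by
  have : Fintype Γ := Fintype.ofFinite Γ
  have h1 : (Nat.card Γ : ℤ) * ψ x = ∑ g : Γ, ψ (g⁻¹ * x * g) := by
    rw [Finset.sum_congr rfl (fun g _ => hc x g), Finset.sum_const, Finset.card_univ,
      Nat.card_eq_fintype_card, nsmul_eq_mul]
  rw [h1, ← Finset.sum_fiberwise Finset.univ (fun g => Subgroup.zpowers (g⁻¹ * x * g))
    (fun g => ψ (g⁻¹ * x * g))]
  refine Finset.sum_congr rfl fun C _ => ?_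
  have h2 : ∀ g ∈ Finset.univ.filter (fun g => Subgroup.zpowers (g⁻¹ * x * g) = C),
      ψ (g⁻¹ * x * g) = if h : ∃ y, Subgroup.zpowers y = C then ψ h.choose else 0 := by
    intro g hg
    have hg' := (Finset.mem_filter.1 hg).2
    have hex : ∃ y, Subgroup.zpowers y = C := ⟨_, hg'⟩
    rw [dif_pos hex]
    apply hψ
    rw [hg', hex.choose_spec]
  rw [Finset.sum_congr rfl h2, Finset.sum_const, nsmul_eq_mul, mul_comm]
  congr 2
  unfold theta
  rw [Nat.card_eq_fintype_card, Fintype.card_subtype]

end Artin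

theorem artin {Γ : Type} [Group Γ] [Finite Γ] (ψ : Γ → ℤ)
    (hψ : ∀ x y, Subgroup.zpowers x = Subgroup.zpowers y → ψ x = ψ y)
    (hc : ∀ x g, ψ (g⁻¹ * x * g) = ψ x) :
    ∃ b : Subgroup Γ → ℤ, (∀ C, b C ≠ 0 → ∃ x, C ≤ Subgroup.zpowers x ∧ ψ x ≠ 0) ∧
      ∀ x, (Nat.card Γ : ℤ) * ψ x = ∑ᶠ C, b C * (fixCount C x : ℤ) := by
  classical
  have : Fintype (Subgroup Γ) := Fintype.ofFinite _
  choose c hc1 hc2 using fun C : Subgroup Γ => Artin.exists_coeff C
  refine ⟨fun B => ∑ C : Subgroup Γ,
    (if h : ∃ y, Subgroup.zpowers y = C then ψ h.choose else 0) * c C B, ?_, ?_⟩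
  · intro B hB
    obtain ⟨C, _, hC⟩ := Finset.exists_ne_zero_of_sum_ne_zero hB
    have h1 := left_ne_zero_of_mul hC
    have h2 := right_ne_zero_of_mul hC
    by_cases h : ∃ y, Subgroup.zpowers y = C
    · rw [dif_pos h] at h1
      refine ⟨h.choose, ?_, h1⟩
      rw [h.choose_spec]
      exact hc1 C B h2
    · rw [dif_neg h] at h1
      exact absurd rfl h1
  · intro x
    rw [Artin.sum_conj ψ hψ hc x, finsum_eq_sum_of_fintype]
    simp only [Finset.sum_mul]
    rw [Finset.sum_comm]
    refine Finset.sum_congr rfl fun C _ => ?_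
    rw [hc2 C x, Finset.mul_sum]
    refine Finset.sum_congr rfl fun B _ => ?_
    rw [mul_assoc]

end Pool.BK
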