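import Pool.Agent.Helper95.BK.Defs2
import Pool.Agent.BK.Artin

/-!
Artin relations over compact groups.
-/

set_option autoImplicit false

namespace Pool.BK

namespace ArtinCompact

/-- `fixCount` of a preimage. -/
theorem fixCount_comap {G Γ : Type} [Group G] [Group Γ] (f : G →* Γ)
    (hf : Function.Surjective f) (C : Subgroup Γ) (g : G) :
    fixCount (C.comap f) g = fixCount C (f g) := by
  have key : ∀ a b : G, (QuotientGroup.leftRel (C.comap f)) a b ↔
      (QuotientGroup.leftRel C) (f a) (f b) := by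
    intro a b
    rw [QuotientGroup.leftRel_apply, QuotientGroup.leftRel_apply, Subgroup.mem_comap, map_mul,
      map_inv]
  let φ : G ⧸ (C.comap f) → Γ ⧸ C := Quotient.map' f fun a b h => (key a b).1 h
  have hφ : ∀ a : G, φ (a : G ⧸ (C.comap f)) = ((f a : Γ) : Γ ⧸ C) := fun _ => rfl
  have hinj : Function.Injective φ := by
    intro x y
    induction x using QuotientGroup.induction_on with
    | H a =>
      induction y using QuotientGroup.induction_on with
      | H b =>
        intro h
        rw [hφ, hφ, QuotientGroup.eq] at h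
        rw [QuotientGroup.eq, Subgroup.mem_comap, map_mul, map_inv]
        exact h
  have hsurj : Function.Surjective φ := by
    intro y
    induction y using QuotientGroup.induction_on with
    | H b =>
      obtain ⟨a, rfl⟩ := hf b
      exact ⟨a, rfl⟩
  have hequiv : ∀ x : G ⧸ (C.comap f), φ (g • x) = f g • φ x := by
    intro x
    induction x using QuotientGroup.induction_on with
    | H a =>
      rw [MulAction.Quotient.smul_coe, hφ, hφ, MulAction.Quotient.smul_coe, smul_eq_mul,
        smul_eq_mul, map_mul]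
  unfold fixCount
  refine Nat.card_congr (Equiv.ofBijective
    (fun x => ⟨φ x.1, ?_⟩) ⟨?_, ?_⟩)
  · rw [MulAction.mem_fixedBy, ← hequiv, (MulAction.mem_fixedBy).1 x.2]
  · intro x y h
    exact Subtype.ext (hinj (congrArg Subtype.val h))
  · rintro ⟨y, hy⟩
    obtain ⟨x, rfl⟩ := hsurj y
    refine ⟨⟨x, ?_⟩, rfl⟩
    rw [MulAction.mem_fixedBy] at hy ⊢
    exact hinj (by rw [hequiv, hy])

/-- `fixCount` only depends on the cyclic subgroup. -/
theorem fixCount_zpowers {Γ : Type} [Group Γ] (C : Subgroup Γ) {x y : Γ}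
    (h : Subgroup.zpowers x = Subgroup.zpowers y) : fixCount C x = fixCount C y := by
  have aux : ∀ x y : Γ, Subgroup.zpowers x = Subgroup.zpowers y →
      MulAction.fixedBy (Γ ⧸ C) x ⊆ MulAction.fixedBy (Γ ⧸ C) y := by
    intro x y h q hq
    have hy : y ∈ Subgroup.zpowers x := h ▸ Subgroup.mem_zpowers y
    have h1 : Subgroup.zpowers x ≤ MulAction.stabilizer Γ q := by
      rw [Subgroup.zpowers_le]
      exact hq
    exact h1 hy
  unfold fixCount
  rw [Set.Subset.antisymm (aux x y h) (aux y x h.symm)]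

/-- `fixCount` is a class function. -/
theorem fixCount_conj {Γ : Type} [Group Γ] (C : Subgroup Γ) (x g : Γ) :
    fixCount C (g⁻¹ * x * g) = fixCount C x := by
  unfold fixCount
  refine Nat.card_congr (Equiv.ofBijective (fun q => ⟨g • q.1, ?_⟩) ⟨?_, ?_⟩)
  · have := (MulAction.mem_fixedBy).1 q.2
    rw [MulAction.mem_fixedBy]
    conv_rhs => rw [← this]
    rw [smul_smul, smul_smul]
    congr 1
    group
  · intro p q h
    exact Subtype.ext (smul_left_cancel g (congrArg Subtype.val h))
  · rintro ⟨q, hq⟩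
    refine ⟨⟨g⁻¹ • q, ?_⟩, Subtype.ext (by simp)⟩
    rw [MulAction.mem_fixedBy] at hq ⊢
    rw [smul_smul]
    have : g⁻¹ * x * g * g⁻¹ = g⁻¹ * x := by group
    rw [this, ← smul_smul, hq]

end ArtinCompact

open ArtinCompact

theorem artin_compact {G : Type} [Group G] [TopologicalSpace G] [IsTopologicalGroup G]
    [CompactSpace G] [TotallyDisconnectedSpace G] (good : Subgroup G → Prop)
    (hgood : ∀ H H', H ≤ H' → good H' → good H) {ι : Type} [Fintype ι] (H : ι → Subgroup G)
    (hH : ∀ i, IsOpen (H i : Set G)) (a : ι → ℤ)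
    (hbad : ∀ g, (∀ U : Subgroup G, IsOpen (U : Set G) → g ∈ U → ¬ good U) →
      ∑ i, a i * (fixCount (H i) g : ℤ) = 0) :
    ∃ (m : ℕ) (κ : Type) (_ : Fintype κ) (C : κ → Subgroup G) (b : κ → ℤ), 0 < m ∧
      (∀ j, IsOpen (C j : Set G) ∧ good (C j)) ∧
      ∀ g, (m : ℤ) * ∑ i, a i * (fixCount (H i) g : ℤ) = ∑ j, b j * (fixCount (C j) g : ℤ) := by
  classical
  set ψ : G → ℤ := fun g => ∑ i, a i * (fixCount (H i) g : ℤ) with hψ
  -- first open normal subgroup
  have hU0 : IsOpen (⋂ i, (H i : Set G)) := isOpen_iInter_of_finite hH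
  obtain ⟨N0, hN0⟩ := ProfiniteGrp.exist_openNormalSubgroup_sub_open_nhds_of_one hU0
    (Set.mem_iInter.2 fun i => (H i).one_mem)
  -- general descent to a quotient
  have desc : ∀ (N : Subgroup G) [N.Normal], (∀ i, N ≤ H i) → ∀ g : G,
      ψ g = ∑ i, a i * (fixCount ((H i).map (QuotientGroup.mk' N)) (QuotientGroup.mk' N g) : ℤ) := by
    intro N hN hNH g
    refine Finset.sum_congr rfl fun i _ => ?_
    have h1 : ((H i).map (QuotientGroup.mk' N)).comap (QuotientGroup.mk' N) = H i := by
      rw [Subgroup.comap_map_eq, QuotientGroup.ker_mk', sup_eq_left.2 (hNH i)]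
    have h2 := fixCount_comap (QuotientGroup.mk' N) (QuotientGroup.mk'_surjective N)
      ((H i).map (QuotientGroup.mk' N)) g
    rw [h1] at h2
    rw [h2]
  have hN0H : ∀ i, (N0 : Subgroup G) ≤ H i := fun i x hx =>
    Set.mem_iInter.1 (hN0 hx) i
  -- the set where `ψ ≠ 0` is compact
  have hclosed : IsClosed {g | ψ g ≠ 0} := by
    rw [← isOpen_compl_iff, isOpen_iff_mem_nhds]
    intro g hg
    have h0 : ψ g = 0 := by
      by_contra h
      exact hg h
    have hopen : IsOpen ((fun x => g⁻¹ * x) ⁻¹' (N0 : Set G)) :=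
      N0.isOpen.preimage (continuous_const_mul g⁻¹)
    refine Filter.mem_of_superset (hopen.mem_nhds ?_) ?_
    · simp only [Set.mem_preimage, inv_mul_cancel]
      exact N0.one_mem
    · intro x hx
      have h3 : QuotientGroup.mk' (N0 : Subgroup G) x = QuotientGroup.mk' (N0 : Subgroup G) g := by
        symm
        exact QuotientGroup.eq.2 hx
      intro hx0
      refine hx0 ?_
      have h4 := desc (N0 : Subgroup G) hN0H
      rw [h4 x, h3, ← h4 g, h0]
  have hcompact : IsCompact {g | ψ g ≠ 0} := hclosed.isCompact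
  have hcov : ∀ g, ψ g ≠ 0 → ∃ U : Subgroup G, IsOpen (U : Set G) ∧ g ∈ U ∧ good U := by
    intro g hg
    by_contra hne
    push Not at hne
    exact hg (hbad g hne)
  choose! U hUo hUg hUgood using hcov
  obtain ⟨t, htc⟩ := hcompact.elim_nhds_subcover' (fun g _ => (U g : Set G))
    (fun g hg => (hUo g hg).mem_nhds (hUg g hg))
  -- second open normal subgroup
  have hU1 : IsOpen ((N0 : Set G) ∩ ⋂ x ∈ t, (U (x : G) : Set G)) := by
    refine N0.isOpen.inter ?_
    exact isOpen_biInter_finset fun x _ => hUo _ x.2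
  have hone : (1 : G) ∈ ((N0 : Set G) ∩ ⋂ x ∈ t, (U (x : G) : Set G)) :=
    ⟨N0.one_mem, Set.mem_iInter₂.2 fun x _ => (U (x : G)).one_mem⟩
  obtain ⟨N, hN⟩ := ProfiniteGrp.exist_openNormalSubgroup_sub_open_nhds_of_one hU1 hone
  have hNN0 : (N : Subgroup G) ≤ (N0 : Subgroup G) := fun x hx => (hN hx).1
  have hNU : ∀ x ∈ t, (N : Subgroup G) ≤ U (x : G) := fun x hx y hy =>
    Set.mem_iInter₂.1 (hN hy).2 x hx
  have hNopen : IsOpen ((N : Subgroup G) : Set G) := N.isOpen
  have hfin : Finite (G ⧸ (N : Subgroup G)) := Subgroup.quotient_finite_of_isOpen _ hNopen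
  set π := QuotientGroup.mk' (N : Subgroup G) with hπ
  have hπs : Function.Surjective π := QuotientGroup.mk'_surjective _
  have hd : ∀ g, ψ g = ∑ i, a i * (fixCount ((H i).map π) (π g) : ℤ) :=
    desc (N : Subgroup G) fun i => hNN0.trans (hN0H i)
  set Ψ : G ⧸ (N : Subgroup G) → ℤ := fun x => ∑ i, a i * (fixCount ((H i).map π) x : ℤ) with hΨ
  have hΨψ : ∀ g, Ψ (π g) = ψ g := fun g => (hd g).symm
  obtain ⟨b, hb1, hb2⟩ := artin Ψ
    (fun x y hxy => Finset.sum_congr rfl fun i _ => by rw [fixCount_zpowers _ hxy])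
    (fun x g => Finset.sum_congr rfl fun i _ => by rw [fixCount_conj])
  have hfinS : Finite (Subgroup (G ⧸ (N : Subgroup G))) := inferInstance
  have hfinK : Fintype {C : Subgroup (G ⧸ (N : Subgroup G)) // b C ≠ 0} := Fintype.ofFinite _
  refine ⟨Nat.card (G ⧸ (N : Subgroup G)), {C : Subgroup (G ⧸ (N : Subgroup G)) // b C ≠ 0},
    hfinK, fun C => C.1.comap π, fun C => b C.1, Nat.card_pos, ?_, ?_⟩
  · rintro ⟨C, hC⟩
    constructor
    · refine Subgroup.isOpen_mono (H₁ := (N : Subgroup G)) ?_ hNopen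
      intro x hx
      rw [Subgroup.mem_comap]
      have : π x = 1 := (QuotientGroup.eq_one_iff x).2 hx
      rw [this]
      exact C.one_mem
    · obtain ⟨x, hx1, hx2⟩ := hb1 C hC
      obtain ⟨g, rfl⟩ := hπs x
      rw [hΨψ] at hx2
      have hgX : g ∈ {g | ψ g ≠ 0} := hx2
      obtain ⟨y, hy, hgy⟩ := Set.mem_iUnion₂.1 (htc hgX)
      refine hgood _ (U (y : G)) ?_ (hUgood _ y.2)
      refine (Subgroup.comap_mono hx1).trans ?_
      intro z hz
      rw [Subgroup.mem_comap, Subgroup.mem_zpowers_iff] at hz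
      obtain ⟨k, hk⟩ := hz
      have h5 : (g ^ k)⁻¹ * z ∈ (N : Subgroup G) := by
        rw [← map_zpow] at hk
        exact QuotientGroup.eq.1 hk
      have h6 := (U (y : G)).mul_mem ((U (y : G)).zpow_mem hgy k) (hNU y hy h5)
      rwa [mul_inv_cancel_left] at h6
  · intro g
    have h7 := hb2 (π g)
    rw [hΨψ] at h7
    have hF : Fintype (Subgroup (G ⧸ (N : Subgroup G))) := Fintype.ofFinite _
    rw [h7, finsum_eq_sum_of_fintype,
      ← Finset.sum_filter_of_ne (p := fun C => b C ≠ 0) (fun C _ hC hb => hC (by rw [hb, zero_mul])),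
      Finset.sum_subtype (Finset.univ.filter fun C => b C ≠ 0) (p := fun C => b C ≠ 0)
        (by simp)]
    refine Finset.sum_congr rfl fun C _ => ?_
    rw [fixCount_comap π hπs]

end Pool.BK
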