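import Pool.Agent.Helper95.BK.Defs2

/-!
Permutation characters of cosets and induction.
-/

namespace Pool.BK

namespace FixInd

variable {G : Type} [Group G] {U H : Subgroup G}

theorem conj_mem {g : G} (z : MulAction.fixedBy (G ⧸ H) g) : z.1.out⁻¹ * g * z.1.out ∈ H := by
  have h1 : g • z.1 = z.1 := z.2
  have h2 : ((g * z.1.out : G) : G ⧸ H) = (z.1.out : G ⧸ H) := by
    rw [QuotientGroup.out_eq' z.1]
    conv_rhs => rw [← h1]
    conv_rhs => rw [← QuotientGroup.out_eq' z.1]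
    rfl
  rw [eq_comm, QuotientGroup.eq] at h2
  simpa [mul_assoc] using h2

/-- the map of a fibre into the cosets of `U` -/
noncomputable def F (U H : Subgroup G) (z : G ⧸ H) : H ⧸ U.subgroupOf H → G ⧸ U :=
  Quotient.map' (fun b : H => z.out * (b : G)) (by
    intro a b hab
    rw [QuotientGroup.leftRel_apply] at hab ⊢
    rw [Subgroup.mem_subgroupOf] at hab
    simpa [mul_assoc] using hab)

theorem F_mk (z : G ⧸ H) (b : H) :
    F U H z (b : H ⧸ U.subgroupOf H) = ((z.out * (b : G) : G) : G ⧸ U) := rfl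

theorem fixed_iff (g a : G) : g • (a : G ⧸ U) = a ↔ a⁻¹ * g * a ∈ U := by
  rw [eq_comm, show g • (a : G ⧸ U) = ((g * a : G) : G ⧸ U) from rfl, QuotientGroup.eq, mul_assoc]

theorem card_eq (hUH : U ≤ H) [H.FiniteIndex] [U.FiniteIndex] (g : G) :
    fixCount U g = ∑ᶠ z : MulAction.fixedBy (G ⧸ H) g,
      fixCount (U.subgroupOf H) ⟨z.1.out⁻¹ * g * z.1.out, conj_mem z⟩ := by
  classical
  have hHf : Finite (G ⧸ H) := inferInstance
  have hUf : Finite (G ⧸ U) := inferInstance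
  have : Fintype (MulAction.fixedBy (G ⧸ H) g) := Fintype.ofFinite _
  have hfi : (U.subgroupOf H).FiniteIndex := inferInstance
  rw [finsum_eq_sum_of_fintype]
  have e : (Σ z : MulAction.fixedBy (G ⧸ H) g, MulAction.fixedBy (H ⧸ U.subgroupOf H)
      (⟨z.1.out⁻¹ * g * z.1.out, conj_mem z⟩ : H)) ≃ MulAction.fixedBy (G ⧸ U) g := by
    refine Equiv.ofBijective (fun p => ⟨F U H p.1.1 p.2.1, ?_⟩) ⟨?_, ?_⟩
    · obtain ⟨z, w, hw⟩ := p
      obtain ⟨b, rfl⟩ := QuotientGroup.mk_surjective w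
      change g • F U H z.1 (b : H ⧸ U.subgroupOf H) = F U H z.1 (b : H ⧸ U.subgroupOf H)
      rw [F_mk, fixed_iff]
      have h1 : b⁻¹ * (⟨z.1.out⁻¹ * g * z.1.out, conj_mem z⟩ : H) * b ∈ U.subgroupOf H :=
        (fixed_iff _ _).1 hw
      rw [Subgroup.mem_subgroupOf] at h1
      simpa [mul_assoc] using h1
    · rintro ⟨z, w, hw⟩ ⟨z', w', hw'⟩ h
      obtain ⟨b, rfl⟩ := QuotientGroup.mk_surjective w
      obtain ⟨b', rfl⟩ := QuotientGroup.mk_surjective w'
      have h1 : ((z.1.out * (b : G) : G) : G ⧸ U) = ((z'.1.out * (b' : G) : G) : G ⧸ U) :=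
        congrArg Subtype.val h
      have h2 : ((z.1.out * (b : G) : G) : G ⧸ H) = ((z'.1.out * (b' : G) : G) : G ⧸ H) := by
        rw [QuotientGroup.eq] at h1 ⊢
        exact hUH h1
      have h3 : z = z' := by
        apply Subtype.ext
        have h4 : ∀ (y : G ⧸ H) (c : H), ((y.out * (c : G) : G) : G ⧸ H) = y := by
          intro y c
          conv_rhs => rw [← QuotientGroup.out_eq' y]
          rw [QuotientGroup.eq]
          simp
        rw [h4, h4] at h2
        exact h2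
      subst h3
      have h5 : (b : H ⧸ U.subgroupOf H) = b' := by
        rw [QuotientGroup.eq] at h1 ⊢
        rw [Subgroup.mem_subgroupOf]
        simpa [mul_assoc] using h1
      simp only [h5]
    · rintro ⟨y, hy⟩
      obtain ⟨a, rfl⟩ := QuotientGroup.mk_surjective y
      have hy' : a⁻¹ * g * a ∈ U := (fixed_iff g a).1 hy
      let z : MulAction.fixedBy (G ⧸ H) g := ⟨(a : G ⧸ H), (fixed_iff g a).2 (hUH hy')⟩
      have hb : z.1.out⁻¹ * a ∈ H := by
        rw [← QuotientGroup.eq, QuotientGroup.out_eq']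
      refine ⟨⟨z, ⟨((⟨z.1.out⁻¹ * a, hb⟩ : H) : H ⧸ U.subgroupOf H), ?_⟩⟩, ?_⟩
      · refine (fixed_iff _ _).2 ?_
        rw [Subgroup.mem_subgroupOf]
        have : ((z.1.out⁻¹ * a)⁻¹ * (z.1.out⁻¹ * g * z.1.out) * (z.1.out⁻¹ * a) : G) =
            a⁻¹ * g * a := by group
        change ((z.1.out⁻¹ * a)⁻¹ * (z.1.out⁻¹ * g * z.1.out) * (z.1.out⁻¹ * a) : G) ∈ U
        rw [this]
        exact hy'
      · apply Subtype.ext
        change F U H z.1 ((⟨z.1.out⁻¹ * a, hb⟩ : H) : H ⧸ U.subgroupOf H) = (a : G ⧸ U)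
        rw [F_mk]
        congr 1
        group
  rw [fixCount, ← Nat.card_congr e, Nat.card_sigma]
  rfl

/-- a relation over a subgroup induces a relation over the group -/
theorem induced [H.FiniteIndex] {ι : Type} [Fintype ι] (S : ι → Subgroup G) (hS : ∀ i, S i ≤ H)
    [∀ i, (S i).FiniteIndex] (a : ι → ℤ) (c : ℤ)
    (h : ∀ x : H, ∑ i, a i * (fixCount ((S i).subgroupOf H) x : ℤ) = c) (g : G) :
    ∑ i, a i * (fixCount (S i) g : ℤ) = c * (fixCount H g : ℤ) := by
  classical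
  have hHf : Finite (G ⧸ H) := inferInstance
  have : Fintype (MulAction.fixedBy (G ⧸ H) g) := Fintype.ofFinite _
  simp only [card_eq (hS _), finsum_eq_sum_of_fintype]
  push_cast
  simp only [Finset.mul_sum]
  rw [Finset.sum_comm]
  simp only [h, Finset.sum_const, Finset.card_univ, nsmul_eq_mul]
  rw [fixCount, Nat.card_eq_fintype_card, mul_comm]

end FixInd

end Pool.BK
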