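import Mathlib

/-!
Finite products of integer powers of convergent products and of meromorphic functions.
-/

open Filter Topology

namespace Pool.BK

namespace Analytic

theorem hasProd_inv {β : Type} {f : β → ℂ} {z : ℂ} (h : HasProd f z) (hz : z ≠ 0) :
    HasProd (fun b => (f b)⁻¹) z⁻¹ := by
  have h1 : Tendsto (fun s : Finset β => (∏ b ∈ s, f b)⁻¹)
      (SummationFilter.unconditional β).filter (𝓝 z⁻¹) :=
    Tendsto.inv₀ h hz
  have h2 : (fun s : Finset β => ∏ b ∈ s, (f b)⁻¹) = fun s : Finset β => (∏ b ∈ s, f b)⁻¹ := by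
    funext s
    rw [Finset.prod_inv_distrib]
  change Tendsto (fun s : Finset β => ∏ b ∈ s, (f b)⁻¹) _ _
  rw [h2]
  exact h1

theorem hasProd_pow {β : Type} {f : β → ℂ} {z : ℂ} (h : HasProd f z) (n : ℕ) :
    HasProd (fun b => f b ^ n) (z ^ n) := by
  have h1 : Tendsto (fun s : Finset β => (∏ b ∈ s, f b) ^ n)
      (SummationFilter.unconditional β).filter (𝓝 (z ^ n)) :=
    Tendsto.pow h n
  have h2 : (fun s : Finset β => ∏ b ∈ s, (f b) ^ n) = fun s : Finset β => (∏ b ∈ s, f b) ^ n := by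
    funext s
    rw [Finset.prod_pow]
  change Tendsto (fun s : Finset β => ∏ b ∈ s, (f b) ^ n) _ _
  rw [h2]
  exact h1

theorem hasProd_zpow_one {β : Type} {f : β → ℂ} {z : ℂ} (h : HasProd f z) (hz : z ≠ 0) (a : ℤ) :
    HasProd (fun b => f b ^ a) (z ^ a) := by
  cases a with
  | ofNat n =>
    simp only [Int.ofNat_eq_natCast, zpow_natCast]
    exact hasProd_pow h n
  | negSucc n =>
    simp only [zpow_negSucc]
    exact hasProd_inv (hasProd_pow h (n + 1)) (pow_ne_zero _ hz)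

end Analytic

theorem hasProd_zpow {β ι : Type} [Fintype ι] (f : ι → β → ℂ) (z : ι → ℂ) (hz : ∀ i, z i ≠ 0)
    (h : ∀ i, HasProd (f i) (z i)) (a : ι → ℤ) :
    HasProd (fun b => ∏ i, f i b ^ a i) (∏ i, z i ^ a i) := by
  have h1 : ∀ i, Tendsto (fun s : Finset β => ∏ b ∈ s, f i b ^ a i)
      (SummationFilter.unconditional β).filter (𝓝 (z i ^ a i)) := fun i =>
    Analytic.hasProd_zpow_one (h i) (hz i) (a i)
  have h2 := tendsto_finsetProd (Finset.univ : Finset ι) (fun i _ => h1 i)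
  have h3 : (fun s : Finset β => ∏ b ∈ s, ∏ i, f i b ^ a i) =
      fun s : Finset β => ∏ i, ∏ b ∈ s, f i b ^ a i := by
    funext s
    rw [Finset.prod_comm]
  change Tendsto (fun s : Finset β => ∏ b ∈ s, ∏ i, f i b ^ a i) _ _
  rw [h3]
  exact h2

theorem ne_zero_of_hasProd {β : Type} {f : β → ℂ} {z : ℂ} (h : HasProd f z) (hz : z ≠ 0) (b : β) :
    f b ≠ 0 := by
  intro hb
  apply hz
  have h1 : Tendsto (fun s : Finset β => ∏ c ∈ s, f c) atTop (𝓝 z) := by
    have := h
    rw [HasProd, SummationFilter.unconditional_filter] at this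
    exact this
  have h2 : Tendsto (fun s : Finset β => ∏ c ∈ s, f c) atTop (𝓝 0) := by
    refine tendsto_const_nhds.congr' ?_
    filter_upwards [eventually_ge_atTop ({b} : Finset β)] with s hs
    exact (Finset.prod_eq_zero (hs (Finset.mem_singleton_self b)) hb).symm
  exact tendsto_nhds_unique h1 h2

theorem order_prod_zpow {ι : Type} [Fintype ι] (Λ : ι → ℂ → ℂ) (x : ℂ)
    (h : ∀ i, MeromorphicAt (Λ i) x) (a : ι → ℤ) (m : ι → ℤ)
    (hm : ∀ i, meromorphicOrderAt (Λ i) x = (m i : WithTop ℤ)) :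
    MeromorphicAt (fun s => ∏ i, Λ i s ^ a i) x ∧
    meromorphicOrderAt (fun s => ∏ i, Λ i s ^ a i) x = ((∑ i, a i * m i : ℤ) : WithTop ℤ) := by
  classical
  suffices H : ∀ S : Finset ι, MeromorphicAt (fun s => ∏ i ∈ S, Λ i s ^ a i) x ∧
      meromorphicOrderAt (fun s => ∏ i ∈ S, Λ i s ^ a i) x =
        ((∑ i ∈ S, a i * m i : ℤ) : WithTop ℤ) from H Finset.univ
  intro S
  induction S using Finset.induction_on with
  | empty =>
    simp only [Finset.prod_empty, Finset.sum_empty]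
    refine ⟨MeromorphicAt.const 1 x, ?_⟩
    rw [meromorphicOrderAt_const]
    simp
  | insert j S hj ih =>
    obtain ⟨ih1, ih2⟩ := ih
    have e1 : (fun s => ∏ i ∈ insert j S, Λ i s ^ a i) =
        (Λ j ^ a j) * (fun s => ∏ i ∈ S, Λ i s ^ a i) := by
      funext s
      simp only [Pi.mul_apply, Pi.pow_apply]
      rw [Finset.prod_insert hj]
    have h1 : MeromorphicAt (Λ j ^ a j) x := (h j).zpow (a j)
    rw [e1]
    refine ⟨h1.mul ih1, ?_⟩
    rw [meromorphicOrderAt_mul h1 ih1, ih2, meromorphicOrderAt_zpow (h j), hm j,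
      Finset.sum_insert hj]
    push_cast
    rfl

end Pool.BK
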