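import Pool.Agent.BK.ConvergeCore

/-!
An Euler product whose local polynomials have bounded degree and no small roots converges to a
nonzero value in a right half plane.
-/

open scoped Pointwise NumberField
open Polynomial IsDedekindDomain Filter Topology

namespace Pool.BK

theorem halfplane_of_roots (K : Type) [Field K] [NumberField K]
    (P : HeightOneSpectrum (𝓞 K) → ℚ[X]) (d : ℕ) (hd : ∀ v, (P v).natDegree ≤ d)
    (h0 : ∀ v, (P v).coeff 0 = 1) (σ : ℝ)
    (hσ : ∀ v (x : ℂ), ‖x‖ < (v.asIdeal.absNorm : ℝ) ^ (-σ) → aeval x (P v) ≠ 0) :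
    ∃ σ' : ℝ, ∀ s : ℂ, σ' < s.re → ∃ z : ℂ, z ≠ 0 ∧ HasProd (eulerFactor K P s) z := by
  -- norms of places
  have hN1 : ∀ v : HeightOneSpectrum (𝓞 K), (1 : ℝ) < (v.asIdeal.absNorm : ℝ) := by
    intro v
    have h0 : v.asIdeal.absNorm ≠ 0 := by
      rw [Ne, Ideal.absNorm_eq_zero_iff]; exact v.ne_bot
    have h1 : v.asIdeal.absNorm ≠ 1 := by
      rw [Ne, Ideal.absNorm_eq_one_iff]; exact v.isPrime.ne_top
    exact_mod_cast (by omega : 1 < v.asIdeal.absNorm)
  -- roots are not small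
  have hroot : ∀ (v : HeightOneSpectrum (𝓞 K)) (α : ℂ), aeval α (P v) = 0 →
      (v.asIdeal.absNorm : ℝ) ^ (-σ) ≤ ‖α‖ := by
    intro v α hα
    by_contra hc
    exact hσ v α (not_le.1 hc) hα
  refine ⟨σ + 1, fun s hs => ?_⟩
  let t : ℝ := s.re - σ
  have ht : 1 < t := by simp only [t]; linarith
  have hsum := Converge.summable_absNorm K ht
  let a : HeightOneSpectrum (𝓞 K) → ℂ := fun v =>
    aeval ((v.asIdeal.absNorm : ℂ) ^ (-s)) (P v) - 1
  have hnorm : ∀ v : HeightOneSpectrum (𝓞 K),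
      ‖((v.asIdeal.absNorm : ℂ) ^ (-s))‖ = (v.asIdeal.absNorm : ℝ) ^ (-s.re) := by
    intro v
    rw [Complex.norm_natCast_cpow_of_pos, Complex.neg_re]
    have := hN1 v
    exact_mod_cast (by linarith : (0 : ℝ) < (v.asIdeal.absNorm : ℝ))
  have hbound : ∀ v, ‖a v‖ ≤ (d * Real.exp d) * (v.asIdeal.absNorm : ℝ) ^ (-t) := by
    intro v
    have hN := hN1 v
    have hNpos : (0 : ℝ) < (v.asIdeal.absNorm : ℝ) := by linarith
    have h1 := Converge.eval_bound ((P v).map (algebraMap ℚ ℂ)) (by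
        rw [coeff_map, h0 v, map_one]) (d := d)
      ((natDegree_map_le).trans (hd v)) (ρ := (v.asIdeal.absNorm : ℝ) ^ (-σ))
      (by positivity) (by
        intro α hα
        apply hroot v α
        rwa [eval_map_algebraMap] at hα) ((v.asIdeal.absNorm : ℂ) ^ (-s))
    rw [eval_map_algebraMap, hnorm, ← Real.rpow_sub hNpos] at h1
    have h2 : -s.re - -σ = -t := by simp only [t]; ring
    rw [h2] at h1
    refine h1.trans (Converge.exp_sub_one_le.trans ?_)
    have h3 : (v.asIdeal.absNorm : ℝ) ^ (-t) ≤ 1 :=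
      Real.rpow_le_one_of_one_le_of_nonpos hN.le (by linarith)
    have h4 : Real.exp (d * (v.asIdeal.absNorm : ℝ) ^ (-t)) ≤ Real.exp d := by
      apply Real.exp_le_exp.2
      have : (0 : ℝ) ≤ d := Nat.cast_nonneg d
      nlinarith
    have h5 : (0 : ℝ) ≤ d * (v.asIdeal.absNorm : ℝ) ^ (-t) := by positivity
    calc (d * (v.asIdeal.absNorm : ℝ) ^ (-t)) * Real.exp (d * (v.asIdeal.absNorm : ℝ) ^ (-t))
        ≤ (d * (v.asIdeal.absNorm : ℝ) ^ (-t)) * Real.exp d := mul_le_mul_of_nonneg_left h4 h5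
      _ = (d * Real.exp d) * (v.asIdeal.absNorm : ℝ) ^ (-t) := by ring
  have ha : Summable fun v => ‖a v‖ :=
    Summable.of_nonneg_of_le (fun _ => norm_nonneg _) hbound (hsum.mul_left _)
  have hne : ∀ v, 1 + a v ≠ 0 := by
    intro v h0
    have h1 : aeval ((v.asIdeal.absNorm : ℂ) ^ (-s)) (P v) = 0 := by
      simp only [a] at h0
      linear_combination h0
    have h2 := hroot v _ h1
    rw [hnorm] at h2
    have h3 := (Real.rpow_le_rpow_left_iff (hN1 v)).1 h2
    linarith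
  have hz := tprod_one_add_ne_zero_of_summable hne ha
  have hprod := (multipliable_one_add_of_summable ha).hasProd
  refine ⟨(∏' v, (1 + a v))⁻¹, inv_ne_zero hz, ?_⟩
  have h1 := hprod.inv₀ hz
  have h2 : eulerFactor K P s = fun v => (1 + a v)⁻¹ := by
    funext v
    simp only [eulerFactor, a, add_sub_cancel]
  rw [h2]
  exact h1

end Pool.BK
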