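import Pool.Agent.Helper95.BK.Defs2

/-!
The Galois group of the algebraic closure of a number field acting on the primes of its ring of
integers: transitivity, existence of Frobenius elements, and generation of the decomposition
group by a Frobenius element and the inertia group modulo an open normal subgroup.
-/

open scoped Pointwise NumberField
open Polynomial IsDedekindDomain

namespace Pool.BK

namespace Frob

section General

universe u

variable {A B : Type*} [CommRing A] [CommRing B] [Algebra A B]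
variable {G : Type u} [Group G] [MulSemiringAction G B]

/-- An element which acts on the residue ring as a power map is in the decomposition group. -/
theorem mem_stabilizer_of_pow (Q : Ideal B) [Q.IsMaximal] (φ : G) (n : ℕ) (hn : n ≠ 0)
    (hφ : ∀ x : B, φ • x - x ^ n ∈ Q) : φ ∈ MulAction.stabilizer G Q := by
  have h : φ • Q ≤ Q := by
    intro y hy
    rw [Ideal.mem_pointwise_smul_iff_inv_smul_mem] at hy
    have h1 := hφ (φ⁻¹ • y)
    rw [smul_inv_smul] at h1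
    have h2 := Q.pow_mem_of_mem hy n (Nat.pos_of_ne_zero hn)
    simpa using Q.add_mem h1 h2
  have hne : (φ • Q : Ideal B).IsMaximal := by
    have : (φ • Q : Ideal B) = Q.map (MulSemiringAction.toRingEquiv G B φ) := by
      rfl
    rw [this]
    exact Ideal.map_isMaximal_of_equiv _
  exact MulAction.mem_stabilizer_iff.2 (hne.eq_of_le (Ideal.IsMaximal.ne_top ‹_›) h)

variable [SMulCommClass G A B]
variable [TopologicalSpace G] [CompactSpace G] [TotallyDisconnectedSpace G]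
variable [IsTopologicalGroup G] [TopologicalSpace B] [DiscreteTopology B] [ContinuousSMul G B]

attribute [local instance] Ideal.Quotient.field in
theorem exists_pow [Algebra.IsInvariant A B G] (P : Ideal A) (Q : Ideal B) [P.IsMaximal]
    [Q.IsMaximal] [Q.LiesOver P] [Finite (A ⧸ P)] :
    ∃ φ : G, ∀ x : B, φ • x - x ^ Nat.card (A ⧸ P) ∈ Q := by
  have hint : Algebra.IsIntegral A B := Algebra.IsInvariant.isIntegral_of_profinite (G := G)
  have halg : Algebra.IsAlgebraic (A ⧸ P) (B ⧸ Q) := inferInstance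
  let _ : Fintype (A ⧸ P) := Fintype.ofFinite _
  obtain ⟨φ, hφ⟩ := Ideal.Quotient.stabilizerHom_surjective_of_profinite (G := G) P Q
    (FiniteField.frobeniusAlgEquivOfAlgebraic (A ⧸ P) (B ⧸ Q))
  refine ⟨φ, fun x => ?_⟩
  have h := congrArg (fun f => f (Ideal.Quotient.mk Q x)) hφ
  simp only [Ideal.Quotient.stabilizerHom_apply, FiniteField.coe_frobeniusAlgEquivOfAlgebraic] at h
  rw [← Ideal.Quotient.eq, map_pow, Nat.card_eq_fintype_card, ← h]
  rfl

attribute [local instance] Ideal.Quotient.field in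
theorem decomp [Algebra.IsInvariant A B G] (P : Ideal A) (Q : Ideal B) [P.IsMaximal]
    [Q.IsMaximal] [Q.LiesOver P] [Finite (A ⧸ P)] (φ : G)
    (hφ : ∀ x : B, φ • x - x ^ Nat.card (A ⧸ P) ∈ Q) (N : Subgroup G) [N.Normal]
    (hN : IsOpen (N : Set G)) (d : G) (hd : d ∈ MulAction.stabilizer G Q) :
    ∃ m : ℕ, ∃ j ∈ Q.inertia G, ∃ x ∈ N, d = φ ^ m * j * x := by
  let _ : Fintype (A ⧸ P) := Fintype.ofFinite _
  have hφs : φ ∈ MulAction.stabilizer G Q :=
    mem_stabilizer_of_pow Q φ _ Nat.card_pos.ne' hφ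
  let B' := FixedPoints.subalgebra A B N
  have hNc : IsClosed (N : Set G) := Subgroup.isClosed_of_isOpen N hN
  have hNcomp : CompactSpace N := isCompact_iff_compactSpace.1 hNc.isCompact
  have hNcont : ContinuousSMul N B := inferInstance
  have hcomm : SMulCommClass N B' B := ⟨fun n b x => by
    change n • ((b : B) * x) = (b : B) * n • x
    rw [smul_mul']
    congr 1
    exact b.2 n⟩
  have hinv : Algebra.IsInvariant B' B N := ⟨fun b hb => ⟨⟨b, hb⟩, rfl⟩⟩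
  have hintB : Algebra.IsIntegral B' B := Algebra.IsInvariant.isIntegral_of_profinite (G := N)
  let q : Ideal B' := Q.under B'
  have hqmax : q.IsMaximal := Ideal.isMaximal_comap_of_isIntegral_of_isMaximal Q
  have hfinG : Finite (G ⧸ N) := Subgroup.quotient_finite_of_isOpen N hN
  have hqP : q.LiesOver P := ⟨by
    rw [Ideal.LiesOver.over (P := Q) (p := P)]
    rfl⟩
  have hintA : Algebra.IsIntegral A B' := Algebra.IsInvariant.isIntegral A B' (G ⧸ N)
  have hintq : Algebra.IsIntegral (A ⧸ P) (B' ⧸ q) := inferInstance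
  have halg : Algebra.IsAlgebraic (A ⧸ P) (B' ⧸ q) := hintq.isAlgebraic
  have hsep : Algebra.IsSeparable (A ⧸ P) (B' ⧸ q) := Algebra.IsAlgebraic.isSeparable_of_perfectField
  have hfin : Module.Finite (A ⧸ P) (B' ⧸ q) :=
    Ideal.Quotient.finite_of_isInvariant (G := G ⧸ N) P q
  have hfin' : Finite (B' ⧸ q) := Module.finite_of_finite (A ⧸ P)
  have hdq : (d : G ⧸ N) ∈ MulAction.stabilizer (G ⧸ N) q := by
    rw [MulAction.mem_stabilizer_iff]
    ext y
    rw [Ideal.mem_pointwise_smul_iff_inv_smul_mem]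
    change d⁻¹ • (y : B) ∈ Q ↔ (y : B) ∈ Q
    rw [← Ideal.mem_pointwise_smul_iff_inv_smul_mem, MulAction.mem_stabilizer_iff.1 hd]
  obtain ⟨m, hm⟩ := (FiniteField.bijective_frobeniusAlgEquivOfAlgebraic_pow (A ⧸ P) (B' ⧸ q)).2
    (Ideal.Quotient.stabilizerHom q P (G ⧸ N) ⟨(d : G ⧸ N), hdq⟩)
  have hm' : ∀ y : B', d • (y : B) - (y : B) ^ (Nat.card (A ⧸ P) ^ (m : ℕ)) ∈ Q := by
    intro y
    have h := congrArg (fun f => f (Ideal.Quotient.mk q y)) hm
    simp only [Ideal.Quotient.stabilizerHom_apply, AlgEquiv.coe_pow,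
      FiniteField.coe_frobeniusAlgEquivOfAlgebraic_iterate] at h
    rw [← map_pow] at h
    have h2 := (Ideal.Quotient.eq (I := q)).1 h
    rw [← Nat.card_eq_fintype_card] at h2
    have h3 : (((d : G ⧸ N) • y - y ^ (Nat.card (A ⧸ P) ^ (m : ℕ)) : B') : B) ∈ Q := by
      have := q.neg_mem h2
      rw [neg_sub] at this
      exact this
    exact h3
  have hpow : ∀ (k : ℕ) (x : B), φ ^ k • x - x ^ (Nat.card (A ⧸ P) ^ k) ∈ Q := by
    intro k
    induction k with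
    | zero => intro x; simp
    | succ k ih =>
      intro x
      have h1 := hφ (φ ^ k • x)
      have h2 : (φ ^ k • x) ^ Nat.card (A ⧸ P) - (x ^ (Nat.card (A ⧸ P) ^ k)) ^ Nat.card (A ⧸ P) ∈
          Q := by
        rw [← Ideal.Quotient.eq, map_pow, map_pow _ (x ^ _), (Ideal.Quotient.eq).2 (ih x)]
      have h3 := Q.add_mem h1 h2
      rw [sub_add_sub_cancel, ← pow_mul, ← pow_succ, smul_smul, ← pow_succ'] at h3
      exact h3
  have hes : (φ ^ (m : ℕ))⁻¹ * d ∈ MulAction.stabilizer G Q :=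
    mul_mem (inv_mem (pow_mem hφs _)) hd
  have hstab : ∀ g ∈ MulAction.stabilizer G Q, ∀ x : B, g • x ∈ Q ↔ x ∈ Q := by
    intro g hg x
    have h : g • x ∈ g • Q ↔ x ∈ Q := Ideal.smul_mem_pointwise_smul_iff
    rwa [MulAction.mem_stabilizer_iff.1 hg] at h
  have he : ∀ y : B', ((φ ^ (m : ℕ))⁻¹ * d) • (y : B) - (y : B) ∈ Q := by
    intro y
    rw [← hstab _ (pow_mem hφs m), smul_sub, smul_smul, mul_inv_cancel_left]
    have := Q.sub_mem (hm' y) (hpow m y)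
    rwa [sub_sub_sub_cancel_right] at this
  let τ : (B ⧸ Q) ≃ₐ[A ⧸ P] (B ⧸ Q) :=
    Ideal.Quotient.stabilizerHom Q P G ⟨(φ ^ (m : ℕ))⁻¹ * d, hes⟩
  let σ : (B ⧸ Q) ≃ₐ[B' ⧸ q] (B ⧸ Q) := AlgEquiv.ofRingEquiv (f := (τ : (B ⧸ Q) ≃+* (B ⧸ Q))) (by
    intro y
    obtain ⟨y, rfl⟩ := Ideal.Quotient.mk_surjective y
    exact (Ideal.Quotient.eq (I := Q)).2 (he y))
  obtain ⟨x, hx⟩ := Ideal.Quotient.stabilizerHom_surjective_of_profinite (G := N) q Q σ
  have hx' : ∀ b : B, ((φ ^ (m : ℕ))⁻¹ * d) • b - (x : G) • b ∈ Q := by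
    intro b
    have h := congrArg (fun f => f (Ideal.Quotient.mk Q b)) hx
    exact (Ideal.Quotient.eq (I := Q)).1 h.symm
  refine ⟨m, (φ ^ (m : ℕ))⁻¹ * d * (x : G)⁻¹, fun b => ?_, x, x.1.2, ?_⟩
  · have h := hx' ((x : G)⁻¹ • b)
    rwa [smul_smul, smul_inv_smul] at h
  · rw [← mul_assoc, mul_inv_cancel_left, inv_mul_cancel_right]

end General

section Specific

variable {K : Type} [Field K] {Ω : Type} [Field Ω] [Algebra K Ω]

theorem coe_smul (g : Ω ≃ₐ[K] Ω) (x : 𝓞 Ω) : ((g • x : 𝓞 Ω) : Ω) = g (x : Ω) := rfl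

instance smulCommClass : SMulCommClass (Ω ≃ₐ[K] Ω) (𝓞 K) (𝓞 Ω) := ⟨fun g a x => by
  apply NumberField.RingOfIntegers.ext
  rw [coe_smul, Algebra.smul_def, Algebra.smul_def]
  simp only [map_mul, coe_smul]
  congr 1
  exact g.commutes (a : K)⟩

theorem isGalois [CharZero K] [IsAlgClosed Ω] [Algebra.IsAlgebraic K Ω] : IsGalois K Ω := by
  have h1 : IsAlgClosure K Ω := ⟨inferInstance, inferInstance⟩
  have h2 : Normal K Ω := IsAlgClosure.normal K Ω
  exact ⟨⟩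

theorem isInvariant [IsGalois K Ω] : Algebra.IsInvariant (𝓞 K) (𝓞 Ω) (Ω ≃ₐ[K] Ω) := ⟨fun b hb => by
  obtain ⟨k, hk⟩ := (InfiniteGalois.mem_range_algebraMap_iff_fixed (k := K) (b : Ω)).2
    fun f => by rw [← coe_smul, hb f]
  have hint : IsIntegral ℤ k := by
    have h : IsIntegral ℤ (algebraMap K Ω k) := by
      rw [hk]
      exact b.isIntegral_coe
    exact (isIntegral_algebraMap_iff (algebraMap K Ω).injective).1 h
  refine ⟨⟨k, hint⟩, ?_⟩
  apply NumberField.RingOfIntegers.ext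
  exact hk⟩

theorem stabilizer_isOpen [Algebra.IsAlgebraic K Ω] (x : 𝓞 Ω) :
    IsOpen (MulAction.stabilizer (Ω ≃ₐ[K] Ω) x : Set (Ω ≃ₐ[K] Ω)) := by
  have h := stabilizer_isOpen_of_isIntegral (K := K) (x : Ω)
  convert! h using 2
  ext g
  rw [MulAction.mem_stabilizer_iff, MulAction.mem_stabilizer_iff]
  exact ⟨fun h => congrArg (fun y : 𝓞 Ω => (y : Ω)) h, fun h => NumberField.RingOfIntegers.ext h⟩

theorem continuousSMul [Algebra.IsAlgebraic K Ω] [TopologicalSpace (𝓞 Ω)]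
    [DiscreteTopology (𝓞 Ω)] : ContinuousSMul (Ω ≃ₐ[K] Ω) (𝓞 Ω) :=
  continuousSMul_iff_stabilizer_isOpen.2 stabilizer_isOpen

theorem isMaximal [NumberField K] (v : HeightOneSpectrum (𝓞 K)) (Q : Ideal (𝓞 Ω)) (hQ : Q.IsPrime)
    (hv : Q.under (𝓞 K) = v.asIdeal) : Q.IsMaximal := by
  apply Ideal.isMaximal_of_isIntegral_of_isMaximal_comap (R := 𝓞 K)
  change (Q.under (𝓞 K)).IsMaximal
  rw [hv]
  exact v.isMaximal

theorem liesOver [NumberField K] (v : HeightOneSpectrum (𝓞 K)) (Q : Ideal (𝓞 Ω))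
    (hv : Q.under (𝓞 K) = v.asIdeal) : Q.LiesOver v.asIdeal := ⟨hv.symm⟩

theorem absNorm_eq [NumberField K] (v : HeightOneSpectrum (𝓞 K)) :
    v.asIdeal.absNorm = Nat.card (𝓞 K ⧸ v.asIdeal) := by
  rw [Ideal.absNorm_apply, Submodule.cardQuot_apply]

end Specific

end Frob

section Places

variable {K : Type} [Field K] [NumberField K] {Ω : Type} [Field Ω] [Algebra K Ω] [IsAlgClosed Ω]
  [Algebra.IsAlgebraic K Ω]

theorem under_smul (g : Ω ≃ₐ[K] Ω) (Q : Ideal (𝓞 Ω)) : (g • Q).under (𝓞 K) = Q.under (𝓞 K) := by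
  ext a
  change algebraMap (𝓞 K) (𝓞 Ω) a ∈ g • Q ↔ algebraMap (𝓞 K) (𝓞 Ω) a ∈ Q
  rw [Ideal.mem_pointwise_smul_iff_inv_smul_mem, smul_algebraMap]

theorem exists_smul_eq (Q Q' : Ideal (𝓞 Ω)) (hQ : Q.IsPrime) (hQ' : Q'.IsPrime)
    (h : Q.under (𝓞 K) = Q'.under (𝓞 K)) : ∃ g : Ω ≃ₐ[K] Ω, g • Q = Q' := by
  let _ : TopologicalSpace (𝓞 Ω) := ⊥
  have : DiscreteTopology (𝓞 Ω) := ⟨rfl⟩
  have : IsGalois K Ω := Frob.isGalois
  have := Frob.isInvariant (K := K) (Ω := Ω)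
  have := Frob.continuousSMul (K := K) (Ω := Ω)
  obtain ⟨g, hg⟩ := Algebra.IsInvariant.exists_smul_of_under_eq_of_profinite (A := 𝓞 K)
    (G := Ω ≃ₐ[K] Ω) Q Q' h
  exact ⟨g, hg.symm⟩

theorem exists_over (v : HeightOneSpectrum (𝓞 K)) :
    ∃ Q : Ideal (𝓞 Ω), Q.IsPrime ∧ Q.under (𝓞 K) = v.asIdeal := by
  obtain ⟨Q, -, h1, h2⟩ := Ideal.exists_ideal_over_prime_of_isIntegral v.asIdeal
    (⊥ : Ideal (𝓞 Ω)) (by
      rw [← RingHom.ker_eq_comap_bot, (RingHom.injective_iff_ker_eq_bot _).1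
        (FaithfulSMul.algebraMap_injective (𝓞 K) (𝓞 Ω))]
      exact bot_le)
  exact ⟨Q, h1, h2⟩

theorem exists_frob (v : HeightOneSpectrum (𝓞 K)) (Q : Ideal (𝓞 Ω)) (hQ : Q.IsPrime)
    (hv : Q.under (𝓞 K) = v.asIdeal) :
    ∃ φ : Ω ≃ₐ[K] Ω, ∀ x : 𝓞 Ω, φ • x - x ^ v.asIdeal.absNorm ∈ Q := by
  let _ : TopologicalSpace (𝓞 Ω) := ⊥
  have : DiscreteTopology (𝓞 Ω) := ⟨rfl⟩
  have : IsGalois K Ω := Frob.isGalois
  have := Frob.isInvariant (K := K) (Ω := Ω)
  have := Frob.continuousSMul (K := K) (Ω := Ω)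
  have := v.isMaximal
  have := Frob.isMaximal v Q hQ hv
  have := Frob.liesOver v Q hv
  rw [Frob.absNorm_eq]
  exact Frob.exists_pow v.asIdeal Q

theorem frob_mem_stabilizer (v : HeightOneSpectrum (𝓞 K)) (Q : Ideal (𝓞 Ω)) (hQ : Q.IsPrime)
    (hv : Q.under (𝓞 K) = v.asIdeal) (φ : Ω ≃ₐ[K] Ω)
    (hφ : ∀ x : 𝓞 Ω, φ • x - x ^ v.asIdeal.absNorm ∈ Q) :
    φ ∈ MulAction.stabilizer (Ω ≃ₐ[K] Ω) Q := by
  have := Frob.isMaximal v Q hQ hv
  refine Frob.mem_stabilizer_of_pow Q φ _ ?_ hφ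
  rw [Frob.absNorm_eq]
  exact Nat.card_pos.ne'

/-- an open normal subgroup has elements with prescribed action on the residue field, when this
action is trivial on the residue field of the fixed field; together with the fact that the
residue fields are finite -/
theorem decomp_gen (v : HeightOneSpectrum (𝓞 K)) (Q : Ideal (𝓞 Ω)) (hQ : Q.IsPrime)
    (hv : Q.under (𝓞 K) = v.asIdeal) (φ : Ω ≃ₐ[K] Ω)
    (hφ : ∀ x : 𝓞 Ω, φ • x - x ^ v.asIdeal.absNorm ∈ Q) (N : Subgroup (Ω ≃ₐ[K] Ω)) [N.Normal]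
    (hN : IsOpen (N : Set (Ω ≃ₐ[K] Ω))) (d : Ω ≃ₐ[K] Ω)
    (hd : d ∈ MulAction.stabilizer (Ω ≃ₐ[K] Ω) Q) :
    ∃ m : ℕ, ∃ j ∈ Q.inertia (Ω ≃ₐ[K] Ω), ∃ x ∈ N, d = φ ^ m * j * x := by
  let _ : TopologicalSpace (𝓞 Ω) := ⊥
  have : DiscreteTopology (𝓞 Ω) := ⟨rfl⟩
  have : IsGalois K Ω := Frob.isGalois
  have := Frob.isInvariant (K := K) (Ω := Ω)
  have := Frob.continuousSMul (K := K) (Ω := Ω)
  have := v.isMaximal
  have := Frob.isMaximal v Q hQ hv
  have := Frob.liesOver v Q hv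
  rw [Frob.absNorm_eq] at hφ
  exact Frob.decomp v.asIdeal Q φ hφ N hN d hd

end Places

end Pool.BK
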