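import Pool.Agent.Helper95.BK.Defs2

/-!
# The action on the Selmer group of a normal subgroup (module ConjRep of project BK)
-/

open scoped Pointwise

namespace Pool.BK

namespace ConjRep

variable {G O : Type} [Group G] [CommRing O] [MulSemiringAction G O] {p : ℕ} [Fact p.Prime]
  {n : ℕ}

/-- conjugation of the elements of a normal subgroup -/
def cj (N : Subgroup G) [N.Normal] (g : G) (x : N) : N :=
  ⟨g⁻¹ * x * g⁻¹⁻¹, Subgroup.Normal.conj_mem ‹_› _ x.2 _⟩

theorem cj_coe (N : Subgroup G) [N.Normal] (g : G) (x : N) :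
    (cj N g x : G) = g⁻¹ * x * g := by simp [cj]

theorem cj_mul (N : Subgroup G) [N.Normal] (g : G) (x y : N) :
    cj N g (x * y) = cj N g x * cj N g y := by
  apply Subtype.ext
  rw [Subgroup.coe_mul, cj_coe, cj_coe, cj_coe, Subgroup.coe_mul]
  group

theorem cj_cj (N : Subgroup G) [N.Normal] (g h : G) (x : N) :
    cj N h (cj N g x) = cj N (g * h) x := by
  apply Subtype.ext
  rw [cj_coe, cj_coe, cj_coe]
  group

theorem cj_one (N : Subgroup G) [N.Normal] (x : N) : cj N 1 x = x := by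
  apply Subtype.ext
  rw [cj_coe]
  group

theorem conjFun_apply (ρ : G →* Matrix (Fin n) (Fin n) ℚ_[p]) (N : Subgroup G) [N.Normal]
    (g : G) (c : N → Fin n → ℚ_[p]) (x : N) :
    conjFun ρ N g c x = (ρ g).mulVec (c (cj N g x)) := rfl

theorem conjFun_add (ρ : G →* Matrix (Fin n) (Fin n) ℚ_[p]) (N : Subgroup G) [N.Normal]
    (g : G) (c d : N → Fin n → ℚ_[p]) :
    conjFun ρ N g (c + d) = conjFun ρ N g c + conjFun ρ N g d := by
  funext x
  rw [conjFun_apply, Pi.add_apply, Pi.add_apply, Matrix.mulVec_add, conjFun_apply, conjFun_apply]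

theorem conjFun_smul (ρ : G →* Matrix (Fin n) (Fin n) ℚ_[p]) (N : Subgroup G) [N.Normal]
    (g : G) (r : ℚ_[p]) (c : N → Fin n → ℚ_[p]) :
    conjFun ρ N g (r • c) = r • conjFun ρ N g c := by
  funext x
  rw [conjFun_apply, Pi.smul_apply, Pi.smul_apply, Matrix.mulVec_smul, conjFun_apply]

theorem conjFun_mul (ρ : G →* Matrix (Fin n) (Fin n) ℚ_[p]) (N : Subgroup G) [N.Normal]
    (g h : G) (c : N → Fin n → ℚ_[p]) :
    conjFun ρ N (g * h) c = conjFun ρ N g (conjFun ρ N h c) := by
  funext x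
  rw [conjFun_apply, conjFun_apply, conjFun_apply, cj_cj, Matrix.mulVec_mulVec, map_mul]

theorem conjFun_one (ρ : G →* Matrix (Fin n) (Fin n) ℚ_[p]) (N : Subgroup G) [N.Normal]
    (c : N → Fin n → ℚ_[p]) : conjFun ρ N 1 c = c := by
  funext x
  rw [conjFun_apply, cj_one, map_one, Matrix.one_mulVec]

/-- `ρ (g⁻¹ x g)` after `ρ g` -/
theorem rho_cj (ρ : G →* Matrix (Fin n) (Fin n) ℚ_[p]) (N : Subgroup G) [N.Normal]
    (g : G) (x : N) : ρ g * ρ (cj N g x) = ρ x * ρ g := by
  rw [← map_mul, ← map_mul, cj_coe]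
  congr 1
  group

theorem isCocycle_conjFun (ρ : G →* Matrix (Fin n) (Fin n) ℚ_[p]) (N : Subgroup G) [N.Normal]
    (g : G) {c : N → Fin n → ℚ_[p]} (hc : IsCocycle (ρ.comp N.subtype) c) :
    IsCocycle (ρ.comp N.subtype) (conjFun ρ N g c) := by
  intro x y
  rw [conjFun_apply, conjFun_apply, conjFun_apply, cj_mul, hc, Matrix.mulVec_add,
    Matrix.mulVec_mulVec, Matrix.mulVec_mulVec]
  congr 2
  exact rho_cj ρ N g x

theorem coboundary_conjFun (ρ : G →* Matrix (Fin n) (Fin n) ℚ_[p]) (N : Subgroup G) [N.Normal]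
    (g : G) {c : N → Fin n → ℚ_[p]} (hc : c ∈ B1 (ρ.comp N.subtype)) :
    conjFun ρ N g c ∈ B1 (ρ.comp N.subtype) := by
  obtain ⟨v, hv⟩ := hc
  refine ⟨(ρ g).mulVec v, fun x => ?_⟩
  rw [conjFun_apply, hv, Matrix.mulVec_sub, Matrix.mulVec_mulVec, Matrix.mulVec_mulVec]
  congr 2
  exact rho_cj ρ N g x

theorem smul_sub_coe (N : Subgroup G) (x : N) (P : Ideal O) : x • P = (x : G) • P := rfl

omit [Fact p.Prime] in
theorem natCast_mem_smul (g : G) (P : Ideal O) : (p : O) ∈ g⁻¹ • P ↔ (p : O) ∈ P := by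
  rw [Ideal.mem_inv_pointwise_smul_iff]
  have : g • (p : O) = p := by
    have := map_natCast (MulSemiringAction.toRingHom G O g) p
    exact this
  rw [this]

theorem locCond_conjFun (ρ : G →* Matrix (Fin n) (Fin n) ℚ_[p]) (B : PeriodData G O p)
    (N : Subgroup G) [N.Normal] (g : G) {c : N → Fin n → ℚ_[p]} {P : Ideal O}
    (hc : LocCond (ρ.comp N.subtype) (B.sub N) c (g⁻¹ • P)) :
    LocCond (ρ.comp N.subtype) (B.sub N) (conjFun ρ N g c) P := by
  refine ⟨fun hp => ?_, fun hp => ?_⟩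
  · obtain ⟨v, hv⟩ := hc.1 (fun h => hp ((natCast_mem_smul g P).1 h))
    refine ⟨(ρ g).mulVec v, fun x hx => ?_⟩
    have hx' : cj N g x ∈ (g⁻¹ • P).inertia N := by
      intro y
      have h1 : (cj N g x) • y - y = g⁻¹ • (x • (g • y) - g • y) := by
        have h2 : (cj N g x) • y = g⁻¹ • x • g • y := by
          change ((cj N g x : N) : G) • y = g⁻¹ • (x : G) • g • y
          rw [cj_coe, mul_smul, mul_smul]
        rw [h2, smul_sub, inv_smul_smul]
      rw [Submodule.mem_toAddSubgroup, h1]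
      exact Ideal.smul_mem_pointwise_smul _ _ _ (hx (g • y))
    rw [conjFun_apply, hv _ hx', Matrix.mulVec_sub, Matrix.mulVec_mulVec, Matrix.mulVec_mulVec]
    congr 2
    exact rho_cj ρ N g x
  · obtain ⟨b, hb, hb'⟩ : ∃ b : Fin n → B.M, (∀ i, b i ∈ B.fil (g⁻¹ • P)) ∧
        ∀ x ∈ MulAction.stabilizer N (g⁻¹ • P), ∀ i,
          c x i • B.one (g⁻¹ • P) = ∑ j, ρ (x : G) i j • B.act (x : G) (b j) - b i :=
      hc.2 ((natCast_mem_smul g P).2 hp)
    refine ⟨fun i => ∑ k, ρ g i k • B.act g (b k), fun i => ?_, fun x hx i => ?_⟩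
    · change _ ∈ B.fil P
      refine sum_mem fun k _ => Submodule.smul_mem _ _ ?_
      have := B.act_mem g (g⁻¹ • P) (b k) (hb k)
      rwa [smul_inv_smul] at this
    · have hx' : cj N g x ∈ MulAction.stabilizer N (g⁻¹ • P) := by
        rw [MulAction.mem_stabilizer_iff] at hx ⊢
        change ((cj N g x : N) : G) • g⁻¹ • P = g⁻¹ • P
        change (x : G) • P = P at hx
        rw [cj_coe, smul_smul, mul_assoc, mul_inv_cancel, mul_one, mul_smul, hx]
      have key : ∀ k, c (cj N g x) k • B.act g (B.one (g⁻¹ • P)) =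
          ∑ j, ρ (cj N g x) k j • B.act x (B.act g (b j)) - B.act g (b k) := by
        intro k
        have h1 := hb' (cj N g x) hx' k
        have h2 := congrArg (B.act g) h1
        rw [map_smul, map_sub, map_sum] at h2
        refine h2.trans ?_
        congr 1
        refine Finset.sum_congr rfl fun j _ => ?_
        rw [map_smul]
        congr 1
        change B.act g (B.act (cj N g x : G) (b j)) = B.act (x : G) (B.act g (b j))
        rw [← Module.End.mul_apply, ← map_mul, ← Module.End.mul_apply, ← map_mul, cj_coe]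
        congr 2
        group
      have hone : B.act g (B.one (g⁻¹ • P)) = B.one P := by
        rw [B.act_one, smul_inv_smul]
      rw [hone] at key
      change (conjFun ρ N g c x i) • B.one P =
        ∑ j, ρ (x : G) i j • B.act (x : G) (∑ k, ρ g j k • B.act g (b k)) -
          ∑ k, ρ g i k • B.act g (b k)
      have h3 : conjFun ρ N g c x i = ∑ k, ρ g i k * c (cj N g x) k := rfl
      rw [h3, Finset.sum_smul]
      have h4 : ∀ k, (ρ g i k * c (cj N g x) k) • B.one P =
          (∑ j, (ρ g i k * ρ (cj N g x) k j) • B.act x (B.act g (b j))) -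
            ρ g i k • B.act g (b k) := by
        intro k
        rw [mul_smul, key, smul_sub, Finset.smul_sum]
        congr 1
        refine Finset.sum_congr rfl fun j _ => ?_
        rw [mul_smul]
      rw [Finset.sum_congr rfl fun k _ => h4 k, Finset.sum_sub_distrib]
      congr 1
      rw [Finset.sum_comm]
      have h5 : ∀ j, ∑ k, (ρ g i k * ρ (cj N g x) k j) • B.act (x : G) (B.act g (b j)) =
          ∑ k, (ρ (x : G) i k * ρ g k j) • B.act (x : G) (B.act g (b j)) := by
        intro j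
        rw [← Finset.sum_smul, ← Finset.sum_smul]
        congr 1
        have := congrFun (congrFun (rho_cj ρ N g x) i) j
        rw [Matrix.mul_apply, Matrix.mul_apply] at this
        exact this
      rw [Finset.sum_congr rfl fun j _ => h5 j, Finset.sum_comm]
      refine Finset.sum_congr rfl fun k _ => ?_
      rw [map_sum, Finset.smul_sum]
      refine Finset.sum_congr rfl fun j _ => ?_
      rw [map_smul, mul_smul]

variable [TopologicalSpace G] [IsTopologicalGroup G]

theorem mem_Z1f_conjFun (ρ : G →* Matrix (Fin n) (Fin n) ℚ_[p]) (B : PeriodData G O p)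
    (N : Subgroup G) [N.Normal] (g : G) {c : N → Fin n → ℚ_[p]}
    (hc : c ∈ Z1f (ρ.comp N.subtype) (B.sub N)) :
    conjFun ρ N g c ∈ Z1f (ρ.comp N.subtype) (B.sub N) := by
  obtain ⟨h1, h2, h3⟩ := hc
  refine ⟨isCocycle_conjFun ρ N g h1, ?_, fun P hP hP0 => locCond_conjFun ρ B N g
    (h3 _ (hP.smul g⁻¹) ?_)⟩
  · have hcj : Continuous (cj N g) := by
      refine Continuous.subtype_mk ?_ _
      fun_prop
    have h4 : Continuous fun x => c (cj N g x) := h2.comp hcj
    exact Continuous.matrix_mulVec continuous_const h4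
  · intro h
    apply hP0
    have := congrArg (fun Q => g • Q) h
    simp only [smul_inv_smul] at this
    rw [this]
    exact Ideal.ext fun x => by
      rw [Ideal.mem_pointwise_smul_iff_inv_smul_mem, Ideal.mem_bot, Ideal.mem_bot]
      constructor
      · intro h
        rw [← smul_inv_smul g x, h, smul_zero]
      · rintro rfl
        exact smul_zero _

/-- the action on cocycles -/
noncomputable def lin (ρ : G →* Matrix (Fin n) (Fin n) ℚ_[p]) (B : PeriodData G O p)
    (N : Subgroup G) [N.Normal] (g : G) :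
    Z1f (ρ.comp N.subtype) (B.sub N) →ₗ[ℚ_[p]] Z1f (ρ.comp N.subtype) (B.sub N) where
  toFun c := ⟨conjFun ρ N g c, mem_Z1f_conjFun ρ B N g c.2⟩
  map_add' c d := Subtype.ext (conjFun_add ρ N g c d)
  map_smul' r c := Subtype.ext (conjFun_smul ρ N g r c)

/-- the action on classes -/
noncomputable def quo (ρ : G →* Matrix (Fin n) (Fin n) ℚ_[p]) (B : PeriodData G O p)
    (N : Subgroup G) [N.Normal] (g : G) :
    H1f (ρ.comp N.subtype) (B.sub N) →ₗ[ℚ_[p]] H1f (ρ.comp N.subtype) (B.sub N) :=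
  Submodule.mapQ _ _ (lin ρ B N g) (by
    intro c hc
    exact coboundary_conjFun ρ N g hc)

theorem quo_mk (ρ : G →* Matrix (Fin n) (Fin n) ℚ_[p]) (B : PeriodData G O p)
    (N : Subgroup G) [N.Normal] (g : G) (c : Z1f (ρ.comp N.subtype) (B.sub N)) :
    quo ρ B N g (Submodule.Quotient.mk c) = Submodule.Quotient.mk (lin ρ B N g c) := rfl

/-- the representation -/
noncomputable def rep (ρ : G →* Matrix (Fin n) (Fin n) ℚ_[p]) (B : PeriodData G O p)
    (N : Subgroup G) [N.Normal] :
    Representation ℚ_[p] G (H1f (ρ.comp N.subtype) (B.sub N)) where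
  toFun g := quo ρ B N g
  map_one' := by
    refine LinearMap.ext fun x => ?_
    obtain ⟨c, rfl⟩ := Submodule.Quotient.mk_surjective _ x
    rw [quo_mk]
    congr 1
    exact Subtype.ext (conjFun_one ρ N c)
  map_mul' g h := by
    refine LinearMap.ext fun x => ?_
    obtain ⟨c, rfl⟩ := Submodule.Quotient.mk_surjective _ x
    rw [Module.End.mul_apply, quo_mk, quo_mk, quo_mk]
    congr 1
    exact Subtype.ext (conjFun_mul ρ N g h c)

omit [TopologicalSpace G] [IsTopologicalGroup G] in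
/-- inner automorphisms act trivially on classes -/
theorem conjFun_sub (ρ : G →* Matrix (Fin n) (Fin n) ℚ_[p]) (N : Subgroup G) [N.Normal]
    (g : N) {c : N → Fin n → ℚ_[p]} (hc : IsCocycle (ρ.comp N.subtype) c) :
    conjFun ρ N g c - c ∈ B1 (ρ.comp N.subtype) := by
  refine ⟨c g, fun x => ?_⟩
  have h0 : c 1 = 0 := by
    have := hc 1 1
    rw [mul_one, map_one, Matrix.one_mulVec] at this
    exact left_eq_add.1 this
  have h1 : c g + (ρ g).mulVec (c g⁻¹) = 0 := by
    have := hc g g⁻¹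
    rw [mul_inv_cancel, h0] at this
    exact this.symm
  have h2 : cj N g x = g⁻¹ * (x * g) := by
    apply Subtype.ext
    rw [cj_coe, Subgroup.coe_mul, Subgroup.coe_mul, Subgroup.coe_inv, mul_assoc]
  have h3 : (ρ g).mulVec ((ρ.comp N.subtype g⁻¹).mulVec (c (x * g))) = c (x * g) := by
    rw [Matrix.mulVec_mulVec]
    change (ρ (g : G) * ρ ((g⁻¹ : N) : G)).mulVec _ = _
    rw [← map_mul, Subgroup.coe_inv, mul_inv_cancel, map_one, Matrix.one_mulVec]
  rw [Pi.sub_apply, conjFun_apply, h2, hc, Matrix.mulVec_add, h3, hc x g,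
    eq_neg_of_add_eq_zero_right h1]
  abel

end ConjRep

open ConjRep in
theorem exists_conjRep {G O : Type} [Group G] [TopologicalSpace G] [IsTopologicalGroup G]
    [CommRing O] [MulSemiringAction G O] {p : ℕ} [Fact p.Prime] {n : ℕ}
    (ρ : G →* Matrix (Fin n) (Fin n) ℚ_[p]) (hρ : Continuous ρ)
    (B : PeriodData G O p) (N : Subgroup G) [N.Normal] :
    ∃ τ : Representation ℚ_[p] G (H1f (ρ.comp N.subtype) (B.sub N)),
      (∀ (g : G) (c : Z1f (ρ.comp N.subtype) (B.sub N)),
        ∃ h : conjFun ρ N g c ∈ Z1f (ρ.comp N.subtype) (B.sub N),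
          τ g (Submodule.Quotient.mk c) = Submodule.Quotient.mk ⟨_, h⟩) ∧
      ∀ g ∈ N, τ g = 1 := by
  refine ⟨rep ρ B N, fun g c => ⟨mem_Z1f_conjFun ρ B N g c.2, rfl⟩, fun g hg => ?_⟩
  refine LinearMap.ext fun x => ?_
  obtain ⟨c, rfl⟩ := Submodule.Quotient.mk_surjective _ x
  change quo ρ B N g (Submodule.Quotient.mk c) = Submodule.Quotient.mk c
  rw [quo_mk, Submodule.Quotient.eq]
  exact conjFun_sub ρ N ⟨g, hg⟩ c.2.1

end Pool.BK
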