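import Pool.Agent.Helper95.BK.Defs2

/-!
Descent for the Bloch-Kato Selmer groups: restriction to a normal subgroup of finite index
identifies the Selmer group with the invariants.
-/

open scoped Pointwise NumberField
open Polynomial IsDedekindDomain

namespace Pool.BK

namespace Descent

/-- A cocycle that is a coboundary on a subgroup of finite index is a coboundary. -/
theorem key {A k W : Type*} [Group A] [Field k] [CharZero k] [AddCommGroup W] [Module k W]
    (T : A → (W →ₗ[k] W)) (hT : ∀ a b w, T (a * b) w = T a (T b w)) (A' : Subgroup A)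
    [A'.FiniteIndex] (c : A → W) (hc : ∀ a b, c (a * b) = c a + T a (c b)) (S : Submodule k W)
    (hS : ∀ a, ∀ s ∈ S, T a s ∈ S) (hcS : ∀ a, c a ∈ S) (w : W) (hw : w ∈ S)
    (h : ∀ a ∈ A', c a = T a w - w) : ∃ w' ∈ S, ∀ a, c a = T a w' - w' := by
  classical
  have : Fintype (A ⧸ A') := Fintype.ofFinite _
  let d : A → W := fun a => c a - (T a w - w)
  have hd : ∀ a b, d (a * b) = d a + T a (d b) := by
    intro a b
    simp only [d, hc, hT, map_sub]
    abel
  have hd' : ∀ a, ∀ b ∈ A', d (a * b) = d a := by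
    intro a b hb
    have : d b = 0 := by simp only [d, h b hb, sub_self]
    rw [hd, this, map_zero, add_zero]
  have hdS : ∀ a, d a ∈ S := fun a => S.sub_mem (hcS a) (S.sub_mem (hS a w hw) hw)
  let e : A ⧸ A' → W := fun x => d x.out
  have he : ∀ a : A, e (a : A ⧸ A') = d a := by
    intro a
    obtain ⟨b, hb⟩ := QuotientGroup.mk_out_eq_mul A' a
    simp only [e, hb, hd' a b b.2]
  have he' : ∀ (a : A) (x : A ⧸ A'), e (a • x) = d a + T a (e x) := by
    intro a x
    induction x using QuotientGroup.induction_on with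
    | H y =>
      rw [he y, ← hd, ← he]
      rfl
  obtain ⟨m, hm⟩ : ∃ m : k, m = (Fintype.card (A ⧸ A') : k) := ⟨_, rfl⟩
  have hm0 : m ≠ 0 := by
    rw [hm]
    exact Nat.cast_ne_zero.2 Fintype.card_ne_zero
  refine ⟨w - m⁻¹ • ∑ x, e x, S.sub_mem hw (S.smul_mem _ (S.sum_mem fun x _ => hdS _)),
    fun a => ?_⟩
  have h1 : ∑ x, e (a • x) = ∑ x, e x :=
    Fintype.sum_equiv (MulAction.toPerm a) _ _ (fun x => rfl)
  have h2 : ∑ x, e x = m • d a + T a (∑ x, e x) :=
    calc ∑ x, e x = ∑ x, (d a + T a (e x)) := by rw [← h1]; simp only [he']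
      _ = m • d a + T a (∑ x, e x) := by
        rw [Finset.sum_add_distrib, Finset.sum_const, map_sum, Finset.card_univ, hm,
          Nat.cast_smul_eq_nsmul]
  have h3 : T a (∑ x, e x) = ∑ x, e x - m • d a := by
    rw [eq_sub_iff_add_eq, add_comm, ← h2]
  rw [map_sub, map_smul, h3, smul_sub, smul_smul, inv_mul_cancel₀ hm0, one_smul]
  simp only [d]
  abel

section

variable {G O : Type} [Group G] [CommRing O] [MulSemiringAction G O] {p : ℕ} [Fact p.Prime]
  {n : ℕ} {H : Type} [Group H] [MulSemiringAction H O]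

/-- The action of `H` on ideals is that of the image. -/
theorem smul_ideal (f : H →* G) (hf : ∀ (h : H) (x : O), h • x = f h • x) (h : H) (P : Ideal O) :
    h • P = f h • P := by
  ext y
  rw [Ideal.mem_pointwise_smul_iff_inv_smul_mem, Ideal.mem_pointwise_smul_iff_inv_smul_mem,
    hf, map_inv]

/-- The action of a matrix with values in the automorphisms of a space. -/
noncomputable def tens (ρ : G →* Matrix (Fin n) (Fin n) ℚ_[p]) (B : PeriodData G O p) (g : G) :
    (Fin n → B.M) →ₗ[ℚ_[p]] (Fin n → B.M) where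
  toFun b i := ∑ j, ρ g i j • B.act g (b j)
  map_add' a b := by
    funext i
    simp only [Pi.add_apply, map_add, smul_add, Finset.sum_add_distrib]
  map_smul' r b := by
    funext i
    simp only [Pi.smul_apply, map_smul, Finset.smul_sum, RingHom.id_apply]
    exact Finset.sum_congr rfl fun j _ => smul_comm _ _ _

theorem tens_apply (ρ : G →* Matrix (Fin n) (Fin n) ℚ_[p]) (B : PeriodData G O p) (g : G)
    (b : Fin n → B.M) (i : Fin n) : tens ρ B g b i = ∑ j, ρ g i j • B.act g (b j) := rfl

theorem tens_mul (ρ : G →* Matrix (Fin n) (Fin n) ℚ_[p]) (B : PeriodData G O p) (g h : G)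
    (b : Fin n → B.M) : tens ρ B (g * h) b = tens ρ B g (tens ρ B h b) := by
  funext i
  simp only [tens_apply, map_mul, Matrix.mul_apply, map_sum, map_smul, Finset.smul_sum,
    Finset.sum_smul, smul_smul]
  rw [Finset.sum_comm]
  rfl

theorem locCond_res (ρ : G →* Matrix (Fin n) (Fin n) ℚ_[p]) (B : PeriodData G O p)
    (N : Subgroup G) (f : H →* G) (hf : ∀ (h : H) (x : O), h • x = f h • x)
    (g : N → H) (hg : ∀ x, f (g x) = x) (C : H → Fin n → ℚ_[p]) (P : Ideal O)
    (h : LocCond (ρ.comp f) (B.comap f hf) C P) :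
    LocCond (ρ.comp N.subtype) (B.sub N) (fun x => C (g x)) P := by
  have hstab : ∀ x ∈ MulAction.stabilizer N P, g x ∈ MulAction.stabilizer H P := by
    intro x hx
    rw [MulAction.mem_stabilizer_iff] at hx ⊢
    rw [smul_ideal f hf, hg]
    exact ((smul_ideal (O := O) N.subtype (fun _ _ => rfl) x P).symm.trans hx)
  refine ⟨fun hp => ?_, fun hp => ?_⟩
  · obtain ⟨v, hv⟩ := h.1 hp
    refine ⟨v, fun x hx => ?_⟩
    have h1 : g x ∈ P.inertia H := by
      intro y
      have h2 := hx y
      rw [hf, hg]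
      exact h2
    have h3 := hv (g x) h1
    rw [MonoidHom.comp_apply, hg] at h3
    exact h3
  · obtain ⟨b, hb, hb'⟩ := h.2 hp
    refine ⟨b, hb, fun x hx i => ?_⟩
    have h3 := hb' (g x) (hstab x hx) i
    rw [MonoidHom.comp_apply, hg] at h3
    rw [MonoidHom.comp_apply]
    refine h3.trans ?_
    congr 1
    refine Finset.sum_congr rfl fun j _ => ?_
    change _ • B.act (f (g x)) (b j) = _
    rw [hg]
    rfl

theorem locCond_of_res (ρ : G →* Matrix (Fin n) (Fin n) ℚ_[p]) (B : PeriodData G O p)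
    (N : Subgroup G) [N.FiniteIndex] (f : H →* G) (hf : ∀ (h : H) (x : O), h • x = f h • x)
    (hinj : Function.Injective f) (g : N → H) (hg : ∀ x, f (g x) = x) (C : H → Fin n → ℚ_[p])
    (hC : IsCocycle (ρ.comp f) C) (P : Ideal O)
    (h : LocCond (ρ.comp N.subtype) (B.sub N) (fun x => C (g x)) P) :
    LocCond (ρ.comp f) (B.comap f hf) C P := by
  have : (N.comap f).FiniteIndex := by
    refine ⟨?_⟩
    rw [Subgroup.index_comap]
    exact (Subgroup.isFiniteRelIndex_of_finiteIndex (H := N)).relIndex_ne_zero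
  have hg' : ∀ (y : H) (hy : f y ∈ N), g ⟨f y, hy⟩ = y := fun y hy => hinj (hg _)
  refine ⟨fun hp => ?_, fun hp => ?_⟩
  · obtain ⟨v, hv⟩ := h.1 hp
    obtain ⟨w, -, hw⟩ := key (A := P.inertia H) (k := ℚ_[p]) (W := Fin n → ℚ_[p])
      (fun a => Matrix.toLin' (ρ (f a))) (fun a b w => by simp)
      ((N.comap f).subgroupOf (P.inertia H)) (fun a => C a)
      (fun a b => by simpa using hC a b) ⊤ (fun _ _ _ => trivial) (fun _ => trivial) v trivial
      (fun a ha => by
        have ha' : f (a : H) ∈ N := ha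
        have h1 := hv ⟨f a, ha'⟩ (fun y => by
          have h2 := a.2 y
          rw [hf] at h2
          exact h2)
        simp only [hg'] at h1
        rw [h1]
        rfl)
    refine ⟨w, fun x hx => ?_⟩
    exact hw ⟨x, hx⟩
  · obtain ⟨b, hb, hb'⟩ := h.2 hp
    have hone : ∀ x ∈ MulAction.stabilizer H P, B.act (f x) (B.one P) = B.one P := by
      intro x hx
      rw [B.act_one, ← smul_ideal f hf]
      rw [MulAction.mem_stabilizer_iff] at hx
      rw [hx]
    obtain ⟨w, hwS, hw⟩ := key (A := MulAction.stabilizer H P) (k := ℚ_[p]) (W := Fin n → B.M)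
      (fun a => tens ρ B (f a)) (fun a b w => by
        rw [Subgroup.coe_mul, map_mul]
        exact tens_mul _ _ _ _ _)
      ((N.comap f).subgroupOf (MulAction.stabilizer H P)) (fun a i => C a i • B.one P)
      (fun a b => by
        funext i
        have h1 : C (a * b : H) = C a + (ρ (f a)).mulVec (C b) := hC a b
        simp only [Subgroup.coe_mul, h1, Pi.add_apply, tens_apply, map_smul, hone a a.2]
        rw [add_smul]
        congr 1
        simp only [Matrix.mulVec, dotProduct, Finset.sum_smul, smul_smul])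
      (Submodule.pi Set.univ fun _ => B.fil P)
      (fun a s hs => by
        intro i _
        rw [tens_apply]
        refine Submodule.sum_mem _ fun j _ => Submodule.smul_mem _ _ ?_
        have h1 := B.act_mem (f a) P (s j) (hs j trivial)
        rw [← smul_ideal f hf] at h1
        have h2 := a.2
        rw [MulAction.mem_stabilizer_iff] at h2
        rw [h2] at h1
        exact h1)
      (fun a i _ => Submodule.smul_mem _ _ (B.one_mem P)) b (fun i _ => hb i)
      (fun a ha => by
        funext i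
        have ha' : f (a : H) ∈ N := ha
        have h1 := hb' ⟨f a, ha'⟩ (by
          rw [MulAction.mem_stabilizer_iff]
          have h2 := a.2
          rw [MulAction.mem_stabilizer_iff, smul_ideal f hf] at h2
          exact (smul_ideal (O := O) N.subtype (fun _ _ => rfl) _ P).trans h2) i
        simp only [hg'] at h1
        exact h1)
    refine ⟨w, fun i => hwS i trivial, fun x hx i => ?_⟩
    exact congrFun (hw ⟨x, hx⟩) i

end

section

variable {G : Type} [Group G] [TopologicalSpace G]
  {p : ℕ} [Fact p.Prime] {n : ℕ} {H : Type} [Group H] [TopologicalSpace H] [IsTopologicalGroup H]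

theorem continuous_of_res (ρ : G →* Matrix (Fin n) (Fin n) ℚ_[p]) (N : Subgroup G)
    (hN : IsOpen (N : Set G)) (f : H →* G) (hcont : Topology.IsOpenEmbedding f)
    (g : N → H) (hg : ∀ x, f (g x) = x) (C : H → Fin n → ℚ_[p])
    (hC : IsCocycle (ρ.comp f) C) (h : Continuous (fun x => C (g x))) : Continuous C := by
  have hg' : ∀ (y : H) (hy : f y ∈ N), g ⟨f y, hy⟩ = y :=
    fun y hy => hcont.injective (hg _)
  have h1 : ContinuousAt C 1 := by
    have hU : IsOpen (f ⁻¹' (N : Set G)) := hN.preimage hcont.continuous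
    have h1U : (1 : H) ∈ f ⁻¹' (N : Set G) := by
      change f 1 ∈ N
      rw [map_one]
      exact N.one_mem
    have h2 : ContinuousOn C (f ⁻¹' (N : Set G)) := by
      rw [continuousOn_iff_continuous_domRestrict]
      have h3 : (f ⁻¹' (N : Set G)).domRestrict C =
          (fun x => C (g x)) ∘ (fun y : f ⁻¹' (N : Set G) => (⟨f y, y.2⟩ : N)) := by
        funext y
        exact congrArg C (hg' y y.2).symm
      rw [h3]
      exact h.comp (Continuous.subtype_mk (hcont.continuous.comp continuous_subtype_val) _)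
    exact h2.continuousAt (hU.mem_nhds h1U)
  rw [continuous_iff_continuousAt]
  intro x
  have h2 : C = (fun v : Fin n → ℚ_[p] => C x + (ρ (f x)).mulVec v) ∘
      (fun y => C (x⁻¹ * y)) := by
    funext y
    have h4 := hC x (x⁻¹ * y)
    rw [mul_inv_cancel_left] at h4
    exact h4
  rw [h2]
  have h3 : Continuous (fun v : Fin n → ℚ_[p] => C x + (ρ (f x)).mulVec v) :=
    continuous_const.add (Continuous.matrix_mulVec continuous_const continuous_id)
  refine h3.continuousAt.comp ?_
  refine ContinuousAt.comp (g := C) (f := fun y => x⁻¹ * y) ?_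
    (continuous_const.mul continuous_id).continuousAt
  rw [inv_mul_cancel]
  exact h1

end

end Descent

section

variable {G O : Type} [Group G] [TopologicalSpace G] [IsTopologicalGroup G] [CommRing O]
  [MulSemiringAction G O] {p : ℕ} [Fact p.Prime] {n : ℕ}

/-- the descent isomorphism `H¹_f(H) = H¹_f(N)^H` -/
theorem descent (ρ : G →* Matrix (Fin n) (Fin n) ℚ_[p]) (hρ : Continuous ρ)
    (B : PeriodData G O p) (N : Subgroup G) [N.Normal] [N.FiniteIndex]
    (hN : IsOpen (N : Set G))
    (τ : Representation ℚ_[p] G (H1f (ρ.comp N.subtype) (B.sub N)))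
    (hτ : ∀ (g : G) (c : Z1f (ρ.comp N.subtype) (B.sub N)),
        ∃ h : conjFun ρ N g c ∈ Z1f (ρ.comp N.subtype) (B.sub N),
          τ g (Submodule.Quotient.mk c) = Submodule.Quotient.mk ⟨_, h⟩)
    (H : Type) [Group H] [TopologicalSpace H] [IsTopologicalGroup H] [MulSemiringAction H O]
    (f : H →* G) (hf : ∀ (h : H) (x : O), h • x = f h • x) (hinj : Function.Injective f)
    (hcont : Topology.IsOpenEmbedding f) (hNf : N ≤ f.range) :
    Nonempty (H1f (ρ.comp f) (B.comap f hf) ≃ₗ[ℚ_[p]] fixedSub τ f.range) := by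
  classical
  obtain ⟨g, hg⟩ : ∃ g : N → H, ∀ x, f (g x) = x :=
    ⟨fun x => (hNf x.2).choose, fun x => (hNf x.2).choose_spec⟩
  have hg' : ∀ (y : H) (hy : f y ∈ N), g ⟨f y, hy⟩ = y := fun y hy => hinj (hg _)
  have hgmul : ∀ x y, g (x * y) = g x * g y := fun x y => hinj (by
    rw [map_mul, hg, hg, hg]; rfl)
  have hgcont : Continuous g := by
    rw [hcont.isInducing.continuous_iff]
    have : f ∘ g = Subtype.val := by
      funext x
      exact hg x
    rw [this]
    exact continuous_subtype_val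
  have hfin : (N.comap f).FiniteIndex := by
    refine ⟨?_⟩
    rw [Subgroup.index_comap]
    exact (Subgroup.isFiniteRelIndex_of_finiteIndex (H := N)).relIndex_ne_zero
  -- restriction of cocycles
  have hres : ∀ C ∈ Z1f (ρ.comp f) (B.comap f hf),
      (fun x => C (g x)) ∈ Z1f (ρ.comp N.subtype) (B.sub N) := by
    rintro C ⟨h1, h2, h3⟩
    refine ⟨fun x y => ?_, h2.comp hgcont, fun P hP hP0 =>
      Descent.locCond_res ρ B N f hf g hg C P (h3 P hP hP0)⟩
    have h4 := h1 (g x) (g y)
    rw [MonoidHom.comp_apply, hg] at h4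
    change C (g (x * y)) = _
    rw [hgmul, h4]
    rfl
  have hres' : ∀ C, IsCocycle (ρ.comp f) C →
      (fun x => C (g x)) ∈ Z1f (ρ.comp N.subtype) (B.sub N) →
      C ∈ Z1f (ρ.comp f) (B.comap f hf) := by
    rintro C hC ⟨h1, h2, h3⟩
    exact ⟨hC, Descent.continuous_of_res ρ N hN f hcont g hg C hC h2, fun P hP hP0 =>
      Descent.locCond_of_res ρ B N f hf hinj g hg C hC P (h3 P hP hP0)⟩
  let R : Z1f (ρ.comp f) (B.comap f hf) →ₗ[ℚ_[p]] Z1f (ρ.comp N.subtype) (B.sub N) :=
    { toFun := fun C => ⟨fun x => C.1 (g x), hres C.1 C.2⟩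
      map_add' := fun a b => rfl
      map_smul' := fun r b => rfl }
  have hR : ((B1 (ρ.comp f)).submoduleOf (Z1f (ρ.comp f) (B.comap f hf))) ≤
      ((B1 (ρ.comp N.subtype)).submoduleOf (Z1f (ρ.comp N.subtype) (B.sub N))).comap R := by
    rintro C ⟨v, hv⟩
    refine ⟨v, fun x => ?_⟩
    have h1 := hv (g x)
    rw [MonoidHom.comp_apply, hg] at h1
    exact h1
  let L : H1f (ρ.comp f) (B.comap f hf) →ₗ[ℚ_[p]] H1f (ρ.comp N.subtype) (B.sub N) :=
    Submodule.mapQ _ _ R hR
  have hL : ∀ C, L (Submodule.Quotient.mk C) = Submodule.Quotient.mk (R C) := fun C => rfl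
  -- the image is fixed
  have hfix : ∀ z, L z ∈ fixedSub τ f.range := by
    intro z
    induction z using Submodule.Quotient.induction_on with
    | H C =>
      rintro _ ⟨h, rfl⟩
      rw [hL]
      obtain ⟨h1, h2⟩ := hτ (f h) (R C)
      rw [h2, Submodule.Quotient.eq]
      refine ⟨C.1 h, fun x => ?_⟩
      have hc := C.2.1
      change (ρ (f h)).mulVec (C.1 (g ⟨(f h)⁻¹ * x * (f h)⁻¹⁻¹, _⟩)) - C.1 (g x) =
        (ρ x).mulVec (C.1 h) - C.1 h
      have h3 : g ⟨(f h)⁻¹ * x * (f h)⁻¹⁻¹, Subgroup.Normal.conj_mem ‹_› _ x.2 _⟩ =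
          h⁻¹ * (g x * h) := hinj (by
        rw [hg, map_mul, map_mul, hg, map_inv]
        simp only [inv_inv, mul_assoc])
      rw [h3]
      have h4 : C.1 (h * (h⁻¹ * (g x * h))) = C.1 h + (ρ (f h)).mulVec (C.1 (h⁻¹ * (g x * h))) :=
        hc _ _
      have h5 : C.1 (g x * h) = C.1 (g x) + (ρ (f (g x))).mulVec (C.1 h) := hc _ _
      rw [mul_inv_cancel_left, h5, hg] at h4
      rw [eq_sub_of_add_eq' h4.symm]
      abel
  let L' : H1f (ρ.comp f) (B.comap f hf) →ₗ[ℚ_[p]] fixedSub τ f.range := L.codRestrict _ hfix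
  refine ⟨LinearEquiv.ofBijective L' ⟨?_, ?_⟩⟩
  · rw [← LinearMap.ker_eq_bot, LinearMap.ker_codRestrict, Submodule.eq_bot_iff]
    intro z hz
    induction z using Submodule.Quotient.induction_on with
    | H C =>
      rw [LinearMap.mem_ker, hL, Submodule.Quotient.mk_eq_zero] at hz
      obtain ⟨v, hv⟩ := hz
      rw [Submodule.Quotient.mk_eq_zero]
      obtain ⟨w, -, hw⟩ := Descent.key (A := H) (k := ℚ_[p]) (W := Fin n → ℚ_[p])
        (fun a => Matrix.toLin' (ρ (f a))) (fun a b w => by simp)
        (N.comap f) C.1 (fun a b => by simpa using C.2.1 a b) ⊤ (fun _ _ _ => trivial)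
        (fun _ => trivial) v trivial
        (fun a ha => by
          have ha' : f (a : H) ∈ N := ha
          have h1 := hv ⟨f a, ha'⟩
          change C.1 (g ⟨f a, ha'⟩) = _ at h1
          rw [hg'] at h1
          rw [h1]
          rfl)
      exact ⟨w, hw⟩
  · rintro ⟨z, hz⟩
    induction z using Submodule.Quotient.induction_on with
    | H c =>
      have : Fintype (H ⧸ N.comap f) := Fintype.ofFinite _
      obtain ⟨ct, hct⟩ : ∃ ct : H → Fin n → ℚ_[p], ∀ y (hy : f y ∈ N), ct y = c.1 ⟨f y, hy⟩ :=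
        ⟨fun y => if hy : f y ∈ N then c.1 ⟨f y, hy⟩ else 0, fun y hy => dif_pos hy⟩
      have hctm : ∀ y y', f y ∈ N → f y' ∈ N →
          ct (y * y') = ct y + (ρ (f y)).mulVec (ct y') := by
        intro y y' hy hy'
        have h1 : f (y * y') ∈ N := by
          rw [map_mul]
          exact N.mul_mem hy hy'
        rw [hct _ hy, hct _ hy', hct _ h1]
        have h2 := c.2.1 ⟨f y, hy⟩ ⟨f y', hy'⟩
        refine Eq.trans (congrArg c.1 ?_) h2
        exact Subtype.ext (map_mul f y y')
      have hmem : ∀ (h : H) (x : H ⧸ N.comap f), f ((h • x).out⁻¹ * (h * x.out)) ∈ N := by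
        intro h x
        change (h • x).out⁻¹ * (h * x.out) ∈ N.comap f
        rw [← QuotientGroup.eq, QuotientGroup.out_eq']
        conv_lhs => rw [← QuotientGroup.out_eq' x]
        rfl
      obtain ⟨m, hm⟩ : ∃ m : ℚ_[p], m = (Fintype.card (H ⧸ N.comap f) : ℚ_[p]) := ⟨_, rfl⟩
      have hm0 : m ≠ 0 := by
        rw [hm]
        exact Nat.cast_ne_zero.2 Fintype.card_ne_zero
      let E : H → (H ⧸ N.comap f) → Fin n → ℚ_[p] := fun h x =>
        (ρ (f (h • x).out)).mulVec (ct ((h • x).out⁻¹ * (h * x.out)))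
      have hE : ∀ h k x, E (h * k) x = E h (k • x) + (ρ (f h)).mulVec (E k x) := by
        intro h k x
        simp only [E]
        have h1 : ((h * k) • x).out⁻¹ * (h * k * x.out) =
            ((h • k • x).out⁻¹ * (h * (k • x).out)) * ((k • x).out⁻¹ * (k * x.out)) := by
          rw [mul_smul]
          group
        rw [h1, hctm _ _ (hmem _ _) (hmem _ _), Matrix.mulVec_add, Matrix.mulVec_mulVec,
          Matrix.mulVec_mulVec, ← map_mul, ← map_mul, ← map_mul, ← map_mul, mul_smul]
        congr 4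
        group
      let C : H → Fin n → ℚ_[p] := fun h => m⁻¹ • ∑ x, E h x
      have hC : IsCocycle (ρ.comp f) C := by
        intro h k
        have h1 : ∑ x, E h (k • x) = ∑ x, E h x :=
          Fintype.sum_equiv (MulAction.toPerm k) _ _ (fun x => rfl)
        change m⁻¹ • ∑ x, E (h * k) x = m⁻¹ • ∑ x, E h x + (ρ (f h)).mulVec (m⁻¹ • ∑ x, E k x)
        simp only [hE, Finset.sum_add_distrib, h1, smul_add]
        rw [Matrix.mulVec_smul, Matrix.mulVec_sum]
      let D : Z1f (ρ.comp N.subtype) (B.sub N) :=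
        m⁻¹ • ∑ x : H ⧸ N.comap f, ⟨_, (hτ (f x.out) c).choose⟩
      have hD : (fun x => C (g x)) = D.1 := by
        funext x
        simp only [D, C]
        rw [Submodule.coe_smul, Submodule.coe_sum, Pi.smul_apply, Finset.sum_apply]
        congr 1
        refine Finset.sum_congr rfl fun y _ => ?_
        have h1 : g x • y = y := by
          induction y using QuotientGroup.induction_on with
          | H a =>
            change ((g x * a : H) : H ⧸ N.comap f) = a
            rw [QuotientGroup.eq]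
            change f _ ∈ N
            rw [map_mul, map_inv, map_mul, hg, mul_inv_rev]
            have h2 := Subgroup.Normal.conj_mem ‹N.Normal› _ (N.inv_mem x.2) (f a)⁻¹
            rwa [inv_inv] at h2
        have h3 := hmem (g x) y
        simp only [E]
        rw [h1] at h3 ⊢
        rw [hct _ h3]
        change _ = (ρ (f y.out)).mulVec (c.1 ⟨(f y.out)⁻¹ * x * (f y.out)⁻¹⁻¹, _⟩)
        refine congrArg (fun z => (ρ (f y.out)).mulVec (c.1 z)) (Subtype.ext ?_)
        change f (y.out⁻¹ * (g x * y.out)) = (f y.out)⁻¹ * x * (f y.out)⁻¹⁻¹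
        rw [map_mul, map_mul, hg, map_inv, inv_inv, mul_assoc]
      have hCZ : C ∈ Z1f (ρ.comp f) (B.comap f hf) := hres' C hC (by
        rw [hD]
        exact D.2)
      refine ⟨Submodule.Quotient.mk ⟨C, hCZ⟩, Subtype.ext ?_⟩
      change L _ = _
      rw [hL]
      have h1 : R ⟨C, hCZ⟩ = D := Subtype.ext hD
      rw [h1]
      simp only [D]
      have h2 : ∀ x : H ⧸ N.comap f, (Submodule.Quotient.mk ⟨_, (hτ (f x.out) c).choose⟩ :
          H1f (ρ.comp N.subtype) (B.sub N)) = Submodule.Quotient.mk c := by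
        intro x
        rw [← (hτ (f x.out) c).choose_spec]
        exact hz _ ⟨_, rfl⟩
      rw [Submodule.Quotient.mk_smul]
      have h3 : (Submodule.Quotient.mk (∑ x : H ⧸ N.comap f,
          (⟨_, (hτ (f x.out) c).choose⟩ : Z1f (ρ.comp N.subtype) (B.sub N))) :
            H1f (ρ.comp N.subtype) (B.sub N)) =
          ∑ x : H ⧸ N.comap f, Submodule.Quotient.mk c := by
        rw [← Submodule.mkQ_apply, map_sum]
        exact Finset.sum_congr rfl fun x _ => h2 x
      rw [h3, Finset.sum_const, Finset.card_univ, ← Nat.cast_smul_eq_nsmul ℚ_[p], ← hm,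
        smul_smul, inv_mul_cancel₀ hm0, one_smul]

end

end Pool.BK
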