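import Pool.Agent.Helper95.BK.Defs2

/-!
# Module Fixed: dimensions of fixed spaces and permutation relations
-/

open scoped Pointwise NumberField
open Polynomial IsDedekindDomain

namespace Pool.BK

namespace Fixed

open Module

theorem finrank_eq {Γ k W : Type} [Group Γ] [Fintype Γ] [Field k] [CharZero k]
    [AddCommGroup W] [Module k W] [FiniteDimensional k W] (σ : Representation k Γ W)
    (K : Subgroup Γ) [Fintype K] :
    (Nat.card K : k) * (finrank k (fixedSub σ K) : k) =
      ∑ h : K, LinearMap.trace k W (σ h) := by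
  have h0 : (Nat.card K : k) ≠ 0 := by
    exact_mod_cast Nat.card_pos.ne'
  have : Invertible (Nat.card K : k) := invertibleOfNonzero h0
  let ρ : Representation k K W := σ.comp K.subtype
  have h1 := Representation.card_inv_mul_sum_char_eq_finrank ρ
  have h2 : Representation.invariants ρ = fixedSub σ K := by
    ext v
    constructor
    · intro h x hx
      exact h ⟨x, hx⟩
    · intro h x
      exact h x x.2
  rw [h2] at h1
  rw [← h1, mul_inv_cancel_left₀ h0]
  rfl

theorem card_mul_fixCount {Γ : Type} [Group Γ] [Fintype Γ] (K : Subgroup Γ) (γ : Γ)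
    [DecidablePred (· ∈ K)] :
    Nat.card K * fixCount K γ = ∑ x : Γ, if x⁻¹ * γ * x ∈ K then 1 else 0 := by
  classical
  unfold fixCount
  have h1 := QuotientGroup.card_preimage_mk K (MulAction.fixedBy (Γ ⧸ K) γ)
  rw [← h1, Finset.sum_boole, Nat.cast_id, ← Set.ncard_coe_finset]
  rw [← Nat.card_coe_set_eq]
  congr 1
  apply congrArg
  ext x
  simp only [Set.mem_preimage, MulAction.mem_fixedBy, Finset.coe_filter, Finset.mem_univ,
    true_and, Set.mem_ofPred_eq, MulAction.Quotient.smul_coe, smul_eq_mul]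
  rw [eq_comm, QuotientGroup.eq, mul_assoc]

theorem card_mul_finrank {Γ k W : Type} [Group Γ] [Fintype Γ] [Field k] [CharZero k]
    [AddCommGroup W] [Module k W] [FiniteDimensional k W] (σ : Representation k Γ W)
    (K : Subgroup Γ) :
    (Nat.card Γ : k) * (finrank k (fixedSub σ K) : k) =
      ∑ γ, LinearMap.trace k W (σ γ) * (fixCount K γ : k) := by
  classical
  have h0 : (Nat.card K : k) ≠ 0 := by
    exact_mod_cast Nat.card_pos.ne'
  have h1 := finrank_eq σ K
  apply mul_left_cancel₀ h0
  rw [mul_left_comm, h1, Finset.mul_sum, Finset.mul_sum]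
  have h2 : ∀ γ : Γ, (Nat.card K : k) * (LinearMap.trace k W (σ γ) * (fixCount K γ : k)) =
      ∑ x : Γ, if x⁻¹ * γ * x ∈ K then LinearMap.trace k W (σ γ) else 0 := by
    intro γ
    have h3 := card_mul_fixCount K γ
    have h4 : ((Nat.card K * fixCount K γ : ℕ) : k) =
        ((∑ x : Γ, if x⁻¹ * γ * x ∈ K then 1 else 0 : ℕ) : k) := by rw [h3]
    push_cast at h4
    rw [mul_left_comm, h4, Finset.mul_sum]
    refine Finset.sum_congr rfl fun x _ => ?_
    split_ifs <;> simp
  rw [Finset.sum_congr rfl fun γ _ => h2 γ, Finset.sum_comm]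
  have h5 : ∀ x : Γ, (∑ γ : Γ, if x⁻¹ * γ * x ∈ K then LinearMap.trace k W (σ γ) else 0) =
      ∑ h : K, LinearMap.trace k W (σ h) := by
    intro x
    rw [← (MulAut.conj x).toEquiv.sum_comp]
    have h6 : ∀ γ : Γ, (if x⁻¹ * ((MulAut.conj x).toEquiv γ) * x ∈ K then
        LinearMap.trace k W (σ ((MulAut.conj x).toEquiv γ)) else 0) =
        if γ ∈ K then LinearMap.trace k W (σ γ) else 0 := by
      intro γ
      have h7 : x⁻¹ * ((MulAut.conj x).toEquiv γ) * x = γ := by
        simp [MulAut.conj_apply, mul_assoc]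
      have h8 : LinearMap.trace k W (σ ((MulAut.conj x).toEquiv γ)) =
          LinearMap.trace k W (σ γ) := by
        have : (MulAut.conj x).toEquiv γ = x * γ * x⁻¹ := by simp [MulAut.conj_apply]
        rw [this, σ.map_mul, LinearMap.trace_mul_comm, ← σ.map_mul, ← mul_assoc,
          inv_mul_cancel, one_mul]
      rw [h7, h8]
    rw [Finset.sum_congr rfl fun γ _ => h6 γ, ← Finset.sum_filter]
    refine (Finset.sum_subtype _ (fun y => ?_) _)
    simp
  rw [Finset.sum_congr rfl fun x _ => h5 x, Finset.sum_const, Finset.card_univ,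
    ← Nat.card_eq_fintype_card, nsmul_eq_mul, Finset.mul_sum]

theorem fixCount_map {G : Type} [Group G] (N : Subgroup G) [N.Normal] (H : Subgroup G)
    (hN : N ≤ H) (g : G) :
    fixCount (H.map (QuotientGroup.mk' N)) (QuotientGroup.mk' N g) = fixCount H g := by
  unfold fixCount
  have hmem : ∀ x : G, QuotientGroup.mk' N x ∈ H.map (QuotientGroup.mk' N) ↔ x ∈ H := by
    intro x
    rw [← Subgroup.mem_comap, Subgroup.comap_map_eq, QuotientGroup.ker_mk', sup_of_le_left hN]
  symm
  let f : G ⧸ H → (G ⧸ N) ⧸ (H.map (QuotientGroup.mk' N)) :=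
    Quotient.map' (QuotientGroup.mk' N) (by
      intro a b hab
      rw [QuotientGroup.leftRel_apply] at hab ⊢
      rw [← map_inv, ← map_mul, hmem]
      exact hab)
  have hf : ∀ x : G, f (x : G ⧸ H) =
      ((QuotientGroup.mk' N x : G ⧸ N) : (G ⧸ N) ⧸ (H.map (QuotientGroup.mk' N))) := fun x => rfl
  have hinj : Function.Injective f := by
    intro a b hab
    induction a using QuotientGroup.induction_on with | H a => ?_
    induction b using QuotientGroup.induction_on with | H b => ?_
    rw [hf, hf, QuotientGroup.eq, ← map_inv, ← map_mul, hmem] at hab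
    exact QuotientGroup.eq.2 hab
  have hsurj : Function.Surjective f := by
    intro y
    induction y using QuotientGroup.induction_on with | H y => ?_
    obtain ⟨x, rfl⟩ := QuotientGroup.mk'_surjective N y
    exact ⟨(x : G ⧸ H), hf x⟩
  have hsm : ∀ y : G ⧸ H, f (g • y) = (QuotientGroup.mk' N g) • f y := by
    intro y
    induction y using QuotientGroup.induction_on with | H y => ?_
    rfl
  refine Nat.card_congr ((Equiv.ofBijective f ⟨hinj, hsurj⟩).subtypeEquiv ?_)
  intro y
  change g • y = y ↔ (QuotientGroup.mk' N g) • f y = f y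
  rw [← hsm]
  exact ⟨fun h => by rw [h], fun h => hinj h⟩

theorem fixCount_top {G : Type} [Group G] (g : G) : fixCount (⊤ : Subgroup G) g = 1 := by
  unfold fixCount
  have hsub : Subsingleton (G ⧸ (⊤ : Subgroup G)) := QuotientGroup.subsingleton_quotient_top
  have h1 : (MulAction.fixedBy (G ⧸ (⊤ : Subgroup G)) g) = Set.univ := by
    ext x
    simp only [MulAction.mem_fixedBy, Set.mem_univ, iff_true]
    exact Subsingleton.elim _ _
  rw [h1, Nat.card_univ]
  exact Nat.card_unique

/-- the finite-dimensional case -/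
theorem sum_finrank_fin {G k W : Type} [Group G] [Field k] [CharZero k] [AddCommGroup W]
    [Module k W] [FiniteDimensional k W] (τ : Representation k G W) (N : Subgroup G) [N.Normal]
    [N.FiniteIndex]
    (hτ : ∀ g ∈ N, τ g = 1) {ι : Type} [Fintype ι] (H : ι → Subgroup G) (hN : ∀ i, N ≤ H i)
    (a : ι → ℤ) (a₀ : ℤ) (ha : ∀ g, ∑ i, a i * (fixCount (H i) g : ℤ) = a₀) :
    ∑ i, a i * (Module.finrank k (fixedSub τ (H i)) : ℤ) =
      a₀ * (Module.finrank k (fixedSub τ ⊤) : ℤ) := by
  classical
  have : Fintype (G ⧸ N) := Fintype.ofFinite _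
  let σ : Representation k (G ⧸ N) W := QuotientGroup.lift N τ (fun g hg => hτ g hg)
  have hσ : ∀ g, σ (QuotientGroup.mk' N g) = τ g := fun g => rfl
  have hfix : ∀ K : Subgroup G, fixedSub σ (K.map (QuotientGroup.mk' N)) = fixedSub τ K := by
    intro K
    ext v
    constructor
    · intro h g hg
      exact h _ (Subgroup.mem_map_of_mem _ hg)
    · intro h x hx
      obtain ⟨g, hg, rfl⟩ := Subgroup.mem_map.1 hx
      exact h g hg
  have hcard : (Nat.card (G ⧸ N) : k) ≠ 0 := by
    exact_mod_cast Nat.card_pos.ne'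
  have key : ∀ K : Subgroup G, N ≤ K → (Nat.card (G ⧸ N) : k) *
      (finrank k (fixedSub τ K) : k) = ∑ γ : G ⧸ N, LinearMap.trace k W (σ γ) *
        (fixCount (K.map (QuotientGroup.mk' N)) γ : k) := by
    intro K hK
    rw [← hfix K]
    exact card_mul_finrank σ _
  have h1 : (Nat.card (G ⧸ N) : k) *
      ((∑ i, a i * (Module.finrank k (fixedSub τ (H i)) : ℤ) : ℤ) : k) =
      (Nat.card (G ⧸ N) : k) * ((a₀ * (Module.finrank k (fixedSub τ ⊤) : ℤ) : ℤ) : k) := by
    push_cast
    rw [Finset.mul_sum]
    have h2 : ∀ i, (Nat.card (G ⧸ N) : k) *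
        ((a i : k) * (finrank k (fixedSub τ (H i)) : k)) =
        ∑ γ : G ⧸ N, LinearMap.trace k W (σ γ) *
          ((a i : k) * (fixCount ((H i).map (QuotientGroup.mk' N)) γ : k)) := by
      intro i
      rw [mul_left_comm, key _ (hN i), Finset.mul_sum]
      refine Finset.sum_congr rfl fun γ _ => ?_
      ring
    rw [Finset.sum_congr rfl fun i _ => h2 i, Finset.sum_comm, mul_left_comm, key _ le_top,
      Finset.mul_sum]
    refine Finset.sum_congr rfl fun γ _ => ?_
    obtain ⟨g, rfl⟩ := QuotientGroup.mk'_surjective N γ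
    rw [← Finset.mul_sum, fixCount_map N ⊤ le_top, fixCount_top, Nat.cast_one, mul_one, mul_comm]
    congr 1
    rw [← ha g]
    push_cast
    refine Finset.sum_congr rfl fun i _ => ?_
    rw [fixCount_map N (H i) (hN i)]
  exact_mod_cast mul_left_cancel₀ hcard h1

end Fixed

open Module in
theorem sum_finrank_fixedSub {G k W : Type} [Group G] [Field k] [CharZero k] [AddCommGroup W]
    [Module k W] (τ : Representation k G W) (N : Subgroup G) [N.Normal] [N.FiniteIndex]
    (hτ : ∀ g ∈ N, τ g = 1) {ι : Type} [Fintype ι] (H : ι → Subgroup G) (hN : ∀ i, N ≤ H i)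
    (a : ι → ℤ) (a₀ : ℤ) (ha : ∀ g, ∑ i, a i * (fixCount (H i) g : ℤ) = a₀)
    (hfin : ∀ i, Module.Finite k (fixedSub τ (H i))) (hfin0 : Module.Finite k (fixedSub τ ⊤)) :
    ∑ i, a i * (Module.finrank k (fixedSub τ (H i)) : ℤ) =
      a₀ * (Module.finrank k (fixedSub τ ⊤) : ℤ) := by
  classical
  -- a finite-dimensional stable subspace containing everything relevant
  let U : Submodule k W := (⨆ i, fixedSub τ (H i)) ⊔ fixedSub τ ⊤
  have hU : FiniteDimensional k U := inferInstance
  have hτN : ∀ g h : G, (g : G ⧸ N) = (h : G ⧸ N) → τ g = τ h := by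
    intro g h hgh
    rw [QuotientGroup.eq] at hgh
    have h1 := hτ _ hgh
    rw [map_mul] at h1
    have h2 : τ g * (τ g⁻¹ * τ h) = τ g := by rw [h1, mul_one]
    rw [← h2, ← mul_assoc, ← map_mul, mul_inv_cancel, map_one, one_mul]
  let W' : Submodule k W := ⨆ γ : G ⧸ N, U.map (τ γ.out)
  have hW' : FiniteDimensional k W' := inferInstance
  have hle : ∀ g : G, U.map (τ g) ≤ W' := by
    intro g
    refine le_trans (le_of_eq ?_) (le_iSup (fun γ : G ⧸ N => U.map (τ γ.out)) (g : G ⧸ N))
    rw [hτN g (g : G ⧸ N).out (by rw [QuotientGroup.out_eq'])]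
  have hUW : U ≤ W' := by
    refine le_trans (le_of_eq ?_) (hle 1)
    rw [map_one]
    exact (Submodule.map_id U).symm
  have hstab : ∀ g : G, ∀ w ∈ W', τ g w ∈ W' := by
    intro g w hw
    have : W'.map (τ g) ≤ W' := by
      rw [Submodule.map_iSup]
      refine iSup_le fun γ => ?_
      rw [← Submodule.map_comp]
      change U.map (τ g * τ γ.out) ≤ W'
      rw [← map_mul]
      exact hle _
    exact this (Submodule.mem_map_of_mem hw)
  let τ' : Representation k G W' :=
    { toFun := fun g => (τ g).restrict (hstab g)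
      map_one' := by
        ext w
        simp
      map_mul' := by
        intro g h
        ext w
        simp }
  have hτ'N : ∀ g ∈ N, τ' g = 1 := by
    intro g hg
    ext w
    change τ g (w : W) = w
    rw [hτ g hg]
    rfl
  have hfr : ∀ K : Subgroup G, fixedSub τ K ≤ W' →
      finrank k (fixedSub τ' K) = finrank k (fixedSub τ K) := by
    intro K hK
    have h1 : fixedSub τ' K = (fixedSub τ K).comap W'.subtype := by
      ext w
      constructor
      · intro h g hg
        exact congrArg Subtype.val (h g hg)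
      · intro h g hg
        exact Subtype.ext (h g hg)
    rw [h1]
    exact (Submodule.comapSubtypeEquivOfLe hK).finrank_eq
  have hmain := Fixed.sum_finrank_fin τ' N hτ'N H hN a a₀ ha
  rw [hfr ⊤ (le_sup_right.trans hUW)] at hmain
  rw [← hmain]
  refine Finset.sum_congr rfl fun i _ => ?_
  rw [hfr (H i) (((le_iSup (fun i => fixedSub τ (H i)) i).trans le_sup_left).trans hUW)]

end Pool.BK
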