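import Pool.Agent.Helper95.BK.Defs2
import Pool.Agent.BK.ConjRep
import Pool.Agent.BK.Descent
import Pool.Agent.BK.Fixed

/-!
# Relations between the dimensions of `H¹_f` and of `H⁰` (module H1Relation of project BK)
-/

open scoped Pointwise NumberField

namespace Pool.BK

namespace H1Relation

variable {K : Type} [Field K] {Ω : Type} [Field Ω] [Algebra K Ω]

/-- a number field between `K` and `Ω` is finite over `K` -/
theorem finite_of_numberField [NumberField K] (E : IntermediateField K Ω) [NumberField E] :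
    FiniteDimensional K E := by
  have h0 : CharZero K := inferInstance
  have h1 : IsScalarTower ℚ K E := inferInstance
  exact Module.Finite.of_restrictScalars_finite ℚ K E

theorem injective_resHom (E : IntermediateField K Ω) :
    Function.Injective (resHom K E Ω) := AlgEquiv.restrictScalars_injective K

theorem range_resHom (E : IntermediateField K Ω) :
    (resHom K E Ω).range = E.fixingSubgroup := by
  ext σ
  constructor
  · rintro ⟨ψ, rfl⟩
    rw [IntermediateField.mem_fixingSubgroup_iff]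
    intro x hx
    exact ψ.commutes ⟨x, hx⟩
  · intro hσ
    refine ⟨IntermediateField.fixingSubgroupEquiv E ⟨σ, hσ⟩, ?_⟩
    ext x
    rfl

variable [NumberField K] [IsAlgClosed Ω] [Algebra.IsAlgebraic K Ω]

/-- `Ω` is a Galois extension of `K` -/
theorem isGalois : IsGalois K Ω := by
  have h0 : CharZero K := inferInstance
  have h1 : IsAlgClosure K Ω := ⟨inferInstance, inferInstance⟩
  have h2 : Normal K Ω := normal_iff.2 fun x => ⟨Algebra.IsIntegral.isIntegral x,
    IsAlgClosed.splits _⟩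
  exact ⟨⟩

theorem isOpenEmbedding_resHom (E : IntermediateField K Ω) [NumberField E] :
    Topology.IsOpenEmbedding (resHom K E Ω) := by
  have hfd := finite_of_numberField E
  have h0 : Algebra.IsAlgebraic E Ω := Algebra.IsAlgebraic.tower_top (K := K) E
  have h1 : IsGalois E Ω := isGalois
  have h2 : CompactSpace (Ω ≃ₐ[E] Ω) := inferInstance
  have h3 : T2Space (Ω ≃ₐ[K] Ω) := inferInstance
  have hemb := (continuous_resHom K E Ω).isClosedEmbedding (injective_resHom E)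
  refine ⟨hemb.isEmbedding, ?_⟩
  have h4 : Set.range (resHom K E Ω) = (E.fixingSubgroup : Set (Ω ≃ₐ[K] Ω)) := by
    rw [← range_resHom]; rfl
  rw [h4]
  exact E.fixingSubgroup_isOpen

/-- An open normal subgroup of finite index contained in all the Galois groups. -/
theorem exists_normal {ι : Type} [Fintype ι] (E : ι → IntermediateField K Ω)
    [∀ i, NumberField (E i)] :
    ∃ N : Subgroup (Ω ≃ₐ[K] Ω), N.Normal ∧ N.FiniteIndex ∧
      IsOpen (N : Set (Ω ≃ₐ[K] Ω)) ∧ ∀ i, N ≤ (E i).fixingSubgroup := by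
  have hgal : IsGalois K Ω := isGalois
  have hfd : ∀ i, FiniteDimensional K (E i) := fun i => finite_of_numberField (E i)
  have hfd' : FiniteDimensional K (⨆ i, E i : IntermediateField K Ω) :=
    IntermediateField.finiteDimensional_iSup_of_finite
  let F : IntermediateField K Ω := ⨆ i, E i
  let U : OpenSubgroup (Ω ≃ₐ[K] Ω) := ⟨F.fixingSubgroup, F.fixingSubgroup_isOpen⟩
  have hc : CompactSpace (Ω ≃ₐ[K] Ω) := inferInstance
  have hq : Finite ((Ω ≃ₐ[K] Ω) ⧸ U.toSubgroup) :=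
    Subgroup.quotient_finite_of_isOpen _ U.isOpen
  have hU : Subgroup.FiniteIndex U.toSubgroup := Subgroup.finiteIndex_of_finite_quotient
  refine ⟨U.toSubgroup.normalCore, inferInstance, inferInstance,
    Subgroup.isOpen_of_isClosed_of_finiteIndex _
      (U.toSubgroup.normalCore_isClosed U.isClosed), fun i => ?_⟩
  refine (Subgroup.normalCore_le _).trans ?_
  exact IntermediateField.fixingSubgroup_antitone (le_iSup E i)

section H1

variable {p : ℕ} [Fact p.Prime] {n : ℕ}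

/-- The comparison of all the Selmer groups with fixed spaces. -/
theorem exists_fixed (ρ : (Ω ≃ₐ[K] Ω) →* Matrix (Fin n) (Fin n) ℚ_[p]) (hρ : Continuous ρ)
    (B : PeriodData (Ω ≃ₐ[K] Ω) (𝓞 Ω) p) {ι : Type} [Fintype ι]
    (E : ι → IntermediateField K Ω) [∀ i, NumberField (E i)] :
    ∃ (W : Type) (_ : AddCommGroup W) (_ : Module ℚ_[p] W)
      (τ : Representation ℚ_[p] (Ω ≃ₐ[K] Ω) W) (N : Subgroup (Ω ≃ₐ[K] Ω)),
      N.Normal ∧ N.FiniteIndex ∧ (∀ g ∈ N, τ g = 1) ∧ (∀ i, N ≤ (E i).fixingSubgroup) ∧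
      (∀ i, Nonempty (H1f (ρ.comp (resHom K (E i) Ω)) (B.res (E i)) ≃ₗ[ℚ_[p]]
        fixedSub τ (E i).fixingSubgroup)) ∧
      Nonempty (H1f ρ B ≃ₗ[ℚ_[p]] fixedSub τ ⊤) := by
  obtain ⟨N, hN1, hN2, hN3, hN4⟩ := exists_normal E
  obtain ⟨τ, hτ, hτ'⟩ := exists_conjRep ρ hρ B N
  refine ⟨H1f (ρ.comp N.subtype) (B.sub N), inferInstance, inferInstance, τ, N, hN1, hN2, hτ', hN4,
    fun i => ?_, ?_⟩
  · have := descent ρ hρ B N hN3 τ hτ (Ω ≃ₐ[E i] Ω) (resHom K (E i) Ω) (fun _ _ => rfl)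
      (injective_resHom (E i)) (isOpenEmbedding_resHom (E i))
      (by rw [range_resHom]; exact hN4 i)
    rw [range_resHom] at this
    exact this
  · have := descent ρ hρ B N hN3 τ hτ (Ω ≃ₐ[K] Ω) (MonoidHom.id _) (fun _ _ => rfl)
      Function.injective_id Topology.IsOpenEmbedding.id
      (by rw [MonoidHom.range_eq_top.2 Function.surjective_id]; exact le_top)
    rw [MonoidHom.range_eq_top.2 Function.surjective_id] at this
    exact this

end H1

section H0

variable {G : Type} [Group G] {F : Type} [Field F] {n : ℕ}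

theorem invSub_comp {H : Type} [Group H] (ρ : G →* Matrix (Fin n) (Fin n) F) (f : H →* G) :
    invSub (ρ.comp f) ⊤ = invSub ρ f.range := by
  ext v
  constructor
  · rintro hv _ ⟨h, rfl⟩
    exact hv h trivial
  · intro hv h _
    exact hv (f h) ⟨h, rfl⟩

theorem mulVec_mem (ρ : G →* Matrix (Fin n) (Fin n) F) (N : Subgroup G) [hN : N.Normal] (g : G)
    (v : Fin n → F) (hv : v ∈ invSub ρ N) : Matrix.toLin' (ρ g) v ∈ invSub ρ N := by
  intro h hh
  have h1 := hv (g⁻¹ * h * g⁻¹⁻¹) (hN.conj_mem h hh _)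
  rw [inv_inv] at h1
  rw [Matrix.toLin'_apply, Matrix.mulVec_mulVec, ← map_mul]
  conv_rhs => rw [← h1]
  rw [Matrix.mulVec_mulVec, ← map_mul]
  congr 2
  group

/-- the representation on the vectors fixed by a normal subgroup -/
noncomputable def repInv (ρ : G →* Matrix (Fin n) (Fin n) F) (N : Subgroup G) [N.Normal] :
    Representation F G (invSub ρ N) where
  toFun g := (Matrix.toLin' (ρ g)).restrict (mulVec_mem ρ N g)
  map_one' := by
    ext v i
    simp [LinearMap.restrict_apply]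
  map_mul' g h := by
    refine LinearMap.ext fun v => Subtype.ext ?_
    change Matrix.toLin' (ρ (g * h)) v.1 = Matrix.toLin' (ρ g) (Matrix.toLin' (ρ h) v.1)
    rw [map_mul, Matrix.toLin'_mul]
    rfl

theorem repInv_apply (ρ : G →* Matrix (Fin n) (Fin n) F) (N : Subgroup G) [N.Normal] (g : G)
    (v : invSub ρ N) : (repInv ρ N g v : Fin n → F) = (ρ g).mulVec v.1 := rfl

/-- the fixed vectors of the representation on the fixed vectors -/
noncomputable def fixedEquiv (ρ : G →* Matrix (Fin n) (Fin n) F) (N : Subgroup G) [N.Normal]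
    (H : Subgroup G) (hH : N ≤ H) : invSub ρ H ≃ₗ[F] fixedSub (repInv ρ N) H where
  toFun v := ⟨⟨v.1, fun g hg => v.2 g (hH hg)⟩, fun h hh => Subtype.ext (v.2 h hh)⟩
  map_add' _ _ := rfl
  map_smul' _ _ := rfl
  invFun w := ⟨w.1.1, fun h hh => congrArg Subtype.val (w.2 h hh)⟩
  left_inv _ := rfl
  right_inv _ := rfl

end H0

end H1Relation

section H1

variable {K : Type} [Field K] [NumberField K] {Ω : Type} [Field Ω] [Algebra K Ω] [IsAlgClosed Ω]
  [Algebra.IsAlgebraic K Ω] {p : ℕ} [Fact p.Prime] {n : ℕ}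

open H1Relation

theorem finite_H1f (ρ : (Ω ≃ₐ[K] Ω) →* Matrix (Fin n) (Fin n) ℚ_[p]) (hρ : Continuous ρ)
    (B : PeriodData (Ω ≃ₐ[K] Ω) (𝓞 Ω) p) (E : IntermediateField K Ω) [NumberField E]
    (h : Module.Finite ℚ_[p] (H1f (ρ.comp (resHom K E Ω)) (B.res E))) :
    Module.Finite ℚ_[p] (H1f ρ B) := by
  obtain ⟨W, _, _, τ, N, hN1, hN2, hN3, hN4, hE, ⟨e⟩⟩ :=
    exists_fixed ρ hρ B (ι := Unit) (fun _ => E)
  obtain ⟨e'⟩ := hE ()
  have h1 : Module.Finite ℚ_[p] (fixedSub τ E.fixingSubgroup) := Module.Finite.equiv e'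
  have h2 : fixedSub τ ⊤ ≤ fixedSub τ E.fixingSubgroup := fun w hw g hg => hw g trivial
  have h3 : Module.Finite ℚ_[p] (fixedSub τ ⊤) :=
    Module.Finite.of_injective (Submodule.inclusion h2) (Submodule.inclusion_injective h2)
  exact Module.Finite.equiv e.symm

theorem h1_relation (ρ : (Ω ≃ₐ[K] Ω) →* Matrix (Fin n) (Fin n) ℚ_[p]) (hρ : Continuous ρ)
    (B : PeriodData (Ω ≃ₐ[K] Ω) (𝓞 Ω) p) {ι : Type} [Fintype ι]
    (E : ι → IntermediateField K Ω) [∀ i, NumberField (E i)] (a : ι → ℤ) (a₀ : ℤ)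
    (ha : ∀ g : Ω ≃ₐ[K] Ω, ∑ i, a i * (fixCount (E i).fixingSubgroup g : ℤ) = a₀)
    (hfin : ∀ i, Module.Finite ℚ_[p] (H1f (ρ.comp (resHom K (E i) Ω)) (B.res (E i))))
    (hfin0 : Module.Finite ℚ_[p] (H1f ρ B)) :
    ∑ i, a i * (Module.finrank ℚ_[p] (H1f (ρ.comp (resHom K (E i) Ω)) (B.res (E i))) : ℤ) =
      a₀ * (Module.finrank ℚ_[p] (H1f ρ B) : ℤ) := by
  obtain ⟨W, _, _, τ, N, hN1, hN2, hN3, hN4, hE, ⟨e⟩⟩ := exists_fixed ρ hρ B E
  have key := sum_finrank_fixedSub τ N hN3 (fun i => (E i).fixingSubgroup) hN4 a a₀ ha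
    (fun i => Module.Finite.equiv (hE i).some) (Module.Finite.equiv e)
  rw [e.finrank_eq, ← key]
  exact Finset.sum_congr rfl fun i _ => by rw [(hE i).some.finrank_eq]

theorem h0_relation (ρ : (Ω ≃ₐ[K] Ω) →* Matrix (Fin n) (Fin n) ℚ_[p]) {ι : Type} [Fintype ι]
    (E : ι → IntermediateField K Ω) [∀ i, NumberField (E i)] (a : ι → ℤ) (a₀ : ℤ)
    (ha : ∀ g : Ω ≃ₐ[K] Ω, ∑ i, a i * (fixCount (E i).fixingSubgroup g : ℤ) = a₀) :
    ∑ i, a i * (h0 (ρ.comp (resHom K (E i) Ω)) : ℤ) = a₀ * (h0 ρ : ℤ) := by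
  obtain ⟨N, hN1, hN2, hN3, hN4⟩ := exists_normal E
  have hτ : ∀ g ∈ N, repInv ρ N g = 1 := fun g hg =>
    LinearMap.ext fun v => Subtype.ext (v.2 g hg)
  have key := sum_finrank_fixedSub (repInv ρ N) N hτ (fun i => (E i).fixingSubgroup) hN4 a a₀ ha
    (fun i => inferInstance) inferInstance
  have h1 : (h0 ρ : ℤ) = (Module.finrank ℚ_[p] (fixedSub (repInv ρ N) ⊤) : ℤ) := by
    rw [h0, (fixedEquiv ρ N ⊤ le_top).finrank_eq]
  rw [h1, ← key]
  refine Finset.sum_congr rfl fun i _ => ?_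
  rw [h0, invSub_comp, range_resHom, (fixedEquiv ρ N _ (hN4 i)).finrank_eq]

end H1

end Pool.BK
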