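import Pool.Agent.Helper95.BK.Defs2

/-!
Power sums of the inverse roots of a polynomial, through the logarithmic derivative.
-/

open Polynomial

namespace Pool.BK

namespace Psum

variable {F : Type} [Field F]

/-- the logarithmic derivative as a power series -/
noncomputable def ser (P : F[X]) : PowerSeries F :=
  -(PowerSeries.X * ((derivative P : F[X]) : PowerSeries F) * (P : PowerSeries F)⁻¹)

theorem psum_eq (P : F[X]) (k : ℕ) : psum P k = PowerSeries.coeff k (ser P) := rfl

theorem ser_mul {P : F[X]} (hP : P.coeff 0 = 1) :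
    ser P * (P : PowerSeries F) = -(PowerSeries.X * ((derivative P : F[X]) : PowerSeries F)) := by
  have h0 : PowerSeries.constantCoeff (P : PowerSeries F) ≠ 0 := by
    rw [← PowerSeries.coeff_zero_eq_constantCoeff_apply, Polynomial.coeff_coe, hP]
    exact one_ne_zero
  rw [ser, neg_mul, mul_assoc, PowerSeries.inv_mul_cancel _ h0, mul_one]

theorem ser_unique {P : F[X]} (hP : P.coeff 0 = 1) (T : PowerSeries F)
    (hT : T * (P : PowerSeries F) =
      -(PowerSeries.X * ((derivative P : F[X]) : PowerSeries F))) : ser P = T := by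
  have h0 : (P : PowerSeries F) ≠ 0 := by
    intro h
    have := congrArg (PowerSeries.coeff 0) h
    rw [Polynomial.coeff_coe, hP] at this
    simp at this
  exact mul_right_cancel₀ h0 ((ser_mul hP).trans hT.symm)

theorem coeff_rhs (P : F[X]) (k : ℕ) :
    PowerSeries.coeff k (-(PowerSeries.X * ((derivative P : F[X]) : PowerSeries F))) =
      -((k : F) * P.coeff k) := by
  rw [map_neg]
  congr 1
  rcases k with _ | k
  · simp
  · rw [PowerSeries.coeff_succ_X_mul, Polynomial.coeff_coe, coeff_derivative]
    push_cast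
    ring

theorem psum_zero (P : F[X]) : psum P 0 = 0 := by
  rw [psum]
  simp

/-- Newton's identities -/
theorem newton {P : F[X]} (hP : P.coeff 0 = 1) (k : ℕ) :
    ∑ x ∈ Finset.HasAntidiagonal.antidiagonal k, psum P x.1 * P.coeff x.2 = -((k : F) * P.coeff k) := by
  rw [← coeff_rhs, ← ser_mul hP, PowerSeries.coeff_mul]
  refine Finset.sum_congr rfl fun x _ => ?_
  rw [psum_eq, Polynomial.coeff_coe]

theorem psum_of_newton {P : F[X]} (hP : P.coeff 0 = 1) (t : ℕ → F)
    (h : ∀ k, ∑ x ∈ Finset.HasAntidiagonal.antidiagonal k, t x.1 * P.coeff x.2 = -((k : F) * P.coeff k)) (k : ℕ) :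
    psum P k = t k := by
  have h1 : ser P = PowerSeries.mk t := by
    refine ser_unique hP _ ?_
    ext n
    rw [coeff_rhs, ← h n, PowerSeries.coeff_mul]
    refine Finset.sum_congr rfl fun x _ => ?_
    rw [PowerSeries.coeff_mk, Polynomial.coeff_coe]
  rw [psum_eq, h1, PowerSeries.coeff_mk]

/-- Jacobi's formula. -/
theorem derivative_det {R : Type} [CommRing R] {n : Type} [Fintype n] [DecidableEq n]
    (M : Matrix n n R[X]) :
    derivative M.det = (M.adjugate * M.map derivative).trace := by
  have h1 : ∀ i, (M.adjugate * M.map derivative) i i =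
      (M.updateCol i (fun j => derivative (M j i))).det := by
    intro i
    rw [← Matrix.cramer_apply, Matrix.cramer_eq_adjugate_mulVec]
    rfl
  rw [Matrix.trace]
  simp only [Matrix.diag_apply, h1, Matrix.det_apply]
  rw [Finset.sum_comm, map_sum]
  refine Finset.sum_congr rfl fun σ _ => ?_
  rw [← Finset.smul_sum]
  have h2 : derivative (Equiv.Perm.sign σ • ∏ i, M (σ i) i) =
      Equiv.Perm.sign σ • derivative (∏ i, M (σ i) i) := by
    rw [Units.smul_def, Units.smul_def, zsmul_eq_mul, zsmul_eq_mul]
    simp
  rw [h2]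
  congr 1
  rw [derivative_prod_finset]
  refine Finset.sum_congr rfl fun i _ => ?_
  rw [← Finset.mul_prod_erase Finset.univ _ (Finset.mem_univ i), mul_comm]
  congr 1
  · rw [Matrix.updateCol_self]
  · refine Finset.prod_congr rfl fun j hj => ?_
    rw [Matrix.updateCol_ne (Finset.ne_of_mem_erase hj)]

variable {n : Type} [Fintype n] [DecidableEq n]

omit [Fintype n] in
theorem map_der (A : Matrix n n F) :
    (1 - (X : F[X]) • A.map C : Matrix n n F[X]).map derivative = -(A.map C) := by
  ext1 a b
  have h1 : derivative ((1 : Matrix n n F[X]) a b) = 0 := by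
    rw [Matrix.one_apply]
    split_ifs
    · exact derivative_one
    · exact derivative_zero
  rw [Matrix.map_apply, Matrix.neg_apply, Matrix.map_apply, Matrix.sub_apply, Matrix.smul_apply,
    Matrix.map_apply, smul_eq_mul, derivative_sub, h1, derivative_mul, derivative_X, derivative_C,
    one_mul, mul_zero, add_zero, zero_sub]

/-- `tr (A ^ k)` satisfies Newton's identities. -/
theorem psum_charpolyRev (A : Matrix n n F) {k : ℕ} (hk : 0 < k) :
    psum A.charpoly.reverse k = (A ^ k).trace := by
  classical
  have hP : A.charpoly.reverse.coeff 0 = 1 := by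
    rw [coeff_zero_reverse]
    exact A.charpoly_monic.leadingCoeff
  set Q := A.charpoly.reverse with hQ
  let M : Matrix n n F[X] := 1 - (X : F[X]) • A.map C
  have hQM : Q = M.det := by
    rw [hQ, Matrix.reverse_charpoly]
    rfl
  let B : ℕ → Matrix n n F := fun j a b => (M.adjugate a b).coeff j
  have hmul : ∀ (j : ℕ) (a b : n), ((A.map C * M.adjugate) a b : F[X]).coeff j = (A * B j) a b := by
    intro j a b
    rw [Matrix.mul_apply, Matrix.mul_apply, finsetSum_coeff]
    refine Finset.sum_congr rfl fun c _ => ?_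
    rw [Matrix.map_apply, coeff_C_mul]
  have hadj : ∀ a b, M.adjugate a b - X * (A.map C * M.adjugate) a b = Q * (1 : Matrix n n F[X]) a b := by
    intro a b
    have h1 := congrFun (congrFun (Matrix.mul_adjugate M) a) b
    rw [← hQM] at h1
    rw [show M * M.adjugate = M.adjugate - (X : F[X]) • (A.map C * M.adjugate) by
      rw [show M = 1 - (X : F[X]) • A.map C from rfl, sub_mul, one_mul, Matrix.smul_mul]] at h1
    simpa using h1
  have hone : ∀ (j : ℕ) (a b : n), (Q * (1 : Matrix n n F[X]) a b).coeff j =
      (Q.coeff j • (1 : Matrix n n F)) a b := by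
    intro j a b
    by_cases hab : a = b
    · subst hab; simp
    · simp [Matrix.one_apply_ne hab]
  have hB0 : B 0 = Q.coeff 0 • 1 := by
    ext a b
    have h1 := congrArg (fun p : F[X] => p.coeff 0) (hadj a b)
    simp only [coeff_sub, coeff_X_mul_zero, sub_zero] at h1
    exact h1.trans (hone 0 a b)
  have hBs : ∀ j, B (j + 1) = A * B j + Q.coeff (j + 1) • 1 := by
    intro j
    ext a b
    have h1 := congrArg (fun p : F[X] => p.coeff (j + 1)) (hadj a b)
    simp only [coeff_sub, coeff_X_mul] at h1
    rw [hmul, hone] at h1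
    rw [Matrix.add_apply, ← h1]
    change (M.adjugate a b).coeff (j + 1) = _
    ring
  have hB : ∀ j, B j = ∑ x ∈ Finset.HasAntidiagonal.antidiagonal j, Q.coeff x.2 • A ^ x.1 := by
    intro j
    induction j with
    | zero => rw [hB0]; simp
    | succ j ih =>
      rw [hBs, ih, Finset.Nat.sum_antidiagonal_succ, Finset.mul_sum, pow_zero, add_comm]
      congr 1
      refine Finset.sum_congr rfl fun x _ => ?_
      rw [Matrix.mul_smul, pow_succ']
  have hder : ∀ j : ℕ, ((j : F) + 1) * Q.coeff (j + 1) = -(B j * A).trace := by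
    intro j
    have h1 := congrArg (fun p : F[X] => p.coeff j) (derivative_det M)
    rw [← hQM] at h1
    simp only [coeff_derivative] at h1
    rw [mul_comm, h1]
    have h2 : M.map derivative = -(A.map C) := map_der A
    rw [h2, mul_neg, Matrix.trace_neg, coeff_neg]
    congr 1
    rw [Matrix.trace, Matrix.trace, finsetSum_coeff]
    refine Finset.sum_congr rfl fun a _ => ?_
    rw [Matrix.diag_apply, Matrix.diag_apply, Matrix.mul_apply, Matrix.mul_apply, finsetSum_coeff]
    refine Finset.sum_congr rfl fun c _ => ?_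
    rw [Matrix.map_apply, coeff_mul_C]
  have key : psum Q k = if k = 0 then 0 else (A ^ k).trace := by
    refine psum_of_newton hP (fun k => if k = 0 then 0 else (A ^ k).trace) ?_ k
    intro m
    rcases m with _ | m
    · simp
    · rw [Finset.Nat.sum_antidiagonal_succ]
      simp only [if_true, zero_mul, zero_add, Nat.add_eq_zero_iff, one_ne_zero, and_false, if_false]
      push_cast
      rw [hder m, neg_neg, hB m, Finset.sum_mul, Matrix.trace_sum]
      refine Finset.sum_congr rfl fun x _ => ?_
      rw [Matrix.smul_mul, Matrix.trace_smul, smul_eq_mul, pow_succ, mul_comm]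
  rw [key, if_neg hk.ne']

end Psum

open Psum

theorem psum_mul {F : Type} [Field F] {P Q : F[X]} (hP : P.coeff 0 = 1) (hQ : Q.coeff 0 = 1)
    (k : ℕ) : psum (P * Q) k = psum P k + psum Q k := by
  have hPQ : (P * Q).coeff 0 = 1 := by rw [mul_coeff_zero, hP, hQ, mul_one]
  rw [psum_eq, psum_eq, psum_eq, ← map_add]
  congr 1
  refine ser_unique hPQ _ ?_
  have h1 := ser_mul hP
  have h2 := ser_mul hQ
  rw [derivative_mul]
  push_cast
  linear_combination (Q : PowerSeries F) * h1 + (P : PowerSeries F) * h2

theorem psum_expand {F : Type} [Field F] {P : F[X]} (hP : P.coeff 0 = 1) {f : ℕ} (hf : 0 < f)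
    (k : ℕ) : psum (expand F f P) k = if f ∣ k then (f : F) * psum P (k / f) else 0 := by
  have hP' : (expand F f P).coeff 0 = 1 := by
    rw [coeff_expand hf, if_pos (dvd_zero f), Nat.zero_div, hP]
  refine psum_of_newton hP' (fun k => if f ∣ k then (f : F) * psum P (k / f) else 0) ?_ k
  intro m
  by_cases hm : f ∣ m
  · obtain ⟨q, rfl⟩ := hm
    rw [coeff_expand hf, if_pos (dvd_mul_right f q), Nat.mul_div_cancel_left _ hf]
    have h1 := newton hP q
    have h2 : ∑ x ∈ Finset.HasAntidiagonal.antidiagonal (f * q),
        (if f ∣ x.1 then (f : F) * psum P (x.1 / f) else 0) * (expand F f P).coeff x.2 =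
        ∑ x ∈ Finset.HasAntidiagonal.antidiagonal q, (f : F) * (psum P x.1 * P.coeff x.2) := by
      symm
      refine Finset.sum_of_injOn (fun x => (f * x.1, f * x.2)) ?_ ?_ ?_ ?_
      · rintro ⟨a, b⟩ _ ⟨c, d⟩ _ h
        simp only [Prod.mk.injEq] at h
        exact Prod.ext (Nat.eq_of_mul_eq_mul_left hf h.1) (Nat.eq_of_mul_eq_mul_left hf h.2)
      · rintro ⟨a, b⟩ h
        simp only [Finset.mem_coe, Finset.HasAntidiagonal.mem_antidiagonal] at h ⊢
        rw [← mul_add, h]
      · rintro ⟨a, b⟩ h1 h2
        rw [Finset.HasAntidiagonal.mem_antidiagonal] at h1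
        by_cases ha : f ∣ a
        · exfalso
          obtain ⟨c, rfl⟩ := ha
          have hb : f ∣ b := (Nat.dvd_add_right (dvd_mul_right f c)).1 (by
            dsimp only at h1; rw [h1]; exact dvd_mul_right f q)
          obtain ⟨d, rfl⟩ := hb
          apply h2
          refine ⟨(c, d), ?_, rfl⟩
          simp only [Finset.mem_coe, Finset.HasAntidiagonal.mem_antidiagonal]
          dsimp only at h1
          rw [← mul_add] at h1
          exact Nat.eq_of_mul_eq_mul_left hf h1
        · simp only [if_neg ha, zero_mul]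
      · rintro ⟨a, b⟩ _
        simp only [dvd_mul_right, if_true, Nat.mul_div_cancel_left _ hf, coeff_expand hf]
        ring
    rw [h2, ← Finset.mul_sum, h1]
    push_cast
    ring
  · rw [coeff_expand hf, if_neg hm, mul_zero, neg_zero]
    refine Finset.sum_eq_zero ?_
    rintro ⟨a, b⟩ h
    rw [Finset.HasAntidiagonal.mem_antidiagonal] at h
    dsimp only at h ⊢
    by_cases ha : f ∣ a
    · have hb : ¬ f ∣ b := fun hb => hm (by rw [← h]; exact dvd_add ha hb)
      rw [coeff_expand hf, if_neg hb, mul_zero]
    · rw [if_neg ha, zero_mul]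

theorem psum_charpoly {F W : Type} [Field F] [AddCommGroup W] [Module F W] [Module.Finite F W]
    (A : Module.End F W) {k : ℕ} (hk : 0 < k) :
    psum A.charpoly.reverse k = LinearMap.trace F W (A ^ k) := by
  classical
  let b := Module.Free.chooseBasis F W
  rw [← LinearMap.charpoly_toMatrix A b, psum_charpolyRev _ hk,
    LinearMap.trace_eq_matrix_trace F b, ← LinearMap.toMatrix_pow]

theorem eq_of_psum {F : Type} [Field F] [CharZero F] {P Q : F[X]} (hP : P.coeff 0 = 1)
    (hQ : Q.coeff 0 = 1) (h : ∀ k, 0 < k → psum P k = psum Q k) : P = Q := by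
  ext k
  induction k using Nat.strong_induction_on with
  | _ k ih =>
    rcases k with _ | k
    · rw [hP, hQ]
    · have h1 := newton hP (k + 1)
      have h2 := newton hQ (k + 1)
      rw [Finset.Nat.sum_antidiagonal_succ] at h1 h2
      simp only [psum_zero, zero_mul, zero_add] at h1 h2
      have h3 : ∑ x ∈ Finset.HasAntidiagonal.antidiagonal k, psum P (x.1 + 1) * P.coeff x.2 =
          ∑ x ∈ Finset.HasAntidiagonal.antidiagonal k, psum Q (x.1 + 1) * Q.coeff x.2 := by
        refine Finset.sum_congr rfl fun x hx => ?_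
        rw [Finset.HasAntidiagonal.mem_antidiagonal] at hx
        rw [h _ (Nat.succ_pos _), ih x.2 (by omega)]
      rw [h1, h2, neg_inj] at h3
      exact mul_left_cancel₀ (by exact_mod_cast Nat.succ_ne_zero k) h3

theorem coeff_zero_reverse_charpoly {F W : Type} [Field F] [AddCommGroup W] [Module F W]
    [Module.Finite F W] (A : Module.End F W) : A.charpoly.reverse.coeff 0 = 1 := by
  rw [coeff_zero_reverse]
  exact (LinearMap.charpoly_monic A).leadingCoeff

end Pool.BK
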