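import Pool.Agent.Helper95.BK.Defs2

/-!
Conjugation of Euler polynomials.
-/

open scoped Pointwise NumberField
open Polynomial IsDedekindDomain

namespace Pool.BK

namespace Conj

section Abstract

variable {G H F : Type} [Group G] [Group H] [Field F] {n : ℕ}

theorem mul_mulVec (ρ : G →* Matrix (Fin n) (Fin n) F) (a b : G) (v : Fin n → F) :
    (ρ (a * b)).mulVec v = (ρ a).mulVec ((ρ b).mulVec v) := by
  rw [map_mul, Matrix.mulVec_mulVec]

/-- the linear equivalence given by `ρ g` -/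
noncomputable def equivOf (ρ : G →* Matrix (Fin n) (Fin n) F) (g : G) :
    (Fin n → F) ≃ₗ[F] (Fin n → F) :=
  LinearEquiv.ofLinearMap (Matrix.toLin' (ρ g)) (Matrix.toLin' (ρ g⁻¹))
    (by rw [← Matrix.toLin'_mul, ← map_mul, mul_inv_cancel, map_one, Matrix.toLin'_one])
    (by rw [← Matrix.toLin'_mul, ← map_mul, inv_mul_cancel, map_one, Matrix.toLin'_one])

theorem equivOf_apply (ρ : G →* Matrix (Fin n) (Fin n) F) (g : G) (v : Fin n → F) :
    equivOf ρ g v = (ρ g).mulVec v := by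
  simp [equivOf]

theorem mem_invSub_iff (ρ : G →* Matrix (Fin n) (Fin n) F) (f : H →* G) (I : Subgroup G)
    (I' : Subgroup H) (g : G) (hI : ∀ x : G, x ∈ I ↔ ∃ h ∈ I', x = g * f h * g⁻¹)
    (v : Fin n → F) :
    (ρ g).mulVec v ∈ invSub ρ I ↔ v ∈ invSub (ρ.comp f) I' := by
  constructor
  · intro hv h hh
    have h1 : (ρ (g * f h * g⁻¹)).mulVec ((ρ g).mulVec v) = (ρ g).mulVec v :=
      hv _ ((hI _).2 ⟨h, hh, rfl⟩)
    rw [← mul_mulVec, inv_mul_cancel_right, mul_mulVec] at h1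
    have h2 := congrArg (fun w => (ρ g⁻¹).mulVec w) h1
    simp only [← mul_mulVec] at h2
    rw [inv_mul_cancel, map_one, Matrix.one_mulVec, inv_mul_cancel_left] at h2
    exact h2
  · intro hv x hx
    obtain ⟨h, hh, rfl⟩ := (hI x).1 hx
    rw [← mul_mulVec, inv_mul_cancel_right, mul_mulVec]
    have h1 : (ρ (f h)).mulVec v = v := hv h hh
    rw [h1]

theorem endOn_conj (ρ : G →* Matrix (Fin n) (Fin n) F) (f : H →* G) (I : Subgroup G)
    (I' : Subgroup H) (g : G) (hI : ∀ x : G, x ∈ I ↔ ∃ h ∈ I', x = g * f h * g⁻¹) (ψ : H)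
    (ψ' : G) (hψ : ψ' = g * f ψ * g⁻¹) :
    (endOn (ρ.comp f) I' ψ).charpoly = (endOn ρ I ψ').charpoly := by
  have hmap : (invSub (ρ.comp f) I').map (equivOf ρ g : (Fin n → F) →ₗ[F] (Fin n → F)) =
      invSub ρ I := by
    ext w
    rw [Submodule.mem_map]
    constructor
    · rintro ⟨v, hv, rfl⟩
      rw [LinearEquiv.coe_coe, equivOf_apply]
      exact (mem_invSub_iff ρ f I I' g hI v).2 hv
    · intro hw
      refine ⟨(ρ g⁻¹).mulVec w, ?_, ?_⟩
      · rw [← mem_invSub_iff ρ f I I' g hI, ← mul_mulVec, mul_inv_cancel, map_one,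
          Matrix.one_mulVec]
        exact hw
      · rw [LinearEquiv.coe_coe, equivOf_apply, ← mul_mulVec, mul_inv_cancel, map_one,
          Matrix.one_mulVec]
  let e : invSub (ρ.comp f) I' ≃ₗ[F] invSub ρ I :=
    (equivOf ρ g).ofSubmodules _ _ hmap
  have he : ∀ v : invSub (ρ.comp f) I', ((e v : invSub ρ I) : Fin n → F) =
      (ρ g).mulVec (v : Fin n → F) := by
    intro v
    rw [← equivOf_apply]
    rfl
  have hcomm : ∀ v : Fin n → F, (ρ ψ').mulVec ((ρ g).mulVec v) =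
      (ρ g).mulVec (((ρ.comp f) ψ).mulVec v) := by
    intro v
    rw [hψ, ← mul_mulVec, inv_mul_cancel_right, mul_mulVec]
    rfl
  have hcond : (∀ v ∈ invSub (ρ.comp f) I', Matrix.toLin' ((ρ.comp f) ψ) v ∈
      invSub (ρ.comp f) I') ↔ ∀ v ∈ invSub ρ I, Matrix.toLin' (ρ ψ') v ∈ invSub ρ I := by
    constructor
    · intro h v hv
      have h1 : (ρ g).mulVec ((ρ g⁻¹).mulVec v) = v := by
        rw [← mul_mulVec, mul_inv_cancel, map_one, Matrix.one_mulVec]
      rw [← h1] at hv ⊢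
      rw [Matrix.toLin'_apply, hcomm, mem_invSub_iff ρ f I I' g hI]
      have h2 := h _ ((mem_invSub_iff ρ f I I' g hI _).1 hv)
      rwa [Matrix.toLin'_apply] at h2
    · intro h v hv
      have h2 := h _ ((mem_invSub_iff ρ f I I' g hI _).2 hv)
      rw [Matrix.toLin'_apply, hcomm, mem_invSub_iff ρ f I I' g hI] at h2
      rwa [Matrix.toLin'_apply]
  rw [← LinearEquiv.charpoly_conj e]
  congr 1
  by_cases h : ∀ v ∈ invSub (ρ.comp f) I', Matrix.toLin' ((ρ.comp f) ψ) v ∈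
      invSub (ρ.comp f) I'
  · have h' := hcond.1 h
    rw [endOn, endOn, dif_pos h, dif_pos h']
    ext1 w
    obtain ⟨v, rfl⟩ := e.surjective w
    rw [LinearEquiv.conj_apply_apply, LinearEquiv.symm_apply_apply]
    apply Subtype.ext
    rw [he]
    have h3 : ((((Matrix.toLin' (ρ ψ')).restrict h') (e v) : invSub ρ I) : Fin n → F) =
        (ρ ψ').mulVec ((e v : invSub ρ I) : Fin n → F) := by
      rw [LinearMap.coe_restrict_apply, Matrix.toLin'_apply]
    have h4 : ((((Matrix.toLin' ((ρ.comp f) ψ)).restrict h) v : invSub (ρ.comp f) I') :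
        Fin n → F) = ((ρ.comp f) ψ).mulVec (v : Fin n → F) := by
      rw [LinearMap.coe_restrict_apply, Matrix.toLin'_apply]
    rw [h3, h4, he, hcomm]
  · have h' := fun h'' => h (hcond.2 h'')
    rw [endOn, endOn, dif_neg h, dif_neg h', map_zero]

end Abstract

end Conj

section Places

variable {K : Type} [Field K] [NumberField K] {Ω : Type} [Field Ω] [Algebra K Ω] [IsAlgClosed Ω]
  [Algebra.IsAlgebraic K Ω]

variable (E : Type) [Field E] [NumberField E] [Algebra K E] [Algebra E Ω] [IsScalarTower K E Ω]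

theorem eulerPoly_conj {F : Type} [Field F] {n : ℕ} (ρ : (Ω ≃ₐ[K] Ω) →* Matrix (Fin n) (Fin n) F)
    (Q : Ideal (𝓞 Ω)) (g : Ω ≃ₐ[K] Ω) (ψ : Ω ≃ₐ[E] Ω) :
    eulerPoly (ρ.comp (resHom K E Ω)) (g⁻¹ • Q) ψ =
      (endOn ρ (Q.inertia (Ω ≃ₐ[K] Ω) ⊓
        MulAction.stabilizer (Ω ≃ₐ[K] Ω) (g : (Ω ≃ₐ[K] Ω) ⧸ (resHom K E Ω).range))
        (g * resHom K E Ω ψ * g⁻¹)⁻¹).charpoly.reverse := by
  rw [eulerPoly]
  congr 1
  have key : ∀ h : Ω ≃ₐ[E] Ω, h ∈ (g⁻¹ • Q).inertia (Ω ≃ₐ[E] Ω) ↔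
      g * resHom K E Ω h * g⁻¹ ∈ Q.inertia (Ω ≃ₐ[K] Ω) := by
    intro h
    rw [AddSubgroup.mem_inertia, AddSubgroup.mem_inertia]
    have hsub : ∀ y : 𝓞 Ω, y ∈ (g⁻¹ • Q).toAddSubgroup ↔ g • y ∈ Q.toAddSubgroup := by
      intro y
      change y ∈ g⁻¹ • Q ↔ g • y ∈ Q
      rw [Ideal.mem_pointwise_smul_iff_inv_smul_mem, inv_inv]
    have hact : ∀ y : 𝓞 Ω, h • y = resHom K E Ω h • y := fun y => rfl
    constructor
    · intro hh x
      have h1 := (hsub _).1 (hh (g⁻¹ • x))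
      rw [smul_sub, hact, smul_inv_smul, smul_smul, smul_smul] at h1
      exact h1
    · intro hh x
      have h1 := hh (g • x)
      rw [mul_smul, inv_smul_smul, mul_smul, ← smul_sub] at h1
      rw [hsub, hact]
      exact h1
  refine Conj.endOn_conj ρ (resHom K E Ω) _ _ g ?_ _ _ (by rw [map_inv]; group)
  intro x
  rw [Subgroup.mem_inf, MulAction.mem_stabilizer_iff]
  constructor
  · rintro ⟨h1, h2⟩
    have h3 : g⁻¹ * (x * g) ∈ (resHom K E Ω).range := by
      rw [← QuotientGroup.eq, eq_comm]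
      exact h2
    obtain ⟨h, hh⟩ := h3
    refine ⟨h, ?_, by rw [hh]; group⟩
    rw [key, hh]
    have h4 : g * (g⁻¹ * (x * g)) * g⁻¹ = x := by group
    rw [h4]
    exact h1
  · rintro ⟨h, hh, rfl⟩
    refine ⟨?_, ?_⟩
    · exact (key h).1 hh
    · change ((g * resHom K E Ω h * g⁻¹ * g : Ω ≃ₐ[K] Ω) :
        (Ω ≃ₐ[K] Ω) ⧸ (resHom K E Ω).range) = g
      rw [inv_mul_cancel_right, eq_comm, QuotientGroup.eq, inv_mul_cancel_left]
      exact ⟨h, rfl⟩

end Places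

end Pool.BK
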