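import Pool.Agent.BK.Places
import Pool.Agent.BK.Conj

/-!
The Euler polynomials of a system of representations over a number field `K` can be read off
from those over suitable totally complex quadratic extensions in which a given place splits.
-/

set_option linter.unusedSectionVars false

open scoped Pointwise NumberField
open Polynomial IsDedekindDomain

namespace Pool.BK

namespace Split

variable {K : Type} [Field K] [NumberField K] {Ω : Type} [Field Ω] [Algebra K Ω] [IsAlgClosed Ω]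
  [Algebra.IsAlgebraic K Ω]

theorem coe_smul' (g : Ω ≃ₐ[K] Ω) (x : 𝓞 Ω) : ((g • x : 𝓞 Ω) : Ω) = g (x : Ω) := rfl

/-- A root of `y² + y + n = 0` in the ring of integers. -/
theorem exists_root (Ω : Type) [Field Ω] [IsAlgClosed Ω] (n : ℕ) :
    ∃ y : 𝓞 Ω, y * (y + 1) = -(n : 𝓞 Ω) := by
  obtain ⟨y, hy⟩ := IsAlgClosed.exists_root (X ^ 2 + X + C (n : Ω)) (by
    have : (X ^ 2 + X + C (n : Ω)).natDegree = 2 := by compute_degree!
    intro h
    rw [degree_eq_natDegree (by intro h0; rw [h0] at this; simp at this), this] at h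
    exact absurd h (by norm_num))
  have h1 : y ^ 2 + y + n = 0 := by simpa [IsRoot.def] using hy
  have hint : IsIntegral ℤ y := by
    refine ⟨X ^ 2 + X + C (n : ℤ), ?_, ?_⟩
    · monicity!
    · simp only [eval₂_add, eval₂_pow, eval₂_X, eval₂_C]
      simpa using h1
  obtain ⟨Y, hY⟩ : ∃ Y : 𝓞 Ω, (Y : Ω) = y := ⟨⟨y, hint⟩, rfl⟩
  refine ⟨Y, ?_⟩
  apply NumberField.RingOfIntegers.ext
  simp only [NumberField.RingOfIntegers.coe_eq_algebraMap, map_mul, map_add, map_one, map_neg,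
    map_natCast] at hY ⊢
  rw [hY]
  linear_combination h1

/-- A field that contains a root of `y² + y + n`, `n ≥ 1`, is totally complex. -/
theorem isTotallyComplex (E : Type) [Field E] [NumberField E] (y : E) (n : ℕ) (hn : 1 ≤ n)
    (hy : y * (y + 1) = -(n : E)) : NumberField.IsTotallyComplex E := by
  refine ⟨fun w => ?_⟩
  rw [← NumberField.InfinitePlace.not_isReal_iff_isComplex]
  rintro ⟨φ, hφ, -⟩
  have h1 : starRingEnd ℂ (φ y) = φ y := by
    have := congrArg (fun f : E →+* ℂ => f y) (show NumberField.ComplexEmbedding.conjugate φ = φ from hφ)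
    simpa [NumberField.ComplexEmbedding.conjugate_coe_eq] using this
  obtain ⟨r, hr⟩ := Complex.conj_eq_iff_real.1 h1
  have h2 := congrArg φ hy
  rw [map_mul, map_add, map_one, map_neg, map_natCast, hr] at h2
  have h3 : r * (r + 1) = -(n : ℝ) := by exact_mod_cast h2
  have h4 : (1 : ℝ) ≤ n := by exact_mod_cast hn
  nlinarith [sq_nonneg (2 * r + 1)]

/-- An element of the decomposition group of `Q` fixes the root `y` when `n ∈ Q`. -/
theorem fix_root (Q : Ideal (𝓞 Ω)) (hQ : Q.IsPrime) (y : 𝓞 Ω) (n : ℕ)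
    (hy : y * (y + 1) = -(n : 𝓞 Ω)) (hn : (n : 𝓞 Ω) ∈ Q) (σ : Ω ≃ₐ[K] Ω)
    (hσ : ∀ x ∈ Q, σ • x ∈ Q) : σ • y = y := by
  have h1 : (σ • y) * (σ • y + 1) = -(n : 𝓞 Ω) := by
    have := congrArg (fun x => σ • x) hy
    simp only [smul_mul', smul_add, smul_one, smul_neg] at this
    rw [this]
    congr 1
    apply NumberField.RingOfIntegers.ext
    rw [coe_smul']
    simp
  have h2 : (σ • y - y) * (σ • y + y + 1) = 0 := by linear_combination h1 - hy
  rcases mul_eq_zero.1 h2 with h | h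
  · exact sub_eq_zero.1 h
  · exfalso
    have h3 : y * (y + 1) ∈ Q := by rw [hy]; exact neg_mem hn
    rcases hQ.mem_or_mem h3 with h4 | h4
    · have h5 := hσ y h4
      apply hQ.ne_top
      rw [Ideal.eq_top_iff_one]
      have : (1 : 𝓞 Ω) = (σ • y + y + 1) - σ • y - y := by ring
      rw [this, h]
      exact sub_mem (sub_mem (zero_mem _) h5) h4
    · have h5 := hσ _ h4
      rw [smul_add, smul_one] at h5
      apply hQ.ne_top
      rw [Ideal.eq_top_iff_one]
      have : (1 : 𝓞 Ω) = (σ • y + 1) + (y + 1) - (σ • y + y + 1) := by ring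
      rw [this, h, sub_zero]
      exact add_mem h5 h4

/-- The residue field does not grow when all its elements are fixed by the Frobenius map. -/
theorem absNorm_eq (E : Type) [Field E] [NumberField E] [Algebra K E]
    (v : HeightOneSpectrum (𝓞 K)) (w : HeightOneSpectrum (𝓞 E))
    (hw : w.asIdeal.under (𝓞 K) = v.asIdeal)
    (h : ∀ x : 𝓞 E, x ^ v.asIdeal.absNorm - x ∈ w.asIdeal) :
    w.asIdeal.absNorm = v.asIdeal.absNorm := by
  have : Finite (𝓞 K ⧸ v.asIdeal) := Ideal.finiteQuotientOfFreeOfNeBot _ v.ne_bot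
  have : Finite (𝓞 E ⧸ w.asIdeal) := Ideal.finiteQuotientOfFreeOfNeBot _ w.ne_bot
  have : w.asIdeal.IsMaximal := w.isMaximal
  have : v.asIdeal.IsMaximal := v.isMaximal
  have hcv : v.asIdeal.absNorm = Nat.card (𝓞 K ⧸ v.asIdeal) := by
    rw [Ideal.absNorm_apply, Submodule.cardQuot_apply]
  have hcw : w.asIdeal.absNorm = Nat.card (𝓞 E ⧸ w.asIdeal) := by
    rw [Ideal.absNorm_apply, Submodule.cardQuot_apply]
  have hq : 1 < v.asIdeal.absNorm := by
    rw [hcv]
    have : Nontrivial (𝓞 K ⧸ v.asIdeal) := Ideal.Quotient.nontrivial_iff.2 v.isPrime.ne_top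
    exact Finite.one_lt_card
  apply le_antisymm
  · rw [hcw]
    let _ : Field (𝓞 E ⧸ w.asIdeal) := Ideal.Quotient.field _
    let _ : Fintype (𝓞 E ⧸ w.asIdeal) := Fintype.ofFinite _
    classical
    set P : (𝓞 E ⧸ w.asIdeal)[X] := X ^ v.asIdeal.absNorm - X with hP
    have hP0 : P ≠ 0 := FiniteField.X_pow_card_sub_X_ne_zero _ hq
    have hsub : (Finset.univ : Finset (𝓞 E ⧸ w.asIdeal)) ⊆ P.roots.toFinset := by
      intro x _
      rw [Multiset.mem_toFinset, mem_roots hP0]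
      obtain ⟨y, rfl⟩ := Ideal.Quotient.mk_surjective x
      have h1 := Ideal.Quotient.eq_zero_iff_mem.2 (h y)
      rw [map_sub, map_pow] at h1
      simpa [hP, IsRoot.def] using h1
    calc Nat.card (𝓞 E ⧸ w.asIdeal) = (Finset.univ : Finset (𝓞 E ⧸ w.asIdeal)).card := by
          rw [Finset.card_univ, Nat.card_eq_fintype_card]
      _ ≤ P.roots.toFinset.card := Finset.card_le_card hsub
      _ ≤ P.roots.card := Multiset.toFinset_card_le _
      _ ≤ P.natDegree := card_roots' _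
      _ = v.asIdeal.absNorm := FiniteField.X_pow_card_sub_X_natDegree_eq _ hq
  · rw [hcw, hcv]
    refine Nat.card_le_card_of_injective
      (Ideal.quotientMap w.asIdeal (algebraMap (𝓞 K) (𝓞 E)) (I := v.asIdeal) ?_) ?_
    · rw [← hw]
    · apply Ideal.quotientMap_injective'
      rw [← hw]

/-- An automorphism that fixes `y` comes from the Galois group over `K(y)`. -/
theorem exists_lift (y : Ω) (φ : Ω ≃ₐ[K] Ω) (hφ : φ y = y) :
    ∃ ψ : Ω ≃ₐ[(IntermediateField.adjoin K {y})] Ω,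
      resHom K (IntermediateField.adjoin K {y}) Ω ψ = φ := by
  have h1 : φ ∈ (IntermediateField.adjoin K {y}).fixingSubgroup := by
    rw [IntermediateField.mem_fixingSubgroup_iff]
    have h2 : IntermediateField.adjoin K {y} ≤
        IntermediateField.fixedField (Subgroup.zpowers φ) := by
      rw [IntermediateField.adjoin_simple_le_iff, IntermediateField.mem_fixedField_iff]
      intro g hg
      have h3 : Subgroup.zpowers φ ≤ MulAction.stabilizer (Ω ≃ₐ[K] Ω) y := by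
        rw [Subgroup.zpowers_le]
        exact hφ
      exact h3 hg
    intro x hx
    exact (IntermediateField.mem_fixedField_iff _ _).1 (h2 hx) φ (Subgroup.mem_zpowers φ)
  exact ⟨IntermediateField.fixingSubgroupEquiv _ ⟨φ, h1⟩, by ext x; rfl⟩

/-- Conjugation invariance of Euler polynomials. -/
theorem eulerPoly_conj' {F : Type} [Field F] {n : ℕ}
    (ρ : (Ω ≃ₐ[K] Ω) →* Matrix (Fin n) (Fin n) F) (Q : Ideal (𝓞 Ω)) (g ψ : Ω ≃ₐ[K] Ω) :
    eulerPoly ρ (g⁻¹ • Q) ψ = eulerPoly ρ Q (g * ψ * g⁻¹) := by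
  have h := eulerPoly_conj (E := K) ρ Q g ψ
  have h1 : resHom K K Ω = MonoidHom.id _ := by
    ext σ x; rfl
  rw [h1] at h
  have h2 : MulAction.stabilizer (Ω ≃ₐ[K] Ω)
      (g : (Ω ≃ₐ[K] Ω) ⧸ (MonoidHom.id (Ω ≃ₐ[K] Ω)).range) = ⊤ := by
    rw [eq_top_iff]
    intro σ _
    rw [MulAction.mem_stabilizer_iff]
    change ((σ * g : Ω ≃ₐ[K] Ω) : (Ω ≃ₐ[K] Ω) ⧸ (MonoidHom.id (Ω ≃ₐ[K] Ω)).range) = _
    rw [QuotientGroup.eq]
    exact ⟨_, rfl⟩
  rw [h2, inf_top_eq] at h
  exact h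

/-- The Euler polynomial over `K` at a prime split from `K` to `K(y)`. -/
theorem eulerPoly_split {F : Type} [Field F] {n : ℕ}
    (ρ : (Ω ≃ₐ[K] Ω) →* Matrix (Fin n) (Fin n) F) (E : Type) [Field E] [NumberField E]
    [Algebra K E] [Algebra E Ω] [IsScalarTower K E Ω] (Q : Ideal (𝓞 Ω))
    (hI : Q.inertia (Ω ≃ₐ[K] Ω) ≤ (resHom K E Ω).range) (ψ : Ω ≃ₐ[E] Ω) :
    eulerPoly (ρ.comp (resHom K E Ω)) Q ψ = eulerPoly ρ Q (resHom K E Ω ψ) := by
  have h := eulerPoly_conj (E := E) ρ Q 1 ψ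
  rw [inv_one, one_smul, one_mul, mul_one] at h
  have h2 : Q.inertia (Ω ≃ₐ[K] Ω) ⊓ MulAction.stabilizer (Ω ≃ₐ[K] Ω)
      ((1 : Ω ≃ₐ[K] Ω) : (Ω ≃ₐ[K] Ω) ⧸ (resHom K E Ω).range) = Q.inertia (Ω ≃ₐ[K] Ω) := by
    rw [inf_eq_left]
    intro σ hσ
    rw [MulAction.mem_stabilizer_iff]
    change ((σ * 1 : Ω ≃ₐ[K] Ω) : (Ω ≃ₐ[K] Ω) ⧸ (resHom K E Ω).range) = _
    rw [QuotientGroup.eq, mul_one, mul_one]
    exact inv_mem (hI hσ)
  rw [h2] at h
  exact h

/-- The Euler polynomials at the primes above `v`. -/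
theorem exists_local (V : LSystem (Ω ≃ₐ[K] Ω))
    (h : ∀ (E : IntermediateField K Ω) [NumberField E], NumberField.IsTotallyComplex E →
      ∃ P, IsEulerFamily E Ω (V.res E) P) (v : HeightOneSpectrum (𝓞 K)) :
    ∃ R : Ideal (𝓞 Ω) → ℚ[X], ∀ (l : ℕ) [Fact l.Prime], (l : 𝓞 K) ∉ v.asIdeal →
      ∀ Q : Ideal (𝓞 Ω), Q.IsPrime → Q.under (𝓞 K) = v.asIdeal →
      ∀ φ : Ω ≃ₐ[K] Ω, (∀ x : 𝓞 Ω, φ • x - x ^ v.asIdeal.absNorm ∈ Q) →
        eulerPoly (V.rep l) Q φ = (R Q).map (algebraMap ℚ ℚ_[l]) := by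
  obtain ⟨y, hy⟩ := exists_root Ω v.asIdeal.absNorm
  have hN : 1 ≤ v.asIdeal.absNorm := by
    rw [Nat.one_le_iff_ne_zero]
    intro h0
    exact v.ne_bot (Ideal.absNorm_eq_zero_iff.1 h0)
  have hyint : IsIntegral K (y : Ω) := Algebra.IsIntegral.isIntegral _
  have hfd : FiniteDimensional K (IntermediateField.adjoin K {(y : Ω)}) :=
    IntermediateField.adjoin.finiteDimensional hyint
  have hnf : NumberField (IntermediateField.adjoin K {(y : Ω)}) :=
    NumberField.of_module_finite K _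
  have hyE : (y : Ω) ∈ IntermediateField.adjoin K {(y : Ω)} :=
    IntermediateField.mem_adjoin_simple_self K _
  have htc : NumberField.IsTotallyComplex (IntermediateField.adjoin K {(y : Ω)}) := by
    refine isTotallyComplex _ ⟨(y : Ω), hyE⟩ _ hN ?_
    apply Subtype.ext
    have h1 := congrArg (algebraMap (𝓞 Ω) Ω) hy
    rw [map_mul, map_add, map_one, map_neg, map_natCast] at h1
    push_cast
    exact h1
  obtain ⟨P', hP'⟩ := h _ htc
  classical
  refine ⟨fun Q => if hQ : ∃ w : HeightOneSpectrum (𝓞 (IntermediateField.adjoin K {(y : Ω)})),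
    Q.under _ = w.asIdeal then P' hQ.choose else 0, ?_⟩
  intro l _ hl Q hQ hQv φ hφ
  have hnQ : ((v.asIdeal.absNorm : ℕ) : 𝓞 Ω) ∈ Q := by
    have h1 : ((v.asIdeal.absNorm : ℕ) : 𝓞 K) ∈ Q.under (𝓞 K) := by
      rw [hQv]; exact Ideal.absNorm_mem _
    rw [Ideal.mem_comap, map_natCast] at h1
    exact h1
  have hstab := frob_mem_stabilizer v Q hQ hQv φ hφ
  have hφy : φ • y = y := fix_root Q hQ y _ hy hnQ φ (fun x hx =>
    (Places.stab_smul Q φ hstab x).2 hx)
  obtain ⟨ψ, hψ⟩ := exists_lift (K := K) (y : Ω) φ (by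
    have := congrArg (fun z : 𝓞 Ω => (z : Ω)) hφy
    exact this)
  have hI : Q.inertia (Ω ≃ₐ[K] Ω) ≤
      (resHom K (IntermediateField.adjoin K {(y : Ω)}) Ω).range := by
    intro j hj
    have hj' : ∀ x : 𝓞 Ω, j • x - x ∈ Q := fun x => hj x
    have hjy : j • y = y := fix_root Q hQ y _ hy hnQ j (fun x hx => by
      have := add_mem (hj' x) hx
      rwa [sub_add_cancel] at this)
    obtain ⟨ψ', hψ'⟩ := exists_lift (K := K) (y : Ω) j (by
      have := congrArg (fun z : 𝓞 Ω => (z : Ω)) hjy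
      exact this)
    exact ⟨ψ', hψ'⟩
  have hww : ∃ w : HeightOneSpectrum (𝓞 (IntermediateField.adjoin K {(y : Ω)})),
      Q.under _ = w.asIdeal := by
    refine ⟨⟨Q.under _, Ideal.IsPrime.under _ _, ?_⟩, rfl⟩
    intro hbot
    apply v.ne_bot
    rw [← hQv, ← Places.under_under (IntermediateField.adjoin K {(y : Ω)}), hbot]
    exact Ideal.under_bot _ _
  beta_reduce
  rw [dif_pos hww]
  have hw := hww.choose_spec
  set w := hww.choose with hwdef
  have hwv : w.asIdeal.under (𝓞 K) = v.asIdeal := by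
    rw [← hw, Places.under_under, hQv]
  have hnorm : w.asIdeal.absNorm = v.asIdeal.absNorm := by
    refine absNorm_eq _ v w hwv (fun x => ?_)
    rw [← hw, Ideal.mem_comap, map_sub, map_pow]
    have h1 := hφ (algebraMap _ (𝓞 Ω) x)
    have h2 : φ • (algebraMap _ (𝓞 Ω) x) = algebraMap _ (𝓞 Ω) x := by
      rw [← hψ]
      apply NumberField.RingOfIntegers.ext
      rw [coe_smul']
      exact ψ.commutes _
    rw [h2] at h1
    have h3 := neg_mem h1
    rwa [neg_sub] at h3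
  have hlw : ((l : ℕ) : 𝓞 (IntermediateField.adjoin K {(y : Ω)})) ∉ w.asIdeal := by
    intro hmem
    apply hl
    rw [← hwv, Ideal.mem_comap, map_natCast]
    exact hmem
  have hfin := hP' w l hlw Q hQ hw ψ (fun x => by
    rw [hnorm]
    have h1 := hφ x
    rw [← hψ] at h1
    exact h1)
  rw [← hfin, ← hψ]
  exact (eulerPoly_split (V.rep l) _ Q hI ψ).symm

end Split

theorem exists_euler_family (K : Type) [Field K] [NumberField K] (Ω : Type) [Field Ω]
    [Algebra K Ω] [IsAlgClosed Ω] [Algebra.IsAlgebraic K Ω] (V : LSystem (Ω ≃ₐ[K] Ω))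
    (h : ∀ (E : IntermediateField K Ω) [NumberField E], NumberField.IsTotallyComplex E →
      ∃ P, IsEulerFamily E Ω (V.res E) P) : ∃ P, IsEulerFamily K Ω V P := by
  have hloc : ∀ v : HeightOneSpectrum (𝓞 K), ∃ p : ℚ[X], ∀ (l : ℕ) [Fact l.Prime],
      (l : 𝓞 K) ∉ v.asIdeal → ∀ Q : Ideal (𝓞 Ω), Q.IsPrime → Q.under (𝓞 K) = v.asIdeal →
      ∀ φ : Ω ≃ₐ[K] Ω, (∀ x : 𝓞 Ω, φ • x - x ^ v.asIdeal.absNorm ∈ Q) →
        eulerPoly (V.rep l) Q φ = p.map (algebraMap ℚ ℚ_[l]) := by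
    intro v
    obtain ⟨R, hR⟩ := Split.exists_local V h v
    obtain ⟨Q₀, hQ₀, hv₀⟩ := exists_over (Ω := Ω) v
    obtain ⟨φ₀, hφ₀⟩ := exists_frob v Q₀ hQ₀ hv₀
    refine ⟨R Q₀, ?_⟩
    intro l _ hl Q hQ hQv φ hφ
    obtain ⟨g, hg⟩ := exists_smul_eq (K := K) Q Q₀ hQ hQ₀ (hQv.trans hv₀.symm)
    have hgQ : Q = g⁻¹ • Q₀ := by rw [← hg, inv_smul_smul]
    have hfrob : ∀ x : 𝓞 Ω, (g⁻¹ * φ₀ * g) • x - x ^ v.asIdeal.absNorm ∈ Q := by
      intro x
      rw [hgQ, Ideal.mem_pointwise_smul_iff_inv_smul_mem, inv_inv, smul_sub, mul_smul, mul_smul,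
        smul_inv_smul, smul_pow']
      exact hφ₀ _
    rw [hR l hl Q hQ hQv φ hφ, ← hR l hl Q hQ hQv _ hfrob, ← hR l hl Q₀ hQ₀ hv₀ φ₀ hφ₀, hgQ,
      Split.eulerPoly_conj']
    congr 1
    group
  choose P hP using hloc
  exact ⟨P, fun v l _ hl Q hQ hQv φ hφ => hP v l hl Q hQ hQv φ hφ⟩

end Pool.BK
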