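import Pool.Agent.Helper95.BK.Defs4
import Pool.Agent.BK.Split
import Pool.Agent.BK.Psum

/-!
Families of local Euler polynomials of the restriction of a representation to a finite extension:
existence and bounds for the degree.
-/

open scoped Pointwise NumberField
open Polynomial IsDedekindDomain

namespace Pool.BK

namespace IndFam

section Abstract

variable {G F : Type} [Group G] [Field F] {n : ℕ}

/-- `endOn` only depends on the action on the fixed vectors. -/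
theorem endOn_congr (ρ : G →* Matrix (Fin n) (Fin n) F) (I : Subgroup G) (g g' : G)
    (h : ∀ v ∈ invSub ρ I, (ρ g).mulVec v = (ρ g').mulVec v) : endOn ρ I g = endOn ρ I g' := by
  unfold endOn
  by_cases h1 : ∀ v ∈ invSub ρ I, Matrix.toLin' (ρ g) v ∈ invSub ρ I
  · have h2 : ∀ v ∈ invSub ρ I, Matrix.toLin' (ρ g') v ∈ invSub ρ I := by
      intro v hv
      rw [Matrix.toLin'_apply, ← h v hv]
      exact h1 v hv
    rw [dif_pos h1, dif_pos h2]
    ext1 v
    apply Subtype.ext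
    change Matrix.toLin' (ρ g) (v : Fin n → F) = Matrix.toLin' (ρ g') (v : Fin n → F)
    rw [Matrix.toLin'_apply, Matrix.toLin'_apply]
    exact h v v.2
  · have h2 : ¬ ∀ v ∈ invSub ρ I, Matrix.toLin' (ρ g') v ∈ invSub ρ I := by
      intro h3
      apply h1
      intro v hv
      rw [Matrix.toLin'_apply, h v hv]
      exact h3 v hv
    rw [dif_neg h1, dif_neg h2]

theorem natDegree_le (ρ : G →* Matrix (Fin n) (Fin n) F) (I : Subgroup G) (g : G) :
    (endOn ρ I g).charpoly.reverse.natDegree ≤ n := by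
  refine (reverse_natDegree_le _).trans ?_
  rw [LinearMap.charpoly_natDegree]
  refine (Submodule.finrank_le _).trans ?_
  rw [Module.finrank_fin_fun]

end Abstract

variable {K : Type} [Field K] [NumberField K] {Ω : Type} [Field Ω] [Algebra K Ω] [IsAlgClosed Ω]
  [Algebra.IsAlgebraic K Ω]

/-- The Euler polynomial at a place does not depend on the choices. -/
theorem eulerPoly_indep {F : Type} [Field F] {n : ℕ}
    (ρ : (Ω ≃ₐ[K] Ω) →* Matrix (Fin n) (Fin n) F) (v : HeightOneSpectrum (𝓞 K))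
    (Q Q' : Ideal (𝓞 Ω)) (hQ : Q.IsPrime) (hQ' : Q'.IsPrime)
    (hv : Q.under (𝓞 K) = v.asIdeal) (hv' : Q'.under (𝓞 K) = v.asIdeal) (φ φ' : Ω ≃ₐ[K] Ω)
    (hφ : ∀ x : 𝓞 Ω, φ • x - x ^ v.asIdeal.absNorm ∈ Q)
    (hφ' : ∀ x : 𝓞 Ω, φ' • x - x ^ v.asIdeal.absNorm ∈ Q') :
    eulerPoly ρ Q φ = eulerPoly ρ Q' φ' := by
  obtain ⟨g, hg⟩ := exists_smul_eq (K := K) Q Q' hQ hQ' (hv.trans hv'.symm)
  have hgQ : Q = g⁻¹ • Q' := by rw [← hg, inv_smul_smul]
  have hfrob : ∀ x : 𝓞 Ω, (g * φ * g⁻¹) • x - x ^ v.asIdeal.absNorm ∈ Q' := by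
    intro x
    have h1 := hφ (g⁻¹ • x)
    rw [hgQ, Ideal.mem_pointwise_smul_iff_inv_smul_mem, inv_inv, smul_sub, smul_pow',
      smul_inv_smul] at h1
    rwa [mul_smul, mul_smul]
  rw [hgQ, Split.eulerPoly_conj']
  unfold eulerPoly
  rw [endOn_congr ρ _ (g * φ * g⁻¹)⁻¹ φ'⁻¹]
  intro w hw
  have hj : g * φ * g⁻¹ * φ'⁻¹ ∈ Q'.inertia (Ω ≃ₐ[K] Ω) := by
    intro x
    change (g * φ * g⁻¹ * φ'⁻¹) • x - x ∈ Q'
    have h1 := hfrob (φ'⁻¹ • x)
    have h2 := hφ' (φ'⁻¹ • x)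
    rw [smul_inv_smul] at h2
    have h3 := sub_mem h1 h2
    rw [sub_sub_sub_cancel_right] at h3
    rwa [mul_smul]
  have h4 := hw _ (inv_mem hj)
  have h5 : (g * φ * g⁻¹)⁻¹ = φ'⁻¹ * (g * φ * g⁻¹ * φ'⁻¹)⁻¹ := by group
  rw [h5, Conj.mul_mulVec, h4]

end IndFam

section Main

variable (K : Type) [Field K] [NumberField K] (Ω : Type) [Field Ω] [Algebra K Ω] [IsAlgClosed Ω]
  [Algebra.IsAlgebraic K Ω]

theorem exists_localFamily {F : Type} [Field F] {n : ℕ}
    (ρ : (Ω ≃ₐ[K] Ω) →* Matrix (Fin n) (Fin n) F) (L : IntermediateField K Ω) [NumberField L]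
    (v : HeightOneSpectrum (𝓞 K)) :
    ∃ R : HeightOneSpectrum (𝓞 L) → F[X], IsLocalFamily L ρ v R := by
  have : Algebra.IsAlgebraic L Ω := Algebra.IsAlgebraic.tower_top (K := K) L
  have h1 : ∀ w : HeightOneSpectrum (𝓞 L), ∃ p : F[X],
      ∀ Q : Ideal (𝓞 Ω), Q.IsPrime → Q.under (𝓞 L) = w.asIdeal →
      ∀ φ : Ω ≃ₐ[L] Ω, (∀ x : 𝓞 Ω, φ • x - x ^ w.asIdeal.absNorm ∈ Q) →
        eulerPoly (ρ.comp (resHom K L Ω)) Q φ = p := by
    intro w
    obtain ⟨Q₀, hQ₀, hw₀⟩ := exists_over (Ω := Ω) w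
    obtain ⟨φ₀, hφ₀⟩ := exists_frob w Q₀ hQ₀ hw₀
    exact ⟨eulerPoly (ρ.comp (resHom K L Ω)) Q₀ φ₀, fun Q hQ hw φ hφ =>
      IndFam.eulerPoly_indep _ w Q Q₀ hQ hQ₀ hw hw₀ φ φ₀ hφ hφ₀⟩
  choose R hR using h1
  exact ⟨R, fun w _ Q hQ hw φ hφ => hR w Q hQ hw φ hφ⟩

theorem localProd_degree (V : LSystem (Ω ≃ₐ[K] Ω)) (L : IntermediateField K Ω) [NumberField L] :
    ∃ d : ℕ, ∀ (v : HeightOneSpectrum (𝓞 K)), ∃ l : ℕ, ∃ _ : Fact l.Prime,
      (l : 𝓞 K) ∉ v.asIdeal ∧ ∃ R : HeightOneSpectrum (𝓞 L) → ℚ_[l][X],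
        IsLocalFamily L (V.rep l) v R ∧ (localProd K L v R).natDegree ≤ d ∧
          (localProd K L v R).coeff 0 = 1 := by
  have : Algebra.IsAlgebraic L Ω := Algebra.IsAlgebraic.tower_top (K := K) L
  refine ⟨Module.finrank (𝓞 K) (𝓞 L) * max (V.dim 2) (V.dim 3), fun v => ?_⟩
  have h2 : Fact (Nat.Prime 2) := ⟨Nat.prime_two⟩
  have h3 : Fact (Nat.Prime 3) := ⟨Nat.prime_three⟩
  have hl : ∃ l : ℕ, ∃ _ : Fact l.Prime, (l : 𝓞 K) ∉ v.asIdeal ∧
      V.dim l ≤ max (V.dim 2) (V.dim 3) := by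
    by_cases h : ((2 : ℕ) : 𝓞 K) ∈ v.asIdeal
    · refine ⟨3, h3, fun h' => ?_, le_max_right _ _⟩
      apply v.isPrime.ne_top
      rw [Ideal.eq_top_iff_one]
      have h4 := sub_mem h' h
      have h5 : ((3 : ℕ) : 𝓞 K) - ((2 : ℕ) : 𝓞 K) = 1 := by
        push_cast
        norm_num
      rwa [h5] at h4
    · exact ⟨2, h2, h, le_max_left _ _⟩
  obtain ⟨l, hlp, hlv, hdim⟩ := hl
  obtain ⟨R, hR⟩ := exists_localFamily K Ω (V.rep l) L v
  refine ⟨l, hlp, hlv, R, hR, ?_⟩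
  -- every member of the family
  have hw : ∀ w : PlacesOver K L v, (R w.1).natDegree ≤ max (V.dim 2) (V.dim 3) ∧
      (R w.1).coeff 0 = 1 := by
    intro w
    obtain ⟨Q₀, hQ₀, hw₀⟩ := exists_over (Ω := Ω) w.1
    obtain ⟨φ₀, hφ₀⟩ := exists_frob w.1 Q₀ hQ₀ hw₀
    rw [← hR w.1 w.2 Q₀ hQ₀ hw₀ φ₀ hφ₀]
    exact ⟨(IndFam.natDegree_le _ _ _).trans hdim, coeff_zero_reverse_charpoly _⟩
  have hfin := finite_placesOver (K := K) L v
  let _ : Fintype (PlacesOver K L v) := Fintype.ofFinite _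
  have hmax : v.asIdeal.IsMaximal := v.isMaximal
  have hvp : v.asIdeal.IsPrime := v.isPrime
  unfold localProd
  rw [finprod_eq_prod_of_fintype]
  constructor
  · refine (natDegree_prod_le _ _).trans ?_
    -- the sum of the residue degrees
    have hsum : ∑ w : PlacesOver K L v, w.1.asIdeal.inertiaDeg (𝓞 K) ≤
        Module.finrank (𝓞 K) (𝓞 L) := by
      have hf2 := IsDedekindDomain.primesOver_finite v.asIdeal (𝓞 L)
      let _ : Fintype (v.asIdeal.primesOver (𝓞 L)) := hf2.fintype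
      rw [← Ideal.sum_ramification_inertia_eq_finrank v.asIdeal (𝓞 L)]
      let e : PlacesOver K L v → v.asIdeal.primesOver (𝓞 L) := fun w =>
        ⟨w.1.asIdeal, ⟨w.1.isPrime, ⟨w.2.symm⟩⟩⟩
      have he : Function.Injective e := by
        intro w w' h
        have h1 : w.1.asIdeal = w'.1.asIdeal := congrArg Subtype.val h
        exact Subtype.ext (HeightOneSpectrum.ext h1)
      calc ∑ w : PlacesOver K L v, w.1.asIdeal.inertiaDeg (𝓞 K) =
            ∑ w : PlacesOver K L v, (e w).1.inertiaDeg (𝓞 K) := rfl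
        _ = ∑ q ∈ Finset.univ.image e, q.1.inertiaDeg (𝓞 K) := by
            classical
            rw [Finset.sum_image (fun a _ b _ h => he h)]
        _ ≤ ∑ q : v.asIdeal.primesOver (𝓞 L), q.1.inertiaDeg (𝓞 K) :=
            Finset.sum_le_sum_of_subset (Finset.subset_univ _)
        _ ≤ _ := Finset.sum_le_sum fun q _ => by
            have hq : q.1.IsPrime := q.2.1
            have := q.1.ramificationIdx_pos (𝓞 K)
            exact Nat.le_mul_of_pos_left _ this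
    calc ∑ w : PlacesOver K L v,
          (expand ℚ_[l] (w.1.asIdeal.inertiaDeg (𝓞 K)) (R w.1)).natDegree
        ≤ ∑ w : PlacesOver K L v, w.1.asIdeal.inertiaDeg (𝓞 K) *
            max (V.dim 2) (V.dim 3) := by
          refine Finset.sum_le_sum fun w _ => ?_
          rw [natDegree_expand, mul_comm]
          exact Nat.mul_le_mul_left _ (hw w).1
      _ = (∑ w : PlacesOver K L v, w.1.asIdeal.inertiaDeg (𝓞 K)) *
            max (V.dim 2) (V.dim 3) := by rw [Finset.sum_mul]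
      _ ≤ _ := Nat.mul_le_mul_right _ hsum
  · rw [← constantCoeff_apply, map_prod]
    refine Finset.prod_eq_one fun w _ => ?_
    rw [constantCoeff_apply, coeff_zero_eq_eval_zero, expand_eval]
    have hpos : 0 < w.1.asIdeal.inertiaDeg (𝓞 K) := by
      have := w.1.isPrime
      exact Ideal.inertiaDeg_pos _ _
    rw [zero_pow hpos.ne', ← coeff_zero_eq_eval_zero]
    exact (hw w).2

end Main

end Pool.BK
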