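import Pool.Agent.BK.Frob

/-!
The places of `E` above a place of `K` and double cosets.
-/

set_option linter.unusedSectionVars false
set_option linter.unusedVariables false

open scoped Pointwise NumberField
open Polynomial IsDedekindDomain

namespace Pool.BK

variable {K : Type} [Field K] [NumberField K] {Ω : Type} [Field Ω] [Algebra K Ω] [IsAlgClosed Ω]
  [Algebra.IsAlgebraic K Ω]

variable (E : Type) [Field E] [NumberField E] [Algebra K E] [Algebra E Ω] [IsScalarTower K E Ω]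

namespace Places

theorem algInt (K Ω E : Type) [Field K] [Field Ω] [Algebra K Ω] [Algebra.IsAlgebraic K Ω]
    [Field E] [Algebra K E] [Algebra E Ω] [IsScalarTower K E Ω] : Algebra.IsAlgebraic E Ω :=
  Algebra.IsAlgebraic.tower_top (K := K) E

theorem res_smul (h : Ω ≃ₐ[E] Ω) (P : Ideal (𝓞 Ω)) : resHom K E Ω h • P = h • P := by
  ext y
  rw [Ideal.mem_pointwise_smul_iff_inv_smul_mem, Ideal.mem_pointwise_smul_iff_inv_smul_mem,
    ← map_inv]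
  rfl

theorem under_under (Q : Ideal (𝓞 Ω)) : (Q.under (𝓞 E)).under (𝓞 K) = Q.under (𝓞 K) := by
  ext x
  rw [Ideal.mem_comap, Ideal.mem_comap, Ideal.mem_comap]
  have h1 : algebraMap (𝓞 E) (𝓞 Ω) (algebraMap (𝓞 K) (𝓞 E) x) = algebraMap (𝓞 K) (𝓞 Ω) x := by
    apply Subtype.ext
    exact (IsScalarTower.algebraMap_apply K E Ω (x : K)).symm
  rw [h1]

theorem stab_smul (Q : Ideal (𝓞 Ω)) (d : Ω ≃ₐ[K] Ω)
    (hd : d ∈ MulAction.stabilizer (Ω ≃ₐ[K] Ω) Q) (x : 𝓞 Ω) : d • x ∈ Q ↔ x ∈ Q := by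
  have h1 : d • Q = Q := hd
  constructor
  · intro h
    rw [← h1] at h
    exact Ideal.smul_mem_pointwise_smul_iff.1 h
  · intro h
    rw [← h1]
    exact Ideal.smul_mem_pointwise_smul_iff.2 h

theorem pow_act (v : HeightOneSpectrum (𝓞 K)) (Q : Ideal (𝓞 Ω)) (hQ : Q.IsPrime)
    (hv : Q.under (𝓞 K) = v.asIdeal) (φ : Ω ≃ₐ[K] Ω)
    (hφ : ∀ x : 𝓞 Ω, φ • x - x ^ v.asIdeal.absNorm ∈ Q) (m : ℕ) (x : 𝓞 Ω) :
    φ ^ m • x - x ^ (v.asIdeal.absNorm ^ m) ∈ Q := by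
  induction m with
  | zero => simp
  | succ m ih =>
    have h1 : φ ^ (m + 1) • x = φ • (φ ^ m • x) := by rw [pow_succ', mul_smul]
    have h2 : φ • (φ ^ m • x) - (φ ^ m • x) ^ v.asIdeal.absNorm ∈ Q := hφ _
    have h3 : (φ ^ m • x) ^ v.asIdeal.absNorm -
        (x ^ (v.asIdeal.absNorm ^ m)) ^ v.asIdeal.absNorm ∈ Q := by
      have := sub_dvd_pow_sub_pow (φ ^ m • x) (x ^ (v.asIdeal.absNorm ^ m)) v.asIdeal.absNorm
      exact Ideal.mem_of_dvd _ this ih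
    have h4 := add_mem h2 h3
    rw [sub_add_sub_cancel, ← pow_mul, ← pow_succ] at h4
    rw [h1]
    exact h4

end Places

open Places

theorem place_orbits (v : HeightOneSpectrum (𝓞 K)) (Q : Ideal (𝓞 Ω)) (hQ : Q.IsPrime)
    (hv : Q.under (𝓞 K) = v.asIdeal) :
    ∃ g : PlacesOver K E v → (Ω ≃ₐ[K] Ω),
      (∀ w, ((g w)⁻¹ • Q).under (𝓞 E) = w.1.asIdeal) ∧
      ∀ x : (Ω ≃ₐ[K] Ω) ⧸ (resHom K E Ω).range, ∃! w,
        ∃ d ∈ MulAction.stabilizer (Ω ≃ₐ[K] Ω) Q,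
          d • ((g w : (Ω ≃ₐ[K] Ω)) : (Ω ≃ₐ[K] Ω) ⧸ (resHom K E Ω).range) = x := by
  have halg : Algebra.IsAlgebraic E Ω := algInt K Ω E
  have hprime : ∀ g : Ω ≃ₐ[K] Ω, (g • Q).IsPrime := fun g => Ideal.IsPrime.smul g
  have h1 : ∀ w : PlacesOver K E v, ∃ g : Ω ≃ₐ[K] Ω, (g⁻¹ • Q).under (𝓞 E) = w.1.asIdeal := by
    intro w
    obtain ⟨Q', hQ', hw⟩ := exists_over (Ω := Ω) w.1
    have h2 : Q'.under (𝓞 K) = v.asIdeal := by
      rw [← under_under E Q', hw]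
      exact w.2
    obtain ⟨g, hg⟩ := exists_smul_eq (K := K) Q' Q hQ' hQ (h2.trans hv.symm)
    refine ⟨g, ?_⟩
    rw [← hg, inv_smul_smul]
    exact hw
  choose g hg using h1
  refine ⟨g, hg, ?_⟩
  intro x
  obtain ⟨g', rfl⟩ := QuotientGroup.mk_surjective x
  have hv' : ((g'⁻¹ • Q).under (𝓞 E)).under (𝓞 K) = v.asIdeal := by
    rw [under_under E, under_smul, hv]
  have hp := hprime g'⁻¹
  let w : PlacesOver K E v := ⟨⟨(g'⁻¹ • Q).under (𝓞 E), Ideal.IsPrime.under (𝓞 E) _, by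
    intro hbot
    apply v.ne_bot
    rw [← hv', hbot]
    exact Ideal.under_bot _ _⟩, hv'⟩
  refine ⟨w, ?_, ?_⟩
  · have h3 : ((g w)⁻¹ • Q).under (𝓞 E) = (g'⁻¹ • Q).under (𝓞 E) := hg w
    obtain ⟨h, hh⟩ := exists_smul_eq (K := E) ((g w)⁻¹ • Q) (g'⁻¹ • Q) (hprime _) (hprime _) h3
    refine ⟨g' * resHom K E Ω h * (g w)⁻¹, ?_, ?_⟩
    · rw [MulAction.mem_stabilizer_iff, mul_smul, mul_smul, res_smul, hh, smul_inv_smul]
    · change ((g' * resHom K E Ω h * (g w)⁻¹ * g w : Ω ≃ₐ[K] Ω) :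
        (Ω ≃ₐ[K] Ω) ⧸ (resHom K E Ω).range) = _
      rw [inv_mul_cancel_right, QuotientGroup.eq]
      rw [mul_inv_rev, inv_mul_cancel_right, ← map_inv]
      exact ⟨h⁻¹, rfl⟩
  · rintro w' ⟨d, hd, h4⟩
    have h5 : ((d * g w' : Ω ≃ₐ[K] Ω) : (Ω ≃ₐ[K] Ω) ⧸ (resHom K E Ω).range) = g' := h4
    rw [QuotientGroup.eq] at h5
    obtain ⟨h, hh⟩ := h5
    -- (d g_w')⁻¹ g' = h
    have h6 : (g w')⁻¹ • Q = h • (g'⁻¹ • Q) := by
      rw [← res_smul (K := K) E h, hh, mul_inv_rev, mul_smul, mul_smul, smul_inv_smul]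
      congr 1
      have h7 : d • Q = Q := hd
      rw [eq_inv_smul_iff]
      exact h7
    apply Subtype.ext
    apply HeightOneSpectrum.ext
    rw [← hg w', h6, under_smul]

theorem finite_placesOver (v : HeightOneSpectrum (𝓞 K)) : Finite (PlacesOver K E v) := by
  have h1 : v.asIdeal.IsMaximal := v.isMaximal
  have h2 := IsDedekindDomain.primesOver_finite v.asIdeal (𝓞 E)
  refine Set.Finite.of_injOn (s := (Set.univ : Set (PlacesOver K E v))) (f := fun w => w.1.asIdeal)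
    (t := v.asIdeal.primesOver (𝓞 E)) ?_ ?_ h2 |> Set.finite_univ_iff.1
  · intro w _
    exact ⟨w.1.isPrime, ⟨w.2.symm⟩⟩
  · intro w _ w' _ h
    exact Subtype.ext (HeightOneSpectrum.ext h)

/-- the residue degree divides `m` as soon as some `φ^m j` fixes the coset -/
theorem inertiaDeg_dvd (v : HeightOneSpectrum (𝓞 K)) (Q : Ideal (𝓞 Ω)) (hQ : Q.IsPrime)
    (hv : Q.under (𝓞 K) = v.asIdeal) (φ : Ω ≃ₐ[K] Ω)
    (hφ : ∀ x : 𝓞 Ω, φ • x - x ^ v.asIdeal.absNorm ∈ Q) (w : PlacesOver K E v)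
    (g : Ω ≃ₐ[K] Ω) (hg : (g⁻¹ • Q).under (𝓞 E) = w.1.asIdeal) (m : ℕ) (j : Ω ≃ₐ[K] Ω)
    (hj : j ∈ Q.inertia (Ω ≃ₐ[K] Ω))
    (h : (φ ^ m * j) • (g : (Ω ≃ₐ[K] Ω) ⧸ (resHom K E Ω).range) = g) :
    w.1.asIdeal.inertiaDeg (𝓞 K) ∣ m := by
  have h1 : ((φ ^ m * j * g : Ω ≃ₐ[K] Ω) : (Ω ≃ₐ[K] Ω) ⧸ (resHom K E Ω).range) = g := h
  rw [QuotientGroup.eq] at h1
  obtain ⟨e, he⟩ := h1
  have he' : g * resHom K E Ω e⁻¹ = φ ^ m * j * g := by
    rw [map_inv, he, mul_inv_rev, inv_inv, mul_inv_cancel_left]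
  set q := v.asIdeal.absNorm with hq
  set f := w.1.asIdeal.inertiaDeg (𝓞 K) with hf
  have hLO : w.1.asIdeal.LiesOver v.asIdeal := ⟨w.2.symm⟩
  have hNw : q ^ f = w.1.asIdeal.absNorm := Ideal.absNorm_pow_inertiaDeg v.asIdeal w.1.asIdeal
  -- every element of the residue field is fixed by the q^m power
  have key : ∀ x : 𝓞 E, x - x ^ (q ^ m) ∈ w.1.asIdeal := by
    intro x
    rw [← hg, Ideal.mem_comap, map_sub, map_pow, Ideal.mem_inv_pointwise_smul_iff, smul_sub,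
      smul_pow']
    set y : 𝓞 Ω := algebraMap (𝓞 E) (𝓞 Ω) x with hy
    have h2 : (φ ^ m * j) • (g • y) = g • y := by
      rw [← mul_smul, ← he', mul_smul]
      congr 1
      change e⁻¹ • y = y
      apply Subtype.ext
      change e⁻¹ (algebraMap E Ω (x : E)) = algebraMap E Ω (x : E)
      exact AlgEquiv.commutes _ _
    have h3 : φ ^ m • (j • (g • y)) - (j • (g • y)) ^ (q ^ m) ∈ Q := pow_act v Q hQ hv φ hφ m _
    have h4 : (j • (g • y)) ^ (q ^ m) - (g • y) ^ (q ^ m) ∈ Q :=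
      Ideal.mem_of_dvd _ (sub_dvd_pow_sub_pow _ _ _) (hj (g • y))
    have h5 := add_mem h3 h4
    rw [sub_add_sub_cancel, ← mul_smul, h2] at h5
    exact h5
  -- finite field argument
  have hmax : w.1.asIdeal.IsMaximal := w.1.isMaximal
  let _ : Field (𝓞 E ⧸ w.1.asIdeal) := Ideal.Quotient.field _
  have hfin : Finite (𝓞 E ⧸ w.1.asIdeal) := Ideal.finiteQuotientOfFreeOfNeBot _ w.1.ne_bot
  have hcard : Nat.card (𝓞 E ⧸ w.1.asIdeal) = q ^ f := by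
    rw [hNw, Ideal.absNorm_apply, Submodule.cardQuot_apply]
  have key2 : ∀ a : 𝓞 E ⧸ w.1.asIdeal, a ^ (q ^ m) = a := by
    intro a
    obtain ⟨x, rfl⟩ := Ideal.Quotient.mk_surjective a
    rw [← map_pow, eq_comm, ← sub_eq_zero, ← map_sub, Ideal.Quotient.eq_zero_iff_mem]
    exact key x
  have hq1 : 1 < q := by
    have h6 : q ≠ 0 := by
      rw [hq]
      exact fun h0 => v.ne_bot (Ideal.absNorm_eq_zero_iff.1 h0)
    have h7 : q ≠ 1 := by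
      rw [hq]
      exact fun h0 => v.isPrime.ne_top (Ideal.absNorm_eq_one_iff.1 h0)
    omega
  obtain ⟨a, ha⟩ := IsCyclic.exists_generator (α := (𝓞 E ⧸ w.1.asIdeal)ˣ)
  have horder : orderOf a = q ^ f - 1 := by
    rw [orderOf_eq_card_of_forall_mem_zpowers ha, Nat.card_units, hcard]
  have hapow : a ^ (q ^ m - 1) = 1 := by
    have h8 : (a : 𝓞 E ⧸ w.1.asIdeal) ^ (q ^ m) = a := key2 a
    have h9 : a ^ (q ^ m) = a := Units.ext (by rw [Units.val_pow_eq_pow_val]; exact h8)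
    have h10 : a ^ (q ^ m - 1) * a = a := by
      rw [← pow_succ, Nat.sub_add_cancel (Nat.one_le_pow _ _ (by omega))]
      exact h9
    exact mul_eq_right.1 h10
  have hdvd : q ^ f - 1 ∣ q ^ m - 1 := by
    rw [← horder]
    exact orderOf_dvd_of_pow_eq_one hapow
  have hgcd := Nat.pow_sub_one_gcd_pow_sub_one q f m
  rw [Nat.gcd_eq_left hdvd] at hgcd
  have h11 : q ^ f = q ^ Nat.gcd f m := by
    have h12 : 1 ≤ q ^ f := Nat.one_le_pow _ _ (by omega)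
    have h13 : 1 ≤ q ^ Nat.gcd f m := Nat.one_le_pow _ _ (by omega)
    omega
  have h14 : f = Nat.gcd f m := Nat.pow_right_injective hq1 h11
  rw [h14]
  exact Nat.gcd_dvd_right f m

/-- the Frobenius elements of `E` conjugated to the place `Q` -/
theorem frob_conj (v : HeightOneSpectrum (𝓞 K)) (Q : Ideal (𝓞 Ω)) (hQ : Q.IsPrime)
    (hv : Q.under (𝓞 K) = v.asIdeal) (φ : Ω ≃ₐ[K] Ω)
    (hφ : ∀ x : 𝓞 Ω, φ • x - x ^ v.asIdeal.absNorm ∈ Q) (w : PlacesOver K E v)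
    (g : Ω ≃ₐ[K] Ω) (hg : (g⁻¹ • Q).under (𝓞 E) = w.1.asIdeal) (ψ : Ω ≃ₐ[E] Ω)
    (hψ : ∀ x : 𝓞 Ω, ψ • x - x ^ w.1.asIdeal.absNorm ∈ g⁻¹ • Q) :
    (g * resHom K E Ω ψ * g⁻¹) • (g : (Ω ≃ₐ[K] Ω) ⧸ (resHom K E Ω).range) = g ∧
    ∃ j ∈ Q.inertia (Ω ≃ₐ[K] Ω),
      g * resHom K E Ω ψ * g⁻¹ = φ ^ (w.1.asIdeal.inertiaDeg (𝓞 K)) * j := by
  constructor
  · change ((g * resHom K E Ω ψ * g⁻¹ * g : Ω ≃ₐ[K] Ω) :
        (Ω ≃ₐ[K] Ω) ⧸ (resHom K E Ω).range) = _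
    rw [inv_mul_cancel_right, QuotientGroup.eq, mul_inv_rev, inv_mul_cancel_right, ← map_inv]
    exact ⟨ψ⁻¹, rfl⟩
  · have hLO : w.1.asIdeal.LiesOver v.asIdeal := ⟨w.2.symm⟩
    have hNw : v.asIdeal.absNorm ^ w.1.asIdeal.inertiaDeg (𝓞 K) = w.1.asIdeal.absNorm :=
      Ideal.absNorm_pow_inertiaDeg v.asIdeal w.1.asIdeal
    set f := w.1.asIdeal.inertiaDeg (𝓞 K) with hf
    refine ⟨(φ ^ f)⁻¹ * (g * resHom K E Ω ψ * g⁻¹), ?_, by rw [mul_inv_cancel_left]⟩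
    have hst : φ ^ f ∈ MulAction.stabilizer (Ω ≃ₐ[K] Ω) Q :=
      pow_mem (frob_mem_stabilizer v Q hQ hv φ hφ) f
    intro y
    change ((φ ^ f)⁻¹ * (g * resHom K E Ω ψ * g⁻¹)) • y - y ∈ Q
    rw [← stab_smul Q (φ ^ f) hst, smul_sub, ← mul_smul, mul_inv_cancel_left]
    have h1 : φ ^ f • y - y ^ (v.asIdeal.absNorm ^ f) ∈ Q := pow_act v Q hQ hv φ hφ f y
    have h2 : (g * resHom K E Ω ψ * g⁻¹) • y - y ^ (v.asIdeal.absNorm ^ f) ∈ Q := by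
      have h3 := hψ (g⁻¹ • y)
      rw [Ideal.mem_inv_pointwise_smul_iff, smul_sub, smul_pow', smul_inv_smul, ← hNw] at h3
      rw [mul_smul, mul_smul]
      exact h3
    have h4 := sub_mem h2 h1
    rwa [sub_sub_sub_cancel_right] at h4

end Pool.BK
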