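import Pool.Agent.Helper95.BK.Defs2

set_option autoImplicit false

open scoped Pointwise NumberField
open Polynomial IsDedekindDomain

namespace Pool.BK

namespace Trace

section EndOn

variable {G F : Type} [Group G] [Field F] {n : ℕ} (ρ : G →* Matrix (Fin n) (Fin n) F)

theorem toLin_mul (a b : G) (v : Fin n → F) :
    Matrix.toLin' (ρ (a * b)) v = Matrix.toLin' (ρ a) (Matrix.toLin' (ρ b) v) := by
  rw [map_mul, Matrix.toLin'_mul]; rfl

theorem mem_invSub {A : Subgroup G} {v : Fin n → F} :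
    v ∈ invSub ρ A ↔ ∀ a ∈ A, Matrix.toLin' (ρ a) v = v := by
  simp only [Matrix.toLin'_apply]
  rfl

/-- `h` maps the vectors fixed by `A` to themselves. -/
theorem maps_invSub {A : Subgroup G} {h : G} (hh : ∀ a ∈ A, h⁻¹ * a * h ∈ A) :
    ∀ v ∈ invSub ρ A, Matrix.toLin' (ρ h) v ∈ invSub ρ A := by
  intro v hv
  rw [mem_invSub] at hv ⊢
  intro a ha
  rw [← toLin_mul, show a * h = h * (h⁻¹ * a * h) by group, toLin_mul, hv _ (hh a ha)]

theorem endOn_coe {A : Subgroup G} {h : G} (hh : ∀ a ∈ A, h⁻¹ * a * h ∈ A) (v : invSub ρ A) :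
    ((endOn ρ A h v : invSub ρ A) : Fin n → F) = Matrix.toLin' (ρ h) v := by
  rw [endOn, dif_pos (maps_invSub ρ hh)]
  rfl

theorem endOn_mul {A : Subgroup G} {h h' : G} (hh : ∀ a ∈ A, h⁻¹ * a * h ∈ A)
    (hh' : ∀ a ∈ A, h'⁻¹ * a * h' ∈ A) : endOn ρ A (h * h') = endOn ρ A h * endOn ρ A h' := by
  have h3 : ∀ a ∈ A, (h * h')⁻¹ * a * (h * h') ∈ A := fun a ha => by
    have := hh' _ (hh a ha)
    simpa [mul_assoc] using this
  apply LinearMap.ext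
  intro v
  apply Subtype.ext
  rw [endOn_coe ρ h3, toLin_mul, Module.End.mul_apply, endOn_coe ρ hh, endOn_coe ρ hh']

theorem endOn_of_mem {A : Subgroup G} {a : G} (ha : a ∈ A) : endOn ρ A a = 1 := by
  have hh : ∀ b ∈ A, a⁻¹ * b * a ∈ A := fun b hb =>
    A.mul_mem (A.mul_mem (A.inv_mem ha) hb) ha
  apply LinearMap.ext
  intro v
  apply Subtype.ext
  rw [endOn_coe ρ hh]
  exact (mem_invSub ρ).1 v.2 a ha

theorem conj_pow {A : Subgroup G} {h : G} (hh : ∀ a ∈ A, h⁻¹ * a * h ∈ A) (k : ℕ) :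
    ∀ a ∈ A, (h ^ k)⁻¹ * a * h ^ k ∈ A := by
  induction k with
  | zero => intro a ha; simpa using ha
  | succ k ih =>
    intro a ha
    have := hh _ (ih a ha)
    rw [pow_succ]
    simpa [mul_assoc] using this

theorem endOn_pow {A : Subgroup G} {h : G} (hh : ∀ a ∈ A, h⁻¹ * a * h ∈ A) (k : ℕ) :
    endOn ρ A (h ^ k) = endOn ρ A h ^ k := by
  induction k with
  | zero => rw [pow_zero, pow_zero, endOn_of_mem ρ A.one_mem]
  | succ k ih => rw [pow_succ, pow_succ, endOn_mul ρ (conj_pow hh k) hh, ih]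

/-- The trace of `h` composed with a multiple of the projector onto a smaller space of fixed
vectors. -/
theorem trace_mul_proj {A A' : Subgroup G} (hA : A' ≤ A) {h : G}
    (hh : ∀ a ∈ A, h⁻¹ * a * h ∈ A) (hh' : ∀ a ∈ A', h⁻¹ * a * h ∈ A')
    (Q : Module.End F (invSub ρ A')) (c : F)
    (hQ1 : ∀ v, (Q v : Fin n → F) ∈ invSub ρ A)
    (hQ2 : ∀ v : invSub ρ A', (v : Fin n → F) ∈ invSub ρ A → Q v = c • v) :
    LinearMap.trace F _ (endOn ρ A' h * Q) = c * LinearMap.trace F _ (endOn ρ A h) := by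
  have hle : invSub ρ A ≤ invSub ρ A' := by
    intro v hv
    rw [mem_invSub] at hv ⊢
    exact fun a ha => hv a (hA ha)
  let p : Submodule F (invSub ρ A') := (invSub ρ A).submoduleOf (invSub ρ A')
  have hmem : ∀ v : invSub ρ A', v ∈ p ↔ (v : Fin n → F) ∈ invSub ρ A := fun v => Iff.rfl
  have hf : ∀ v, (endOn ρ A' h * Q) v ∈ p := by
    intro v
    rw [hmem, Module.End.mul_apply, endOn_coe ρ hh']
    exact maps_invSub ρ hh _ (hQ1 v)
  rw [← LinearMap.trace_restrict_eq_of_forall_mem p (endOn ρ A' h * Q) hf]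
  let e : p ≃ₗ[F] invSub ρ A := Submodule.submoduleOfEquivOfLe hle
  have h2 := LinearMap.trace_conj' (R := F) (M := p) (N := invSub ρ A)
    ((endOn ρ A' h * Q).restrict (p := p) (q := p) (fun x _ => hf x)) e
  have h3 : c * LinearMap.trace F _ (endOn ρ A h) = LinearMap.trace F _ (c • endOn ρ A h) := by
    rw [map_smul, smul_eq_mul]
  rw [h3]
  refine h2.symm.trans ?_
  congr 1
  apply LinearMap.ext
  intro v
  apply Subtype.ext
  have hv : (Q ⟨(v : Fin n → F), hle v.2⟩ : invSub ρ A') = c • ⟨(v : Fin n → F), hle v.2⟩ :=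
    hQ2 ⟨(v : Fin n → F), hle v.2⟩ v.2
  have h1 : ((e.conj ((endOn ρ A' h * Q).restrict (p := p) (q := p) (fun x _ => hf x)) v :
      invSub ρ A) : Fin n → F) =
      ((endOn ρ A' h (Q ⟨(v : Fin n → F), hle v.2⟩) : invSub ρ A') : Fin n → F) := rfl
  rw [h1, hv, endOn_coe ρ hh', LinearMap.smul_apply, Submodule.coe_smul, Submodule.coe_smul,
    endOn_coe ρ hh, map_smul]

end EndOn

section Sums

variable {G M : Type} [Group G] [AddCommMonoid M]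

/-- Substitution in a sum over a quotient group. -/
theorem sum_out {I : Subgroup G} {N : Subgroup I} [Fintype (I ⧸ N)] (Ψ : I → M)
    (hΨ : ∀ i j : I, i⁻¹ * j ∈ N → Ψ i = Ψ j) (σ : I → I) (e : I ⧸ N ≃ I ⧸ N)
    (he : ∀ i : I, ((σ i : I) : I ⧸ N) = e i) :
    ∑ q : I ⧸ N, Ψ (σ q.out) = ∑ q : I ⧸ N, Ψ q.out := by
  rw [← Equiv.sum_comp e (fun q => Ψ q.out)]
  refine Finset.sum_congr rfl fun q _ => ?_
  apply hΨ
  rw [← QuotientGroup.eq, he, QuotientGroup.out_eq', QuotientGroup.out_eq']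

theorem sum_out_mul {I : Subgroup G} {N : Subgroup I} [Fintype (I ⧸ N)] (Ψ : I → M)
    (hΨ : ∀ i j : I, i⁻¹ * j ∈ N → Ψ i = Ψ j) (a : I) :
    ∑ q : I ⧸ N, Ψ (a * q.out) = ∑ q : I ⧸ N, Ψ q.out :=
  sum_out Ψ hΨ (fun i => a * i) (MulAction.toPerm a) fun _ => rfl

theorem sum_out_conj {I : Subgroup G} {N : Subgroup G} [N.Normal] [Fintype (I ⧸ N.subgroupOf I)]
    (Ψ : I → M) (hΨ : ∀ i j : I, i⁻¹ * j ∈ N.subgroupOf I → Ψ i = Ψ j) (d : G)
    (hd : ∀ i ∈ I, d * i * d⁻¹ ∈ I) (hd' : ∀ i ∈ I, d⁻¹ * i * d ∈ I) :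
    ∑ q : I ⧸ N.subgroupOf I, Ψ ⟨d * q.out * d⁻¹, hd _ q.out.2⟩ =
      ∑ q : I ⧸ N.subgroupOf I, Ψ q.out := by
  have key : ∀ i j : I, i⁻¹ * j ∈ N.subgroupOf I → ∀ x : G, ∀ hi : x * i * x⁻¹ ∈ I,
      ∀ hj : x * j * x⁻¹ ∈ I, (⟨x * i * x⁻¹, hi⟩ : I)⁻¹ * ⟨x * j * x⁻¹, hj⟩ ∈ N.subgroupOf I := by
    intro i j hij x hi hj
    rw [Subgroup.mem_subgroupOf] at hij ⊢
    have h1 : (((⟨x * i * x⁻¹, hi⟩ : I)⁻¹ * ⟨x * j * x⁻¹, hj⟩ : I) : G) =
        x * ((i⁻¹ * j : I) : G) * x⁻¹ := by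
      simp only [Subgroup.coe_mul, InvMemClass.coe_inv]
      group
    rw [h1]
    exact Subgroup.Normal.conj_mem ‹_› _ hij _
  have hd'' : ∀ i ∈ I, d⁻¹ * i * d⁻¹⁻¹ ∈ I := fun i hi => by rw [inv_inv]; exact hd' i hi
  let e : I ⧸ N.subgroupOf I ≃ I ⧸ N.subgroupOf I :=
    { toFun := Quotient.map' (fun i : I => (⟨d * i * d⁻¹, hd _ i.2⟩ : I)) (by
        intro i j hij
        rw [QuotientGroup.leftRel_apply] at hij ⊢
        exact key i j hij d _ _)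
      invFun := Quotient.map' (fun i : I => (⟨d⁻¹ * i * d⁻¹⁻¹, hd'' _ i.2⟩ : I)) (by
        intro i j hij
        rw [QuotientGroup.leftRel_apply] at hij ⊢
        exact key i j hij d⁻¹ _ _)
      left_inv := by
        intro q
        induction q using Quotient.inductionOn' with
        | h i =>
          rw [Quotient.map'_mk'', Quotient.map'_mk'']
          congr 1
          apply Subtype.ext
          simp only
          group
      right_inv := by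
        intro q
        induction q using Quotient.inductionOn' with
        | h i =>
          rw [Quotient.map'_mk'', Quotient.map'_mk'']
          congr 1
          apply Subtype.ext
          simp only
          group }
  exact sum_out Ψ hΨ (fun i => ⟨d * i * d⁻¹, hd _ i.2⟩) e fun _ => rfl

end Sums

section Formula

variable {G F : Type} [Group G] [Field F] {n : ℕ} (ρ : G →* Matrix (Fin n) (Fin n) F)
  (D I N H : Subgroup G) [N.Normal]

theorem conj_inf (_hID : I ≤ D) (hDI : ∀ d ∈ D, ∀ j ∈ I, d * j * d⁻¹ ∈ I) :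
    ∀ d ∈ D, ∀ a ∈ I ⊓ N, d⁻¹ * a * d ∈ I ⊓ N := by
  intro d hd a ha
  refine ⟨?_, ?_⟩
  · have := hDI d⁻¹ (D.inv_mem hd) a ha.1
    rwa [inv_inv] at this
  · have := Subgroup.Normal.conj_mem ‹N.Normal› a ha.2 d⁻¹
    rwa [inv_inv] at this

variable {H N} in
theorem smul_eq_of_mem (hN : N ≤ H) {y : G} (hy : y ∈ N) (x : G ⧸ H) : y • x = x := by
  induction x using Quotient.inductionOn' with
  | h g =>
    change ((y * g : G) : G ⧸ H) = (g : G ⧸ H)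
    rw [QuotientGroup.eq]
    have h1 : (y * g)⁻¹ * g = g⁻¹ * y⁻¹ * g⁻¹⁻¹ := by group
    rw [h1]
    exact hN (Subgroup.Normal.conj_mem ‹N.Normal› _ (N.inv_mem hy) _)

open Classical in
/-- The trace of `h` if `h` fixes `x`. -/
noncomputable def Psi (x : G ⧸ H) (h : G) : F :=
  if h • x = x then LinearMap.trace F _ (endOn ρ (I ⊓ N) h) else 0

/-- The sum of the traces over a coset. -/
noncomputable def SS [Fintype (I ⧸ N.subgroupOf I)] (g : G) (x : G ⧸ H) : F :=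
  ∑ q : I ⧸ N.subgroupOf I, Psi ρ I N H x (g * (q.out : G))

open Classical in
/-- The number of classes of elements of `I` fixing `x`. -/
noncomputable def cc [Fintype (I ⧸ N.subgroupOf I)] (x : G ⧸ H) : ℕ :=
  (Finset.univ.filter fun q : I ⧸ N.subgroupOf I => (q.out : G) • x = x).card

variable {D I N H}

theorem Psi_mul (hID : I ≤ D) (hDI : ∀ d ∈ D, ∀ j ∈ I, d * j * d⁻¹ ∈ I) (hN : N ≤ H)
    (x : G ⧸ H) {h : G} (hh : h ∈ D) {y : G} (hy : y ∈ I ⊓ N) :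
    Psi ρ I N H x (h * y) = Psi ρ I N H x h := by
  unfold Psi
  rw [mul_smul, smul_eq_of_mem hN hy.2,
    endOn_mul ρ (conj_inf D I N hID hDI h hh) (conj_inf D I N hID hDI y (hID hy.1)),
    endOn_of_mem ρ hy, mul_one]

theorem Psi_smul (hID : I ≤ D) (hDI : ∀ d ∈ D, ∀ j ∈ I, d * j * d⁻¹ ∈ I)
    (x : G ⧸ H) {h d : G} (hh : h ∈ D) (hd : d ∈ D) :
    Psi ρ I N H (d • x) h = Psi ρ I N H x (d⁻¹ * h * d) := by
  have hc := conj_inf D I N hID hDI
  have hd' := D.inv_mem hd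
  unfold Psi
  have h1 : h • d • x = d • x ↔ (d⁻¹ * h * d) • x = x := by
    rw [mul_smul, mul_smul, inv_smul_eq_iff]
  have h2 : LinearMap.trace F _ (endOn ρ (I ⊓ N) (d⁻¹ * h * d)) =
      LinearMap.trace F _ (endOn ρ (I ⊓ N) h) := by
    rw [endOn_mul ρ (hc _ (D.mul_mem hd' hh)) (hc _ hd), endOn_mul ρ (hc _ hd') (hc _ hh),
      LinearMap.trace_mul_comm, ← mul_assoc, ← endOn_mul ρ (hc _ hd) (hc _ hd'), mul_inv_cancel,
      endOn_of_mem ρ (Subgroup.one_mem _), one_mul]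
  rw [h2]
  by_cases h3 : h • d • x = d • x
  · rw [if_pos h3, if_pos (h1.1 h3)]
  · rw [if_neg h3, if_neg (fun h4 => h3 (h1.2 h4))]

variable [Fintype (I ⧸ N.subgroupOf I)]

theorem SS_mul (hID : I ≤ D) (hDI : ∀ d ∈ D, ∀ j ∈ I, d * j * d⁻¹ ∈ I) (hN : N ≤ H)
    (x : G ⧸ H) {g : G} (hg : g ∈ D) {j : G} (hj : j ∈ I) :
    SS ρ I N H (g * j) x = SS ρ I N H g x := by
  unfold SS
  have := sum_out_mul (N := N.subgroupOf I) (fun i : I => Psi ρ I N H x (g * (i : G))) ?_ ⟨j, hj⟩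
  · rw [← this]
    refine Finset.sum_congr rfl fun q _ => ?_
    simp only [Subgroup.coe_mul, mul_assoc]
  · intro i i' hi
    rw [Subgroup.mem_subgroupOf] at hi
    have h1 : g * (i' : G) = g * i * ((i⁻¹ * i' : I) : G) := by
      simp only [Subgroup.coe_mul, InvMemClass.coe_inv]; group
    rw [h1, Psi_mul ρ hID hDI hN x (D.mul_mem hg (hID i.2)) ⟨(i⁻¹ * i').2, hi⟩]

theorem SS_smul (hID : I ≤ D) (hDI : ∀ d ∈ D, ∀ j ∈ I, d * j * d⁻¹ ∈ I) (hN : N ≤ H)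
    (x : G ⧸ H) {g d : G} (hg : g ∈ D) (hd : d ∈ D) (hgd : g⁻¹ * (d⁻¹ * g * d) ∈ I) :
    SS ρ I N H g (d • x) = SS ρ I N H g x := by
  have h1 : SS ρ I N H (d⁻¹ * g * d) x = SS ρ I N H g x := by
    have := SS_mul ρ hID hDI hN x hg hgd
    rwa [show g * (g⁻¹ * (d⁻¹ * g * d)) = d⁻¹ * g * d by group] at this
  rw [← h1]
  have hd' := D.inv_mem hd
  have hgd' : d⁻¹ * g * d ∈ D := D.mul_mem (D.mul_mem hd' hg) hd
  have h2 : ∀ i ∈ I, d⁻¹ * i * d⁻¹⁻¹ ∈ I := fun i hi => hDI _ hd' i hi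
  have h3 : ∀ i ∈ I, d⁻¹⁻¹ * i * d⁻¹ ∈ I := fun i hi => by rw [inv_inv]; exact hDI _ hd i hi
  unfold SS
  have := sum_out_conj (I := I) (N := N)
    (fun i : I => Psi ρ I N H x (d⁻¹ * g * d * (i : G))) ?_ d⁻¹ h2 h3
  · rw [← this]
    refine Finset.sum_congr rfl fun q _ => ?_
    rw [Psi_smul ρ hID hDI x (D.mul_mem hg (hID q.out.2)) hd]
    congr 1
    group
  · intro i i' hi
    rw [Subgroup.mem_subgroupOf] at hi
    have h1 : d⁻¹ * g * d * (i' : G) = d⁻¹ * g * d * i * ((i⁻¹ * i' : I) : G) := by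
      simp only [Subgroup.coe_mul, InvMemClass.coe_inv]; group
    rw [h1, Psi_mul ρ hID hDI hN x (D.mul_mem hgd' (hID i.2)) ⟨(i⁻¹ * i').2, hi⟩]

theorem SS_eq (hID : I ≤ D) (hDI : ∀ d ∈ D, ∀ j ∈ I, d * j * d⁻¹ ∈ I) (hN : N ≤ H)
    (x : G ⧸ H) {g : G} (hg : g ∈ D) (hgx : g • x = x) :
    SS ρ I N H g x = (cc I N H x : F) *
      LinearMap.trace F _ (endOn ρ (I ⊓ MulAction.stabilizer G x) g) := by
  classical
  have hc := conj_inf D I N hID hDI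
  have hA : I ⊓ N ≤ I ⊓ MulAction.stabilizer G x := fun y hy =>
    ⟨hy.1, smul_eq_of_mem hN hy.2 x⟩
  have hgA : ∀ a ∈ I ⊓ MulAction.stabilizer G x, g⁻¹ * a * g ∈ I ⊓ MulAction.stabilizer G x := by
    intro a ha
    refine ⟨?_, ?_⟩
    · have := hDI g⁻¹ (D.inv_mem hg) a ha.1
      rwa [inv_inv] at this
    · have h1 : a • x = x := ha.2
      show (g⁻¹ * a * g) • x = x
      rw [mul_smul, mul_smul, hgx, h1, inv_smul_eq_iff, hgx]
  let Q : Module.End F (invSub ρ (I ⊓ N)) := ∑ q : I ⧸ N.subgroupOf I,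
    if (q.out : G) • x = x then endOn ρ (I ⊓ N) (q.out : G) else 0
  have h1 : SS ρ I N H g x = LinearMap.trace F _ (endOn ρ (I ⊓ N) g * Q) := by
    rw [SS, Finset.mul_sum, map_sum]
    refine Finset.sum_congr rfl fun q _ => ?_
    unfold Psi
    have h2 : (g * (q.out : G)) • x = x ↔ (q.out : G) • x = x := by
      rw [mul_smul, smul_eq_iff_eq_inv_smul, show g⁻¹ • x = x from inv_smul_eq_iff.2 hgx.symm]
    by_cases h3 : (q.out : G) • x = x
    · rw [if_pos h3, if_pos (h2.2 h3), endOn_mul ρ (hc g hg) (hc _ (hID q.out.2))]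
    · rw [if_neg h3, if_neg (fun h4 => h3 (h2.1 h4)), mul_zero, map_zero]
  rw [h1]
  apply trace_mul_proj ρ hA hgA (hc g hg)
  · -- the image is fixed
    intro v
    rw [mem_invSub]
    intro a ha
    have h2 : endOn ρ (I ⊓ N) a * Q = Q := by
      have := sum_out_mul (N := N.subgroupOf I)
        (fun i : I => if (i : G) • x = x then endOn ρ (I ⊓ N) (i : G) else 0) ?_ ⟨a, ha.1⟩
      · refine Eq.trans ?_ this
        simp only [Q]
        rw [Finset.mul_sum]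
        refine Finset.sum_congr rfl fun q _ => ?_
        have h2 : (((⟨a, ha.1⟩ : I) * q.out : I) : G) = a * (q.out : G) := rfl
        rw [h2]
        have h3 : (a * (q.out : G)) • x = x ↔ (q.out : G) • x = x := by
          have hax : a • x = x := ha.2
          rw [mul_smul, smul_eq_iff_eq_inv_smul, show a⁻¹ • x = x from
            inv_smul_eq_iff.2 hax.symm]
        by_cases h4 : (q.out : G) • x = x
        · rw [if_pos h4, if_pos (h3.2 h4), endOn_mul ρ (hc a (hID ha.1)) (hc _ (hID q.out.2))]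
        · rw [if_neg h4, if_neg (fun h5 => h4 (h3.1 h5)), mul_zero]
      · intro i i' hi
        rw [Subgroup.mem_subgroupOf] at hi
        have h1 : (i' : G) = i * ((i⁻¹ * i' : I) : G) := by
          simp only [Subgroup.coe_mul, InvMemClass.coe_inv]; group
        have h2 : ((i⁻¹ * i' : I) : G) ∈ I ⊓ N := ⟨(i⁻¹ * i').2, hi⟩
        rw [h1, mul_smul, smul_eq_of_mem hN hi,
          endOn_mul ρ (hc _ (hID i.2)) (hc _ (hID h2.1)), endOn_of_mem ρ h2, mul_one]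
    rw [← endOn_coe ρ (hc a (hID ha.1)), ← Module.End.mul_apply, h2]
  · intro v hv
    rw [mem_invSub] at hv
    simp only [Q]
    rw [LinearMap.sum_apply, cc, Finset.card_filter, Nat.cast_sum, Finset.sum_smul]
    refine Finset.sum_congr rfl fun q _ => ?_
    by_cases h4 : (q.out : G) • x = x
    · rw [if_pos h4, if_pos h4, Nat.cast_one, one_smul]
      apply Subtype.ext
      rw [endOn_coe ρ (hc _ (hID q.out.2))]
      exact hv _ ⟨q.out.2, h4⟩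
    · rw [if_neg h4, if_neg h4, Nat.cast_zero, zero_smul]
      rfl

omit [N.Normal] in
theorem SS_eq_zero (x : G ⧸ H) {g : G} (h : ∀ j ∈ I, (g * j) • x ≠ x) :
    SS ρ I N H g x = 0 :=
  Finset.sum_eq_zero fun q _ => if_neg (h _ q.out.2)

omit [N.Normal] in
theorem locTr_eq [Fintype (G ⧸ H)] (g : G) :
    locTr ρ I N g (fixCount H) =
      (Fintype.card (I ⧸ N.subgroupOf I) : F)⁻¹ * ∑ x : G ⧸ H, SS ρ I N H g x := by
  classical
  rw [locTr, Nat.card_eq_fintype_card, finsum_eq_sum_of_fintype]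
  congr 1
  unfold SS
  rw [Finset.sum_comm]
  refine Finset.sum_congr rfl fun q _ => ?_
  have h1 : (fixCount H (g * (q.out : G)) : F) =
      ∑ x : G ⧸ H, if (g * (q.out : G)) • x = x then (1 : F) else 0 := by
    rw [fixCount, Nat.card_eq_fintype_card, Finset.sum_boole]
    congr 1
    rw [Fintype.card_subtype]
    rfl
  rw [h1, Finset.mul_sum]
  refine Finset.sum_congr rfl fun x _ => ?_
  unfold Psi
  by_cases h2 : (g * (q.out : G)) • x = x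
  · rw [if_pos h2, if_pos h2, mul_one]
  · rw [if_neg h2, if_neg h2, mul_zero]

/-! ### Counting an orbit -/

section Orbit

variable {φ : G} {r₀ : G ⧸ H} {f : ℕ} {ψ : G}

omit [N.Normal] [Fintype (I ⧸ N.subgroupOf I)] in
theorem psi_pow (hDI : ∀ d ∈ D, ∀ j ∈ I, d * j * d⁻¹ ∈ I) (hφ : φ ∈ D)
    (h2 : ∃ j ∈ I, ψ = φ ^ f * j) (q : ℕ) : ∃ j ∈ I, ψ ^ q = φ ^ (f * q) * j := by
  obtain ⟨j₁, hj₁, hψ⟩ := h2
  induction q with
  | zero => exact ⟨1, I.one_mem, by simp⟩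
  | succ q ih =>
    obtain ⟨j, hj, h⟩ := ih
    refine ⟨(φ ^ f)⁻¹ * j * (φ ^ f)⁻¹⁻¹ * j₁, I.mul_mem (hDI _ (D.inv_mem (D.pow_mem hφ _)) _ hj) hj₁,
      ?_⟩
    rw [pow_succ, h, hψ, Nat.mul_succ, pow_add]
    group

omit [Fintype (I ⧸ N.subgroupOf I)] in
theorem orbit_repr (hDI : ∀ d ∈ D, ∀ j ∈ I, d * j * d⁻¹ ∈ I) (hN : N ≤ H) (hφ : φ ∈ D)
    (hgen : ∀ d ∈ D, ∃ m : ℕ, ∃ j ∈ I, ∃ x ∈ N, d = φ ^ m * j * x) (hf : 0 < f)
    (h1 : ψ • r₀ = r₀) (h2 : ∃ j ∈ I, ψ = φ ^ f * j) {d : G} (hd : d ∈ D) :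
    ∃ i < f, ∃ j ∈ I, d • r₀ = (φ ^ i * j) • r₀ := by
  obtain ⟨m, j', hj', x', hx', rfl⟩ := hgen d hd
  obtain ⟨j₂, hj₂, h3⟩ := psi_pow hDI hφ h2 (m / f)
  have h4 : ∀ q : ℕ, (ψ ^ q) • r₀ = r₀ := by
    intro q
    induction q with
    | zero => simp
    | succ q ih => rw [pow_succ, mul_smul, h1, ih]
  have h5 : (ψ ^ (m / f))⁻¹ • r₀ = r₀ := inv_smul_eq_iff.2 (h4 _).symm
  refine ⟨m % f, Nat.mod_lt _ hf, φ ^ (f * (m / f)) * (j' * j₂⁻¹) * (φ ^ (f * (m / f)))⁻¹,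
    hDI _ (D.pow_mem hφ _) _ (I.mul_mem hj' (I.inv_mem hj₂)), ?_⟩
  rw [mul_smul, smul_eq_of_mem hN hx']
  conv_lhs => rw [← h5, ← mul_smul, h3]
  congr 1
  have h6 : φ ^ m = φ ^ (m % f) * φ ^ (f * (m / f)) := by
    rw [← pow_add, Nat.mod_add_div]
  rw [h6]
  group

omit [N.Normal] [Fintype (I ⧸ N.subgroupOf I)] in
theorem orbit_inj (hDI : ∀ d ∈ D, ∀ j ∈ I, d * j * d⁻¹ ∈ I) (hφ : φ ∈ D)
    (hmin : ∀ m : ℕ, ∀ j ∈ I, (φ ^ m * j) • r₀ = r₀ → f ∣ m) {i i' : ℕ} (hi : i < f) (hi' : i' < f)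
    {j j' : G} (hj : j ∈ I) (hj' : j' ∈ I) (h : (φ ^ i * j) • r₀ = (φ ^ i' * j') • r₀) :
    i = i' := by
  have key : ∀ {i i' : ℕ} {j j' : G}, i < f → i' < f → j ∈ I → j' ∈ I →
      (φ ^ i * j) • r₀ = (φ ^ i' * j') • r₀ → i ≤ i' → i = i' := by
    intro i i' j j' hi hi' hj hj' h hle
    obtain ⟨m, rfl⟩ := Nat.exists_eq_add_of_le hle
    have h1 : (φ ^ m * ((φ ^ m)⁻¹ * j⁻¹ * (φ ^ m)⁻¹⁻¹ * j')) • r₀ = r₀ := by
      have h2 : φ ^ m * ((φ ^ m)⁻¹ * j⁻¹ * (φ ^ m)⁻¹⁻¹ * j') =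
          (φ ^ i * j)⁻¹ * (φ ^ (i + m) * j') := by
        rw [pow_add]; group
      rw [h2, mul_smul, ← h, inv_smul_smul]
    have h3 := hmin m _ (I.mul_mem (hDI _ (D.inv_mem (D.pow_mem hφ _)) _ (I.inv_mem hj)) hj') h1
    have h4 : m = 0 := Nat.eq_zero_of_dvd_of_lt h3 (by omega)
    omega
  rcases le_total i i' with h5 | h5
  · exact key hi hi' hj hj' h h5
  · exact (key hi' hi hj' hj h.symm h5).symm

open Classical in
theorem orbit_card [Fintype (G ⧸ H)] (hID : I ≤ D) (hDI : ∀ d ∈ D, ∀ j ∈ I, d * j * d⁻¹ ∈ I)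
    (hN : N ≤ H) (hφ : φ ∈ D)
    (hgen : ∀ d ∈ D, ∃ m : ℕ, ∃ j ∈ I, ∃ x ∈ N, d = φ ^ m * j * x) (hf : 0 < f)
    (h1 : ψ • r₀ = r₀) (h2 : ∃ j ∈ I, ψ = φ ^ f * j)
    (hmin : ∀ m : ℕ, ∀ j ∈ I, (φ ^ m * j) • r₀ = r₀ → f ∣ m) :
    (Finset.univ.filter fun x : G ⧸ H => ∃ d ∈ D, d • r₀ = x).card * cc I N H r₀ =
      f * Fintype.card (I ⧸ N.subgroupOf I) := by
  set t := Finset.univ.filter fun x : G ⧸ H => ∃ d ∈ D, d • r₀ = x with ht
  let Θ : Fin f × (I ⧸ N.subgroupOf I) → G ⧸ H := fun a => (φ ^ (a.1 : ℕ) * (a.2.out : G)) • r₀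
  have hmaps : ((Finset.univ : Finset (Fin f × (I ⧸ N.subgroupOf I))) : Set _).MapsTo Θ t := by
    intro a _
    rw [ht, Finset.coe_filter]
    exact ⟨Finset.mem_univ _, _, D.mul_mem (D.pow_mem hφ _) (hID a.2.out.2), rfl⟩
  have h3 := Finset.card_eq_sum_card_fiberwise hmaps
  rw [Finset.card_univ, Fintype.card_prod, Fintype.card_fin] at h3
  rw [h3]
  rw [Finset.sum_const_nat (m := cc I N H r₀)]
  intro b hb
  rw [ht, Finset.mem_filter] at hb
  obtain ⟨-, d, hd, rfl⟩ := hb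
  obtain ⟨i₀, hi₀, j₀, hj₀, h4⟩ := orbit_repr hDI hN hφ hgen hf h1 h2 hd
  rw [h4, Finset.card_filter, Fintype.sum_prod_type]
  rw [Finset.sum_eq_single (⟨i₀, hi₀⟩ : Fin f)]
  · rw [cc, Finset.card_filter]
    have h5 := sum_out_mul (N := N.subgroupOf I)
      (fun i : I => if (i : G) • r₀ = j₀ • r₀ then (1 : ℕ) else 0) ?_ ⟨j₀, hj₀⟩
    · have h6 : ∀ q : I ⧸ N.subgroupOf I, ((((⟨j₀, hj₀⟩ : I) * q.out : I) : G) • r₀ = j₀ • r₀ ↔
          (q.out : G) • r₀ = r₀) := by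
        intro q
        have h7 : (((⟨j₀, hj₀⟩ : I) * q.out : I) : G) = j₀ * (q.out : G) := rfl
        rw [h7, mul_smul]
        exact (MulAction.injective j₀).eq_iff
      have h8 : ∀ q : I ⧸ N.subgroupOf I, (Θ (⟨i₀, hi₀⟩, q) = (φ ^ i₀ * j₀) • r₀ ↔
          (q.out : G) • r₀ = j₀ • r₀) := by
        intro q
        simp only [Θ, mul_smul]
        exact (MulAction.injective _).eq_iff
      simp only [h8]
      rw [← h5]
      simp only [h6]
    · intro i i' hi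
      rw [Subgroup.mem_subgroupOf] at hi
      have h1 : (i' : G) = i * ((i⁻¹ * i' : I) : G) := by
        simp only [Subgroup.coe_mul, InvMemClass.coe_inv]; group
      rw [h1, mul_smul, smul_eq_of_mem hN hi]
  · intro i _ hi
    refine Finset.sum_eq_zero fun q _ => if_neg fun h5 => hi ?_
    apply Fin.ext
    exact orbit_inj hDI hφ hmin i.2 hi₀ q.out.2 hj₀ h5
  · intro h; exact absurd (Finset.mem_univ _) h

end Orbit

end Formula

end Trace

open Trace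

theorem trace_formula {G F : Type} [Group G] [Field F] [CharZero F] {n : ℕ}
    (ρ : G →* Matrix (Fin n) (Fin n) F) (D I N : Subgroup G) [N.Normal] [N.FiniteIndex]
    (hID : I ≤ D) (hDI : ∀ d ∈ D, ∀ j ∈ I, d * j * d⁻¹ ∈ I) (φ : G) (hφ : φ ∈ D)
    (hgen : ∀ d ∈ D, ∃ m : ℕ, ∃ j ∈ I, ∃ x ∈ N, d = φ ^ m * j * x) (H : Subgroup G) (hN : N ≤ H)
    {W : Type} [Fintype W] (r : W → G ⧸ H) (hr : ∀ x : G ⧸ H, ∃! w, ∃ d ∈ D, d • r w = x)
    (f : W → ℕ) (hf : ∀ w, 0 < f w) (ψ : W → G) (h1 : ∀ w, ψ w • r w = r w)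
    (h2 : ∀ w, ∃ j ∈ I, ψ w = φ ^ f w * j)
    (hmin : ∀ w (m : ℕ), ∀ j ∈ I, (φ ^ m * j) • r w = r w → f w ∣ m) {k : ℕ} (hk : 0 < k) :
    ∑ w, (if f w ∣ k then (f w : F) *
      LinearMap.trace F _ ((endOn ρ (I ⊓ MulAction.stabilizer G (r w)) (ψ w)⁻¹) ^ (k / f w))
      else 0) = locTr ρ I N (φ ^ k)⁻¹ (fixCount H) := by
  classical
  have hJ : (N.subgroupOf I).FiniteIndex := inferInstance
  have : Fintype (I ⧸ N.subgroupOf I) := Fintype.ofFinite _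
  have : H.FiniteIndex := Subgroup.finiteIndex_of_le hN
  have : Fintype (G ⧸ H) := Fintype.ofFinite _
  have hJ0 : (Fintype.card (I ⧸ N.subgroupOf I) : F) ≠ 0 :=
    Nat.cast_ne_zero.2 Fintype.card_ne_zero
  set g := (φ ^ k)⁻¹ with hg
  have hgD : g ∈ D := D.inv_mem (D.pow_mem hφ _)
  rw [locTr_eq, eq_inv_mul_iff_mul_eq₀ hJ0]
  choose ω hω1 hω2 using hr
  -- the function is constant on the orbits
  have hconst : ∀ x, SS ρ I N H g x = SS ρ I N H g (r (ω x)) := by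
    intro x
    obtain ⟨d, hd, hdx⟩ := hω1 x
    obtain ⟨i, -, j, hj, h4⟩ := orbit_repr hDI hN hφ hgen (hf (ω x)) (h1 _) (h2 _) hd
    have h5 : x = (φ ^ i * j) • r (ω x) := by rw [← h4, hdx]
    have hd' : φ ^ i * j ∈ D := D.mul_mem (D.pow_mem hφ _) (hID hj)
    conv_lhs => rw [h5]
    apply SS_smul ρ hID hDI hN _ hgD hd'
    have h6 : g⁻¹ * ((φ ^ i * j)⁻¹ * g * (φ ^ i * j)) = φ ^ k * j⁻¹ * (φ ^ k)⁻¹ * j := by
      rw [hg]
      have h7 : (φ ^ i)⁻¹ * (φ ^ k)⁻¹ * φ ^ i = (φ ^ k)⁻¹ := by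
        rw [← mul_inv_rev, pow_mul_comm, mul_inv_rev, mul_assoc, inv_mul_cancel, mul_one]
      calc (φ ^ k)⁻¹⁻¹ * ((φ ^ i * j)⁻¹ * (φ ^ k)⁻¹ * (φ ^ i * j))
          = φ ^ k * j⁻¹ * ((φ ^ i)⁻¹ * (φ ^ k)⁻¹ * φ ^ i) * j := by group
        _ = φ ^ k * j⁻¹ * (φ ^ k)⁻¹ * j := by rw [h7]
    rw [h6]
    exact I.mul_mem (hDI _ (D.pow_mem hφ _) _ (I.inv_mem hj)) hj
  have hsum : ∑ x : G ⧸ H, SS ρ I N H g x =
      ∑ w, ∑ x ∈ Finset.univ.filter (fun x => ω x = w), SS ρ I N H g x :=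
    (Finset.sum_fiberwise _ _ _).symm
  rw [hsum, Finset.mul_sum]
  refine Finset.sum_congr rfl fun w _ => ?_
  have hfil : (Finset.univ.filter fun x : G ⧸ H => ω x = w) =
      Finset.univ.filter fun x : G ⧸ H => ∃ d ∈ D, d • r w = x := by
    ext x
    simp only [Finset.mem_filter, Finset.mem_univ, true_and]
    constructor
    · rintro rfl
      exact hω1 x
    · intro h
      exact (hω2 x w h).symm
  have hcard := orbit_card hID hDI hN hφ hgen (hf w) (h1 w) (h2 w) (hmin w)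
  have h3 : ∑ x ∈ Finset.univ.filter (fun x => ω x = w), SS ρ I N H g x =
      ((Finset.univ.filter fun x : G ⧸ H => ∃ d ∈ D, d • r w = x).card : F) *
        SS ρ I N H g (r w) := by
    rw [← hfil, ← nsmul_eq_mul, ← Finset.sum_const]
    refine Finset.sum_congr rfl fun x hx => ?_
    rw [hconst x, (Finset.mem_filter.1 hx).2]
  rw [h3]
  by_cases hdiv : f w ∣ k
  · rw [if_pos hdiv]
    obtain ⟨q, hq⟩ := hdiv
    obtain ⟨j, hj, hψq⟩ := psi_pow hDI hφ (h2 w) q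
    rw [← hq] at hψq
    have h4 : (ψ w ^ q)⁻¹ = g * (φ ^ k * j⁻¹ * (φ ^ k)⁻¹) := by
      rw [hψq, hg]; group
    have hj' : φ ^ k * j⁻¹ * (φ ^ k)⁻¹ ∈ I := hDI _ (D.pow_mem hφ _) _ (I.inv_mem hj)
    have h5 : ∀ q : ℕ, (ψ w ^ q) • r w = r w := by
      intro q
      induction q with
      | zero => simp
      | succ q ih => rw [pow_succ, mul_smul, h1, ih]
    have h6 : (ψ w ^ q)⁻¹ • r w = r w := inv_smul_eq_iff.2 (h5 _).symm
    have hψD : ψ w ∈ D := by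
      obtain ⟨j, hj, h⟩ := h2 w
      rw [h]
      exact D.mul_mem (D.pow_mem hφ _) (hID hj)
    have h7 : SS ρ I N H g (r w) = SS ρ I N H (ψ w ^ q)⁻¹ (r w) := by
      rw [h4, SS_mul ρ hID hDI hN _ hgD hj']
    rw [h7, SS_eq ρ hID hDI hN _ (D.inv_mem (D.pow_mem hψD _)) h6]
    have h8 : k / f w = q := by rw [hq, Nat.mul_div_cancel_left _ (hf w)]
    have h9 : ∀ a ∈ I ⊓ MulAction.stabilizer G (r w),
        (ψ w)⁻¹⁻¹ * a * (ψ w)⁻¹ ∈ I ⊓ MulAction.stabilizer G (r w) := by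
      intro a ha
      rw [inv_inv]
      refine ⟨hDI _ hψD a ha.1, ?_⟩
      have h10 : a • r w = r w := ha.2
      have h11 : (ψ w)⁻¹ • r w = r w := inv_smul_eq_iff.2 (h1 w).symm
      show (ψ w * a * (ψ w)⁻¹) • r w = r w
      rw [mul_smul, mul_smul, h11, h10, h1]
    rw [h8, ← endOn_pow ρ h9, inv_pow]
    have hcard' : ((Finset.univ.filter fun x : G ⧸ H => ∃ d ∈ D, d • r w = x).card : F) *
        (cc I N H (r w) : F) = (f w : F) * (Fintype.card (I ⧸ N.subgroupOf I) : F) := by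
      exact_mod_cast hcard
    linear_combination (-(LinearMap.trace F _
      (endOn ρ (I ⊓ MulAction.stabilizer G (r w)) (ψ w ^ q)⁻¹))) * hcard'
  · rw [if_neg hdiv, SS_eq_zero]
    · simp
    · intro j hj h4
      apply hdiv
      apply hmin w k ((φ ^ k)⁻¹ * j⁻¹ * (φ ^ k)⁻¹⁻¹) (hDI _ hgD _ (I.inv_mem hj))
      have h5 : φ ^ k * ((φ ^ k)⁻¹ * j⁻¹ * (φ ^ k)⁻¹⁻¹) = (g * j)⁻¹ := by
        rw [hg]; group
      rw [h5]
      exact inv_smul_eq_iff.2 h4.symm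

theorem trace_formula_top {G F : Type} [Group G] [Field F] [CharZero F] {n : ℕ}
    (ρ : G →* Matrix (Fin n) (Fin n) F) (D I N : Subgroup G) [N.Normal] [N.FiniteIndex]
    (hID : I ≤ D) (hDI : ∀ d ∈ D, ∀ j ∈ I, d * j * d⁻¹ ∈ I) (φ : G) (hφ : φ ∈ D)
    (k : ℕ) :
    LinearMap.trace F _ ((endOn ρ I φ⁻¹) ^ k) = locTr ρ I N (φ ^ k)⁻¹ (fun _ => 1) := by
  classical
  have hJ : (N.subgroupOf I).FiniteIndex := inferInstance
  have : Fintype (I ⧸ N.subgroupOf I) := Fintype.ofFinite _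
  have : Fintype (G ⧸ (⊤ : Subgroup G)) := Fintype.ofFinite _
  have hJ0 : (Fintype.card (I ⧸ N.subgroupOf I) : F) ≠ 0 :=
    Nat.cast_ne_zero.2 Fintype.card_ne_zero
  have hsub : ∀ x y : G ⧸ (⊤ : Subgroup G), x = y := by
    intro x y
    induction x using Quotient.inductionOn' with
    | h a =>
      induction y using Quotient.inductionOn' with
      | h b => exact QuotientGroup.eq.2 (Subgroup.mem_top _)
  set g := (φ ^ k)⁻¹ with hg
  have hgD : g ∈ D := D.inv_mem (D.pow_mem hφ _)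
  have h1 : ((fun _ => 1) : G → ℕ) = fixCount (⊤ : Subgroup G) := by
    funext y
    have h2 : MulAction.fixedBy (G ⧸ (⊤ : Subgroup G)) y = Set.univ :=
      Set.eq_univ_of_forall fun x => hsub _ _
    rw [fixCount, h2, Nat.card_univ, Nat.card_eq_one_iff_unique.2 ⟨⟨hsub⟩, ⟨((1 : G) : G ⧸ _)⟩⟩]
  rw [h1, locTr_eq, eq_inv_mul_iff_mul_eq₀ hJ0]
  have h2 : ∑ x : G ⧸ (⊤ : Subgroup G), SS ρ I N ⊤ g x =
      SS ρ I N ⊤ g ((1 : G) : G ⧸ (⊤ : Subgroup G)) :=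
    Finset.sum_eq_single_of_mem _ (Finset.mem_univ _) fun x _ hx => absurd (hsub _ _) hx
  rw [h2, SS_eq ρ hID hDI le_top _ hgD (hsub _ _)]
  have h3 : MulAction.stabilizer G ((1 : G) : G ⧸ (⊤ : Subgroup G)) = ⊤ :=
    eq_top_iff.2 fun y _ => hsub _ _
  have h4 : I ⊓ MulAction.stabilizer G ((1 : G) : G ⧸ (⊤ : Subgroup G)) = I := by
    rw [h3, inf_top_eq]
  have h5 : cc I N ⊤ ((1 : G) : G ⧸ (⊤ : Subgroup G)) = Fintype.card (I ⧸ N.subgroupOf I) := by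
    rw [cc, Finset.filter_true_of_mem fun _ _ => hsub _ _, Finset.card_univ]
  rw [h4, h5]
  have h9 : ∀ a ∈ I, φ⁻¹⁻¹ * a * φ⁻¹ ∈ I := fun a ha => by
    rw [inv_inv]; exact hDI _ hφ a ha
  rw [← endOn_pow ρ h9, inv_pow]

end Pool.BK
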