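import Pool.Agent.BK.Psum
import Pool.Agent.BK.Trace
import Pool.Agent.BK.Frob
import Pool.Agent.BK.Places
import Pool.Agent.BK.Conj

/-!
Traces of Frobenius elements of the fields above `K`, and the relations between Euler factors.
-/

open scoped Pointwise NumberField
open Polynomial IsDedekindDomain

namespace Pool.BK

section Places

variable {K : Type} [Field K] [NumberField K] {Ω : Type} [Field Ω] [Algebra K Ω] [IsAlgClosed Ω]
  [Algebra.IsAlgebraic K Ω]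

variable (E : Type) [Field E] [NumberField E] [Algebra K E] [Algebra E Ω] [IsScalarTower K E Ω]

namespace LocalTrace

theorem psum_one {F : Type} [Field F] (k : ℕ) : psum (1 : F[X]) k = 0 := by
  simp [psum]

theorem psum_prod {F ι : Type} [Field F] (s : Finset ι) (P : ι → F[X])
    (h : ∀ i ∈ s, (P i).coeff 0 = 1) (k : ℕ) :
    (∏ i ∈ s, P i).coeff 0 = 1 ∧ psum (∏ i ∈ s, P i) k = ∑ i ∈ s, psum (P i) k := by
  classical
  induction s using Finset.induction_on with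
  | empty => simp [psum_one]
  | insert j s hj ih =>
    obtain ⟨ih1, ih2⟩ := ih (fun i hi => h i (Finset.mem_insert_of_mem hi))
    have hj1 := h j (Finset.mem_insert_self j s)
    rw [Finset.prod_insert hj, Finset.sum_insert hj]
    refine ⟨?_, ?_⟩
    · rw [mul_coeff_zero, hj1, ih1, one_mul]
    · rw [psum_mul hj1 ih1, ih2]

theorem psum_pow {F : Type} [Field F] (P : F[X]) (h : P.coeff 0 = 1) (n k : ℕ) :
    (P ^ n).coeff 0 = 1 ∧ psum (P ^ n) k = n * psum P k := by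
  induction n with
  | zero => simp [psum_one]
  | succ n ih =>
    obtain ⟨ih1, ih2⟩ := ih
    rw [pow_succ]
    refine ⟨?_, ?_⟩
    · rw [mul_coeff_zero, ih1, h, one_mul]
    · rw [psum_mul ih1 h, ih2]; push_cast; ring

omit [NumberField K] in
theorem finiteIndex_of_open [CharZero K] (N : Subgroup (Ω ≃ₐ[K] Ω))
    (hN : IsOpen (N : Set (Ω ≃ₐ[K] Ω))) : N.FiniteIndex := by
  haveI : IsAlgClosure K Ω := ⟨inferInstance, inferInstance⟩
  haveI : IsGalois K Ω := ⟨⟩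
  haveI := N.quotient_finite_of_isOpen hN
  exact Subgroup.finiteIndex_of_finite_quotient

theorem inertia_le {G O : Type} [Group G] [CommRing O] [MulSemiringAction G O] (Q : Ideal O) :
    Q.inertia G ≤ MulAction.stabilizer G Q := by
  intro g hg
  have hg' : ∀ x : O, g • x - x ∈ Q := hg
  have hgi : ∀ x : O, g⁻¹ • x - x ∈ Q := (Subgroup.inv_mem _ hg : g⁻¹ ∈ Q.inertia G)
  rw [MulAction.mem_stabilizer_iff]
  ext x
  rw [Ideal.mem_pointwise_smul_iff_inv_smul_mem]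
  constructor
  · intro h
    have h1 := Q.sub_mem h (hgi x)
    rwa [sub_sub_cancel] at h1
  · intro h
    have h1 := Q.add_mem (hgi x) h
    rwa [sub_add_cancel] at h1

theorem conj_inertia {G O : Type} [Group G] [CommRing O] [MulSemiringAction G O] (Q : Ideal O) :
    ∀ d ∈ MulAction.stabilizer G Q, ∀ j ∈ Q.inertia G, d * j * d⁻¹ ∈ Q.inertia G := by
  intro d hd j hj
  have hj' : ∀ x : O, j • x - x ∈ Q := hj
  have hd' : d • Q = Q := MulAction.mem_stabilizer_iff.1 hd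
  change ∀ x : O, (d * j * d⁻¹) • x - x ∈ Q
  intro x
  have h1 := hj' (d⁻¹ • x)
  have h2 : d • (j • (d⁻¹ • x) - d⁻¹ • x) ∈ d • Q := Ideal.smul_mem_pointwise_smul_iff.2 h1
  rw [hd', smul_sub, smul_inv_smul] at h2
  rwa [mul_smul, mul_smul]

theorem range_resHom (E : IntermediateField K Ω) :
    (resHom K E Ω).range = E.fixingSubgroup := by
  ext g
  constructor
  · rintro ⟨h, rfl⟩
    rw [IntermediateField.mem_fixingSubgroup_iff]
    intro x hx
    exact h.commutes ⟨x, hx⟩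
  · intro hg
    refine ⟨IntermediateField.fixingSubgroupEquiv E ⟨g, hg⟩, ?_⟩
    ext x
    rfl

theorem exists_normal {ι : Type} [Fintype ι] (E : ι → IntermediateField K Ω)
    [∀ i, NumberField (E i)] :
    ∃ N : Subgroup (Ω ≃ₐ[K] Ω), N.Normal ∧ IsOpen (N : Set (Ω ≃ₐ[K] Ω)) ∧
      ∀ i, N ≤ (E i).fixingSubgroup := by
  haveI : IsAlgClosure K Ω := ⟨inferInstance, inferInstance⟩
  haveI : IsGalois K Ω := ⟨⟩
  have hfd : ∀ i, FiniteDimensional K (E i) := fun i => by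
    haveI := Module.Finite.of_restrictScalars_finite ℚ K (E i)
    exact this
  have hopen : IsOpen (⋂ i, ((E i).fixingSubgroup : Set (Ω ≃ₐ[K] Ω))) :=
    isOpen_iInter_of_finite fun i => by
      haveI := hfd i
      exact IntermediateField.fixingSubgroup_isOpen (E i)
  have hone : (1 : Ω ≃ₐ[K] Ω) ∈ (⋂ i, ((E i).fixingSubgroup : Set (Ω ≃ₐ[K] Ω))) :=
    Set.mem_iInter.2 fun i => Subgroup.one_mem _
  obtain ⟨H, hH⟩ := ProfiniteGrp.exist_openNormalSubgroup_sub_open_nhds_of_one hopen hone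
  exact ⟨H.toSubgroup, inferInstance, H.isOpen', fun i g hg => Set.mem_iInter.1 (hH hg) i⟩

theorem locTr_linear {G : Type} [Group G] {F : Type} [Field F] {n : ℕ}
    (ρ : G →* Matrix (Fin n) (Fin n) F) (I N : Subgroup G) [N.FiniteIndex] (g : G)
    {ι : Type} [Fintype ι] (χ : ι → G → ℕ) (a : ι → ℤ) (a₀ : ℕ)
    (ha : ∀ g, ∑ i, a i * (χ i g : ℤ) = a₀) :
    ∑ i, (a i : F) * locTr ρ I N g (χ i) = a₀ * locTr ρ I N g (fun _ => 1) := by
  classical
  haveI : Fintype (I ⧸ N.subgroupOf I) := Fintype.ofFinite _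
  have ha' : ∀ g, ∑ i, (a i : F) * (χ i g : F) = a₀ := fun g => by
    have := congrArg (fun z : ℤ => (z : F)) (ha g)
    push_cast at this
    exact this
  simp only [locTr, finsum_eq_sum_of_fintype]
  simp only [Finset.mul_sum]
  rw [Finset.sum_comm]
  refine Finset.sum_congr rfl fun j _ => ?_
  rw [← ha' (g * (j.out : G)), Finset.sum_mul]
  refine Finset.sum_congr rfl fun i _ => ?_
  push_cast
  ring

end LocalTrace

theorem local_trace {F : Type} [Field F] [CharZero F] {n : ℕ}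
    (ρ : (Ω ≃ₐ[K] Ω) →* Matrix (Fin n) (Fin n) F) (v : HeightOneSpectrum (𝓞 K))
    (Q : Ideal (𝓞 Ω)) (hQ : Q.IsPrime) (hv : Q.under (𝓞 K) = v.asIdeal) (φ : Ω ≃ₐ[K] Ω)
    (hφ : ∀ x : 𝓞 Ω, φ • x - x ^ v.asIdeal.absNorm ∈ Q) (N : Subgroup (Ω ≃ₐ[K] Ω)) [N.Normal]
    (hN : IsOpen (N : Set (Ω ≃ₐ[K] Ω))) (hNE : N ≤ (resHom K E Ω).range)
    (P : HeightOneSpectrum (𝓞 E) → F[X]) (hP : IsLocalFamily E ρ v P) {k : ℕ} (hk : 0 < k) :
    (localProd K E v P).coeff 0 = 1 ∧ psum (localProd K E v P) k =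
      locTr ρ (Q.inertia (Ω ≃ₐ[K] Ω)) N (φ ^ k)⁻¹ (fixCount (resHom K E Ω).range) := by
  classical
  haveI := LocalTrace.finiteIndex_of_open N hN
  haveI := finite_placesOver E v
  haveI : Fintype (PlacesOver K E v) := Fintype.ofFinite _
  haveI : Algebra.IsAlgebraic E Ω := Algebra.IsAlgebraic.tower_top (K := K) E
  obtain ⟨g, hg, hr⟩ := place_orbits E v Q hQ hv
  have hprime : ∀ w, ((g w)⁻¹ • Q).IsPrime := fun w => Ideal.IsPrime.smul _
  choose ψ' hψ' using fun w : PlacesOver K E v =>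
    exists_frob (K := E) w.1 ((g w)⁻¹ • Q) (hprime w) (hg w)
  have hf : ∀ w : PlacesOver K E v, 0 < w.1.asIdeal.inertiaDeg (𝓞 K) := fun w =>
    haveI := w.1.isPrime
    Ideal.inertiaDeg_pos _ _
  have key := trace_formula ρ (MulAction.stabilizer (Ω ≃ₐ[K] Ω) Q) (Q.inertia (Ω ≃ₐ[K] Ω)) N
    (LocalTrace.inertia_le Q) (LocalTrace.conj_inertia Q) φ (frob_mem_stabilizer v Q hQ hv φ hφ)
    (decomp_gen v Q hQ hv φ hφ N hN) (resHom K E Ω).range hNE
    (fun w : PlacesOver K E v => ((g w : (Ω ≃ₐ[K] Ω)) : (Ω ≃ₐ[K] Ω) ⧸ (resHom K E Ω).range)) hr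
    (fun w => w.1.asIdeal.inertiaDeg (𝓞 K)) hf (fun w => g w * resHom K E Ω (ψ' w) * (g w)⁻¹)
    (fun w => (frob_conj E v Q hQ hv φ hφ w (g w) (hg w) (ψ' w) (hψ' w)).1)
    (fun w => (frob_conj E v Q hQ hv φ hφ w (g w) (hg w) (ψ' w) (hψ' w)).2)
    (fun w m j hj h => inertiaDeg_dvd E v Q hQ hv φ hφ w (g w) (hg w) m j hj h) hk
  rw [← key]
  have hPw : ∀ w : PlacesOver K E v, P w.1 =
      (endOn ρ (Q.inertia (Ω ≃ₐ[K] Ω) ⊓
        MulAction.stabilizer (Ω ≃ₐ[K] Ω) (g w : (Ω ≃ₐ[K] Ω) ⧸ (resHom K E Ω).range))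
        (g w * resHom K E Ω (ψ' w) * (g w)⁻¹)⁻¹).charpoly.reverse := fun w => by
    rw [← hP w.1 w.2 ((g w)⁻¹ • Q) (hprime w) (hg w) (ψ' w) (hψ' w), eulerPoly_conj]
  have hP0 : ∀ w : PlacesOver K E v, (P w.1).coeff 0 = 1 := fun w => by
    rw [hPw w]; exact coeff_zero_reverse_charpoly _
  have hE0 : ∀ w ∈ (Finset.univ : Finset (PlacesOver K E v)),
      (expand F (w.1.asIdeal.inertiaDeg (𝓞 K)) (P w.1)).coeff 0 = 1 := fun w _ => by
    rw [coeff_expand (hf w)]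
    simp [hP0 w]
  have hprod := LocalTrace.psum_prod Finset.univ
    (fun w : PlacesOver K E v => expand F (w.1.asIdeal.inertiaDeg (𝓞 K)) (P w.1)) hE0 k
  have hloc : localProd K E v P =
      ∏ w : PlacesOver K E v, expand F (w.1.asIdeal.inertiaDeg (𝓞 K)) (P w.1) := by
    rw [localProd, finprod_eq_prod_of_fintype]
  rw [hloc]
  refine ⟨hprod.1, hprod.2.trans (Finset.sum_congr rfl fun w _ => ?_)⟩
  rw [psum_expand (hP0 w) (hf w)]
  split_ifs with hd
  · rw [hPw w, psum_charpoly _ (Nat.div_pos (Nat.le_of_dvd hk hd) (hf w))]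
  · rfl

theorem local_relation {F : Type} [Field F] [CharZero F] {n : ℕ}
    (ρ : (Ω ≃ₐ[K] Ω) →* Matrix (Fin n) (Fin n) F) (v : HeightOneSpectrum (𝓞 K))
    (Q : Ideal (𝓞 Ω)) (hQ : Q.IsPrime) (hv : Q.under (𝓞 K) = v.asIdeal) (φ : Ω ≃ₐ[K] Ω)
    (hφ : ∀ x : 𝓞 Ω, φ • x - x ^ v.asIdeal.absNorm ∈ Q) {ι : Type} [Fintype ι]
    (E : ι → IntermediateField K Ω) [∀ i, NumberField (E i)] (a : ι → ℤ) (a₀ : ℕ)
    (ha : ∀ g : Ω ≃ₐ[K] Ω, ∑ i, a i * (fixCount (E i).fixingSubgroup g : ℤ) = a₀)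
    (P : ∀ i, HeightOneSpectrum (𝓞 (E i)) → F[X]) (hP : ∀ i, IsLocalFamily (E i) ρ v (P i)) :
    (eulerPoly ρ Q φ) ^ a₀ * ∏ i, (localProd K (E i) v (P i)) ^ (-(a i)).toNat =
      ∏ i, (localProd K (E i) v (P i)) ^ (a i).toNat ∧
    ∀ i, (localProd K (E i) v (P i)).coeff 0 = 1 := by
  classical
  obtain ⟨N, hNn, hNo, hNE⟩ := LocalTrace.exists_normal E
  haveI := LocalTrace.finiteIndex_of_open N hNo
  have hL : ∀ i (k : ℕ), 0 < k → (localProd K (E i) v (P i)).coeff 0 = 1 ∧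
      psum (localProd K (E i) v (P i)) k =
        locTr ρ (Q.inertia (Ω ≃ₐ[K] Ω)) N (φ ^ k)⁻¹ (fixCount (E i).fixingSubgroup) := by
    intro i k hk
    have h := local_trace (E i) ρ v Q hQ hv φ hφ N hNo
      (by rw [LocalTrace.range_resHom]; exact hNE i) (P i) (hP i) hk
    rwa [LocalTrace.range_resHom] at h
  have hL0 : ∀ i, (localProd K (E i) v (P i)).coeff 0 = 1 := fun i => (hL i 1 one_pos).1
  refine ⟨?_, hL0⟩
  have he0 : (eulerPoly ρ Q φ).coeff 0 = 1 := coeff_zero_reverse_charpoly _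
  have hneg := fun k => LocalTrace.psum_prod Finset.univ
    (fun i => (localProd K (E i) v (P i)) ^ (-(a i)).toNat)
    (fun i _ => (LocalTrace.psum_pow _ (hL0 i) _ 0).1) k
  have hpos := fun k => LocalTrace.psum_prod Finset.univ
    (fun i => (localProd K (E i) v (P i)) ^ (a i).toNat)
    (fun i _ => (LocalTrace.psum_pow _ (hL0 i) _ 0).1) k
  have hep := fun k => LocalTrace.psum_pow _ he0 a₀ k
  refine eq_of_psum ?_ (hpos 0).1 fun k hk => ?_
  · rw [mul_coeff_zero, (hep 0).1, (hneg 0).1, one_mul]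
  rw [psum_mul (hep 0).1 (hneg 0).1, (hneg k).2, (hpos k).2, (hep k).2]
  have he : psum (eulerPoly ρ Q φ) k =
      locTr ρ (Q.inertia (Ω ≃ₐ[K] Ω)) N (φ ^ k)⁻¹ (fun _ => 1) := by
    rw [eulerPoly, psum_charpoly _ hk]
    exact trace_formula_top ρ (MulAction.stabilizer (Ω ≃ₐ[K] Ω) Q) _ N (LocalTrace.inertia_le Q)
      (LocalTrace.conj_inertia Q) φ (frob_mem_stabilizer v Q hQ hv φ hφ) k
  have hlin := LocalTrace.locTr_linear ρ (Q.inertia (Ω ≃ₐ[K] Ω)) N (φ ^ k)⁻¹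
    (fun i => fixCount (E i).fixingSubgroup) a a₀ ha
  rw [he, ← hlin, ← Finset.sum_add_distrib]
  refine Finset.sum_congr rfl fun i _ => ?_
  rw [(LocalTrace.psum_pow _ (hL0 i) _ k).2, (LocalTrace.psum_pow _ (hL0 i) _ k).2,
    (hL i k hk).2]
  have h1 : ((a i).toNat : F) = (a i : F) + ((-(a i)).toNat : F) := by
    have h2 : ((a i).toNat : ℤ) = a i + ((-(a i)).toNat : ℤ) := by omega
    have h3 := congrArg (fun z : ℤ => (z : F)) h2
    push_cast at h3
    exact h3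
  rw [h1]
  ring

end Places

end Pool.BK
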