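import Mathlib

/-!
# Roots of polynomials with constant coefficient one (module Root of project BK)
-/

open Polynomial

namespace Pool.BK

namespace Root

/-- The constant coefficient of `Σ r^i r'^(m-1-i)`. -/
lemma coeff_zero_sum {F : Type*} [Field F] (r r' : F[X]) (m : ℕ) (hr : r.coeff 0 = 1)
    (hr' : r'.coeff 0 = 1) :
    (∑ i ∈ Finset.range m, r ^ i * r' ^ (m - 1 - i)).coeff 0 = m := by
  rw [Polynomial.finsetSum_coeff]
  simp [Polynomial.coeff_zero_eq_eval_zero, Polynomial.eval_pow] at *
  simp [hr, hr']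

lemma unique {F : Type*} [Field F] [CharZero F] (r r' : F[X]) (m : ℕ) (hm : 0 < m)
    (hr : r.coeff 0 = 1) (hr' : r'.coeff 0 = 1) (h : r ^ m = r' ^ m) : r = r' := by
  have h1 : (∑ i ∈ Finset.range m, r ^ i * r' ^ (m - 1 - i)) * (r - r') = 0 := by
    rw [(Commute.all r r').geom_sum₂_mul m, h, sub_self]
  rcases mul_eq_zero.mp h1 with h2 | h2
  · exfalso
    have h3 := coeff_zero_sum r r' m hr hr'
    rw [h2, Polynomial.coeff_zero] at h3
    have : (m : F) ≠ 0 := by exact_mod_cast hm.ne'
    exact this h3.symm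
  · exact sub_eq_zero.mp h2

/-- All coefficients of `p` lie in the image of the smaller field. -/
lemma coeff_mem {k F : Type*} [Field k] [Field F] [CharZero F] (f : k →+* F) (p : F[X]) (q : k[X])
    (m : ℕ) (hm : 0 < m) (hp : p.coeff 0 = 1) (h : p ^ m = q.map f) (n : ℕ) :
    p.coeff n ∈ Set.range f := by
  induction n using Nat.strong_induction_on with
  | _ n ih =>
    rcases Nat.eq_zero_or_pos n with rfl | hn
    · exact ⟨1, by rw [map_one, hp]⟩
    · choose! c hc using ih
      -- the truncation
      set r : k[X] := ∑ j ∈ Finset.range n, Polynomial.C (c j) * X ^ j with hrdef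
      have hrc : ∀ j, j < n → (r.map f).coeff j = p.coeff j := by
        intro j hj
        rw [Polynomial.coeff_map, hrdef, Polynomial.finsetSum_coeff]
        simp only [Polynomial.coeff_C_mul, Polynomial.coeff_X_pow]
        simp only [mul_ite, mul_one, mul_zero]
        rw [Finset.sum_ite_eq]
        rw [if_pos (Finset.mem_range.mpr hj)]
        exact hc j hj
      have hrn : (r.map f).coeff n = 0 := by
        rw [Polynomial.coeff_map, hrdef, Polynomial.finsetSum_coeff]
        simp only [Polynomial.coeff_C_mul, Polynomial.coeff_X_pow]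
        simp only [mul_ite, mul_one, mul_zero]
        rw [Finset.sum_ite_eq]
        rw [if_neg (by simp), map_zero]
      have hr0 : (r.map f).coeff 0 = 1 := by rw [hrc 0 hn, hp]
      have hdvd : X ^ n ∣ (p - r.map f) := by
        rw [Polynomial.X_pow_dvd_iff]
        intro d hd
        rw [Polynomial.coeff_sub, hrc d hd, sub_self]
      obtain ⟨s, hs⟩ := hdvd
      have hs0 : s.coeff 0 = p.coeff n := by
        have h1 : (p - r.map f).coeff n = (X ^ n * s).coeff n := by rw [hs]
        rw [Polynomial.coeff_sub, hrn, sub_zero] at h1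
        rw [h1]
        have := Polynomial.coeff_X_pow_mul s n 0
        rw [zero_add] at this
        exact this.symm
      have h2 : (∑ i ∈ Finset.range m, p ^ i * (r.map f) ^ (m - 1 - i)) * (p - r.map f) =
          p ^ m - (r.map f) ^ m := (Commute.all p (r.map f)).geom_sum₂_mul m
      have h3 : ((∑ i ∈ Finset.range m, p ^ i * (r.map f) ^ (m - 1 - i)) *
          (p - r.map f)).coeff n = m * p.coeff n := by
        rw [hs, mul_left_comm]
        have h4 := Polynomial.coeff_X_pow_mul
          ((∑ i ∈ Finset.range m, p ^ i * (r.map f) ^ (m - 1 - i)) * s) n 0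
        rw [zero_add] at h4
        rw [h4, Polynomial.mul_coeff_zero, coeff_zero_sum p (r.map f) m hp hr0, hs0]
      have h5 : (m : F) * p.coeff n = f (q.coeff n - (r ^ m).coeff n) := by
        rw [← h3, h2, h, map_sub, Polynomial.coeff_sub, Polynomial.coeff_map,
          ← Polynomial.map_pow, Polynomial.coeff_map]
      have hm0 : (m : F) ≠ 0 := by exact_mod_cast hm.ne'
      refine ⟨(q.coeff n - (r ^ m).coeff n) / m, ?_⟩
      rw [map_div₀, ← h5, map_natCast]
      field_simp

lemma exists_root {k F : Type*} [Field k] [Field F] [CharZero F] (f : k →+* F) (p : F[X])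
    (q : k[X]) (m : ℕ) (hm : 0 < m) (hp : p.coeff 0 = 1) (h : p ^ m = q.map f) :
    ∃ r : k[X], r.coeff 0 = 1 ∧ r ^ m = q ∧ p = r.map f := by
  have h1 : p ∈ Polynomial.lifts f := by
    rw [Polynomial.lifts_iff_coeff_lifts]
    exact fun n => coeff_mem f p q m hm hp h n
  obtain ⟨r, hr⟩ := (Polynomial.mem_lifts p).mp h1
  refine ⟨r, ?_, ?_, hr.symm⟩
  · have : f (r.coeff 0) = 1 := by rw [← Polynomial.coeff_map, hr, hp]
    exact f.injective (by rw [this, map_one])
  · apply Polynomial.map_injective f f.injective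
    rw [Polynomial.map_pow, hr, h]

end Root

theorem exists_root_rat (l : ℕ) [Fact l.Prime] (p : ℚ_[l][X]) (q : ℚ[X]) (m : ℕ) (hm : 0 < m)
    (hp : p.coeff 0 = 1) (h : p ^ m = q.map (algebraMap ℚ ℚ_[l])) :
    ∃ r : ℚ[X], r.coeff 0 = 1 ∧ r ^ m = q ∧ p = r.map (algebraMap ℚ ℚ_[l]) :=
  Root.exists_root _ p q m hm hp h

theorem root_unique (r r' : ℚ[X]) (m : ℕ) (hm : 0 < m) (hr : r.coeff 0 = 1)
    (hr' : r'.coeff 0 = 1) (h : r ^ m = r' ^ m) : r = r' :=
  Root.unique r r' m hm hr hr' h

end Pool.BK
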