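import Pool.Agent.Helper95.BK.Defs4
import Pool.Agent.BK.Frob
import Pool.Agent.BK.LocalTrace
import Pool.Agent.BK.H1Relation
import Pool.Agent.BK.Analytic
import Pool.Agent.BK.Root
import Pool.Agent.BK.Bound
import Pool.Agent.BK.IndFam

/-!
Relations between permutation characters and the order of vanishing formula for induced systems.
-/

open scoped Pointwise NumberField
open Polynomial IsDedekindDomain

namespace Pool.BK

namespace RelInd

/-- there is a prime number not below `v` -/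
theorem exists_prime {K : Type} [Field K] [NumberField K] (v : HeightOneSpectrum (𝓞 K)) :
    ∃ l : ℕ, ∃ _ : Fact l.Prime, (l : 𝓞 K) ∉ v.asIdeal := by
  by_cases h : ((2 : ℕ) : 𝓞 K) ∈ v.asIdeal
  · refine ⟨3, ⟨Nat.prime_three⟩, fun h3 => v.isPrime.ne_top ?_⟩
    rw [Ideal.eq_top_iff_one]
    have : (1 : 𝓞 K) = ((3 : ℕ) : 𝓞 K) - ((2 : ℕ) : 𝓞 K) := by norm_num
    rw [this]
    exact sub_mem h3 h
  · exact ⟨2, ⟨Nat.prime_two⟩, h⟩

/-- every nonzero complex number of small absolute value is a value `N ^ (-s)` -/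
theorem exists_exponent (N : ℕ) (hN : 1 < N) (σ : ℝ) (x : ℂ) (hx : x ≠ 0)
    (hlt : ‖x‖ < (N : ℝ) ^ (-σ)) : ∃ s : ℂ, σ < s.re ∧ (N : ℂ) ^ (-s) = x := by
  have hN0 : (0 : ℝ) < N := by exact_mod_cast (by omega : 0 < N)
  have hlog : 0 < Real.log N := Real.log_pos (by exact_mod_cast hN)
  have hlogC : Complex.log (N : ℂ) = ((Real.log N : ℝ) : ℂ) := by
    rw [← Complex.natCast_log]
  refine ⟨-(Complex.log x / ((Real.log N : ℝ) : ℂ)), ?_, ?_⟩
  · rw [Complex.neg_re, Complex.div_ofReal_re, Complex.log_re]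
    have h1 : Real.log ‖x‖ < -σ * Real.log N := by
      rw [← Real.log_rpow hN0]
      exact Real.log_lt_log (norm_pos_iff.2 hx) hlt
    rw [← neg_div, lt_div_iff₀ hlog]
    linarith
  · rw [neg_neg, Complex.cpow_def_of_ne_zero (by exact_mod_cast (by omega : N ≠ 0)), hlogC,
      mul_div_cancel₀ _ (by exact_mod_cast hlog.ne'), Complex.exp_log hx]

/-- the family of fields with one more member -/
def famE {K Ω ι : Type} [Field K] [Field Ω] [Algebra K Ω] (L : IntermediateField K Ω)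
    (E : ι → IntermediateField K Ω) : Option ι → IntermediateField K Ω
  | none => L
  | some i => E i

theorem famE_numberField {K Ω ι : Type} [Field K] [Field Ω] [Algebra K Ω]
    (L : IntermediateField K Ω) [hL : NumberField L] (E : ι → IntermediateField K Ω)
    [hE : ∀ i, NumberField (E i)] : ∀ o, NumberField (famE L E o)
  | none => hL
  | some i => hE i

/-- the coefficients with one more member -/
def famA {ι : Type} (m : ℤ) (a : ι → ℤ) : Option ι → ℤ
  | none => m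
  | some i => a i

/-- the families of polynomials with one more member -/
def famP {K Ω ι F : Type} [Field K] [Field Ω] [Algebra K Ω] [Field F] (L : IntermediateField K Ω)
    (E : ι → IntermediateField K Ω) (P : HeightOneSpectrum (𝓞 L) → F[X])
    (P' : ∀ i, HeightOneSpectrum (𝓞 (E i)) → F[X]) :
    ∀ o, HeightOneSpectrum (𝓞 (famE L E o)) → F[X]
  | none => P
  | some i => P' i

section

variable {K : Type} [Field K] [NumberField K] {Ω : Type} [Field Ω] [Algebra K Ω] [IsAlgClosed Ω]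
  [Algebra.IsAlgebraic K Ω]

theorem sum_fam {ι : Type} [Fintype ι] (E : ι → IntermediateField K Ω)
    (a : ι → ℤ) (L : IntermediateField K Ω) (n : ℕ)
    (ha : ∀ g : Ω ≃ₐ[K] Ω, (n : ℤ) * (fixCount L.fixingSubgroup g : ℤ) =
      ∑ i, a i * (fixCount (E i).fixingSubgroup g : ℤ)) (g : Ω ≃ₐ[K] Ω) :
    ∑ o, famA (-(n : ℤ)) a o * (fixCount (famE L E o).fixingSubgroup g : ℤ) = 0 := by
  rw [Fintype.sum_option]
  change -(n : ℤ) * (fixCount L.fixingSubgroup g : ℤ) +
    ∑ i, a i * (fixCount (E i).fixingSubgroup g : ℤ) = 0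
  rw [← ha g]
  ring

/-- the local relation -/
theorem local_rel (V : LSystem (Ω ≃ₐ[K] Ω)) {ι : Type} [Fintype ι]
    (E : ι → IntermediateField K Ω) [∀ i, NumberField (E i)] (a : ι → ℤ)
    (L : IntermediateField K Ω) [NumberField L] (n : ℕ)
    (ha : ∀ g : Ω ≃ₐ[K] Ω, (n : ℤ) * (fixCount L.fixingSubgroup g : ℤ) =
      ∑ i, a i * (fixCount (E i).fixingSubgroup g : ℤ))
    (P : ι → HeightOneSpectrum (𝓞 K) → ℚ[X]) (hP : ∀ i, IsIndFamily K (E i) Ω V (P i))
    (v : HeightOneSpectrum (𝓞 K)) (l : ℕ) [Fact l.Prime] (hl : (l : 𝓞 K) ∉ v.asIdeal)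
    (R : HeightOneSpectrum (𝓞 L) → ℚ_[l][X]) (hR : IsLocalFamily L (V.rep l) v R) :
    (localProd K L v R) ^ n * (∏ i, (P i v) ^ (-(a i)).toNat).map (algebraMap ℚ ℚ_[l]) =
      (∏ i, (P i v) ^ (a i).toNat).map (algebraMap ℚ ℚ_[l]) ∧
    (localProd K L v R).coeff 0 = 1 ∧ ∀ i, (P i v).coeff 0 = 1 := by
  obtain ⟨Q, hQ, hQv⟩ := exists_over (Ω := Ω) v
  obtain ⟨φ, hφ⟩ := exists_frob v Q hQ hQv
  choose R' hR' using fun i => exists_localFamily K Ω (V.rep l) (E i) v
  have hNF : ∀ o, NumberField (famE L E o) := famE_numberField L E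
  have hfam : ∀ o, IsLocalFamily (famE L E o) (V.rep l) v (famP L E R R' o) := by
    rintro (_ | i)
    · exact hR
    · exact hR' i
  obtain ⟨h1, h2⟩ := local_relation (V.rep l) v Q hQ hQv φ hφ (famE L E)
    (famA (-(n : ℤ)) a) 0 (by simpa using sum_fam E a L n ha) (famP L E R R') hfam
  have hR'' : ∀ i, localProd K (E i) v (R' i) = (P i v).map (algebraMap ℚ ℚ_[l]) :=
    fun i => hP i v l hl (R' i) (hR' i)
  refine ⟨?_, h2 none, fun i => ?_⟩
  · rw [pow_zero, one_mul, Fintype.prod_option, Fintype.prod_option] at h1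
    change localProd K L v R ^ (-(-(n : ℤ))).toNat *
      ∏ i, localProd K (E i) v (R' i) ^ (-(a i)).toNat =
      localProd K L v R ^ (-(n : ℤ)).toNat * ∏ i, localProd K (E i) v (R' i) ^ (a i).toNat at h1
    have e1 : (-(-(n : ℤ))).toNat = n := by omega
    have e2 : (-(n : ℤ)).toNat = 0 := by omega
    rw [e1, e2, pow_zero, one_mul] at h1
    simp only [hR''] at h1
    rw [Polynomial.map_prod, Polynomial.map_prod]
    simp only [Polynomial.map_pow]
    exact h1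
  · have h3 := h2 (some i)
    change (localProd K (E i) v (R' i)).coeff 0 = 1 at h3
    rw [hR'', coeff_map] at h3
    exact (algebraMap ℚ ℚ_[l]).injective (by rw [h3, map_one])

/-- the rational family for `L` -/
theorem exists_family (V : LSystem (Ω ≃ₐ[K] Ω)) {ι : Type} [Fintype ι]
    (E : ι → IntermediateField K Ω) [∀ i, NumberField (E i)] (a : ι → ℤ)
    (L : IntermediateField K Ω) [NumberField L] (n : ℕ) (hn : 0 < n)
    (ha : ∀ g : Ω ≃ₐ[K] Ω, (n : ℤ) * (fixCount L.fixingSubgroup g : ℤ) =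
      ∑ i, a i * (fixCount (E i).fixingSubgroup g : ℤ))
    (P : ι → HeightOneSpectrum (𝓞 K) → ℚ[X]) (hP : ∀ i, IsIndFamily K (E i) Ω V (P i)) :
    ∃ P0 : HeightOneSpectrum (𝓞 K) → ℚ[X], IsIndFamily K L Ω V P0 ∧
      (∀ v, (P0 v).coeff 0 = 1) ∧ (∃ d, ∀ v, (P0 v).natDegree ≤ d) ∧
      ∀ v, (P0 v) ^ n * ∏ i, (P i v) ^ (-(a i)).toNat = ∏ i, (P i v) ^ (a i).toNat := by
  have hv : ∀ v : HeightOneSpectrum (𝓞 K), ∃ r : ℚ[X], r.coeff 0 = 1 ∧
      r ^ n * ∏ i, (P i v) ^ (-(a i)).toNat = ∏ i, (P i v) ^ (a i).toNat := by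
    intro v
    obtain ⟨l, hl, hlv⟩ := exists_prime v
    obtain ⟨R, hR⟩ := exists_localFamily K Ω (V.rep l) L v
    obtain ⟨h1, h2, h3⟩ := local_rel V E a L n ha P hP v l hlv R hR
    have h4 : (∏ i, (P i v) ^ (-(a i)).toNat) ∣ ∏ i, (P i v) ^ (a i).toNat := by
      rw [← Polynomial.map_dvd_map' (algebraMap ℚ ℚ_[l])]
      exact ⟨_, by rw [← h1, mul_comm]⟩
    obtain ⟨q, hq⟩ := h4
    have hC : (∏ i, (P i v) ^ (-(a i)).toNat) ≠ 0 := by
      refine Finset.prod_ne_zero_iff.2 fun i _ => pow_ne_zero _ fun h0 => ?_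
      have := h3 i
      rw [h0] at this
      simp at this
    have h5 : (localProd K L v R) ^ n = q.map (algebraMap ℚ ℚ_[l]) := by
      rw [hq, Polynomial.map_mul, mul_comm] at h1
      exact mul_left_cancel₀
        ((Polynomial.map_ne_zero_iff (algebraMap ℚ ℚ_[l]).injective).2 hC) h1
    obtain ⟨r, hr0, hr1, -⟩ := exists_root_rat l _ q n hn h2 h5
    refine ⟨r, hr0, ?_⟩
    rw [hr1, hq, mul_comm]
  choose P0 h0 hrel using hv
  have hfam : IsIndFamily K L Ω V P0 := by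
    intro v l _ hl R hR
    obtain ⟨h1, h2, h3⟩ := local_rel V E a L n ha P hP v l hl R hR
    have hC : (∏ i, (P i v) ^ (-(a i)).toNat) ≠ 0 := by
      refine Finset.prod_ne_zero_iff.2 fun i _ => pow_ne_zero _ fun h0 => ?_
      have := h3 i
      rw [h0] at this
      simp at this
    rw [← hrel v, Polynomial.map_mul] at h1
    have h5 : (localProd K L v R) ^ n = ((P0 v) ^ n).map (algebraMap ℚ ℚ_[l]) :=
      mul_right_cancel₀
        ((Polynomial.map_ne_zero_iff (algebraMap ℚ ℚ_[l]).injective).2 hC) h1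
    obtain ⟨r, hr0, hr1, hr2⟩ := exists_root_rat l _ _ n hn h2 h5
    rw [hr2, root_unique r (P0 v) n hn hr0 (h0 v) hr1]
  refine ⟨P0, hfam, h0, ?_, hrel⟩
  obtain ⟨d, hd⟩ := localProd_degree K Ω V L
  refine ⟨d, fun v => ?_⟩
  obtain ⟨l, hl, hlv, R, hR, hR1, -⟩ := hd v
  rw [hfam v l hlv R hR, Polynomial.natDegree_map] at hR1
  exact hR1

/-- the half plane of convergence for `L` -/
theorem exists_sigma {ι : Type} [Fintype ι] (a : ι → ℤ) (n : ℕ) (hn : 0 < n)
    (P : ι → HeightOneSpectrum (𝓞 K) → ℚ[X]) (P0 : HeightOneSpectrum (𝓞 K) → ℚ[X])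
    (h0 : ∀ v, (P0 v).coeff 0 = 1) (hdeg : ∃ d, ∀ v, (P0 v).natDegree ≤ d)
    (hrel : ∀ v, (P0 v) ^ n * ∏ i, (P i v) ^ (-(a i)).toNat = ∏ i, (P i v) ^ (a i).toNat)
    (σ : ℝ) (hσ : ∀ i (s : ℂ), σ < s.re → ∃ z : ℂ, z ≠ 0 ∧ HasProd (eulerFactor K (P i) s) z) :
    ∃ σ' : ℝ, ∀ s : ℂ, σ' < s.re → ∃ z : ℂ, z ≠ 0 ∧ HasProd (eulerFactor K P0 s) z := by
  obtain ⟨d, hd⟩ := hdeg
  refine halfplane_of_roots K P0 d hd h0 σ fun v x hx => ?_
  by_cases hx0 : x = 0
  · rw [hx0, ← Polynomial.coeff_zero_eq_aeval_zero', h0 v, map_one]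
    exact one_ne_zero
  · obtain ⟨s, hs, hsx⟩ := exists_exponent v.asIdeal.absNorm
      (NumberField.HeightOneSpectrum.one_lt_absNorm v) σ x hx0 hx
    have h1 : ∀ i, aeval x (P i v) ≠ 0 := by
      intro i h2
      obtain ⟨z, hz, hzp⟩ := hσ i s hs
      refine ne_zero_of_hasProd hzp hz v ?_
      rw [eulerFactor, hsx, h2, inv_zero]
    intro h3
    have h4 := congrArg (aeval x) (hrel v)
    rw [map_mul, map_pow, h3, zero_pow hn.ne', zero_mul, map_prod] at h4
    refine Finset.prod_ne_zero_iff.2 (fun i _ => ?_) h4.symm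
    rw [map_pow]
    exact pow_ne_zero _ (h1 i)

/-- passage from the relation with nonnegative exponents to integer exponents -/
theorem zpow_relation {ι : Type} [Fintype ι] (a : ι → ℤ) (x : ι → ℂ) (hx : ∀ i, x i ≠ 0) (y : ℂ)
    (h : y * ∏ i, x i ^ (-(a i)).toNat = ∏ i, x i ^ (a i).toNat) : y = ∏ i, x i ^ a i := by
  have h1 : ∀ i, x i ^ a i = x i ^ (a i).toNat / x i ^ (-(a i)).toNat := by
    intro i
    rw [eq_div_iff (pow_ne_zero _ (hx i)), ← zpow_natCast, ← zpow_natCast, ← zpow_add₀ (hx i)]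
    congr 1
    omega
  simp only [h1]
  rw [Finset.prod_div_distrib, ← h, mul_div_cancel_right₀]
  exact Finset.prod_ne_zero_iff.2 fun i _ => pow_ne_zero _ (hx i)

/-- the relation between the values -/
theorem value_relation {ι : Type} [Fintype ι] (a : ι → ℤ) (n : ℕ)
    (P : ι → HeightOneSpectrum (𝓞 K) → ℚ[X]) (P0 : HeightOneSpectrum (𝓞 K) → ℚ[X])
    (hrel : ∀ v, (P0 v) ^ n * ∏ i, (P i v) ^ (-(a i)).toNat = ∏ i, (P i v) ^ (a i).toNat)
    (s : ℂ) (z0 : ℂ) (hz0 : HasProd (eulerFactor K P0 s) z0) (z : ι → ℂ) (hz : ∀ i, z i ≠ 0)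
    (hzp : ∀ i, HasProd (eulerFactor K (P i) s) (z i)) : z0 ^ n = ∏ i, z i ^ a i := by
  have h1 := hasProd_zpow (fun i => eulerFactor K (P i) s) z hz hzp a
  have h2 := Analytic.hasProd_pow hz0 n
  refine HasProd.unique h2 ?_
  have h3 : (fun v => eulerFactor K P0 s v ^ n) =
      fun v => ∏ i, eulerFactor K (P i) s v ^ a i := by
    funext v
    have h4 : ∀ i, aeval ((v.asIdeal.absNorm : ℂ) ^ (-s)) (P i v) ≠ 0 := by
      intro i h5
      refine ne_zero_of_hasProd (hzp i) (hz i) v ?_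
      rw [eulerFactor, h5, inv_zero]
    have h6 := congrArg (aeval ((v.asIdeal.absNorm : ℂ) ^ (-s))) (hrel v)
    rw [map_mul, map_pow, map_prod, map_prod] at h6
    simp only [map_pow] at h6
    have h7 := zpow_relation a _ h4 _ h6
    simp only [eulerFactor, inv_pow, inv_zpow]
    rw [Finset.prod_inv_distrib, h7]
  rw [h3]
  exact h1

end

end RelInd

section Main

variable (K : Type) [Field K] [NumberField K] (Ω : Type) [Field Ω] [Algebra K Ω] [IsAlgClosed Ω]
  [Algebra.IsAlgebraic K Ω]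

theorem rel_ind (V : LSystem (Ω ≃ₐ[K] Ω))
    (B : ∀ (p : ℕ) [Fact p.Prime], PeriodData (Ω ≃ₐ[K] Ω) (𝓞 Ω) p) {ι : Type} [Fintype ι]
    (E : ι → IntermediateField K Ω) [∀ i, NumberField (E i)] (a : ι → ℤ)
    (L : IntermediateField K Ω) [NumberField L] (n : ℕ) (hn : 0 < n)
    (ha : ∀ g : Ω ≃ₐ[K] Ω, (n : ℤ) * (fixCount L.fixingSubgroup g : ℤ) =
      ∑ i, a i * (fixCount (E i).fixingSubgroup g : ℤ))
    (h : ∀ i, ∃ m : ℕ, 0 < m ∧ BKInd K (E i) Ω V B m)
    (hfin : ∀ (p : ℕ) [Fact p.Prime],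
      Module.Finite ℚ_[p] (H1f ((V.res L).rep p) ((B p).res L))) :
    ∃ m : ℕ, 0 < m ∧ BKInd K L Ω V B m := by
  classical
  choose m hm P hP σ U Λ hU hσU htU hmer hprod hord using h
  obtain ⟨P0, hP0, h0, hdeg, hrel⟩ := RelInd.exists_family V E a L n hn ha P hP
  let σ0 : ℝ := ∑ i, |σ i|
  have hσ0 : ∀ i, σ i ≤ σ0 := fun i => (le_abs_self _).trans
    (Finset.single_le_sum (f := fun i => |σ i|) (fun j _ => abs_nonneg _) (Finset.mem_univ i))
  obtain ⟨σ1, hσ1⟩ := RelInd.exists_sigma a n hn P P0 h0 hdeg hrel σ0 (fun i s hs => by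
    obtain ⟨z, hz, hzp, -⟩ := hprod i s (lt_of_le_of_lt (hσ0 i) hs)
    exact ⟨z, hz, hzp⟩)
  let M : ℕ := ∏ i, m i
  let M' : ι → ℕ := fun i => ∏ j ∈ Finset.univ.erase i, m j
  have hM : ∀ i, m i * M' i = M := fun i => Finset.mul_prod_erase _ _ (Finset.mem_univ i)
  have hM0 : 0 < M := Finset.prod_pos fun i _ => hm i
  refine ⟨n * M, Nat.mul_pos hn hM0, P0, hP0, σ0 ⊔ σ1, ⋂ i, U i,
    fun s => ∏ i, Λ i s ^ (a i * M' i), isOpen_iInter_of_finite hU, ?_, ?_, ?_, ?_, ?_⟩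
  · intro s hs
    refine Set.mem_iInter.2 fun i => hσU i ?_
    exact lt_of_le_of_lt ((hσ0 i).trans (le_max_left _ _)) hs
  · intro t ht
    exact Set.mem_iInter.2 fun i => htU i t ht
  · intro s hs
    exact MeromorphicAt.fun_prod fun i _ => (hmer i s (Set.mem_iInter.1 hs i)).fun_zpow _
  · intro s hs
    have hs0 : σ0 < s.re := lt_of_le_of_lt (le_max_left _ _) hs
    have hs1 : σ1 < s.re := lt_of_le_of_lt (le_max_right _ _) hs
    obtain ⟨z0, hz0, hz0p⟩ := hσ1 s hs1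
    choose z hz hzp hzΛ using fun i => hprod i s (lt_of_le_of_lt (hσ0 i) hs0)
    refine ⟨z0, hz0, hz0p, ?_⟩
    rw [pow_mul, RelInd.value_relation a n P P0 hrel s z0 hz0p z hz hzp, ← Finset.prod_pow]
    refine Finset.prod_congr rfl fun i _ => ?_
    rw [hzΛ i, ← zpow_natCast, ← zpow_natCast, ← zpow_mul, ← zpow_mul, ← hM i]
    congr 1
    push_cast
    ring
  · intro p _
    refine ⟨hfin p, ?_⟩
    have hNF : ∀ o, NumberField (RelInd.famE L E o) := RelInd.famE_numberField L E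
    have hfin' : ∀ o, Module.Finite ℚ_[p]
        (H1f ((V.rep p).comp (resHom K (RelInd.famE L E o) Ω))
          ((B p).res (RelInd.famE L E o))) := by
      rintro (_ | i)
      · exact hfin p
      · exact (hord i p).1
    have hfin0 : Module.Finite ℚ_[p] (H1f (V.rep p) (B p)) :=
      finite_H1f (V.rep p) (V.cont p) (B p) L (hfin p)
    have h1 := h1_relation (V.rep p) (V.cont p) (B p) (RelInd.famE L E)
      (RelInd.famA (-(n : ℤ)) a) 0 (RelInd.sum_fam E a L n ha) hfin' hfin0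
    have hh0 := h0_relation (V.rep p) (RelInd.famE L E)
      (RelInd.famA (-(n : ℤ)) a) 0 (RelInd.sum_fam E a L n ha)
    rw [Fintype.sum_option, zero_mul] at h1 hh0
    have h2 := (order_prod_zpow Λ 0
      (fun i => hmer i 0 (by simpa using htU i 0 le_rfl)) (fun i => a i * M' i) _
      (fun i => (hord i p).2)).2
    rw [h2]
    congr 1
    change -(n : ℤ) * (Module.finrank ℚ_[p] (H1f ((V.res L).rep p) ((B p).res L)) : ℤ) +
      ∑ i, a i * (Module.finrank ℚ_[p] (H1f ((V.res (E i)).rep p) ((B p).res (E i))) : ℤ) = 0 at h1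
    change -(n : ℤ) * (Pool.BK.h0 ((V.res L).rep p) : ℤ) +
      ∑ i, a i * (Pool.BK.h0 ((V.res (E i)).rep p) : ℤ) = 0 at hh0
    have e : ∑ i, a i * (M' i : ℤ) * ((m i : ℤ) * ((Module.finrank ℚ_[p]
        (H1f ((V.res (E i)).rep p) ((B p).res (E i))) : ℤ) -
          (Pool.BK.h0 ((V.res (E i)).rep p) : ℤ))) =
      (M : ℤ) * (∑ i, a i * (Module.finrank ℚ_[p]
          (H1f ((V.res (E i)).rep p) ((B p).res (E i))) : ℤ) -
        ∑ i, a i * (Pool.BK.h0 ((V.res (E i)).rep p) : ℤ)) := by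
      rw [← Finset.sum_sub_distrib, Finset.mul_sum]
      refine Finset.sum_congr rfl fun i _ => ?_
      rw [← hM i]
      push_cast
      ring
    rw [e]
    push_cast
    linear_combination (M : ℤ) * h1 - (M : ℤ) * hh0

end Main

end Pool.BK
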