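import Pool.Agent.BK.Almost
import Pool.Agent.BK.FixInd
import Pool.Agent.BK.RelInd
import Pool.Agent.BK.ArtinCompact

/-!
Finitely many exceptional fields of each degree are harmless (induced systems).
-/

open scoped Pointwise NumberField
open Polynomial IsDedekindDomain

namespace Pool.BK

variable (K : Type) [Field K] [NumberField K] (Ω : Type) [Field Ω] [Algebra K Ω] [IsAlgClosed Ω]
  [Algebra.IsAlgebraic K Ω]

namespace AlmostInd

variable {K Ω}

theorem finiteIndex (L : IntermediateField K Ω) [NumberField L] : L.fixingSubgroup.FiniteIndex := by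
  have hG : IsGalois K Ω := H1Relation.isGalois
  have : FiniteDimensional K L := Module.Finite.of_restrictScalars_finite ℚ K L
  have h0 : 0 < Module.finrank K L := Module.finrank_pos
  refine ⟨?_⟩
  rw [← IntermediateField.finrank_eq_fixingSubgroup_index]
  exact h0.ne'

end AlmostInd

theorem almost_ind (V : LSystem (Ω ≃ₐ[K] Ω))
    (B : ∀ (p : ℕ) [Fact p.Prime], PeriodData (Ω ≃ₐ[K] Ω) (𝓞 Ω) p)
    (C : IntermediateField K Ω → Prop) (hC : ∀ L L', L ≤ L' → C L → C L')
    (X : Set (IntermediateField K Ω))
    (hX : ∀ n : ℕ, 0 < n → {L | L ∈ X ∧ Module.finrank K L = n}.Finite)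
    (h : ∀ (L : IntermediateField K Ω) [NumberField L], C L → L ∉ X →
      ∃ m : ℕ, 0 < m ∧ BKInd K L Ω V B m) :
    ∀ (L : IntermediateField K Ω) [NumberField L], C L →
      ∃ m : ℕ, 0 < m ∧ BKInd K L Ω V B m := by
  intro L hL hCL
  have : Algebra.IsAlgebraic L Ω := Algebra.IsAlgebraic.tower_top (K := K) L
  have hfL : FiniteDimensional K L := Module.Finite.of_restrictScalars_finite ℚ K L
  have hdeg : 0 < Module.finrank K L := Module.finrank_pos
  let Y : Set (Subgroup (Ω ≃ₐ[L] Ω)) := {U | IsOpen (U : Set (Ω ≃ₐ[L] Ω)) ∧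
    (IntermediateField.fixedField U).restrictScalars K ∈ X}
  have hY : ∀ n : ℕ, 0 < n → {U | U ∈ Y ∧ U.index = n}.Finite := by
    intro n hn
    refine Set.Finite.of_finite_image (f := fun U : Subgroup (Ω ≃ₐ[L] Ω) =>
      (IntermediateField.fixedField U).restrictScalars K)
      ((hX (Module.finrank K L * n) (Nat.mul_pos hdeg hn)).subset ?_) ?_
    · rintro _ ⟨U, ⟨⟨hUo, hUX⟩, hUn⟩, rfl⟩
      refine ⟨hUX, ?_⟩
      have h1 : Module.finrank L (IntermediateField.fixedField U) = n := by
        rw [Almost.finrank_fixedField U hUo, hUn]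
      rw [← h1]
      exact (Module.finrank_mul_finrank K L (IntermediateField.fixedField U)).symm
    · rintro U ⟨⟨hUo, -⟩, -⟩ U' ⟨⟨hUo', -⟩, -⟩ hUU
      have h2 := Almost.restrict_inj hUU
      rw [← (Reduction.open_field U hUo).2, ← (Reduction.open_field U' hUo').2, h2]
  obtain ⟨ι, _, S, a, hS, hrel⟩ := Almost.exists_family Y hY
  have hfd : ∀ i, FiniteDimensional L (IntermediateField.fixedField (S i)) :=
    fun i => (Reduction.open_field (S i) (hS i).1).1
  have hnf : ∀ i, NumberField (IntermediateField.fixedField (S i)) :=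
    fun i => Reduction.numberField_of _
  let E : ι → IntermediateField K Ω := fun i =>
    (IntermediateField.fixedField (S i)).restrictScalars K
  have hnfE : ∀ i, NumberField (E i) := hnf
  have hle : ∀ i, L ≤ E i := by
    intro i x hx
    exact (IntermediateField.fixedField (S i)).algebraMap_mem ⟨x, hx⟩
  have hBK : ∀ i, ∃ m : ℕ, 0 < m ∧ BKInd K (E i) Ω V B m := fun i =>
    h (E i) (hC _ _ (hle i) hCL) (fun hmem => (hS i).2.1 ⟨(hS i).1, hmem⟩)
  -- the induced relation
  have hfiL := AlmostInd.finiteIndex L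
  have hfiE : ∀ i, (E i).fixingSubgroup.FiniteIndex := fun i => AlmostInd.finiteIndex (E i)
  have hsub : ∀ i, ((E i).fixingSubgroup).subgroupOf L.fixingSubgroup =
      (S i).comap (IntermediateField.fixingSubgroupEquiv L).toMonoidHom := by
    intro i
    ext x
    rw [Subgroup.mem_subgroupOf, Subgroup.mem_comap, IntermediateField.mem_fixingSubgroup_iff]
    conv_rhs => rw [← (Reduction.open_field (S i) (hS i).1).2,
      IntermediateField.mem_fixingSubgroup_iff]
    rfl
  have hind := FixInd.induced (H := L.fixingSubgroup) (fun i => (E i).fixingSubgroup)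
    (fun i => IntermediateField.fixingSubgroup_le (hle i)) a 1 (fun x => by
      rw [← hrel ((IntermediateField.fixingSubgroupEquiv L).toMonoidHom x)]
      refine Finset.sum_congr rfl fun i _ => ?_
      rw [hsub i, ArtinCompact.fixCount_comap _ (IntermediateField.fixingSubgroupEquiv L).surjective])
  have hne : Nonempty ι := by
    by_contra hcon
    rw [not_nonempty_iff] at hcon
    have := hrel 1
    simp at this
  refine rel_ind K Ω V B E a L 1 one_pos (fun g => ?_) hBK (fun p _ => ?_)
  · rw [hind g]
    simp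
  · obtain ⟨m, -, P, -, σ, U, Λ, -, -, -, -, -, hfin⟩ := hBK hne.some
    exact finite_H1f (K := L) ((V.res L).rep p) ((V.res L).cont p) ((B p).res L)
      (IntermediateField.fixedField (S hne.some)) (hfin p).1

end Pool.BK
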