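import Pool.Agent.Helper95.BK.Defs2

open scoped Pointwise NumberField
open Polynomial IsDedekindDomain CategoryTheory

namespace Pool.BK

namespace BadConj

variable {K : Type} [Field K] [NumberField K] {Ω : Type} [Field Ω] [Algebra K Ω]

/-- Finite subextensions of `F`. -/
abbrev FinSub (F : IntermediateField K Ω) : Type :=
  {L : IntermediateField K Ω // L ≤ F ∧ FiniteDimensional K L}

theorem numberField_of_fin (L : IntermediateField K Ω) (hL : FiniteDimensional K L) :
    NumberField L := by
  have : CharZero Ω := charZero_of_injective_algebraMap (algebraMap K Ω).injective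
  have : CharZero L := charZero_of_injective_algebraMap (algebraMap K L).injective
  exact NumberField.of_module_finite K L

theorem nonempty_real {L : Type} [Field L] [NumberField L]
    (h : ¬ NumberField.IsTotallyComplex L) : Nonempty (L →+* ℝ) := by
  by_contra hne
  apply h
  refine ⟨fun w => ?_⟩
  by_contra hw
  have hw' : w.IsReal := NumberField.InfinitePlace.not_isComplex_iff_isReal.1 hw
  exact hne ⟨NumberField.InfinitePlace.embedding_of_isReal hw'⟩

theorem finite_real (L : Type) [Field L] [NumberField L] : Finite (L →+* ℝ) := by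
  have : Function.Injective (fun r : L →+* ℝ => (Complex.ofRealHom.comp r : L →+* ℂ)) := by
    intro r s hrs
    ext x
    have := congrArg (fun f : L →+* ℂ => f x) hrs
    simpa using this
  exact Finite.of_injective _ this

theorem exists_real [Algebra.IsAlgebraic K Ω] (F : IntermediateField K Ω)
    (h : ∀ (L : IntermediateField K Ω) [NumberField L], L ≤ F →
      ¬ NumberField.IsTotallyComplex L) :
    Nonempty (F →+* ℝ) := by
  classical
  let Fun : (FinSub F)ᵒᵖ ⥤ Type :=
    { obj := fun L => (L.unop.1 →+* ℝ)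
      map := fun {L L'} f => TypeCat.ofHom fun r =>
        r.comp (IntermediateField.inclusion f.unop.le).toRingHom
      map_id := by intro L; ext r; rfl
      map_comp := by intro L L' L'' f g; ext r; rfl }
  have hmap : ∀ {L L' : (FinSub F)ᵒᵖ} (f : L ⟶ L') (r : L.unop.1 →+* ℝ),
      Fun.map f r = r.comp (IntermediateField.inclusion f.unop.le).toRingHom := fun f r => rfl
  have hdir : IsDirectedOrder (FinSub F) := ⟨fun L L' =>
    ⟨⟨L.1 ⊔ L'.1, sup_le L.2.1 L'.2.1, by
      have := L.2.2
      have := L'.2.2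
      exact IntermediateField.finiteDimensional_sup L.1 L'.1⟩,
      (le_sup_left : L.1 ≤ L.1 ⊔ L'.1), (le_sup_right : L'.1 ≤ L.1 ⊔ L'.1)⟩⟩
  have hfin : ∀ L : (FinSub F)ᵒᵖ, Finite (Fun.obj L) := fun L => by
    have := numberField_of_fin L.unop.1 L.unop.2.2
    exact finite_real L.unop.1
  have hne : ∀ L : (FinSub F)ᵒᵖ, Nonempty (Fun.obj L) := fun L => by
    have := numberField_of_fin L.unop.1 L.unop.2.2
    exact nonempty_real (h L.unop.1 L.unop.2.1)
  obtain ⟨s, hs⟩ := nonempty_sections_of_finite_inverse_system Fun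
  -- value of the section at an element
  have hcompat : ∀ (L L' : FinSub F) (hLL : L ≤ L') (x : Ω) (hx : x ∈ L.1),
      (s (Opposite.op L) : L.1 →+* ℝ) ⟨x, hx⟩ =
        (s (Opposite.op L') : L'.1 →+* ℝ) ⟨x, hLL hx⟩ := by
    intro L L' hLL x hx
    have h1 := hs (Opposite.op (homOfLE hLL) : Opposite.op L' ⟶ Opposite.op L)
    rw [hmap] at h1
    rw [← h1]
    rfl
  have hmem : ∀ x : F, ∃ L : FinSub F, (x : Ω) ∈ L.1 := by
    intro x
    have hint : IsIntegral K (x : Ω) := Algebra.IsIntegral.isIntegral _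
    refine ⟨⟨IntermediateField.adjoin K {(x : Ω)}, ?_, ?_⟩, IntermediateField.mem_adjoin_simple_self K _⟩
    · rw [IntermediateField.adjoin_le_iff]
      rintro _ rfl
      exact x.2
    · exact IntermediateField.adjoin.finiteDimensional hint
  choose A hA using hmem
  let g : F → ℝ := fun x => (s (Opposite.op (A x)) : (A x).1 →+* ℝ) ⟨x, hA x⟩
  have hg : ∀ (L : FinSub F) (x : F) (hx : (x : Ω) ∈ L.1),
      g x = (s (Opposite.op L) : L.1 →+* ℝ) ⟨x, hx⟩ := by
    intro L x hx
    obtain ⟨M, h1, h2⟩ := hdir.directed L (A x)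
    rw [hcompat L M h1 x hx]
    exact hcompat (A x) M h2 x (hA x)
  refine ⟨⟨⟨⟨g, ?_⟩, ?_⟩, ?_, ?_⟩⟩
  · rw [hg (A 1) 1 (hA 1)]
    exact map_one (s (Opposite.op (A 1)) : (A 1).1 →+* ℝ)
  · intro x y
    obtain ⟨M, h1, h2⟩ := hdir.directed (A x) (A y)
    have hx : (x : Ω) ∈ M.1 := h1 (hA x)
    have hy : (y : Ω) ∈ M.1 := h2 (hA y)
    change g (x * y) = g x * g y
    rw [hg M x hx, hg M y hy, hg M (x * y) (mul_mem hx hy)]
    exact map_mul (s (Opposite.op M) : M.1 →+* ℝ) ⟨x, hx⟩ ⟨y, hy⟩
  · change g 0 = 0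
    rw [hg (A 0) 0 (hA 0)]
    exact map_zero (s (Opposite.op (A 0)) : (A 0).1 →+* ℝ)
  · intro x y
    obtain ⟨M, h1, h2⟩ := hdir.directed (A x) (A y)
    have hx : (x : Ω) ∈ M.1 := h1 (hA x)
    have hy : (y : Ω) ∈ M.1 := h2 (hA y)
    change g (x + y) = g x + g y
    rw [hg M x hx, hg M y hy, hg M (x + y) (add_mem hx hy)]
    exact map_add (s (Opposite.op M) : M.1 →+* ℝ) ⟨x, hx⟩ ⟨y, hy⟩

theorem exists_emb [IsAlgClosed Ω] [Algebra.IsAlgebraic K Ω] (F : IntermediateField K Ω)
    (r : F →+* ℝ) : ∃ j : Ω →+* ℂ, ∀ x ∈ F, (j x).im = 0 := by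
  let _ : Algebra F ℂ := (Complex.ofRealHom.comp r).toAlgebra
  have hFalg : Algebra.IsAlgebraic F Ω := Algebra.IsAlgebraic.tower_top (K := K) F
  let j : Ω →ₐ[F] ℂ := IsAlgClosed.lift
  have hj : ∀ x : F, j (algebraMap F Ω x) = (r x : ℂ) := fun x => j.commutes x
  refine ⟨j.toRingHom, fun x hx => ?_⟩
  have := hj ⟨x, hx⟩
  change (j x).im = 0
  rw [show j x = (r ⟨x, hx⟩ : ℂ) from this]
  exact Complex.ofReal_im _

/-- complex conjugation pulled back to `Ω` -/
theorem exists_conj' [IsAlgClosed Ω] [Algebra.IsAlgebraic K Ω] (F : IntermediateField K Ω)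
    (j : Ω →+* ℂ) (hjF : ∀ x ∈ F, (j x).im = 0) :
    ∃ c : Ω ≃ₐ[K] Ω, (∀ x, j (c x) = starRingEnd ℂ (j x)) ∧ ∀ x ∈ F, c x = x := by
  have hFalg : Algebra.IsAlgebraic F Ω := Algebra.IsAlgebraic.tower_top (K := K) F
  let _ : Algebra Ω ℂ := j.toAlgebra
  have halg : ∀ x : F, algebraMap F ℂ x = j x := fun x => rfl
  have hconj : ∀ x : F, starRingEnd ℂ (algebraMap F ℂ x) = algebraMap F ℂ x := fun x => by
    rw [halg]
    exact Complex.conj_eq_iff_im.2 (hjF x x.2)
  let conj : ℂ →ₐ[F] ℂ := { toRingHom := starRingEnd ℂ, commutes' := hconj }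
  let j' : Ω →ₐ[F] ℂ := { toRingHom := j, commutes' := fun x => rfl }
  have ist : IsScalarTower F Ω ℂ := IsScalarTower.of_algebraMap_eq fun x => rfl
  have hclos : IsAlgClosure F Ω := ⟨inferInstance, hFalg⟩
  have hnorm : Normal F Ω := IsAlgClosure.normal F Ω
  let c : Ω →ₐ[F] Ω := (conj.comp j').restrictNormal Ω
  have hc : ∀ x, j (c x) = starRingEnd ℂ (j x) := fun x =>
    (conj.comp j').restrictNormal_commutes Ω x
  have hjinj : Function.Injective j := j.injective
  have hcc : ∀ x, c (c x) = x := fun x => hjinj (by rw [hc, hc, Complex.conj_conj])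
  let c' : Ω ≃ₐ[F] Ω := AlgEquiv.ofAlgHom c c (by ext x; exact hcc x) (by ext x; exact hcc x)
  exact ⟨c'.restrictScalars K, fun x => hc x, fun x hx => c'.commutes ⟨x, hx⟩⟩

theorem comm_of_fix [IsAlgClosed Ω] [Algebra.IsAlgebraic K Ω] (σ c : Ω ≃ₐ[K] Ω)
    (h : ∀ x, σ x = x → c x = x) : σ * c = c * σ := by
  have hclos : IsAlgClosure K Ω := ⟨inferInstance, inferInstance⟩
  have hnorm : Normal K Ω := IsAlgClosure.normal K Ω
  have : IsGalois K Ω := {}
  let H : ClosedSubgroup (Ω ≃ₐ[K] Ω) :=
    ⟨(Subgroup.zpowers σ).topologicalClosure, Subgroup.isClosed_topologicalClosure _⟩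
  have h1 : c ∈ (IntermediateField.fixedField H.1).fixingSubgroup := by
    rw [IntermediateField.mem_fixingSubgroup_iff]
    intro x hx
    apply h
    rw [IntermediateField.mem_fixedField_iff] at hx
    exact hx σ (Subgroup.le_topologicalClosure _ (Subgroup.mem_zpowers σ))
  rw [InfiniteGalois.fixingSubgroup_fixedField H] at h1
  have h2 : (Subgroup.zpowers σ).topologicalClosure ≤ Subgroup.centralizer {σ} := by
    apply Subgroup.topologicalClosure_minimal
    · rw [Subgroup.zpowers_le, Subgroup.mem_centralizer_iff]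
      rintro _ rfl
      rfl
    · exact Set.isClosed_centralizer _
  have h3 := h2 h1
  rw [Subgroup.mem_centralizer_iff] at h3
  exact h3 σ rfl

end BadConj

open BadConj

variable (K : Type) [Field K] [NumberField K] (Ω : Type) [Field Ω] [Algebra K Ω] [IsAlgClosed Ω]
  [Algebra.IsAlgebraic K Ω]

variable {K Ω} in
theorem bad_is_conj (σ : Ω ≃ₐ[K] Ω) (h : ∀ (L : IntermediateField K Ω) [NumberField L],
    σ ∈ L.fixingSubgroup → ¬ NumberField.IsTotallyComplex L) :
    ∃ j : Ω →+* ℂ, ∀ x, j (σ x) = starRingEnd ℂ (j x) := by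
  have hch : CharZero Ω := charZero_of_injective_algebraMap (algebraMap K Ω).injective
  -- the fixed field
  let F : IntermediateField K Ω := IntermediateField.fixedField (Subgroup.zpowers σ)
  have hF : ∀ x, x ∈ F ↔ σ x = x := by
    intro x
    rw [IntermediateField.mem_fixedField_iff]
    constructor
    · intro hx
      exact hx σ (Subgroup.mem_zpowers σ)
    · intro hx g hg
      obtain ⟨n, rfl⟩ := Subgroup.mem_zpowers_iff.1 hg
      have hst : σ ∈ MulAction.stabilizer (Ω ≃ₐ[K] Ω) x := hx
      exact (Subgroup.zpow_mem _ hst n : σ ^ n ∈ MulAction.stabilizer (Ω ≃ₐ[K] Ω) x)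
  obtain ⟨r⟩ := exists_real F (fun L _ hL => h L (by
    rw [IntermediateField.mem_fixingSubgroup_iff]
    intro x hx
    exact (hF x).1 (hL hx)))
  obtain ⟨j, hjF⟩ := exists_emb F r
  obtain ⟨c, hjc, hcF⟩ := exists_conj' F j hjF
  have hcomm := comm_of_fix σ c (fun x hx => hcF x ((hF x).2 hx))
  have hcomm' : ∀ x, σ (c x) = c (σ x) := fun x => congrArg (fun f : Ω ≃ₐ[K] Ω => f x) hcomm
  have hjinj : Function.Injective j := j.injective
  have hreal : ∀ x, c x = x ↔ (j x).im = 0 := by
    intro x
    rw [← Complex.conj_eq_iff_im, ← hjc]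
    exact ⟨fun hx => congrArg j hx, fun hx => hjinj hx⟩
  have hre : ∀ x, c x = x → j x = ((j x).re : ℂ) := fun x hx => by
    apply Complex.ext
    · simp
    · rw [(hreal x).1 hx]; simp
  have hσR : ∀ x, c x = x → c (σ x) = σ x := fun x hx => by rw [← hcomm', hx]
  -- monotonicity
  have hpos : ∀ x, c x = x → 0 ≤ (j x).re → 0 ≤ (j (σ x)).re := by
    intro x hx hx0
    obtain ⟨y, hy⟩ := IsAlgClosed.exists_pow_nat_eq x (n := 2) (by norm_num)
    have hjy : (j y) ^ 2 = ((j x).re : ℂ) := by rw [← map_pow, hy, ← hre x hx]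
    have hyre : (j y).im = 0 := by
      have h1 := congrArg Complex.re hjy
      have h2 := congrArg Complex.im hjy
      simp only [sq, Complex.mul_re, Complex.mul_im, Complex.ofReal_re, Complex.ofReal_im] at h1 h2
      by_contra him
      have h3 : (j y).re = 0 := by
        have : (j y).re * (j y).im = 0 := by linarith
        exact (mul_eq_zero.1 this).resolve_right him
      rw [h3] at h1
      have : 0 < (j y).im * (j y).im := mul_self_pos.2 him
      nlinarith
    have hcy : c y = y := (hreal y).2 hyre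
    have hcy' := hσR y hcy
    have h4 : j (σ x) = (((j (σ y)).re ^ 2 : ℝ) : ℂ) := by
      rw [← hy, map_pow, map_pow, hre _ hcy']
      simp
    rw [h4, Complex.ofReal_re]
    positivity
  have hfix : ∀ x, c x = x → σ x = x := by
    intro x hx
    apply hjinj
    rw [hre _ (hσR x hx), hre x hx]
    congr 1
    by_contra hne
    rcases lt_or_gt_of_ne hne with hlt | hlt
    · obtain ⟨q, hq1, hq2⟩ := exists_rat_btwn hlt
      have h1 : c (x - (q : Ω)) = x - (q : Ω) := by rw [map_sub, hx, map_ratCast]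
      have h2 := hpos (x - (q : Ω)) h1 (by
        rw [map_sub, map_ratCast, Complex.sub_re, Complex.ratCast_re]; linarith)
      rw [map_sub, map_ratCast, map_sub, map_ratCast, Complex.sub_re, Complex.ratCast_re] at h2
      linarith
    · obtain ⟨q, hq1, hq2⟩ := exists_rat_btwn hlt
      have h1 : c ((q : Ω) - x) = (q : Ω) - x := by rw [map_sub, hx, map_ratCast]
      have h2 := hpos ((q : Ω) - x) h1 (by
        rw [map_sub, map_ratCast, Complex.sub_re, Complex.ratCast_re]; linarith)
      rw [map_sub, map_ratCast, map_sub, map_ratCast, Complex.sub_re, Complex.ratCast_re] at h2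
      linarith
  -- the square root of `-1`
  obtain ⟨i, hi⟩ := IsAlgClosed.exists_pow_nat_eq (-1 : Ω) (n := 2) (by norm_num)
  have hi0 : i ≠ 0 := by
    rintro rfl
    norm_num at hi
  have hji : (j i) ^ 2 = -1 := by rw [← map_pow, hi, map_neg, map_one]
  have hjire : (j i).re = 0 ∧ (j i).im ≠ 0 := by
    have h1 := congrArg Complex.re hji
    have h2 := congrArg Complex.im hji
    simp only [sq, Complex.mul_re, Complex.mul_im, Complex.neg_re, Complex.neg_im, Complex.one_re,
      Complex.one_im] at h1 h2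
    have him : (j i).im ≠ 0 := by
      intro h0
      rw [h0] at h1
      nlinarith [mul_self_nonneg (j i).re]
    refine ⟨?_, him⟩
    have : (j i).re * (j i).im = 0 := by linarith
    exact (mul_eq_zero.1 this).resolve_right him
  have hci : c i = -i := by
    apply hjinj
    rw [hjc, map_neg]
    apply Complex.ext
    · simp [hjire.1]
    · simp
  have hσi : σ i = -i := by
    have h1 : (σ i) ^ 2 = i ^ 2 := by rw [← map_pow, hi, map_neg, map_one]
    rcases sq_eq_sq_iff_eq_or_eq_neg.1 h1 with h2 | h2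
    · exfalso
      have hfin : FiniteDimensional K (IntermediateField.adjoin K {i}) :=
        IntermediateField.adjoin.finiteDimensional (Algebra.IsIntegral.isIntegral _)
      have := numberField_of_fin _ hfin
      refine h (IntermediateField.adjoin K {i}) ?_ ⟨fun w => ?_⟩
      · rw [IntermediateField.mem_fixingSubgroup_iff]
        have : IntermediateField.adjoin K {i} ≤ F := by
          rw [IntermediateField.adjoin_le_iff]
          rintro _ rfl
          exact (hF _).2 h2
        intro x hx
        exact (hF x).1 (this hx)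
      · rw [← NumberField.InfinitePlace.not_isReal_iff_isComplex]
        intro hw
        let e : IntermediateField.adjoin K {i} →+* ℝ :=
          NumberField.InfinitePlace.embedding_of_isReal hw
        let i' : IntermediateField.adjoin K {i} := ⟨i, IntermediateField.mem_adjoin_simple_self K i⟩
        have hi' : i' ^ 2 = -1 := Subtype.ext hi
        have h3 : (e i') ^ 2 = -1 := by rw [← map_pow, hi', map_neg, map_one]
        nlinarith [sq_nonneg (e i')]
    · exact h2
  refine ⟨j, fun x => ?_⟩
  rw [← hjc]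
  congr 1
  -- decomposition
  have ha : c (x + c x) = x + c x := by
    have hcc : c (c x) = x := hjinj (by rw [hjc, hjc, Complex.conj_conj])
    rw [map_add, hcc, add_comm]
  have hb : c ((x - c x) * i) = (x - c x) * i := by
    have hcc : c (c x) = x := hjinj (by rw [hjc, hjc, Complex.conj_conj])
    rw [map_mul, map_sub, hcc, hci]; ring
  have ha' := hfix _ ha
  have hb' := hfix _ hb
  rw [map_add] at ha'
  rw [map_mul, map_sub, hσi] at hb'
  have hb2 : σ x - σ (c x) = -(x - c x) := by
    have : (σ x - σ (c x)) * i = (-(x - c x)) * i := by linear_combination -hb'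
    exact mul_right_cancel₀ hi0 this
  have h2 : (2 : Ω) ≠ 0 := two_ne_zero
  have : (2 : Ω) * σ x = 2 * c x := by linear_combination ha' + hb2
  exact mul_left_cancel₀ h2 this

end Pool.BK
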