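import Pool.Agent.Helper95.BK.Defs3

/-!
F. K. Schmidt's theorem for number fields: the decomposition groups of two distinct primes of the
ring of all algebraic integers intersect trivially.
-/

set_option linter.unusedSectionVars false

open scoped Pointwise NumberField
open Polynomial IsDedekindDomain

namespace Pool.BK

namespace Schmidt

section Loc

variable {Ω : Type} [Field Ω]

theorem cmul (a b : 𝓞 Ω) : ((a * b : 𝓞 Ω) : Ω) = (a : Ω) * (b : Ω) := rfl
theorem cadd (a b : 𝓞 Ω) : ((a + b : 𝓞 Ω) : Ω) = (a : Ω) + (b : Ω) := rfl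
theorem csub (a b : 𝓞 Ω) : ((a - b : 𝓞 Ω) : Ω) = (a : Ω) - (b : Ω) := rfl
theorem cneg (a : 𝓞 Ω) : ((-a : 𝓞 Ω) : Ω) = -(a : Ω) := rfl
theorem cone : ((1 : 𝓞 Ω) : Ω) = 1 := rfl
theorem czero : ((0 : 𝓞 Ω) : Ω) = 0 := rfl
theorem cpow (a : 𝓞 Ω) (k : ℕ) : ((a ^ k : 𝓞 Ω) : Ω) = (a : Ω) ^ k := rfl
theorem cint (m : ℤ) : ((m : 𝓞 Ω) : Ω) = (m : Ω) := rfl

/-- Membership in the localisation at `Q`. -/
def InLoc (Q : Ideal (𝓞 Ω)) (x : Ω) : Prop := ∃ a b : 𝓞 Ω, b ∉ Q ∧ x * (b : Ω) = (a : Ω)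

theorem in_or_inv (Q : Ideal (𝓞 Ω)) (x : Ω) (n : ℕ) : ∀ P : (𝓞 Ω)[X], P.natDegree ≤ n →
    aeval x P = 0 → (∃ i, P.coeff i ∉ Q) → InLoc Q x ∨ InLoc Q x⁻¹ := by
  induction n with
  | zero =>
    rintro P hn h ⟨i, hi⟩
    exfalso
    obtain ⟨c, rfl⟩ := natDegree_eq_zero.1 (Nat.le_zero.1 hn)
    rw [aeval_C] at h
    have hc : c = 0 := by
      apply NumberField.RingOfIntegers.ext
      exact h
    apply hi
    rw [hc, C_0, coeff_zero]
    exact Q.zero_mem
  | succ n ih =>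
    rintro P hn h ⟨i, hi⟩
    by_cases hn' : P.natDegree ≤ n
    · exact ih P hn' h ⟨i, hi⟩
    have hdeg : P.natDegree = n + 1 := by omega
    set c := P.leadingCoeff with hc
    have hint : IsIntegral ℤ ((c : Ω) * x) := by
      have h1 : IsIntegral (𝓞 Ω) (c • x) := isIntegral_leadingCoeff_smul P x h
      have h2 : IsIntegral ℤ (c • x) := isIntegral_trans _ h1
      exact h2
    obtain ⟨d, hd⟩ : ∃ d : 𝓞 Ω, (d : Ω) = (c : Ω) * x := ⟨⟨_, hint⟩, rfl⟩
    by_cases hcQ : c ∈ Q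
    · by_cases hdQ : d ∈ Q
      · refine ih (P.eraseLead + monomial n d) ?_ ?_ ⟨i, ?_⟩
        · refine (natDegree_add_le _ _).trans (max_le ?_ (natDegree_monomial_le _))
          have := P.eraseLead_natDegree_le
          omega
        · have h3 : aeval x P = aeval x P.eraseLead + (c : Ω) * x ^ (n + 1) := by
            conv_lhs => rw [← P.eraseLead_add_monomial_natDegree_leadingCoeff]
            rw [map_add, aeval_monomial, hdeg]
          rw [map_add, aeval_monomial]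
          change _ + (d : Ω) * x ^ n = 0
          rw [h3] at h
          rw [hd, mul_assoc, ← pow_succ']
          exact h
        · have hin : i ≠ n + 1 := by
            rintro rfl
            apply hi
            rw [← hdeg]
            exact hcQ
          rw [coeff_add, eraseLead_coeff_of_ne _ (by rw [hdeg]; exact hin), coeff_monomial]
          split_ifs with h4
          · intro h5
            exact hi (by simpa using Q.sub_mem h5 hdQ)
          · rwa [add_zero]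
      · right
        refine ⟨c, d, hdQ, ?_⟩
        have hx : x ≠ 0 := by
          rintro rfl
          apply hdQ
          have : d = 0 := by
            apply NumberField.RingOfIntegers.ext
            rw [hd, mul_zero]
            rfl
          rw [this]
          exact Q.zero_mem
        rw [hd, mul_comm, mul_assoc, mul_inv_cancel₀ hx, mul_one]
    · left
      exact ⟨d, c, hcQ, by rw [hd, mul_comm]⟩

theorem loc_or_inv (Q : Ideal (𝓞 Ω)) (hQ : Q.IsPrime) (x : Ω) (hx : IsAlgebraic ℤ x) [CharZero Ω] :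
    InLoc Q x ∨ InLoc Q x⁻¹ := by
  obtain ⟨p, hp0, hp⟩ := hx
  have hpp : aeval x p.primPart = 0 := by
    have h1 : aeval x p = (p.content : Ω) * aeval x p.primPart := by
      conv_lhs => rw [p.eq_C_content_mul_primPart]
      rw [map_mul, aeval_C]
      rfl
    rw [h1] at hp
    rcases mul_eq_zero.1 hp with h2 | h2
    · exfalso
      have : p.content = 0 := by exact_mod_cast h2
      exact hp0 (content_eq_zero_iff.1 this)
    · exact h2
  refine in_or_inv Q x (p.primPart.map (algebraMap ℤ (𝓞 Ω))).natDegree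
    (p.primPart.map (algebraMap ℤ (𝓞 Ω))) le_rfl ?_ ?_
  · rw [aeval_map_algebraMap]
    exact hpp
  · by_contra hcon
    push Not at hcon
    obtain ⟨q, hq⟩ := IsPrincipalIdealRing.principal (Q.comap (algebraMap ℤ (𝓞 Ω)))
    have h3 : C q ∣ p.primPart := by
      rw [C_dvd_iff_dvd_coeff]
      intro i
      have h4 := hcon i
      rw [coeff_map] at h4
      have h5 : p.primPart.coeff i ∈ Q.comap (algebraMap ℤ (𝓞 Ω)) := h4
      rw [hq] at h5
      exact Ideal.mem_span_singleton.1 h5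
    have h6 : IsUnit q := p.isPrimitive_primPart q h3
    have h7 : (1 : ℤ) ∈ Q.comap (algebraMap ℤ (𝓞 Ω)) := by
      rw [hq]
      exact Ideal.mem_span_singleton.2 h6.dvd
    rw [Ideal.mem_comap, map_one] at h7
    exact hQ.ne_top ((Ideal.eq_top_iff_one _).2 h7)

/-- The valuation ring at `Q`. -/
def vs (Q : Ideal (𝓞 Ω)) (hQ : Q.IsPrime) [CharZero Ω] (halg : Algebra.IsAlgebraic ℤ Ω) :
    ValuationSubring Ω where
  carrier := {x | InLoc Q x}
  mul_mem' := by
    rintro x y ⟨a, b, hb, h⟩ ⟨c, d, hd, h'⟩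
    refine ⟨a * c, b * d, hQ.mul_notMem hb hd, ?_⟩
    rw [cmul, cmul, mul_mul_mul_comm, h, h']
  one_mem' := ⟨1, 1, fun h => hQ.ne_top ((Ideal.eq_top_iff_one _).2 h), by simp⟩
  add_mem' := by
    rintro x y ⟨a, b, hb, h⟩ ⟨c, d, hd, h'⟩
    refine ⟨a * d + c * b, b * d, hQ.mul_notMem hb hd, ?_⟩
    rw [cadd, cmul, cmul, cmul, ← h, ← h']
    ring
  zero_mem' := ⟨0, 1, fun h => hQ.ne_top ((Ideal.eq_top_iff_one _).2 h), by simp⟩
  neg_mem' := by
    rintro x ⟨a, b, hb, h⟩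
    refine ⟨-a, b, hb, ?_⟩
    rw [cneg, ← h]
    ring
  mem_or_inv_mem' := fun x => loc_or_inv Q hQ x (halg.isAlgebraic x)

end Loc

section Period

variable {K : Type} [Field K] {Ω : Type} [Field Ω] [Algebra K Ω] [Algebra.IsAlgebraic K Ω]

theorem exists_period (σ : Ω ≃ₐ[K] Ω) (x : Ω) : ∃ n : ℕ, 0 < n ∧ (σ : Ω → Ω)^[n] x = x := by
  have hint : IsIntegral K x := Algebra.IsIntegral.isIntegral x
  have h1 : ∀ i : ℕ, (σ : Ω → Ω)^[i] x ∈ (minpoly K x).rootSet Ω := by
    intro i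
    induction i with
    | zero =>
      rw [mem_rootSet]
      exact ⟨minpoly.ne_zero hint, minpoly.aeval K x⟩
    | succ i ih =>
      rw [Function.iterate_succ_apply', mem_rootSet]
      rw [mem_rootSet] at ih
      refine ⟨ih.1, ?_⟩
      have h2 : aeval (σ ((σ : Ω → Ω)^[i] x)) (minpoly K x) =
          σ (aeval ((σ : Ω → Ω)^[i] x) (minpoly K x)) :=
        aeval_algHom_apply (σ : Ω →ₐ[K] Ω) _ _
      rw [h2, ih.2, map_zero]
  have hfin : Finite ((minpoly K x).rootSet Ω) := (rootSet_finite _ _).to_subtype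
  obtain ⟨i, j, hij, h3⟩ := Finite.exists_ne_map_eq_of_infinite
    (fun i : ℕ => (⟨(σ : Ω → Ω)^[i] x, h1 i⟩ : (minpoly K x).rootSet Ω))
  have h4 : (σ : Ω → Ω)^[i] x = (σ : Ω → Ω)^[j] x := congrArg Subtype.val h3
  have key : ∀ i j : ℕ, i < j → (σ : Ω → Ω)^[i] x = (σ : Ω → Ω)^[j] x →
      ∃ n : ℕ, 0 < n ∧ (σ : Ω → Ω)^[n] x = x := by
    intro i j hij h
    refine ⟨j - i, by omega, ?_⟩
    have h5 : (σ : Ω → Ω)^[i] ((σ : Ω → Ω)^[j - i] x) = (σ : Ω → Ω)^[i] x := by
      rw [← Function.iterate_add_apply, Nat.add_sub_cancel' hij.le, h]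
    exact (σ.injective.iterate i) h5
  rcases lt_or_gt_of_ne hij with h | h
  · exact key i j h h4
  · exact key j i h h4.symm

theorem coe_smul (g : Ω ≃ₐ[K] Ω) (x : 𝓞 Ω) : ((g • x : 𝓞 Ω) : Ω) = g (x : Ω) := rfl

theorem stab_smul (Q : Ideal (𝓞 Ω)) (d : Ω ≃ₐ[K] Ω)
    (hd : d ∈ MulAction.stabilizer (Ω ≃ₐ[K] Ω) Q) (x : 𝓞 Ω) : d • x ∈ Q ↔ x ∈ Q := by
  have h1 : d • Q = Q := hd
  constructor
  · intro h
    rw [← h1] at h
    exact Ideal.smul_mem_pointwise_smul_iff.1 h
  · intro h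
    rw [← h1]
    exact Ideal.smul_mem_pointwise_smul_iff.2 h

/-- The properties of the valuation attached to a prime. -/
structure Good {Γ : Type} [LinearOrderedCommGroupWithZero Γ] (σ : Ω ≃ₐ[K] Ω) (Q : Ideal (𝓞 Ω))
    (V : Valuation Ω Γ) : Prop where
  le_one : ∀ a : 𝓞 Ω, V (a : Ω) ≤ 1
  eq_one : ∀ a : 𝓞 Ω, a ∉ Q → V (a : Ω) = 1
  inv : ∀ x : Ω, V (σ x) = V x
  arch : ∀ a : 𝓞 Ω, a ∈ Q → ∀ z : Ω, z ≠ 0 → ∃ k : ℕ, V (a : Ω) ^ k < V z

theorem vs_inv (σ : Ω ≃ₐ[K] Ω) (Q : Ideal (𝓞 Ω)) (hQ : Q.IsPrime) [CharZero Ω]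
    (halg : Algebra.IsAlgebraic ℤ Ω) (hs : σ ∈ MulAction.stabilizer (Ω ≃ₐ[K] Ω) Q) (x : Ω) :
    (vs Q hQ halg).valuation (σ x) = (vs Q hQ halg).valuation x := by
  set S := vs Q hQ halg with hS
  have h1 : ∀ z : Ω, z ∈ S → σ z ∈ S := by
    rintro z ⟨a, b, hb, h⟩
    refine ⟨σ • a, σ • b, ?_, ?_⟩
    · rw [stab_smul Q σ hs]
      exact hb
    · rw [coe_smul, coe_smul, ← map_mul, h]
  have h2 : ∀ z w : Ω, S.valuation z ≤ S.valuation w → S.valuation (σ z) ≤ S.valuation (σ w) := by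
    intro z w h
    by_cases hw : w = 0
    · rw [hw, map_zero] at h
      have hz : z = 0 := by
        rw [← Valuation.zero_iff S.valuation]
        exact le_zero_iff.1 h
      rw [hz, hw]
    · have h3 : S.valuation (z / w) ≤ 1 := by
        rw [map_div₀]
        exact div_le_one_of_le₀ h zero_le
      have h4 := h1 _ ((S.valuation_le_one_iff _).1 h3)
      have h5 := (S.valuation_le_one_iff _).2 h4
      rw [map_div₀, map_div₀] at h5
      have hw' : S.valuation (σ w) ≠ 0 := by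
        rw [ne_eq, Valuation.zero_iff]
        simpa using hw
      rwa [div_le_one₀ (zero_lt_iff.2 hw')] at h5
  obtain ⟨n, hn, hx⟩ := exists_period σ x
  obtain ⟨m, rfl⟩ : ∃ m, n = m + 1 := ⟨n - 1, by omega⟩
  rcases le_total (S.valuation (σ x)) (S.valuation x) with h | h
  · refine le_antisymm h ?_
    have h3 : ∀ i : ℕ, S.valuation ((σ : Ω → Ω)^[i + 1] x) ≤ S.valuation (σ x) := by
      intro i
      induction i with
      | zero => exact le_rfl
      | succ i ih =>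
        refine le_trans ?_ ih
        have h4 : ∀ j : ℕ, S.valuation ((σ : Ω → Ω)^[j + 1] x) ≤
            S.valuation ((σ : Ω → Ω)^[j] x) := by
          intro j
          induction j with
          | zero => exact h
          | succ j ihj =>
            have := h2 _ _ ihj
            rw [← Function.iterate_succ_apply' (σ : Ω → Ω), ← Function.iterate_succ_apply' (σ : Ω → Ω)]
              at this
            exact this
        exact h4 (i + 1)
    have h5 := h3 m
    rwa [hx] at h5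
  · refine le_antisymm ?_ h
    have h3 : ∀ i : ℕ, S.valuation (σ x) ≤ S.valuation ((σ : Ω → Ω)^[i + 1] x) := by
      intro i
      induction i with
      | zero => exact le_rfl
      | succ i ih =>
        refine ih.trans ?_
        have h4 : ∀ j : ℕ, S.valuation ((σ : Ω → Ω)^[j] x) ≤
            S.valuation ((σ : Ω → Ω)^[j + 1] x) := by
          intro j
          induction j with
          | zero => exact h
          | succ j ihj =>
            have := h2 _ _ ihj
            rw [← Function.iterate_succ_apply' (σ : Ω → Ω), ← Function.iterate_succ_apply' (σ : Ω → Ω)]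
              at this
            exact this
        exact h4 (i + 1)
    have h5 := h3 m
    rwa [hx] at h5

theorem exists_good [CharZero Ω] (halg : Algebra.IsAlgebraic ℤ Ω) (σ : Ω ≃ₐ[K] Ω)
    (Q : Ideal (𝓞 Ω)) (hQ : Q.IsPrime) (h0 : Q ≠ ⊥)
    (hs : σ ∈ MulAction.stabilizer (Ω ≃ₐ[K] Ω) Q) :
    Good σ Q (vs Q hQ halg).valuation := by
  set S := vs Q hQ halg with hS
  have hle : ∀ a : 𝓞 Ω, S.valuation (a : Ω) ≤ 1 := by
    intro a
    rw [S.valuation_le_one_iff]
    exact ⟨a, 1, fun h => hQ.ne_top ((Ideal.eq_top_iff_one _).2 h), by rw [cone, mul_one]⟩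
  have heq : ∀ a : 𝓞 Ω, a ∉ Q → S.valuation (a : Ω) = 1 := by
    intro a ha
    refine le_antisymm (hle a) ?_
    have ha0 : (a : Ω) ≠ 0 := by
      intro h
      apply ha
      have : a = 0 := NumberField.RingOfIntegers.ext h
      rw [this]
      exact Q.zero_mem
    have h1 : S.valuation ((a : Ω)⁻¹) ≤ 1 := by
      rw [S.valuation_le_one_iff]
      exact ⟨1, a, ha, by rw [cone, inv_mul_cancel₀ ha0]⟩
    rw [map_inv₀] at h1
    have h2 : S.valuation (a : Ω) ≠ 0 := by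
      rw [ne_eq, Valuation.zero_iff]
      exact ha0
    rwa [inv_le_one₀ (zero_lt_iff.2 h2)] at h1
  have hlt : ∀ a : 𝓞 Ω, a ∈ Q → S.valuation (a : Ω) < 1 := by
    intro a ha
    refine lt_of_le_of_ne (hle a) ?_
    intro h
    have h1 : S.valuation ((a : Ω)⁻¹) ≤ 1 := by rw [map_inv₀, h, inv_one]
    rw [S.valuation_le_one_iff] at h1
    obtain ⟨c, b, hb, h2⟩ := h1
    have ha0 : (a : Ω) ≠ 0 := by
      intro h0
      rw [h0, map_zero] at h
      exact zero_ne_one h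
    have h3 : b = a * c := by
      apply NumberField.RingOfIntegers.ext
      change (b : Ω) = (a : Ω) * (c : Ω)
      rw [← h2, mul_inv_cancel_left₀ ha0]
    apply hb
    rw [h3]
    exact Q.mul_mem_right _ ha
  refine ⟨hle, heq, fun x => vs_inv σ Q hQ halg hs x, ?_⟩
  -- the rational prime
  obtain ⟨p, hp⟩ := IsPrincipalIdealRing.principal (Q.comap (algebraMap ℤ (𝓞 Ω)))
  have hqp : (Q.comap (algebraMap ℤ (𝓞 Ω))).IsPrime := Ideal.IsPrime.comap _
  have hp' : ∀ m : ℤ, ((m : 𝓞 Ω)) ∈ Q ↔ p ∣ m := by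
    intro m
    have h1 : ((m : 𝓞 Ω)) ∈ Q ↔ m ∈ Q.comap (algebraMap ℤ (𝓞 Ω)) := by
      rw [Ideal.mem_comap]
      rfl
    rw [h1, hp]
    exact Ideal.mem_span_singleton
  have hp0 : p ≠ 0 := by
    rintro rfl
    obtain ⟨x, hx, hx0⟩ := Submodule.exists_mem_ne_zero_of_ne_bot h0
    apply Ideal.comap_ne_bot_of_integral_mem (R := ℤ) hx0 hx (Algebra.IsIntegral.isIntegral x)
    rw [hp]
    exact Submodule.span_zero_singleton _
  have hpprime : Prime p := by
    rw [hp] at hqp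
    exact (Ideal.span_singleton_prime hp0).1 hqp
  have hpQ : ((p : 𝓞 Ω)) ∈ Q := (hp' p).2 dvd_rfl
  -- first step
  have step1 : ∀ a : 𝓞 Ω, a ∈ Q → ∃ j : ℕ, S.valuation (a : Ω) ^ j ≤ S.valuation (p : Ω) := by
    intro a ha
    have hint : IsIntegral ℤ a := Algebra.IsIntegral.isIntegral a
    obtain ⟨F, hF, hFa⟩ := hint
    have hex : ∃ j, ¬ p ∣ F.coeff j := by
      refine ⟨F.natDegree, ?_⟩
      rw [hF.coeff_natDegree]
      exact fun h => hpprime.not_isUnit (isUnit_of_dvd_one h)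
    classical
    let j := Nat.find hex
    have hj : ¬ p ∣ F.coeff j := Nat.find_spec hex
    have hj' : ∀ i < j, p ∣ F.coeff i := fun i hi => not_not.1 (Nat.find_min hex hi)
    refine ⟨j, ?_⟩
    have hjn : j ≤ F.natDegree := by
      apply Nat.find_min'
      rw [hF.coeff_natDegree]
      exact fun h => hpprime.not_isUnit (isUnit_of_dvd_one h)
    obtain ⟨m, hm⟩ : ∃ m, F.natDegree = j + m := ⟨F.natDegree - j, by omega⟩
    have h1 : ∑ i ∈ Finset.range (j + (m + 1)), ((F.coeff i : ℤ) : 𝓞 Ω) * a ^ i = 0 := by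
      have := hFa
      rw [eval₂_eq_sum_range, hm] at this
      exact this
    rw [Finset.sum_range_add, Finset.sum_range_succ'] at h1
    choose! t ht using hj'
    have h2 : ∑ i ∈ Finset.range j, ((F.coeff i : ℤ) : 𝓞 Ω) * a ^ i =
        (p : 𝓞 Ω) * ∑ i ∈ Finset.range j, ((t i : ℤ) : 𝓞 Ω) * a ^ i := by
      rw [Finset.mul_sum]
      refine Finset.sum_congr rfl fun i hi => ?_
      rw [ht i (Finset.mem_range.1 hi), Int.cast_mul, mul_assoc]
    have h3 : ∑ k ∈ Finset.range m, ((F.coeff (j + (k + 1)) : ℤ) : 𝓞 Ω) * a ^ (j + (k + 1)) +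
        ((F.coeff (j + 0) : ℤ) : 𝓞 Ω) * a ^ (j + 0) =
        a ^ j * (a * ∑ k ∈ Finset.range m, ((F.coeff (j + (k + 1)) : ℤ) : 𝓞 Ω) * a ^ k +
          ((F.coeff j : ℤ) : 𝓞 Ω)) := by
      rw [mul_add, Finset.mul_sum, Finset.mul_sum, add_zero]
      congr 1
      · refine Finset.sum_congr rfl fun i hi => ?_
        ring
      · ring
    rw [h2, h3] at h1
    set T := ∑ i ∈ Finset.range j, ((t i : ℤ) : 𝓞 Ω) * a ^ i with hT
    set U := a * ∑ k ∈ Finset.range m, ((F.coeff (j + (k + 1)) : ℤ) : 𝓞 Ω) * a ^ k +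
          ((F.coeff j : ℤ) : 𝓞 Ω) with hU
    have hUQ : U ∉ Q := by
      intro h
      rw [hU] at h
      have h4 := (Ideal.add_mem_iff_right Q (Q.mul_mem_right _ ha)).1 h
      exact hj ((hp' _).1 h4)
    have h5 : (a : Ω) ^ j * (U : Ω) = -((p : Ω) * (T : Ω)) := by
      have h6 : a ^ j * U = -((p : 𝓞 Ω) * T) := by
        rw [eq_neg_iff_add_eq_zero, add_comm]
        exact h1
      have := congrArg (fun z : 𝓞 Ω => (z : Ω)) h6
      exact this
    have h7 := congrArg S.valuation h5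
    rw [map_mul, Valuation.map_neg, map_mul, heq U hUQ, mul_one, map_pow] at h7
    rw [h7]
    exact mul_le_of_le_one_right' (hle T)
  have step2 : ∀ m : ℤ, m ≠ 0 → ∃ k : ℕ, S.valuation (p : Ω) ^ k < S.valuation (m : Ω) := by
    intro m hm
    obtain ⟨k, u, hu, rfl⟩ := WfDvdMonoid.max_power_factor hm hpprime.irreducible
    refine ⟨k + 1, ?_⟩
    have h1 : S.valuation (u : Ω) = 1 := by
      have := heq (u : 𝓞 Ω) (fun h => hu ((hp' u).1 h))
      exact this
    rw [Int.cast_mul, map_mul, h1, mul_one, Int.cast_pow, map_pow]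
    have h2 : S.valuation (p : Ω) < 1 := hlt (p : 𝓞 Ω) hpQ
    have h3 : 0 < S.valuation (p : Ω) := by
      rw [zero_lt_iff, ne_eq, Valuation.zero_iff]
      exact_mod_cast hp0
    exact pow_lt_pow_right_of_lt_one₀ h3 h2 (Nat.lt_succ_self k)
  intro a ha z hz
  obtain ⟨m, hm0, hm⟩ := (halg.isAlgebraic z⁻¹).exists_integral_multiple
  obtain ⟨k, hk⟩ := step2 m hm0
  obtain ⟨j, hj⟩ := step1 a ha
  refine ⟨j * k, ?_⟩
  rw [pow_mul]
  have h1 : S.valuation (m : Ω) ≤ S.valuation z := by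
    have h2 : S.valuation ((m : Ω) * z⁻¹) ≤ 1 := by
      have := hle ⟨m • z⁻¹, hm⟩
      rw [← zsmul_eq_mul]
      exact this
    rw [map_mul, map_inv₀] at h2
    have hz' : S.valuation z ≠ 0 := by
      rw [ne_eq, Valuation.zero_iff]
      exact hz
    rwa [← div_eq_mul_inv, div_le_one₀ (zero_lt_iff.2 hz')] at h2
  calc (S.valuation (a : Ω) ^ j) ^ k ≤ S.valuation (p : Ω) ^ k := pow_le_pow_left' hj k
    _ < S.valuation (m : Ω) := hk
    _ ≤ S.valuation z := h1

/-- an element fixed by `σ`, in one prime but not in the other -/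
theorem exists_sep (σ : Ω ≃ₐ[K] Ω) (Q Q' : Ideal (𝓞 Ω)) (hQ' : Q'.IsPrime)
    (hs' : σ ∈ MulAction.stabilizer (Ω ≃ₐ[K] Ω) Q') (x : 𝓞 Ω) (hx : x ∈ Q) (hx' : x ∉ Q') :
    ∃ y : 𝓞 Ω, y ∈ Q ∧ y ∉ Q' ∧ σ • y = y := by
  obtain ⟨n, hn, h⟩ := exists_period σ (x : Ω)
  obtain ⟨m, rfl⟩ : ∃ m, n = m + 1 := ⟨n - 1, by omega⟩
  have hpow : ∀ i : ℕ, (((σ ^ i) • x : 𝓞 Ω) : Ω) = (σ : Ω → Ω)^[i] (x : Ω) := by
    intro i
    induction i with
    | zero => rw [pow_zero, one_smul]; rfl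
    | succ i ih => rw [pow_succ', mul_smul, coe_smul, ih, Function.iterate_succ_apply']
  have hper : (σ ^ (m + 1)) • x = x := by
    apply NumberField.RingOfIntegers.ext
    exact (hpow (m + 1)).trans h
  refine ⟨∏ i ∈ Finset.range (m + 1), (σ ^ i) • x, ?_, ?_, ?_⟩
  · rw [Finset.prod_range_succ']
    rw [pow_zero, one_smul]
    exact Q.mul_mem_left _ hx
  · rw [Ideal.IsPrime.prod_mem_iff]
    rintro ⟨i, -, hi⟩
    exact hx' ((stab_smul Q' _ (pow_mem hs' i) x).1 hi)
  · rw [Finset.smul_prod']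
    rw [Finset.prod_range_succ, Finset.prod_range_succ']
    congr 1
    · refine Finset.prod_congr rfl fun i _ => ?_
      rw [pow_succ', mul_smul]
    · rw [pow_zero, one_smul, ← mul_smul, ← pow_succ', hper]

theorem exists_idem (σ : Ω ≃ₐ[K] Ω) (Q Q' : Ideal (𝓞 Ω)) (hQ' : Q'.IsPrime)
    (h0' : Q' ≠ ⊥) (hs' : σ ∈ MulAction.stabilizer (Ω ≃ₐ[K] Ω) Q')
    (x : 𝓞 Ω) (hx : x ∈ Q) (hx' : x ∉ Q') :
    ∃ a : 𝓞 Ω, a ∈ Q ∧ 1 - a ∈ Q' ∧ σ • a = a := by
  obtain ⟨y, hy, hy', hσ⟩ := exists_sep σ Q Q' hQ' hs' x hx hx'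
  let A : Subalgebra ℤ (𝓞 Ω) :=
    { carrier := {a | σ • a = a}
      mul_mem' := by
        intro a b ha hb
        change σ • (a * b) = a * b
        rw [smul_mul', show σ • a = a from ha, show σ • b = b from hb]
      add_mem' := by
        intro a b ha hb
        change σ • (a + b) = a + b
        rw [smul_add, show σ • a = a from ha, show σ • b = b from hb]
      algebraMap_mem' := by
        intro r
        change σ • (algebraMap ℤ (𝓞 Ω) r) = algebraMap ℤ (𝓞 Ω) r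
        rw [eq_intCast]
        apply NumberField.RingOfIntegers.ext
        rw [coe_smul, cint, map_intCast] }
  have hA : Algebra.IsIntegral ℤ A :=
    Algebra.IsIntegral.of_injective A.val Subtype.val_injective
  let q : Ideal A := Q'.comap A.val
  have hq : q.IsPrime := Ideal.IsPrime.comap _
  have hmax : q.IsMaximal := by
    have h1 : (q.comap (algebraMap ℤ A)).IsMaximal := by
      have h2 : q.comap (algebraMap ℤ A) = Q'.comap (algebraMap ℤ (𝓞 Ω)) := by
        ext m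
        rfl
      rw [h2]
      have h3 : (Q'.comap (algebraMap ℤ (𝓞 Ω))).IsPrime := Ideal.IsPrime.comap _
      refine h3.isMaximal ?_
      obtain ⟨z, hz, hz0⟩ := Submodule.exists_mem_ne_zero_of_ne_bot h0'
      exact Ideal.comap_ne_bot_of_integral_mem (R := ℤ) hz0 hz (Algebra.IsIntegral.isIntegral z)
    exact Ideal.isMaximal_of_isIntegral_of_isMaximal_comap q h1
  obtain ⟨t, i, hi, hti⟩ := hmax.exists_inv (x := (⟨y, hσ⟩ : A)) hy'
  have hti' : (t : 𝓞 Ω) * y + (i : 𝓞 Ω) = 1 := congrArg (fun z : A => (z : 𝓞 Ω)) hti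
  refine ⟨(t : 𝓞 Ω) * y, Q.mul_mem_left _ hy, ?_, ?_⟩
  · have : 1 - (t : 𝓞 Ω) * y = (i : 𝓞 Ω) := by rw [← hti']; ring
    rw [this]
    exact hi
  · rw [smul_mul', hσ, show σ • (t : 𝓞 Ω) = t from t.2]

theorem near_root {Γ : Type} [LinearOrderedCommGroupWithZero Γ] [IsAlgClosed Ω]
    (V : Valuation Ω Γ) (h : (Polynomial Ω)) (hm : h.Monic) (x : Ω) (δ : Γ)
    (hV : V (h.eval x) < δ ^ h.natDegree) : ∃ β ∈ h.roots, V (x - β) < δ := by
  by_contra hcon
  push Not at hcon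
  have hsp : h.Splits := IsAlgClosed.splits h
  have h1 : h.eval x = (h.roots.map fun β => x - β).prod := by
    conv_lhs => rw [hsp.eq_prod_roots_of_monic hm]
    rw [eval_multiset_prod, Multiset.map_map]
    congr 1
    refine Multiset.map_congr rfl fun β _ => ?_
    simp
  have hcard : Multiset.card h.roots = h.natDegree := hsp.natDegree_eq_card_roots.symm
  have key : ∀ s : Multiset Ω, (∀ β ∈ s, δ ≤ V (x - β)) →
      δ ^ (Multiset.card s) ≤ V ((s.map fun β => x - β).prod) := by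
    intro s
    induction s using Multiset.induction_on with
    | empty => intro _; simp
    | cons a s ih =>
      intro hs
      rw [Multiset.card_cons, Multiset.map_cons, Multiset.prod_cons, map_mul, pow_succ']
      exact mul_le_mul' (hs a (Multiset.mem_cons_self a s))
        (ih fun β hβ => hs β (Multiset.mem_cons_of_mem hβ))
  have h2 := key h.roots hcon
  rw [hcard, ← h1] at h2
  exact absurd hV (not_lt.2 h2)

theorem core [CharZero Ω] [IsAlgClosed Ω] {Γ Γ' : Type} [LinearOrderedCommGroupWithZero Γ]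
    [LinearOrderedCommGroupWithZero Γ'] (σ : Ω ≃ₐ[K] Ω) (Q Q' : Ideal (𝓞 Ω))
    (V : Valuation Ω Γ) (V' : Valuation Ω Γ') (hV : Good σ Q V) (hV' : Good σ Q' V')
    (a : 𝓞 Ω) (ha : a ∈ Q) (ha' : 1 - a ∈ Q') (hσa : σ • a = a) (α : 𝓞 Ω)
    (hα : σ (α : Ω) ≠ (α : Ω)) : False := by
  -- the two polynomials
  have hint : IsIntegral ℤ α := Algebra.IsIntegral.isIntegral α
  set f : ℤ[X] := minpoly ℤ α with hf
  have hfm : f.Monic := minpoly.monic hint
  have hfα : aeval α f = 0 := minpoly.aeval ℤ α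
  set n := f.natDegree with hn
  have hn0 : 0 < n := minpoly.natDegree_pos hint
  set g : ℤ[X] := ∏ i ∈ Finset.range n, (X - C (i : ℤ)) with hg
  have hgm : g.Monic := monic_prod_of_monic _ _ fun i _ => monic_X_sub_C _
  have hgn : g.natDegree = n := by
    rw [hg, natDegree_prod_of_monic _ _ fun i _ => monic_X_sub_C _]
    simp only [natDegree_X_sub_C, Finset.sum_const, Finset.card_range, smul_eq_mul, mul_one]
  have hgi : ∀ i < n, aeval (i : 𝓞 Ω) g = 0 := by
    intro i hi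
    rw [hg, map_prod]
    refine Finset.prod_eq_zero (Finset.mem_range.2 hi) ?_
    simp
  -- the auxiliary element
  set z : Ω := ((α : Ω) - σ (α : Ω)) ^ n with hz
  have hz0 : z ≠ 0 := pow_ne_zero _ (sub_ne_zero.2 hα.symm)
  set z' : Ω := ((n.factorial : ℕ) : Ω) ^ n with hz'
  have hz0' : z' ≠ 0 := pow_ne_zero _ (Nat.cast_ne_zero.2 n.factorial_ne_zero)
  obtain ⟨k, hk⟩ := hV.arch a ha z hz0
  have hb : 1 - a ^ k ∈ Q' := by
    have := sub_dvd_pow_sub_pow (1 : 𝓞 Ω) a k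
    rw [one_pow] at this
    exact Ideal.mem_of_dvd _ this ha'
  obtain ⟨l, hl⟩ := hV'.arch (1 - a ^ k) hb z' hz0'
  set e : 𝓞 Ω := 1 - (1 - a ^ k) ^ l with he
  have hσe : σ • e = e := by
    rw [he, smul_sub, smul_one, smul_pow', smul_sub, smul_one, smul_pow', hσa]
  have heV : V (e : Ω) < V z := by
    obtain ⟨s, hs⟩ : a ^ k ∣ e := by
      have := sub_dvd_pow_sub_pow (1 : 𝓞 Ω) (1 - a ^ k) l
      rw [one_pow, sub_sub_cancel] at this
      exact this
    rw [hs, cmul, cpow, map_mul, map_pow]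
    exact lt_of_le_of_lt (mul_le_of_le_one_right' (hV.le_one s)) hk
  have heV' : V' ((1 - e : 𝓞 Ω) : Ω) < V' z' := by
    rw [he, sub_sub_cancel, cpow, map_pow]
    exact hl
  -- the polynomial
  set F : (Polynomial Ω) := f.map (Int.castRingHom Ω) with hF
  set G : (Polynomial Ω) := g.map (Int.castRingHom Ω) with hG
  have hFm : F.Monic := hfm.map _
  have hGm : G.Monic := hgm.map _
  have hFn : F.natDegree = n := hfm.natDegree_map _
  have hGn : G.natDegree = n := (hgm.natDegree_map _).trans hgn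
  have hdeg : (C (e : Ω) * (G - F)).degree < F.degree := by
    have hCle : (C (e : Ω) * (G - F)).degree ≤ (G - F).degree := by
      rw [← smul_eq_C_mul]
      exact degree_smul_le _ _
    refine lt_of_le_of_lt hCle ?_
    rw [← degree_neg, neg_sub]
    refine degree_sub_lt_left ?_ hFm.ne_zero ?_
    · rw [degree_eq_natDegree hFm.ne_zero, degree_eq_natDegree hGm.ne_zero, hFn, hGn]
    · rw [hFm.leadingCoeff, hGm.leadingCoeff]
  set h : (Polynomial Ω) := F + C (e : Ω) * (G - F) with hh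
  have hhm : h.Monic := hFm.add_of_left hdeg
  have hhn : h.natDegree = n := by
    rw [hh, natDegree_add_eq_left_of_degree_lt hdeg, hFn]
  have hFe : ∀ x : 𝓞 Ω, F.eval (x : Ω) = ((aeval x f : 𝓞 Ω) : Ω) := by
    intro x
    rw [hF, eval_map]
    exact (hom_eval₂ f (algebraMap ℤ (𝓞 Ω)) (algebraMap (𝓞 Ω) Ω) x).symm
  have hGe : ∀ x : 𝓞 Ω, G.eval (x : Ω) = ((aeval x g : 𝓞 Ω) : Ω) := by
    intro x
    rw [hG, eval_map]
    exact (hom_eval₂ g (algebraMap ℤ (𝓞 Ω)) (algebraMap (𝓞 Ω) Ω) x).symm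
  have hhe : ∀ x : 𝓞 Ω, h.eval (x : Ω) =
      ((aeval x f + e * (aeval x g - aeval x f) : 𝓞 Ω) : Ω) := by
    intro x
    rw [hh, eval_add, eval_mul, eval_C, eval_sub, hFe, hGe]
    rfl
  have hσh : ∀ β : Ω, h.IsRoot β → h.IsRoot (σ β) := by
    intro β hβ
    have h1 : h.map (σ : Ω →+* Ω) = h := by
      have h2 : ∀ r : ℤ[X], (r.map (Int.castRingHom Ω)).map (σ : Ω →+* Ω) =
          r.map (Int.castRingHom Ω) := by
        intro r
        rw [Polynomial.map_map]
        congr 1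
        exact RingHom.ext_int _ _
      have h3 : (σ : Ω →+* Ω) (e : Ω) = (e : Ω) := by
        have := congrArg (fun t : 𝓞 Ω => (t : Ω)) hσe
        exact this
      rw [hh, Polynomial.map_add, Polynomial.map_mul, Polynomial.map_sub, map_C, h3, hF, hG, h2, h2]
    have h4 : h.eval (σ β) = σ (h.eval β) := by
      conv_lhs => rw [← h1]
      exact eval_map_apply (σ : Ω →+* Ω) β
    rw [IsRoot.def, h4, hβ.eq_zero, map_zero]
  -- a root which is moved
  obtain ⟨β, hβ, hβα⟩ := near_root V h hhm (α : Ω) (V ((α : Ω) - σ (α : Ω))) (by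
    rw [hhn, hhe, hfα, zero_add, sub_zero, cmul, map_mul, ← map_pow]
    exact lt_of_le_of_lt (mul_le_of_le_one_right' (hV.le_one _)) heV)
  have hβσ : σ β ≠ β := by
    intro hfix
    have h1 : V (σ (α : Ω) - β) < V ((α : Ω) - σ (α : Ω)) := by
      rw [← hfix, ← map_sub, hV.inv]
      exact hβα
    have h2 : V ((α : Ω) - σ (α : Ω)) < V ((α : Ω) - σ (α : Ω)) := by
      have h3 : (α : Ω) - σ (α : Ω) = ((α : Ω) - β) - (σ (α : Ω) - β) := by ring
      calc V ((α : Ω) - σ (α : Ω)) = V (((α : Ω) - β) - (σ (α : Ω) - β)) := by rw [← h3]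
        _ ≤ max (V ((α : Ω) - β)) (V (σ (α : Ω) - β)) := V.map_sub _ _
        _ < V ((α : Ω) - σ (α : Ω)) := max_lt hβα h1
    exact lt_irrefl _ h2
  -- all roots are fixed
  set δ : Γ' := V' ((n.factorial : ℕ) : Ω) with hδ
  have hsep : ∀ i < n, ∀ j < n, V' ((i : Ω) - (j : Ω)) < δ → i = j := by
    have key : ∀ i < n, ∀ j < n, i < j → ¬ V' ((j : Ω) - (i : Ω)) < δ := by
      intro i hi j hj hij
      rw [not_lt, hδ]
      have hdvd : (j - i) ∣ n.factorial := Nat.dvd_factorial (by omega) (by omega)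
      obtain ⟨c, hc⟩ := hdvd
      rw [hc, Nat.cast_mul, map_mul, Nat.cast_sub hij.le]
      refine mul_le_of_le_one_right' ?_
      have := hV'.le_one (c : 𝓞 Ω)
      exact this
    intro i hi j hj hij
    rcases lt_trichotomy i j with h1 | h1 | h1
    · exfalso
      apply key i hi j hj h1
      rwa [V'.map_sub_swap]
    · exact h1
    · exact absurd hij (key j hj i hi h1)
  have hnear : ∀ i < n, ∃ ρ ∈ h.roots, V' ((i : Ω) - ρ) < δ := by
    intro i hi
    have h1 : h.eval (((i : 𝓞 Ω)) : Ω) = ((1 - e : 𝓞 Ω) : Ω) * ((aeval (i : 𝓞 Ω) f : 𝓞 Ω) : Ω) := by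
      rw [hhe, hgi i hi, ← cmul]
      congr 1
      ring
    obtain ⟨ρ, hρ, h2⟩ := near_root V' h hhm (((i : 𝓞 Ω)) : Ω) δ (by
      rw [h1, map_mul, hhn, hδ, ← map_pow]
      exact lt_of_le_of_lt (mul_le_of_le_one_right' (hV'.le_one _)) heV')
    exact ⟨ρ, hρ, h2⟩
  choose! ρ hρ hρV using hnear
  have hinj : Set.InjOn ρ (Finset.range n) := by
    intro i hi j hj hij
    have hi' : i < n := by simpa using hi
    have hj' : j < n := by simpa using hj
    apply hsep i hi' j hj'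
    have h3 : (i : Ω) - (j : Ω) = ((i : Ω) - ρ i) - ((j : Ω) - ρ i) := by ring
    rw [h3]
    refine lt_of_le_of_lt (V'.map_sub _ _) (max_lt (hρV i hi') ?_)
    rw [hij]
    exact hρV j hj'
  classical
  have hsurj : ∀ γ ∈ h.roots, ∃ i < n, ρ i = γ := by
    have h1 : (Finset.range n).image ρ ⊆ h.roots.toFinset := by
      intro γ hγ
      obtain ⟨i, hi, rfl⟩ := Finset.mem_image.1 hγ
      exact Multiset.mem_toFinset.2 (hρ i (Finset.mem_range.1 hi))
    have h2 : h.roots.toFinset.card ≤ ((Finset.range n).image ρ).card := by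
      rw [Finset.card_image_of_injOn hinj, Finset.card_range]
      refine (Multiset.toFinset_card_le _).trans ?_
      rw [← hhn]
      exact h.card_roots'
    have h3 := Finset.eq_of_subset_of_card_le h1 h2
    intro γ hγ
    have h4 : γ ∈ (Finset.range n).image ρ := by
      rw [h3]
      exact Multiset.mem_toFinset.2 hγ
    obtain ⟨i, hi, rfl⟩ := Finset.mem_image.1 h4
    exact ⟨i, Finset.mem_range.1 hi, rfl⟩
  obtain ⟨i, hi, hiβ⟩ := hsurj β hβ
  have hσβ : σ β ∈ h.roots := by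
    rw [mem_roots hhm.ne_zero] at hβ ⊢
    exact hσh β hβ
  obtain ⟨j, hj, hjβ⟩ := hsurj (σ β) hσβ
  have hij : i = j := by
    apply hsep i hi j hj
    have h3 : (i : Ω) - (j : Ω) = ((i : Ω) - σ β) - ((j : Ω) - σ β) := by ring
    rw [h3]
    refine lt_of_le_of_lt (V'.map_sub _ _) (max_lt ?_ ?_)
    · have h4 : (i : Ω) - σ β = σ ((i : Ω) - β) := by rw [map_sub, map_natCast]
      rw [h4, hV'.inv, ← hiβ]
      exact hρV i hi
    · rw [← hjβ]
      exact hρV j hj
  apply hβσ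
  rw [← hjβ, ← hij, hiβ]

end Period

end Schmidt

variable {K : Type} [Field K] [NumberField K] {Ω : Type} [Field Ω] [Algebra K Ω] [IsAlgClosed Ω]
  [Algebra.IsAlgebraic K Ω]

theorem two_primes (σ : Ω ≃ₐ[K] Ω) (Q Q' : Ideal (𝓞 Ω)) (hQ : Q.IsPrime) (hQ' : Q'.IsPrime)
    (h0 : Q ≠ ⊥) (h0' : Q' ≠ ⊥) (hne : Q ≠ Q') (hs : σ ∈ MulAction.stabilizer (Ω ≃ₐ[K] Ω) Q)
    (hs' : σ ∈ MulAction.stabilizer (Ω ≃ₐ[K] Ω) Q') : σ = 1 := by
  have hchar : CharZero Ω := charZero_of_injective_algebraMap (algebraMap K Ω).injective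
  have halgQ : Algebra.IsAlgebraic ℚ Ω := Algebra.IsAlgebraic.trans ℚ K Ω
  have halg : Algebra.IsAlgebraic ℤ Ω :=
    (IsFractionRing.comap_isAlgebraic_iff (A := ℤ) (K := ℚ) (C := Ω)).2 halgQ
  by_contra hσ
  obtain ⟨x, hx⟩ : ∃ x : Ω, σ x ≠ x := by
    by_contra hcon
    push Not at hcon
    exact hσ (AlgEquiv.ext hcon)
  obtain ⟨m, hm0, hm⟩ := (halg.isAlgebraic x).exists_integral_multiple
  obtain ⟨α, hα'⟩ : ∃ α : 𝓞 Ω, (α : Ω) = m • x := ⟨⟨m • x, hm⟩, rfl⟩
  have hα : σ (α : Ω) ≠ (α : Ω) := by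
    rw [hα', map_zsmul]
    intro h
    apply hx
    rw [zsmul_eq_mul, zsmul_eq_mul] at h
    exact mul_left_cancel₀ (by exact_mod_cast hm0) h
  have hG := Schmidt.exists_good halg σ Q hQ h0 hs
  have hG' := Schmidt.exists_good halg σ Q' hQ' h0' hs'
  have hex : (∃ x : 𝓞 Ω, x ∈ Q ∧ x ∉ Q') ∨ (∃ x : 𝓞 Ω, x ∈ Q' ∧ x ∉ Q) := by
    by_contra hcon
    push Not at hcon
    exact hne (le_antisymm (fun x hx => hcon.1 x hx) (fun x hx => hcon.2 x hx))
  rcases hex with ⟨y, hy, hy'⟩ | ⟨y, hy, hy'⟩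
  · obtain ⟨a, ha, ha', hσa⟩ := Schmidt.exists_idem σ Q Q' hQ' h0' hs' y hy hy'
    exact Schmidt.core σ Q Q' _ _ hG hG' a ha ha' hσa _ hα
  · obtain ⟨a, ha, ha', hσa⟩ := Schmidt.exists_idem σ Q' Q hQ h0 hs y hy hy'
    exact Schmidt.core σ Q' Q _ _ hG' hG a ha ha' hσa _ hα

end Pool.BK
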