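import Pool.Agent.BK.BadLocalCore
import Pool.Agent.BK.Schmidt

/-!
Elements of the absolute Galois group of a number field which lie in no group of a totally complex
extension that is locally trivial over a given one are complex conjugations or local.
-/

set_option autoImplicit false

open scoped Pointwise NumberField
open Polynomial IsDedekindDomain

namespace Pool.BK

variable {K : Type} [Field K] [NumberField K] {Ω : Type} [Field Ω] [Algebra K Ω] [IsAlgClosed Ω]
  [Algebra.IsAlgebraic K Ω]

theorem bad_local (F : IntermediateField K Ω) [NumberField F] [Normal K F]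
    (T : Set (HeightOneSpectrum (𝓞 K))) (hT : T.Finite) (σ : Ω ≃ₐ[K] Ω)
    (h : ∀ (L : IntermediateField K Ω) [NumberField L], σ ∈ L.fixingSubgroup →
      ¬ (NumberField.IsTotallyComplex L ∧ LocTriv F T L)) : IsConj σ ∨ IsLocal F T σ :=
  BadLocal.core two_primes F T hT σ h

end Pool.BK
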