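import Pool.Agent.Helper95.BK.Defs3
import Pool.Agent.BK.Frob
import Pool.Agent.BK.BadConj

/-!
Elements of the absolute Galois group of a number field which lie in no group of a totally complex
extension that is locally trivial over a given one are complex conjugations or local.
-/

set_option autoImplicit false

open scoped Pointwise NumberField Topology
open Polynomial IsDedekindDomain

namespace Pool.BK

namespace BadLocal

section Topological

/-- A compact subset of the Galois group which avoids a closed subgroup avoids an open subgroup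
containing it. -/
theorem exists_open_subgroup {K Ω : Type} [Field K] [Field Ω] [Algebra K Ω] [Normal K Ω]
    (H : Subgroup (Ω ≃ₐ[K] Ω)) (hH : IsClosed (H : Set (Ω ≃ₐ[K] Ω))) (C : Set (Ω ≃ₐ[K] Ω))
    (hC : IsCompact C) (hd : ∀ x ∈ C, x ∉ H) :
    ∃ U : Subgroup (Ω ≃ₐ[K] Ω), IsOpen (U : Set (Ω ≃ₐ[K] Ω)) ∧ H ≤ U ∧ ∀ x ∈ C, x ∉ U := by
  classical
  have h1 : ∀ x : Ω ≃ₐ[K] Ω, ∃ N : Subgroup (Ω ≃ₐ[K] Ω), N.Normal ∧
      IsOpen (N : Set (Ω ≃ₐ[K] Ω)) ∧ (x ∈ C → ∀ y ∈ N, x * y ∉ H) := by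
    intro x
    by_cases hx : x ∈ C
    · have h2 : {y : Ω ≃ₐ[K] Ω | x * y ∉ H} ∈ 𝓝 (1 : Ω ≃ₐ[K] Ω) := by
        have h3 : IsOpen {y : Ω ≃ₐ[K] Ω | x * y ∉ H} :=
          (hH.preimage (continuous_const_mul x)).isOpen_compl
        refine h3.mem_nhds ?_
        change x * 1 ∉ H
        rw [mul_one]
        exact hd x hx
      rw [krullTopology_mem_nhds_one_iff_of_normal] at h2
      obtain ⟨E, hE, hEn, hEs⟩ := h2
      refine ⟨E.fixingSubgroup, ?_, IntermediateField.fixingSubgroup_isOpen E,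
        fun _ y hy => hEs hy⟩
      rw [← IntermediateField.restrictNormalHom_ker]
      exact MonoidHom.normal_ker _
    · exact ⟨⊤, inferInstance, isOpen_univ, fun h => absurd h hx⟩
  choose N hNn hNo hN using h1
  obtain ⟨t, ht, hCt⟩ := hC.elim_nhds_subcover (fun x => x • (N x : Set (Ω ≃ₐ[K] Ω)))
    (fun x _ => by
      have h2 : IsOpen (x • (N x : Set (Ω ≃ₐ[K] Ω))) := (hNo x).smul x
      exact h2.mem_nhds ⟨1, one_mem _, mul_one x⟩)
  set M : Subgroup (Ω ≃ₐ[K] Ω) := ⨅ x ∈ t, N x with hM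
  have hMn : M.Normal := Subgroup.normal_iInf_normal fun x =>
    Subgroup.normal_iInf_normal fun _ => hNn x
  have hMo : IsOpen (M : Set (Ω ≃ₐ[K] Ω)) := by
    have h2 : (M : Set (Ω ≃ₐ[K] Ω)) = ⋂ x ∈ t, (N x : Set (Ω ≃ₐ[K] Ω)) := by
      rw [hM]
      simp only [Subgroup.coe_iInf]
    rw [h2]
    exact isOpen_biInter_finset fun x _ => hNo x
  refine ⟨H ⊔ M, Subgroup.isOpen_mono le_sup_right hMo, le_sup_left, ?_⟩
  intro c hc hcU
  obtain ⟨h, hh, m, hm, rfl⟩ := Subgroup.mem_sup_of_normal_right.1 hcU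
  have h2 := hCt hc
  rw [Set.mem_iUnion₂] at h2
  obtain ⟨x, hx, y, hy, hxy⟩ := h2
  have hxy' : x * y = h * m := hxy
  have hm' : m ∈ N x := by
    rw [hM, Subgroup.mem_iInf] at hm
    exact (Subgroup.mem_iInf.1 (hm x)) hx
  refine hN x (ht x hx) (y * m⁻¹) (mul_mem hy (inv_mem hm')) ?_
  rw [← mul_assoc, hxy', mul_inv_cancel_right]
  exact hh

end Topological

section Primes

variable {K : Type} [Field K] {Ω : Type} [Field Ω] [Algebra K Ω]

theorem smul_ne_bot (g : Ω ≃ₐ[K] Ω) (Q : Ideal (𝓞 Ω)) (h : Q ≠ ⊥) : g • Q ≠ ⊥ := by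
  intro h0
  apply h
  rw [eq_bot_iff]
  intro x hx
  have h1 : g • x ∈ g • Q := Ideal.smul_mem_pointwise_smul_iff.2 hx
  rw [h0, Ideal.mem_bot] at h1
  rw [Ideal.mem_bot]
  exact (smul_eq_zero_iff_eq g).1 h1

theorem conj_inertia (g τ : Ω ≃ₐ[K] Ω) (Q : Ideal (𝓞 Ω)) (h : τ ∈ (g • Q).inertia (Ω ≃ₐ[K] Ω)) :
    g⁻¹ * τ * g ∈ Q.inertia (Ω ≃ₐ[K] Ω) := by
  intro x
  have h1 := h (g • x)
  have h2 : τ • g • x - g • x ∈ g • Q := h1
  rw [Ideal.mem_pointwise_smul_iff_inv_smul_mem, smul_sub, inv_smul_smul, smul_smul,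
    smul_smul] at h2
  exact h2

theorem conj_stab (g τ : Ω ≃ₐ[K] Ω) (Q : Ideal (𝓞 Ω))
    (h : τ ∈ MulAction.stabilizer (Ω ≃ₐ[K] Ω) (g • Q)) :
    g⁻¹ * τ * g ∈ MulAction.stabilizer (Ω ≃ₐ[K] Ω) Q := by
  rw [MulAction.mem_stabilizer_iff] at h ⊢
  rw [mul_smul, mul_smul, h, inv_smul_smul]

variable [Algebra.IsAlgebraic K Ω]

theorem isClosed_cond (x : 𝓞 Ω) (S : Set (𝓞 Ω)) : IsClosed {τ : Ω ≃ₐ[K] Ω | τ • x ∈ S} := by
  let _ : TopologicalSpace (𝓞 Ω) := ⊥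
  have : DiscreteTopology (𝓞 Ω) := ⟨rfl⟩
  have := Frob.continuousSMul (K := K) (Ω := Ω)
  have h1 : Continuous fun τ : Ω ≃ₐ[K] Ω => τ • x := continuous_id.smul continuous_const
  exact (isClosed_discrete S).preimage h1

theorem isClosed_inertia (Q : Ideal (𝓞 Ω)) :
    IsClosed {τ : Ω ≃ₐ[K] Ω | τ ∈ Q.inertia (Ω ≃ₐ[K] Ω)} := by
  have h1 : {τ : Ω ≃ₐ[K] Ω | τ ∈ Q.inertia (Ω ≃ₐ[K] Ω)} =
      ⋂ x : 𝓞 Ω, {τ : Ω ≃ₐ[K] Ω | τ • x ∈ {y : 𝓞 Ω | y - x ∈ Q}} := by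
    ext τ
    rw [Set.mem_iInter]
    rfl
  rw [h1]
  exact isClosed_iInter fun x => isClosed_cond x _

theorem isClosed_stab (Q : Ideal (𝓞 Ω)) :
    IsClosed {τ : Ω ≃ₐ[K] Ω | τ ∈ MulAction.stabilizer (Ω ≃ₐ[K] Ω) Q} := by
  have h1 : {τ : Ω ≃ₐ[K] Ω | τ ∈ MulAction.stabilizer (Ω ≃ₐ[K] Ω) Q} =
      ⋂ x : 𝓞 Ω, {τ : Ω ≃ₐ[K] Ω | τ • x ∈ {y : 𝓞 Ω | x ∈ Q ↔ y ∈ Q}} := by
    ext τ
    rw [Set.mem_iInter]
    change τ ∈ MulAction.stabilizer (Ω ≃ₐ[K] Ω) Q ↔ ∀ x, (x ∈ Q ↔ τ • x ∈ Q)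
    rw [MulAction.mem_stabilizer_iff]
    constructor
    · intro h x
      have h2 : τ • x ∈ τ • Q ↔ x ∈ Q := Ideal.smul_mem_pointwise_smul_iff
      rw [h] at h2
      exact h2.symm
    · intro h
      ext y
      rw [Ideal.mem_pointwise_smul_iff_inv_smul_mem, h (τ⁻¹ • y), smul_inv_smul]
  rw [h1]
  exact isClosed_iInter fun x => isClosed_cond x _

end Primes

section Ramified

variable {K : Type} [Field K] [NumberField K] {Ω : Type} [Field Ω] [Algebra K Ω]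

theorem exists_ne (F : IntermediateField K Ω) [NumberField F] :
    ∃ (ι : Type) (_ : Finite ι) (β : ι → 𝓞 Ω), ∀ τ : Ω ≃ₐ[K] Ω, (∀ i, τ • β i = β i) →
      τ ∈ F.fixingSubgroup := by
  have : CharZero Ω := charZero_of_injective_algebraMap (algebraMap K Ω).injective
  refine ⟨Module.Free.ChooseBasisIndex ℤ (𝓞 F), inferInstance,
    fun i => algebraMap (𝓞 F) (𝓞 Ω) (NumberField.RingOfIntegers.basis F i), ?_⟩
  intro τ hτ
  rw [IntermediateField.mem_fixingSubgroup_iff]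
  intro x hx
  let f : F →ₗ[ℚ] Ω := (τ.toAlgHom.toRingHom.comp (algebraMap F Ω)).toRatAlgHom.toLinearMap
  let g : F →ₗ[ℚ] Ω := (algebraMap F Ω).toRatAlgHom.toLinearMap
  have hfg : f = g := by
    refine (NumberField.integralBasis F).ext fun i => ?_
    have h1 := congrArg (fun y : 𝓞 Ω => (y : Ω)) (hτ i)
    rw [NumberField.integralBasis_apply]
    exact h1
  exact congrArg (fun l : F →ₗ[ℚ] Ω => l ⟨x, hx⟩) hfg

variable [IsAlgClosed Ω] [Algebra.IsAlgebraic K Ω]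

theorem finite_orbit (β : 𝓞 Ω) : (Set.range fun τ : Ω ≃ₐ[K] Ω => τ • β).Finite := by
  have : IsGalois K Ω := Frob.isGalois
  have : Finite ((Ω ≃ₐ[K] Ω) ⧸ MulAction.stabilizer (Ω ≃ₐ[K] Ω) β) :=
    Subgroup.quotient_finite_of_isOpen _ (Frob.stabilizer_isOpen β)
  have h2 : Finite (MulAction.orbit (Ω ≃ₐ[K] Ω) β) :=
    Finite.of_equiv _ (MulAction.orbitEquivQuotientStabilizer (Ω ≃ₐ[K] Ω) β).symm
  exact Set.toFinite (MulAction.orbit (Ω ≃ₐ[K] Ω) β)

theorem finite_under (δ : 𝓞 Ω) (hδ : δ ≠ 0) :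
    {v : HeightOneSpectrum (𝓞 K) | ∃ Q : Ideal (𝓞 Ω), Q.under (𝓞 K) = v.asIdeal ∧
      δ ∈ Q}.Finite := by
  have : IsGalois K Ω := Frob.isGalois
  have hint : IsIntegral (𝓞 K) δ := by
    have h1 : IsIntegral ℤ δ := NumberField.RingOfIntegers.isIntegral δ
    exact h1.tower_top
  have h0 : (Ideal.span {δ}).comap (algebraMap (𝓞 K) (𝓞 Ω)) ≠ ⊥ :=
    Ideal.comap_ne_bot_of_integral_mem hδ (Ideal.mem_span_singleton_self δ) hint
  refine (Ideal.finite_factors h0).subset ?_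
  rintro v ⟨Q, hQ, hδQ⟩
  rw [Set.mem_ofPred_eq, Ideal.dvd_iff_le, ← hQ]
  apply Ideal.comap_mono
  rw [Ideal.span_le]
  rintro _ rfl
  exact hδQ

theorem finite_ramified (F : IntermediateField K Ω) [NumberField F] :
    {v : HeightOneSpectrum (𝓞 K) | ∃ Q : Ideal (𝓞 Ω), Q.under (𝓞 K) = v.asIdeal ∧
      ¬ Q.inertia (Ω ≃ₐ[K] Ω) ≤ F.fixingSubgroup}.Finite := by
  obtain ⟨ι, hι, β, hβ⟩ := exists_ne F
  have hfin : (⋃ i, ⋃ y ∈ {y | y ∈ Set.range (fun τ : Ω ≃ₐ[K] Ω => τ • β i) ∧ y ≠ β i},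
      {v : HeightOneSpectrum (𝓞 K) | ∃ Q : Ideal (𝓞 Ω), Q.under (𝓞 K) = v.asIdeal ∧
        y - β i ∈ Q}).Finite := by
    refine Set.finite_iUnion fun i => ?_
    refine Set.Finite.biUnion ((finite_orbit (β i)).subset fun y hy => hy.1) fun y hy => ?_
    exact finite_under _ (sub_ne_zero.2 hy.2)
  refine hfin.subset ?_
  rintro v ⟨Q, hQv, hQ⟩
  obtain ⟨τ, hτ, hτF⟩ := SetLike.not_le_iff_exists.1 hQ
  have h1 : ∃ i, τ • β i ≠ β i := by
    by_contra hcon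
    push Not at hcon
    exact hτF (hβ τ hcon)
  obtain ⟨i, hi⟩ := h1
  rw [Set.mem_iUnion]
  refine ⟨i, ?_⟩
  rw [Set.mem_iUnion₂]
  exact ⟨τ • β i, ⟨⟨τ, rfl⟩, hi⟩, Q, hQv, hτ (β i)⟩

end Ramified

section Core

variable {K : Type} [Field K] [NumberField K] {Ω : Type} [Field Ω] [Algebra K Ω] [IsAlgClosed Ω]
  [Algebra.IsAlgebraic K Ω]

theorem core (two_primes : ∀ (σ : Ω ≃ₐ[K] Ω) (Q Q' : Ideal (𝓞 Ω)), Q.IsPrime → Q'.IsPrime →
      Q ≠ ⊥ → Q' ≠ ⊥ → Q ≠ Q' → σ ∈ MulAction.stabilizer (Ω ≃ₐ[K] Ω) Q →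
      σ ∈ MulAction.stabilizer (Ω ≃ₐ[K] Ω) Q' → σ = 1) (F : IntermediateField K Ω) [NumberField F] [Normal K F]
    (T : Set (HeightOneSpectrum (𝓞 K))) (hT : T.Finite) (σ : Ω ≃ₐ[K] Ω)
    (h : ∀ (L : IntermediateField K Ω) [NumberField L], σ ∈ L.fixingSubgroup →
      ¬ (NumberField.IsTotallyComplex L ∧ LocTriv F T L)) : IsConj σ ∨ IsLocal F T σ := by
  classical
  have hgal : IsGalois K Ω := Frob.isGalois
  by_contra hcon
  push Not at hcon
  obtain ⟨hconj, hloc⟩ := hcon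
  -- a totally complex field
  have hL0 : ∃ (L : IntermediateField K Ω) (_ : NumberField L), σ ∈ L.fixingSubgroup ∧
      NumberField.IsTotallyComplex L := by
    by_contra hno
    push Not at hno
    exact hconj (bad_is_conj σ fun L hL hσL => hno L hL hσL)
  obtain ⟨L0, hL0n, hσL0, hL0c⟩ := hL0
  -- the closed subgroup
  set H : Subgroup (Ω ≃ₐ[K] Ω) := (Subgroup.zpowers σ).topologicalClosure with hH
  have hHc : IsClosed (H : Set (Ω ≃ₐ[K] Ω)) := Subgroup.isClosed_topologicalClosure _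
  have hσH : σ ∈ H := Subgroup.le_topologicalClosure _ (Subgroup.mem_zpowers σ)
  have hcomm : ∀ τ ∈ H, σ * τ = τ * σ := by
    have h2 : H ≤ Subgroup.centralizer {σ} := by
      apply Subgroup.topologicalClosure_minimal
      · rw [Subgroup.zpowers_le, Subgroup.mem_centralizer_iff]
        rintro _ rfl
        rfl
      · exact Set.isClosed_centralizer _
    intro τ hτ
    have h3 := h2 hτ
    rw [Subgroup.mem_centralizer_iff] at h3
    exact h3 σ rfl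
  have hFn : F.fixingSubgroup.Normal := by
    rw [← IntermediateField.restrictNormalHom_ker]
    exact MonoidHom.normal_ker _
  have hK0 : FiniteDimensional K F := Module.Finite.of_restrictScalars_finite ℚ K F
  -- the claim
  have hclaim : ∀ Q : Ideal (𝓞 Ω), Q.IsPrime → Q ≠ ⊥ → ∀ τ ∈ H,
      (τ ∈ Q.inertia (Ω ≃ₐ[K] Ω) ∨ (τ ∈ MulAction.stabilizer (Ω ≃ₐ[K] Ω) Q ∧
        ∃ v ∈ T, Q.under (𝓞 K) = v.asIdeal)) → τ ∈ F.fixingSubgroup := by
    intro Q hQ hQ0 τ hτ hcase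
    by_contra hτF
    have hτ1 : τ ≠ 1 := by
      rintro rfl
      exact hτF (one_mem _)
    have hτs : τ ∈ MulAction.stabilizer (Ω ≃ₐ[K] Ω) Q := by
      rcases hcase with h1 | h1
      · exact Ideal.inertia_le_stabilizer Q h1
      · exact h1.1
    have hτs' : τ ∈ MulAction.stabilizer (Ω ≃ₐ[K] Ω) (σ • Q) := by
      rw [MulAction.mem_stabilizer_iff] at hτs ⊢
      rw [← mul_smul, ← hcomm τ hτ, mul_smul, hτs]
    have hσs : σ ∈ MulAction.stabilizer (Ω ≃ₐ[K] Ω) Q := by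
      by_contra hne
      refine hτ1 (two_primes τ Q (σ • Q) hQ inferInstance hQ0 (smul_ne_bot σ Q hQ0) ?_ hτs hτs')
      intro h1
      exact hne h1.symm
    refine hloc ⟨Q, hQ, hQ0, hσs, ?_⟩
    rcases hcase with h1 | h1
    · exact Or.inl fun hle => hτF (hle h1)
    · exact Or.inr h1.2
  -- the finite set of places
  set R : Set (HeightOneSpectrum (𝓞 K)) :=
    {v : HeightOneSpectrum (𝓞 K) | ∃ Q : Ideal (𝓞 Ω), Q.under (𝓞 K) = v.asIdeal ∧
      ¬ Q.inertia (Ω ≃ₐ[K] Ω) ≤ F.fixingSubgroup} with hR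
  have hSfin : (T ∪ R).Finite := hT.union (finite_ramified F)
  choose Qv hQp hQu using fun v : HeightOneSpectrum (𝓞 K) => exists_over (Ω := Ω) v
  set Z : HeightOneSpectrum (𝓞 K) → Set (Ω ≃ₐ[K] Ω) := fun v =>
    {τ | τ ∈ (Qv v).inertia (Ω ≃ₐ[K] Ω)} ∪
      {τ | τ ∈ MulAction.stabilizer (Ω ≃ₐ[K] Ω) (Qv v) ∧ v ∈ T} with hZ
  have hZc : ∀ v, IsClosed (Z v) := by
    intro v
    refine (isClosed_inertia (Qv v)).union ?_
    by_cases hv : v ∈ T
    · simp only [hv, and_true]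
      exact isClosed_stab (Qv v)
    · simp only [hv, and_false]
      exact isClosed_empty
  set C : HeightOneSpectrum (𝓞 K) → Set (Ω ≃ₐ[K] Ω) := fun v =>
    (fun p : (Ω ≃ₐ[K] Ω) × (Ω ≃ₐ[K] Ω) => p.1 * p.2 * p.1⁻¹) ''
      (Set.univ ×ˢ (Z v ∩ {τ | τ ∉ F.fixingSubgroup})) with hC
  have hCc : ∀ v, IsCompact (C v) := by
    intro v
    refine IsCompact.image ?_ (by fun_prop)
    refine IsClosed.isCompact (isClosed_univ.prod ((hZc v).inter ?_))
    exact (IntermediateField.fixingSubgroup_isOpen F).isClosed_compl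
  have hQ0 : ∀ v, Qv v ≠ ⊥ := by
    intro v h0
    apply v.ne_bot
    rw [← hQu v, h0]
    exact (RingHom.injective_iff_ker_eq_bot _).1 (FaithfulSMul.algebraMap_injective (𝓞 K) (𝓞 Ω))
  have hCH : ∀ x ∈ ⋃ v ∈ (T ∪ R), C v, x ∉ H := by
    intro x hx hxH
    rw [Set.mem_iUnion₂] at hx
    obtain ⟨v, hv, ⟨g, τ⟩, ⟨-, hτZ, hτF⟩, rfl⟩ := hx
    apply hτF
    have h1 : g * τ * g⁻¹ ∈ F.fixingSubgroup := by
      refine hclaim (g • Qv v) inferInstance (smul_ne_bot g _ (hQ0 v)) _ hxH ?_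
      have hconjI : τ ∈ (Qv v).inertia (Ω ≃ₐ[K] Ω) →
          g * τ * g⁻¹ ∈ (g • Qv v).inertia (Ω ≃ₐ[K] Ω) := by
        intro h2
        have h3 := conj_inertia g⁻¹ τ (g • Qv v) (by rw [inv_smul_smul]; exact h2)
        rwa [inv_inv] at h3
      have hconjS : τ ∈ MulAction.stabilizer (Ω ≃ₐ[K] Ω) (Qv v) →
          g * τ * g⁻¹ ∈ MulAction.stabilizer (Ω ≃ₐ[K] Ω) (g • Qv v) := by
        intro h2
        have h3 := conj_stab g⁻¹ τ (g • Qv v) (by rw [inv_smul_smul]; exact h2)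
        rwa [inv_inv] at h3
      rcases hτZ with h2 | h2
      · exact Or.inl (hconjI h2)
      · exact Or.inr ⟨hconjS h2.1, v, h2.2, by rw [under_smul, hQu]⟩
    have h2 := hFn.conj_mem _ h1 g⁻¹
    have h3 : g⁻¹ * (g * τ * g⁻¹) * g⁻¹⁻¹ = τ := by group
    rwa [h3] at h2
  obtain ⟨U, hUo, hHU, hUC⟩ := exists_open_subgroup H hHc (⋃ v ∈ (T ∪ R), C v)
    (hSfin.isCompact_biUnion fun v _ => hCc v) hCH
  have hfdL0 : FiniteDimensional K L0 := Module.Finite.of_restrictScalars_finite ℚ K L0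
  set W : Subgroup (Ω ≃ₐ[K] Ω) := U ⊓ L0.fixingSubgroup with hW
  have hWo : IsOpen (W : Set (Ω ≃ₐ[K] Ω)) := by
    rw [hW, Subgroup.coe_inf]
    exact hUo.inter (IntermediateField.fixingSubgroup_isOpen L0)
  have hWfix : (IntermediateField.fixedField W).fixingSubgroup = W :=
    InfiniteGalois.fixingSubgroup_fixedField ⟨W, Subgroup.isClosed_of_isOpen W hWo⟩
  have hfd : FiniteDimensional K (IntermediateField.fixedField W) := by
    rw [← InfiniteGalois.isOpen_iff_finite, hWfix]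
    exact hWo
  have hnf : NumberField (IntermediateField.fixedField W) :=
    BadConj.numberField_of_fin _ hfd
  refine h (IntermediateField.fixedField W) ?_ ⟨?_, ?_⟩
  · rw [hWfix]
    exact ⟨hHU hσH, hσL0⟩
  · have hle : L0 ≤ IntermediateField.fixedField W := by
      rw [IntermediateField.le_iff_le]
      exact inf_le_right
    let _ : Algebra L0 (IntermediateField.fixedField W) :=
      (IntermediateField.inclusion hle).toRingHom.toAlgebra
    exact NumberField.isTotallyComplex_of_algebra L0 _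
  · intro Q hQ hQ0' τ hτ hcase
    rw [hWfix] at hτ
    by_contra hτF
    have hu0 : Q.under (𝓞 K) ≠ ⊥ := by
      have hint : Algebra.IsIntegral (𝓞 K) (𝓞 Ω) := ⟨fun x => by
        have h1 : IsIntegral ℤ x := NumberField.RingOfIntegers.isIntegral x
        exact h1.tower_top⟩
      obtain ⟨x, hx, hx0⟩ := Submodule.exists_mem_ne_zero_of_ne_bot hQ0'
      exact Ideal.comap_ne_bot_of_integral_mem hx0 hx (hint.isIntegral x)
    let v : HeightOneSpectrum (𝓞 K) := ⟨Q.under (𝓞 K), inferInstance, hu0⟩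
    have hvS : v ∈ T ∪ R := by
      rcases hcase with h1 | ⟨h1, v', hv', h2⟩
      · exact Or.inr ⟨Q, rfl, fun hle => hτF (hle h1)⟩
      · left
        have : v = v' := HeightOneSpectrum.ext h2
        rw [this]
        exact hv'
    obtain ⟨g, hg⟩ := exists_smul_eq (K := K) (Qv v) Q (hQp v) hQ (hQu v)
    apply hUC τ ?_ hτ.1
    rw [Set.mem_iUnion₂]
    refine ⟨v, hvS, ⟨g, g⁻¹ * τ * g⟩, ⟨trivial, ?_, ?_⟩, by group⟩
    · rw [← hg] at hcase
      rcases hcase with h1 | ⟨h1, v', hv', h2⟩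
      · exact Or.inl (conj_inertia g τ (Qv v) h1)
      · refine Or.inr ⟨conj_stab g τ (Qv v) h1, ?_⟩
        have : v = v' := by
          apply HeightOneSpectrum.ext
          rw [← h2, under_smul, hQu]
        rw [this]
        exact hv'
    · intro h1
      apply hτF
      have h2 := hFn.conj_mem _ h1 g
      have h3 : g * (g⁻¹ * τ * g) * g⁻¹ = τ := by group
      rwa [h3] at h2

end Core

end BadLocal

end Pool.BK
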