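import Pool.Agent.Helper95.BK.Defs5
import Pool.Agent.BK.BadLocalCore

/-!
The fine form of the classification of the exceptional elements (the proof is that of the file
BadLocalCore, by helper85).
-/

set_option autoImplicit false

open scoped Pointwise NumberField Topology
open Polynomial IsDedekindDomain

namespace Pool.BK

namespace BadLocalFine

section Core

variable {K : Type} [Field K] [NumberField K] {Ω : Type} [Field Ω] [Algebra K Ω] [IsAlgClosed Ω]
  [Algebra.IsAlgebraic K Ω]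

open BadLocal in
theorem core (two_primes : ∀ (σ : Ω ≃ₐ[K] Ω) (Q Q' : Ideal (𝓞 Ω)), Q.IsPrime → Q'.IsPrime →
      Q ≠ ⊥ → Q' ≠ ⊥ → Q ≠ Q' → σ ∈ MulAction.stabilizer (Ω ≃ₐ[K] Ω) Q →
      σ ∈ MulAction.stabilizer (Ω ≃ₐ[K] Ω) Q' → σ = 1) (F : IntermediateField K Ω) [NumberField F] [Normal K F]
    (T : Set (HeightOneSpectrum (𝓞 K))) (hT : T.Finite) (σ : Ω ≃ₐ[K] Ω)
    (h : ∀ (L : IntermediateField K Ω) [NumberField L], σ ∈ L.fixingSubgroup →
      ¬ (NumberField.IsTotallyComplex L ∧ LocTriv F T L)) : IsConj σ ∨ IsLoc F T σ := by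
  classical
  have hgal : IsGalois K Ω := Frob.isGalois
  by_contra hcon
  push Not at hcon
  obtain ⟨hconj, hloc⟩ := hcon
  -- a totally complex field
  have hL0 : ∃ (L : IntermediateField K Ω) (_ : NumberField L), σ ∈ L.fixingSubgroup ∧
      NumberField.IsTotallyComplex L := by
    by_contra hno
    push Not at hno
    exact hconj (bad_is_conj σ fun L hL hσL => hno L hL hσL)
  obtain ⟨L0, hL0n, hσL0, hL0c⟩ := hL0
  -- the closed subgroup
  set H : Subgroup (Ω ≃ₐ[K] Ω) := (Subgroup.zpowers σ).topologicalClosure with hH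
  have hHc : IsClosed (H : Set (Ω ≃ₐ[K] Ω)) := Subgroup.isClosed_topologicalClosure _
  have hσH : σ ∈ H := Subgroup.le_topologicalClosure _ (Subgroup.mem_zpowers σ)
  have hcomm : ∀ τ ∈ H, σ * τ = τ * σ := by
    have h2 : H ≤ Subgroup.centralizer {σ} := by
      apply Subgroup.topologicalClosure_minimal
      · rw [Subgroup.zpowers_le, Subgroup.mem_centralizer_iff]
        rintro _ rfl
        rfl
      · exact Set.isClosed_centralizer _
    intro τ hτ
    have h3 := h2 hτ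
    rw [Subgroup.mem_centralizer_iff] at h3
    exact h3 σ rfl
  have hFn : F.fixingSubgroup.Normal := by
    rw [← IntermediateField.restrictNormalHom_ker]
    exact MonoidHom.normal_ker _
  have hK0 : FiniteDimensional K F := Module.Finite.of_restrictScalars_finite ℚ K F
  -- the claim
  have hclaim : ∀ Q : Ideal (𝓞 Ω), Q.IsPrime → Q ≠ ⊥ → ∀ τ ∈ H,
      (τ ∈ Q.inertia (Ω ≃ₐ[K] Ω) ∨ (τ ∈ MulAction.stabilizer (Ω ≃ₐ[K] Ω) Q ∧
        ∃ v ∈ T, Q.under (𝓞 K) = v.asIdeal)) → τ ∈ F.fixingSubgroup := by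
    intro Q hQ hQ0 τ hτ hcase
    by_contra hτF
    have hτ1 : τ ≠ 1 := by
      rintro rfl
      exact hτF (one_mem _)
    have hτs : τ ∈ MulAction.stabilizer (Ω ≃ₐ[K] Ω) Q := by
      rcases hcase with h1 | h1
      · exact Ideal.inertia_le_stabilizer Q h1
      · exact h1.1
    have hτs' : τ ∈ MulAction.stabilizer (Ω ≃ₐ[K] Ω) (σ • Q) := by
      rw [MulAction.mem_stabilizer_iff] at hτs ⊢
      rw [← mul_smul, ← hcomm τ hτ, mul_smul, hτs]
    have hσs : σ ∈ MulAction.stabilizer (Ω ≃ₐ[K] Ω) Q := by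
      by_contra hne
      refine hτ1 (two_primes τ Q (σ • Q) hQ inferInstance hQ0 (smul_ne_bot σ Q hQ0) ?_ hτs hτs')
      intro h1
      exact hne h1.symm
    refine hloc ⟨Q, hQ, hQ0, hσs, ?_⟩
    rcases hcase with h1 | h1
    · exact Or.inl ⟨τ, hτ, h1, hτF⟩
    · refine Or.inr ⟨fun hσF => hτF ?_, h1.2⟩
      have h3 : H ≤ F.fixingSubgroup := Subgroup.topologicalClosure_minimal _
        ((Subgroup.zpowers_le).2 hσF) (IntermediateField.fixingSubgroup_isClosed F)
      exact h3 hτ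
  -- the finite set of places
  set R : Set (HeightOneSpectrum (𝓞 K)) :=
    {v : HeightOneSpectrum (𝓞 K) | ∃ Q : Ideal (𝓞 Ω), Q.under (𝓞 K) = v.asIdeal ∧
      ¬ Q.inertia (Ω ≃ₐ[K] Ω) ≤ F.fixingSubgroup} with hR
  have hSfin : (T ∪ R).Finite := hT.union (finite_ramified F)
  choose Qv hQp hQu using fun v : HeightOneSpectrum (𝓞 K) => exists_over (Ω := Ω) v
  set Z : HeightOneSpectrum (𝓞 K) → Set (Ω ≃ₐ[K] Ω) := fun v =>
    {τ | τ ∈ (Qv v).inertia (Ω ≃ₐ[K] Ω)} ∪
      {τ | τ ∈ MulAction.stabilizer (Ω ≃ₐ[K] Ω) (Qv v) ∧ v ∈ T} with hZ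
  have hZc : ∀ v, IsClosed (Z v) := by
    intro v
    refine (isClosed_inertia (Qv v)).union ?_
    by_cases hv : v ∈ T
    · simp only [hv, and_true]
      exact isClosed_stab (Qv v)
    · simp only [hv, and_false]
      exact isClosed_empty
  set C : HeightOneSpectrum (𝓞 K) → Set (Ω ≃ₐ[K] Ω) := fun v =>
    (fun p : (Ω ≃ₐ[K] Ω) × (Ω ≃ₐ[K] Ω) => p.1 * p.2 * p.1⁻¹) ''
      (Set.univ ×ˢ (Z v ∩ {τ | τ ∉ F.fixingSubgroup})) with hC
  have hCc : ∀ v, IsCompact (C v) := by
    intro v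
    refine IsCompact.image ?_ (by fun_prop)
    refine IsClosed.isCompact (isClosed_univ.prod ((hZc v).inter ?_))
    exact (IntermediateField.fixingSubgroup_isOpen F).isClosed_compl
  have hQ0 : ∀ v, Qv v ≠ ⊥ := by
    intro v h0
    apply v.ne_bot
    rw [← hQu v, h0]
    exact (RingHom.injective_iff_ker_eq_bot _).1 (FaithfulSMul.algebraMap_injective (𝓞 K) (𝓞 Ω))
  have hCH : ∀ x ∈ ⋃ v ∈ (T ∪ R), C v, x ∉ H := by
    intro x hx hxH
    rw [Set.mem_iUnion₂] at hx
    obtain ⟨v, hv, ⟨g, τ⟩, ⟨-, hτZ, hτF⟩, rfl⟩ := hx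
    apply hτF
    have h1 : g * τ * g⁻¹ ∈ F.fixingSubgroup := by
      refine hclaim (g • Qv v) inferInstance (smul_ne_bot g _ (hQ0 v)) _ hxH ?_
      have hconjI : τ ∈ (Qv v).inertia (Ω ≃ₐ[K] Ω) →
          g * τ * g⁻¹ ∈ (g • Qv v).inertia (Ω ≃ₐ[K] Ω) := by
        intro h2
        have h3 := conj_inertia g⁻¹ τ (g • Qv v) (by rw [inv_smul_smul]; exact h2)
        rwa [inv_inv] at h3
      have hconjS : τ ∈ MulAction.stabilizer (Ω ≃ₐ[K] Ω) (Qv v) →
          g * τ * g⁻¹ ∈ MulAction.stabilizer (Ω ≃ₐ[K] Ω) (g • Qv v) := by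
        intro h2
        have h3 := conj_stab g⁻¹ τ (g • Qv v) (by rw [inv_smul_smul]; exact h2)
        rwa [inv_inv] at h3
      rcases hτZ with h2 | h2
      · exact Or.inl (hconjI h2)
      · exact Or.inr ⟨hconjS h2.1, v, h2.2, by rw [under_smul, hQu]⟩
    have h2 := hFn.conj_mem _ h1 g⁻¹
    have h3 : g⁻¹ * (g * τ * g⁻¹) * g⁻¹⁻¹ = τ := by group
    rwa [h3] at h2
  obtain ⟨U, hUo, hHU, hUC⟩ := exists_open_subgroup H hHc (⋃ v ∈ (T ∪ R), C v)
    (hSfin.isCompact_biUnion fun v _ => hCc v) hCH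
  have hfdL0 : FiniteDimensional K L0 := Module.Finite.of_restrictScalars_finite ℚ K L0
  set W : Subgroup (Ω ≃ₐ[K] Ω) := U ⊓ L0.fixingSubgroup with hW
  have hWo : IsOpen (W : Set (Ω ≃ₐ[K] Ω)) := by
    rw [hW, Subgroup.coe_inf]
    exact hUo.inter (IntermediateField.fixingSubgroup_isOpen L0)
  have hWfix : (IntermediateField.fixedField W).fixingSubgroup = W :=
    InfiniteGalois.fixingSubgroup_fixedField ⟨W, Subgroup.isClosed_of_isOpen W hWo⟩
  have hfd : FiniteDimensional K (IntermediateField.fixedField W) := by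
    rw [← InfiniteGalois.isOpen_iff_finite, hWfix]
    exact hWo
  have hnf : NumberField (IntermediateField.fixedField W) :=
    BadConj.numberField_of_fin _ hfd
  refine h (IntermediateField.fixedField W) ?_ ⟨?_, ?_⟩
  · rw [hWfix]
    exact ⟨hHU hσH, hσL0⟩
  · have hle : L0 ≤ IntermediateField.fixedField W := by
      rw [IntermediateField.le_iff_le]
      exact inf_le_right
    let _ : Algebra L0 (IntermediateField.fixedField W) :=
      (IntermediateField.inclusion hle).toRingHom.toAlgebra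
    exact NumberField.isTotallyComplex_of_algebra L0 _
  · intro Q hQ hQ0' τ hτ hcase
    rw [hWfix] at hτ
    by_contra hτF
    have hu0 : Q.under (𝓞 K) ≠ ⊥ := by
      have hint : Algebra.IsIntegral (𝓞 K) (𝓞 Ω) := ⟨fun x => by
        have h1 : IsIntegral ℤ x := NumberField.RingOfIntegers.isIntegral x
        exact h1.tower_top⟩
      obtain ⟨x, hx, hx0⟩ := Submodule.exists_mem_ne_zero_of_ne_bot hQ0'
      exact Ideal.comap_ne_bot_of_integral_mem hx0 hx (hint.isIntegral x)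
    let v : HeightOneSpectrum (𝓞 K) := ⟨Q.under (𝓞 K), inferInstance, hu0⟩
    have hvS : v ∈ T ∪ R := by
      rcases hcase with h1 | ⟨h1, v', hv', h2⟩
      · exact Or.inr ⟨Q, rfl, fun hle => hτF (hle h1)⟩
      · left
        have : v = v' := HeightOneSpectrum.ext h2
        rw [this]
        exact hv'
    obtain ⟨g, hg⟩ := exists_smul_eq (K := K) (Qv v) Q (hQp v) hQ (hQu v)
    apply hUC τ ?_ hτ.1
    rw [Set.mem_iUnion₂]
    refine ⟨v, hvS, ⟨g, g⁻¹ * τ * g⟩, ⟨trivial, ?_, ?_⟩, by group⟩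
    · rw [← hg] at hcase
      rcases hcase with h1 | ⟨h1, v', hv', h2⟩
      · exact Or.inl (conj_inertia g τ (Qv v) h1)
      · refine Or.inr ⟨conj_stab g τ (Qv v) h1, ?_⟩
        have : v = v' := by
          apply HeightOneSpectrum.ext
          rw [← h2, under_smul, hQu]
        rw [this]
        exact hv'
    · intro h1
      apply hτF
      have h2 := hFn.conj_mem _ h1 g
      have h3 : g * (g⁻¹ * τ * g) * g⁻¹ = τ := by group
      rwa [h3] at h2

end Core

end BadLocalFine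

end Pool.BK
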