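import Pool.Agent.BK.ElemAb

/-!
The fixed field of one automorphism has finite subextensions of arbitrarily large degree.
-/

open scoped Pointwise NumberField
open Polynomial IsDedekindDomain

namespace Pool.BK

namespace BigField

variable {K : Type} [Field K] [NumberField K] {Ω : Type} [Field Ω] [Algebra K Ω] [IsAlgClosed Ω]
  [Algebra.IsAlgebraic K Ω]

/-- no automorphism of `Ω` over a number field has the number field as its fixed field -/
theorem exists_fixed (τ : Ω ≃ₐ[K] Ω) : ∃ x : Ω, τ x = x ∧ x ∉ (⊥ : IntermediateField K Ω) := by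
  classical
  by_contra hcon
  push Not at hcon
  have : CharZero Ω := charZero_of_injective_algebraMap (algebraMap K Ω).injective
  have hnorm : Normal K Ω := by
    have : IsAlgClosure K Ω := ⟨inferInstance, inferInstance⟩
    exact IsAlgClosure.normal K Ω
  have hgal : IsGalois K Ω := ⟨⟩
  obtain ⟨C, hCn, hCo, hCi, hCp⟩ := exists_quot K Ω 2
  set D : Subgroup (Ω ≃ₐ[K] Ω) := C ⊔ Subgroup.zpowers τ with hD
  have hDo : IsOpen (D : Set (Ω ≃ₐ[K] Ω)) := Subgroup.isOpen_mono le_sup_left hCo
  have hDc : IsClosed (D : Set (Ω ≃ₐ[K] Ω)) := Subgroup.isClosed_of_isOpen D hDo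
  have hfix : IntermediateField.fixedField D = ⊥ := by
    rw [eq_bot_iff]
    intro x hx
    apply hcon
    exact hx ⟨τ, (le_sup_right : Subgroup.zpowers τ ≤ D) (Subgroup.mem_zpowers τ)⟩
  have hDtop : D = ⊤ := by
    have h1 := InfiniteGalois.fixingSubgroup_fixedField (k := K) (K := Ω) ⟨D, hDc⟩
    have h2 : IntermediateField.fixedField ((⟨D, hDc⟩ : ClosedSubgroup (Ω ≃ₐ[K] Ω)) :
      Subgroup (Ω ≃ₐ[K] Ω)) = ⊥ := hfix
    rw [h2, IntermediateField.fixingSubgroup_bot] at h1
    exact h1.symm
  have hcyc : ∀ y : (Ω ≃ₐ[K] Ω) ⧸ C, y ∈ Subgroup.zpowers (QuotientGroup.mk' C τ) := by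
    intro y
    obtain ⟨g, rfl⟩ := QuotientGroup.mk'_surjective C y
    have hg : g ∈ C ⊔ Subgroup.zpowers τ := by rw [← hD, hDtop]; trivial
    obtain ⟨c, hc, z, hz, rfl⟩ := Subgroup.mem_sup_of_normal_left.1 hg
    obtain ⟨k, rfl⟩ := Subgroup.mem_zpowers_iff.1 hz
    rw [map_mul, map_zpow]
    have : QuotientGroup.mk' C c = 1 := (QuotientGroup.eq_one_iff c).2 hc
    rw [this, one_mul]
    exact Subgroup.zpow_mem_zpowers _ k
  have hcard : Nat.card ((Ω ≃ₐ[K] Ω) ⧸ C) = orderOf (QuotientGroup.mk' C τ) := by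
    rw [← Nat.card_zpowers]
    have : Subgroup.zpowers (QuotientGroup.mk' C τ) = ⊤ := by
      rw [eq_top_iff]
      intro y _
      exact hcyc y
    rw [this, Subgroup.card_top]
  have hord : orderOf (QuotientGroup.mk' C τ) ≤ 2 := by
    apply orderOf_le_of_pow_eq_one (by norm_num)
    rw [← map_pow]
    exact (QuotientGroup.eq_one_iff _).2 (hCp τ)
  have : C.index = Nat.card ((Ω ≃ₐ[K] Ω) ⧸ C) := rfl
  omega

end BigField

section Main

variable (K : Type) [Field K] [NumberField K] (Ω : Type) [Field Ω] [Algebra K Ω] [IsAlgClosed Ω]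
  [Algebra.IsAlgebraic K Ω]

theorem exists_big (L : IntermediateField K Ω) [NumberField L] (σ : Ω ≃ₐ[K] Ω)
    (hσ : σ ∈ L.fixingSubgroup) (N : ℕ) : ∃ (L' : IntermediateField K Ω) (_ : NumberField L'),
      L ≤ L' ∧ σ ∈ L'.fixingSubgroup ∧ N ≤ Module.finrank K L' := by
  induction N with
  | zero => exact ⟨L, inferInstance, le_rfl, hσ, Nat.zero_le _⟩
  | succ N ih =>
    obtain ⟨L', hL', hLL', hσ', hN⟩ := ih
    have hfd : FiniteDimensional K L' := FiniteDimensional.right ℚ K L'
    let τ : Ω ≃ₐ[L'] Ω := IntermediateField.fixingSubgroupEquiv L' ⟨σ, hσ'⟩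
    obtain ⟨x, hx, hxL⟩ := BigField.exists_fixed (K := L') τ
    have hx' : σ x = x := hx
    have hint : IsIntegral K x := Algebra.IsIntegral.isIntegral x
    have hfx : FiniteDimensional K (IntermediateField.adjoin K {x}) :=
      IntermediateField.adjoin.finiteDimensional hint
    let M : IntermediateField K Ω := L' ⊔ IntermediateField.adjoin K {x}
    have hM : FiniteDimensional K M := IntermediateField.finiteDimensional_sup _ _
    refine ⟨M, NumberField.of_module_finite K M, hLL'.trans le_sup_left, ?_, ?_⟩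
    · have h1 : M ≤ IntermediateField.fixedField (Subgroup.zpowers σ) := by
        apply sup_le
        · rw [IntermediateField.le_iff_le]
          rw [Subgroup.zpowers_le]
          exact hσ'
        · rw [IntermediateField.adjoin_le_iff, Set.singleton_subset_iff]
          rintro ⟨g, hg⟩
          obtain ⟨k, rfl⟩ := Subgroup.mem_zpowers_iff.1 hg
          have h2 : σ ∈ MulAction.stabilizer (Ω ≃ₐ[K] Ω) x := hx'
          exact (Subgroup.zpow_mem _ h2 k : _)
      rw [IntermediateField.le_iff_le, Subgroup.zpowers_le] at h1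
      exact h1
    · have hlt : L' < M := by
        refine lt_of_le_of_ne le_sup_left fun h => hxL ?_
        have hxM : x ∈ M := (le_sup_right : IntermediateField.adjoin K {x} ≤ M)
          (IntermediateField.mem_adjoin_simple_self K x)
        rw [← h] at hxM
        exact IntermediateField.mem_bot.2 ⟨⟨x, hxM⟩, rfl⟩
      have h3 : L'.toSubalgebra.toSubmodule < M.toSubalgebra.toSubmodule := hlt
      have h4 : Module.finrank K L'.toSubalgebra.toSubmodule <
          Module.finrank K M.toSubalgebra.toSubmodule := by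
        have : FiniteDimensional K M.toSubalgebra.toSubmodule := hM
        exact Submodule.finrank_lt_finrank_of_lt h3
      have h5 : Module.finrank K L' < Module.finrank K M := h4
      omega


/-- one step of the divisibility form -/
theorem exists_big_step (L : IntermediateField K Ω) [NumberField L] (σ : Ω ≃ₐ[K] Ω)
    (hσ : σ ∈ L.fixingSubgroup) (q : ℕ) (hq : q.Prime) :
    ∃ (L' : IntermediateField K Ω) (_ : NumberField L'),
      L ≤ L' ∧ σ ∈ L'.fixingSubgroup ∧ q * Module.finrank K L ∣ Module.finrank K L' := by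
  classical
  have hqf : Fact q.Prime := ⟨hq⟩
  have hfd : FiniteDimensional K L := FiniteDimensional.right ℚ K L
  have hCZ : CharZero Ω := charZero_of_injective_algebraMap (algebraMap K Ω).injective
  have hnorm : Normal L Ω := by
    have : IsAlgClosure L Ω := ⟨inferInstance, inferInstance⟩
    exact IsAlgClosure.normal L Ω
  have hgal : IsGalois L Ω := ⟨⟩
  let τ : Ω ≃ₐ[L] Ω := IntermediateField.fixingSubgroupEquiv L ⟨σ, hσ⟩
  obtain ⟨C, hCn, hCo, hCi, hCp⟩ := exists_quot L Ω q
  set D : Subgroup (Ω ≃ₐ[L] Ω) := C ⊔ Subgroup.zpowers τ with hD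
  have hCD : C ≤ D := le_sup_left
  have hDo : IsOpen (D : Set (Ω ≃ₐ[L] Ω)) := Subgroup.isOpen_mono hCD hCo
  have hDc : IsClosed (D : Set (Ω ≃ₐ[L] Ω)) := Subgroup.isClosed_of_isOpen D hDo
  -- index of `D`
  have hrel : C.relIndex D ≤ q := by
    have h1 : C.relIndex D = C.relIndex (Subgroup.zpowers τ) := by
      rw [hD, sup_comm, Subgroup.relIndex_sup_right]
    have h2 : (C.subgroupOf (Subgroup.zpowers τ)).index = Nat.card (Subgroup.zpowers
        (QuotientGroup.mk' C τ)) := by
      have h3 : Subgroup.zpowers (QuotientGroup.mk' C τ) =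
          ((QuotientGroup.mk' C).comp (Subgroup.zpowers τ).subtype).range := by
        rw [MonoidHom.range_comp, Subgroup.range_subtype, MonoidHom.map_zpowers]
      rw [h3, ← Subgroup.index_ker]
      congr 1
      ext x
      rw [MonoidHom.mem_ker, Subgroup.mem_subgroupOf]
      exact (QuotientGroup.eq_one_iff _).symm
    rw [h1]
    change (C.subgroupOf (Subgroup.zpowers τ)).index ≤ q
    rw [h2, Nat.card_zpowers]
    apply orderOf_le_of_pow_eq_one hq.pos
    rw [← map_pow]
    exact (QuotientGroup.eq_one_iff _).2 (hCp τ)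
  have hmul : C.relIndex D * D.index = q ^ 2 := by
    rw [← hCi]
    exact Subgroup.relIndex_mul_index hCD
  have hdvd : q ∣ D.index := by
    have h1 : D.index ∣ q ^ 2 := ⟨C.relIndex D, by rw [← hmul, mul_comm]⟩
    obtain ⟨k, hk, hk'⟩ := (Nat.dvd_prime_pow hq).1 h1
    rcases Nat.eq_zero_or_pos k with h0 | h0
    · exfalso
      rw [h0, pow_zero] at hk'
      rw [hk', mul_one] at hmul
      have h2 : q < q ^ 2 := by
        rw [pow_two]
        exact (Nat.lt_mul_iff_one_lt_left hq.pos).2 hq.one_lt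
      omega
    · rw [hk']
      exact dvd_pow_self q h0.ne'
  -- the field
  let F : IntermediateField L Ω := IntermediateField.fixedField D
  have hF1 : F.fixingSubgroup = D :=
    InfiniteGalois.fixingSubgroup_fixedField (k := L) (K := Ω) ⟨D, hDc⟩
  have hF2 : Module.finrank L F = D.index := by
    rw [IntermediateField.finrank_eq_fixingSubgroup_index, hF1]
  have hFpos : 0 < Module.finrank L F := by
    rw [hF2]
    rcases Nat.eq_zero_or_pos D.index with h0 | h0
    · rw [h0, mul_zero] at hmul
      exact absurd hmul.symm (pow_pos hq.pos 2).ne'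
    · exact h0
  have hFfd : FiniteDimensional L F := FiniteDimensional.of_finrank_pos hFpos
  let M : IntermediateField K Ω := F.restrictScalars K
  have hFK : FiniteDimensional K F := FiniteDimensional.trans K L F
  have hMfd : FiniteDimensional K M := hFK
  refine ⟨M, NumberField.of_module_finite K M, ?_, ?_, ?_⟩
  · intro x hx
    exact F.algebraMap_mem ⟨x, hx⟩
  · rw [IntermediateField.mem_fixingSubgroup_iff]
    intro x hx
    have hτD : τ ∈ F.fixingSubgroup := by
      rw [hF1]
      exact (le_sup_right : Subgroup.zpowers τ ≤ D) (Subgroup.mem_zpowers τ)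
    exact (IntermediateField.mem_fixingSubgroup_iff F τ).1 hτD x hx
  · have h1 : Module.finrank K M = Module.finrank K L * Module.finrank L F :=
      (Module.finrank_mul_finrank K L F).symm
    rw [h1, mul_comm q]
    rw [hF2]
    exact Nat.mul_dvd_mul_left _ hdvd

/-- multiplicative form -/
theorem exists_big_mul (N : ℕ) (hN : 0 < N) : ∀ (L : IntermediateField K Ω) [NumberField L]
    (σ : Ω ≃ₐ[K] Ω) (_ : σ ∈ L.fixingSubgroup),
    ∃ (L' : IntermediateField K Ω) (_ : NumberField L'),
      L ≤ L' ∧ σ ∈ L'.fixingSubgroup ∧ N * Module.finrank K L ∣ Module.finrank K L' := by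
  induction N using Nat.recOnMul with
  | zero => exact absurd hN (lt_irrefl 0)
  | one =>
    intro L _ σ hσ
    exact ⟨L, inferInstance, le_rfl, hσ, by rw [one_mul]⟩
  | prime p hp =>
    intro L _ σ hσ
    exact exists_big_step K Ω L σ hσ p hp
  | mul a b iha ihb =>
    intro L _ σ hσ
    have ha : 0 < a := Nat.pos_of_ne_zero fun h => by simp [h] at hN
    have hb : 0 < b := Nat.pos_of_ne_zero fun h => by simp [h] at hN
    obtain ⟨L₁, h₁, hle₁, hσ₁, hd₁⟩ := iha ha L σ hσ
    obtain ⟨L₂, h₂, hle₂, hσ₂, hd₂⟩ := ihb hb L₁ σ hσ₁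
    refine ⟨L₂, h₂, hle₁.trans hle₂, hσ₂, ?_⟩
    have h3 : a * b * Module.finrank K L ∣ b * Module.finrank K L₁ := by
      have h4 : a * b * Module.finrank K L = b * (a * Module.finrank K L) := by ring
      rw [h4]
      exact Nat.mul_dvd_mul_left _ hd₁
    exact h3.trans hd₂

/-- divisibility form of `exists_big` -/
theorem exists_big_dvd (L : IntermediateField K Ω) [NumberField L] (σ : Ω ≃ₐ[K] Ω)
    (hσ : σ ∈ L.fixingSubgroup) (N : ℕ) (hN : 0 < N) :
    ∃ (L' : IntermediateField K Ω) (_ : NumberField L'),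
      L ≤ L' ∧ σ ∈ L'.fixingSubgroup ∧ N ∣ Module.finrank K L' := by
  obtain ⟨L', h', h1, h2, h3⟩ := exists_big_mul K Ω N hN L σ hσ
  exact ⟨L', h', h1, h2, (Dvd.intro _ rfl).trans h3⟩

end Main

end Pool.BK
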