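import Pool.Agent.Helper95.BK.Public
import Pool.Agent.BK.LocalTrace

/-!
Equivalence of the short form of the definitions with the one used in the proofs.
-/

open scoped Pointwise NumberField
open Polynomial IsDedekindDomain

namespace Pool.BK

namespace Bridge

section Linear

variable {F : Type} [Field F] {W : Type} [AddCommGroup W] [Module F W]

theorem mem_submoduleOf (S R : Submodule F W) (x : S) : x ∈ R.submoduleOf S ↔ (x : W) ∈ R :=
  Iff.rfl

/-- The map from coordinates to the quotient. -/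
noncomputable def coord (S R : Submodule F W) {k : ℕ} (b : Fin k → W) (hb : ∀ i, b i ∈ S) :
    (Fin k → F) →ₗ[F] (S ⧸ R.submoduleOf S) :=
  ((R.submoduleOf S).mkQ).comp (Fintype.linearCombination F (fun i => (⟨b i, hb i⟩ : S)))

theorem coord_apply (S R : Submodule F W) {k : ℕ} (b : Fin k → W) (hb : ∀ i, b i ∈ S)
    (a : Fin k → F) : coord S R b hb a =
      Submodule.Quotient.mk (∑ i, a i • (⟨b i, hb i⟩ : S)) := rfl

theorem coe_sum (S : Submodule F W) {k : ℕ} (b : Fin k → W) (hb : ∀ i, b i ∈ S)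
    (a : Fin k → F) : ((∑ i, a i • (⟨b i, hb i⟩ : S) : S) : W) = ∑ i, a i • b i := by
  simp

theorem coord_bijective (S R : Submodule F W) {k : ℕ} (b : Fin k → W)
    (h : IsBasisMod F (S : Set W) (R : Set W) b) : Function.Bijective (coord S R b h.1) := by
  constructor
  · rw [← LinearMap.ker_eq_bot, LinearMap.ker_eq_bot']
    intro a ha
    rw [coord_apply, Submodule.Quotient.mk_eq_zero, mem_submoduleOf, coe_sum] at ha
    obtain ⟨x, hx, hx'⟩ := h.2 0 S.zero_mem
    have h1 : (0 : Fin k → F) = x := by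
      apply hx'
      simp
    have h2 : -a = x := by
      apply hx'
      simpa using ha
    rw [← h1] at h2
    exact neg_eq_zero.1 h2
  · intro y
    obtain ⟨w, rfl⟩ := Submodule.Quotient.mk_surjective _ y
    obtain ⟨x, hx, -⟩ := h.2 w w.2
    refine ⟨x, ?_⟩
    rw [coord_apply, Submodule.Quotient.eq, ← neg_sub, Submodule.neg_mem_iff,
      mem_submoduleOf]
    rw [AddSubgroupClass.coe_sub, coe_sum]
    exact hx

theorem isBasisMod_of_bijective (S R : Submodule F W) {k : ℕ} (b : Fin k → W)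
    (hb : ∀ i, b i ∈ S) (h : Function.Bijective (coord S R b hb)) :
    IsBasisMod F (S : Set W) (R : Set W) b := by
  refine ⟨hb, fun w hw => ?_⟩
  obtain ⟨x, hx⟩ := h.2 (Submodule.Quotient.mk ⟨w, hw⟩)
  have key : ∀ a : Fin k → F, (w - ∑ i, a i • b i ∈ R) ↔
      coord S R b hb a = Submodule.Quotient.mk ⟨w, hw⟩ := by
    intro a
    rw [coord_apply, Submodule.Quotient.eq, ← neg_sub, Submodule.neg_mem_iff,
      mem_submoduleOf, AddSubgroupClass.coe_sub, coe_sum]
  refine ⟨x, (key x).2 hx, fun a ha => h.1 ?_⟩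
  rw [(key a).1 ha, hx]

theorem finrank_of_isBasisMod (S R : Submodule F W) {k : ℕ} (b : Fin k → W)
    (h : IsBasisMod F (S : Set W) (R : Set W) b) :
    Module.Finite F (S ⧸ R.submoduleOf S) ∧ Module.finrank F (S ⧸ R.submoduleOf S) = k := by
  let e := LinearEquiv.ofBijective _ (coord_bijective S R b h)
  refine ⟨Module.Finite.equiv e, ?_⟩
  rw [← e.finrank_eq]
  simp

theorem exists_isBasisMod (S R : Submodule F W) [Module.Finite F (S ⧸ R.submoduleOf S)] :
    ∃ b : Fin (Module.finrank F (S ⧸ R.submoduleOf S)) → W,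
      IsBasisMod F (S : Set W) (R : Set W) b := by
  let B := Module.finBasis F (S ⧸ R.submoduleOf S)
  choose s hs using fun i => Submodule.Quotient.mk_surjective _ (B i)
  refine ⟨fun i => s i, isBasisMod_of_bijective S R _ (fun i => (s i).2) ?_⟩
  have : coord S R (fun i => (s i : W)) (fun i => (s i).2) = B.equivFun.symm := by
    apply LinearMap.ext
    intro a
    rw [coord_apply]
    have h1 := B.equivFun_symm_apply a
    change _ = B.equivFun.symm a
    rw [h1, ← Submodule.mkQ_apply, map_sum]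
    refine Finset.sum_congr rfl fun i _ => ?_
    rw [map_smul, Submodule.mkQ_apply]
    change a i • Submodule.Quotient.mk (s i) = _
    rw [hs]
  rw [this]
  exact B.equivFun.symm.bijective

theorem finrank_quot_bot (S : Submodule F W) :
    Module.finrank F (S ⧸ (⊥ : Submodule F W).submoduleOf S) = Module.finrank F S := by
  have h : (⊥ : Submodule F W).submoduleOf S = ⊥ := by
    ext x
    rw [mem_submoduleOf, Submodule.mem_bot, Submodule.mem_bot, ZeroMemClass.coe_eq_zero]
  rw [h]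
  exact (Submodule.quotEquivOfEqBot ⊥ rfl).finrank_eq

end Linear

section Frobenius

variable {F : Type} [Field F] {G : Type} [Group G] {n : ℕ}

theorem basis_span (ρ : G →* Matrix (Fin n) (Fin n) F) (I : Subgroup G) {k : ℕ}
    (b : Fin k → Fin n → F) (h : IsBasisMod F (Fixed ρ I) {0} b) :
    ∃ B : Module.Basis (Fin k) F (invSub ρ I), ∀ i, (B i : Fin n → F) = b i := by
  have h' : IsBasisMod F ((invSub ρ I : Submodule F (Fin n → F)) : Set (Fin n → F))
      ((⊥ : Submodule F (Fin n → F)) : Set (Fin n → F)) b := h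
  have hbij := coord_bijective (invSub ρ I) ⊥ b h'
  let v : Fin k → invSub ρ I := fun i => ⟨b i, h.1 i⟩
  have hli : LinearIndependent F v := by
    rw [Fintype.linearIndependent_iff]
    intro g hg i
    have h1 : coord (invSub ρ I) ⊥ b h'.1 g = coord (invSub ρ I) ⊥ b h'.1 0 := by
      rw [map_zero, coord_apply]
      rw [Submodule.Quotient.mk_eq_zero]
      change (∑ i, g i • v i) ∈ _
      rw [hg]
      exact Submodule.zero_mem _
    exact congrFun (hbij.1 h1) i
  have hsp : ⊤ ≤ Submodule.span F (Set.range v) := by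
    rintro w -
    obtain ⟨x, hx, -⟩ := h.2 w w.2
    have h2 : w = ∑ i, x i • v i := by
      apply Subtype.ext
      have h3 : (w : Fin n → F) - ∑ i, x i • b i = 0 := hx
      rw [coe_sum (invSub ρ I) b h.1]
      exact sub_eq_zero.1 h3
    rw [h2]
    exact Submodule.sum_mem _ fun i _ =>
      Submodule.smul_mem _ _ (Submodule.subset_span ⟨i, rfl⟩)
  exact ⟨Module.Basis.mk hli hsp, fun i => by rw [Module.Basis.mk_apply]⟩

theorem isFrobPoly_iff (ρ : G →* Matrix (Fin n) (Fin n) F) (I : Subgroup G) (g : G) (P : F[X])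
    (hst : ∀ v ∈ invSub ρ I, Matrix.toLin' (ρ g) v ∈ invSub ρ I) :
    IsFrobPoly ρ I g P ↔ (endOn ρ I g).charpoly.reverse = P := by
  have hend : ∀ w : invSub ρ I, ((endOn ρ I g w : invSub ρ I) : Fin n → F) = (ρ g).mulVec w := by
    intro w
    rw [endOn, dif_pos hst]
    rfl
  constructor
  · rintro ⟨k, b, A, hb, hA, rfl⟩
    obtain ⟨B, hB⟩ := basis_span ρ I b hb
    have h1 : LinearMap.toMatrix B B (endOn ρ I g) = A := by
      ext i j
      rw [LinearMap.toMatrix_apply]
      have h2 : endOn ρ I g (B j) = ∑ i, A i j • B i := by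
        apply Subtype.ext
        rw [hend, hB, hA j]
        simp [hB]
      rw [h2]
      simp [Finsupp.single_apply]
    rw [← LinearMap.charpoly_toMatrix (endOn ρ I g) B, h1, Matrix.reverse_charpoly]
  · rintro rfl
    have hfin : Module.Finite F ((invSub ρ I : Submodule F (Fin n → F)) ⧸
        (⊥ : Submodule F (Fin n → F)).submoduleOf (invSub ρ I)) := inferInstance
    obtain ⟨b, hb⟩ := exists_isBasisMod (invSub ρ I) (⊥ : Submodule F (Fin n → F))
    have hb' : IsBasisMod F (Fixed ρ I) {0} b := hb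
    obtain ⟨B, hB⟩ := basis_span ρ I b hb'
    refine ⟨_, b, LinearMap.toMatrix B B (endOn ρ I g), hb', fun j => ?_, ?_⟩
    · have h2 : endOn ρ I g (B j) = ∑ i, LinearMap.toMatrix B B (endOn ρ I g) i j • B i := by
        conv_lhs => rw [← B.sum_repr (endOn ρ I g (B j))]
        exact Finset.sum_congr rfl fun i _ => by rw [LinearMap.toMatrix_apply]
      have h3 := congrArg (fun w : invSub ρ I => (w : Fin n → F)) h2
      have h4 : ((endOn ρ I g (B j) : invSub ρ I) : Fin n → F) =
          ((∑ i, LinearMap.toMatrix B B (endOn ρ I g) i j • B i : invSub ρ I) : Fin n → F) := h3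
      rw [hend, hB] at h4
      rw [h4]
      simp [hB]
    · rw [← LinearMap.charpoly_toMatrix (endOn ρ I g) B, Matrix.reverse_charpoly]

end Frobenius

section Selmer

variable {G O : Type} [Group G] [CommRing O] [MulSemiringAction G O] {n : ℕ} {p : ℕ}
  [Fact p.Prime] [TopologicalSpace G]

theorem selmerDiff_iff (ρ : G →* Matrix (Fin n) (Fin n) ℚ_[p]) (B : PeriodData G O p) (d : ℤ) :
    SelmerDiff ρ B d ↔ Module.Finite ℚ_[p] (H1f ρ B) ∧
      d = (Module.finrank ℚ_[p] (H1f ρ B) : ℤ) - (h0 ρ : ℤ) := by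
  constructor
  · rintro ⟨h, k, b, e, hb, he, rfl⟩
    obtain ⟨h1, h2⟩ := finrank_of_isBasisMod (Z1f ρ B) (B1 ρ) b hb
    obtain ⟨-, h3⟩ := finrank_of_isBasisMod (invSub ρ ⊤) ⊥ e he
    refine ⟨h1, ?_⟩
    rw [finrank_quot_bot] at h3
    change _ = (Module.finrank ℚ_[p] ((Z1f ρ B) ⧸ ((B1 ρ).submoduleOf (Z1f ρ B))) : ℤ) - _
    rw [h2]
    unfold h0
    rw [h3]
  · rintro ⟨hfin, rfl⟩
    obtain ⟨b, hb⟩ := exists_isBasisMod (Z1f ρ B) (B1 ρ)
    obtain ⟨e, he⟩ := exists_isBasisMod (invSub ρ ⊤) (⊥ : Submodule ℚ_[p] (Fin n → ℚ_[p]))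
    refine ⟨_, _, b, e, hb, he, ?_⟩
    rw [finrank_quot_bot]
    rfl

end Selmer

end Bridge

section Fields

variable (L Ω : Type) [Field L] [NumberField L] [Field Ω] [Algebra L Ω] [IsAlgClosed Ω]
  [Algebra.IsAlgebraic L Ω]

/-- The short form of the definition of the Euler polynomial. -/
theorem isFrobPoly_eulerPoly {F : Type} [Field F] {n : ℕ}
    (ρ : (Ω ≃ₐ[L] Ω) →* Matrix (Fin n) (Fin n) F) (v : HeightOneSpectrum (𝓞 L))
    (Q : Ideal (𝓞 Ω)) (hQ : Q.IsPrime) (hv : Q.under (𝓞 L) = v.asIdeal) (φ : Ω ≃ₐ[L] Ω)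
    (hφ : ∀ x : 𝓞 Ω, φ • x - x ^ v.asIdeal.absNorm ∈ Q) (P : F[X]) :
    IsFrobPoly ρ (Q.inertia (Ω ≃ₐ[L] Ω)) φ⁻¹ P ↔ eulerPoly ρ Q φ = P := by
  refine Bridge.isFrobPoly_iff ρ _ _ _ (Trace.maps_invSub ρ fun a ha => ?_)
  rw [inv_inv]
  exact LocalTrace.conj_inertia Q φ (frob_mem_stabilizer v Q hQ hv φ hφ) a ha

theorem eulerFamily_iff (V : LSystem (Ω ≃ₐ[L] Ω)) (P : HeightOneSpectrum (𝓞 L) → ℚ[X]) :
    EulerFamily L Ω V P ↔ IsEulerFamily L Ω V P := by
  unfold EulerFamily IsEulerFamily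
  refine forall_congr' fun v => forall_congr' fun l => forall_congr' fun _ => forall_congr' fun _ =>
    forall_congr' fun Q => forall_congr' fun hQ => forall_congr' fun hv => forall_congr' fun φ =>
    forall_congr' fun hφ => ?_
  exact isFrobPoly_eulerPoly L Ω (V.rep l) v Q hQ hv φ hφ _

theorem formula_iff (V : LSystem (Ω ≃ₐ[L] Ω))
    (B : ∀ (p : ℕ) [Fact p.Prime], PeriodData (Ω ≃ₐ[L] Ω) (𝓞 Ω) p) (m : ℕ) :
    Formula L Ω V B m ↔ BKpow L Ω V B m := by
  unfold Formula BKpow
  refine exists_congr fun P => and_congr (eulerFamily_iff L Ω V P) ?_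
  refine exists_congr fun σ => exists_congr fun U => exists_congr fun Λ => ?_
  refine and_congr_right fun _ => and_congr_right fun _ => and_congr_right fun _ =>
    and_congr_right fun _ => and_congr_right fun _ => forall_congr' fun p => forall_congr' fun _ => ?_
  constructor
  · rintro ⟨d, hd, ho⟩
    obtain ⟨h1, h2⟩ := (Bridge.selmerDiff_iff _ _ _).1 hd
    exact ⟨h1, by rw [ho, h2]⟩
  · rintro ⟨h1, h2⟩
    exact ⟨_, (Bridge.selmerDiff_iff _ _ _).2 ⟨h1, rfl⟩, h2⟩

end Fields

end Pool.BK
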