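import Pool.Agent.Helper95.BK.Defs2

/-!
The permutation relation of a quotient of order `q ^ 2` and exponent `q`.
-/

namespace Pool.BK

namespace QuotRel

open Classical in
theorem fixCount_normal {G : Type} [Group G] (A : Subgroup G) (hA : A.Normal) (g : G) :
    fixCount A g = if g ∈ A then A.index else 0 := by
  unfold fixCount
  split_ifs with h
  · rw [Subgroup.index]
    refine Nat.card_congr ⟨fun x => x.1, fun x => ⟨x, ?_⟩, fun _ => rfl, fun _ => rfl⟩
    rw [MulAction.mem_fixedBy]
    obtain ⟨y, rfl⟩ := QuotientGroup.mk_surjective x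
    rw [MulAction.Quotient.smul_mk, smul_eq_mul, QuotientGroup.eq]
    have := hA.conj_mem _ (A.inv_mem h) y⁻¹
    simpa [mul_assoc] using this
  · rw [Nat.card_eq_zero]
    left
    rw [isEmpty_subtype]
    intro x hx
    apply h
    rw [MulAction.mem_fixedBy] at hx
    obtain ⟨y, rfl⟩ := QuotientGroup.mk_surjective x
    rw [MulAction.Quotient.smul_mk, smul_eq_mul, QuotientGroup.eq] at hx
    have := hA.conj_mem _ (A.inv_mem hx) y
    simpa [mul_assoc] using this

open Classical in
theorem count_sub {Γ : Type} [Group Γ] [Fintype Γ] (q : ℕ) (hq1 : q.Prime)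
    (hΓ : Nat.card Γ = q ^ 2) (hq : ∀ x : Γ, x ^ q = 1) (x : Γ) :
    ((Finset.univ : Finset (Subgroup Γ)).filter
      (fun B : Subgroup Γ => Nat.card B = q ∧ x ∈ B)).card = if x = 1 then q + 1 else 1 := by
  have hfact : Fact q.Prime := ⟨hq1⟩
  have key : ∀ x : Γ, x ≠ 1 → ((Finset.univ : Finset (Subgroup Γ)).filter
      (fun B : Subgroup Γ => Nat.card B = q ∧ x ∈ B)).card = 1 := by
    intro x hx
    have hord : orderOf x = q := orderOf_eq_prime (hq x) hx
    rw [Finset.card_eq_one]
    refine ⟨Subgroup.zpowers x, ?_⟩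
    ext B
    simp only [Finset.mem_filter, Finset.mem_univ, true_and, Finset.mem_singleton]
    constructor
    · rintro ⟨h1, h2⟩
      symm
      apply Subgroup.eq_of_le_of_card_ge
      · rwa [Subgroup.zpowers_le]
      · rw [h1, Nat.card_zpowers, hord]
    · rintro rfl
      exact ⟨by rw [Nat.card_zpowers, hord], Subgroup.mem_zpowers x⟩
  split_ifs with hx
  · subst hx
    have h1 : ∑ x ∈ (Finset.univ : Finset Γ).erase 1, ((Finset.univ : Finset (Subgroup Γ)).filter
        (fun B : Subgroup Γ => Nat.card B = q ∧ x ∈ B)).card = q ^ 2 - 1 := by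
      rw [Finset.sum_congr rfl (fun y hy => key y (Finset.ne_of_mem_erase hy)), Finset.sum_const,
        smul_eq_mul, mul_one, Finset.card_erase_of_mem (Finset.mem_univ _), Finset.card_univ,
        ← Nat.card_eq_fintype_card, hΓ]
    have h2 : ∑ x ∈ (Finset.univ : Finset Γ).erase 1, ((Finset.univ : Finset (Subgroup Γ)).filter
        (fun B : Subgroup Γ => Nat.card B = q ∧ x ∈ B)).card =
        ((Finset.univ : Finset (Subgroup Γ)).filter (fun B : Subgroup Γ => Nat.card B = q)).card * (q - 1) := by
      simp_rw [Finset.card_filter]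
      rw [Finset.sum_comm, Finset.sum_mul]
      refine Finset.sum_congr rfl fun B _ => ?_
      by_cases hB : Nat.card B = q
      · simp only [hB, true_and, if_true, one_mul]
        rw [← Finset.card_filter]
        have : ((Finset.univ : Finset Γ).erase 1).filter (fun x => x ∈ B) =
            ((Finset.univ : Finset Γ).filter (fun x => x ∈ B)).erase 1 := by
          ext y; simp [and_comm]
        rw [this, Finset.card_erase_of_mem (by simp [B.one_mem])]
        congr 1
        rw [← hB, Nat.card_eq_fintype_card, Fintype.card_subtype]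
      · simp only [hB, false_and, if_false, zero_mul, Finset.sum_const_zero]
    have h3 : ((Finset.univ : Finset (Subgroup Γ)).filter
        (fun B : Subgroup Γ => Nat.card B = q ∧ (1 : Γ) ∈ B)) =
        (Finset.univ : Finset (Subgroup Γ)).filter (fun B : Subgroup Γ => Nat.card B = q) := by
      ext B; simp [B.one_mem]
    rw [h3]
    rw [h1] at h2
    have h4 := hq1.two_le
    have h5 : (q + 1) * (q - 1) = q ^ 2 - 1 := by
      obtain ⟨k, rfl⟩ : ∃ k, q = k + 1 := ⟨q - 1, by omega⟩
      simp only [Nat.add_sub_cancel]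
      have : (k + 1 + 1) * k + 1 = (k + 1) ^ 2 := by ring
      omega
    rw [← h5] at h2
    exact (Nat.eq_of_mul_eq_mul_right (by omega) h2).symm
  · exact key x hx

end QuotRel

open QuotRel in
theorem quot_relation {G : Type} [Group G] (q : ℕ) [Fact q.Prime] (C : Subgroup G) [C.Normal]
    (hC : C.index = q ^ 2) (hq : ∀ g, g ^ q ∈ C) :
    {A : Subgroup G | C ≤ A ∧ A.index = q}.Finite ∧ ∀ g : G,
      (∑ᶠ A ∈ {A : Subgroup G | C ≤ A ∧ A.index = q}, (fixCount A g : ℤ)) - fixCount C g = q := by
  classical
  have hp : q.Prime := Fact.out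
  have hcard : Nat.card (G ⧸ C) = q ^ 2 := hC
  have hfin : Finite (G ⧸ C) := by
    apply Nat.finite_of_card_ne_zero
    rw [hcard]
    exact pow_ne_zero _ hp.ne_zero
  have : Fintype (G ⧸ C) := Fintype.ofFinite _
  have hexp : ∀ x : G ⧸ C, x ^ q = 1 := by
    intro x
    obtain ⟨y, rfl⟩ := QuotientGroup.mk_surjective x
    rw [← QuotientGroup.mk_pow, QuotientGroup.eq_one_iff]
    exact hq y
  have hcomm : ∀ x y : G ⧸ C, x * y = y * x := by
    have := IsPGroup.commutative_of_card_eq_prime_sq hcard
    exact this
  -- the correspondence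
  let f : Subgroup (G ⧸ C) → Subgroup G := Subgroup.comap (QuotientGroup.mk' C)
  have hfinj : Function.Injective f := Subgroup.comap_injective (QuotientGroup.mk'_surjective C)
  have hidx : ∀ B : Subgroup (G ⧸ C), (f B).index = B.index := fun B =>
    Subgroup.index_comap_of_surjective B (QuotientGroup.mk'_surjective C)
  have hS : {A : Subgroup G | C ≤ A ∧ A.index = q} =
      f '' (↑((Finset.univ : Finset (Subgroup (G ⧸ C))).filter (fun B : Subgroup (G ⧸ C) => Nat.card B = q)) :
        Set (Subgroup (G ⧸ C))) := by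
    ext A
    simp only [Set.mem_setOf_eq, Set.mem_image, Finset.coe_filter, Finset.mem_univ, true_and]
    constructor
    · rintro ⟨h1, h2⟩
      have h3 : f (A.map (QuotientGroup.mk' C)) = A := by
        change Subgroup.comap _ (Subgroup.map _ _) = _
        rw [Subgroup.comap_map_eq_self]
        rw [QuotientGroup.ker_mk']
        exact h1
      refine ⟨A.map (QuotientGroup.mk' C), ?_, h3⟩
      have h4 := hidx (A.map (QuotientGroup.mk' C))
      rw [h3, h2] at h4
      have h5 := Subgroup.card_mul_index (A.map (QuotientGroup.mk' C))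
      rw [← h4, hcard, pow_two] at h5
      exact Nat.eq_of_mul_eq_mul_right hp.pos h5
    · rintro ⟨B, hB, rfl⟩
      refine ⟨?_, ?_⟩
      · intro c hc
        change QuotientGroup.mk' C c ∈ B
        have : QuotientGroup.mk' C c = 1 := by
          rw [QuotientGroup.mk'_apply, QuotientGroup.eq_one_iff]
          exact hc
        rw [this]
        exact B.one_mem
      · rw [hidx]
        have h5 := Subgroup.card_mul_index B
        rw [hB, hcard, pow_two] at h5
        exact Nat.eq_of_mul_eq_mul_left hp.pos h5
  refine ⟨?_, fun g => ?_⟩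
  · rw [hS]
    exact (Finset.finite_toSet _).image _
  · rw [hS, finsum_mem_image (hfinj.injOn), finsum_mem_coe_finset]
    have hval : ∀ B ∈ (Finset.univ : Finset (Subgroup (G ⧸ C))).filter (fun B : Subgroup (G ⧸ C) => Nat.card B = q),
        (fixCount (f B) g : ℤ) = if (g : G ⧸ C) ∈ B then (q : ℤ) else 0 := by
      intro B hB
      rw [Finset.mem_filter] at hB
      have hN : (f B).Normal := by
        have : B.Normal := ⟨fun n hn x => by rw [hcomm x n, mul_assoc, mul_inv_cancel, mul_one]; exact hn⟩
        exact Subgroup.Normal.comap this _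
      rw [fixCount_normal _ hN]
      have hmem : (g ∈ f B) ↔ ((g : G ⧸ C) ∈ B) := Iff.rfl
      have hi : (f B).index = q := by
        rw [hidx]
        have h5 := Subgroup.card_mul_index B
        rw [hB.2, hcard, pow_two] at h5
        exact Nat.eq_of_mul_eq_mul_left hp.pos h5
      rw [hi]
      by_cases h : (g : G ⧸ C) ∈ B
      · rw [if_pos h, if_pos (hmem.2 h)]
      · rw [if_neg h, if_neg (fun h' => h (hmem.1 h'))]; rfl
    rw [Finset.sum_congr rfl hval, ← Finset.sum_filter, Finset.filter_filter, Finset.sum_const,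
      count_sub q hp hcard hexp, fixCount_normal C inferInstance, hC]
    by_cases h : g ∈ C
    · have h' : (g : G ⧸ C) = 1 := (QuotientGroup.eq_one_iff g).2 h
      rw [if_pos h, if_pos h']
      push_cast
      ring
    · have h' : (g : G ⧸ C) ≠ 1 := fun h' => h ((QuotientGroup.eq_one_iff g).1 h')
      rw [if_neg h, if_neg h']
      simp

end Pool.BK
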