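import Pool.Agent.BK.RelBase
import Pool.Agent.BK.ElemAb
import Pool.Agent.BK.QuotRel

/-!
Reduction of the order of vanishing formula to fields of large degree.
-/

open scoped Pointwise NumberField
open Polynomial IsDedekindDomain

namespace Pool.BK

section Main

variable (K : Type) [Field K] [NumberField K] (Ω : Type) [Field Ω] [Algebra K Ω] [IsAlgClosed Ω]
  [Algebra.IsAlgebraic K Ω]

namespace Reduction

variable {K Ω}

lemma open_field (A : Subgroup (Ω ≃ₐ[K] Ω)) (hA : IsOpen (A : Set (Ω ≃ₐ[K] Ω))) :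
    FiniteDimensional K (IntermediateField.fixedField A) ∧
      (IntermediateField.fixedField A).fixingSubgroup = A := by
  have hG : IsGalois K Ω := by
    have : Normal K Ω := normal_iff.2 fun x =>
      ⟨Algebra.IsIntegral.isIntegral x, IsAlgClosed.splits _⟩
    exact ⟨⟩
  have hcl : IsClosed (A : Set (Ω ≃ₐ[K] Ω)) := Subgroup.isClosed_of_isOpen A hA
  have h1 : (IntermediateField.fixedField A).fixingSubgroup = A :=
    InfiniteGalois.fixingSubgroup_fixedField ⟨A, hcl⟩
  refine ⟨?_, h1⟩
  rw [← InfiniteGalois.isOpen_iff_finite]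
  rw [h1]
  exact hA

lemma numberField_of (E : IntermediateField K Ω) [FiniteDimensional K E] : NumberField E :=
  NumberField.of_module_finite K E

lemma one_lt (A : Subgroup (Ω ≃ₐ[K] Ω)) (hA : IsOpen (A : Set (Ω ≃ₐ[K] Ω)))
    (h1 : A.index ≠ 1) : 1 < Module.finrank K (IntermediateField.fixedField A) := by
  obtain ⟨hf, hfix⟩ := open_field A hA
  have h2 : 0 < Module.finrank K (IntermediateField.fixedField A) := Module.finrank_pos
  have h3 : Module.finrank K (IntermediateField.fixedField A) ≠ 1 := by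
    intro h
    rw [IntermediateField.finrank_eq_one_iff] at h
    rw [h, IntermediateField.fixingSubgroup_bot] at hfix
    rw [← hfix, Subgroup.index_top] at h1
    exact h1 rfl
  omega

end Reduction

open Reduction

/-- the step of the induction -/
theorem Reduction.step (V : LSystem (Ω ≃ₐ[K] Ω))
    (B : ∀ (p : ℕ) [Fact p.Prime], PeriodData (Ω ≃ₐ[K] Ω) (𝓞 Ω) p)
    (h : ∀ (E : IntermediateField K Ω) [NumberField E], 1 < Module.finrank K E →
      BKHolds E Ω (V.res E) (fun p _ => (B p).res E)) : BKHolds K Ω V B := by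
  classical
  have : Fact (Nat.Prime 3) := ⟨Nat.prime_three⟩
  obtain ⟨C3, hn3, ho3, hi3, hq3⟩ := exists_quot K Ω 3
  obtain ⟨C2, hn2, ho2, hi2, hq2⟩ := exists_quot K Ω 2
  obtain ⟨hf3, hr3⟩ := quot_relation 3 C3 hi3 hq3
  obtain ⟨hf2, hr2⟩ := quot_relation 2 C2 hi2 hq2
  have : Fintype {A : Subgroup (Ω ≃ₐ[K] Ω) | C3 ≤ A ∧ A.index = 3} := hf3.fintype
  have : Fintype {A : Subgroup (Ω ≃ₐ[K] Ω) | C2 ≤ A ∧ A.index = 2} := hf2.fintype
  let ι : Type := ({A : Subgroup (Ω ≃ₐ[K] Ω) | C3 ≤ A ∧ A.index = 3} ⊕ Unit) ⊕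
    ({A : Subgroup (Ω ≃ₐ[K] Ω) | C2 ≤ A ∧ A.index = 2} ⊕ Unit)
  let S : ι → Subgroup (Ω ≃ₐ[K] Ω) :=
    Sum.elim (Sum.elim (fun A => A.1) (fun _ => C3)) (Sum.elim (fun A => A.1) (fun _ => C2))
  let a : ι → ℤ := Sum.elim (Sum.elim (fun _ => 1) (fun _ => -1)) (Sum.elim (fun _ => -1) (fun _ => 1))
  have hSo : ∀ i, IsOpen (S i : Set (Ω ≃ₐ[K] Ω)) := by
    rintro ((A | u) | (A | u))
    · exact Subgroup.isOpen_mono A.2.1 ho3
    · exact ho3
    · exact Subgroup.isOpen_mono A.2.1 ho2
    · exact ho2
  have hSi : ∀ i, (S i).index ≠ 1 := by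
    rintro ((A | u) | (A | u))
    · change A.1.index ≠ 1
      rw [A.2.2]; norm_num
    · change C3.index ≠ 1
      rw [hi3]; norm_num
    · change A.1.index ≠ 1
      rw [A.2.2]; norm_num
    · change C2.index ≠ 1
      rw [hi2]; norm_num
  let E : ι → IntermediateField K Ω := fun i => IntermediateField.fixedField (S i)
  have hfd : ∀ i, FiniteDimensional K (E i) := fun i => (open_field (S i) (hSo i)).1
  have hnf : ∀ i, NumberField (E i) := fun i => numberField_of (E i)
  have hfix : ∀ i, (E i).fixingSubgroup = S i := fun i => (open_field (S i) (hSo i)).2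
  refine rel_base K Ω V B E a (fun g => ?_) (fun i => h (E i) (one_lt (S i) (hSo i) (hSi i)))
  have e3 := hr3 g
  have e2 := hr2 g
  rw [← finsum_set_coe_eq_finsum_mem, finsum_eq_sum_of_fintype] at e3 e2
  simp only [hfix]
  rw [Fintype.sum_sum_type, Fintype.sum_sum_type, Fintype.sum_sum_type]
  simp only [a, S, Sum.elim_inl, Sum.elim_inr, one_mul, neg_mul, Finset.sum_neg_distrib,
    Finset.univ_unique, Finset.sum_const, Finset.card_singleton, one_smul]
  push_cast at e3 e2
  linarith

theorem reduction (V : LSystem (Ω ≃ₐ[K] Ω))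
    (B : ∀ (p : ℕ) [Fact p.Prime], PeriodData (Ω ≃ₐ[K] Ω) (𝓞 Ω) p)
    (C : IntermediateField K Ω → Prop) (hC : ∀ L L', L ≤ L' → C L → C L') (N : ℕ)
    (h : ∀ (L : IntermediateField K Ω) [NumberField L], C L → N ≤ Module.finrank K L →
      BKHolds L Ω (V.res L) (fun p _ => (B p).res L)) :
    ∀ (L : IntermediateField K Ω) [NumberField L], C L →
      BKHolds L Ω (V.res L) (fun p _ => (B p).res L) := by
  suffices H : ∀ (d : ℕ) (L : IntermediateField K Ω) [NumberField L], C L →
      N - Module.finrank K L = d → BKHolds L Ω (V.res L) (fun p _ => (B p).res L) from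
    fun L _ hL => H _ L hL rfl
  intro d
  induction d using Nat.strong_induction_on with
  | _ d ih =>
    intro L hL hCL hd
    by_cases hN : N ≤ Module.finrank K L
    · exact h L hCL hN
    · have : Algebra.IsAlgebraic L Ω := Algebra.IsAlgebraic.tower_top (K := K) L
      refine Reduction.step L Ω (V.res L) (fun p _ => (B p).res L) fun E hE h1 => ?_
      have hnf : NumberField (E.restrictScalars K) := hE
      have hfL : FiniteDimensional K L := Module.Finite.of_restrictScalars_finite ℚ K L
      have hfE : FiniteDimensional L E := Module.Finite.of_restrictScalars_finite ℚ L E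
      have hle : L ≤ E.restrictScalars K := by
        intro x hx
        exact E.algebraMap_mem ⟨x, hx⟩
      have hrank : Module.finrank K (E.restrictScalars K) = Module.finrank K L * Module.finrank L E :=
        (Module.finrank_mul_finrank K L E).symm
      have hpos : 0 < Module.finrank K L := Module.finrank_pos
      have hlt : Module.finrank K L < Module.finrank K (E.restrictScalars K) := by
        rw [hrank]
        exact (Nat.lt_mul_iff_one_lt_right hpos).2 h1
      exact ih (N - Module.finrank K (E.restrictScalars K)) (by omega) (E.restrictScalars K)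
        (hC _ _ hle hCL) rfl

end Main

end Pool.BK
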