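import Pool.Agent.Helper95.BK.PublicGal
import Pool.Agent.BK.H1Relation
import Pool.Agent.BK.Reduction

/-!
Open normal subgroups and finite Galois extensions.
-/

open scoped Pointwise NumberField
open Polynomial IsDedekindDomain

namespace Pool.BK

namespace BridgeGal

/-- Images of a subgroup under homomorphisms with the same kernel. -/
theorem exists_inj {G A B : Type} [Group G] [Group A] [Group B] (S : Subgroup G) (f : G →* A)
    (f' : G →* B) (h : f.ker = f'.ker) :
    ∃ φ : S.map f →* S.map f', Function.Injective φ := by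
  have key : ∀ a b : G, f a = f b ↔ f' a = f' b := by
    intro a b
    have h1 : ∀ {C : Type} [Group C] (g : G →* C), g a = g b ↔ a⁻¹ * b ∈ g.ker := by
      intro C _ g
      rw [MonoidHom.mem_ker, map_mul, map_inv, inv_mul_eq_one]
    rw [h1 f, h1 f', h]
  have hch : ∀ y : S.map f, ∃ g ∈ S, f g = y := fun y => y.2
  choose g hg1 hg2 using hch
  refine ⟨MonoidHom.mk' (fun y => ⟨f' (g y), g y, hg1 y, rfl⟩) fun y z => ?_, fun y z hyz => ?_⟩
  · apply Subtype.ext
    change f' (g (y * z)) = f' (g y) * f' (g z)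
    rw [← map_mul, ← key, map_mul, hg2, hg2, hg2]
    rfl
  · have h1 : f' (g y) = f' (g z) := congrArg Subtype.val hyz
    apply Subtype.ext
    rw [← hg2 y, ← hg2 z]
    exact (key _ _).2 h1

variable {K : Type} [Field K] [NumberField K] {Ω : Type} [Field Ω] [Algebra K Ω] [IsAlgClosed Ω]
  [Algebra.IsAlgebraic K Ω]

theorem exists_field (P : ∀ (Γ : Type) [Group Γ], Prop)
    (hP : ∀ (Γ Γ' : Type) [Group Γ] [Group Γ'] (f : Γ' →* Γ), Function.Injective f → P Γ → P Γ')
    (F L : IntermediateField K Ω)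
    (h : ∃ (N : Subgroup (Ω ≃ₐ[K] Ω)) (_ : N.Normal), IsOpen (N : Set (Ω ≃ₐ[K] Ω)) ∧
      N ≤ F.fixingSubgroup ∧ N ≤ L.fixingSubgroup ∧
      P (L.fixingSubgroup.map (QuotientGroup.mk' N))) :
    ∃ (M : IntermediateField K Ω) (_ : Normal K M), FiniteDimensional K M ∧ F ≤ M ∧ L ≤ M ∧
      P (L.fixingSubgroup.map (AlgEquiv.restrictNormalHom (F := K) (K₁ := Ω) M)) := by
  obtain ⟨N, hNn, hNo, hNF, hNL, hPN⟩ := h
  have hG : IsGalois K Ω := H1Relation.isGalois
  obtain ⟨hfd, hfix⟩ := Reduction.open_field N hNo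
  have hnorm : Normal K (IntermediateField.fixedField N) := by
    have h1 : (IntermediateField.fixedField N).fixingSubgroup.Normal := by rw [hfix]; exact hNn
    have h2 : IsGalois K (IntermediateField.fixedField N) :=
      (InfiniteGalois.normal_iff_isGalois _).1 h1
    exact h2.to_normal
  refine ⟨IntermediateField.fixedField N, hnorm, hfd, (IntermediateField.le_iff_le _ _).2 hNF,
    (IntermediateField.le_iff_le _ _).2 hNL, ?_⟩
  obtain ⟨φ, hφ⟩ := exists_inj L.fixingSubgroup
    (AlgEquiv.restrictNormalHom (F := K) (K₁ := Ω) (IntermediateField.fixedField N))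
    (QuotientGroup.mk' N) (by
      rw [IntermediateField.restrictNormalHom_ker, QuotientGroup.ker_mk', hfix])
  exact hP _ _ φ hφ hPN

end BridgeGal

end Pool.BK
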