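import Pool.Agent.Helper95.BK.PublicInd
import Pool.Agent.BK.Bridge

/-!
Equivalence of the short form of the definitions for the induced systems with the one used in the
proofs.
-/

open scoped Pointwise NumberField
open Polynomial IsDedekindDomain

namespace Pool.BK

variable (K L Ω : Type) [Field K] [NumberField K] [Field L] [NumberField L] [Field Ω]
  [Algebra K L] [Algebra K Ω] [Algebra L Ω] [IsScalarTower K L Ω] [IsAlgClosed Ω]
  [Algebra.IsAlgebraic L Ω]

theorem localFamily_iff {F : Type} [Field F] {n : ℕ}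
    (ρ : (Ω ≃ₐ[K] Ω) →* Matrix (Fin n) (Fin n) F) (v : HeightOneSpectrum (𝓞 K))
    (R : HeightOneSpectrum (𝓞 L) → F[X]) :
    LocalFamily L ρ v R ↔ IsLocalFamily L ρ v R := by
  unfold LocalFamily IsLocalFamily
  refine forall_congr' fun w => forall_congr' fun _ => forall_congr' fun Q =>
    forall_congr' fun hQ => forall_congr' fun hw => forall_congr' fun φ =>
    forall_congr' fun hφ => ?_
  exact isFrobPoly_eulerPoly L Ω _ w Q hQ hw φ hφ _

theorem indFamily_iff (V : LSystem (Ω ≃ₐ[K] Ω)) (P : HeightOneSpectrum (𝓞 K) → ℚ[X]) :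
    IndFamily K L Ω V P ↔ IsIndFamily K L Ω V P := by
  unfold IndFamily IsIndFamily
  refine forall_congr' fun v => forall_congr' fun l => forall_congr' fun _ => forall_congr' fun _ =>
    forall_congr' fun R => ?_
  rw [localFamily_iff]

theorem indFormula_iff (V : LSystem (Ω ≃ₐ[K] Ω))
    (B : ∀ (p : ℕ) [Fact p.Prime], PeriodData (Ω ≃ₐ[K] Ω) (𝓞 Ω) p) (m : ℕ) :
    IndFormula K L Ω V B m ↔ BKInd K L Ω V B m := by
  unfold IndFormula BKInd
  refine exists_congr fun P => and_congr (indFamily_iff K L Ω V P) ?_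
  refine exists_congr fun σ => exists_congr fun U => exists_congr fun Λ => ?_
  refine and_congr_right fun _ => and_congr_right fun _ => and_congr_right fun _ =>
    and_congr_right fun _ => and_congr_right fun _ => forall_congr' fun p => forall_congr' fun _ => ?_
  constructor
  · rintro ⟨d, hd, ho⟩
    obtain ⟨h1, h2⟩ := (Bridge.selmerDiff_iff _ _ _).1 hd
    exact ⟨h1, by rw [ho, h2]⟩
  · rintro ⟨h1, h2⟩
    exact ⟨_, (Bridge.selmerDiff_iff _ _ _).2 ⟨h1, rfl⟩, h2⟩

end Pool.BK
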