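import Pool.Agent.Helper95.BK.Defs2
import Pool.Agent.BK.Frob
import Pool.Agent.BK.Places

/-!
Module DivExpand of project BK: the Euler polynomial at `v` divides the one of an extension at some
place above `v`, with `T` replaced by `T ^ f`; degree bound.
-/

set_option autoImplicit false

open scoped Pointwise NumberField
open Polynomial IsDedekindDomain

namespace Pool.BK

namespace DivExpand

section LinearAlgebra

variable {F V W : Type} [Field F] [AddCommGroup V] [Module F V] [Module.Finite F V]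
  [AddCommGroup W] [Module F W] [Module.Finite F W]

open Module.Basis in
theorem charpoly_restrict_dvd (U : Submodule F V) (e : V →ₗ[F] V) (he : U ≤ U.comap e) :
    (e.restrict he).charpoly ∣ e.charpoly := by
  let m := Module.Free.ChooseBasisIndex F U
  let bW : Module.Basis m F U := Module.Free.chooseBasis F U
  let n := Module.Free.ChooseBasisIndex F (V ⧸ U)
  let bQ : Module.Basis n F (V ⧸ U) := Module.Free.chooseBasis F (V ⧸ U)
  let b := sumQuot bW bQ
  let A : Matrix m m F := LinearMap.toMatrix bW bW (e.restrict he)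
  let B : Matrix m n F := Matrix.of fun i l ↦
    ((sumQuot bW bQ).repr (e ((sumQuot bW bQ) (Sum.inr l)))) (Sum.inl i)
  let D : Matrix n n F := LinearMap.toMatrix bQ bQ (U.mapQ U e he)
  suffices h : LinearMap.toMatrix b b e = Matrix.fromBlocks A B 0 D by
    rw [← LinearMap.charpoly_toMatrix e b, h, Matrix.charpoly_fromBlocks_zero₂₁,
      ← LinearMap.charpoly_toMatrix (e.restrict he) bW]
    exact dvd_mul_right _ _
  ext u v
  cases u with
  | inl i =>
    cases v with
    | inl k =>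
      simp only [b, sumQuot_inl, Matrix.fromBlocks_apply₁₁, A, LinearMap.toMatrix_apply]
      apply sumQuot_repr_inl_of_mem
    | inr l => simp [b, LinearMap.toMatrix_apply, Matrix.fromBlocks_apply₁₂, B]
  | inr j =>
    cases v with
    | inl k =>
      suffices U.mkQ (e (bW k)) = 0 by simp [LinearMap.toMatrix_apply, b, this]
      rw [← LinearMap.mem_ker, Submodule.ker_mkQ]
      exact he (Submodule.coe_mem (bW k))
    | inr l =>
      simp only [LinearMap.toMatrix_apply, sumQuot_repr_inr,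
        Matrix.fromBlocks_apply₂₂, b, D]
      rw [← sumQuot_inr bW bQ l, U.mapQ_apply]
      simp

theorem charpoly_dvd_of_comm (ι : W →ₗ[F] V) (hι : Function.Injective ι) (A : Module.End F W)
    (A' : Module.End F V) (h : ∀ w, A' (ι w) = ι (A w)) : A.charpoly ∣ A'.charpoly := by
  have he : LinearMap.range ι ≤ (LinearMap.range ι).comap A' := by
    rintro _ ⟨w, rfl⟩
    exact ⟨A w, (h w).symm⟩
  have h1 := charpoly_restrict_dvd (LinearMap.range ι) A' he
  have h2 : (LinearEquiv.ofInjective ι hι).conj A = A'.restrict he := by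
    ext ⟨x, w, rfl⟩
    have h3 : (⟨ι w, w, rfl⟩ : LinearMap.range ι) = LinearEquiv.ofInjective ι hι w := rfl
    rw [h3, LinearEquiv.conj_apply]
    simp [h]
  rwa [← h2, LinearEquiv.charpoly_conj] at h1

theorem reverse_dvd {p q : F[X]} (h : p ∣ q) : p.reverse ∣ q.reverse := by
  obtain ⟨r, rfl⟩ := h
  rw [reverse_mul_of_domain]
  exact dvd_mul_right _ _

theorem matrix_rev_dvd {n : Type} [Fintype n] [DecidableEq n] (M : Matrix n n F) (f : ℕ) :
    M.charpolyRev ∣ expand F f (M ^ f).charpolyRev := by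
  have h1 : expand F f (M ^ f).charpolyRev =
      Matrix.det (1 - ((X : F[X]) • M.map C) ^ f) := by
    unfold Matrix.charpolyRev
    rw [AlgHom.map_det, map_sub, map_one, _root_.smul_pow]
    congr 2
    ext i j
    simp only [AlgHom.mapMatrix_apply, Matrix.map_apply, Matrix.smul_apply, smul_eq_mul, map_mul,
      expand_X, expand_C]
    congr 1
    have : (M.map (C : F →+* F[X])) ^ f = (M ^ f).map C := by
      have := (map_pow (C : F →+* F[X]).mapMatrix M f).symm
      simpa [RingHom.mapMatrix_apply] using this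
    rw [this, Matrix.map_apply]
  rw [h1]
  obtain ⟨T, hT⟩ : ∃ T : Matrix n n F[X], 1 - ((X : F[X]) • M.map C) ^ f =
      (1 - (X : F[X]) • M.map C) * T := by
    refine ⟨∑ i ∈ Finset.range f, ((X : F[X]) • M.map C) ^ i, ?_⟩
    exact (mul_neg_geom_sum _ f).symm
  rw [hT, Matrix.det_mul]
  exact dvd_mul_right _ _

theorem rev_dvd_expand (A : Module.End F W) (f : ℕ) :
    A.charpoly.reverse ∣ expand F f (A ^ f).charpoly.reverse := by
  let b := Module.Free.chooseBasis F W
  have h1 : A.charpoly = (LinearMap.toMatrix b b A).charpoly :=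
    (LinearMap.charpoly_toMatrix A b).symm
  have h2 : (A ^ f).charpoly = ((LinearMap.toMatrix b b A) ^ f).charpoly := by
    rw [← LinearMap.charpoly_toMatrix (A ^ f) b, LinearMap.toMatrix_pow]
  rw [h1, h2, Matrix.reverse_charpoly, Matrix.reverse_charpoly]
  exact matrix_rev_dvd _ f

end LinearAlgebra

section Places

variable {K : Type} [Field K] [NumberField K] {Ω : Type} [Field Ω] [Algebra K Ω] [IsAlgClosed Ω]
  [Algebra.IsAlgebraic K Ω]

omit [NumberField K] in
theorem exists_prime (v : HeightOneSpectrum (𝓞 K)) :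
    ∃ l : ℕ, (l = 2 ∨ l = 3) ∧ (l : 𝓞 K) ∉ v.asIdeal := by
  by_cases h : ((2 : ℕ) : 𝓞 K) ∈ v.asIdeal
  · refine ⟨3, Or.inr rfl, fun h' => ?_⟩
    have h1 : (1 : 𝓞 K) ∈ v.asIdeal := by
      have := v.asIdeal.sub_mem h' h
      have h2 : ((3 : ℕ) : 𝓞 K) - ((2 : ℕ) : 𝓞 K) = 1 := by push_cast; ring
      rwa [h2] at this
    exact v.isPrime.ne_top ((Ideal.eq_top_iff_one _).2 h1)
  · exact ⟨2, Or.inl rfl, h⟩

theorem inertia_conj {G O : Type} [Group G] [CommRing O] [MulSemiringAction G O] (Q : Ideal O)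
    (φ : G) (hφ : φ ∈ MulAction.stabilizer G Q) (g : G) (hg : g ∈ Q.inertia G) :
    φ * g * φ⁻¹ ∈ Q.inertia G := by
  rw [MulAction.mem_stabilizer_iff] at hφ
  intro x
  have h1 := hg (φ⁻¹ • x)
  have h2 : φ • (g • φ⁻¹ • x - φ⁻¹ • x) ∈ φ • Q := Ideal.smul_mem_pointwise_smul φ _ Q h1
  rw [hφ, smul_sub, smul_inv_smul] at h2
  simpa [mul_smul] using h2

theorem invSub_stable {G O : Type} [Group G] [CommRing O] [MulSemiringAction G O] {F : Type}
    [Field F] {n : ℕ} (ρ : G →* Matrix (Fin n) (Fin n) F) (Q : Ideal O)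
    (φ : G) (hφ : φ ∈ MulAction.stabilizer G Q) :
    ∀ v ∈ invSub ρ (Q.inertia G), Matrix.toLin' (ρ φ⁻¹) v ∈ invSub ρ (Q.inertia G) := by
  intro v hv g hg
  have h1 := hv (φ * g * φ⁻¹) (inertia_conj Q φ hφ g hg)
  rw [Matrix.toLin'_apply, Matrix.mulVec_mulVec, ← map_mul]
  have h2 : g * φ⁻¹ = φ⁻¹ * (φ * g * φ⁻¹) := by group
  rw [h2, map_mul, ← Matrix.mulVec_mulVec, h1]

theorem endOn_apply {G O : Type} [Group G] [CommRing O] [MulSemiringAction G O] {F : Type}
    [Field F] {n : ℕ} (ρ : G →* Matrix (Fin n) (Fin n) F) (Q : Ideal O)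
    (φ : G) (hφ : φ ∈ MulAction.stabilizer G Q) (v : invSub ρ (Q.inertia G)) :
    (endOn ρ (Q.inertia G) φ⁻¹ v : Fin n → F) = (ρ φ⁻¹).mulVec v := by
  unfold endOn
  rw [dif_pos (invSub_stable ρ Q φ hφ)]
  rfl

theorem endOn_pow_apply {G O : Type} [Group G] [CommRing O] [MulSemiringAction G O] {F : Type}
    [Field F] {n : ℕ} (ρ : G →* Matrix (Fin n) (Fin n) F) (Q : Ideal O)
    (φ : G) (hφ : φ ∈ MulAction.stabilizer G Q) (f : ℕ) (v : invSub ρ (Q.inertia G)) :
    (((endOn ρ (Q.inertia G) φ⁻¹) ^ f) v : Fin n → F) = (ρ (φ ^ f)⁻¹).mulVec v := by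
  induction f generalizing v with
  | zero => simp
  | succ f ih =>
    rw [pow_succ, Module.End.mul_apply, ih, endOn_apply ρ Q φ hφ, Matrix.mulVec_mulVec, ← map_mul,
      pow_succ', mul_inv_rev]

theorem core_aux {G G' O : Type} [Group G] [Group G'] [CommRing O] [MulSemiringAction G O]
    [MulSemiringAction G' O] {F : Type} [Field F] {n : ℕ} (ρ : G →* Matrix (Fin n) (Fin n) F)
    (r : G' →* G) (hr : ∀ (g : G') (x : O), r g • x = g • x) (Q : Ideal O)
    (φ : G) (hst : φ ∈ MulAction.stabilizer G Q) (ψ : G') (hst' : ψ ∈ MulAction.stabilizer G' Q)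
    (f : ℕ) (j : G) (hj : j ∈ Q.inertia G) (hψj : r ψ = φ ^ f * j) :
    ((endOn ρ (Q.inertia G) φ⁻¹) ^ f).charpoly ∣
      (endOn (ρ.comp r) (Q.inertia G') ψ⁻¹).charpoly := by
  have hle : invSub ρ (Q.inertia G) ≤ invSub (ρ.comp r) (Q.inertia G') := by
    intro x hx g hg
    refine hx (r g) fun y => ?_
    rw [hr]
    exact hg y
  refine charpoly_dvd_of_comm (Submodule.inclusion hle) (Submodule.inclusion_injective hle) _ _ ?_
  intro x
  apply Subtype.ext
  have a1 := endOn_apply (ρ.comp r) Q ψ hst' (Submodule.inclusion hle x)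
  have a2 := endOn_pow_apply ρ Q φ hst f x
  rw [a1, Submodule.coe_inclusion, Submodule.coe_inclusion, MonoidHom.comp_apply, map_inv, hψj,
    mul_inv_rev, map_mul, ← Matrix.mulVec_mulVec, ← a2]
  have h3 : ((((endOn ρ (Q.inertia G) φ⁻¹) ^ f) x : invSub ρ (Q.inertia G)) : Fin n → F) ∈
    invSub ρ (Q.inertia G) := Subtype.property _
  exact h3 j⁻¹ (Subgroup.inv_mem _ hj)

theorem expand_reverse_dvd {F : Type} [Field F] {p q : F[X]} (f : ℕ) (h : p ∣ q) :
    expand F f p.reverse ∣ expand F f q.reverse := by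
  obtain ⟨c, hc⟩ := reverse_dvd h
  rw [hc, map_mul]
  exact dvd_mul_right _ _

theorem core {G G' O : Type} [Group G] [Group G'] [CommRing O] [MulSemiringAction G O]
    [MulSemiringAction G' O] {F : Type} [Field F] {n : ℕ} (ρ : G →* Matrix (Fin n) (Fin n) F)
    (r : G' →* G) (hr : ∀ (g : G') (x : O), r g • x = g • x) (Q : Ideal O)
    (φ : G) (hst : φ ∈ MulAction.stabilizer G Q) (ψ : G') (hst' : ψ ∈ MulAction.stabilizer G' Q)
    (f : ℕ) (j : G) (hj : j ∈ Q.inertia G) (hψj : r ψ = φ ^ f * j) :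
    eulerPoly ρ Q φ ∣ expand F f (eulerPoly (ρ.comp r) Q ψ) := by
  have h1 := rev_dvd_expand (endOn ρ (Q.inertia G) φ⁻¹) f
  have h2 := expand_reverse_dvd f (core_aux ρ r hr Q φ hst ψ hst' f j hj hψj)
  exact h1.trans h2

end Places

end DivExpand

section Main

variable {K : Type} [Field K] [NumberField K] {Ω : Type} [Field Ω] [Algebra K Ω] [IsAlgClosed Ω]
  [Algebra.IsAlgebraic K Ω]

open DivExpand

theorem dvd_expand (V : LSystem (Ω ≃ₐ[K] Ω)) (P : HeightOneSpectrum (𝓞 K) → ℚ[X])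
    (hP : IsEulerFamily K Ω V P) (E : IntermediateField K Ω) [NumberField E]
    (P' : HeightOneSpectrum (𝓞 E) → ℚ[X]) (hP' : IsEulerFamily E Ω (V.res E) P')
    (v : HeightOneSpectrum (𝓞 K)) :
    ∃ w : PlacesOver K E v, P v ∣ expand ℚ (w.1.asIdeal.inertiaDeg (𝓞 K)) (P' w.1) := by
  obtain ⟨l, hl, hlv⟩ := exists_prime v
  have : Fact l.Prime := ⟨by rcases hl with rfl | rfl <;> norm_num⟩
  obtain ⟨Q, hQ, hv⟩ := exists_over (Ω := Ω) v
  obtain ⟨φ, hφ⟩ := exists_frob v Q hQ hv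
  have hst := frob_mem_stabilizer v Q hQ hv φ hφ
  have htower : (Q.under (𝓞 E)).under (𝓞 K) = v.asIdeal := by
    rw [← hv]
    exact Ideal.under_under Q
  have hne : Q.under (𝓞 E) ≠ ⊥ := by
    intro h
    rw [h] at htower
    apply v.ne_bot
    rw [← htower, Ideal.under_bot]
  obtain ⟨w, hw⟩ : ∃ w : HeightOneSpectrum (𝓞 E), Q.under (𝓞 E) = w.asIdeal :=
    ⟨⟨Q.under (𝓞 E), Ideal.IsPrime.under _ Q, hne⟩, rfl⟩
  rw [hw] at htower
  obtain ⟨ψ, hψ⟩ := exists_frob w Q hQ hw
  have hst' := frob_mem_stabilizer w Q hQ hw ψ hψ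
  have h1Q : (1 : Ω ≃ₐ[K] Ω)⁻¹ • Q = Q := by rw [inv_one, one_smul]
  obtain ⟨-, j, hj, hψj⟩ := frob_conj E v Q hQ hv φ hφ ⟨w, htower⟩ 1 (by rw [h1Q]; exact hw) ψ
    (by rw [h1Q]; exact hψ)
  rw [one_mul, inv_one, mul_one] at hψj
  refine ⟨⟨w, htower⟩, ?_⟩
  have hlw : (l : 𝓞 E) ∉ w.asIdeal := by
    intro h
    apply hlv
    rw [← htower, Ideal.mem_comap, map_natCast]
    exact h
  have e1 := hP v l hlv Q hQ hv φ hφ
  have e2 := hP' w l hlw Q hQ hw ψ hψ
  have key := core (V.rep l) (resHom K E Ω) (fun _ _ => rfl) Q φ hst ψ hst' _ j hj hψj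
  have e2' : eulerPoly ((V.rep l).comp (resHom K E Ω)) Q ψ =
    (P' w).map (algebraMap ℚ ℚ_[l]) := e2
  rw [e1, e2', ← map_expand] at key
  exact (Polynomial.map_dvd_map' (algebraMap ℚ ℚ_[l])).1 key

theorem natDegree_le (V : LSystem (Ω ≃ₐ[K] Ω)) (P : HeightOneSpectrum (𝓞 K) → ℚ[X])
    (hP : IsEulerFamily K Ω V P) :
    ∃ d : ℕ, ∀ v, (P v).natDegree ≤ d ∧ (P v).coeff 0 = 1 := by
  refine ⟨max (V.dim 2) (V.dim 3), fun v => ?_⟩
  obtain ⟨l, hl, hlv⟩ := exists_prime v
  have : Fact l.Prime := ⟨by rcases hl with rfl | rfl <;> norm_num⟩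
  obtain ⟨Q, hQ, hv⟩ := exists_over (Ω := Ω) v
  obtain ⟨φ, hφ⟩ := exists_frob v Q hQ hv
  have e1 := hP v l hlv Q hQ hv φ hφ
  constructor
  · have h1 : (P v).natDegree = (eulerPoly (V.rep l) Q φ).natDegree := by
      rw [e1, natDegree_map]
    rw [h1]
    unfold eulerPoly
    refine (reverse_natDegree_le _).trans ?_
    rw [LinearMap.charpoly_natDegree]
    refine (Submodule.finrank_le _).trans ?_
    rw [Module.finrank_fintype_fun_eq_card, Fintype.card_fin]
    rcases hl with rfl | rfl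
    · exact le_max_left _ _
    · exact le_max_right _ _
  · have h1 : (eulerPoly (V.rep l) Q φ).coeff 0 = 1 := by
      unfold eulerPoly
      rw [coeff_zero_reverse]
      exact LinearMap.charpoly_monic _
    rw [e1, coeff_map] at h1
    exact (algebraMap ℚ ℚ_[l]).injective (h1.trans (map_one _).symm)

end Main

end Pool.BK
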