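import Pool.Agent.BK.ConvergeCore
import Pool.Agent.BK.DivExpand

/-!
Convergence of the Euler product of a system of representations in a right half plane.
-/

open scoped Pointwise NumberField
open Polynomial IsDedekindDomain Filter Topology

namespace Pool.BK

section
variable (K : Type) [Field K] [NumberField K] (Ω : Type) [Field Ω] [Algebra K Ω] [IsAlgClosed Ω]
  [Algebra.IsAlgebraic K Ω]

theorem exists_halfplane (V : LSystem (Ω ≃ₐ[K] Ω)) (P : HeightOneSpectrum (𝓞 K) → ℚ[X])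
    (hP : IsEulerFamily K Ω V P) (E : IntermediateField K Ω) [NumberField E]
    (P' : HeightOneSpectrum (𝓞 E) → ℚ[X]) (hP' : IsEulerFamily E Ω (V.res E) P') (σ : ℝ)
    (hσ : ∀ s : ℂ, σ < s.re → ∃ z : ℂ, z ≠ 0 ∧ HasProd (eulerFactor E P' s) z) :
    ∃ σ' : ℝ, ∀ s : ℂ, σ' < s.re → ∃ z : ℂ, z ≠ 0 ∧ HasProd (eulerFactor K P s) z := by
  obtain ⟨d, hd⟩ := natDegree_le (V := V) (P := P) (hP := hP)
  obtain ⟨d', hd'⟩ := natDegree_le (V := V.res E) (P := P') (hP := hP')
  exact Converge.halfplane_core K Ω P E P' d hd (fun w => (hd' w).2)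
    (fun v => dvd_expand (V := V) (P := P) (hP := hP) (E := E) (P' := P') (hP' := hP') (v := v)) σ hσ

end

end Pool.BK
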