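import Pool.Agent.Helper95.BK.Defs2

open scoped Pointwise NumberField
open Polynomial IsDedekindDomain

namespace Pool.BK

namespace FixConj

variable {K : Type} [Field K] {Ω : Type} [Field Ω] [Algebra K Ω]

theorem exists_ext [Algebra.IsAlgebraic K Ω] (E : IntermediateField K Ω) (ρ : E →+* ℂ) :
    ∃ ρ' : Ω →+* ℂ, ∀ x : E, ρ' x = ρ x := by
  let _ : Algebra E ℂ := ρ.toAlgebra
  have hEalg : Algebra.IsAlgebraic E Ω := Algebra.IsAlgebraic.tower_top (K := K) E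
  let j : Ω →ₐ[E] ℂ := IsAlgClosed.lift
  exact ⟨j.toRingHom, fun x => j.commutes x⟩

theorem exists_aut [IsAlgClosed Ω] [Algebra.IsAlgebraic K Ω] (j ρ : Ω →+* ℂ)
    (h : ∀ k : K, ρ (algebraMap K Ω k) = j (algebraMap K Ω k)) :
    ∃ g : Ω ≃ₐ[K] Ω, ∀ x, j (g x) = ρ x := by
  let _ : Algebra Ω ℂ := j.toAlgebra
  let _ : Algebra K ℂ := (j.comp (algebraMap K Ω)).toAlgebra
  have ist : IsScalarTower K Ω ℂ := IsScalarTower.of_algebraMap_eq fun x => rfl
  have hclos : IsAlgClosure K Ω := ⟨inferInstance, inferInstance⟩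
  have hnorm : Normal K Ω := IsAlgClosure.normal K Ω
  let ρ' : Ω →ₐ[K] ℂ := { toRingHom := ρ, commutes' := h }
  exact ⟨ρ'.restrictNormal' Ω, fun x => ρ'.restrictNormal_commutes Ω x⟩

end FixConj

open FixConj

variable (K : Type) [Field K] [NumberField K] (Ω : Type) [Field Ω] [Algebra K Ω] [IsAlgClosed Ω]
  [Algebra.IsAlgebraic K Ω]

variable {K Ω} in
theorem fixCount_conj (σ : Ω ≃ₐ[K] Ω) (j : Ω →+* ℂ) (h : ∀ x, j (σ x) = starRingEnd ℂ (j x)) :
    ∃ v : K →+* ℝ, ∀ (E : IntermediateField K Ω) [NumberField E],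
      fixCount E.fixingSubgroup σ = realCount K E v := by
  have hjinj : Function.Injective j := j.injective
  have hKr : NumberField.ComplexEmbedding.IsReal (j.comp (algebraMap K Ω)) := by
    rw [NumberField.ComplexEmbedding.isReal_iff]
    ext k
    rw [NumberField.ComplexEmbedding.conjugate_coe_eq]
    change starRingEnd ℂ (j (algebraMap K Ω k)) = _
    rw [← h, σ.commutes]
    rfl
  have hv : ∀ k, ((hKr.embedding k : ℝ) : ℂ) = j (algebraMap K Ω k) := fun k =>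
    hKr.coe_embedding_apply k
  refine ⟨hKr.embedding, fun E _ => ?_⟩
  set H := E.fixingSubgroup with hH
  have hHmem : ∀ g : Ω ≃ₐ[K] Ω, g ∈ H ↔ ∀ x ∈ E, g x = x := fun g =>
    IntermediateField.mem_fixingSubgroup_iff _ _
  -- fixed cosets
  have hfix : ∀ g : Ω ≃ₐ[K] Ω, σ • (g : (Ω ≃ₐ[K] Ω) ⧸ H) = g ↔ ∀ x ∈ E, σ (g x) = g x := by
    intro g
    have e1 : σ • (g : (Ω ≃ₐ[K] Ω) ⧸ H) = ((σ * g : Ω ≃ₐ[K] Ω) : (Ω ≃ₐ[K] Ω) ⧸ H) := rfl
    rw [e1, eq_comm, QuotientGroup.eq, hHmem]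
    refine forall₂_congr fun x _ => ?_
    change g.symm (σ (g x)) = x ↔ _
    rw [AlgEquiv.symm_apply_eq]
  have hr : ∀ (g : Ω ≃ₐ[K] Ω), (∀ x ∈ E, σ (g x) = g x) →
      NumberField.ComplexEmbedding.IsReal
        ((j.comp (g : Ω →+* Ω)).comp (algebraMap E Ω)) := by
    intro g hg
    rw [NumberField.ComplexEmbedding.isReal_iff]
    ext x
    rw [NumberField.ComplexEmbedding.conjugate_coe_eq]
    change starRingEnd ℂ (j (g x)) = j (g x)
    rw [← h, hg x x.2]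
  have hout : ∀ q : MulAction.fixedBy ((Ω ≃ₐ[K] Ω) ⧸ H) σ, ∀ x ∈ E,
      σ (q.1.out x) = q.1.out x := by
    intro q
    rw [← hfix, QuotientGroup.out_eq']
    exact q.2
  let f : MulAction.fixedBy ((Ω ≃ₐ[K] Ω) ⧸ H) σ →
      {r : E →+* ℝ // r.comp (algebraMap K E) = hKr.embedding} := fun q =>
    ⟨(hr q.1.out (hout q)).embedding, by
      ext k
      apply Complex.ofReal_injective
      rw [hv]
      change (((hr q.1.out (hout q)).embedding (algebraMap K E k) : ℝ) : ℂ) = _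
      rw [NumberField.ComplexEmbedding.IsReal.coe_embedding_apply]
      change j (q.1.out (algebraMap K Ω k)) = _
      rw [AlgEquiv.commutes]⟩
  have hf : ∀ q (x : E), (((f q).1 x : ℝ) : ℂ) = j (q.1.out x) := fun q x =>
    (hr q.1.out (hout q)).coe_embedding_apply x
  apply Nat.card_eq_of_bijective f
  constructor
  · intro q q' hqq
    have h1 : ∀ x : E, q.1.out (x : Ω) = q'.1.out (x : Ω) := by
      intro x
      apply hjinj
      rw [← hf, ← hf, hqq]
    apply Subtype.ext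
    rw [← QuotientGroup.out_eq' q.1, ← QuotientGroup.out_eq' q'.1, QuotientGroup.eq, hHmem]
    intro x hx
    change (q.1.out).symm (q'.1.out x) = x
    rw [AlgEquiv.symm_apply_eq]
    exact (h1 ⟨x, hx⟩).symm
  · rintro ⟨r, hrK⟩
    obtain ⟨ρ, hρ⟩ := exists_ext E (Complex.ofRealHom.comp r)
    obtain ⟨g, hg⟩ := exists_aut (K := K) j ρ (fun k => by
      rw [← hv, ← hrK]
      exact hρ (algebraMap K E k))
    have hg' : ∀ x : E, j (g x) = (r x : ℂ) := fun x => by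
      rw [hg, hρ]; rfl
    have hgfix : ∀ x ∈ E, σ (g x) = g x := by
      intro x hx
      apply hjinj
      rw [h, hg' ⟨x, hx⟩, Complex.conj_ofReal]
    refine ⟨⟨(g : (Ω ≃ₐ[K] Ω) ⧸ H), (hfix g).2 hgfix⟩, ?_⟩
    apply Subtype.ext
    ext x
    apply Complex.ofReal_injective
    rw [hf]
    change j ((Quotient.out (g : (Ω ≃ₐ[K] Ω) ⧸ H)) x) = (r x : ℂ)
    rw [← hg']
    congr 1
    have h2 : (QuotientGroup.mk g : (Ω ≃ₐ[K] Ω) ⧸ H) =
        QuotientGroup.mk (Quotient.out (g : (Ω ≃ₐ[K] Ω) ⧸ H)) :=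
      (QuotientGroup.out_eq' _).symm
    rw [QuotientGroup.eq, hHmem] at h2
    have h3 := h2 x x.2
    change g.symm ((Quotient.out (g : (Ω ≃ₐ[K] Ω) ⧸ H)) (x : Ω)) = x at h3
    rw [AlgEquiv.symm_apply_eq] at h3
    exact h3

end Pool.BK
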