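import Pool.Agent.Helper95.BK.Defs2

/-!
Regrouping the Euler product over the places below.
-/

open scoped Pointwise NumberField
open Polynomial IsDedekindDomain

namespace Pool.BK

namespace HasProdLocal

theorem natCast_cpow_pow (n f : ℕ) (s : ℂ) : ((n : ℂ) ^ s) ^ f = (((n ^ f : ℕ) : ℂ)) ^ s := by
  induction f with
  | zero => simp
  | succ f ih =>
    rw [pow_succ, ih, pow_succ, Nat.cast_mul, Complex.natCast_mul_natCast_cpow]

variable (K L : Type) [Field K] [Field L] [Algebra K L] [NumberField K] [NumberField L]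

theorem finite_placesOver' (v : HeightOneSpectrum (𝓞 K)) : Finite (PlacesOver K L v) := by
  have h1 : v.asIdeal.IsMaximal := v.isMaximal
  have h2 := IsDedekindDomain.primesOver_finite v.asIdeal (𝓞 L)
  refine Set.Finite.of_injOn (s := (Set.univ : Set (PlacesOver K L v))) (f := fun w => w.1.asIdeal)
    (t := v.asIdeal.primesOver (𝓞 L)) ?_ ?_ h2 |> Set.finite_univ_iff.1
  · intro w _
    exact ⟨w.1.isPrime, ⟨w.2.symm⟩⟩
  · intro w _ w' _ h
    exact Subtype.ext (HeightOneSpectrum.ext h)

/-- The place of `K` below a place of `L`. -/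
noncomputable def below (w : HeightOneSpectrum (𝓞 L)) : HeightOneSpectrum (𝓞 K) where
  asIdeal := w.asIdeal.under (𝓞 K)
  isPrime := by
    have := w.isPrime
    infer_instance
  ne_bot := Ideal.under_ne_bot (𝓞 K) w.ne_bot

/-- The places of `L`, sorted by the place below. -/
noncomputable def sortPlaces :
    (Σ v : HeightOneSpectrum (𝓞 K), PlacesOver K L v) ≃ HeightOneSpectrum (𝓞 L) where
  toFun x := x.2.1
  invFun w := ⟨below K L w, w, rfl⟩
  left_inv := by
    rintro ⟨v, w, hw⟩
    have : below K L w = v := HeightOneSpectrum.ext hw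
    subst this
    rfl
  right_inv w := rfl

theorem aeval_localProd (P : HeightOneSpectrum (𝓞 L) → ℚ[X]) (s : ℂ)
    (v : HeightOneSpectrum (𝓞 K)) :
    (aeval ((v.asIdeal.absNorm : ℂ) ^ (-s)) (localProd K L v P))⁻¹ =
      ∏ᶠ w : PlacesOver K L v, eulerFactor L P s w.1 := by
  have := finite_placesOver' K L v
  have : Fintype (PlacesOver K L v) := Fintype.ofFinite _
  unfold localProd
  rw [finprod_eq_prod_of_fintype, finprod_eq_prod_of_fintype, map_prod, ← Finset.prod_inv_distrib]
  refine Finset.prod_congr rfl fun w _ => ?_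
  unfold eulerFactor
  rw [expand_aeval, natCast_cpow_pow]
  have : w.1.asIdeal.IsPrime := w.1.isPrime
  have : w.1.asIdeal.LiesOver v.asIdeal := ⟨w.2.symm⟩
  rw [Ideal.absNorm_pow_inertiaDeg v.asIdeal w.1.asIdeal]

end HasProdLocal

open HasProdLocal in
theorem hasProd_localProd (K L : Type) [Field K] [Field L] [Algebra K L] [NumberField K]
    [NumberField L] (P : HeightOneSpectrum (𝓞 L) → ℚ[X]) (s z : ℂ)
    (h : HasProd (eulerFactor L P s) z) :
    HasProd (fun v : HeightOneSpectrum (𝓞 K) =>
      (aeval ((v.asIdeal.absNorm : ℂ) ^ (-s)) (localProd K L v P))⁻¹) z := by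
  have h1 : HasProd (fun x : Σ v : HeightOneSpectrum (𝓞 K), PlacesOver K L v =>
      eulerFactor L P s x.2.1) z :=
    (sortPlaces K L).hasProd_iff.2 h
  refine HasProd.sigma h1 fun v => ?_
  have := finite_placesOver' K L v
  have : Fintype (PlacesOver K L v) := Fintype.ofFinite _
  rw [aeval_localProd, finprod_eq_prod_of_fintype]
  exact hasProd_fintype _

end Pool.BK
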