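import Pool.Agent.BK.Root
import Pool.Agent.BK.Bound
import Pool.Agent.BK.Analytic
import Pool.Agent.BK.H1Relation
import Pool.Agent.BK.HasProdLocal
import Pool.Agent.BK.LocalTrace

/-!
The order of vanishing formula for the powers of the L-function over the base field, from a
relation between permutation characters with an arbitrary positive constant.
-/

open scoped Pointwise NumberField
open Polynomial IsDedekindDomain

namespace Pool.BK

namespace RelBasePow

lemma localProd_map {K L : Type} [Field K] [Field L] [Algebra K L] [NumberField K]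
    [NumberField L] {F F' : Type} [Field F] [Field F'] (i : F →+* F')
    (v : HeightOneSpectrum (𝓞 K)) (P : HeightOneSpectrum (𝓞 L) → F[X]) :
    (localProd K L v P).map i = localProd K L v (fun w => (P w).map i) := by
  have := HasProdLocal.finite_placesOver' K L v
  have := Fintype.ofFinite (PlacesOver K L v)
  rw [localProd, localProd, finprod_eq_prod_of_fintype, finprod_eq_prod_of_fintype,
    Polynomial.map_prod]
  refine Finset.prod_congr rfl fun w _ => ?_
  rw [Polynomial.map_expand]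

variable {K : Type} [Field K] [NumberField K] {Ω : Type} [Field Ω] [Algebra K Ω] [IsAlgClosed Ω]
  [Algebra.IsAlgebraic K Ω]

omit [NumberField K] [IsAlgClosed Ω] [Algebra.IsAlgebraic K Ω] in
/-- an Euler family gives local families for all primes not below the place -/
lemma localFamily {V : LSystem (Ω ≃ₐ[K] Ω)} {E : IntermediateField K Ω} [NumberField E]
    {P : HeightOneSpectrum (𝓞 E) → ℚ[X]} (hP : IsEulerFamily E Ω (V.res E) P)
    (v : HeightOneSpectrum (𝓞 K)) (l : ℕ) [Fact l.Prime] (hl : (l : 𝓞 K) ∉ v.asIdeal) :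
    IsLocalFamily E (V.rep l) v (fun w => (P w).map (algebraMap ℚ ℚ_[l])) := by
  intro w hw Q hQ hQw φ hφ
  refine hP w l ?_ Q hQ hQw φ hφ
  intro h
  apply hl
  rw [← hw, Ideal.under_def, Ideal.mem_comap]
  simpa using h

omit [NumberField K] in
/-- for every place one of the primes `2`, `3` is not below it -/
lemma exists_prime (v : HeightOneSpectrum (𝓞 K)) :
    ∃ l : ℕ, (l = 2 ∨ l = 3) ∧ ∃ _ : Fact l.Prime, (l : 𝓞 K) ∉ v.asIdeal := by
  by_cases h : ((2 : ℕ) : 𝓞 K) ∈ v.asIdeal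
  · refine ⟨3, Or.inr rfl, ⟨Nat.prime_three⟩, fun h3 => v.isPrime.ne_top ?_⟩
    rw [Ideal.eq_top_iff_one]
    have : (1 : 𝓞 K) = ((3 : ℕ) : 𝓞 K) - ((2 : ℕ) : 𝓞 K) := by norm_num
    rw [this]
    exact sub_mem h3 h
  · exact ⟨2, Or.inl rfl, ⟨Nat.prime_two⟩, h⟩

/-- the degree of an Euler polynomial -/
lemma natDegree_eulerPoly {G O F : Type} [Group G] [CommRing O] [MulSemiringAction G O] [Field F]
    {n : ℕ} (ρ : G →* Matrix (Fin n) (Fin n) F) (P : Ideal O) (φ : G) :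
    (eulerPoly ρ P φ).natDegree ≤ n := by
  rw [eulerPoly]
  refine (Polynomial.reverse_natDegree_le _).trans ?_
  rw [LinearMap.charpoly_natDegree]
  refine (Submodule.finrank_le _).trans ?_
  rw [Module.finrank_fintype_fun_eq_card, Fintype.card_fin]

/-- evaluation of the quotient of the local products -/
lemma aeval_core {ι : Type} [Fintype ι] (p : ι → ℚ[X]) (a : ι → ℤ) (R0 : ℚ[X])
    (hR0 : ∏ i, p i ^ (a i).toNat = (∏ i, p i ^ (-(a i)).toNat) * R0) (x : ℂ)
    (hne : ∀ i, aeval x (p i) ≠ 0) : aeval x R0 = ∏ i, aeval x (p i) ^ a i := by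
  have h2 := congrArg (aeval x) hR0
  rw [map_mul] at h2
  have h3 : aeval x (∏ i, p i ^ (-(a i)).toNat) ≠ 0 := by
    rw [map_prod]
    refine Finset.prod_ne_zero_iff.2 fun i _ => ?_
    rw [map_pow]
    exact pow_ne_zero _ (hne i)
  have h5 : aeval x R0 = aeval x (∏ i, p i ^ (a i).toNat) / aeval x (∏ i, p i ^ (-(a i)).toNat) := by
    rw [h2, mul_div_cancel_left₀ _ h3]
  rw [h5, map_prod, map_prod, ← Finset.prod_div_distrib]
  refine Finset.prod_congr rfl fun i _ => ?_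
  rw [map_pow, map_pow, ← zpow_natCast, ← zpow_natCast, ← zpow_sub₀ (hne i)]
  congr 1
  omega

/-- every complex number of absolute value less than `N^(-σ)` is zero or `N^(-s)` with
`Re s > σ` -/
lemma exists_cpow (N : ℕ) (hN : 1 < N) (σ : ℝ) (x : ℂ) (hx0 : x ≠ 0)
    (hx : ‖x‖ < (N : ℝ) ^ (-σ)) : ∃ s : ℂ, σ < s.re ∧ x = (N : ℂ) ^ (-s) := by
  have hN0 : (0 : ℝ) < N := by positivity
  have hN1 : (1 : ℝ) < N := by exact_mod_cast hN
  have hlog : 0 < Real.log N := Real.log_pos hN1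
  have hNc : (N : ℂ) ≠ 0 := by exact_mod_cast (by omega : N ≠ 0)
  refine ⟨-(Complex.log x / (Real.log N : ℂ)), ?_, ?_⟩
  · have h1 : (-(Complex.log x / (Real.log N : ℂ))).re = -(Real.log ‖x‖ / Real.log N) := by
      rw [Complex.neg_re, Complex.div_ofReal_re, Complex.log_re]
    rw [h1]
    have h2 : Real.log ‖x‖ < Real.log ((N : ℝ) ^ (-σ)) :=
      Real.log_lt_log (norm_pos_iff.2 hx0) hx
    rw [Real.log_rpow hN0] at h2
    have h3 : Real.log ‖x‖ / Real.log N < -σ := by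
      rw [div_lt_iff₀ hlog]
      exact h2
    linarith
  · rw [neg_neg, Complex.cpow_def_of_ne_zero hNc]
    have h1 : Complex.log (N : ℂ) = (Real.log N : ℂ) := by
      have := Complex.ofReal_log hN0.le
      rw [this]
      simp
    rw [h1, mul_div_cancel₀ _ (by exact_mod_cast hlog.ne')]
    exact (Complex.exp_log hx0).symm

end RelBasePow

section Main

variable (K : Type) [Field K] [NumberField K] (Ω : Type) [Field Ω] [Algebra K Ω] [IsAlgClosed Ω]
  [Algebra.IsAlgebraic K Ω]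

open RelBasePow

theorem rel_base_pow_gen (V : LSystem (Ω ≃ₐ[K] Ω))
    (B : ∀ (p : ℕ) [Fact p.Prime], PeriodData (Ω ≃ₐ[K] Ω) (𝓞 Ω) p) {ι : Type} [Fintype ι]
    (E : ι → IntermediateField K Ω) [∀ i, NumberField (E i)] (a : ι → ℤ) (m : ℕ) (hm : 0 < m)
    (ha : ∀ g : Ω ≃ₐ[K] Ω, ∑ i, a i * (fixCount (E i).fixingSubgroup g : ℤ) = m) (n : ℕ)
    (h : ∀ i, BKpow (E i) Ω (V.res (E i)) (fun p _ => (B p).res (E i)) n) :
    BKpow K Ω V B (m * n) := by
  classical
  -- the index type is not empty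
  have hne : Nonempty ι := by
    by_contra hcon
    rw [not_nonempty_iff] at hcon
    have := ha 1
    simp at this
    omega
  choose P hP σ U Λ hUo hUσ hUr hmer hprod hord using h
  -- the local relation over `ℚ`
  let A : HeightOneSpectrum (𝓞 K) → ℚ[X] := fun v =>
    ∏ i, (localProd K (E i) v (P i)) ^ (a i).toNat
  let C : HeightOneSpectrum (𝓞 K) → ℚ[X] := fun v =>
    ∏ i, (localProd K (E i) v (P i)) ^ (-(a i)).toNat
  have key : ∀ (v : HeightOneSpectrum (𝓞 K)) (l : ℕ) [Fact l.Prime] (hl : (l : 𝓞 K) ∉ v.asIdeal)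
      (Q : Ideal (𝓞 Ω)) (hQ : Q.IsPrime) (hQv : Q.under (𝓞 K) = v.asIdeal) (φ : Ω ≃ₐ[K] Ω)
      (hφ : ∀ x : 𝓞 Ω, φ • x - x ^ v.asIdeal.absNorm ∈ Q),
      (eulerPoly (V.rep l) Q φ) ^ m * (C v).map (algebraMap ℚ ℚ_[l]) =
        (A v).map (algebraMap ℚ ℚ_[l]) ∧ ∀ i, (localProd K (E i) v (P i)).coeff 0 = 1 := by
    intro v l _ hl Q hQ hQv φ hφ
    obtain ⟨h1, h2⟩ := local_relation (V.rep l) v Q hQ hQv φ hφ E a m ha
      (fun i w => (P i w).map (algebraMap ℚ ℚ_[l])) (fun i => localFamily (hP i) v l hl)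
    simp only [← localProd_map] at h1 h2
    refine ⟨?_, fun i => ?_⟩
    · simp only [A, C, Polynomial.map_prod, Polynomial.map_pow]
      exact h1
    · have := h2 i
      rw [coeff_map] at this
      exact (algebraMap ℚ ℚ_[l]).injective (by rw [this, map_one])
  have hc0 : ∀ v i, (localProd K (E i) v (P i)).coeff 0 = 1 := by
    intro v
    obtain ⟨l, -, hl, hlv⟩ := exists_prime v
    obtain ⟨Q, hQ, hQv⟩ := exists_over (Ω := Ω) v
    obtain ⟨φ, hφ⟩ := exists_frob v Q hQ hQv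
    exact (key v l hlv Q hQ hQv φ hφ).2
  have hCne : ∀ v, C v ≠ 0 := by
    intro v
    refine Finset.prod_ne_zero_iff.2 fun i _ => pow_ne_zero _ fun h0 => ?_
    have := hc0 v i
    rw [h0] at this
    simp at this
  have hdvd : ∀ v, C v ∣ A v := by
    intro v
    obtain ⟨l, -, hl, hlv⟩ := exists_prime v
    obtain ⟨Q, hQ, hQv⟩ := exists_over (Ω := Ω) v
    obtain ⟨φ, hφ⟩ := exists_frob v Q hQ hQv
    rw [← Polynomial.map_dvd_map' (algebraMap ℚ ℚ_[l])]
    exact ⟨_, by rw [← (key v l hlv Q hQ hQv φ hφ).1, mul_comm]⟩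
  choose R0 hR0 using hdvd
  have hpow : ∀ (v : HeightOneSpectrum (𝓞 K)) (l : ℕ) [Fact l.Prime] (hl : (l : 𝓞 K) ∉ v.asIdeal)
      (Q : Ideal (𝓞 Ω)) (hQ : Q.IsPrime) (hQv : Q.under (𝓞 K) = v.asIdeal) (φ : Ω ≃ₐ[K] Ω)
      (hφ : ∀ x : 𝓞 Ω, φ • x - x ^ v.asIdeal.absNorm ∈ Q),
      (eulerPoly (V.rep l) Q φ) ^ m = (R0 v).map (algebraMap ℚ ℚ_[l]) := by
    intro v l _ hl Q hQ hQv φ hφ
    have h1 := (key v l hl Q hQ hQv φ hφ).1
    rw [hR0 v, Polynomial.map_mul, mul_comm] at h1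
    exact mul_left_cancel₀
      ((Polynomial.map_ne_zero_iff (algebraMap ℚ ℚ_[l]).injective).2 (hCne v)) h1
  have hroot : ∀ v : HeightOneSpectrum (𝓞 K), ∃ r : ℚ[X], r.coeff 0 = 1 ∧ r ^ m = R0 v ∧
      r.natDegree ≤ max (V.dim 2) (V.dim 3) := by
    intro v
    obtain ⟨l, hl23, hl, hlv⟩ := exists_prime v
    obtain ⟨Q, hQ, hQv⟩ := exists_over (Ω := Ω) v
    obtain ⟨φ, hφ⟩ := exists_frob v Q hQ hQv
    obtain ⟨r, hr0, hrm, hr⟩ := exists_root_rat l (eulerPoly (V.rep l) Q φ) (R0 v) m hm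
      (coeff_zero_reverse_charpoly _) (hpow v l hlv Q hQ hQv φ hφ)
    refine ⟨r, hr0, hrm, ?_⟩
    have h1 : r.natDegree = (eulerPoly (V.rep l) Q φ).natDegree := by
      rw [hr, Polynomial.natDegree_map]
    rw [h1]
    refine (natDegree_eulerPoly _ _ _).trans ?_
    rcases hl23 with rfl | rfl
    · exact le_max_left _ _
    · exact le_max_right _ _
  choose P0 hP00 hP0m hP0d using hroot
  have hfam : IsEulerFamily K Ω V P0 := by
    intro v l _ hl Q hQ hQv φ hφ
    obtain ⟨r, hr0, hrm, hr⟩ := exists_root_rat l (eulerPoly (V.rep l) Q φ) (R0 v) m hm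
      (coeff_zero_reverse_charpoly _) (hpow v l hl Q hQ hQv φ hφ)
    rw [hr, root_unique r (P0 v) m hm hr0 (hP00 v) (by rw [hrm, hP0m])]
  let σ0 : ℝ := Finset.univ.sup' Finset.univ_nonempty σ
  have hσ0 : ∀ i, σ i ≤ σ0 := fun i => Finset.le_sup' σ (Finset.mem_univ i)
  have hNv : ∀ v : HeightOneSpectrum (𝓞 K), 1 < v.asIdeal.absNorm := by
    intro v
    have h0 : v.asIdeal.absNorm ≠ 0 := by
      rw [Ne, Ideal.absNorm_eq_zero_iff]; exact v.ne_bot
    have h1 : v.asIdeal.absNorm ≠ 1 := by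
      rw [Ne, Ideal.absNorm_eq_one_iff]; exact v.isPrime.ne_top
    omega
  -- the factors of the fields `E i` do not vanish on the half plane
  have hloc : ∀ s : ℂ, σ0 < s.re → ∀ v i,
      aeval ((v.asIdeal.absNorm : ℂ) ^ (-s)) (localProd K (E i) v (P i)) ≠ 0 := by
    intro s hs v i h0
    obtain ⟨z, hz, hzp, -⟩ := hprod i s (lt_of_le_of_lt (hσ0 i) hs)
    have := ne_zero_of_hasProd (hasProd_localProd K (E i) (P i) s z hzp) hz v
    apply this
    rw [h0, inv_zero]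
  have hR0val : ∀ s : ℂ, σ0 < s.re → ∀ v,
      aeval ((v.asIdeal.absNorm : ℂ) ^ (-s)) (R0 v) =
        ∏ i, aeval ((v.asIdeal.absNorm : ℂ) ^ (-s)) (localProd K (E i) v (P i)) ^ a i := by
    intro s hs v
    exact aeval_core (fun i => localProd K (E i) v (P i)) a (R0 v) (hR0 v) _ (hloc s hs v)
  obtain ⟨σ1, hσ1⟩ := halfplane_of_roots K P0 (max (V.dim 2) (V.dim 3)) hP0d hP00 σ0 (by
    intro v x hx
    by_cases hx0 : x = 0
    · rw [hx0, ← coeff_zero_eq_aeval_zero', hP00 v]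
      simp
    · obtain ⟨s, hs, rfl⟩ := exists_cpow _ (hNv v) σ0 x hx0 hx
      intro h0
      have h1 := hR0val s hs v
      rw [← hP0m v, map_pow, h0, zero_pow hm.ne'] at h1
      exact (Finset.prod_ne_zero_iff.2 fun i _ => zpow_ne_zero _ (hloc s hs v i)) h1.symm)
  refine ⟨P0, hfam, max σ0 σ1, ⋂ i, U i, fun s => ∏ i, Λ i s ^ a i, isOpen_iInter_of_finite hUo,
    ?_, ?_, ?_, ?_, ?_⟩
  · intro s hs
    refine Set.mem_iInter.2 fun i => hUσ i ?_
    exact lt_of_le_of_lt ((hσ0 i).trans (le_max_left _ _)) hs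
  · intro t ht
    exact Set.mem_iInter.2 fun i => hUr i t ht
  · intro s hs
    have hmi : ∀ i, MeromorphicAt (Λ i) s := fun i => hmer i s (Set.mem_iInter.1 hs i)
    exact MeromorphicAt.fun_prod fun i _ => (hmi i).fun_zpow (a i)
  · intro s hs
    have hs0 : σ0 < s.re := lt_of_le_of_lt (le_max_left _ _) hs
    have hs1 : σ1 < s.re := lt_of_le_of_lt (le_max_right _ _) hs
    obtain ⟨w, hw, hwp⟩ := hσ1 s hs1
    choose z hz hzp hzΛ using fun i => hprod i s (lt_of_le_of_lt (hσ0 i) hs0)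
    refine ⟨w, hw, hwp, ?_⟩
    have h1 := hasProd_zpow (fun i (v : HeightOneSpectrum (𝓞 K)) =>
      (aeval ((v.asIdeal.absNorm : ℂ) ^ (-s)) (localProd K (E i) v (P i)))⁻¹) z hz
      (fun i => hasProd_localProd K (E i) (P i) s (z i) (hzp i)) a
    have h2 := hasProd_zpow (ι := Unit) (fun _ (v : HeightOneSpectrum (𝓞 K)) =>
      eulerFactor K P0 s v) (fun _ => w) (fun _ => hw) (fun _ => hwp) (fun _ => (m : ℤ))
    simp only [Finset.univ_unique, Finset.prod_singleton, zpow_natCast] at h2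
    have h3 : (fun v : HeightOneSpectrum (𝓞 K) => eulerFactor K P0 s v ^ m) =
        fun v => ∏ i, ((aeval ((v.asIdeal.absNorm : ℂ) ^ (-s))
          (localProd K (E i) v (P i)))⁻¹) ^ a i := by
      funext v
      rw [eulerFactor, inv_pow, ← map_pow, hP0m v, hR0val s hs0 v, ← Finset.prod_inv_distrib]
      refine Finset.prod_congr rfl fun i _ => ?_
      rw [inv_zpow]
    rw [h3] at h2
    have h4 : w ^ m = ∏ i, z i ^ a i := h2.unique h1
    rw [pow_mul, h4, ← Finset.prod_pow]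
    refine Finset.prod_congr rfl fun i _ => ?_
    rw [hzΛ i, ← zpow_natCast, ← zpow_natCast, ← zpow_mul, ← zpow_mul, mul_comm]
  · intro p _
    have hfin : ∀ i, Module.Finite ℚ_[p] (H1f ((V.rep p).comp (resHom K (E i) Ω))
        ((B p).res (E i))) := fun i => (hord i p).1
    have hfin0 : Module.Finite ℚ_[p] (H1f (V.rep p) (B p)) :=
      finite_H1f (V.rep p) (V.cont p) (B p) (E hne.some) (hfin _)
    refine ⟨hfin0, ?_⟩
    have h1 := h1_relation (V.rep p) (V.cont p) (B p) E a m ha hfin hfin0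
    have h0 := h0_relation (V.rep p) E a m ha
    have h2 := (order_prod_zpow Λ 0
      (fun i => hmer i 0 (by simpa using hUr i 0 le_rfl)) a _ (fun i => (hord i p).2)).2
    rw [h2]
    congr 1
    have h3 : ∀ i, a i * ((n : ℤ) * ((Module.finrank ℚ_[p] (H1f ((V.res (E i)).rep p)
        ((B p).res (E i))) : ℤ) - (Pool.BK.h0 ((V.res (E i)).rep p) : ℤ))) =
        (n : ℤ) * (a i * (Module.finrank ℚ_[p] (H1f ((V.rep p).comp (resHom K (E i) Ω))
        ((B p).res (E i))) : ℤ)) - (n : ℤ) * (a i *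
          (Pool.BK.h0 ((V.rep p).comp (resHom K (E i) Ω)) : ℤ)) := by
      intro i
      change a i * ((n : ℤ) * ((Module.finrank ℚ_[p] (H1f ((V.rep p).comp (resHom K (E i) Ω))
        ((B p).res (E i))) : ℤ) - (Pool.BK.h0 ((V.rep p).comp (resHom K (E i) Ω)) : ℤ))) = _
      generalize (Module.finrank ℚ_[p] (H1f ((V.rep p).comp (resHom K (E i) Ω))
        ((B p).res (E i))) : ℤ) = X
      ring
    rw [Finset.sum_congr rfl fun i _ => h3 i, Finset.sum_sub_distrib, ← Finset.mul_sum,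
      ← Finset.mul_sum, h1, h0]
    push_cast
    ring

theorem rel_base_pow (V : LSystem (Ω ≃ₐ[K] Ω))
    (B : ∀ (p : ℕ) [Fact p.Prime], PeriodData (Ω ≃ₐ[K] Ω) (𝓞 Ω) p) {ι : Type} [Fintype ι]
    (E : ι → IntermediateField K Ω) [∀ i, NumberField (E i)] (a : ι → ℤ) (m : ℕ) (hm : 0 < m)
    (ha : ∀ g : Ω ≃ₐ[K] Ω, ∑ i, a i * (fixCount (E i).fixingSubgroup g : ℤ) = m)
    (h : ∀ i, BKHolds (E i) Ω (V.res (E i)) (fun p _ => (B p).res (E i))) :
    BKpow K Ω V B m := by
  have := rel_base_pow_gen K Ω V B E a m hm ha 1 h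
  rwa [mul_one] at this

end Main

end Pool.BK
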