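import Pool.Agent.BK.LocalTrace
import Pool.Agent.BK.H1Relation
import Pool.Agent.BK.HasProdLocal
import Pool.Agent.BK.Frob
import Pool.Agent.BK.Analytic

open scoped Pointwise NumberField
open Polynomial IsDedekindDomain

namespace Pool.BK

namespace RelPow

theorem localProd_map (K L : Type) [Field K] [Field L] [Algebra K L] [NumberField K]
    [NumberField L] {F F' : Type} [Field F] [Field F'] (f : F →+* F')
    (v : HeightOneSpectrum (𝓞 K)) (P : HeightOneSpectrum (𝓞 L) → F[X]) :
    localProd K L v (fun w => (P w).map f) = (localProd K L v P).map f := by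
  unfold localProd
  have h1 := (Polynomial.mapRingHom f).toMonoidHom.map_finprod_of_injective
    (Polynomial.map_injective f f.injective)
    (fun w : PlacesOver K L v => expand F (w.1.asIdeal.inertiaDeg (𝓞 K)) (P w.1))
  refine Eq.trans ?_ h1.symm
  refine finprod_congr fun w => ?_
  exact (Polynomial.map_expand).symm

/-- there is a prime number not below `v` -/
theorem exists_prime_notMem {K : Type} [Field K] [NumberField K] (v : HeightOneSpectrum (𝓞 K)) :
    ∃ l : ℕ, l.Prime ∧ (l : 𝓞 K) ∉ v.asIdeal := by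
  by_contra hcon
  push Not at hcon
  have h2 := hcon 2 Nat.prime_two
  have h3 := hcon 3 Nat.prime_three
  have h1 : (1 : 𝓞 K) ∈ v.asIdeal := by
    have := v.asIdeal.sub_mem h3 h2
    have e : ((3 : ℕ) : 𝓞 K) - ((2 : ℕ) : 𝓞 K) = 1 := by push_cast; norm_num
    rwa [e] at this
  exact v.isPrime.ne_top ((Ideal.eq_top_iff_one _).2 h1)

section

variable {K : Type} [Field K] [NumberField K] {Ω : Type} [Field Ω] [Algebra K Ω]

/-- an Euler family gives local families -/
theorem isLocalFamily (V : LSystem (Ω ≃ₐ[K] Ω)) (E : IntermediateField K Ω) [NumberField E]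
    (P : HeightOneSpectrum (𝓞 E) → ℚ[X]) (hP : IsEulerFamily E Ω (V.res E) P)
    (v : HeightOneSpectrum (𝓞 K)) (l : ℕ) [Fact l.Prime] (hl : (l : 𝓞 K) ∉ v.asIdeal) :
    IsLocalFamily E (V.rep l) v (fun w => (P w).map (algebraMap ℚ ℚ_[l])) := by
  intro w hw Q hQ hQw φ hφ
  refine hP w l ?_ Q hQ hQw φ hφ
  intro hlw
  apply hl
  rw [← hw, Ideal.under_def, Ideal.mem_comap, map_natCast]
  exact hlw

end

section

variable {K : Type} [Field K] [NumberField K] {Ω : Type} [Field Ω] [Algebra K Ω] [IsAlgClosed Ω]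
  [Algebra.IsAlgebraic K Ω]

/-- the rational local relation for a relation between permutation characters with constant
term `0` -/
theorem rat_relation (V : LSystem (Ω ≃ₐ[K] Ω)) {ι : Type} [Fintype ι]
    (E : ι → IntermediateField K Ω) [∀ i, NumberField (E i)] (a : ι → ℤ)
    (ha : ∀ g : Ω ≃ₐ[K] Ω, ∑ i, a i * (fixCount (E i).fixingSubgroup g : ℤ) = 0)
    (P : ∀ i, HeightOneSpectrum (𝓞 (E i)) → ℚ[X])
    (hP : ∀ i, IsEulerFamily (E i) Ω (V.res (E i)) (P i)) (v : HeightOneSpectrum (𝓞 K)) :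
    ∏ i, (localProd K (E i) v (P i)) ^ (-(a i)).toNat =
      ∏ i, (localProd K (E i) v (P i)) ^ (a i).toNat := by
  obtain ⟨l, hl, hlv⟩ := exists_prime_notMem v
  haveI : Fact l.Prime := ⟨hl⟩
  obtain ⟨Q, hQ, hQv⟩ := exists_over (Ω := Ω) v
  obtain ⟨φ, hφ⟩ := exists_frob v Q hQ hQv
  have h1 := (local_relation (V.rep l) v Q hQ hQv φ hφ E a 0 (by simpa using ha)
    (fun i w => (P i w).map (algebraMap ℚ ℚ_[l]))
    (fun i => isLocalFamily V (E i) (P i) (hP i) v l hlv)).1
  rw [pow_zero, one_mul] at h1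
  simp only [localProd_map] at h1
  apply Polynomial.map_injective (algebraMap ℚ ℚ_[l]) (algebraMap ℚ ℚ_[l]).injective
  rw [Polynomial.map_prod, Polynomial.map_prod]
  simp only [Polynomial.map_pow]
  exact h1

end

/-- passage from the relation with nonnegative exponents to integer exponents -/
theorem zpow_relation {ι : Type} [Fintype ι] (a : ι → ℤ) (x : ι → ℂ) (hx : ∀ i, x i ≠ 0)
    (h : ∏ i, x i ^ (-(a i)).toNat = ∏ i, x i ^ (a i).toNat) : ∏ i, x i ^ a i = 1 := by
  have h1 : ∀ i, x i ^ a i = x i ^ (a i).toNat / x i ^ (-(a i)).toNat := by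
    intro i
    rw [eq_div_iff (pow_ne_zero _ (hx i)), ← zpow_natCast, ← zpow_natCast, ← zpow_add₀ (hx i)]
    congr 1
    omega
  simp only [h1]
  rw [Finset.prod_div_distrib, h]
  exact div_self (Finset.prod_ne_zero_iff.2 fun i _ => pow_ne_zero _ (hx i))

/-- the family of fields with one more member -/
def famE {K Ω ι : Type} [Field K] [Field Ω] [Algebra K Ω] (L : IntermediateField K Ω)
    (E : ι → IntermediateField K Ω) : Option ι → IntermediateField K Ω
  | none => L
  | some i => E i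

theorem famE_numberField {K Ω ι : Type} [Field K] [Field Ω] [Algebra K Ω]
    (L : IntermediateField K Ω) [hL : NumberField L] (E : ι → IntermediateField K Ω)
    [hE : ∀ i, NumberField (E i)] : ∀ o, NumberField (famE L E o)
  | none => hL
  | some i => hE i

/-- the coefficients with one more member -/
def famA {ι : Type} (m : ℤ) (a : ι → ℤ) : Option ι → ℤ
  | none => m
  | some i => a i

/-- the families of polynomials with one more member -/
def famP {K Ω ι : Type} [Field K] [Field Ω] [Algebra K Ω] (L : IntermediateField K Ω)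
    (E : ι → IntermediateField K Ω) (P : HeightOneSpectrum (𝓞 L) → ℚ[X])
    (P' : ∀ i, HeightOneSpectrum (𝓞 (E i)) → ℚ[X]) :
    ∀ o, HeightOneSpectrum (𝓞 (famE L E o)) → ℚ[X]
  | none => P
  | some i => P' i

end RelPow

section Main

variable (K : Type) [Field K] [NumberField K] (Ω : Type) [Field Ω] [Algebra K Ω] [IsAlgClosed Ω]
  [Algebra.IsAlgebraic K Ω]

theorem rel_pow (V : LSystem (Ω ≃ₐ[K] Ω))
    (B : ∀ (p : ℕ) [Fact p.Prime], PeriodData (Ω ≃ₐ[K] Ω) (𝓞 Ω) p) {ι : Type} [Fintype ι]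
    (E : ι → IntermediateField K Ω) [∀ i, NumberField (E i)] (a : ι → ℤ)
    (L : IntermediateField K Ω) [NumberField L] (m : ℕ) (hm : 0 < m)
    (ha : ∀ g : Ω ≃ₐ[K] Ω, (m : ℤ) * (fixCount L.fixingSubgroup g : ℤ) =
      ∑ i, a i * (fixCount (E i).fixingSubgroup g : ℤ))
    (h : ∀ i, BKHolds (E i) Ω (V.res (E i)) (fun p _ => (B p).res (E i)))
    (P : HeightOneSpectrum (𝓞 L) → ℚ[X]) (hP : IsEulerFamily L Ω (V.res L) P) (σ : ℝ)
    (hσ : ∀ s : ℂ, σ < s.re → ∃ z : ℂ, z ≠ 0 ∧ HasProd (eulerFactor L P s) z)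
    (hfin : ∀ (p : ℕ) [Fact p.Prime],
      Module.Finite ℚ_[p] (H1f ((V.res L).rep p) ((B p).res L))) :
    BKpow L Ω (V.res L) (fun p _ => (B p).res L) m := by
  classical
  choose P' hP' σ' U' Λ' hU' hσU' htU' hmer' hprod' hp' using h
  -- the extended family
  let E' : Option ι → IntermediateField K Ω := RelPow.famE L E
  haveI hNF : ∀ o, NumberField (E' o) := RelPow.famE_numberField L E
  let a' : Option ι → ℤ := RelPow.famA (-(m : ℤ)) a
  let P'' : ∀ o, HeightOneSpectrum (𝓞 (E' o)) → ℚ[X] := RelPow.famP L E P P'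
  have hP'' : ∀ o, IsEulerFamily (E' o) Ω (V.res (E' o)) (P'' o) := by
    rintro (_ | i)
    · exact hP
    · exact hP' i
  have ha' : ∀ g : Ω ≃ₐ[K] Ω, ∑ o, a' o * (fixCount (E' o).fixingSubgroup g : ℤ) = 0 := by
    intro g
    rw [Fintype.sum_option]
    change -(m : ℤ) * (fixCount L.fixingSubgroup g : ℤ) +
      ∑ i, a i * (fixCount (E i).fixingSubgroup g : ℤ) = 0
    rw [← ha g]; ring
  refine ⟨P, hP, σ ⊔ ∑ i, |σ' i|, ⋂ i, U' i, fun s => ∏ i, Λ' i s ^ a i,
    isOpen_iInter_of_finite hU', ?_, ?_, ?_, ?_, ?_⟩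
  · intro s hs
    rw [Set.mem_ofPred_eq] at hs
    rw [Set.mem_iInter]
    intro i
    apply hσU' i
    rw [Set.mem_ofPred_eq]
    have h1 : |σ' i| ≤ ∑ i, |σ' i| :=
      Finset.single_le_sum (f := fun i => |σ' i|) (fun j _ => abs_nonneg _) (Finset.mem_univ i)
    have h2 := le_max_right σ (∑ i, |σ' i|)
    have h3 := le_abs_self (σ' i)
    linarith
  · intro t ht
    rw [Set.mem_iInter]
    intro i
    exact htU' i t ht
  · intro x hx
    rw [Set.mem_iInter] at hx
    apply MeromorphicAt.fun_prod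
    intro i _
    exact (hmer' i x (hx i)).zpow (a i)
  · intro s hs
    have hσs : σ < s.re := lt_of_le_of_lt (le_max_left _ _) hs
    obtain ⟨z, hz, hzp⟩ := hσ s hσs
    refine ⟨z, hz, hzp, ?_⟩
    have hsi : ∀ i, σ' i < s.re := by
      intro i
      have h1 : |σ' i| ≤ ∑ i, |σ' i| :=
        Finset.single_le_sum (f := fun i => |σ' i|) (fun j _ => abs_nonneg _) (Finset.mem_univ i)
      have h2 := le_max_right σ (∑ i, |σ' i|)
      have h3 := le_abs_self (σ' i)
      linarith
    choose zi hzi hzpi hΛi using fun i => hprod' i s (hsi i)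
    -- products over the places of `K`
    have hL := hasProd_localProd K L P s z hzp
    have hE : ∀ i, HasProd (fun v : HeightOneSpectrum (𝓞 K) =>
        (aeval ((v.asIdeal.absNorm : ℂ) ^ (-s)) (localProd K (E i) v (P' i)))⁻¹) (zi i) :=
      fun i => hasProd_localProd K (E i) (P' i) s (zi i) (hzpi i)
    have hprodE := hasProd_zpow (fun i (v : HeightOneSpectrum (𝓞 K)) =>
        (aeval ((v.asIdeal.absNorm : ℂ) ^ (-s)) (localProd K (E i) v (P' i)))⁻¹) zi hzi hE a
    have hprodL := hasProd_zpow (ι := Unit) (fun _ (v : HeightOneSpectrum (𝓞 K)) =>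
        (aeval ((v.asIdeal.absNorm : ℂ) ^ (-s)) (localProd K L v P))⁻¹) (fun _ => z)
        (fun _ => hz) (fun _ => hL) (fun _ => (m : ℤ))
    simp only [Finset.univ_unique, Finset.prod_singleton, zpow_natCast] at hprodL
    have hfac : ∀ v : HeightOneSpectrum (𝓞 K),
        ((aeval ((v.asIdeal.absNorm : ℂ) ^ (-s)) (localProd K L v P))⁻¹) ^ m =
        ∏ i, ((aeval ((v.asIdeal.absNorm : ℂ) ^ (-s)) (localProd K (E i) v (P' i)))⁻¹) ^ a i := by
      intro v
      have hne : ∀ o, aeval ((v.asIdeal.absNorm : ℂ) ^ (-s)) (localProd K (E' o) v (P'' o)) ≠ 0 := by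
        rintro (_ | i)
        · have := ne_zero_of_hasProd hL hz v
          exact fun h0 => this (by
            change (aeval ((v.asIdeal.absNorm : ℂ) ^ (-s)) (localProd K L v P))⁻¹ = 0
            exact inv_eq_zero.2 h0)
        · have := ne_zero_of_hasProd (hE i) (hzi i) v
          exact fun h0 => this (by
            change (aeval ((v.asIdeal.absNorm : ℂ) ^ (-s)) (localProd K (E i) v (P' i)))⁻¹ = 0
            exact inv_eq_zero.2 h0)
      have hrel := RelPow.rat_relation V E' a' ha' P'' hP'' v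
      have hrel' := congrArg (aeval ((v.asIdeal.absNorm : ℂ) ^ (-s))) hrel
      rw [map_prod, map_prod] at hrel'
      simp only [map_pow] at hrel'
      have h1 := RelPow.zpow_relation a' _ hne hrel'
      rw [Fintype.prod_option] at h1
      change (aeval ((v.asIdeal.absNorm : ℂ) ^ (-s)) (localProd K L v P)) ^ (-(m : ℤ)) *
        ∏ i, (aeval ((v.asIdeal.absNorm : ℂ) ^ (-s)) (localProd K (E i) v (P' i))) ^ (a i) = 1 at h1
      rw [zpow_neg, zpow_natCast] at h1
      rw [inv_pow]
      simp only [inv_zpow]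
      rw [Finset.prod_inv_distrib]
      exact eq_inv_of_mul_eq_one_left h1
    have hprodL' : HasProd (fun v : HeightOneSpectrum (𝓞 K) =>
        ∏ i, ((aeval ((v.asIdeal.absNorm : ℂ) ^ (-s)) (localProd K (E i) v (P' i)))⁻¹) ^ a i)
        (z ^ m) := by
      have e : (fun v : HeightOneSpectrum (𝓞 K) =>
        ∏ i, ((aeval ((v.asIdeal.absNorm : ℂ) ^ (-s)) (localProd K (E i) v (P' i)))⁻¹) ^ a i) =
        fun v : HeightOneSpectrum (𝓞 K) =>
          ((aeval ((v.asIdeal.absNorm : ℂ) ^ (-s)) (localProd K L v P))⁻¹) ^ m := by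
        funext v
        exact (hfac v).symm
      rw [e]
      exact hprodL
    have huniq := hprodL'.unique hprodE
    rw [huniq]
    refine Finset.prod_congr rfl fun i _ => ?_
    rw [hΛi i, pow_one]
  · intro p _
    refine ⟨hfin p, ?_⟩
    have hfin' : ∀ o, Module.Finite ℚ_[p]
        (H1f ((V.rep p).comp (resHom K (E' o) Ω)) ((B p).res (E' o))) := by
      rintro (_ | i)
      · exact hfin p
      · exact (hp' i p).1
    have hfin0 : Module.Finite ℚ_[p] (H1f (V.rep p) (B p)) :=
      finite_H1f (V.rep p) (V.cont p) (B p) L (hfin p)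
    have h1 := h1_relation (V.rep p) (V.cont p) (B p) E' a' 0 ha' hfin' hfin0
    have hh0 := h0_relation (V.rep p) E' a' 0 ha'
    rw [Fintype.sum_option, zero_mul] at h1 hh0
    have hord := (order_prod_zpow Λ' 0 (fun i => hmer' i 0 (by
      simpa using htU' i 0 le_rfl)) a
      (fun i => ((1 : ℕ) : ℤ) * ((Module.finrank ℚ_[p] (H1f ((V.res (E i)).rep p)
        ((B p).res (E i))) : ℤ) - (h0 ((V.res (E i)).rep p) : ℤ)))
      (fun i => (hp' i p).2)).2
    rw [hord]
    congr 1
    change -(m : ℤ) * (Module.finrank ℚ_[p] (H1f ((V.res L).rep p) ((B p).res L)) : ℤ) +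
      ∑ i, a i * (Module.finrank ℚ_[p] (H1f ((V.res (E i)).rep p) ((B p).res (E i))) : ℤ) = 0 at h1
    change -(m : ℤ) * (h0 ((V.res L).rep p) : ℤ) +
      ∑ i, a i * (h0 ((V.res (E i)).rep p) : ℤ) = 0 at hh0
    have e : ∑ i, a i * (((1 : ℕ) : ℤ) * ((Module.finrank ℚ_[p] (H1f ((V.res (E i)).rep p)
        ((B p).res (E i))) : ℤ) - (Pool.BK.h0 ((V.res (E i)).rep p) : ℤ))) =
      ∑ i, a i * (Module.finrank ℚ_[p] (H1f ((V.res (E i)).rep p) ((B p).res (E i))) : ℤ) -
      ∑ i, a i * (Pool.BK.h0 ((V.res (E i)).rep p) : ℤ) := by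
      rw [← Finset.sum_sub_distrib]
      refine Finset.sum_congr rfl fun i _ => ?_
      push_cast; ring
    rw [e]
    linarith

end Main

end Pool.BK
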