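import Pool.Agent.BK.ArtinCompact
import Pool.Agent.BK.BadConj
import Pool.Agent.BK.FixConj
import Pool.Agent.BK.Split
import Pool.Agent.BK.H1Relation
import Pool.Agent.BK.ElemAb
import Pool.Agent.BK.RelBasePow
import Pool.Agent.BK.Converge
import Pool.Agent.BK.RelPow

/-!
Reduction to totally complex fields of degree divisible by a given number.
-/

open scoped Pointwise NumberField
open Polynomial IsDedekindDomain

namespace Pool.BK

namespace ComplexDiv

section Fields

variable {K : Type} [Field K] {Ω : Type} [Field Ω] [Algebra K Ω]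

/-- Every extension of a totally complex field is totally complex. -/
theorem tc_of_le {L L' : IntermediateField K Ω} (h : L ≤ L')
    (hL : NumberField.IsTotallyComplex L) : NumberField.IsTotallyComplex L' := by
  let _ : Algebra L L' := (IntermediateField.inclusion h).toRingHom.toAlgebra
  exact NumberField.isTotallyComplex_of_algebra L L'

theorem tc_of_sq {E : Type} [Field E] (x : E) (hx : x ^ 2 = -1) :
    NumberField.IsTotallyComplex E := by
  refine ⟨fun v => ?_⟩
  rw [← NumberField.InfinitePlace.not_isReal_iff_isComplex]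
  intro hv
  let f := NumberField.InfinitePlace.embedding_of_isReal hv
  have h1 : f x ^ 2 = -1 := by rw [← map_pow, hx, map_neg, map_one]
  nlinarith [sq_nonneg (f x)]

end Fields

/-- Every number field `L` inside an algebraically closed field has a totally complex finite
extension there. -/
theorem exists_tc (L : Type) [Field L] [NumberField L] (Ω : Type) [Field Ω] [Algebra L Ω]
    [IsAlgClosed Ω] : ∃ E : IntermediateField L Ω, NumberField E ∧
      NumberField.IsTotallyComplex E := by
  obtain ⟨x, hx⟩ := IsAlgClosed.exists_pow_nat_eq (-1 : Ω) (n := 2) (by norm_num)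
  have hint : IsIntegral L x := by
    refine ⟨Polynomial.X ^ 2 + 1, ?_, ?_⟩
    · exact Polynomial.monic_X_pow_add (by simp)
    · simp [hx]
  have hfd : FiniteDimensional L (IntermediateField.adjoin L {x}) :=
    IntermediateField.adjoin.finiteDimensional hint
  refine ⟨IntermediateField.adjoin L {x}, ?_, ?_⟩
  · exact NumberField.of_module_finite L _
  · refine tc_of_sq (⟨x, IntermediateField.mem_adjoin_simple_self L x⟩ :
      IntermediateField.adjoin L {x}) ?_
    ext
    simp [hx]

section Galois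

variable {K : Type} [Field K] [NumberField K] {Ω : Type} [Field Ω] [Algebra K Ω] [IsAlgClosed Ω]
  [Algebra.IsAlgebraic K Ω]

theorem isGalois : IsGalois K Ω := by
  have : IsAlgClosure K Ω := ⟨inferInstance, inferInstance⟩
  infer_instance

/-- The fixed field of an open subgroup is a number field with this fixing subgroup. -/
theorem fixedField_of_isOpen (C : Subgroup (Ω ≃ₐ[K] Ω)) (hC : IsOpen (C : Set (Ω ≃ₐ[K] Ω))) :
    NumberField (IntermediateField.fixedField C) ∧
      (IntermediateField.fixedField C).fixingSubgroup = C := by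
  have := isGalois (K := K) (Ω := Ω)
  have hcl : IsClosed (C : Set (Ω ≃ₐ[K] Ω)) := Subgroup.isClosed_of_isOpen C hC
  have h1 : (IntermediateField.fixedField C).fixingSubgroup = C :=
    InfiniteGalois.fixingSubgroup_fixedField ⟨C, hcl⟩
  have h2 : FiniteDimensional K (IntermediateField.fixedField C) := by
    rw [← InfiniteGalois.isOpen_iff_finite, h1]
    exact hC
  exact ⟨NumberField.of_module_finite K _, h1⟩

/-- an automorphism fixes an open subgroup of index divisible by `q` -/
theorem exists_index (q : ℕ) [Fact q.Prime] (τ : Ω ≃ₐ[K] Ω) : ∃ D : Subgroup (Ω ≃ₐ[K] Ω),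
    IsOpen (D : Set (Ω ≃ₐ[K] Ω)) ∧ τ ∈ D ∧ q ∣ D.index := by
  have hq : q.Prime := Fact.out
  obtain ⟨C, hCn, hCo, hCi, hCp⟩ := exists_quot K Ω q
  obtain ⟨D, hD⟩ : ∃ D : Subgroup (Ω ≃ₐ[K] Ω), D = C ⊔ Subgroup.zpowers τ := ⟨_, rfl⟩
  have hCD : C ≤ D := hD ▸ le_sup_left
  have hτ : τ ∈ D := hD ▸ (le_sup_right : Subgroup.zpowers τ ≤ _) (Subgroup.mem_zpowers τ)
  refine ⟨D, Subgroup.isOpen_mono hCD hCo, hτ, ?_⟩
  have h1 : D.index ∣ q ^ 2 := by
    rw [← hCi]
    exact Subgroup.index_dvd_of_le hCD
  obtain ⟨k, hk, hk'⟩ := (Nat.dvd_prime_pow hq).1 h1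
  rcases Nat.eq_zero_or_pos k with rfl | hk0
  · exfalso
    rw [pow_zero, Subgroup.index_eq_one] at hk'
    have hcyc : ∀ y : (Ω ≃ₐ[K] Ω) ⧸ C, y ∈ Subgroup.zpowers (QuotientGroup.mk' C τ) := by
      intro y
      obtain ⟨g, rfl⟩ := QuotientGroup.mk'_surjective C y
      have hg : g ∈ C ⊔ Subgroup.zpowers τ := by rw [← hD, hk']; trivial
      obtain ⟨c, hc, z, hz, rfl⟩ := Subgroup.mem_sup_of_normal_left.1 hg
      obtain ⟨k, rfl⟩ := Subgroup.mem_zpowers_iff.1 hz
      rw [map_mul, map_zpow]
      have : QuotientGroup.mk' C c = 1 := (QuotientGroup.eq_one_iff c).2 hc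
      rw [this, one_mul]
      exact Subgroup.zpow_mem_zpowers _ k
    have hcard : Nat.card ((Ω ≃ₐ[K] Ω) ⧸ C) = orderOf (QuotientGroup.mk' C τ) := by
      rw [← Nat.card_zpowers]
      have : Subgroup.zpowers (QuotientGroup.mk' C τ) = ⊤ := by
        rw [eq_top_iff]
        intro y _
        exact hcyc y
      rw [this, Subgroup.card_top]
    have hord : orderOf (QuotientGroup.mk' C τ) ≤ q := by
      apply orderOf_le_of_pow_eq_one hq.pos
      rw [← map_pow]
      exact (QuotientGroup.eq_one_iff _).2 (hCp τ)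
    have h2 : C.index = Nat.card ((Ω ≃ₐ[K] Ω) ⧸ C) := rfl
    have h3 : q ^ 2 ≤ q := by rw [← hCi, h2, hcard]; exact hord
    nlinarith [hq.two_le]
  · rw [hk']
    exact dvd_pow_self q hk0.ne'

theorem exists_prime_div (q : ℕ) [Fact q.Prime] (L : IntermediateField K Ω) [NumberField L]
    (σ : Ω ≃ₐ[K] Ω) (hσ : σ ∈ L.fixingSubgroup) :
    ∃ (L' : IntermediateField K Ω) (_ : NumberField L'), L ≤ L' ∧ σ ∈ L'.fixingSubgroup ∧
      q * Module.finrank K L ∣ Module.finrank K L' := by
  let τ : Ω ≃ₐ[L] Ω := IntermediateField.fixingSubgroupEquiv L ⟨σ, hσ⟩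
  have hLG : IsGalois L Ω := isGalois (K := L) (Ω := Ω)
  obtain ⟨D, hDo, hτ, hD⟩ := exists_index (K := L) q τ
  obtain ⟨h1, h2⟩ := fixedField_of_isOpen D hDo
  have hM : NumberField ((IntermediateField.fixedField D).restrictScalars K) := h1
  refine ⟨(IntermediateField.fixedField D).restrictScalars K, hM, ?_, ?_, ?_⟩
  · intro x hx
    exact (IntermediateField.fixedField D).algebraMap_mem ⟨x, hx⟩
  · rw [IntermediateField.mem_fixingSubgroup_iff]
    intro x hx
    exact hx ⟨τ, hτ⟩
  · have h3 : Module.finrank L (IntermediateField.fixedField D) = D.index := by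
      rw [IntermediateField.finrank_eq_fixingSubgroup_index, h2]
    have h4 : Module.finrank K L * Module.finrank L (IntermediateField.fixedField D) =
        Module.finrank K ((IntermediateField.fixedField D).restrictScalars K) :=
      Module.finrank_mul_finrank K L (IntermediateField.fixedField D)
    rw [← h4, h3, mul_comm]
    exact mul_dvd_mul_left _ hD

/-- every automorphism fixes extensions of degree divisible by a given number -/
theorem exists_div (N : ℕ) (hN : 0 < N) (L : IntermediateField K Ω) [NumberField L]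
    (σ : Ω ≃ₐ[K] Ω) (hσ : σ ∈ L.fixingSubgroup) :
    ∃ (L' : IntermediateField K Ω) (_ : NumberField L'), L ≤ L' ∧ σ ∈ L'.fixingSubgroup ∧
      N * Module.finrank K L ∣ Module.finrank K L' := by
  have key : ∀ N : ℕ, 0 < N → ∀ (L : IntermediateField K Ω) (_ : NumberField L)
      (_ : σ ∈ L.fixingSubgroup),
      ∃ (L' : IntermediateField K Ω) (_ : NumberField L'), L ≤ L' ∧ σ ∈ L'.fixingSubgroup ∧
        N * Module.finrank K L ∣ Module.finrank K L' := by
    intro N
    induction N using Nat.recOnMul with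
    | zero => intro h; omega
    | one => intro _ L hL hσ; exact ⟨L, hL, le_rfl, hσ, by rw [one_mul]⟩
    | prime p hp =>
      intro _ L hL hσ
      have : Fact p.Prime := ⟨hp⟩
      exact exists_prime_div p L σ hσ
    | mul a b iha ihb =>
      intro hab L hL hσ
      obtain ⟨L1, hL1, h1, h2, h3⟩ := ihb (Nat.pos_of_mul_pos_left hab) L hL hσ
      obtain ⟨L2, hL2, h4, h5, h6⟩ := iha (Nat.pos_of_mul_pos_right hab) L1 hL1 h2
      refine ⟨L2, hL2, h1.trans h4, h5, ?_⟩
      rw [mul_assoc]
      exact (mul_dvd_mul_left a h3).trans h6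
  exact key N hN L inferInstance hσ

/-- every automorphism over a number field fixes an extension of degree divisible by `N` over
which `F` becomes cyclic -/
theorem exists_good (F : IntermediateField K Ω) [NumberField F] [Normal K F] (N : ℕ) (hN : 0 < N)
    (L : IntermediateField K Ω) [NumberField L] (σ : Ω ≃ₐ[K] Ω) (hσ : σ ∈ L.fixingSubgroup) :
    ∃ (L' : IntermediateField K Ω) (_ : NumberField L'), L ≤ L' ∧ σ ∈ L'.fixingSubgroup ∧
      N ∣ Module.finrank K L' ∧
      IsCyclic (L'.fixingSubgroup.map (AlgEquiv.restrictNormalHom F)) := by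
  have hG : IsGalois K Ω := isGalois (K := K) (Ω := Ω)
  obtain ⟨L1, hL1, h1, h2, h3⟩ := exists_div N hN L σ hσ
  obtain ⟨U, hU⟩ : ∃ U : Subgroup (Ω ≃ₐ[K] Ω), U = L1.fixingSubgroup ⊓
    (Subgroup.zpowers (AlgEquiv.restrictNormalHom F σ)).comap
      (AlgEquiv.restrictNormalHom F) := ⟨_, rfl⟩
  have hfd1 : FiniteDimensional K L1 := Module.Finite.of_restrictScalars_finite ℚ K L1
  have hfdF : FiniteDimensional K F := Module.Finite.of_restrictScalars_finite ℚ K F
  have hle : L1.fixingSubgroup ⊓ F.fixingSubgroup ≤ U := by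
    rw [hU]
    refine inf_le_inf_left _ ?_
    rw [← IntermediateField.restrictNormalHom_ker]
    intro x hx
    change AlgEquiv.restrictNormalHom F x ∈
      Subgroup.zpowers (AlgEquiv.restrictNormalHom F σ)
    rw [MonoidHom.mem_ker.1 hx]
    exact Subgroup.one_mem _
  have hUo : IsOpen (U : Set (Ω ≃ₐ[K] Ω)) := by
    refine Subgroup.isOpen_mono hle ?_
    rw [Subgroup.coe_inf]
    exact L1.fixingSubgroup_isOpen.inter F.fixingSubgroup_isOpen
  obtain ⟨h4, h5⟩ := fixedField_of_isOpen U hUo
  have hUL : U ≤ L1.fixingSubgroup := hU ▸ inf_le_left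
  have h6 : L1 ≤ IntermediateField.fixedField U := (IntermediateField.le_iff_le _ _).2 hUL
  refine ⟨IntermediateField.fixedField U, h4, h1.trans h6, ?_, ?_, ?_⟩
  · rw [h5, hU]
    exact ⟨h2, Subgroup.mem_zpowers _⟩
  · refine ((Dvd.intro _ rfl).trans h3).trans ?_
    have : FiniteDimensional K (IntermediateField.fixedField U) :=
      Module.Finite.of_restrictScalars_finite ℚ K _
    exact IntermediateField.finrank_dvd_of_le_right h6
  · rw [h5]
    refine Subgroup.isCyclic_of_le (H' := Subgroup.zpowers (AlgEquiv.restrictNormalHom F σ)) ?_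
    rw [hU]
    exact (Subgroup.map_mono inf_le_right).trans (Subgroup.map_comap_le _ _)

end Galois

end ComplexDiv

section Main

variable (K : Type) [Field K] [NumberField K] (Ω : Type) [Field Ω] [Algebra K Ω] [IsAlgClosed Ω]
  [Algebra.IsAlgebraic K Ω]

open ComplexDiv in
/-- A power form of the formula over all totally complex fields -/
theorem ComplexDiv.exists_pow (V : LSystem (Ω ≃ₐ[K] Ω))
    (B : ∀ (p : ℕ) [Fact p.Prime], PeriodData (Ω ≃ₐ[K] Ω) (𝓞 Ω) p) (N : ℕ) (hN : 0 < N)
    (F : IntermediateField K Ω) [NumberField F] [Normal K F]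
    (h : ∀ (L : IntermediateField K Ω) [NumberField L], NumberField.IsTotallyComplex L →
      N ∣ Module.finrank K L → IsCyclic (L.fixingSubgroup.map (AlgEquiv.restrictNormalHom F)) →
      BKHolds L Ω (V.res L) (fun p _ => (B p).res L))
    (E : IntermediateField K Ω) [NumberField E] (hE : NumberField.IsTotallyComplex E) :
    ∃ m : ℕ, BKpow E Ω (V.res E) (fun p _ => (B p).res E) m := by
  have hgal : IsGalois E Ω := isGalois (K := E) (Ω := Ω)
  obtain ⟨M, κ, _, C, b, hM, hC, hrel⟩ := artin_compact (G := Ω ≃ₐ[E] Ω)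
    (fun U => ∃ (L' : IntermediateField K Ω) (_ : NumberField L'), E ≤ L' ∧
      N ∣ Module.finrank K L' ∧
      IsCyclic (L'.fixingSubgroup.map (AlgEquiv.restrictNormalHom F)) ∧
      U ≤ L'.fixingSubgroup.comap (resHom K E Ω))
    (fun H H' hHH' ⟨L', h1, h2, h3, h4, h5⟩ => ⟨L', h1, h2, h3, h4, hHH'.trans h5⟩)
    (ι := Unit) (fun _ => ⊤) (fun _ => isOpen_univ) (fun _ => 1)
    (by
      intro g hg
      exfalso
      have hg' : resHom K E Ω g ∈ E.fixingSubgroup := by
        rw [IntermediateField.mem_fixingSubgroup_iff]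
        intro x hx
        exact g.commutes ⟨x, hx⟩
      obtain ⟨L', hL', h1, h2, h3, h4⟩ := exists_good F N hN E _ hg'
      have : FiniteDimensional K L' := Module.Finite.of_restrictScalars_finite ℚ K L'
      exact hg (L'.fixingSubgroup.comap (resHom K E Ω))
        (L'.fixingSubgroup_isOpen.preimage (continuous_resHom K E Ω)) h2
        ⟨L', hL', h1, h3, h4, le_rfl⟩)
  have hF : ∀ j, NumberField (IntermediateField.fixedField (C j)) := fun j =>
    (fixedField_of_isOpen (C j) (hC j).1).1
  have hFix : ∀ j, (IntermediateField.fixedField (C j)).fixingSubgroup = C j := fun j =>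
    (fixedField_of_isOpen (C j) (hC j).1).2
  refine ⟨M, rel_base_pow E Ω (V.res E) (fun p _ => (B p).res E)
    (fun j => IntermediateField.fixedField (C j)) b M hM ?_ ?_⟩
  · intro g
    have h1 := hrel g
    simp only [Finset.univ_unique, Finset.sum_singleton, one_mul] at h1
    have h2 : fixCount (⊤ : Subgroup (Ω ≃ₐ[E] Ω)) g = 1 := by
      rw [fixCount, Nat.card_eq_one_iff_unique]
      have hs : Subsingleton ((Ω ≃ₐ[E] Ω) ⧸ (⊤ : Subgroup (Ω ≃ₐ[E] Ω))) :=
        QuotientGroup.subsingleton_quotient_top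
      exact ⟨inferInstance, ⟨⟨((1 : Ω ≃ₐ[E] Ω) : (Ω ≃ₐ[E] Ω) ⧸ _), Subsingleton.elim _ _⟩⟩⟩
    rw [h2, Nat.cast_one, mul_one] at h1
    rw [h1]
    exact Finset.sum_congr rfl fun j _ => by rw [hFix j]
  · intro j
    obtain ⟨L', hL', h2, h3, h4, h5⟩ := (hC j).2
    have hn : NumberField ((IntermediateField.fixedField (C j)).restrictScalars K) := hF j
    have h6 : L' ≤ (IntermediateField.fixedField (C j)).restrictScalars K := by
      intro x hx
      rintro ⟨u, hu⟩
      have h7 := h5 hu
      exact (IntermediateField.mem_fixingSubgroup_iff _ _).1 h7 x hx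
    have : FiniteDimensional K ((IntermediateField.fixedField (C j)).restrictScalars K) :=
      Module.Finite.of_restrictScalars_finite ℚ K _
    exact h ((IntermediateField.fixedField (C j)).restrictScalars K)
      (tc_of_le (h2.trans h6) hE) (h3.trans (IntermediateField.finrank_dvd_of_le_right h6))
      (Subgroup.isCyclic_of_le (Subgroup.map_mono (IntermediateField.fixingSubgroup_le h6)))

open ComplexDiv in
/-- The reduction to totally complex fields of degree divisible by `N` over which `F` is cyclic. -/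
theorem reduction_complex_cyclic (V : LSystem (Ω ≃ₐ[K] Ω))
    (B : ∀ (p : ℕ) [Fact p.Prime], PeriodData (Ω ≃ₐ[K] Ω) (𝓞 Ω) p) (N : ℕ) (hN : 0 < N)
    (F : IntermediateField K Ω) [NumberField F] [Normal K F]
    (h : ∀ (L : IntermediateField K Ω) [NumberField L], NumberField.IsTotallyComplex L →
      N ∣ Module.finrank K L → IsCyclic (L.fixingSubgroup.map (AlgEquiv.restrictNormalHom F)) →
      BKHolds L Ω (V.res L) (fun p _ => (B p).res L))
    {ι : Type} [Fintype ι] (E : ι → IntermediateField K Ω) [∀ i, NumberField (E i)]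
    (hE : ∀ i, BKHolds (E i) Ω (V.res (E i)) (fun p _ => (B p).res (E i)))
    (L : IntermediateField K Ω) [NumberField L] (n : ℕ) (hn : 0 < n) (a : ι → ℤ)
    (ha : ∀ v : K →+* ℝ, (n : ℤ) * (realCount K L v : ℤ) =
      ∑ i, a i * (realCount K (E i) v : ℤ)) :
    ∃ m : ℕ, 0 < m ∧ BKpow L Ω (V.res L) (fun p _ => (B p).res L) m := by
  have hgal := isGalois (K := K) (Ω := Ω)
  -- Artin's formula
  obtain ⟨M, κ, _, C, b, hM, hC, hrel⟩ := artin_compact (G := Ω ≃ₐ[K] Ω)
    (fun U => ∃ (L' : IntermediateField K Ω) (_ : NumberField L'),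
      NumberField.IsTotallyComplex L' ∧ N ∣ Module.finrank K L' ∧
      IsCyclic (L'.fixingSubgroup.map (AlgEquiv.restrictNormalHom F)) ∧ U ≤ L'.fixingSubgroup)
    (fun H H' hHH' ⟨L', h1, h2, h3, h4, h5⟩ => ⟨L', h1, h2, h3, h4, hHH'.trans h5⟩)
    (ι := Option ι) (fun o => o.elim L.fixingSubgroup fun i => (E i).fixingSubgroup)
    (by
      rintro (_ | i)
      · have : FiniteDimensional K L := Module.Finite.of_restrictScalars_finite ℚ K L
        exact L.fixingSubgroup_isOpen
      · have : FiniteDimensional K (E i) := Module.Finite.of_restrictScalars_finite ℚ K (E i)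
        exact (E i).fixingSubgroup_isOpen)
    (fun o => o.elim (n : ℤ) fun i => - a i)
    (by
      intro g hg
      obtain ⟨j, hj⟩ := bad_is_conj (K := K) g (by
        intro L' _ h1 h2
        obtain ⟨L'', hL'', h3, h4, h5, h6⟩ := exists_good F N hN L' g h1
        have : FiniteDimensional K L'' := Module.Finite.of_restrictScalars_finite ℚ K L''
        exact hg L''.fixingSubgroup L''.fixingSubgroup_isOpen h4
          ⟨L'', inferInstance, tc_of_le h3 h2, h5, h6, le_rfl⟩)
      obtain ⟨v, hv⟩ := fixCount_conj (K := K) g j hj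
      rw [Fintype.sum_option]
      simp only [Option.elim]
      rw [hv L, ha v, ← Finset.sum_add_distrib]
      refine Finset.sum_eq_zero fun i _ => ?_
      rw [hv (E i)]
      ring)
  simp only [Fintype.sum_option, Option.elim] at hrel
  -- the fields fixed by the subgroups
  have hF : ∀ j, NumberField (IntermediateField.fixedField (C j)) := fun j =>
    (fixedField_of_isOpen (C j) (hC j).1).1
  have hFix : ∀ j, (IntermediateField.fixedField (C j)).fixingSubgroup = C j := fun j =>
    (fixedField_of_isOpen (C j) (hC j).1).2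
  have hFh : ∀ j, BKHolds (IntermediateField.fixedField (C j)) Ω
      (V.res (IntermediateField.fixedField (C j)))
      (fun p _ => (B p).res (IntermediateField.fixedField (C j))) := by
    intro j
    obtain ⟨L', hL', h2, h3, h4, h5⟩ := (hC j).2
    have h6 : L' ≤ IntermediateField.fixedField (C j) := IntermediateField.le_iff_le _ _ |>.2 h5
    have : FiniteDimensional K (IntermediateField.fixedField (C j)) :=
      Module.Finite.of_restrictScalars_finite ℚ K _
    exact h _ (tc_of_le h6 h2) (h3.trans (IntermediateField.finrank_dvd_of_le_right h6))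
      (Subgroup.isCyclic_of_le (Subgroup.map_mono (IntermediateField.fixingSubgroup_le h6)))
  -- the Euler polynomials over L
  have : Algebra.IsAlgebraic L Ω := Algebra.IsAlgebraic.tower_top (K := K) L
  obtain ⟨P, hP⟩ := exists_euler_family L Ω (V.res L) (fun E' i hE' => by
    have hn : NumberField (E'.restrictScalars K) := i
    obtain ⟨m, P, hP, _⟩ := ComplexDiv.exists_pow K Ω V B N hN F h (E'.restrictScalars K) hE'
    exact ⟨P, hP⟩)
  obtain ⟨E₁, hE₁, hE₁tc⟩ := exists_tc L Ω
  have hn₁ : NumberField (E₁.restrictScalars K) := hE₁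
  obtain ⟨m₀, hm₀⟩ := ComplexDiv.exists_pow K Ω V B N hN F h (E₁.restrictScalars K) hE₁tc
  have hE₀h : BKpow E₁ Ω ((V.res L).res E₁) (fun p _ => ((B p).res L).res E₁) m₀ := hm₀
  obtain ⟨P₀, hP₀, σ₀, U, Λ, hU, hσU, hUt, hΛ, hprod, hord⟩ := hE₀h
  obtain ⟨σ, hσ⟩ := exists_halfplane L Ω (V.res L) P hP E₁ P₀ hP₀ σ₀ (fun s hs => by
    obtain ⟨z, hz, hz', _⟩ := hprod s hs
    exact ⟨z, hz, hz'⟩)
  have hfin : ∀ (p : ℕ) [Fact p.Prime],
      Module.Finite ℚ_[p] (H1f ((V.res L).rep p) ((B p).res L)) := by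
    intro p _
    exact finite_H1f ((V.res L).rep p) ((V.res L).cont p) ((B p).res L) E₁ (hord p).1
  have hinst : ∀ x : ι ⊕ κ, NumberField
      (Sum.elim E (fun j => IntermediateField.fixedField (C j)) x : IntermediateField K Ω) := by
    rintro (i | j)
    · exact inferInstanceAs (NumberField (E i))
    · exact hF j
  refine ⟨M * n, Nat.mul_pos hM hn, rel_pow K Ω V B
    (Sum.elim E fun j => IntermediateField.fixedField (C j))
    (Sum.elim (fun i => (M : ℤ) * a i) b) L (M * n) (Nat.mul_pos hM hn) ?_ ?_ P hP σ hσ hfin⟩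
  · intro g
    rw [Fintype.sum_sum_type]
    simp only [Sum.elim_inl, Sum.elim_inr]
    have h1 := hrel g
    have h2 : ∑ j, b j * (fixCount (IntermediateField.fixedField (C j)).fixingSubgroup g : ℤ) =
        ∑ j, b j * (fixCount (C j) g : ℤ) :=
      Finset.sum_congr rfl fun j _ => by rw [hFix j]
    rw [h2, ← h1]
    push_cast
    rw [mul_add, Finset.mul_sum]
    have h3 : ∑ i, (M : ℤ) * a i * (fixCount (E i).fixingSubgroup g : ℤ) +
        ∑ i, (M : ℤ) * (- a i * (fixCount (E i).fixingSubgroup g : ℤ)) = 0 := by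
      rw [← Finset.sum_add_distrib]
      exact Finset.sum_eq_zero fun i _ => by ring
    linear_combination -h3
  · rintro (i | j)
    · exact hE i
    · exact hFh j

theorem reduction_complex_div (V : LSystem (Ω ≃ₐ[K] Ω))
    (B : ∀ (p : ℕ) [Fact p.Prime], PeriodData (Ω ≃ₐ[K] Ω) (𝓞 Ω) p) (N : ℕ) (hN : 0 < N)
    (h : ∀ (L : IntermediateField K Ω) [NumberField L], NumberField.IsTotallyComplex L →
      N ∣ Module.finrank K L → BKHolds L Ω (V.res L) (fun p _ => (B p).res L))
    {ι : Type} [Fintype ι] (E : ι → IntermediateField K Ω) [∀ i, NumberField (E i)]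
    (hE : ∀ i, BKHolds (E i) Ω (V.res (E i)) (fun p _ => (B p).res (E i)))
    (L : IntermediateField K Ω) [NumberField L] (n : ℕ) (hn : 0 < n) (a : ι → ℤ)
    (ha : ∀ v : K →+* ℝ, (n : ℤ) * (realCount K L v : ℤ) =
      ∑ i, a i * (realCount K (E i) v : ℤ)) :
    ∃ m : ℕ, 0 < m ∧ BKpow L Ω (V.res L) (fun p _ => (B p).res L) m := by
  have hb : NumberField (⊥ : IntermediateField K Ω) := NumberField.of_module_finite K _
  have hnb : Normal K (⊥ : IntermediateField K Ω) := inferInstance
  exact reduction_complex_cyclic K Ω V B N hN ⊥ (fun L' _ h1 h2 _ => h L' h1 h2) E hE L n hn a ha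

end Main

end Pool.BK
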