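import Pool.Agent.BK.ElemAb

/-!
Every number field has an abelian extension whose Galois group is elementary abelian of
order `q ^ r`.
-/

open scoped Pointwise NumberField
open Polynomial IsDedekindDomain

namespace Pool.BK

variable (K : Type) [Field K] [NumberField K] (Ω : Type) [Field Ω] [Algebra K Ω] [IsAlgClosed Ω]
  [Algebra.IsAlgebraic K Ω]

theorem exists_quot_gen (q : ℕ) [Fact q.Prime] (r : ℕ) : ∃ C : Subgroup (Ω ≃ₐ[K] Ω), C.Normal ∧
    IsOpen (C : Set (Ω ≃ₐ[K] Ω)) ∧ C.index = q ^ r ∧ (∀ g, g ^ q ∈ C) ∧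
    ∀ g h : Ω ≃ₐ[K] Ω, g * h * g⁻¹ * h⁻¹ ∈ C := by
  classical
  have hq : q.Prime := Fact.out
  have hCZ : CharZero Ω := charZero_of_injective_algebraMap (algebraMap K Ω).injective
  set d := Module.finrank ℚ K with hd
  have hd0 : 0 < d := Module.finrank_pos
  -- primes
  obtain ⟨s, hsub, hcard⟩ := (Nat.infinite_setOfPred_prime_modEq_one hq.ne_zero).exists_subset_card_eq
    (d + r)
  have hs : ∀ p ∈ s, p.Prime := fun p hp => (hsub hp).1
  have hs1 : ∀ p ∈ s, q ∣ p - 1 := fun p hp =>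
    (Nat.modEq_iff_dvd' (hs p hp).one_lt.le).1 (hsub hp).2.symm
  let n : ℕ := ∏ i : s, (i : ℕ)
  have hn : n ≠ 0 := Finset.prod_ne_zero_iff.2 fun i _ => (hs i i.2).ne_zero
  have : NeZero n := ⟨hn⟩
  have hcop : Pairwise (Function.onFun Nat.Coprime (fun i : s => (i : ℕ))) := by
    intro i j hij
    exact (Nat.coprime_primes (hs i i.2) (hs j j.2)).2 fun h => hij (Subtype.ext h)
  let m : s → ℕ := fun i => ((i : ℕ) - 1) / q
  have hm : ∀ i, 0 < m i := fun i => Nat.div_pos
    (Nat.le_of_dvd (by have := (hs i i.2).one_lt; omega) (hs1 i i.2)) hq.pos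
  have hmq : ∀ i : s, m i * q = (i : ℕ) - 1 := fun i => Nat.div_mul_cancel (hs1 i i.2)
  -- primitive root
  obtain ⟨ζ, hζ⟩ : ∃ ζ : Ω, IsPrimitiveRoot ζ n := by
    have hroot := IsAlgClosed.exists_root (cyclotomic n Ω)
      (by rw [Polynomial.degree_cyclotomic]; exact_mod_cast (Nat.totient_pos.2 (NeZero.pos n)).ne')
    obtain ⟨ζ, hζ⟩ := hroot
    have : NeZero (n : Ω) := ⟨by exact_mod_cast hn⟩
    exact ⟨ζ, Polynomial.isRoot_cyclotomic_iff.1 hζ⟩
  let χ : (Ω ≃ₐ[K] Ω) →* (ZMod n)ˣ := hζ.autToPow K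
  let E : (ZMod n)ˣ ≃* ∀ i : s, (ZMod i)ˣ :=
    (Units.mapEquiv (ZMod.prodEquivPi (fun i : s => (i : ℕ)) hcop).toMulEquiv).trans
      MulEquiv.piUnits
  let P : (∀ i : s, (ZMod i)ˣ) →* (∀ i : s, (ZMod i)ˣ) :=
    { toFun := fun x i => x i ^ m i
      map_one' := by ext i; simp
      map_mul' := fun x y => by
        funext i
        exact mul_pow _ _ _ }
  have hfinU : ∀ i : s, Finite (ZMod i)ˣ := fun i => by
    have : NeZero (i : ℕ) := ⟨(hs i i.2).ne_zero⟩
    infer_instance
  have hfin : Finite (∀ i : s, (ZMod i)ˣ) := inferInstance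
  let Φ : (Ω ≃ₐ[K] Ω) →* (∀ i : s, (ZMod i)ˣ) := (P.comp E.toMonoidHom).comp χ
  have hΦq : ∀ g, Φ g ^ q = 1 := by
    intro g
    funext i
    have : NeZero (i : ℕ) := ⟨(hs i i.2).ne_zero⟩
    have hp : Fact (Nat.Prime (i : ℕ)) := ⟨hs i i.2⟩
    change ((E (χ g)) i ^ m i) ^ q = 1
    rw [← pow_mul, hmq]
    exact ZMod.units_pow_card_sub_one_eq_one _ _
  -- cardinality of the range
  have hker : Nat.card (P.comp E.toMonoidHom).ker ≤ ∏ i, m i := by
    refine le_trans ?_ (ElemAb.card_ker_le s hs m hm)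
    refine Nat.card_le_card_of_injective
      (fun x => (⟨E x.1, fun i => ?_⟩ : {x : ∀ i : s, (ZMod i)ˣ // ∀ i, x i ^ m i = 1})) ?_
    · have := x.2
      rw [MonoidHom.mem_ker] at this
      exact congrFun this i
    · intro x y h
      exact Subtype.ext (E.injective (congrArg Subtype.val h))
  have hrange : Nat.card χ.range ≤ Nat.card Φ.range * Nat.card (P.comp E.toMonoidHom).ker := by
    let f : χ.range →* (∀ i : s, (ZMod i)ˣ) := (P.comp E.toMonoidHom).comp χ.range.subtype
    have h1 : Nat.card f.ker * Nat.card f.range = Nat.card χ.range := by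
      rw [← f.ker.card_mul_index, Subgroup.index_ker]
    have h2 : f.range = Φ.range := by
      ext x
      constructor
      · rintro ⟨⟨y, g, rfl⟩, rfl⟩
        exact ⟨g, rfl⟩
      · rintro ⟨g, rfl⟩
        exact ⟨⟨χ g, g, rfl⟩, rfl⟩
    have h3 : Nat.card f.ker ≤ Nat.card (P.comp E.toMonoidHom).ker := by
      refine Nat.card_le_card_of_injective
        (fun x => (⟨x.1.1, x.2⟩ : (P.comp E.toMonoidHom).ker)) ?_
      intro x y h
      have h4 : (x.1.1 : (ZMod n)ˣ) = y.1.1 :=
        congrArg (fun z : (P.comp E.toMonoidHom).ker => (z : (ZMod n)ˣ)) h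
      exact Subtype.ext (Subtype.ext h4)
    rw [← h1, h2, mul_comm]
    exact Nat.mul_le_mul_left _ h3
  have htot := ElemAb.totient_le (K := K) hζ
  have htotient : n.totient = ∏ i : s, ((i : ℕ) - 1) := by
    have h1 : Nat.card (ZMod n)ˣ = n.totient := by
      rw [Nat.card_eq_fintype_card, ZMod.card_units_eq_totient]
    rw [← h1, Nat.card_congr E.toEquiv, Nat.card_pi]
    refine Finset.prod_congr rfl fun i _ => ?_
    have : NeZero (i : ℕ) := ⟨(hs i i.2).ne_zero⟩
    rw [Nat.card_eq_fintype_card, ZMod.card_units_eq_totient, Nat.totient_prime (hs i i.2)]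
  have hprod : ∏ i : s, ((i : ℕ) - 1) = (∏ i, m i) * q ^ (d + r) := by
    rw [← Finset.prod_congr rfl fun i _ => hmq i, Finset.prod_mul_distrib, Finset.prod_const,
      Finset.card_univ, Fintype.card_coe, hcard]
  have hSpos : 0 < ∏ i, m i := Finset.prod_pos fun i _ => hm i
  have hS : q ^ (d + r) ≤ d * Nat.card Φ.range := by
    have h1 : (∏ i, m i) * q ^ (d + r) ≤ d * (Nat.card Φ.range * ∏ i, m i) := by
      rw [← hprod, ← htotient]
      refine htot.trans (Nat.mul_le_mul_left _ ?_)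
      exact hrange.trans (Nat.mul_le_mul_left _ hker)
    have h2 : (∏ i, m i) * q ^ (d + r) ≤ (∏ i, m i) * (d * Nat.card Φ.range) := by
      calc (∏ i, m i) * q ^ (d + r) ≤ d * (Nat.card Φ.range * ∏ i, m i) := h1
        _ = (∏ i, m i) * (d * Nat.card Φ.range) := by ring
    exact Nat.le_of_mul_le_mul_left h2 hSpos
  have hS2 : q ^ r ≤ Nat.card Φ.range := by
    have h1 : d < q ^ d := Nat.lt_pow_self hq.one_lt
    have h2 : d * q ^ r ≤ q ^ (d + r) := by
      rw [pow_add]
      exact Nat.mul_le_mul_right _ h1.le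
    exact Nat.le_of_mul_le_mul_left (h2.trans hS) hd0
  -- p-group
  have hp : IsPGroup q Φ.range := by
    rintro ⟨x, g, rfl⟩
    exact ⟨1, Subtype.ext (by simpa using hΦq g)⟩
  obtain ⟨k, hk⟩ := IsPGroup.iff_card.1 hp
  have hk2 : r ≤ k := by
    rw [hk] at hS2
    exact (Nat.pow_le_pow_iff_right hq.one_lt).1 hS2
  obtain ⟨T, hT⟩ := Sylow.exists_subgroup_card_pow_prime (G := Φ.range) q (n := k - r)
    (by rw [hk]; exact pow_dvd_pow _ (by omega))
  have hTi : T.index = q ^ r := by
    have h1 := T.card_mul_index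
    rw [hT, hk] at h1
    have h2 : q ^ k = q ^ (k - r) * q ^ r := by rw [← pow_add]; congr 1; omega
    rw [h2] at h1
    exact Nat.eq_of_mul_eq_mul_left (pow_pos hq.pos _) h1
  have hcomm : T.Normal := by
    constructor
    intro x hx g
    have : g * x * g⁻¹ = x := by
      apply Subtype.ext
      simp only [Subgroup.coe_mul, InvMemClass.coe_inv]
      rw [mul_comm (g : ∀ i : s, (ZMod i)ˣ) x, mul_assoc, mul_inv_cancel, mul_one]
    rw [this]
    exact hx
  refine ⟨T.comap Φ.rangeRestrict, hcomm.comap _, ?_, ?_, ?_, ?_⟩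
  · have hfd : FiniteDimensional K (IntermediateField.adjoin K {ζ}) :=
      IntermediateField.adjoin.finiteDimensional (Algebra.IsIntegral.isIntegral ζ)
    refine Subgroup.isOpen_mono ?_
      (IntermediateField.fixingSubgroup_isOpen (IntermediateField.adjoin K {ζ}))
    intro σ hσ
    rw [IntermediateField.mem_fixingSubgroup_iff] at hσ
    have h1 : σ ζ = ζ := hσ ζ (IntermediateField.mem_adjoin_simple_self K ζ)
    have h2 : χ σ = 1 := by
      have h3 := hζ.autToPow_spec K σ
      rw [h1] at h3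
      have h4 := hζ.pow_inj (i := ((χ σ : (ZMod n)ˣ) : ZMod n).val) (j := 1 % n)
        (ZMod.val_lt _) (Nat.mod_lt _ (NeZero.pos n)) (by
          rw [show ζ ^ (1 % n) = ζ by
            have h5 := pow_mod_orderOf ζ 1
            rw [← hζ.eq_orderOf] at h5
            rw [h5, pow_one]]
          exact h3)
      apply Units.ext
      apply ZMod.val_injective
      rw [h4, Units.val_one, ZMod.val_one_eq_one_mod]
    rw [Subgroup.mem_comap]
    have h3 : Φ.rangeRestrict σ = 1 := by
      apply Subtype.ext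
      change (P.comp E.toMonoidHom) (χ σ) = 1
      rw [h2, map_one]
    rw [h3]
    exact one_mem _
  · rw [Subgroup.index_comap_of_surjective _ Φ.rangeRestrict_surjective, hTi]
  · intro g
    rw [Subgroup.mem_comap, map_pow]
    have : Φ.rangeRestrict g ^ q = 1 := Subtype.ext (hΦq g)
    rw [this]
    exact one_mem _
  · intro g h
    rw [Subgroup.mem_comap]
    have h1 : Φ.rangeRestrict (g * h * g⁻¹ * h⁻¹) = 1 := by
      apply Subtype.ext
      change Φ (g * h * g⁻¹ * h⁻¹) = 1
      simp only [map_mul, map_inv]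
      rw [mul_comm (Φ g) (Φ h), mul_inv_cancel_right, mul_inv_cancel]
    rw [h1]
    exact one_mem _

end Pool.BK
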