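import Pool.Agent.BK.PowRel
import Pool.Agent.BK.ElemAb2

/-!
Integral relations between permutation characters of open normal subgroups of the absolute Galois
group, of index divisible by a given number.
-/

open scoped Pointwise NumberField
open Polynomial IsDedekindDomain

namespace Pool.BK

section Main

variable (K : Type) [Field K] [NumberField K] (Ω : Type) [Field Ω] [Algebra K Ω] [IsAlgClosed Ω]
  [Algebra.IsAlgebraic K Ω]

namespace MulRel

/-- The relation for `n`. -/
def Rel (G : Type) [Group G] [TopologicalSpace G] (n : ℕ) : Prop :=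
  ∃ (κ : Type) (_ : Fintype κ)
    (U : κ → Subgroup G) (a : κ → ℤ), (∀ j, (U j).Normal ∧
      IsOpen (U j : Set G) ∧ n ∣ (U j).index ∧
      ∀ p : ℕ, p.Prime → p ∣ (U j).index → p ∣ n) ∧
    ∀ g, ∑ j, a j * (fixCount (U j) g : ℤ) = n

theorem index_ne_zero {n m : ℕ} (hn : 0 < n) (h : ∀ p : ℕ, p.Prime → p ∣ m → p ∣ n) :
    m ≠ 0 := by
  rintro rfl
  obtain ⟨p, hp, hpp⟩ := Nat.exists_infinite_primes (n + 1)
  have := Nat.le_of_dvd hn (h p hpp (dvd_zero p))
  omega

theorem rel_one (G : Type) [Group G] [TopologicalSpace G] : Rel G 1 := by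
  refine ⟨Unit, inferInstance, fun _ => ⊤, fun _ => 1, ?_, ?_⟩
  · intro _
    refine ⟨inferInstance, by simp, one_dvd _, ?_⟩
    intro p _ h
    simpa using h
  · intro g
    have := (fixCount_normal (⊤ : Subgroup G) g).1 (Subgroup.mem_top g)
    simp [this]

theorem rel_mul {G : Type} [Group G] [TopologicalSpace G] {n m : ℕ} (hn : 0 < n) (hm : 0 < m)
    (hnm : n.Coprime m) (h1 : Rel G n) (h2 : Rel G m) : Rel G (n * m) := by
  obtain ⟨κ, _, U, a, hU, ha⟩ := h1
  obtain ⟨κ', _, U', a', hU', ha'⟩ := h2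
  have hidx : ∀ j j', (U j ⊓ U' j').index = (U j).index * (U' j').index := by
    intro j j'
    have h0 := index_ne_zero hn (hU j).2.2.2
    have h0' := index_ne_zero hm (hU' j').2.2.2
    have hc : (U j).index.Coprime (U' j').index := by
      apply Nat.coprime_of_dvd
      intro p hp h3 h4
      exact Nat.not_coprime_of_dvd_of_dvd hp.one_lt ((hU j).2.2.2 p hp h3)
        ((hU' j').2.2.2 p hp h4) hnm
    apply le_antisymm
    · exact Subgroup.index_inf_le
    · apply Nat.le_of_dvd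
      · exact Nat.pos_of_ne_zero (Subgroup.index_inf_ne_zero h0 h0')
      · exact hc.mul_dvd_of_dvd_of_dvd (Subgroup.index_dvd_of_le inf_le_left)
          (Subgroup.index_dvd_of_le inf_le_right)
  refine ⟨κ × κ', inferInstance, fun x => U x.1 ⊓ U' x.2, fun x => a x.1 * a' x.2, ?_, ?_⟩
  · rintro ⟨j, j'⟩
    have hN := (hU j).1
    have hN' := (hU' j').1
    refine ⟨?_, ?_, ?_, ?_⟩
    · exact Subgroup.normal_inf_normal _ _
    · rw [Subgroup.coe_inf]
      exact (hU j).2.1.inter (hU' j').2.1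
    · rw [hidx]
      exact mul_dvd_mul (hU j).2.2.1 (hU' j').2.2.1
    · intro p hp h
      rw [hidx, hp.dvd_mul] at h
      rcases h with h | h
      · exact ((hU j).2.2.2 p hp h).mul_right _
      · exact ((hU' j').2.2.2 p hp h).mul_left _
  · intro g
    have hfix : ∀ j j', fixCount (U j ⊓ U' j') g = fixCount (U j) g * fixCount (U' j') g := by
      intro j j'
      have hN := (hU j).1
      have hN' := (hU' j').1
      have h0 := index_ne_zero hn (hU j).2.2.2
      have h0' := index_ne_zero hm (hU' j').2.2.2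
      have hF : (U j).FiniteIndex := ⟨h0⟩
      have hF' : (U' j').FiniteIndex := ⟨h0'⟩
      have hNN : (U j ⊓ U' j').Normal := Subgroup.normal_inf_normal _ _
      have hFF : (U j ⊓ U' j').FiniteIndex := ⟨Subgroup.index_inf_ne_zero h0 h0'⟩
      by_cases hg : g ∈ U j
      · by_cases hg' : g ∈ U' j'
        · rw [(fixCount_normal (U j) g).1 hg, (fixCount_normal (U' j') g).1 hg',
            (fixCount_normal (U j ⊓ U' j') g).1 ⟨hg, hg'⟩, hidx]
        · rw [(fixCount_normal (U' j') g).2 hg', (fixCount_normal (U j ⊓ U' j') g).2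
            (fun h => hg' h.2), mul_zero]
      · rw [(fixCount_normal (U j) g).2 hg, (fixCount_normal (U j ⊓ U' j') g).2
            (fun h => hg h.1), zero_mul]
    rw [Fintype.sum_prod_type]
    simp only [hfix]
    push_cast
    rw [← ha g, ← ha' g, Finset.sum_mul_sum]
    refine Finset.sum_congr rfl fun j _ => Finset.sum_congr rfl fun j' _ => ?_
    ring

theorem rel_pow (q : ℕ) (hq : q.Prime) (e : ℕ) (he : 0 < e) : Rel (Ω ≃ₐ[K] Ω) (q ^ e) := by
  classical
  have : Fact q.Prime := ⟨hq⟩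
  obtain ⟨C, hCN, hCo, hCi, hCq, hCc⟩ := exists_quot_gen K Ω q (e + 1)
  obtain ⟨hfin, hnorm, hrel⟩ := power_relation q e C hCi hCq hCc
  have hfin' : Finite {A : Subgroup (Ω ≃ₐ[K] Ω) | C ≤ A ∧ A.index = q ^ e} := hfin
  have hft : Fintype {A : Subgroup (Ω ≃ₐ[K] Ω) | C ≤ A ∧ A.index = q ^ e} := Fintype.ofFinite _
  have hpr : ∀ k : ℕ, ∀ p : ℕ, p.Prime → p ∣ q ^ k → p ∣ q ^ e := by
    intro k p hp h
    have h1 := (Nat.prime_dvd_prime_iff_eq hp hq).1 (hp.dvd_of_dvd_pow h)
    rw [h1]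
    exact dvd_pow_self q he.ne'
  refine ⟨{A : Subgroup (Ω ≃ₐ[K] Ω) | C ≤ A ∧ A.index = q ^ e} ⊕ Unit, inferInstance,
    Sum.elim (fun A => A.1) (fun _ => C),
    Sum.elim (fun _ => 1) (fun _ => -(((q ^ e - 1) / (q - 1) : ℕ) : ℤ)), ?_, ?_⟩
  · rintro (⟨A, hA⟩ | _)
    · refine ⟨hnorm A hA.1, Subgroup.isOpen_mono hA.1 hCo, ?_, ?_⟩
      · change q ^ e ∣ A.index
        rw [hA.2]
      · change ∀ p : ℕ, p.Prime → p ∣ A.index → p ∣ q ^ e
        rw [hA.2]
        exact hpr e
    · refine ⟨hCN, hCo, ?_, ?_⟩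
      · change q ^ e ∣ C.index
        rw [hCi]
        exact pow_dvd_pow q (Nat.le_succ e)
      · change ∀ p : ℕ, p.Prime → p ∣ C.index → p ∣ q ^ e
        rw [hCi]
        exact hpr (e + 1)
  · intro g
    have h := hrel g
    rw [← finsum_set_coe_eq_finsum_mem, finsum_eq_sum_of_fintype] at h
    rw [Fintype.sum_sum_type]
    simp only [Sum.elim_inl, Sum.elim_inr, one_mul, Finset.univ_unique, Finset.sum_singleton]
    push_cast at h ⊢
    rw [← h]
    ring

end MulRel

open MulRel in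
theorem exists_relation (n : ℕ) (hn : 0 < n) : ∃ (κ : Type) (_ : Fintype κ)
    (U : κ → Subgroup (Ω ≃ₐ[K] Ω)) (a : κ → ℤ), (∀ j, (U j).Normal ∧
      IsOpen (U j : Set (Ω ≃ₐ[K] Ω)) ∧ n ∣ (U j).index ∧
      ∀ p : ℕ, p.Prime → p ∣ (U j).index → p ∣ n) ∧
    ∀ g, ∑ j, a j * (fixCount (U j) g : ℤ) = n := by
  change Rel (Ω ≃ₐ[K] Ω) n
  induction n using Nat.recOnPosPrimePosCoprime with
  | prime_pow p k hp hk => exact rel_pow K Ω p hp k hk
  | zero => omega
  | one => exact rel_one _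
  | coprime a b ha hb hab iha ihb =>
    exact rel_mul (by omega) (by omega) hab (iha (by omega)) (ihb (by omega))

end Main

end Pool.BK
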