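import Pool.Agent.BK.Reduction
import Pool.Agent.BK.RelBasePow
import Pool.Agent.BK.MulRel

/-!
The power form of the order of vanishing formula from the formula over the fields whose degree is
divisible by an element of a finite set of degrees; the power is the greatest common divisor.
-/

open scoped Pointwise NumberField
open Polynomial IsDedekindDomain

namespace Pool.BK

section Main

variable (K : Type) [Field K] [NumberField K] (Ω : Type) [Field Ω] [Algebra K Ω] [IsAlgClosed Ω]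
  [Algebra.IsAlgebraic K Ω]

namespace ReductionGcd

lemma bezout (D : Finset ℕ) : ∃ x : ℕ → ℤ, ((D.gcd id : ℕ) : ℤ) = ∑ d ∈ D, x d * (d : ℤ) := by
  classical
  induction D using Finset.induction_on with
  | empty => exact ⟨0, by simp⟩
  | insert n s hn ih =>
    obtain ⟨x, hx⟩ := ih
    refine ⟨fun d => if d = n then Nat.gcdA n (s.gcd id) else Nat.gcdB n (s.gcd id) * x d, ?_⟩
    rw [Finset.gcd_insert, id_eq, Finset.sum_insert hn]
    beta_reduce
    rw [if_pos rfl]
    have h1 : ∑ d ∈ s, (if d = n then Nat.gcdA n (s.gcd id) else Nat.gcdB n (s.gcd id) * x d) *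
        (d : ℤ) = Nat.gcdB n (s.gcd id) * ∑ d ∈ s, x d * (d : ℤ) := by
      rw [Finset.mul_sum]
      refine Finset.sum_congr rfl fun d hd => ?_
      rw [if_neg (fun h : d = n => hn (h ▸ hd)), mul_assoc]
    rw [h1, ← hx]
    have h2 := Nat.gcd_eq_gcd_ab n (s.gcd id)
    change ((Nat.gcd n (s.gcd id) : ℕ) : ℤ) = _
    rw [h2]
    ring

variable {K Ω} in
lemma finrank_eq (A : Subgroup (Ω ≃ₐ[K] Ω)) (hA : IsOpen (A : Set (Ω ≃ₐ[K] Ω))) :
    Module.finrank K (IntermediateField.fixedField A) = A.index := by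
  have hG : IsGalois K Ω := by
    have : Normal K Ω := normal_iff.2 fun x =>
      ⟨Algebra.IsIntegral.isIntegral x, IsAlgClosed.splits _⟩
    exact ⟨⟩
  rw [IntermediateField.finrank_eq_fixingSubgroup_index, (Reduction.open_field A hA).2]

end ReductionGcd

/-- the step over the base field -/
theorem ReductionGcd.base (V : LSystem (Ω ≃ₐ[K] Ω))
    (B : ∀ (p : ℕ) [Fact p.Prime], PeriodData (Ω ≃ₐ[K] Ω) (𝓞 Ω) p) (D : Finset ℕ)
    (hD : D.Nonempty) (hpos : ∀ d ∈ D, 0 < d)
    (h : ∀ (E : IntermediateField K Ω) [NumberField E], (∃ d ∈ D, d ∣ Module.finrank K E) →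
      BKHolds E Ω (V.res E) (fun p _ => (B p).res E)) :
    BKpow K Ω V B (D.gcd id) := by
  classical
  have key : ∀ d : D, ∃ (κ : Type) (_ : Fintype κ)
    (U : κ → Subgroup (Ω ≃ₐ[K] Ω)) (a : κ → ℤ), (∀ j, (U j).Normal ∧
      IsOpen (U j : Set (Ω ≃ₐ[K] Ω)) ∧ (d : ℕ) ∣ (U j).index ∧
      ∀ p : ℕ, p.Prime → p ∣ (U j).index → p ∣ (d : ℕ)) ∧
    ∀ g, ∑ j, a j * (fixCount (U j) g : ℤ) = (d : ℕ) := fun d =>
      exists_relation K Ω d (hpos d d.2)
  choose κ hκ U a hU ha using key
  obtain ⟨x, hx⟩ := ReductionGcd.bezout D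
  let ι : Type := Σ d : D, κ d
  let S : ι → Subgroup (Ω ≃ₐ[K] Ω) := fun i => U i.1 i.2
  let c : ι → ℤ := fun i => x i.1 * a i.1 i.2
  have hSo : ∀ i, IsOpen (S i : Set (Ω ≃ₐ[K] Ω)) := fun i => (hU i.1 i.2).2.1
  let E : ι → IntermediateField K Ω := fun i => IntermediateField.fixedField (S i)
  have hfd : ∀ i, FiniteDimensional K (E i) := fun i => (Reduction.open_field (S i) (hSo i)).1
  have hnf : ∀ i, NumberField (E i) := fun i => Reduction.numberField_of (E i)
  have hfix : ∀ i, (E i).fixingSubgroup = S i := fun i => (Reduction.open_field (S i) (hSo i)).2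
  have hm : 0 < D.gcd id := by
    rw [Nat.pos_iff_ne_zero]
    intro h0
    obtain ⟨d, hd⟩ := hD
    rw [Finset.gcd_eq_zero_iff] at h0
    have h1 := h0 d hd
    have h2 := hpos d hd
    simp only [id_eq] at h1
    omega
  refine rel_base_pow K Ω V B E c (D.gcd id) hm (fun g => ?_) (fun i => h (E i) ?_)
  · simp only [hfix]
    rw [Fintype.sum_sigma]
    have h1 : ∀ d : D, ∑ j : κ d, c ⟨d, j⟩ * (fixCount (S ⟨d, j⟩) g : ℤ) = x d * (d : ℕ) := by
      intro d
      rw [← ha d g, Finset.mul_sum]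
      exact Finset.sum_congr rfl fun j _ => mul_assoc _ _ _
    rw [Finset.sum_congr rfl (fun d _ => h1 d)]
    rw [hx]
    exact Finset.sum_coe_sort D (fun d => x d * (d : ℤ))
  · refine ⟨i.1, i.1.2, ?_⟩
    rw [ReductionGcd.finrank_eq (S i) (hSo i)]
    exact (hU i.1 i.2).2.2.1

theorem reduction_gcd (V : LSystem (Ω ≃ₐ[K] Ω))
    (B : ∀ (p : ℕ) [Fact p.Prime], PeriodData (Ω ≃ₐ[K] Ω) (𝓞 Ω) p)
    (C : IntermediateField K Ω → Prop) (hC : ∀ L L', L ≤ L' → C L → C L') (D : Finset ℕ)
    (hD : D.Nonempty) (hpos : ∀ d ∈ D, 0 < d)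
    (h : ∀ (L : IntermediateField K Ω) [NumberField L], C L →
      (∃ d ∈ D, d ∣ Module.finrank K L) → BKHolds L Ω (V.res L) (fun p _ => (B p).res L)) :
    ∀ (L : IntermediateField K Ω) [NumberField L], C L →
      BKpow L Ω (V.res L) (fun p _ => (B p).res L) (D.gcd id) := by
  intro L hL hCL
  have : Algebra.IsAlgebraic L Ω := Algebra.IsAlgebraic.tower_top (K := K) L
  refine ReductionGcd.base L Ω (V.res L) (fun p _ => (B p).res L) D hD hpos fun E hE h1 => ?_
  have hnf : NumberField (E.restrictScalars K) := hE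
  have hfL : FiniteDimensional K L := Module.Finite.of_restrictScalars_finite ℚ K L
  have hfE : FiniteDimensional L E := Module.Finite.of_restrictScalars_finite ℚ L E
  have hle : L ≤ E.restrictScalars K := by
    intro x hx
    exact E.algebraMap_mem ⟨x, hx⟩
  have hrank : Module.finrank K (E.restrictScalars K) = Module.finrank K L * Module.finrank L E :=
    (Module.finrank_mul_finrank K L E).symm
  obtain ⟨d, hd, hdiv⟩ := h1
  refine h (E.restrictScalars K) (hC _ _ hle hCL) ⟨d, hd, ?_⟩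
  rw [hrank]
  exact Dvd.dvd.mul_left hdiv _

end Main

end Pool.BK
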