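import Pool.Agent.BK.HyperCore
import Pool.Agent.BK.ReductionGcd

/-!
Reduction of the order of vanishing formula to fields over which a fixed Galois extension becomes
hyperelementary.
-/

open scoped Pointwise NumberField
open Polynomial IsDedekindDomain

namespace Pool.BK

section Main

variable (K : Type) [Field K] [NumberField K] (Ω : Type) [Field Ω] [Algebra K Ω] [IsAlgClosed Ω]
  [Algebra.IsAlgebraic K Ω]

theorem reduction_hyper (V : LSystem (Ω ≃ₐ[K] Ω))
    (B : ∀ (p : ℕ) [Fact p.Prime], PeriodData (Ω ≃ₐ[K] Ω) (𝓞 Ω) p)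
    (F : IntermediateField K Ω) [NumberField F] [Normal K F]
    (C : IntermediateField K Ω → Prop) (hC : ∀ L L', L ≤ L' → C L → C L') (D : Finset ℕ)
    (hD : D.Nonempty) (hpos : ∀ d ∈ D, 0 < d)
    (h : ∀ (L : IntermediateField K Ω) [NumberField L], C L →
      IsHyperelementary (L.fixingSubgroup.map (AlgEquiv.restrictNormalHom F)) →
      (∃ d ∈ D, d ∣ Module.finrank K L) → BKHolds L Ω (V.res L) (fun p _ => (B p).res L)) :
    ∀ (L : IntermediateField K Ω) [NumberField L], C L →
      BKpow L Ω (V.res L) (fun p _ => (B p).res L) (D.gcd id) := by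
  have hstep := reduction_gcd K Ω V B (fun L => C L ∧
    IsHyperelementary (L.fixingSubgroup.map (AlgEquiv.restrictNormalHom F)))
    (fun L L' hle hL => ⟨hC L L' hle hL.1,
      Hyper.mono (Subgroup.map_mono (IntermediateField.fixingSubgroup_le hle)) hL.2⟩) D hD hpos
    (fun L _ hL hd => h L hL.1 hL.2 hd)
  intro L hnL hCL
  have : Algebra.IsAlgebraic L Ω := Algebra.IsAlgebraic.tower_top (K := K) L
  have hfF : FiniteDimensional K F := Module.Finite.of_restrictScalars_finite ℚ K F
  let π : (Ω ≃ₐ[L] Ω) →* (F ≃ₐ[K] F) := (AlgEquiv.restrictNormalHom F).comp (resHom K L Ω)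
  have hfin : Finite (F ≃ₐ[K] F) := inferInstance
  have hkerF : IsOpen ((AlgEquiv.restrictNormalHom (K₁ := Ω) (F := K) F).ker :
      Set (Ω ≃ₐ[K] Ω)) := by
    rw [IntermediateField.restrictNormalHom_ker]
    exact F.fixingSubgroup_isOpen
  have hker : IsOpen (π.rangeRestrict.ker : Set (Ω ≃ₐ[L] Ω)) := by
    rw [MonoidHom.ker_rangeRestrict]
    have : (π.ker : Set (Ω ≃ₐ[L] Ω)) = resHom K L Ω ⁻¹'
        ((AlgEquiv.restrictNormalHom (K₁ := Ω) (F := K) F).ker : Set (Ω ≃ₐ[K] Ω)) := rfl
    rw [this]
    exact hkerF.preimage (continuous_resHom K L Ω)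
  refine Hyper.descent_hyper L Ω π.rangeRestrict π.rangeRestrict_surjective hker (V.res L)
    (fun p _ => (B p).res L) (D.gcd id) fun E hE H hEH hH => ?_
  have hnf : NumberField (E.restrictScalars K) := hE
  have hle : L ≤ E.restrictScalars K := by
    intro x hx
    exact E.algebraMap_mem ⟨x, hx⟩
  refine hstep (E.restrictScalars K) ⟨hC _ _ hle hCL, ?_⟩
  -- the image of the Galois group of `E` is isomorphic to `H`
  have hmap : ∀ x ∈ (E.restrictScalars K).fixingSubgroup.map (AlgEquiv.restrictNormalHom F),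
      ∃ y : π.range, y ∈ H ∧ (y : F ≃ₐ[K] F) = x := by
    rintro _ ⟨σ, hσ, rfl⟩
    have hσ' : σ ∈ (E.restrictScalars K).fixingSubgroup := hσ
    rw [IntermediateField.mem_fixingSubgroup_iff] at hσ'
    -- lift `σ` to an automorphism over `L`
    let τ : Ω ≃ₐ[L] Ω := AlgEquiv.ofRingEquiv (f := σ.toRingEquiv) (fun x => by
      exact hσ' _ (hle x.2))
    have hτ : τ ∈ E.fixingSubgroup := by
      rw [IntermediateField.mem_fixingSubgroup_iff]
      intro x hx
      exact hσ' x hx
    have hres : resHom K L Ω τ = σ := by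
      ext x
      rfl
    rw [hEH, Subgroup.mem_comap] at hτ
    refine ⟨π.rangeRestrict τ, hτ, ?_⟩
    change AlgEquiv.restrictNormalHom F (resHom K L Ω τ) = _
    rw [hres]
  let Φ : (E.restrictScalars K).fixingSubgroup.map (AlgEquiv.restrictNormalHom F) →* H :=
    { toFun := fun x => ⟨(hmap x.1 x.2).choose, (hmap x.1 x.2).choose_spec.1⟩
      map_one' := by
        apply Subtype.ext
        apply Subtype.ext
        exact (hmap 1 (one_mem _)).choose_spec.2
      map_mul' := by
        intro x y
        apply Subtype.ext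
        apply Subtype.ext
        have h1 := (hmap (x * y).1 (x * y).2).choose_spec.2
        have h2 := (hmap x.1 x.2).choose_spec.2
        have h3 := (hmap y.1 y.2).choose_spec.2
        change (((hmap (x * y).1 (x * y).2).choose : π.range) : F ≃ₐ[K] F) =
          ((hmap x.1 x.2).choose : F ≃ₐ[K] F) * ((hmap y.1 y.2).choose : F ≃ₐ[K] F)
        rw [h1, h2, h3]
        rfl }
  refine Solomon.of_injective Φ (fun x y hxy => ?_) hH
  apply Subtype.ext
  have h1 : ((hmap x.1 x.2).choose : π.range) = (hmap y.1 y.2).choose :=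
    congrArg Subtype.val hxy
  rw [← (hmap x.1 x.2).choose_spec.2, ← (hmap y.1 y.2).choose_spec.2, h1]

end Main

end Pool.BK
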