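import Pool.Agent.BK.MulRelAvoid
import Pool.Agent.BK.ReductionGcd
import Pool.Agent.BK.H1Relation
import Pool.Agent.BK.Hyper

/-!
Reduction of the order of vanishing formula to the fields `L` of large degree, outside a small
exceptional set, which lie in a finite Galois extension `M` of the base field containing a given
one and such that the Galois group of `M / L` has a given property.
-/

open scoped Pointwise NumberField
open Polynomial IsDedekindDomain

namespace Pool.BK

namespace ReductionGal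

/-- comparison of the images of subgroups in quotients -/
theorem exists_inj {G : Type} [Group G] (A B N N' : Subgroup G) [N.Normal] [N'.Normal]
    (hAB : A ≤ B) (hNN : N' ≤ N) (h : A ⊓ N ≤ N') :
    ∃ f : A.map (QuotientGroup.mk' N') →* B.map (QuotientGroup.mk' N), Function.Injective f := by
  let φ : G ⧸ N' →* G ⧸ N := QuotientGroup.map N' N (MonoidHom.id G) (by simpa using hNN)
  have hφ : ∀ g : G, φ (QuotientGroup.mk' N' g) = QuotientGroup.mk' N g := fun g => rfl
  have hmem : ∀ x : A.map (QuotientGroup.mk' N'), φ x ∈ B.map (QuotientGroup.mk' N) := by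
    rintro ⟨_, g, hg, rfl⟩
    exact ⟨g, hAB hg, rfl⟩
  refine ⟨(φ.comp (Subgroup.subtype _)).codRestrict _ hmem, ?_⟩
  rw [injective_iff_map_eq_one]
  rintro ⟨_, g, hg, rfl⟩ h1
  have h2 : φ (QuotientGroup.mk' N' g) = 1 := congrArg Subtype.val h1
  rw [hφ, QuotientGroup.mk'_apply, QuotientGroup.eq_one_iff] at h2
  apply Subtype.ext
  change QuotientGroup.mk' N' g = 1
  rw [QuotientGroup.mk'_apply, QuotientGroup.eq_one_iff]
  exact h ⟨hg, h2⟩

section Main

variable {K : Type} [Field K] [NumberField K] {Ω : Type} [Field Ω] [Algebra K Ω] [IsAlgClosed Ω]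
  [Algebra.IsAlgebraic K Ω]

/-- The fixing subgroup over `K` of an extension of `E`. -/
theorem fixingSubgroup_restrictScalars (E : IntermediateField K Ω) (E' : IntermediateField E Ω) :
    (E'.restrictScalars K).fixingSubgroup = E'.fixingSubgroup.map (resHom K E Ω) := by
  ext σ
  rw [IntermediateField.mem_fixingSubgroup_iff]
  constructor
  · intro h
    have hσ : σ ∈ (resHom K E Ω).range := by
      rw [H1Relation.range_resHom, IntermediateField.mem_fixingSubgroup_iff]
      intro x hx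
      exact h x (E'.algebraMap_mem ⟨x, hx⟩)
    obtain ⟨ψ, rfl⟩ := hσ
    refine ⟨ψ, ?_, rfl⟩
    change ψ ∈ E'.fixingSubgroup
    rw [IntermediateField.mem_fixingSubgroup_iff]
    exact h
  · rintro ⟨ψ, hψ, rfl⟩ x hx
    exact (IntermediateField.mem_fixingSubgroup_iff _ _).1 hψ x hx

/-- The number of fixed cosets is preserved by disjoint base change. -/
theorem fixCount_base (E : IntermediateField K Ω) (U : Subgroup (Ω ≃ₐ[K] Ω)) [U.Normal]
    (hfin : U.index ≠ 0) (h : U ⊔ E.fixingSubgroup = ⊤) :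
    (U.comap (resHom K E Ω)).index = U.index ∧
    ∀ x, fixCount (U.comap (resHom K E Ω)) x = fixCount U (resHom K E Ω x) := by
  have h1 : (U.comap (resHom K E Ω)).index = U.index := by
    rw [Subgroup.index_comap, H1Relation.range_resHom, ← Subgroup.relIndex_sup_left, h,
      Subgroup.relIndex_top_right]
  refine ⟨h1, fun x => ?_⟩
  have hF : U.FiniteIndex := ⟨hfin⟩
  have hF' : (U.comap (resHom K E Ω)).FiniteIndex := ⟨by rw [h1]; exact hfin⟩
  have hN : (U.comap (resHom K E Ω)).Normal := inferInstance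
  by_cases hx : resHom K E Ω x ∈ U
  · rw [(fixCount_normal U _).1 hx, (fixCount_normal (U.comap (resHom K E Ω)) x).1 hx, h1]
  · rw [(fixCount_normal U _).2 hx, (fixCount_normal (U.comap (resHom K E Ω)) x).2 hx]

/-- The step over a field `E`: relations between the composites of `E` with abelian extensions of
the base field. -/
theorem abelian_step (P : ∀ (Γ : Type) [Group Γ], Prop)
    (hP : ∀ (Γ Γ' : Type) [Group Γ] [Group Γ'] (f : Γ' →* Γ), Function.Injective f → P Γ → P Γ')
    (V : LSystem (Ω ≃ₐ[K] Ω))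
    (B : ∀ (p : ℕ) [Fact p.Prime], PeriodData (Ω ≃ₐ[K] Ω) (𝓞 Ω) p)
    (R : Subgroup (Ω ≃ₐ[K] Ω))
    (C : IntermediateField K Ω → Prop) (hC : ∀ L L', L ≤ L' → C L → C L')
    (X : Set (IntermediateField K Ω))
    (hX : ∀ n : ℕ, 0 < n → {L | L ∈ X ∧ Module.finrank K L = n}.Finite)
    (D : Finset ℕ) (hD : D.Nonempty) (hone : ∀ d ∈ D, 1 < d)
    (h : ∀ (L : IntermediateField K Ω) [NumberField L], C L → L ∉ X →
      (∃ d ∈ D, d ∣ Module.finrank K L) →
      (∃ (N : Subgroup (Ω ≃ₐ[K] Ω)) (_ : N.Normal), IsOpen (N : Set (Ω ≃ₐ[K] Ω)) ∧ N ≤ R ∧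
        N ≤ L.fixingSubgroup ∧ P (L.fixingSubgroup.map (QuotientGroup.mk' N))) →
      BKHolds L Ω (V.res L) (fun p _ => (B p).res L))
    (E : IntermediateField K Ω) [NumberField E] (hE : C E)
    (N₀ : Subgroup (Ω ≃ₐ[K] Ω)) [N₀.Normal] (hN₀ : IsOpen (N₀ : Set (Ω ≃ₐ[K] Ω)))
    (hNR : N₀ ≤ R) (hNE : N₀ ≤ E.fixingSubgroup)
    (hPE : P (E.fixingSubgroup.map (QuotientGroup.mk' N₀))) :
    BKpow E Ω (V.res E) (fun p _ => (B p).res E) (D.gcd id) := by
  classical
  have hEa : Algebra.IsAlgebraic E Ω := Algebra.IsAlgebraic.tower_top (K := K) E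
  have hEf : FiniteDimensional K E := Module.Finite.of_restrictScalars_finite ℚ K E
  have hEpos : 0 < Module.finrank K E := Module.finrank_pos
  -- the relations
  have hs : ∀ d : D, ∃ s : ℕ, 0 < s ∧ MulRelAvoid.RelAv (Ω ≃ₐ[K] Ω) d s := fun d =>
    MulRelAvoid.exists_rel K Ω d (by have := hone d d.2; omega)
  choose s hs0 hs using hs
  -- the exceptional fields
  set M : ℕ := Module.finrank K E * ∏ d : D, s d with hM
  let Y : Set (IntermediateField K Ω) := {L | L ∈ X ∧ 0 < Module.finrank K L ∧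
    Module.finrank K L ≤ M}
  have hY : Y.Finite := by
    have h1 : (⋃ n ∈ Finset.Icc 1 M, {L | L ∈ X ∧ Module.finrank K L = n}).Finite := by
      refine Set.Finite.biUnion (Finset.finite_toSet _) fun n hn => hX n ?_
      have := Finset.mem_Icc.1 hn
      omega
    refine h1.subset ?_
    rintro L ⟨hLX, h0, h2⟩
    exact Set.mem_biUnion (Finset.mem_coe.2 (Finset.mem_Icc.2 ⟨h0, h2⟩)) ⟨hLX, rfl⟩
  have hYf : Finite Y := hY
  let N : Subgroup (Ω ≃ₐ[K] Ω) := E.fixingSubgroup ⊓ ⨅ y : Y, y.1.fixingSubgroup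
  have hN : IsOpen (N : Set (Ω ≃ₐ[K] Ω)) := by
    change IsOpen ((E.fixingSubgroup ⊓ ⨅ y : Y, y.1.fixingSubgroup : Subgroup (Ω ≃ₐ[K] Ω)) :
      Set (Ω ≃ₐ[K] Ω))
    rw [Subgroup.coe_inf, Subgroup.coe_iInf]
    refine E.fixingSubgroup_isOpen.inter (isOpen_iInter_of_finite fun y => ?_)
    have : FiniteDimensional K y.1 := Module.finite_of_finrank_pos y.2.2.1
    exact y.1.fixingSubgroup_isOpen
  have key := fun d : D => hs d N hN
  choose κ hκ U a hU ha using key
  obtain ⟨x, hx⟩ := ReductionGcd.bezout D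
  let ι : Type := Σ d : D, κ d
  have hidx0 : ∀ i : ι, (U i.1 i.2).index ≠ 0 := fun i h0 => by
    have h1 := (hU i.1 i.2).2.2.2.1
    rw [h0, zero_dvd_iff] at h1
    have := hs0 i.1
    omega
  have hsupE : ∀ i : ι, U i.1 i.2 ⊔ E.fixingSubgroup = ⊤ := by
    intro i
    rw [eq_top_iff, ← (hU i.1 i.2).2.2.2.2]
    exact sup_le_sup_left inf_le_left _
  let S : ι → Subgroup (Ω ≃ₐ[E] Ω) := fun i => (U i.1 i.2).comap (resHom K E Ω)
  let c : ι → ℤ := fun i => x i.1 * a i.1 i.2
  have hSo : ∀ i, IsOpen (S i : Set (Ω ≃ₐ[E] Ω)) := fun i =>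
    (hU i.1 i.2).2.1.preimage (continuous_resHom K E Ω)
  have hbase := fun i : ι =>
    @fixCount_base K _ _ Ω _ _ _ _ E (U i.1 i.2) (hU i.1 i.2).1 (hidx0 i) (hsupE i)
  let T : ι → IntermediateField E Ω := fun i => IntermediateField.fixedField (S i)
  have hfd : ∀ i, FiniteDimensional E (T i) := fun i => (Reduction.open_field (S i) (hSo i)).1
  have hnf : ∀ i, NumberField (T i) := fun i => Reduction.numberField_of (T i)
  have hfix : ∀ i, (T i).fixingSubgroup = S i := fun i => (Reduction.open_field (S i) (hSo i)).2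
  have hm : 0 < D.gcd id := by
    rw [Nat.pos_iff_ne_zero]
    intro h0
    obtain ⟨d, hd⟩ := hD
    rw [Finset.gcd_eq_zero_iff] at h0
    have h1 := h0 d hd
    have h2 := hone d hd
    simp only [id_eq] at h1
    omega
  refine rel_base_pow E Ω (V.res E) (fun p _ => (B p).res E) T c (D.gcd id) hm (fun g => ?_)
    (fun i => ?_)
  · simp only [hfix]
    rw [Fintype.sum_sigma]
    have h1 : ∀ d : D, ∑ j : κ d, c ⟨d, j⟩ * (fixCount (S ⟨d, j⟩) g : ℤ) = x d * (d : ℕ) := by
      intro d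
      rw [← ha d (resHom K E Ω g), Finset.mul_sum]
      refine Finset.sum_congr rfl fun j _ => ?_
      rw [(hbase ⟨d, j⟩).2 g]
      exact mul_assoc _ _ _
    rw [Finset.sum_congr rfl (fun d _ => h1 d)]
    rw [hx]
    exact Finset.sum_coe_sort D (fun d => x d * (d : ℤ))
  · have hL' : NumberField ((T i).restrictScalars K) := hnf i
    have hle : E ≤ (T i).restrictScalars K := by
      intro x hx
      exact (T i).algebraMap_mem ⟨x, hx⟩
    have hfixL : ((T i).restrictScalars K).fixingSubgroup = E.fixingSubgroup ⊓ U i.1 i.2 := by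
      rw [fixingSubgroup_restrictScalars, hfix]
      change ((U i.1 i.2).comap (resHom K E Ω)).map (resHom K E Ω) = _
      rw [Subgroup.map_comap_eq, H1Relation.range_resHom]
    have hrank : Module.finrank K ((T i).restrictScalars K) =
        Module.finrank K E * (U i.1 i.2).index := by
      have h1 : Module.finrank K E * Module.finrank E (T i) =
          Module.finrank K ((T i).restrictScalars K) := Module.finrank_mul_finrank K E (T i)
      rw [← h1, ReductionGcd.finrank_eq (S i) (hSo i), (hbase i).1]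
    have hnorm := (hU i.1 i.2).1
    refine h ((T i).restrictScalars K) (hC _ _ hle hE) ?_ ⟨i.1, i.1.2, ?_⟩ ?_
    · intro hmem
      have hyY : (T i).restrictScalars K ∈ Y := by
        refine ⟨hmem, ?_, ?_⟩
        · rw [hrank]
          exact Nat.mul_pos hEpos (Nat.pos_of_ne_zero (hidx0 i))
        · rw [hrank, hM]
          refine Nat.mul_le_mul_left _ (Nat.le_of_dvd (Finset.prod_pos fun d _ => hs0 d) ?_)
          exact (hU i.1 i.2).2.2.2.1.trans (Finset.dvd_prod_of_mem s (Finset.mem_univ i.1))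
      have h1 : N ≤ U i.1 i.2 := by
        have h2 : N ≤ ((T i).restrictScalars K).fixingSubgroup :=
          inf_le_right.trans (iInf_le (fun y : Y => y.1.fixingSubgroup) ⟨_, hyY⟩)
        exact (h2.trans hfixL.le).trans inf_le_right
      have h3 := (hU i.1 i.2).2.2.2.2
      rw [sup_eq_left.2 h1] at h3
      have h4 := (hU i.1 i.2).2.2.1
      rw [h3, Subgroup.index_top] at h4
      have h5 := hone i.1 i.1.2
      have h6 := Nat.dvd_one.1 h4
      omega
    · rw [hrank]
      exact Dvd.dvd.mul_left (hU i.1 i.2).2.2.1 _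
    · refine ⟨N₀ ⊓ U i.1 i.2, Subgroup.normal_inf_normal _ _, ?_, inf_le_left.trans hNR, ?_, ?_⟩
      · rw [Subgroup.coe_inf]
        exact hN₀.inter (hU i.1 i.2).2.1
      · rw [hfixL]
        exact inf_le_inf_right _ hNE
      · have hnn : (N₀ ⊓ U i.1 i.2).Normal := Subgroup.normal_inf_normal _ _
        obtain ⟨f, hf⟩ := exists_inj (((T i).restrictScalars K).fixingSubgroup) E.fixingSubgroup
          N₀ (N₀ ⊓ U i.1 i.2) (hfixL.le.trans inf_le_left) inf_le_left (by
            rw [hfixL]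
            exact fun g hg => ⟨hg.2, hg.1.2⟩)
        exact hP _ _ f hf hPE

/-- replacing every degree by its double and its triple -/
theorem exists_degrees (D : Finset ℕ) (hD : D.Nonempty) (hpos : ∀ d ∈ D, 0 < d) :
    ∃ D' : Finset ℕ, D'.Nonempty ∧ (∀ d ∈ D', 1 < d) ∧ D'.gcd id = D.gcd id ∧
      ∀ d' ∈ D', ∃ d ∈ D, d ∣ d' := by
  classical
  refine ⟨D.image (fun d => 2 * d) ∪ D.image (fun d => 3 * d), ?_, ?_, ?_, ?_⟩
  · exact (hD.image _).mono Finset.subset_union_left
  · intro d hd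
    rcases Finset.mem_union.1 hd with hd | hd
    · obtain ⟨e, he, rfl⟩ := Finset.mem_image.1 hd
      have := hpos e he
      omega
    · obtain ⟨e, he, rfl⟩ := Finset.mem_image.1 hd
      have := hpos e he
      omega
  · apply Nat.dvd_antisymm
    · rw [Finset.dvd_gcd_iff]
      intro d hd
      have h2 : (D.image (fun d => 2 * d) ∪ D.image (fun d => 3 * d)).gcd id ∣ 2 * d :=
        Finset.gcd_dvd (Finset.mem_union_left _ (Finset.mem_image_of_mem _ hd))
      have h3 : (D.image (fun d => 2 * d) ∪ D.image (fun d => 3 * d)).gcd id ∣ 3 * d :=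
        Finset.gcd_dvd (Finset.mem_union_right _ (Finset.mem_image_of_mem _ hd))
      have h4 := Nat.dvd_sub h3 h2
      have h5 : 3 * d - 2 * d = d := by omega
      rwa [h5] at h4
    · rw [Finset.dvd_gcd_iff]
      intro d hd
      rcases Finset.mem_union.1 hd with hd | hd
      · obtain ⟨e, he, rfl⟩ := Finset.mem_image.1 hd
        exact (Finset.gcd_dvd he).trans (Dvd.intro_left 2 rfl)
      · obtain ⟨e, he, rfl⟩ := Finset.mem_image.1 hd
        exact (Finset.gcd_dvd he).trans (Dvd.intro_left 3 rfl)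
  · intro d hd
    rcases Finset.mem_union.1 hd with hd | hd
    · obtain ⟨e, he, rfl⟩ := Finset.mem_image.1 hd
      exact ⟨e, he, Dvd.intro_left 2 rfl⟩
    · obtain ⟨e, he, rfl⟩ := Finset.mem_image.1 hd
      exact ⟨e, he, Dvd.intro_left 3 rfl⟩

end Main

end ReductionGal

section Main

variable (K : Type) [Field K] [NumberField K] (Ω : Type) [Field Ω] [Algebra K Ω] [IsAlgClosed Ω]
  [Algebra.IsAlgebraic K Ω]

open ReductionGal in
/-- The reduction to the fields `L` of degree divisible by a member of `D`, outside the small set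
`X`, such that the Galois group of `M / L` is hyperelementary for some finite Galois extension `M`
of the base field containing `F` and `L`. -/
theorem reduction_gal (V : LSystem (Ω ≃ₐ[K] Ω))
    (B : ∀ (p : ℕ) [Fact p.Prime], PeriodData (Ω ≃ₐ[K] Ω) (𝓞 Ω) p)
    (F : IntermediateField K Ω) [NumberField F]
    (C : IntermediateField K Ω → Prop) (hC : ∀ L L', L ≤ L' → C L → C L')
    (X : Set (IntermediateField K Ω))
    (hX : ∀ n : ℕ, 0 < n → {L | L ∈ X ∧ Module.finrank K L = n}.Finite)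
    (D : Finset ℕ) (hD : D.Nonempty) (hpos : ∀ d ∈ D, 0 < d)
    (h : ∀ (L : IntermediateField K Ω) [NumberField L], C L → L ∉ X →
      (∃ d ∈ D, d ∣ Module.finrank K L) →
      (∃ (N : Subgroup (Ω ≃ₐ[K] Ω)) (_ : N.Normal), IsOpen (N : Set (Ω ≃ₐ[K] Ω)) ∧
        N ≤ F.fixingSubgroup ∧ N ≤ L.fixingSubgroup ∧
        IsHyperelementary (L.fixingSubgroup.map (QuotientGroup.mk' N))) →
      BKHolds L Ω (V.res L) (fun p _ => (B p).res L)) :
    ∀ (L : IntermediateField K Ω) [NumberField L], C L →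
      BKpow L Ω (V.res L) (fun p _ => (B p).res L) (D.gcd id) := by
  intro L hnL hCL
  have hLa : Algebra.IsAlgebraic L Ω := Algebra.IsAlgebraic.tower_top (K := K) L
  obtain ⟨D', hD', hone, hgcd, hdvd⟩ := exists_degrees D hD hpos
  have hinst : ∀ b : Bool, NumberField (cond b L F : IntermediateField K Ω) := by
    rintro (_ | _)
    · exact inferInstanceAs (NumberField F)
    · exact inferInstanceAs (NumberField L)
  obtain ⟨N, hN1, hN2, hN3, hN4⟩ := H1Relation.exists_normal (ι := Bool) (fun b => cond b L F)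
  have hNL : N ≤ L.fixingSubgroup := hN4 true
  have hNF : N ≤ F.fixingSubgroup := hN4 false
  let f := ((QuotientGroup.mk' N).comp (resHom K L Ω)).rangeRestrict
  have hf1 : ∀ ψ, (f ψ : (Ω ≃ₐ[K] Ω) ⧸ N) = QuotientGroup.mk' N (resHom K L Ω ψ) := fun ψ => rfl
  have hfin : Finite ((Ω ≃ₐ[K] Ω) ⧸ N) := inferInstance
  have hker : IsOpen (f.ker : Set (Ω ≃ₐ[L] Ω)) := by
    have h1 : (f.ker : Set (Ω ≃ₐ[L] Ω)) = (resHom K L Ω) ⁻¹' (N : Set (Ω ≃ₐ[K] Ω)) := by
      ext ψ
      change f ψ = 1 ↔ resHom K L Ω ψ ∈ N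
      rw [← QuotientGroup.eq_one_iff, ← QuotientGroup.mk'_apply, ← hf1, Subtype.ext_iff]
      rfl
    rw [h1]
    exact hN3.preimage (continuous_resHom K L Ω)
  refine Hyper.descent_hyper L Ω f (MonoidHom.rangeRestrict_surjective _) hker (V.res L)
    (fun p _ => (B p).res L) (D.gcd id) fun E hnE H hEH hH => ?_
  have hnE' : NumberField (E.restrictScalars K) := hnE
  have hle : L ≤ E.restrictScalars K := by
    intro x hx
    exact E.algebraMap_mem ⟨x, hx⟩
  have hfixE := fixingSubgroup_restrictScalars L E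
  have hNE : N ≤ (E.restrictScalars K).fixingSubgroup := by
    intro g hg
    have h1 : g ∈ (resHom K L Ω).range := by
      rw [H1Relation.range_resHom]
      exact hNL hg
    obtain ⟨ψ, rfl⟩ := h1
    rw [hfixE, hEH]
    refine ⟨ψ, ?_, rfl⟩
    change f ψ ∈ H
    have h2 : f ψ = 1 := by
      apply Subtype.ext
      rw [hf1]
      exact (QuotientGroup.eq_one_iff _).2 hg
    rw [h2]
    exact one_mem _
  have hmem : ∀ y ∈ (E.restrictScalars K).fixingSubgroup.map (QuotientGroup.mk' N),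
      ∃ z : ((QuotientGroup.mk' N).comp (resHom K L Ω)).range, z ∈ H ∧ (z : (Ω ≃ₐ[K] Ω) ⧸ N) = y := by
    rintro _ ⟨g, hg, rfl⟩
    rw [SetLike.mem_coe, hfixE, hEH] at hg
    obtain ⟨ψ, hψ, rfl⟩ := hg
    exact ⟨f ψ, hψ, hf1 ψ⟩
  have hinj : ∃ φ : (E.restrictScalars K).fixingSubgroup.map (QuotientGroup.mk' N) →* H,
      Function.Injective φ := by
    choose z hz1 hz2 using hmem
    refine ⟨MonoidHom.mk' (fun y => ⟨z y y.2, hz1 y y.2⟩) fun y y' => ?_, ?_⟩
    · apply Subtype.ext
      apply Subtype.ext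
      change (z _ _ : (Ω ≃ₐ[K] Ω) ⧸ N) = (z y y.2 : (Ω ≃ₐ[K] Ω) ⧸ N) * (z y' y'.2 : (Ω ≃ₐ[K] Ω) ⧸ N)
      rw [hz2, hz2, hz2]
      rfl
    · intro y y' hyy
      apply Subtype.ext
      rw [← hz2 y y.2, ← hz2 y' y'.2]
      have h1 := congrArg (fun w : H => ((w : ((QuotientGroup.mk' N).comp
        (resHom K L Ω)).range) : (Ω ≃ₐ[K] Ω) ⧸ N)) hyy
      exact h1
  obtain ⟨φ, hφ⟩ := hinj
  have key := abelian_step (fun Γ _ => IsHyperelementary Γ)
    (fun Γ Γ' _ _ f hf hΓ => Solomon.of_injective f hf hΓ) V B F.fixingSubgroup C hC X hX D' hD'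
    hone (fun L' _ h1 h2 h3 h4 => h L' h1 h2 (by
      obtain ⟨d', hd', hdd⟩ := h3
      obtain ⟨d, hd, hd2⟩ := hdvd d' hd'
      exact ⟨d, hd, hd2.trans hdd⟩) h4) (E.restrictScalars K) (hC _ _ hle hCL) N hN3 hNF hNE
    (Solomon.of_injective φ hφ hH)
  rw [hgcd] at key
  exact key

end Main

end Pool.BK
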