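import Pool.Agent.BK.ComplexDiv
import Pool.Agent.BK.ReductionGal
import Pool.Agent.BK.ArtinCyclic

/-!
Reduction of the order of vanishing formula to the totally complex fields `L` of degree divisible
by a given number, outside a small exceptional set, such that the Galois group of `M / L` is
cyclic for some finite Galois extension `M` of the base field containing a given one.
-/

open scoped Pointwise NumberField
open Polynomial IsDedekindDomain

namespace Pool.BK

namespace ComplexGal

variable {K : Type} [Field K] [NumberField K] {Ω : Type} [Field Ω] [Algebra K Ω] [IsAlgClosed Ω]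
  [Algebra.IsAlgebraic K Ω]

/-- The homomorphism from the Galois group of `L` to the quotient by `N`. -/
noncomputable def quo (L : IntermediateField K Ω) (N : Subgroup (Ω ≃ₐ[K] Ω)) [N.Normal] :
    (Ω ≃ₐ[L] Ω) →* ((QuotientGroup.mk' N).comp (resHom K L Ω)).range :=
  ((QuotientGroup.mk' N).comp (resHom K L Ω)).rangeRestrict

theorem quo_coe (L : IntermediateField K Ω) (N : Subgroup (Ω ≃ₐ[K] Ω)) [N.Normal]
    (ψ : Ω ≃ₐ[L] Ω) :
    (quo L N ψ : (Ω ≃ₐ[K] Ω) ⧸ N) = QuotientGroup.mk' N (resHom K L Ω ψ) := rfl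

theorem facts (L : IntermediateField K Ω) (N : Subgroup (Ω ≃ₐ[K] Ω)) [N.Normal]
    (hNL : N ≤ L.fixingSubgroup) (E : IntermediateField L Ω)
    (H : Subgroup ((QuotientGroup.mk' N).comp (resHom K L Ω)).range)
    (hEH : E.fixingSubgroup = H.comap (quo L N)) :
    N ≤ (E.restrictScalars K).fixingSubgroup ∧
    ∃ φ : (E.restrictScalars K).fixingSubgroup.map (QuotientGroup.mk' N) →* H,
      Function.Injective φ := by
  have hfixE := ReductionGal.fixingSubgroup_restrictScalars L E
  constructor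
  · intro g hg
    have h1 : g ∈ (resHom K L Ω).range := by
      rw [H1Relation.range_resHom]
      exact hNL hg
    obtain ⟨ψ, rfl⟩ := h1
    rw [hfixE, hEH]
    refine ⟨ψ, ?_, rfl⟩
    change quo L N ψ ∈ H
    have h2 : quo L N ψ = 1 := by
      apply Subtype.ext
      rw [quo_coe]
      exact (QuotientGroup.eq_one_iff _).2 hg
    rw [h2]
    exact one_mem _
  · have hmem : ∀ y ∈ (E.restrictScalars K).fixingSubgroup.map (QuotientGroup.mk' N),
        ∃ z : ((QuotientGroup.mk' N).comp (resHom K L Ω)).range,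
          z ∈ H ∧ (z : (Ω ≃ₐ[K] Ω) ⧸ N) = y := by
      rintro _ ⟨g, hg, rfl⟩
      rw [SetLike.mem_coe, hfixE, hEH] at hg
      obtain ⟨ψ, hψ, rfl⟩ := hg
      exact ⟨quo L N ψ, hψ, quo_coe L N ψ⟩
    choose z hz1 hz2 using hmem
    refine ⟨MonoidHom.mk' (fun y => ⟨z y y.2, hz1 y y.2⟩) fun y y' => ?_, ?_⟩
    · apply Subtype.ext
      apply Subtype.ext
      change (z _ _ : (Ω ≃ₐ[K] Ω) ⧸ N) = (z y y.2 : (Ω ≃ₐ[K] Ω) ⧸ N) * (z y' y'.2 : (Ω ≃ₐ[K] Ω) ⧸ N)
      rw [hz2, hz2, hz2]
      rfl
    · intro y y' hyy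
      apply Subtype.ext
      rw [← hz2 y y.2, ← hz2 y' y'.2]
      have h1 := congrArg (fun w : H => ((w : ((QuotientGroup.mk' N).comp
        (resHom K L Ω)).range) : (Ω ≃ₐ[K] Ω) ⧸ N)) hyy
      exact h1

theorem cyclic_inj {Γ Γ' : Type} [Group Γ] [Group Γ'] (f : Γ' →* Γ) (hf : Function.Injective f)
    (h : IsCyclic Γ) : IsCyclic Γ' := isCyclic_of_injective f hf

/-- Artin's theorem for a finite quotient of the Galois group of `L` -/
theorem descent_cyclic (V : LSystem (Ω ≃ₐ[K] Ω))
    (B : ∀ (p : ℕ) [Fact p.Prime], PeriodData (Ω ≃ₐ[K] Ω) (𝓞 Ω) p)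
    (L : IntermediateField K Ω) [NumberField L] (N : Subgroup (Ω ≃ₐ[K] Ω)) [N.Normal]
    (hN : IsOpen (N : Set (Ω ≃ₐ[K] Ω))) (hfi : N.FiniteIndex) (hNL : N ≤ L.fixingSubgroup) (n : ℕ)
    (h : ∀ (E : IntermediateField K Ω) [NumberField E], L ≤ E → N ≤ E.fixingSubgroup →
      IsCyclic (E.fixingSubgroup.map (QuotientGroup.mk' N)) →
      BKpow E Ω (V.res E) (fun p _ => (B p).res E) n) :
    ∃ m : ℕ, 0 < m ∧ BKpow L Ω (V.res L) (fun p _ => (B p).res L) (m * n) := by
  classical
  have hLa : Algebra.IsAlgebraic L Ω := Algebra.IsAlgebraic.tower_top (K := K) L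
  have hfin : Finite ((Ω ≃ₐ[K] Ω) ⧸ N) := inferInstance
  let Γ := ((QuotientGroup.mk' N).comp (resHom K L Ω)).range
  let f : (Ω ≃ₐ[L] Ω) →* Γ := quo L N
  have hf : Function.Surjective f := MonoidHom.rangeRestrict_surjective _
  have hker : IsOpen (f.ker : Set (Ω ≃ₐ[L] Ω)) := by
    have h1 : (f.ker : Set (Ω ≃ₐ[L] Ω)) = (resHom K L Ω) ⁻¹' (N : Set (Ω ≃ₐ[K] Ω)) := by
      ext ψ
      change f ψ = 1 ↔ resHom K L Ω ψ ∈ N
      rw [← QuotientGroup.eq_one_iff, ← QuotientGroup.mk'_apply, ← quo_coe, Subtype.ext_iff]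
      rfl
    rw [h1]
    exact hN.preimage (continuous_resHom K L Ω)
  obtain ⟨b, hb1, hb2⟩ := artin (Γ := Γ) (fun _ => 1) (fun _ _ _ => rfl) (fun _ _ => rfl)
  have hfinS : Finite (Subgroup Γ) := inferInstance
  have hF : Fintype (Subgroup Γ) := Fintype.ofFinite _
  have hfinK : Fintype {C : Subgroup Γ // b C ≠ 0} := Fintype.ofFinite _
  let S : {C : Subgroup Γ // b C ≠ 0} → Subgroup (Ω ≃ₐ[L] Ω) := fun C => C.1.comap f
  have hSo : ∀ i, IsOpen (S i : Set (Ω ≃ₐ[L] Ω)) := fun i =>
    Subgroup.isOpen_mono (fun x hx => by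
      change f x ∈ i.1
      rw [MonoidHom.mem_ker.1 hx]
      exact one_mem _) hker
  let E : {C : Subgroup Γ // b C ≠ 0} → IntermediateField L Ω := fun i =>
    IntermediateField.fixedField (S i)
  have hfd : ∀ i, FiniteDimensional L (E i) := fun i => (Reduction.open_field (S i) (hSo i)).1
  have hnf : ∀ i, NumberField (E i) := fun i => Reduction.numberField_of (E i)
  have hfix : ∀ i, (E i).fixingSubgroup = S i := fun i =>
    (Reduction.open_field (S i) (hSo i)).2
  refine ⟨Nat.card Γ, Nat.card_pos, rel_base_pow_gen L Ω (V.res L) (fun p _ => (B p).res L) E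
    (fun i => b i.1) (Nat.card Γ) Nat.card_pos (fun g => ?_) n (fun i => ?_)⟩
  · have h7 := hb2 (f g)
    rw [mul_one] at h7
    rw [h7, finsum_eq_sum_of_fintype,
      ← Finset.sum_filter_of_ne (p := fun C => b C ≠ 0) (fun C _ hC hb => hC (by rw [hb, zero_mul])),
      Finset.sum_subtype (Finset.univ.filter fun C => b C ≠ 0) (p := fun C => b C ≠ 0)
        (by simp)]
    refine Finset.sum_congr rfl fun C _ => ?_
    rw [hfix, ArtinCompact.fixCount_comap f hf]
  · have hE' : NumberField ((E i).restrictScalars K) := hnf i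
    obtain ⟨h1, φ, hφ⟩ := facts L N hNL (E i) i.1 (hfix i)
    obtain ⟨x, hx, -⟩ := hb1 i.1 i.2
    have hcyc : IsCyclic i.1 :=
      isCyclic_of_injective (Subgroup.inclusion hx) (Subgroup.inclusion_injective hx)
    refine h ((E i).restrictScalars K) ?_ h1 (isCyclic_of_injective φ hφ)
    intro x hx
    exact (E i).algebraMap_mem ⟨x, hx⟩

end ComplexGal

section Main

variable (K : Type) [Field K] [NumberField K] (Ω : Type) [Field Ω] [Algebra K Ω] [IsAlgClosed Ω]
  [Algebra.IsAlgebraic K Ω]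

open ComplexDiv ComplexGal in
/-- The reduction to the totally complex fields `L` of degree divisible by `N`, outside the small
set `X`, such that the Galois group of `M / L` is cyclic for some finite Galois extension `M` of
the base field containing `F` and `L`. -/
theorem reduction_complex_gal (V : LSystem (Ω ≃ₐ[K] Ω))
    (B : ∀ (p : ℕ) [Fact p.Prime], PeriodData (Ω ≃ₐ[K] Ω) (𝓞 Ω) p) (N : ℕ) (hN : 0 < N)
    (F : IntermediateField K Ω) [NumberField F]
    (X : Set (IntermediateField K Ω))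
    (hX : ∀ n : ℕ, 0 < n → {L | L ∈ X ∧ Module.finrank K L = n}.Finite)
    (h : ∀ (L : IntermediateField K Ω) [NumberField L], NumberField.IsTotallyComplex L →
      L ∉ X → N ∣ Module.finrank K L →
      (∃ (M : Subgroup (Ω ≃ₐ[K] Ω)) (_ : M.Normal), IsOpen (M : Set (Ω ≃ₐ[K] Ω)) ∧
        M ≤ F.fixingSubgroup ∧ M ≤ L.fixingSubgroup ∧
        IsCyclic (L.fixingSubgroup.map (QuotientGroup.mk' M))) →
      BKHolds L Ω (V.res L) (fun p _ => (B p).res L))
    {ι : Type} [Fintype ι] (E : ι → IntermediateField K Ω) [∀ i, NumberField (E i)]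
    (hE : ∀ i, BKHolds (E i) Ω (V.res (E i)) (fun p _ => (B p).res (E i)))
    (L : IntermediateField K Ω) [NumberField L] (n : ℕ) (hn : 0 < n) (a : ι → ℤ)
    (ha : ∀ v : K →+* ℝ, (n : ℤ) * (realCount K L v : ℤ) =
      ∑ i, a i * (realCount K (E i) v : ℤ)) :
    ∃ m : ℕ, 0 < m ∧ BKpow L Ω (V.res L) (fun p _ => (B p).res L) m := by
  classical
  have hgal := isGalois (K := K) (Ω := Ω)
  have hdvdle : ∀ L L' : IntermediateField K Ω, L ≤ L' →
      Module.finrank K L ∣ Module.finrank K L' := fun L L' hle =>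
    IntermediateField.finrank_dvd_of_le_right hle
  -- the formula without exceptional set
  have h' : ∀ (T : IntermediateField K Ω) [NumberField T], NumberField.IsTotallyComplex T →
      N ∣ Module.finrank K T →
      (∃ (M : Subgroup (Ω ≃ₐ[K] Ω)) (_ : M.Normal), IsOpen (M : Set (Ω ≃ₐ[K] Ω)) ∧
        M ≤ F.fixingSubgroup ∧ M ≤ T.fixingSubgroup ∧
        IsCyclic (T.fixingSubgroup.map (QuotientGroup.mk' M))) →
      BKHolds T Ω (V.res T) (fun p _ => (B p).res T) := by
    intro T _ h1 h2 ⟨M, hMn, hMo, hMF, hMT, hMc⟩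
    have key := ReductionGal.abelian_step (fun Γ _ => IsCyclic Γ)
      (fun Γ Γ' _ _ f hf hΓ => cyclic_inj f hf hΓ) V B
      F.fixingSubgroup (fun L => NumberField.IsTotallyComplex L ∧ N ∣ Module.finrank K L)
      (fun L L' hle hL => ⟨tc_of_le hle hL.1, hL.2.trans (hdvdle L L' hle)⟩) X hX {2, 3}
      ⟨2, by simp⟩ (by intro d hd; simp at hd; omega)
      (fun L _ hL hLX _ hLM => h L hL.1 hLX hL.2 hLM) T ⟨h1, h2⟩ M hMo hMF hMT hMc
    have h23 : (({2, 3} : Finset ℕ).gcd id) = 1 := by decide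
    rw [h23] at key
    exact key
  -- a power form over every totally complex field
  have hpow : ∀ (T : IntermediateField K Ω) [NumberField T], NumberField.IsTotallyComplex T →
      ∃ m : ℕ, BKpow T Ω (V.res T) (fun p _ => (B p).res T) m := by
    intro T _ hT
    have hinst : ∀ b : Bool, NumberField (cond b T F : IntermediateField K Ω) := by
      rintro (_ | _)
      · exact inferInstanceAs (NumberField F)
      · exact inferInstanceAs (NumberField T)
    obtain ⟨M, hM1, hM2, hM3, hM4⟩ := H1Relation.exists_normal (ι := Bool) (fun b => cond b T F)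
    have hMT : M ≤ T.fixingSubgroup := hM4 true
    have hMF : M ≤ F.fixingSubgroup := hM4 false
    obtain ⟨m, hm, hBK⟩ := descent_cyclic V B T M hM3 hM2 hMT (({2 * N, 3 * N} : Finset ℕ).gcd id)
      (fun E _ hTE hME hcyc => ReductionGal.abelian_step (fun Γ _ => IsCyclic Γ)
        (fun Γ Γ' _ _ f hf hΓ => cyclic_inj f hf hΓ) V B
        F.fixingSubgroup (fun L => NumberField.IsTotallyComplex L)
        (fun L L' hle hL => tc_of_le hle hL) X hX {2 * N, 3 * N}
        ⟨2 * N, by simp⟩ (by intro d hd; simp at hd; omega)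
        (fun L _ hL hLX hdvd hLM => h L hL hLX (by
          obtain ⟨d, hd, hdL⟩ := hdvd
          simp only [Finset.mem_insert, Finset.mem_singleton] at hd
          rcases hd with rfl | rfl
          · exact (Dvd.intro_left 2 rfl).trans hdL
          · exact (Dvd.intro_left 3 rfl).trans hdL) hLM) E (tc_of_le hTE hT) M hM3 hMF hME hcyc)
    exact ⟨_, hBK⟩
  -- Artin's formula
  have : FiniteDimensional K F := Module.Finite.of_restrictScalars_finite ℚ K F
  obtain ⟨R, hRn, M, κ, _, C, b, hRo, hRF, hM, hC, hrel⟩ := artin_cyclic (G := Ω ≃ₐ[K] Ω)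
    (fun U => ∃ (L' : IntermediateField K Ω) (_ : NumberField L'),
      NumberField.IsTotallyComplex L' ∧ N ∣ Module.finrank K L' ∧ U ≤ L'.fixingSubgroup)
    (fun H H' hHH' ⟨L', h1, h2, h3, h4⟩ => ⟨L', h1, h2, h3, hHH'.trans h4⟩)
    (ι := Option ι) (fun o => o.elim L.fixingSubgroup fun i => (E i).fixingSubgroup)
    (by
      rintro (_ | i)
      · have : FiniteDimensional K L := Module.Finite.of_restrictScalars_finite ℚ K L
        exact L.fixingSubgroup_isOpen
      · have : FiniteDimensional K (E i) := Module.Finite.of_restrictScalars_finite ℚ K (E i)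
        exact (E i).fixingSubgroup_isOpen)
    (fun o => o.elim (n : ℤ) fun i => - a i) F.fixingSubgroup F.fixingSubgroup_isOpen
    (by
      intro g hg
      obtain ⟨j, hj⟩ := bad_is_conj (K := K) g (by
        intro L' _ h1 h2
        obtain ⟨L'', hL'', h3, h4, h5⟩ := exists_div N hN L' g h1
        have : FiniteDimensional K L'' := Module.Finite.of_restrictScalars_finite ℚ K L''
        exact hg L''.fixingSubgroup L''.fixingSubgroup_isOpen h4
          ⟨L'', inferInstance, tc_of_le h3 h2, (Dvd.intro _ rfl).trans h5, le_rfl⟩)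
      obtain ⟨v, hv⟩ := fixCount_conj (K := K) g j hj
      rw [Fintype.sum_option]
      simp only [Option.elim]
      rw [hv L, ha v, ← Finset.sum_add_distrib]
      refine Finset.sum_eq_zero fun i _ => ?_
      rw [hv (E i)]
      ring)
  simp only [Fintype.sum_option, Option.elim] at hrel
  -- the fields fixed by the subgroups
  have hF : ∀ j, NumberField (IntermediateField.fixedField (C j)) := fun j =>
    (fixedField_of_isOpen (C j) (hC j).1).1
  have hFix : ∀ j, (IntermediateField.fixedField (C j)).fixingSubgroup = C j := fun j =>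
    (fixedField_of_isOpen (C j) (hC j).1).2
  have hFh : ∀ j, BKHolds (IntermediateField.fixedField (C j)) Ω
      (V.res (IntermediateField.fixedField (C j)))
      (fun p _ => (B p).res (IntermediateField.fixedField (C j))) := by
    intro j
    obtain ⟨L', hL', h2, h3, h5⟩ := (hC j).2.1
    have h6 : L' ≤ IntermediateField.fixedField (C j) := IntermediateField.le_iff_le _ _ |>.2 h5
    refine h' _ (tc_of_le h6 h2) (h3.trans (hdvdle _ _ h6)) ⟨R, hRn, hRo, hRF, ?_, ?_⟩
    · rw [hFix]
      exact (hC j).2.2.1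
    · rw [hFix]
      exact (hC j).2.2.2
  -- the Euler polynomials over L
  have : Algebra.IsAlgebraic L Ω := Algebra.IsAlgebraic.tower_top (K := K) L
  obtain ⟨P, hP⟩ := exists_euler_family L Ω (V.res L) (fun E' i hE' => by
    have hn : NumberField (E'.restrictScalars K) := i
    obtain ⟨m, P, hP, _⟩ := hpow (E'.restrictScalars K) hE'
    exact ⟨P, hP⟩)
  obtain ⟨E₁, hE₁, hE₁tc⟩ := exists_tc L Ω
  have hn₁ : NumberField (E₁.restrictScalars K) := hE₁
  obtain ⟨m₀, hm₀⟩ := hpow (E₁.restrictScalars K) hE₁tc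
  have hE₀h : BKpow E₁ Ω ((V.res L).res E₁) (fun p _ => ((B p).res L).res E₁) m₀ := hm₀
  obtain ⟨P₀, hP₀, σ₀, U, Λ, hU, hσU, hUt, hΛ, hprod, hord⟩ := hE₀h
  obtain ⟨σ, hσ⟩ := exists_halfplane L Ω (V.res L) P hP E₁ P₀ hP₀ σ₀ (fun s hs => by
    obtain ⟨z, hz, hz', _⟩ := hprod s hs
    exact ⟨z, hz, hz'⟩)
  have hfin : ∀ (p : ℕ) [Fact p.Prime],
      Module.Finite ℚ_[p] (H1f ((V.res L).rep p) ((B p).res L)) := by
    intro p _
    exact finite_H1f ((V.res L).rep p) ((V.res L).cont p) ((B p).res L) E₁ (hord p).1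
  have hinst : ∀ x : ι ⊕ κ, NumberField
      (Sum.elim E (fun j => IntermediateField.fixedField (C j)) x : IntermediateField K Ω) := by
    rintro (i | j)
    · exact inferInstanceAs (NumberField (E i))
    · exact hF j
  refine ⟨M * n, Nat.mul_pos hM hn, BK.rel_pow K Ω V B
    (Sum.elim E fun j => IntermediateField.fixedField (C j))
    (Sum.elim (fun i => (M : ℤ) * a i) b) L (M * n) (Nat.mul_pos hM hn) ?_ ?_ P hP σ hσ hfin⟩
  · intro g
    rw [Fintype.sum_sum_type]
    simp only [Sum.elim_inl, Sum.elim_inr]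
    have h1 := hrel g
    have h2 : ∑ j, b j * (fixCount (IntermediateField.fixedField (C j)).fixingSubgroup g : ℤ) =
        ∑ j, b j * (fixCount (C j) g : ℤ) :=
      Finset.sum_congr rfl fun j _ => by rw [hFix j]
    rw [h2, ← h1]
    push_cast
    rw [mul_add, Finset.mul_sum]
    have h3 : ∑ i, (M : ℤ) * a i * (fixCount (E i).fixingSubgroup g : ℤ) +
        ∑ i, (M : ℤ) * (- a i * (fixCount (E i).fixingSubgroup g : ℤ)) = 0 := by
      rw [← Finset.sum_add_distrib]
      exact Finset.sum_eq_zero fun i _ => by ring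
    linear_combination -h3
  · rintro (i | j)
    · exact hE i
    · exact hFh j

end Main

end Pool.BK
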