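import Pool.Agent.Helper95.BK.Defs2

/-!
Convergence of the Euler product of a system of representations in a right half plane.
-/

open scoped Pointwise NumberField
open Polynomial IsDedekindDomain Filter Topology

namespace Pool.BK

namespace Converge

/-- The sum over all finite places of `N v ^ (-t)` converges for `t > 1`. -/
lemma summable_absNorm (K : Type) [Field K] [NumberField K] {t : ℝ} (ht : 1 < t) :
    Summable fun v : HeightOneSpectrum (𝓞 K) => ((v.asIdeal.absNorm : ℝ) ^ (-t)) := by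
  let a : ℕ → ℝ := fun n => Nat.card {I : Ideal (𝓞 K) // Ideal.absNorm I = n}
  have ha : ∀ n, 0 ≤ a n := fun n => Nat.cast_nonneg _
  have hO : (fun n => ∑ k ∈ Finset.Icc 1 n, a k) =O[atTop] fun n : ℕ => (n : ℝ) ^ (1 : ℝ) := by
    have hlim := (NumberField.Ideal.tendsto_norm_le_div_atTop₀ K).comp tendsto_natCast_atTop_atTop
    have hlim2 := hlim.congr' (f₂ := fun n : ℕ => (∑ k ∈ Finset.Icc 1 n, a k) / (n : ℝ) ^ (1 : ℝ))
      (Filter.Eventually.of_forall fun n => by
      simp only [Function.comp_apply, Nat.cast_le, ← Nat.cast_sum, a, Real.rpow_one]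
      congr
      rw [← add_left_inj 1, ← Ideal.card_norm_le_eq_card_norm_le_add_one,
        show Finset.Icc 1 n = Finset.Ioc 0 n from Finset.Icc_succ_left_eq_Ioc _ _,
        show 1 = Nat.card {I : Ideal (𝓞 K) // Ideal.absNorm I = 0} by simp [Ideal.absNorm_eq_zero_iff],
        Finset.sum_Ioc_add_eq_sum_Icc (n.zero_le),
        ← Finset.card_preimage_eq_sum_card_image_eq (fun k _ ↦ Ideal.finite_setOfPred_absNorm_eq k)]
      simp [Set.coe_eq_subtype])
    exact Asymptotics.isBigO_atTop_natCast_rpow_of_tendsto_div_rpow (𝕜 := ℝ) hlim2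
  have hS : LSeriesSummable (fun n => ((a n : ℝ) : ℂ)) (t : ℂ) :=
    LSeriesSummable_of_sum_norm_bigO_and_nonneg hO ha zero_le_one (by simpa using ht)
  have hS2 : Summable fun n => ‖LSeries.term (fun n => ((a n : ℝ) : ℂ)) (t : ℂ) n‖ := hS.norm
  have hterm : ∀ n : ℕ, n ≠ 0 →
      ‖LSeries.term (fun n => ((a n : ℝ) : ℂ)) (t : ℂ) n‖ = a n * (n : ℝ) ^ (-t) := by
    intro n hn
    rw [LSeries.norm_term_eq, if_neg hn, Complex.norm_real, Real.norm_of_nonneg (ha n),
      Complex.ofReal_re, Real.rpow_neg (Nat.cast_nonneg n), div_eq_mul_inv]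
  refine summable_of_sum_le (c := ∑' n, ‖LSeries.term (fun n => ((a n : ℝ) : ℂ)) (t : ℂ) n‖)
    (fun v => by positivity) fun S => ?_
  classical
  have h1 : ∑ v ∈ S, ((v.asIdeal.absNorm : ℝ) ^ (-t)) =
      ∑ n ∈ S.image (fun v => v.asIdeal.absNorm),
        ∑ v ∈ S.filter (fun v => v.asIdeal.absNorm = n), ((v.asIdeal.absNorm : ℝ) ^ (-t)) :=
    (Finset.sum_fiberwise_of_maps_to (fun v hv => Finset.mem_image_of_mem _ hv) _).symm
  rw [h1]
  refine le_trans (Finset.sum_le_sum fun n hn => ?_) (hS2.sum_le_tsum _ (fun _ _ => norm_nonneg _))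
  have hn0 : n ≠ 0 := by
    obtain ⟨v, -, rfl⟩ := Finset.mem_image.1 hn
    rw [Ne, Ideal.absNorm_eq_zero_iff]
    exact v.ne_bot
  rw [hterm n hn0]
  have h2 : ∑ v ∈ S.filter (fun v => v.asIdeal.absNorm = n), ((v.asIdeal.absNorm : ℝ) ^ (-t)) =
      ((S.filter (fun v => v.asIdeal.absNorm = n)).card : ℝ) * (n : ℝ) ^ (-t) := by
    rw [Finset.sum_congr rfl (g := fun _ => (n : ℝ) ^ (-t))]
    · rw [Finset.sum_const, nsmul_eq_mul]
    · intro v hv
      rw [(Finset.mem_filter.1 hv).2]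
  rw [h2]
  refine mul_le_mul_of_nonneg_right ?_ (by positivity)
  have hfin : Finite {I : Ideal (𝓞 K) // Ideal.absNorm I = n} := Ideal.finite_setOfPred_absNorm_eq n
  simp only [a, Nat.cast_le]
  have h3 : (S.filter (fun v => v.asIdeal.absNorm = n)).card =
      Nat.card {v // v ∈ S.filter (fun v => v.asIdeal.absNorm = n)} := by
    rw [Nat.card_eq_fintype_card, Fintype.card_coe]
  rw [h3]
  refine Nat.card_le_card_of_injective (fun v => ⟨v.1.asIdeal, (Finset.mem_filter.1 v.2).2⟩) ?_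
  intro v w hvw
  apply Subtype.ext
  apply HeightOneSpectrum.ext
  simpa using hvw

lemma multiset_bound (m : Multiset ℂ) (f : ℂ → ℂ) :
    ‖(m.map fun a => 1 + f a).prod - 1‖ ≤ Real.exp ((m.map fun a => ‖f a‖).sum) - 1 := by
  induction m using Multiset.induction_on with
  | empty => simp
  | cons x m IH =>
    rw [Multiset.map_cons, Multiset.map_cons, Multiset.prod_cons, Multiset.sum_cons, Real.exp_add,
      show (1 + f x) * (m.map fun a => 1 + f a).prod - 1 =
        ((m.map fun a => 1 + f a).prod - 1) + f x * (m.map fun a => 1 + f a).prod by ring]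
    refine (norm_add_le_of_le IH (norm_mul_le _ _)).trans ?_
    generalize h : Real.exp ((m.map fun a => ‖f a‖).sum) = A at ⊢ IH
    rw [sub_add_eq_add_sub, sub_le_sub_iff_right]
    transitivity A + ‖f x‖ * A
    · grw [norm_le_norm_sub_add ((m.map fun a => 1 + f a).prod) 1, IH, norm_one, sub_add_cancel]
    rw [← one_add_mul, add_comm]
    exact mul_le_mul_of_nonneg_right (Real.add_one_le_exp _) (h ▸ Real.exp_nonneg _)

/-- A polynomial with constant coefficient `1` and no small roots is close to `1`. -/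
lemma eval_bound (p : ℂ[X]) (hp : p.coeff 0 = 1) {d : ℕ} (hd : p.natDegree ≤ d) {ρ : ℝ}
    (hρ : 0 < ρ) (hroot : ∀ α, p.eval α = 0 → ρ ≤ ‖α‖) (x : ℂ) :
    ‖p.eval x - 1‖ ≤ Real.exp (d * (‖x‖ / ρ)) - 1 := by
  have hp0 : p ≠ 0 := by
    rintro rfl
    simp at hp
  have hsplit : p.Splits := IsAlgClosed.splits p
  have h1 := hsplit.eval_eq_prod_roots (x := x)
  have h0 := hsplit.eval_eq_prod_roots (x := 0)
  rw [← coeff_zero_eq_eval_zero, hp] at h0
  have hne : ∀ α ∈ p.roots, α ≠ 0 := by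
    intro α hα h
    have := hroot α ((mem_roots hp0).1 hα)
    rw [h, norm_zero] at this
    exact absurd hρ (not_lt.2 this)
  have h2 : p.eval x = (p.roots.map fun α => 1 + -(x / α)).prod := by
    rw [h1]
    have h3 : (p.roots.map fun α => x - α).prod =
        (p.roots.map fun α => 0 - α).prod * (p.roots.map fun α => 1 + -(x / α)).prod := by
      rw [← Multiset.prod_map_mul]
      congr 1
      apply Multiset.map_congr rfl
      intro α hα
      have := hne α hα
      field_simp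
      ring
    rw [h3, ← mul_assoc, ← h0, one_mul]
  rw [h2]
  refine (multiset_bound _ _).trans ?_
  rw [sub_le_sub_iff_right]
  apply Real.exp_le_exp.2
  have h4 : ((p.roots.map fun α => ‖-(x / α)‖)).sum ≤ (p.roots.map fun _ => ‖x‖ / ρ).sum := by
    apply Multiset.sum_map_le_sum_map
    intro α hα
    rw [norm_neg, norm_div]
    have := hroot α ((mem_roots hp0).1 hα)
    exact div_le_div_of_nonneg_left (norm_nonneg _) hρ this
  refine h4.trans ?_
  rw [Multiset.map_const', Multiset.sum_replicate, nsmul_eq_mul]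
  apply mul_le_mul_of_nonneg_right _ (by positivity)
  exact_mod_cast (card_roots' p).trans hd

lemma exp_sub_one_le {u : ℝ} : Real.exp u - 1 ≤ u * Real.exp u := by
  have h := Real.add_one_le_exp (-u)
  have h2 := mul_le_mul_of_nonneg_right h (Real.exp_pos u).le
  rw [← Real.exp_add, neg_add_cancel, Real.exp_zero] at h2
  linarith

lemma ne_zero_of_hasProd' {β : Type} {f : β → ℂ} {z : ℂ} (h : HasProd f z) (hz : z ≠ 0) (b : β) :
    f b ≠ 0 := by
  intro hb
  apply hz
  have h1 : Tendsto (fun s : Finset β => ∏ i ∈ s, f i) atTop (𝓝 0) := by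
    apply tendsto_const_nhds.congr'
    filter_upwards [eventually_ge_atTop ({b} : Finset β)] with s hs
    exact (Finset.prod_eq_zero (hs (Finset.mem_singleton_self b)) hb).symm
  exact tendsto_nhds_unique h h1

variable {K E : Type} [Field K] [Field E] [Algebra K E] [NumberField K] [NumberField E]

lemma place_facts (v : HeightOneSpectrum (𝓞 K)) (w : PlacesOver K E v) :
    w.1.asIdeal.absNorm = v.asIdeal.absNorm ^ (w.1.asIdeal.inertiaDeg (𝓞 K)) ∧
      0 < w.1.asIdeal.inertiaDeg (𝓞 K) := by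
  have hover : w.1.asIdeal.LiesOver v.asIdeal := ⟨w.2.symm⟩
  have hvp := v.isPrime
  have hwp := w.1.isPrime
  have hvm : v.asIdeal.IsMaximal := v.isMaximal
  have hwm : w.1.asIdeal.IsMaximal := w.1.isMaximal
  refine ⟨?_, Ideal.inertiaDeg_pos _ _⟩
  rw [Ideal.absNorm_eq_pow_inertiaDeg'_of_liesOver w.1.asIdeal v.asIdeal hvp v.ne_bot,
    Ideal.inertiaDeg'_eq_inertiaDeg]

end Converge

section
variable (K : Type) [Field K] [NumberField K] (Ω : Type) [Field Ω] [Algebra K Ω]

/-- `exists_halfplane` with the algebraic input as hypotheses. -/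
theorem Converge.halfplane_core (P : HeightOneSpectrum (𝓞 K) → ℚ[X])
    (E : IntermediateField K Ω) [NumberField E] (P' : HeightOneSpectrum (𝓞 E) → ℚ[X]) (d : ℕ)
    (hd : ∀ v, (P v).natDegree ≤ d ∧ (P v).coeff 0 = 1) (hd' : ∀ w, (P' w).coeff 0 = 1)
    (hdvd : ∀ v : HeightOneSpectrum (𝓞 K), ∃ w : PlacesOver K E v,
      P v ∣ expand ℚ (w.1.asIdeal.inertiaDeg (𝓞 K)) (P' w.1)) (σ : ℝ)
    (hσ : ∀ s : ℂ, σ < s.re → ∃ z : ℂ, z ≠ 0 ∧ HasProd (eulerFactor E P' s) z) :
    ∃ σ' : ℝ, ∀ s : ℂ, σ' < s.re → ∃ z : ℂ, z ≠ 0 ∧ HasProd (eulerFactor K P s) z := by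
  -- norms of places
  have hN1 : ∀ v : HeightOneSpectrum (𝓞 K), (1 : ℝ) < (v.asIdeal.absNorm : ℝ) := by
    intro v
    have h0 : v.asIdeal.absNorm ≠ 0 := by
      rw [Ne, Ideal.absNorm_eq_zero_iff]; exact v.ne_bot
    have h1 : v.asIdeal.absNorm ≠ 1 := by
      rw [Ne, Ideal.absNorm_eq_one_iff]; exact v.isPrime.ne_top
    exact_mod_cast (by omega : 1 < v.asIdeal.absNorm)
  have hN1' : ∀ v : HeightOneSpectrum (𝓞 E), (1 : ℝ) < (v.asIdeal.absNorm : ℝ) := by
    intro v
    have h0 : v.asIdeal.absNorm ≠ 0 := by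
      rw [Ne, Ideal.absNorm_eq_zero_iff]; exact v.ne_bot
    have h1 : v.asIdeal.absNorm ≠ 1 := by
      rw [Ne, Ideal.absNorm_eq_one_iff]; exact v.isPrime.ne_top
    exact_mod_cast (by omega : 1 < v.asIdeal.absNorm)
  -- roots upstairs are not small
  have hroot' : ∀ (w : HeightOneSpectrum (𝓞 E)) (β : ℂ), aeval β (P' w) = 0 →
      (w.asIdeal.absNorm : ℝ) ^ (-σ) ≤ ‖β‖ := by
    intro w β hβ
    by_contra hc
    push Not at hc
    have hpos := hN1' w
    have hlog : 0 < Real.log (w.asIdeal.absNorm : ℝ) := Real.log_pos hpos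
    have hβ0 : β ≠ 0 := by
      rintro rfl
      have h1 := hd' w
      rw [← coeff_zero_eq_aeval_zero', h1] at hβ
      simp at hβ
    have hβpos : 0 < ‖β‖ := norm_pos_iff.2 hβ0
    let s : ℂ := -(Complex.log β / Real.log (w.asIdeal.absNorm : ℝ))
    have hs : σ < s.re := by
      have h1 : s.re = -(Real.log ‖β‖ / Real.log (w.asIdeal.absNorm : ℝ)) := by
        simp only [s, Complex.neg_re, Complex.div_ofReal_re, Complex.log_re]
      rw [h1, lt_neg, div_lt_iff₀ hlog]
      have h2 := Real.log_lt_log hβpos hc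
      rwa [Real.log_rpow (by linarith)] at h2
    obtain ⟨z, hz, hprod⟩ := hσ s hs
    have h1 := Converge.ne_zero_of_hasProd' hprod hz w
    apply h1
    have h2 : ((w.asIdeal.absNorm : ℂ)) ^ (-s) = β := by
      have h3 : (w.asIdeal.absNorm : ℂ) ≠ 0 := by
        have : (w.asIdeal.absNorm : ℝ) ≠ 0 := by linarith
        exact_mod_cast this
      rw [Complex.cpow_def_of_ne_zero h3]
      have h4 : Complex.log (w.asIdeal.absNorm : ℂ) = ((Real.log (w.asIdeal.absNorm : ℝ) : ℝ) : ℂ) := by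
        rw [← Complex.ofReal_natCast, Complex.ofReal_log (by linarith)]
      rw [h4]
      have h5 : ((Real.log (w.asIdeal.absNorm : ℝ) : ℝ) : ℂ) * -s = Complex.log β := by
        have h6 : ((Real.log (w.asIdeal.absNorm : ℝ) : ℝ) : ℂ) ≠ 0 := by
          exact_mod_cast hlog.ne'
        simp only [s, neg_neg]
        field_simp
      rw [h5, Complex.exp_log hβ0]
    rw [eulerFactor, h2, hβ, inv_zero]
  -- roots downstairs are not small
  have hroot : ∀ (v : HeightOneSpectrum (𝓞 K)) (α : ℂ), aeval α (P v) = 0 →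
      (v.asIdeal.absNorm : ℝ) ^ (-σ) ≤ ‖α‖ := by
    intro v α hα
    obtain ⟨w, hw⟩ := hdvd v
    obtain ⟨hNw, hf⟩ := Converge.place_facts v w
    have h1 : aeval α (expand ℚ (w.1.asIdeal.inertiaDeg (𝓞 K)) (P' w.1)) = 0 := by
      obtain ⟨Q, hQ⟩ := hw
      rw [hQ, map_mul, hα, zero_mul]
    rw [expand_aeval] at h1
    have h2 := hroot' w.1 _ h1
    rw [hNw, norm_pow, Nat.cast_pow, ← Real.rpow_natCast, ← Real.rpow_mul (Nat.cast_nonneg _),
      mul_comm, Real.rpow_mul (Nat.cast_nonneg _), Real.rpow_natCast] at h2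
    exact (pow_le_pow_iff_left₀ (by positivity) (norm_nonneg _) hf.ne').1 h2
  refine ⟨σ + 1, fun s hs => ?_⟩
  let t : ℝ := s.re - σ
  have ht : 1 < t := by simp only [t]; linarith
  have hsum := Converge.summable_absNorm K ht
  let a : HeightOneSpectrum (𝓞 K) → ℂ := fun v =>
    aeval ((v.asIdeal.absNorm : ℂ) ^ (-s)) (P v) - 1
  have hnorm : ∀ v : HeightOneSpectrum (𝓞 K),
      ‖((v.asIdeal.absNorm : ℂ) ^ (-s))‖ = (v.asIdeal.absNorm : ℝ) ^ (-s.re) := by
    intro v
    rw [Complex.norm_natCast_cpow_of_pos, Complex.neg_re]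
    have := hN1 v
    exact_mod_cast (by linarith : (0 : ℝ) < (v.asIdeal.absNorm : ℝ))
  have hbound : ∀ v, ‖a v‖ ≤ (d * Real.exp d) * (v.asIdeal.absNorm : ℝ) ^ (-t) := by
    intro v
    have hN := hN1 v
    have hNpos : (0 : ℝ) < (v.asIdeal.absNorm : ℝ) := by linarith
    have h1 := Converge.eval_bound ((P v).map (algebraMap ℚ ℂ)) (by
        rw [coeff_map, (hd v).2, map_one]) (d := d)
      ((natDegree_map_le).trans (hd v).1) (ρ := (v.asIdeal.absNorm : ℝ) ^ (-σ))
      (by positivity) (by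
        intro α hα
        apply hroot v α
        rwa [eval_map_algebraMap] at hα) ((v.asIdeal.absNorm : ℂ) ^ (-s))
    rw [eval_map_algebraMap, hnorm, ← Real.rpow_sub hNpos] at h1
    have h2 : -s.re - -σ = -t := by simp only [t]; ring
    rw [h2] at h1
    refine h1.trans (Converge.exp_sub_one_le.trans ?_)
    have h3 : (v.asIdeal.absNorm : ℝ) ^ (-t) ≤ 1 :=
      Real.rpow_le_one_of_one_le_of_nonpos hN.le (by linarith)
    have h4 : Real.exp (d * (v.asIdeal.absNorm : ℝ) ^ (-t)) ≤ Real.exp d := by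
      apply Real.exp_le_exp.2
      have : (0 : ℝ) ≤ d := Nat.cast_nonneg d
      nlinarith
    have h5 : (0 : ℝ) ≤ d * (v.asIdeal.absNorm : ℝ) ^ (-t) := by positivity
    calc (d * (v.asIdeal.absNorm : ℝ) ^ (-t)) * Real.exp (d * (v.asIdeal.absNorm : ℝ) ^ (-t))
        ≤ (d * (v.asIdeal.absNorm : ℝ) ^ (-t)) * Real.exp d := mul_le_mul_of_nonneg_left h4 h5
      _ = (d * Real.exp d) * (v.asIdeal.absNorm : ℝ) ^ (-t) := by ring
  have ha : Summable fun v => ‖a v‖ :=
    Summable.of_nonneg_of_le (fun _ => norm_nonneg _) hbound (hsum.mul_left _)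
  have hne : ∀ v, 1 + a v ≠ 0 := by
    intro v h0
    have h1 : aeval ((v.asIdeal.absNorm : ℂ) ^ (-s)) (P v) = 0 := by
      simp only [a] at h0
      linear_combination h0
    have h2 := hroot v _ h1
    rw [hnorm] at h2
    have h3 := (Real.rpow_le_rpow_left_iff (hN1 v)).1 h2
    linarith
  have hz := tprod_one_add_ne_zero_of_summable hne ha
  have hprod := (multipliable_one_add_of_summable ha).hasProd
  refine ⟨(∏' v, (1 + a v))⁻¹, inv_ne_zero hz, ?_⟩
  have h1 := hprod.inv₀ hz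
  have h2 : eulerFactor K P s = fun v => (1 + a v)⁻¹ := by
    funext v
    simp only [eulerFactor, a, add_sub_cancel]
  rw [h2]
  exact h1

end

end Pool.BK
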