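import Pool.Agent.Helper95.BK.Defs2
import Pool.Agent.Helper95.BK.Defs3

/-!
The number of embeddings fixed by an automorphism is the number of fixed cosets.
-/

open scoped Pointwise NumberField
open Polynomial IsDedekindDomain

namespace Pool.BK

namespace FixEmb

variable {K : Type} [Field K] {Ω : Type} [Field Ω] [Algebra K Ω]

/-- the restriction of an automorphism to `L` -/
def rst (L : IntermediateField K Ω) (g : Ω ≃ₐ[K] Ω) : L →ₐ[K] Ω :=
  (g : Ω →ₐ[K] Ω).comp L.val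

theorem rst_apply (L : IntermediateField K Ω) (g : Ω ≃ₐ[K] Ω) (x : L) : rst L g x = g (x : Ω) := rfl

theorem rst_eq_iff (L : IntermediateField K Ω) (g h : Ω ≃ₐ[K] Ω) :
    rst L g = rst L h ↔ g⁻¹ * h ∈ L.fixingSubgroup := by
  rw [IntermediateField.mem_fixingSubgroup_iff]
  constructor
  · intro e x hx
    have h1 : rst L g ⟨x, hx⟩ = rst L h ⟨x, hx⟩ := by rw [e]
    rw [rst_apply, rst_apply] at h1
    rw [AlgEquiv.mul_apply, ← h1, ← AlgEquiv.mul_apply, inv_mul_cancel, AlgEquiv.one_apply]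
  · intro e
    ext x
    rw [rst_apply, rst_apply]
    have h1 := e x x.2
    rw [AlgEquiv.mul_apply] at h1
    have h2 := congrArg g h1
    rw [← AlgEquiv.mul_apply, mul_inv_cancel, AlgEquiv.one_apply] at h2
    exact h2.symm

/-- the embedding attached to a coset -/
def emb (L : IntermediateField K Ω) : (Ω ≃ₐ[K] Ω) ⧸ L.fixingSubgroup → (L →ₐ[K] Ω) :=
  Quotient.lift (rst L) (fun g h hgh => (rst_eq_iff L g h).2 (by
    rwa [← QuotientGroup.leftRel_apply]))

theorem emb_mk (L : IntermediateField K Ω) (g : Ω ≃ₐ[K] Ω) :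
    emb L (g : (Ω ≃ₐ[K] Ω) ⧸ L.fixingSubgroup) = rst L g := rfl

theorem emb_injective (L : IntermediateField K Ω) : Function.Injective (emb L) := by
  intro x y hxy
  obtain ⟨g, rfl⟩ := QuotientGroup.mk_surjective x
  obtain ⟨h, rfl⟩ := QuotientGroup.mk_surjective y
  rw [emb_mk, emb_mk, rst_eq_iff] at hxy
  exact QuotientGroup.eq.2 hxy

theorem emb_surjective [IsAlgClosed Ω] [Algebra.IsAlgebraic K Ω] (L : IntermediateField K Ω) :
    Function.Surjective (emb L) := by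
  intro τ
  obtain ⟨φ, hφ⟩ := IsAlgClosed.surjective_domRestrict_of_isAlgebraic (K := K) (L := L) (M := Ω)
    (E := Ω) τ
  have hb := Algebra.IsAlgebraic.algHom_bijective φ
  refine ⟨((AlgEquiv.ofBijective φ hb : Ω ≃ₐ[K] Ω) : (Ω ≃ₐ[K] Ω) ⧸ L.fixingSubgroup), ?_⟩
  rw [emb_mk]
  ext x
  rw [rst_apply, ← hφ]
  rfl

/-- cosets of the fixing subgroup are embeddings -/
noncomputable def embEquiv [IsAlgClosed Ω] [Algebra.IsAlgebraic K Ω] (L : IntermediateField K Ω) :
    ((Ω ≃ₐ[K] Ω) ⧸ L.fixingSubgroup) ≃ (L →ₐ[K] Ω) :=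
  Equiv.ofBijective (emb L) ⟨emb_injective L, emb_surjective L⟩

theorem smul_eq_iff (L : IntermediateField K Ω) (σ : Ω ≃ₐ[K] Ω)
    (x : (Ω ≃ₐ[K] Ω) ⧸ L.fixingSubgroup) : σ • x = x ↔ ∀ y, σ (emb L x y) = emb L x y := by
  obtain ⟨g, rfl⟩ := QuotientGroup.mk_surjective x
  rw [← (emb_injective L).eq_iff]
  change emb L ((σ * g : Ω ≃ₐ[K] Ω) : (Ω ≃ₐ[K] Ω) ⧸ L.fixingSubgroup) = emb L g ↔ _
  rw [emb_mk, emb_mk, DFunLike.ext_iff]
  rfl

end FixEmb

section Main

variable {K : Type} [Field K] [NumberField K] {Ω : Type} [Field Ω] [Algebra K Ω] [IsAlgClosed Ω]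
  [Algebra.IsAlgebraic K Ω]

theorem fixEmb_eq (σ : Ω ≃ₐ[K] Ω) (L : IntermediateField K Ω) :
    fixEmb σ L = fixCount L.fixingSubgroup σ := by
  unfold fixEmb fixCount
  refine (Nat.card_congr ?_).symm
  exact (FixEmb.embEquiv L).subtypeEquiv (fun x => by
    rw [MulAction.mem_fixedBy]
    exact FixEmb.smul_eq_iff L σ x)

end Main

end Pool.BK
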