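import Pool.Agent.BK.Solomon
import Pool.Agent.BK.RelBasePow
import Pool.Agent.BK.Reduction

/-!
Reduction of the order of vanishing formula to fields over which a fixed Galois extension becomes
hyperelementary.
-/

open scoped Pointwise NumberField
open Polynomial IsDedekindDomain

namespace Pool.BK

namespace Hyper

theorem fixCount_comap {G Γ : Type} [Group G] [Group Γ] (f : G →* Γ)
    (hf : Function.Surjective f) (H : Subgroup Γ) (g : G) :
    fixCount (H.comap f) g = fixCount H (f g) := by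
  let S := {x : G // x⁻¹ * g * x ∈ H.comap f}
  have hfixG : ∀ x : G, (x : G ⧸ H.comap f) ∈ MulAction.fixedBy (G ⧸ H.comap f) g ↔
      x⁻¹ * g * x ∈ H.comap f := by
    intro x
    rw [MulAction.mem_fixedBy]
    change ((g * x : G) : G ⧸ H.comap f) = x ↔ _
    rw [eq_comm, QuotientGroup.eq, mul_assoc]
  have hfixΓ : ∀ y : Γ, (y : Γ ⧸ H) ∈ MulAction.fixedBy (Γ ⧸ H) (f g) ↔
      y⁻¹ * f g * y ∈ H := by
    intro x
    rw [MulAction.mem_fixedBy]
    change ((f g * x : Γ) : Γ ⧸ H) = x ↔ _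
    rw [eq_comm, QuotientGroup.eq, mul_assoc]
  have hrel : ∀ x : G, x⁻¹ * g * x ∈ H.comap f ↔ (f x)⁻¹ * f g * f x ∈ H := by
    intro x
    rw [Subgroup.mem_comap, map_mul, map_mul, map_inv]
  let u : S → MulAction.fixedBy (G ⧸ H.comap f) g := fun x => ⟨(x.1 : G ⧸ H.comap f),
    (hfixG _).2 x.2⟩
  let v : S → MulAction.fixedBy (Γ ⧸ H) (f g) := fun x => ⟨((f x.1 : Γ) : Γ ⧸ H),
    (hfixΓ _).2 ((hrel x.1).1 x.2)⟩
  refine Solomon.card_eq_of_fibres u v ?_ ?_ ?_
  · rintro ⟨z, hz⟩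
    obtain ⟨x, rfl⟩ := QuotientGroup.mk_surjective z
    exact ⟨⟨x, (hfixG x).1 hz⟩, rfl⟩
  · rintro ⟨z, hz⟩
    obtain ⟨y, rfl⟩ := QuotientGroup.mk_surjective z
    obtain ⟨x, rfl⟩ := hf y
    exact ⟨⟨x, (hrel x).2 ((hfixΓ _).1 hz)⟩, rfl⟩
  · intro s t
    have h1 : u s = u t ↔ (s.1 : G ⧸ H.comap f) = (t.1 : G ⧸ H.comap f) := Subtype.ext_iff
    have h2 : v s = v t ↔ ((f s.1 : Γ) : Γ ⧸ H) = ((f t.1 : Γ) : Γ ⧸ H) := Subtype.ext_iff
    rw [h1, h2, QuotientGroup.eq, QuotientGroup.eq, Subgroup.mem_comap, map_mul, map_inv]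

theorem mono {Γ : Type} [Group Γ] {H H' : Subgroup Γ} (hle : H ≤ H')
    (h : IsHyperelementary H') : IsHyperelementary H :=
  Solomon.of_injective (Subgroup.inclusion hle) (Subgroup.inclusion_injective hle) h

section Main

variable (K : Type) [Field K] [NumberField K] (Ω : Type) [Field Ω] [Algebra K Ω] [IsAlgClosed Ω]
  [Algebra.IsAlgebraic K Ω]

/-- Solomon's theorem for a finite quotient of the Galois group of the base field: descent of the
formula from the intermediate fields with hyperelementary Galois groups. -/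
theorem descent_hyper {Γ : Type} [Group Γ] [Finite Γ] (f : (Ω ≃ₐ[K] Ω) →* Γ)
    (hf : Function.Surjective f) (hker : IsOpen (f.ker : Set (Ω ≃ₐ[K] Ω)))
    (V : LSystem (Ω ≃ₐ[K] Ω))
    (B : ∀ (p : ℕ) [Fact p.Prime], PeriodData (Ω ≃ₐ[K] Ω) (𝓞 Ω) p) (m : ℕ)
    (h : ∀ (E : IntermediateField K Ω) [NumberField E] (H : Subgroup Γ),
      E.fixingSubgroup = H.comap f → IsHyperelementary H →
      BKpow E Ω (V.res E) (fun p _ => (B p).res E) m) : BKpow K Ω V B m := by
  classical
  obtain ⟨a, ha⟩ := Solomon.solomon Γ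
  have : Fintype {H : Subgroup Γ // IsHyperelementary H} := Fintype.ofFinite _
  let S : {H : Subgroup Γ // IsHyperelementary H} → Subgroup (Ω ≃ₐ[K] Ω) := fun H => H.1.comap f
  have hSo : ∀ i, IsOpen (S i : Set (Ω ≃ₐ[K] Ω)) := fun i =>
    Subgroup.isOpen_mono (fun x hx => by
      change f x ∈ i.1
      rw [MonoidHom.mem_ker.1 hx]
      exact one_mem _) hker
  let E : {H : Subgroup Γ // IsHyperelementary H} → IntermediateField K Ω := fun i =>
    IntermediateField.fixedField (S i)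
  have hfd : ∀ i, FiniteDimensional K (E i) := fun i => (Reduction.open_field (S i) (hSo i)).1
  have hnf : ∀ i, NumberField (E i) := fun i => Reduction.numberField_of (E i)
  have hfix : ∀ i, (E i).fixingSubgroup = S i := fun i =>
    (Reduction.open_field (S i) (hSo i)).2
  have := rel_base_pow_gen K Ω V B E a 1 one_pos (fun g => ?_) m
    (fun i => h (E i) i.1 (hfix i) i.2)
  · rwa [one_mul] at this
  · have h1 := ha (f g)
    rw [finsum_eq_sum_of_fintype] at h1
    simp only [hfix, S, fixCount_comap f hf]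
    rw [h1]
    simp

end Main

end Hyper

end Pool.BK
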