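import Pool.Agent.BK.MulRel
import Pool.Agent.BK.AvoidGen

/-!
Integral relations between permutation characters of open normal subgroups of the absolute Galois
group, of index divisible by a given number, the fixed fields being linearly disjoint from a given
extension.
-/

open scoped Pointwise NumberField
open Polynomial IsDedekindDomain

namespace Pool.BK

namespace MulRelAvoid

/-- The relation for `n`, with indices dividing `s` and fields disjoint from every given one. -/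
def RelAv (G : Type) [Group G] [TopologicalSpace G] (n s : ℕ) : Prop :=
  ∀ N : Subgroup G, IsOpen (N : Set G) → ∃ (κ : Type) (_ : Fintype κ)
    (U : κ → Subgroup G) (a : κ → ℤ), (∀ j, (U j).Normal ∧
      IsOpen (U j : Set G) ∧ n ∣ (U j).index ∧ (U j).index ∣ s ∧ U j ⊔ N = ⊤) ∧
    ∀ g, ∑ j, a j * (fixCount (U j) g : ℤ) = n

theorem index_inf {G : Type} [Group G] (U U' : Subgroup G) [U'.Normal]
    (h : U' ⊔ U = ⊤) : (U ⊓ U').index = U.index * U'.index := by
  rw [← Subgroup.relIndex_mul_index (inf_le_left : U ⊓ U' ≤ U), Subgroup.inf_relIndex_left,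
    ← Subgroup.relIndex_sup_left, h, Subgroup.relIndex_top_right, mul_comm]

theorem sup_inf {G : Type} [Group G] (U U' N : Subgroup G) [U.Normal] [U'.Normal]
    (h : U ⊔ N = ⊤) (h' : U' ⊔ (N ⊓ U) = ⊤) : (U ⊓ U') ⊔ N = ⊤ := by
  rw [eq_top_iff]
  intro g _
  have hg : g ∈ U ⊔ N := h ▸ Subgroup.mem_top g
  obtain ⟨u, hu, x, hx, rfl⟩ := Subgroup.mem_sup_of_normal_left.1 hg
  have hu2 : u ∈ U' ⊔ (N ⊓ U) := h' ▸ Subgroup.mem_top u
  obtain ⟨u', hu', m, hm, rfl⟩ := Subgroup.mem_sup_of_normal_left.1 hu2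
  have h1 : u' ∈ U := by
    have h2 := mul_mem hu (inv_mem hm.2)
    rwa [mul_inv_cancel_right] at h2
  have h3 : u' * m * x = u' * (m * x) := mul_assoc _ _ _
  rw [h3]
  exact Subgroup.mul_mem_sup ⟨h1, hu'⟩ (mul_mem hm.1 hx)

theorem rel_one (G : Type) [Group G] [TopologicalSpace G] : RelAv G 1 1 := by
  intro N _
  refine ⟨Unit, inferInstance, fun _ => ⊤, fun _ => 1, ?_, ?_⟩
  · intro _
    exact ⟨inferInstance, by simp, one_dvd _, by simp, top_sup_eq _⟩
  · intro g
    have := (fixCount_normal (⊤ : Subgroup G) g).1 (Subgroup.mem_top g)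
    simp [this]

theorem rel_mul {G : Type} [Group G] [TopologicalSpace G] {n m s t : ℕ} (hs : 0 < s) (ht : 0 < t)
    (h1 : RelAv G n s) (h2 : RelAv G m t) : RelAv G (n * m) (s * t) := by
  intro N hN
  obtain ⟨κ, _, U, a, hU, ha⟩ := h1 N hN
  have hN' : IsOpen ((N ⊓ ⨅ j, U j : Subgroup G) : Set G) := by
    rw [Subgroup.coe_inf, Subgroup.coe_iInf]
    exact hN.inter (isOpen_iInter_of_finite fun j => (hU j).2.1)
  obtain ⟨κ', _, U', a', hU', ha'⟩ := h2 (N ⊓ ⨅ j, U j) hN'
  have hsup : ∀ j j', U' j' ⊔ (N ⊓ U j) = ⊤ := by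
    intro j j'
    rw [eq_top_iff, ← (hU' j').2.2.2.2]
    exact sup_le_sup_left (inf_le_inf_left _ (iInf_le _ j)) _
  have hidx : ∀ j j', (U j ⊓ U' j').index = (U j).index * (U' j').index := by
    intro j j'
    have := (hU' j').1
    apply index_inf
    rw [eq_top_iff, ← hsup j j']
    exact sup_le_sup_left inf_le_right _
  have hne : ∀ j, (U j).index ≠ 0 := fun j h0 => by
    have := (hU j).2.2.2.1
    rw [h0, zero_dvd_iff] at this
    omega
  have hne' : ∀ j, (U' j).index ≠ 0 := fun j h0 => by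
    have := (hU' j).2.2.2.1
    rw [h0, zero_dvd_iff] at this
    omega
  refine ⟨κ × κ', inferInstance, fun x => U x.1 ⊓ U' x.2, fun x => a x.1 * a' x.2, ?_, ?_⟩
  · rintro ⟨j, j'⟩
    have hn := (hU j).1
    have hn' := (hU' j').1
    refine ⟨Subgroup.normal_inf_normal _ _, ?_, ?_, ?_, ?_⟩
    · rw [Subgroup.coe_inf]
      exact (hU j).2.1.inter (hU' j').2.1
    · rw [hidx]
      exact mul_dvd_mul (hU j).2.2.1 (hU' j').2.2.1
    · rw [hidx]
      exact mul_dvd_mul (hU j).2.2.2.1 (hU' j').2.2.2.1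
    · exact sup_inf (U j) (U' j') N (hU j).2.2.2.2 (hsup j j')
  · intro g
    have hfix : ∀ j j', fixCount (U j ⊓ U' j') g = fixCount (U j) g * fixCount (U' j') g := by
      intro j j'
      have hn := (hU j).1
      have hn' := (hU' j').1
      have hF : (U j).FiniteIndex := ⟨hne j⟩
      have hF' : (U' j').FiniteIndex := ⟨hne' j'⟩
      have hNN : (U j ⊓ U' j').Normal := Subgroup.normal_inf_normal _ _
      have hFF : (U j ⊓ U' j').FiniteIndex := ⟨Subgroup.index_inf_ne_zero (hne j) (hne' j')⟩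
      by_cases hg : g ∈ U j
      · by_cases hg' : g ∈ U' j'
        · rw [(fixCount_normal (U j) g).1 hg, (fixCount_normal (U' j') g).1 hg',
            (fixCount_normal (U j ⊓ U' j') g).1 ⟨hg, hg'⟩, hidx]
        · rw [(fixCount_normal (U' j') g).2 hg', (fixCount_normal (U j ⊓ U' j') g).2
            (fun h => hg' h.2), mul_zero]
      · rw [(fixCount_normal (U j) g).2 hg, (fixCount_normal (U j ⊓ U' j') g).2
            (fun h => hg h.1), zero_mul]
    rw [Fintype.sum_prod_type]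
    simp only [hfix]
    push_cast
    rw [← ha g, ← ha' g, Finset.sum_mul_sum]
    refine Finset.sum_congr rfl fun j _ => Finset.sum_congr rfl fun j' _ => ?_
    ring

section Main

variable (K : Type) [Field K] [NumberField K] (Ω : Type) [Field Ω] [Algebra K Ω] [IsAlgClosed Ω]
  [Algebra.IsAlgebraic K Ω]

theorem rel_pow (q : ℕ) (hq : q.Prime) (e : ℕ) :
    RelAv (Ω ≃ₐ[K] Ω) (q ^ e) (q ^ (e + 1)) := by
  classical
  intro N hN
  have : Fact q.Prime := ⟨hq⟩
  obtain ⟨C, hCN, hCo, hCi, hCq, hCc, hCs⟩ := AvoidGen.exists_quot_disjoint K Ω q (e + 1) N hN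
  obtain ⟨hfin, hnorm, hrel⟩ := power_relation q e C hCi hCq hCc
  have hfin' : Finite {A : Subgroup (Ω ≃ₐ[K] Ω) | C ≤ A ∧ A.index = q ^ e} := hfin
  have hft : Fintype {A : Subgroup (Ω ≃ₐ[K] Ω) | C ≤ A ∧ A.index = q ^ e} := Fintype.ofFinite _
  have hsup : ∀ A, C ≤ A → A ⊔ N = ⊤ := by
    intro A hA
    rw [eq_top_iff, ← hCs]
    exact sup_le_sup_right hA _
  refine ⟨{A : Subgroup (Ω ≃ₐ[K] Ω) | C ≤ A ∧ A.index = q ^ e} ⊕ Unit, inferInstance,
    Sum.elim (fun A => A.1) (fun _ => C),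
    Sum.elim (fun _ => 1) (fun _ => -(((q ^ e - 1) / (q - 1) : ℕ) : ℤ)), ?_, ?_⟩
  · rintro (⟨A, hA⟩ | _)
    · refine ⟨hnorm A hA.1, Subgroup.isOpen_mono hA.1 hCo, ?_, ?_, hsup A hA.1⟩
      · change q ^ e ∣ A.index
        rw [hA.2]
      · change A.index ∣ q ^ (e + 1)
        rw [hA.2]
        exact pow_dvd_pow q (Nat.le_succ e)
    · refine ⟨hCN, hCo, ?_, ?_, hCs⟩
      · change q ^ e ∣ C.index
        rw [hCi]
        exact pow_dvd_pow q (Nat.le_succ e)
      · change C.index ∣ q ^ (e + 1)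
        rw [hCi]
  · intro g
    have h := hrel g
    rw [← finsum_set_coe_eq_finsum_mem, finsum_eq_sum_of_fintype] at h
    rw [Fintype.sum_sum_type]
    simp only [Sum.elim_inl, Sum.elim_inr, one_mul, Finset.univ_unique, Finset.sum_singleton]
    push_cast at h ⊢
    rw [← h]
    ring

theorem exists_rel (n : ℕ) (hn : 0 < n) : ∃ s : ℕ, 0 < s ∧ RelAv (Ω ≃ₐ[K] Ω) n s := by
  induction n using Nat.recOnMul with
  | zero => omega
  | one => exact ⟨1, one_pos, rel_one _⟩
  | prime p hp =>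
    refine ⟨p ^ 2, pow_pos hp.pos 2, ?_⟩
    have := rel_pow K Ω p hp 1
    rwa [pow_one] at this
  | mul a b iha ihb =>
    obtain ⟨s, hs, h1⟩ := iha (Nat.pos_of_mul_pos_right hn)
    obtain ⟨t, ht, h2⟩ := ihb (Nat.pos_of_mul_pos_left hn)
    exact ⟨s * t, Nat.mul_pos hs ht, rel_mul hs ht h1 h2⟩

end Main

end MulRelAvoid

end Pool.BK
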