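import Pool.Agent.Helper95.BK.Defs2
import Pool.Agent.BK.QuotRel

/-!
The permutation relation of an elementary abelian quotient of order `q ^ (e + 1)`.
-/

namespace Pool.BK

namespace PowRel

open Classical in
theorem count_sub {Γ : Type} [Group Γ] [Fintype Γ] (q e : ℕ) (hq1 : q.Prime)
    (hΓ : Nat.card Γ = q ^ (e + 1)) (hq : ∀ x : Γ, x ^ q = 1) (x : Γ) :
    ((Finset.univ : Finset (Subgroup Γ)).filter
      (fun B : Subgroup Γ => Nat.card B = q ∧ x ∈ B)).card =
        if x = 1 then (q ^ (e + 1) - 1) / (q - 1) else 1 := by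
  have hfact : Fact q.Prime := ⟨hq1⟩
  have key : ∀ x : Γ, x ≠ 1 → ((Finset.univ : Finset (Subgroup Γ)).filter
      (fun B : Subgroup Γ => Nat.card B = q ∧ x ∈ B)).card = 1 := by
    intro x hx
    have hord : orderOf x = q := orderOf_eq_prime (hq x) hx
    rw [Finset.card_eq_one]
    refine ⟨Subgroup.zpowers x, ?_⟩
    ext B
    simp only [Finset.mem_filter, Finset.mem_univ, true_and, Finset.mem_singleton]
    constructor
    · rintro ⟨h1, h2⟩
      symm
      apply Subgroup.eq_of_le_of_card_ge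
      · rwa [Subgroup.zpowers_le]
      · rw [h1, Nat.card_zpowers, hord]
    · rintro rfl
      exact ⟨by rw [Nat.card_zpowers, hord], Subgroup.mem_zpowers x⟩
  split_ifs with hx
  · subst hx
    have h1 : ∑ x ∈ (Finset.univ : Finset Γ).erase 1, ((Finset.univ : Finset (Subgroup Γ)).filter
        (fun B : Subgroup Γ => Nat.card B = q ∧ x ∈ B)).card = q ^ (e + 1) - 1 := by
      rw [Finset.sum_congr rfl (fun y hy => key y (Finset.ne_of_mem_erase hy)), Finset.sum_const,
        smul_eq_mul, mul_one, Finset.card_erase_of_mem (Finset.mem_univ _), Finset.card_univ,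
        ← Nat.card_eq_fintype_card, hΓ]
    have h2 : ∑ x ∈ (Finset.univ : Finset Γ).erase 1, ((Finset.univ : Finset (Subgroup Γ)).filter
        (fun B : Subgroup Γ => Nat.card B = q ∧ x ∈ B)).card =
        ((Finset.univ : Finset (Subgroup Γ)).filter
          (fun B : Subgroup Γ => Nat.card B = q)).card * (q - 1) := by
      simp_rw [Finset.card_filter]
      rw [Finset.sum_comm, Finset.sum_mul]
      refine Finset.sum_congr rfl fun B _ => ?_
      by_cases hB : Nat.card B = q
      · simp only [hB, true_and, if_true, one_mul]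
        rw [← Finset.card_filter]
        have : ((Finset.univ : Finset Γ).erase 1).filter (fun x => x ∈ B) =
            ((Finset.univ : Finset Γ).filter (fun x => x ∈ B)).erase 1 := by
          ext y; simp [and_comm]
        rw [this, Finset.card_erase_of_mem (by simp [B.one_mem])]
        congr 1
        rw [← hB, Nat.card_eq_fintype_card, Fintype.card_subtype]
      · simp only [hB, false_and, if_false, zero_mul, Finset.sum_const_zero]
    have h3 : ((Finset.univ : Finset (Subgroup Γ)).filter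
        (fun B : Subgroup Γ => Nat.card B = q ∧ (1 : Γ) ∈ B)) =
        (Finset.univ : Finset (Subgroup Γ)).filter (fun B : Subgroup Γ => Nat.card B = q) := by
      ext B; simp [B.one_mem]
    rw [h3]
    rw [h1] at h2
    have h4 := hq1.two_le
    rw [h2, Nat.mul_div_cancel _ (by omega)]
  · exact key x hx

theorem arith (q e : ℕ) (hq : 2 ≤ q) :
    (((q ^ (e + 1) - 1) / (q - 1) : ℕ) : ℤ) * (q : ℤ) ^ e -
      (((q ^ e - 1) / (q - 1) : ℕ) : ℤ) * (q : ℤ) ^ (e + 1) = (q : ℤ) ^ e := by
  have key : ∀ k : ℕ, (((q ^ k - 1) / (q - 1) : ℕ) : ℤ) * ((q : ℤ) - 1) = (q : ℤ) ^ k - 1 := by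
    intro k
    have hd : (q - 1) ∣ q ^ k - 1 := by simpa using Nat.sub_dvd_pow_sub_pow q 1 k
    have h1 : (q ^ k - 1) / (q - 1) * (q - 1) = q ^ k - 1 := Nat.div_mul_cancel hd
    have h2 : 1 ≤ q ^ k := Nat.one_le_pow _ _ (by omega)
    have h3 : 1 ≤ q := by omega
    have h4 := congrArg (fun n : ℕ => (n : ℤ)) h1
    simp only [Nat.cast_mul, Nat.cast_sub h3, Nat.cast_sub h2, Nat.cast_pow, Nat.cast_one] at h4
    exact h4
  have hne : ((q : ℤ) - 1) ≠ 0 := by
    have : (2 : ℤ) ≤ q := by exact_mod_cast hq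
    omega
  apply mul_right_cancel₀ hne
  have k1 := key (e + 1)
  have k2 := key e
  rw [sub_mul]
  calc (((q ^ (e + 1) - 1) / (q - 1) : ℕ) : ℤ) * (q : ℤ) ^ e * ((q : ℤ) - 1) -
        (((q ^ e - 1) / (q - 1) : ℕ) : ℤ) * (q : ℤ) ^ (e + 1) * ((q : ℤ) - 1)
      = ((((q ^ (e + 1) - 1) / (q - 1) : ℕ) : ℤ) * ((q : ℤ) - 1)) * (q : ℤ) ^ e -
        ((((q ^ e - 1) / (q - 1) : ℕ) : ℤ) * ((q : ℤ) - 1)) * (q : ℤ) ^ (e + 1) := by ring
    _ = ((q : ℤ) ^ (e + 1) - 1) * (q : ℤ) ^ e - ((q : ℤ) ^ e - 1) * (q : ℤ) ^ (e + 1) := by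
        rw [k1, k2]
    _ = (q : ℤ) ^ e * ((q : ℤ) - 1) := by ring

end PowRel

theorem fixCount_normal {G : Type} [Group G] (U : Subgroup G) [U.Normal] [U.FiniteIndex] (g : G) :
    (g ∈ U → fixCount U g = U.index) ∧ (g ∉ U → fixCount U g = 0) := by
  classical
  have h := QuotRel.fixCount_normal U inferInstance g
  constructor
  · intro hg
    rw [h, if_pos hg]
  · intro hg
    rw [h, if_neg hg]

theorem power_relation {G : Type} [Group G] (q : ℕ) [Fact q.Prime] (e : ℕ) (C : Subgroup G)
    [C.Normal] (hC : C.index = q ^ (e + 1)) (hq : ∀ g, g ^ q ∈ C)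
    (hcomm : ∀ g h : G, g * h * g⁻¹ * h⁻¹ ∈ C) :
    {A : Subgroup G | C ≤ A ∧ A.index = q ^ e}.Finite ∧ (∀ A : Subgroup G, C ≤ A → A.Normal) ∧
    ∀ g : G, (∑ᶠ A ∈ {A : Subgroup G | C ≤ A ∧ A.index = q ^ e}, (fixCount A g : ℤ)) -
      (((q ^ e - 1) / (q - 1) : ℕ) : ℤ) * fixCount C g = (q : ℤ) ^ e := by
  classical
  have hp : q.Prime := Fact.out
  have hcard : Nat.card (G ⧸ C) = q ^ (e + 1) := hC
  have hfin : Finite (G ⧸ C) := by
    apply Nat.finite_of_card_ne_zero
    rw [hcard]
    exact pow_ne_zero _ hp.ne_zero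
  have : Fintype (G ⧸ C) := Fintype.ofFinite _
  have hexp : ∀ x : G ⧸ C, x ^ q = 1 := by
    intro x
    obtain ⟨y, rfl⟩ := QuotientGroup.mk_surjective x
    rw [← QuotientGroup.mk_pow, QuotientGroup.eq_one_iff]
    exact hq y
  have hnorm : ∀ A : Subgroup G, C ≤ A → A.Normal := by
    intro A hA
    refine ⟨fun n hn g => ?_⟩
    have h1 := hA (hcomm g n)
    have h2 := A.mul_mem h1 hn
    simpa [mul_assoc] using h2
  -- the correspondence
  let f : Subgroup (G ⧸ C) → Subgroup G := Subgroup.comap (QuotientGroup.mk' C)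
  have hfinj : Function.Injective f := Subgroup.comap_injective (QuotientGroup.mk'_surjective C)
  have hidx : ∀ B : Subgroup (G ⧸ C), (f B).index = B.index := fun B =>
    Subgroup.index_comap_of_surjective B (QuotientGroup.mk'_surjective C)
  have hle : ∀ B : Subgroup (G ⧸ C), C ≤ f B := by
    intro B c hc
    change QuotientGroup.mk' C c ∈ B
    have : QuotientGroup.mk' C c = 1 := by
      rw [QuotientGroup.mk'_apply, QuotientGroup.eq_one_iff]
      exact hc
    rw [this]
    exact B.one_mem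
  have hpe : 0 < q ^ e := pow_pos hp.pos e
  have hS : {A : Subgroup G | C ≤ A ∧ A.index = q ^ e} =
      f '' (↑((Finset.univ : Finset (Subgroup (G ⧸ C))).filter
        (fun B : Subgroup (G ⧸ C) => Nat.card B = q)) : Set (Subgroup (G ⧸ C))) := by
    ext A
    simp only [Set.mem_setOf_eq, Set.mem_image, Finset.coe_filter, Finset.mem_univ, true_and]
    constructor
    · rintro ⟨h1, h2⟩
      have h3 : f (A.map (QuotientGroup.mk' C)) = A := by
        change Subgroup.comap _ (Subgroup.map _ _) = _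
        rw [Subgroup.comap_map_eq_self]
        rw [QuotientGroup.ker_mk']
        exact h1
      refine ⟨A.map (QuotientGroup.mk' C), ?_, h3⟩
      have h4 := hidx (A.map (QuotientGroup.mk' C))
      rw [h3, h2] at h4
      have h5 := Subgroup.card_mul_index (A.map (QuotientGroup.mk' C))
      rw [← h4, hcard, pow_succ'] at h5
      exact Nat.eq_of_mul_eq_mul_right hpe h5
    · rintro ⟨B, hB, rfl⟩
      refine ⟨hle B, ?_⟩
      rw [hidx]
      have h5 := Subgroup.card_mul_index B
      rw [hB, hcard, pow_succ'] at h5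
      exact Nat.eq_of_mul_eq_mul_left hp.pos h5
  refine ⟨?_, hnorm, fun g => ?_⟩
  · rw [hS]
    exact (Finset.finite_toSet _).image _
  · rw [hS, finsum_mem_image (hfinj.injOn), finsum_mem_coe_finset]
    have hval : ∀ B ∈ (Finset.univ : Finset (Subgroup (G ⧸ C))).filter
        (fun B : Subgroup (G ⧸ C) => Nat.card B = q),
        (fixCount (f B) g : ℤ) = if (g : G ⧸ C) ∈ B then (q : ℤ) ^ e else 0 := by
      intro B hB
      rw [Finset.mem_filter] at hB
      have hN : (f B).Normal := hnorm _ (hle B)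
      rw [QuotRel.fixCount_normal _ hN]
      have hmem : (g ∈ f B) ↔ ((g : G ⧸ C) ∈ B) := Iff.rfl
      have hi : (f B).index = q ^ e := by
        rw [hidx]
        have h5 := Subgroup.card_mul_index B
        rw [hB.2, hcard, pow_succ'] at h5
        exact Nat.eq_of_mul_eq_mul_left hp.pos h5
      rw [hi]
      by_cases h : (g : G ⧸ C) ∈ B
      · rw [if_pos h, if_pos (hmem.2 h)]; push_cast; rfl
      · rw [if_neg h, if_neg (fun h' => h (hmem.1 h'))]; rfl
    rw [Finset.sum_congr rfl hval, ← Finset.sum_filter, Finset.filter_filter, Finset.sum_const,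
      PowRel.count_sub q e hp hcard hexp, QuotRel.fixCount_normal C inferInstance, hC]
    by_cases h : g ∈ C
    · have h' : (g : G ⧸ C) = 1 := (QuotientGroup.eq_one_iff g).2 h
      rw [if_pos h, if_pos h', nsmul_eq_mul]
      have := PowRel.arith q e hp.two_le
      have hc : ((q ^ (e + 1) : ℕ) : ℤ) = (q : ℤ) ^ (e + 1) := by push_cast; rfl
      rw [hc]
      exact this
    · have h' : (g : G ⧸ C) ≠ 1 := fun h' => h ((QuotientGroup.eq_one_iff g).1 h')
      rw [if_neg h, if_neg h']
      simp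

end Pool.BK
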