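import Pool.Agent.BK.Frob

/-!
The formula for the `m`-th power of the L-function together with a meromorphic continuation of the
L-function itself gives the formula for the L-function.
-/

open scoped Pointwise NumberField Topology
open Polynomial IsDedekindDomain

namespace Pool.BK

namespace Power

/-- A prime number which is not in a given finite place. -/
theorem exists_prime_notMem {K : Type} [Field K] [NumberField K] (v : HeightOneSpectrum (𝓞 K)) :
    ∃ l : ℕ, l.Prime ∧ (l : 𝓞 K) ∉ v.asIdeal := by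
  by_cases h2 : ((2 : ℕ) : 𝓞 K) ∈ v.asIdeal
  · refine ⟨3, Nat.prime_three, fun h3 => ?_⟩
    have h1 : (1 : 𝓞 K) ∈ v.asIdeal := by
      have := v.asIdeal.sub_mem h3 h2
      have h4 : ((3 : ℕ) : 𝓞 K) - ((2 : ℕ) : 𝓞 K) = 1 := by
        push_cast; ring
      rwa [h4] at this
    exact v.isPrime.ne_top ((Ideal.eq_top_iff_one _).2 h1)
  · exact ⟨2, Nat.prime_two, h2⟩

/-- The family of Euler polynomials is unique. -/
theorem family_unique {K : Type} [Field K] [NumberField K] {Ω : Type} [Field Ω] [Algebra K Ω]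
    [IsAlgClosed Ω] [Algebra.IsAlgebraic K Ω] (V : LSystem (Ω ≃ₐ[K] Ω))
    {P P' : HeightOneSpectrum (𝓞 K) → ℚ[X]} (hP : IsEulerFamily K Ω V P)
    (hP' : IsEulerFamily K Ω V P') : P = P' := by
  funext v
  obtain ⟨l, hl, hlv⟩ := exists_prime_notMem v
  have : Fact l.Prime := ⟨hl⟩
  obtain ⟨Q, hQ, hQv⟩ := exists_over (Ω := Ω) v
  obtain ⟨φ, hφ⟩ := exists_frob v Q hQ hQv
  have h1 := hP v l hlv Q hQ hQv φ hφ
  have h2 := hP' v l hlv Q hQ hQv φ hφ
  exact Polynomial.map_injective (algebraMap ℚ ℚ_[l]) (algebraMap ℚ ℚ_[l]).injective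
    (h1.symm.trans h2)

/-- Identity theorem along the half line. -/
theorem order_eq {U : Set ℂ} {σ : ℝ} (h1 : {s : ℂ | σ < s.re} ⊆ U)
    (h2 : ∀ t : ℝ, 0 ≤ t → (t : ℂ) ∈ U) {f g : ℂ → ℂ} (hf : MeromorphicOn f U)
    (hg : MeromorphicOn g U) (hfg : ∀ s : ℂ, σ < s.re → f s = g s) :
    meromorphicOrderAt f 0 = meromorphicOrderAt g 0 := by
  -- the half plane and the half line are in one component
  have hH : IsPreconnected {s : ℂ | σ < s.re} := (convex_halfSpace_re_gt σ).isPreconnected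
  have hR : IsPreconnected ((fun t : ℝ => (t : ℂ)) '' Set.Ici 0) :=
    isPreconnected_Ici.image _ Complex.continuous_ofReal.continuousOn
  set X : Set ℂ := ((fun t : ℝ => (t : ℂ)) '' Set.Ici 0) ∪ {s : ℂ | σ < s.re} with hX
  have hXc : IsPreconnected X := by
    refine IsPreconnected.union (((max σ 0 + 1 : ℝ) : ℂ)) ?_ ?_ hR hH
    · exact ⟨max σ 0 + 1, by
        have := le_max_right σ 0
        simp only [Set.mem_Ici]; linarith, rfl⟩
    · have := le_max_left σ 0
      simp only [Set.mem_ofPred_eq, Complex.ofReal_re]; linarith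
  have hXU : X ⊆ U := by
    rintro s (⟨t, ht, rfl⟩ | hs)
    · exact h2 t ht
    · exact h1 hs
  have h0X : (0 : ℂ) ∈ X := Or.inl ⟨0, by simp, by simp⟩
  set W : Set ℂ := connectedComponentIn U 0 with hW
  have hWU : W ⊆ U := connectedComponentIn_subset U 0
  have hXW : X ⊆ W := hXc.subset_connectedComponentIn h0X hXU
  have hWc : IsPreconnected W := isPreconnected_connectedComponentIn
  have hD : MeromorphicOn (f - g) W := fun x hx => (hf x (hWU hx)).sub (hg x (hWU hx))
  -- a point of the half plane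
  set y : ℂ := ((σ + 1 : ℝ) : ℂ) with hy
  have hyH : y ∈ {s : ℂ | σ < s.re} := by
    simp only [hy, Set.mem_ofPred_eq, Complex.ofReal_re]; linarith
  have hopen : IsOpen {s : ℂ | σ < s.re} := isOpen_lt continuous_const Complex.continuous_re
  have hytop : meromorphicOrderAt (f - g) y = ⊤ := by
    rw [meromorphicOrderAt_eq_top_iff]
    apply Filter.Eventually.filter_mono nhdsWithin_le_nhds
    filter_upwards [hopen.mem_nhds hyH] with s hs
    simp [hfg s hs]
  have h0top : meromorphicOrderAt (f - g) 0 = ⊤ := by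
    by_contra hne
    exact hD.meromorphicOrderAt_ne_top_of_isPreconnected hWc (hXW h0X) (hXW (Or.inr hyH)) hne
      hytop
  rw [meromorphicOrderAt_eq_top_iff] at h0top
  apply meromorphicOrderAt_congr
  filter_upwards [h0top] with s hs
  exact sub_eq_zero.1 hs

end Power

variable (K : Type) [Field K] [NumberField K] (Ω : Type) [Field Ω] [Algebra K Ω] [IsAlgClosed Ω]
  [Algebra.IsAlgebraic K Ω]

theorem bk_of_pow (V : LSystem (Ω ≃ₐ[K] Ω))
    (B : ∀ (p : ℕ) [Fact p.Prime], PeriodData (Ω ≃ₐ[K] Ω) (𝓞 Ω) p) (m : ℕ) (hm : 0 < m)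
    (h : BKpow K Ω V B m) (P : HeightOneSpectrum (𝓞 K) → ℚ[X]) (hP : IsEulerFamily K Ω V P)
    (σ : ℝ) (U : Set ℂ) (Λ : ℂ → ℂ) (hU : IsOpen U) (h1 : {s : ℂ | σ < s.re} ⊆ U)
    (h2 : ∀ t : ℝ, 0 ≤ t → (t : ℂ) ∈ U) (h3 : MeromorphicOn Λ U)
    (h4 : ∀ s : ℂ, σ < s.re → HasProd (eulerFactor K P s) (Λ s)) : BKHolds K Ω V B := by
  obtain ⟨P₀, hP₀, σ₀, U₀, Λ₀, hU₀, g1, g2, g3, g4, g5⟩ := h
  have hPP : P₀ = P := Power.family_unique V hP₀ hP
  subst hPP
  have hval : ∀ s : ℂ, max σ σ₀ < s.re → Λ s ≠ 0 ∧ Λ₀ s = (Λ s) ^ m := by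
    intro s hs
    obtain ⟨z, hz, hzP, hzΛ⟩ := g4 s (lt_of_le_of_lt (le_max_right _ _) hs)
    have h5 : Λ s = z := (h4 s (lt_of_le_of_lt (le_max_left _ _) hs)).unique hzP
    rw [h5]
    exact ⟨hz, hzΛ⟩
  have hord : meromorphicOrderAt (Λ ^ m) 0 = meromorphicOrderAt Λ₀ 0 := by
    refine Power.order_eq (U := U ∩ U₀) (σ := max σ σ₀) ?_ ?_ (fun x hx => (h3 x hx.1).pow m)
      (fun x hx => g3 x hx.2) ?_
    · intro s hs
      have hs' : max σ σ₀ < s.re := hs
      have a1 : σ < s.re := lt_of_le_of_lt (le_max_left _ _) hs'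
      have a2 : σ₀ < s.re := lt_of_le_of_lt (le_max_right _ _) hs'
      exact ⟨h1 a1, g1 a2⟩
    · intro t ht
      exact ⟨h2 t ht, g2 t ht⟩
    · intro s hs
      rw [(hval s hs).2]
      rfl
  have h0U : (0 : ℂ) ∈ U := by
    have := h2 0 le_rfl
    simpa using this
  rw [meromorphicOrderAt_pow (h3 0 h0U)] at hord
  refine ⟨P₀, hP₀, max σ σ₀, U, Λ, hU, ?_, h2, h3, ?_, ?_⟩
  · intro s hs
    have hs' : max σ σ₀ < s.re := hs
    have a1 : σ < s.re := lt_of_le_of_lt (le_max_left _ _) hs'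
    exact h1 a1
  · intro s hs
    refine ⟨Λ s, (hval s hs).1, h4 s (lt_of_le_of_lt (le_max_left _ _) hs), by simp⟩
  · intro p hp
    obtain ⟨hfin, hp2⟩ := g5 p
    refine ⟨hfin, ?_⟩
    rw [hp2] at hord
    have hmne : (m : ℤ) ≠ 0 := by exact_mod_cast hm.ne'
    cases hΛ : meromorphicOrderAt Λ 0 with
    | top =>
      rw [hΛ] at hord
      exfalso
      have : (m : WithTop ℤ) * ⊤ = ⊤ := by
        apply WithTop.mul_top
        exact_mod_cast hm.ne'
      rw [this] at hord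
      exact WithTop.coe_ne_top hord.symm
    | coe k =>
      rw [hΛ] at hord
      have h6 : (m : ℤ) * k = (m : ℤ) * ((Module.finrank ℚ_[p] (H1f (V.rep p) (B p)) : ℤ) -
            (h0 (V.rep p) : ℤ)) := by
        exact_mod_cast hord
      have h7 := mul_left_cancel₀ hmne h6
      rw [h7]
      congr 1
      push_cast
      ring

end Pool.BK
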