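import Pool.Agent.BK.Reduction
import Pool.Agent.BK.ArtinCompact
import Pool.Agent.BK.BadConj
import Pool.Agent.BK.FixConj
import Pool.Agent.BK.Split
import Pool.Agent.BK.Converge
import Pool.Agent.BK.RelPow
import Pool.Agent.BK.H1Relation

open scoped Pointwise NumberField
open Polynomial IsDedekindDomain

namespace Pool.BK

namespace ReductionComplex

section Fields

variable {K : Type} [Field K] {Ω : Type} [Field Ω] [Algebra K Ω]

/-- Every extension of a totally complex field is totally complex. -/
theorem tc_of_le {L L' : IntermediateField K Ω} (h : L ≤ L')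
    (hL : NumberField.IsTotallyComplex L) : NumberField.IsTotallyComplex L' := by
  let _ : Algebra L L' := (IntermediateField.inclusion h).toRingHom.toAlgebra
  exact NumberField.isTotallyComplex_of_algebra L L'

theorem tc_of_sq {E : Type} [Field E] (x : E) (hx : x ^ 2 = -1) :
    NumberField.IsTotallyComplex E := by
  refine ⟨fun v => ?_⟩
  rw [← NumberField.InfinitePlace.not_isReal_iff_isComplex]
  intro hv
  let f := NumberField.InfinitePlace.embedding_of_isReal hv
  have h1 : f x ^ 2 = -1 := by rw [← map_pow, hx, map_neg, map_one]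
  nlinarith [sq_nonneg (f x)]

end Fields

/-- Every number field `L` inside an algebraically closed field has a totally complex finite
extension there. -/
theorem exists_tc (L : Type) [Field L] [NumberField L] (Ω : Type) [Field Ω] [Algebra L Ω]
    [IsAlgClosed Ω] : ∃ E : IntermediateField L Ω, NumberField E ∧
      NumberField.IsTotallyComplex E := by
  obtain ⟨x, hx⟩ := IsAlgClosed.exists_pow_nat_eq (-1 : Ω) (n := 2) (by norm_num)
  have hint : IsIntegral L x := by
    refine ⟨Polynomial.X ^ 2 + 1, ?_, ?_⟩
    · exact Polynomial.monic_X_pow_add (by simp)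
    · simp [hx]
  have hfd : FiniteDimensional L (IntermediateField.adjoin L {x}) :=
    IntermediateField.adjoin.finiteDimensional hint
  refine ⟨IntermediateField.adjoin L {x}, ?_, ?_⟩
  · exact NumberField.of_module_finite L _
  · refine tc_of_sq (⟨x, IntermediateField.mem_adjoin_simple_self L x⟩ :
      IntermediateField.adjoin L {x}) ?_
    ext
    simp [hx]

section Galois

variable {K : Type} [Field K] [NumberField K] {Ω : Type} [Field Ω] [Algebra K Ω] [IsAlgClosed Ω]
  [Algebra.IsAlgebraic K Ω]

theorem isGalois : IsGalois K Ω := by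
  have : IsAlgClosure K Ω := ⟨inferInstance, inferInstance⟩
  infer_instance

/-- The fixed field of an open subgroup is a number field with this fixing subgroup. -/
theorem fixedField_of_isOpen (C : Subgroup (Ω ≃ₐ[K] Ω)) (hC : IsOpen (C : Set (Ω ≃ₐ[K] Ω))) :
    NumberField (IntermediateField.fixedField C) ∧
      (IntermediateField.fixedField C).fixingSubgroup = C := by
  have := isGalois (K := K) (Ω := Ω)
  have hcl : IsClosed (C : Set (Ω ≃ₐ[K] Ω)) := Subgroup.isClosed_of_isOpen C hC
  have h1 : (IntermediateField.fixedField C).fixingSubgroup = C :=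
    InfiniteGalois.fixingSubgroup_fixedField ⟨C, hcl⟩
  have h2 : FiniteDimensional K (IntermediateField.fixedField C) := by
    rw [← InfiniteGalois.isOpen_iff_finite, h1]
    exact hC
  exact ⟨NumberField.of_module_finite K _, h1⟩

end Galois

end ReductionComplex

section Main

variable (K : Type) [Field K] [NumberField K] (Ω : Type) [Field Ω] [Algebra K Ω] [IsAlgClosed Ω]
  [Algebra.IsAlgebraic K Ω]

open ReductionComplex in
theorem reduction_complex (V : LSystem (Ω ≃ₐ[K] Ω))
    (B : ∀ (p : ℕ) [Fact p.Prime], PeriodData (Ω ≃ₐ[K] Ω) (𝓞 Ω) p) (N : ℕ)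
    (h : ∀ (L : IntermediateField K Ω) [NumberField L], NumberField.IsTotallyComplex L →
      N ≤ Module.finrank K L → BKHolds L Ω (V.res L) (fun p _ => (B p).res L))
    {ι : Type} [Fintype ι] (E : ι → IntermediateField K Ω) [∀ i, NumberField (E i)]
    (hE : ∀ i, BKHolds (E i) Ω (V.res (E i)) (fun p _ => (B p).res (E i)))
    (L : IntermediateField K Ω) [NumberField L] (n : ℕ) (hn : 0 < n) (a : ι → ℤ)
    (ha : ∀ v : K →+* ℝ, (n : ℤ) * (realCount K L v : ℤ) =
      ∑ i, a i * (realCount K (E i) v : ℤ)) :
    ∃ m : ℕ, 0 < m ∧ BKpow L Ω (V.res L) (fun p _ => (B p).res L) m := by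
  have hgal := isGalois (K := K) (Ω := Ω)
  -- all totally complex fields
  have htc : ∀ (L' : IntermediateField K Ω) [NumberField L'], NumberField.IsTotallyComplex L' →
      BKHolds L' Ω (V.res L') (fun p _ => (B p).res L') :=
    reduction K Ω V B (fun L' => NumberField.IsTotallyComplex L')
      (fun L₁ L₂ h12 h1 => tc_of_le h12 h1) N (fun L' _ h1 h2 => h L' h1 h2)
  -- Artin's formula
  obtain ⟨M, κ, _, C, b, hM, hC, hrel⟩ := artin_compact (G := Ω ≃ₐ[K] Ω)
    (fun U => ∃ L' : IntermediateField K Ω, NumberField L' ∧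
      NumberField.IsTotallyComplex L' ∧ U ≤ L'.fixingSubgroup)
    (fun H H' hHH' ⟨L', h1, h2, h3⟩ => ⟨L', h1, h2, hHH'.trans h3⟩)
    (ι := Option ι) (fun o => o.elim L.fixingSubgroup fun i => (E i).fixingSubgroup)
    (by
      rintro (_ | i)
      · have : FiniteDimensional K L := Module.Finite.of_restrictScalars_finite ℚ K L
        exact L.fixingSubgroup_isOpen
      · have : FiniteDimensional K (E i) := Module.Finite.of_restrictScalars_finite ℚ K (E i)
        exact (E i).fixingSubgroup_isOpen)
    (fun o => o.elim (n : ℤ) fun i => - a i)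
    (by
      intro g hg
      obtain ⟨j, hj⟩ := bad_is_conj (K := K) g (by
        intro L' _ h1 h2
        have : FiniteDimensional K L' := Module.Finite.of_restrictScalars_finite ℚ K L'
        exact hg L'.fixingSubgroup L'.fixingSubgroup_isOpen h1 ⟨L', inferInstance, h2, le_rfl⟩)
      obtain ⟨v, hv⟩ := fixCount_conj (K := K) g j hj
      rw [Fintype.sum_option]
      simp only [Option.elim]
      rw [hv L, ha v, ← Finset.sum_add_distrib]
      refine Finset.sum_eq_zero fun i _ => ?_
      rw [hv (E i)]
      ring)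
  simp only [Fintype.sum_option, Option.elim] at hrel
  -- the fields fixed by the subgroups
  have hF : ∀ j, NumberField (IntermediateField.fixedField (C j)) := fun j =>
    (fixedField_of_isOpen (C j) (hC j).1).1
  have hFix : ∀ j, (IntermediateField.fixedField (C j)).fixingSubgroup = C j := fun j =>
    (fixedField_of_isOpen (C j) (hC j).1).2
  have hFtc : ∀ j, NumberField.IsTotallyComplex (IntermediateField.fixedField (C j)) := by
    intro j
    obtain ⟨L', _, h2, h3⟩ := (hC j).2
    exact tc_of_le (IntermediateField.le_iff_le _ _ |>.2 h3) h2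
  -- the Euler polynomials over L
  have htc' : ∀ (E' : IntermediateField L Ω) [NumberField E'], NumberField.IsTotallyComplex E' →
      BKHolds E' Ω ((V.res L).res E') (fun p _ => ((B p).res L).res E') := by
    intro E' i hE'
    have hn : NumberField (E'.restrictScalars K) := i
    exact htc (E'.restrictScalars K) hE'
  have : Algebra.IsAlgebraic L Ω := Algebra.IsAlgebraic.tower_top (K := K) L
  obtain ⟨P, hP⟩ := exists_euler_family L Ω (V.res L) (fun E' _ hE' => by
    obtain ⟨P, hP, _⟩ := htc' E' hE'
    exact ⟨P, hP⟩)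
  obtain ⟨E₀, _, hE₀⟩ := exists_tc L Ω
  obtain ⟨P₀, hP₀, σ₀, U, Λ, hU, hσU, hUt, hΛ, hprod, hord⟩ := htc' E₀ hE₀
  obtain ⟨σ, hσ⟩ := exists_halfplane L Ω (V.res L) P hP E₀ P₀ hP₀ σ₀ (fun s hs => by
    obtain ⟨z, hz, hz', _⟩ := hprod s hs
    exact ⟨z, hz, hz'⟩)
  have hfin : ∀ (p : ℕ) [Fact p.Prime],
      Module.Finite ℚ_[p] (H1f ((V.res L).rep p) ((B p).res L)) := by
    intro p _
    exact finite_H1f ((V.res L).rep p) ((V.res L).cont p) ((B p).res L) E₀ (hord p).1
  have hinst : ∀ x : ι ⊕ κ, NumberField
      (Sum.elim E (fun j => IntermediateField.fixedField (C j)) x : IntermediateField K Ω) := by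
    rintro (i | j)
    · exact inferInstanceAs (NumberField (E i))
    · exact hF j
  refine ⟨M * n, Nat.mul_pos hM hn, rel_pow K Ω V B
    (Sum.elim E fun j => IntermediateField.fixedField (C j))
    (Sum.elim (fun i => (M : ℤ) * a i) b) L (M * n) (Nat.mul_pos hM hn) ?_ ?_ P hP σ hσ hfin⟩
  · intro g
    rw [Fintype.sum_sum_type]
    simp only [Sum.elim_inl, Sum.elim_inr]
    have h1 := hrel g
    have h2 : ∑ j, b j * (fixCount (IntermediateField.fixedField (C j)).fixingSubgroup g : ℤ) =
        ∑ j, b j * (fixCount (C j) g : ℤ) :=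
      Finset.sum_congr rfl fun j _ => by rw [hFix j]
    rw [h2, ← h1]
    push_cast
    rw [mul_add, Finset.mul_sum]
    have h3 : ∑ i, (M : ℤ) * a i * (fixCount (E i).fixingSubgroup g : ℤ) +
        ∑ i, (M : ℤ) * (- a i * (fixCount (E i).fixingSubgroup g : ℤ)) = 0 := by
      rw [← Finset.sum_add_distrib]
      exact Finset.sum_eq_zero fun i _ => by ring
    linear_combination -h3
  · rintro (i | j)
    · exact hE i
    · exact htc _ (hFtc j)

end Main

end Pool.BK
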