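import Pool.Agent.Helper95.BK.Defs4
import Pool.Agent.BK.ArtinCompact
import Pool.Agent.BK.FixEmb
import Pool.Agent.BK.H1Relation
import Pool.Agent.BK.BadLocalFine
import Pool.Agent.BK.Schmidt
import Pool.Agent.Helper95.BK.Defs5
import Pool.Agent.BK.BigField
import Pool.Agent.BK.RelInd

/-!
# The local form of the reduction theorem (module ReductionLocal of project BK)
-/

open scoped Pointwise NumberField
open Polynomial IsDedekindDomain

namespace Pool.BK

namespace ReductionLocal

section Fields

variable {K : Type} [Field K] {Ω : Type} [Field Ω] [Algebra K Ω]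

/-- Every extension of a totally complex field is totally complex. -/
theorem tc_of_le {L L' : IntermediateField K Ω} (h : L ≤ L')
    (hL : NumberField.IsTotallyComplex L) : NumberField.IsTotallyComplex L' := by
  let _ : Algebra L L' := (IntermediateField.inclusion h).toRingHom.toAlgebra
  exact NumberField.isTotallyComplex_of_algebra L L'

theorem tc_of_sq {E : Type} [Field E] (x : E) (hx : x ^ 2 = -1) :
    NumberField.IsTotallyComplex E := by
  refine ⟨fun v => ?_⟩
  rw [← NumberField.InfinitePlace.not_isReal_iff_isComplex]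
  intro hv
  let f := NumberField.InfinitePlace.embedding_of_isReal hv
  have h1 : f x ^ 2 = -1 := by rw [← map_pow, hx, map_neg, map_one]
  nlinarith [sq_nonneg (f x)]

theorem locTriv_of_le [NumberField K] {F : IntermediateField K Ω}
    {T : Set (HeightOneSpectrum (𝓞 K))} {L L' : IntermediateField K Ω} (h : L ≤ L')
    (hL : LocTriv F T L) : LocTriv F T L' := fun Q hQ hQ0 σ hσ hs =>
  hL Q hQ hQ0 σ (IntermediateField.fixingSubgroup_antitone h hσ) hs

theorem locTriv_of_le_right [NumberField K] {F : IntermediateField K Ω}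
    (T : Set (HeightOneSpectrum (𝓞 K))) {L : IntermediateField K Ω} (h : F ≤ L) :
    LocTriv F T L := fun _ _ _ _ hσ _ => IntermediateField.fixingSubgroup_antitone h hσ

end Fields

section Galois

variable {K : Type} [Field K] [NumberField K] {Ω : Type} [Field Ω] [Algebra K Ω] [IsAlgClosed Ω]
  [Algebra.IsAlgebraic K Ω]

theorem finrank_dvd {L L' : IntermediateField K Ω} (h : L ≤ L') :
    Module.finrank K L ∣ Module.finrank K L' := by
  have := H1Relation.isGalois (K := K) (Ω := Ω)
  rw [IntermediateField.finrank_eq_fixingSubgroup_index,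
    IntermediateField.finrank_eq_fixingSubgroup_index]
  exact Subgroup.index_dvd_of_le (IntermediateField.fixingSubgroup_antitone h)

theorem isCyclic_of_le (F₁ : IntermediateField K Ω) [Normal K F₁] {L L' : IntermediateField K Ω}
    (h : L ≤ L') (hc : IsCyclic (L.fixingSubgroup.map (AlgEquiv.restrictNormalHom F₁))) :
    IsCyclic (L'.fixingSubgroup.map (AlgEquiv.restrictNormalHom F₁)) := by
  have hle : L'.fixingSubgroup.map (AlgEquiv.restrictNormalHom F₁) ≤
      L.fixingSubgroup.map (AlgEquiv.restrictNormalHom F₁) :=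
    Subgroup.map_mono (IntermediateField.fixingSubgroup_antitone h)
  exact isCyclic_of_injective (Subgroup.inclusion hle) (Subgroup.inclusion_injective hle)

/-- The fixed field of an open subgroup is a number field with this fixing subgroup. -/
theorem fixedField_of_isOpen (C : Subgroup (Ω ≃ₐ[K] Ω)) (hC : IsOpen (C : Set (Ω ≃ₐ[K] Ω))) :
    NumberField (IntermediateField.fixedField C) ∧
      (IntermediateField.fixedField C).fixingSubgroup = C := by
  have := H1Relation.isGalois (K := K) (Ω := Ω)
  have hcl : IsClosed (C : Set (Ω ≃ₐ[K] Ω)) := Subgroup.isClosed_of_isOpen C hC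
  have h1 : (IntermediateField.fixedField C).fixingSubgroup = C :=
    InfiniteGalois.fixingSubgroup_fixedField ⟨C, hcl⟩
  have h2 : FiniteDimensional K (IntermediateField.fixedField C) := by
    rw [← InfiniteGalois.isOpen_iff_finite, h1]
    exact hC
  exact ⟨NumberField.of_module_finite K _, h1⟩

theorem isCyclic_of_le_left (F₁ : IntermediateField K Ω) [Normal K F₁] {L : IntermediateField K Ω}
    (h : F₁ ≤ L) : IsCyclic (L.fixingSubgroup.map (AlgEquiv.restrictNormalHom F₁)) := by
  have h1 : L.fixingSubgroup.map (AlgEquiv.restrictNormalHom F₁) = ⊥ := by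
    rw [Subgroup.map_eq_bot_iff, IntermediateField.restrictNormalHom_ker]
    exact IntermediateField.fixingSubgroup_antitone h
  rw [h1]
  infer_instance

/-- An automorphism over a number field `L` is also an automorphism over a number field
containing `L` whose Galois group acts on `F₁` through a cyclic group. -/
theorem exists_cyclic (F₁ : IntermediateField K Ω) [NumberField F₁] [Normal K F₁]
    (L : IntermediateField K Ω) [NumberField L] (σ : Ω ≃ₐ[K] Ω) (hσ : σ ∈ L.fixingSubgroup) :
    ∃ (L' : IntermediateField K Ω) (_ : NumberField L'), L ≤ L' ∧ σ ∈ L'.fixingSubgroup ∧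
      IsCyclic (L'.fixingSubgroup.map (AlgEquiv.restrictNormalHom F₁)) := by
  have h1 : FiniteDimensional K L := H1Relation.finite_of_numberField L
  have h2 : FiniteDimensional K F₁ := H1Relation.finite_of_numberField F₁
  let Z : Subgroup (F₁ ≃ₐ[K] F₁) := Subgroup.zpowers (AlgEquiv.restrictNormalHom F₁ σ)
  let D : Subgroup (Ω ≃ₐ[K] Ω) := L.fixingSubgroup ⊓ Z.comap (AlgEquiv.restrictNormalHom F₁)
  have hD1 : F₁.fixingSubgroup ≤ Z.comap (AlgEquiv.restrictNormalHom F₁) := by
    rw [← IntermediateField.restrictNormalHom_ker]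
    exact Subgroup.ker_le_comap _ _
  have hD : IsOpen (D : Set (Ω ≃ₐ[K] Ω)) :=
    L.fixingSubgroup_isOpen.inter (Subgroup.isOpen_mono hD1 F₁.fixingSubgroup_isOpen)
  have hσD : σ ∈ D := ⟨hσ, Subgroup.mem_zpowers _⟩
  obtain ⟨hNF, hfix⟩ := fixedField_of_isOpen D hD
  refine ⟨IntermediateField.fixedField D, hNF, ?_, ?_, ?_⟩
  · rw [IntermediateField.le_iff_le]
    exact inf_le_left
  · rw [hfix]
    exact hσD
  · rw [hfix]
    have hle : D.map (AlgEquiv.restrictNormalHom F₁) ≤ Z :=
      (Subgroup.map_mono inf_le_right).trans (Subgroup.map_comap_le _ _)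
    exact isCyclic_of_injective (Subgroup.inclusion hle) (Subgroup.inclusion_injective hle)

/-- an automorphism lies in an open subgroup of index divisible by a given prime -/
theorem exists_prime (τ : Ω ≃ₐ[K] Ω) (q : ℕ) [Fact q.Prime] :
    ∃ D : Subgroup (Ω ≃ₐ[K] Ω), IsOpen (D : Set (Ω ≃ₐ[K] Ω)) ∧ τ ∈ D ∧ q ∣ D.index := by
  have hq : q.Prime := Fact.out
  obtain ⟨C, hCn, hCo, hCi, hCp⟩ := exists_quot K Ω q
  refine ⟨C ⊔ Subgroup.zpowers τ, Subgroup.isOpen_mono le_sup_left hCo,
    (le_sup_right : Subgroup.zpowers τ ≤ C ⊔ Subgroup.zpowers τ) (Subgroup.mem_zpowers τ), ?_⟩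
  have hdvd : (C ⊔ Subgroup.zpowers τ).index ∣ q ^ 2 := by
    rw [← hCi]
    exact Subgroup.index_dvd_of_le le_sup_left
  obtain ⟨k, hk, hk'⟩ := (Nat.dvd_prime_pow hq).1 hdvd
  rcases Nat.eq_zero_or_pos k with rfl | hk0
  · exfalso
    rw [pow_zero, Subgroup.index_eq_one] at hk'
    have hcyc : ∀ y : (Ω ≃ₐ[K] Ω) ⧸ C, y ∈ Subgroup.zpowers (QuotientGroup.mk' C τ) := by
      intro y
      obtain ⟨g, rfl⟩ := QuotientGroup.mk'_surjective C y
      have hg : g ∈ C ⊔ Subgroup.zpowers τ := by rw [hk']; trivial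
      obtain ⟨c, hc, z, hz, rfl⟩ := Subgroup.mem_sup_of_normal_left.1 hg
      obtain ⟨k, rfl⟩ := Subgroup.mem_zpowers_iff.1 hz
      rw [map_mul, map_zpow]
      have : QuotientGroup.mk' C c = 1 := (QuotientGroup.eq_one_iff c).2 hc
      rw [this, one_mul]
      exact Subgroup.zpow_mem_zpowers _ k
    have hcard : Nat.card ((Ω ≃ₐ[K] Ω) ⧸ C) = orderOf (QuotientGroup.mk' C τ) := by
      rw [← Nat.card_zpowers]
      have : Subgroup.zpowers (QuotientGroup.mk' C τ) = ⊤ := by
        rw [eq_top_iff]
        intro y _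
        exact hcyc y
      rw [this, Subgroup.card_top]
    have hord : orderOf (QuotientGroup.mk' C τ) ≤ q := by
      apply orderOf_le_of_pow_eq_one hq.pos
      rw [← map_pow]
      exact (QuotientGroup.eq_one_iff _).2 (hCp τ)
    have h1 : C.index = Nat.card ((Ω ≃ₐ[K] Ω) ⧸ C) := rfl
    have h2 := hq.two_le
    nlinarith
  · rw [hk']
    exact dvd_pow_self q hk0.ne'

/-- The fixed field of one automorphism has finite subextensions of degree divisible by any given
number. -/
theorem exists_big_dvd (L : IntermediateField K Ω) [NumberField L] (σ : Ω ≃ₐ[K] Ω)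
    (hσ : σ ∈ L.fixingSubgroup) (N : ℕ) (hN : 0 < N) :
    ∃ (L' : IntermediateField K Ω) (_ : NumberField L'),
      L ≤ L' ∧ σ ∈ L'.fixingSubgroup ∧ N ∣ Module.finrank K L' := by
  induction N using induction_on_primes with
  | zero => exact absurd hN (lt_irrefl 0)
  | one => exact ⟨L, inferInstance, le_rfl, hσ, one_dvd _⟩
  | prime_mul q N hq ih =>
    obtain ⟨L', hL', hLL', hσ', hN'⟩ := ih (Nat.pos_of_mul_pos_left hN)
    have := Fact.mk hq
    let τ : Ω ≃ₐ[L'] Ω := IntermediateField.fixingSubgroupEquiv L' ⟨σ, hσ'⟩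
    obtain ⟨D, hD, hτ, hdvd⟩ := exists_prime (K := L') τ q
    obtain ⟨hNF, hfix⟩ := fixedField_of_isOpen (K := L') D hD
    have hgal := H1Relation.isGalois (K := L') (Ω := Ω)
    refine ⟨(IntermediateField.fixedField D).restrictScalars K, hNF, ?_, ?_, ?_⟩
    · intro x hx
      exact (IntermediateField.fixedField D).algebraMap_mem (⟨x, hLL' hx⟩ : L')
    · rintro ⟨x, hx⟩
      exact hx ⟨τ, hτ⟩
    · have h1 : Module.finrank L' (IntermediateField.fixedField D) = D.index := by
        rw [IntermediateField.finrank_eq_fixingSubgroup_index, hfix]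
      have h2 : Module.finrank K L' * Module.finrank L' (IntermediateField.fixedField D) =
          Module.finrank K (IntermediateField.fixedField D) :=
        Module.finrank_mul_finrank K L' (IntermediateField.fixedField D)
      have h3 : Module.finrank K ((IntermediateField.fixedField D).restrictScalars K) =
          Module.finrank K (IntermediateField.fixedField D) := rfl
      rw [h3, ← h2, h1, mul_comm q N]
      exact mul_dvd_mul hN' hdvd

/-- There is a totally complex number field of degree divisible by `N` containing three given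
ones. -/
theorem exists_large (L F F₁ : IntermediateField K Ω) [NumberField L] [NumberField F]
    [NumberField F₁] (N : ℕ) (hN : 0 < N) :
    ∃ (L' : IntermediateField K Ω) (_ : NumberField L'), L ≤ L' ∧ F ≤ L' ∧ F₁ ≤ L' ∧
      NumberField.IsTotallyComplex L' ∧ N ∣ Module.finrank K L' := by
  obtain ⟨x, hx⟩ := IsAlgClosed.exists_pow_nat_eq (-1 : Ω) (n := 2) (by norm_num)
  have h1 := H1Relation.finite_of_numberField L
  have h2 := H1Relation.finite_of_numberField F
  have h2' := H1Relation.finite_of_numberField F₁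
  have h3 : FiniteDimensional K (IntermediateField.adjoin K {x}) :=
    IntermediateField.adjoin.finiteDimensional (Algebra.IsIntegral.isIntegral x)
  let M : IntermediateField K Ω := L ⊔ F ⊔ F₁ ⊔ IntermediateField.adjoin K {x}
  have h4 : FiniteDimensional K M := inferInstance
  have h5 : NumberField M := NumberField.of_module_finite K _
  obtain ⟨L', hL', hM, -, hN⟩ := exists_big_dvd M 1 (one_mem _) N hN
  refine ⟨L', hL', ((le_sup_left.trans le_sup_left).trans le_sup_left).trans hM,
    ((le_sup_right.trans le_sup_left).trans le_sup_left).trans hM,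
    (le_sup_right.trans le_sup_left).trans hM, ?_, hN⟩
  have hx' : x ∈ L' := hM (le_sup_right (a := L ⊔ F ⊔ F₁)
    (IntermediateField.mem_adjoin_simple_self K x))
  refine tc_of_sq (⟨x, hx'⟩ : L') ?_
  ext
  simp [hx]

/-- Finiteness of the Selmer group descends. -/
theorem finite_of_le {p : ℕ} [Fact p.Prime] {n : ℕ}
    (ρ : (Ω ≃ₐ[K] Ω) →* Matrix (Fin n) (Fin n) ℚ_[p]) (hρ : Continuous ρ)
    (B : PeriodData (Ω ≃ₐ[K] Ω) (𝓞 Ω) p) (L L' : IntermediateField K Ω) [NumberField L]
    [NumberField L'] (hL : L ≤ L')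
    (h : Module.Finite ℚ_[p] (H1f (ρ.comp (resHom K L' Ω)) (B.res L'))) :
    Module.Finite ℚ_[p] (H1f (ρ.comp (resHom K L Ω)) (B.res L)) := by
  have hinst : ∀ b : Bool, NumberField (cond b L L' : IntermediateField K Ω) := by
    rintro (_ | _)
    · exact inferInstanceAs (NumberField L')
    · exact inferInstanceAs (NumberField L)
  obtain ⟨W, _, _, τ, N, hN1, hN2, hN3, hN4, hE, -⟩ :=
    H1Relation.exists_fixed ρ hρ B (ι := Bool) (fun b => cond b L L')
  obtain ⟨e⟩ := hE true
  obtain ⟨e'⟩ := hE false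
  have h1 : Module.Finite ℚ_[p] (fixedSub τ L'.fixingSubgroup) :=
    @Module.Finite.equiv _ _ _ _ _ _ _ _ h e'
  have h2 : fixedSub τ L.fixingSubgroup ≤ fixedSub τ L'.fixingSubgroup :=
    fun w hw g hg => hw g (IntermediateField.fixingSubgroup_antitone hL hg)
  have h3 : Module.Finite ℚ_[p] (fixedSub τ L.fixingSubgroup) :=
    Module.Finite.of_injective (Submodule.inclusion h2) (Submodule.inclusion_injective h2)
  exact @Module.Finite.equiv _ _ _ _ _ _ _ _ h3 e.symm

end Galois

end ReductionLocal

section Main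

variable (K : Type) [Field K] [NumberField K] (Ω : Type) [Field Ω] [Algebra K Ω] [IsAlgClosed Ω]
  [Algebra.IsAlgebraic K Ω]

open ReductionLocal in
theorem reduction_local (V : LSystem (Ω ≃ₐ[K] Ω))
    (B : ∀ (p : ℕ) [Fact p.Prime], PeriodData (Ω ≃ₐ[K] Ω) (𝓞 Ω) p)
    (F : IntermediateField K Ω) [NumberField F] [Normal K F]
    (F₁ : IntermediateField K Ω) [NumberField F₁] [Normal K F₁]
    (T : Set (HeightOneSpectrum (𝓞 K))) (hT : T.Finite) (N : ℕ) (hN : 0 < N)
    (h : ∀ (L : IntermediateField K Ω) [NumberField L], NumberField.IsTotallyComplex L →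
      LocTriv F T L → N ∣ Module.finrank K L →
        IsCyclic (L.fixingSubgroup.map (AlgEquiv.restrictNormalHom F₁)) →
          ∃ m : ℕ, 0 < m ∧ BKInd K L Ω V B m)
    {ι : Type} [Fintype ι] (E : ι → IntermediateField K Ω) [∀ i, NumberField (E i)]
    (hE : ∀ i, ∃ m : ℕ, 0 < m ∧ BKInd K (E i) Ω V B m)
    (L : IntermediateField K Ω) [NumberField L] (n : ℕ) (hn : 0 < n) (a : ι → ℤ)
    (ha : ∀ σ : Ω ≃ₐ[K] Ω, IsConj σ ∨ IsLoc F T σ →
      (n : ℤ) * (fixEmb σ L : ℤ) = ∑ i, a i * (fixEmb σ (E i) : ℤ)) :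
    ∃ m : ℕ, 0 < m ∧ BKInd K L Ω V B m := by
  have hgal := H1Relation.isGalois (K := K) (Ω := Ω)
  -- Artin's formula
  obtain ⟨M, κ, _, C, b, hM, hC, hrel⟩ := artin_compact (G := Ω ≃ₐ[K] Ω)
    (fun U => ∃ L' : IntermediateField K Ω, NumberField L' ∧
      NumberField.IsTotallyComplex L' ∧ LocTriv F T L' ∧ N ∣ Module.finrank K L' ∧
        IsCyclic (L'.fixingSubgroup.map (AlgEquiv.restrictNormalHom F₁)) ∧
          U ≤ L'.fixingSubgroup)
    (fun H H' hHH' ⟨L', h1, h2, h3, h4, h5, h6⟩ => ⟨L', h1, h2, h3, h4, h5, hHH'.trans h6⟩)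
    (ι := Option ι) (fun o => o.elim L.fixingSubgroup fun i => (E i).fixingSubgroup)
    (by
      rintro (_ | i)
      · have : FiniteDimensional K L := H1Relation.finite_of_numberField L
        exact L.fixingSubgroup_isOpen
      · have : FiniteDimensional K (E i) := H1Relation.finite_of_numberField (E i)
        exact (E i).fixingSubgroup_isOpen)
    (fun o => o.elim (n : ℤ) fun i => - a i)
    (by
      intro g hg
      have hbad : IsConj g ∨ IsLoc F T g := by
        refine BadLocalFine.core (fun σ Q Q' => two_primes σ Q Q') F T hT g fun L₀ _ h0 ⟨h1, h2⟩ => ?_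
        obtain ⟨L₁, _, hle₁, hg₁, hcyc⟩ := exists_cyclic F₁ L₀ g h0
        obtain ⟨L', hL', hle₂, hgL', hN'⟩ := ReductionLocal.exists_big_dvd L₁ g hg₁ N hN
        have hle : L₀ ≤ L' := hle₁.trans hle₂
        have : FiniteDimensional K L' := H1Relation.finite_of_numberField L'
        exact hg L'.fixingSubgroup L'.fixingSubgroup_isOpen hgL' ⟨L', hL', tc_of_le hle h1,
          locTriv_of_le hle h2, hN', isCyclic_of_le F₁ hle₂ hcyc, le_rfl⟩
      have hrel := ha g hbad
      rw [fixEmb_eq] at hrel
      rw [Fintype.sum_option]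
      simp only [Option.elim]
      rw [hrel, ← Finset.sum_add_distrib]
      refine Finset.sum_eq_zero fun i _ => ?_
      rw [fixEmb_eq]
      ring)
  simp only [Fintype.sum_option, Option.elim] at hrel
  -- the fields fixed by the subgroups
  have hF : ∀ j, NumberField (IntermediateField.fixedField (C j)) := fun j =>
    (fixedField_of_isOpen (C j) (hC j).1).1
  have hFix : ∀ j, (IntermediateField.fixedField (C j)).fixingSubgroup = C j := fun j =>
    (fixedField_of_isOpen (C j) (hC j).1).2
  have hFbk : ∀ j, ∃ m : ℕ, 0 < m ∧ BKInd K (IntermediateField.fixedField (C j)) Ω V B m := by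
    intro j
    obtain ⟨L', _, h2, h3, h4, h5, h6⟩ := (hC j).2
    have hle : L' ≤ IntermediateField.fixedField (C j) := (IntermediateField.le_iff_le _ _).2 h6
    exact h _ (tc_of_le hle h2) (locTriv_of_le hle h3) (h4.trans (finrank_dvd hle))
      (isCyclic_of_le F₁ hle h5)
  have hfin : ∀ (p : ℕ) [Fact p.Prime],
      Module.Finite ℚ_[p] (H1f ((V.res L).rep p) ((B p).res L)) := by
    intro p _
    obtain ⟨L₁, _, h1, h2, h2', h3, h4⟩ := exists_large L F F₁ N hN
    obtain ⟨m, hm, P, hP, σ₀, U, Λ, hU, hσU, hUt, hΛ, hprod, hord⟩ :=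
      h L₁ h3 (locTriv_of_le_right T h2) h4 (isCyclic_of_le_left F₁ h2')
    exact finite_of_le (V.rep p) (V.cont p) (B p) L L₁ h1 (hord p).1
  have hinst : ∀ x : ι ⊕ κ, NumberField
      (Sum.elim E (fun j => IntermediateField.fixedField (C j)) x : IntermediateField K Ω) := by
    rintro (i | j)
    · exact inferInstanceAs (NumberField (E i))
    · exact hF j
  refine rel_ind K Ω V B (Sum.elim E fun j => IntermediateField.fixedField (C j))
    (Sum.elim (fun i => (M : ℤ) * a i) b) L (M * n) (Nat.mul_pos hM hn) ?_ ?_ hfin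
  · intro g
    rw [Fintype.sum_sum_type]
    simp only [Sum.elim_inl, Sum.elim_inr]
    have h1 := hrel g
    have h2 : ∑ j, b j * (fixCount (IntermediateField.fixedField (C j)).fixingSubgroup g : ℤ) =
        ∑ j, b j * (fixCount (C j) g : ℤ) :=
      Finset.sum_congr rfl fun j _ => by rw [hFix j]
    rw [h2, ← h1]
    push_cast
    rw [mul_add, Finset.mul_sum]
    have h3 : ∑ i, (M : ℤ) * a i * (fixCount (E i).fixingSubgroup g : ℤ) +
        ∑ i, (M : ℤ) * (- a i * (fixCount (E i).fixingSubgroup g : ℤ)) = 0 := by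
      rw [← Finset.sum_add_distrib]
      exact Finset.sum_eq_zero fun i _ => by ring
    linear_combination -h3
  · rintro (i | j)
    · exact hE i
    · exact hFbk j

end Main

end Pool.BK
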