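import Pool.Agent.BK.Frob
import Pool.Agent.BK.LocalTrace
import Pool.Agent.BK.H1Relation
import Pool.Agent.BK.HasProdLocal
import Pool.Agent.BK.Analytic

/-!
The order of vanishing formula over the base field follows from the formula over the fields in a
relation between permutation characters with right side `1`.
-/

open scoped Pointwise NumberField
open Polynomial IsDedekindDomain

namespace Pool.BK

section Main

variable (K : Type) [Field K] [NumberField K] (Ω : Type) [Field Ω] [Algebra K Ω] [IsAlgClosed Ω]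
  [Algebra.IsAlgebraic K Ω]

namespace RelBase

lemma localProd_map {K L : Type} [Field K] [Field L] [Algebra K L] [NumberField K]
    [NumberField L] {F F' : Type} [Field F] [Field F'] (i : F →+* F')
    (v : HeightOneSpectrum (𝓞 K)) (P : HeightOneSpectrum (𝓞 L) → F[X]) :
    (localProd K L v P).map i = localProd K L v (fun w => (P w).map i) := by
  have := HasProdLocal.finite_placesOver' K L v
  have := Fintype.ofFinite (PlacesOver K L v)
  rw [localProd, localProd, finprod_eq_prod_of_fintype, finprod_eq_prod_of_fintype,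
    Polynomial.map_prod]
  refine Finset.prod_congr rfl fun w _ => ?_
  rw [Polynomial.map_expand]

variable {K Ω}

/-- an Euler family gives local families for all primes not below the place -/
lemma localFamily {V : LSystem (Ω ≃ₐ[K] Ω)} {E : IntermediateField K Ω} [NumberField E]
    {P : HeightOneSpectrum (𝓞 E) → ℚ[X]} (hP : IsEulerFamily E Ω (V.res E) P)
    (v : HeightOneSpectrum (𝓞 K)) (l : ℕ) [Fact l.Prime] (hl : (l : 𝓞 K) ∉ v.asIdeal) :
    IsLocalFamily E (V.rep l) v (fun w => (P w).map (algebraMap ℚ ℚ_[l])) := by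
  intro w hw Q hQ hQw φ hφ
  refine hP w l ?_ Q hQ hQw φ hφ
  intro h
  apply hl
  rw [← hw, Ideal.under_def, Ideal.mem_comap]
  simpa using h

/-- for every place there is a prime number not below it -/
lemma exists_prime (v : HeightOneSpectrum (𝓞 K)) :
    ∃ l : ℕ, ∃ _ : Fact l.Prime, (l : 𝓞 K) ∉ v.asIdeal := by
  by_cases h : ((2 : ℕ) : 𝓞 K) ∈ v.asIdeal
  · refine ⟨3, ⟨Nat.prime_three⟩, fun h3 => v.isPrime.ne_top ?_⟩
    rw [Ideal.eq_top_iff_one]
    have : (1 : 𝓞 K) = ((3 : ℕ) : 𝓞 K) - ((2 : ℕ) : 𝓞 K) := by norm_num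
    rw [this]
    exact sub_mem h3 h
  · exact ⟨2, ⟨Nat.prime_two⟩, h⟩

/-- the Euler product of the base field -/
lemma hasProd_core {ι : Type} [Fintype ι] (E : ι → IntermediateField K Ω)
    [∀ i, NumberField (E i)] (a : ι → ℤ) (P : ∀ i, HeightOneSpectrum (𝓞 (E i)) → ℚ[X])
    (A C P0 : HeightOneSpectrum (𝓞 K) → ℚ[X])
    (hA : ∀ v, A v = ∏ i, (localProd K (E i) v (P i)) ^ (a i).toNat)
    (hC : ∀ v, C v = ∏ i, (localProd K (E i) v (P i)) ^ (-(a i)).toNat)
    (hP0 : ∀ v, A v = C v * P0 v) (s : ℂ) (z : ι → ℂ) (hz : ∀ i, z i ≠ 0)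
    (hzp : ∀ i, HasProd (eulerFactor (E i) (P i) s) (z i)) :
    HasProd (eulerFactor K P0 s) (∏ i, z i ^ a i) := by
  have h1 := hasProd_zpow (fun i (v : HeightOneSpectrum (𝓞 K)) =>
    (aeval ((v.asIdeal.absNorm : ℂ) ^ (-s)) (localProd K (E i) v (P i)))⁻¹) z hz
    (fun i => hasProd_localProd K (E i) (P i) s (z i) (hzp i)) a
  convert h1 using 1
  ext v
  rw [eulerFactor]
  set x : ℂ := (v.asIdeal.absNorm : ℂ) ^ (-s) with hx
  have hne : ∀ i, aeval x (localProd K (E i) v (P i)) ≠ 0 := by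
    intro i h0
    have := ne_zero_of_hasProd (hasProd_localProd K (E i) (P i) s (z i) (hzp i)) (hz i) v
    rw [← hx, h0, inv_zero] at this
    exact this rfl
  have h2 : aeval x (A v) = aeval x (C v) * aeval x (P0 v) := by rw [hP0 v, map_mul]
  have h3 : aeval x (C v) ≠ 0 := by
    rw [hC, map_prod]
    refine Finset.prod_ne_zero_iff.2 fun i _ => ?_
    rw [map_pow]
    exact pow_ne_zero _ (hne i)
  have h4 : aeval x (P0 v) = ∏ i, aeval x (localProd K (E i) v (P i)) ^ a i := by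
    have h5 : aeval x (P0 v) = aeval x (A v) / aeval x (C v) := by
      rw [h2, mul_div_cancel_left₀ _ h3]
    rw [h5, hA, hC, map_prod, map_prod, ← Finset.prod_div_distrib]
    refine Finset.prod_congr rfl fun i _ => ?_
    rw [map_pow, map_pow, ← zpow_natCast, ← zpow_natCast, ← zpow_sub₀ (hne i)]
    congr 1
    omega
  rw [h4, ← Finset.prod_inv_distrib]
  refine Finset.prod_congr rfl fun i _ => ?_
  rw [inv_zpow]

end RelBase

open RelBase

theorem rel_base (V : LSystem (Ω ≃ₐ[K] Ω))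
    (B : ∀ (p : ℕ) [Fact p.Prime], PeriodData (Ω ≃ₐ[K] Ω) (𝓞 Ω) p) {ι : Type} [Fintype ι]
    (E : ι → IntermediateField K Ω) [∀ i, NumberField (E i)] (a : ι → ℤ)
    (ha : ∀ g : Ω ≃ₐ[K] Ω, ∑ i, a i * (fixCount (E i).fixingSubgroup g : ℤ) = 1)
    (h : ∀ i, BKHolds (E i) Ω (V.res (E i)) (fun p _ => (B p).res (E i))) :
    BKHolds K Ω V B := by
  classical
  -- the index type is not empty
  have hne : Nonempty ι := by
    by_contra hcon
    rw [not_nonempty_iff] at hcon
    have := ha 1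
    simp at this
  choose P hP σ U Λ hUo hUσ hUr hmer hprod hord using h
  -- the local relation over `ℚ`
  let A : HeightOneSpectrum (𝓞 K) → ℚ[X] := fun v =>
    ∏ i, (localProd K (E i) v (P i)) ^ (a i).toNat
  let C : HeightOneSpectrum (𝓞 K) → ℚ[X] := fun v =>
    ∏ i, (localProd K (E i) v (P i)) ^ (-(a i)).toNat
  have key : ∀ (v : HeightOneSpectrum (𝓞 K)) (l : ℕ) [Fact l.Prime] (hl : (l : 𝓞 K) ∉ v.asIdeal)
      (Q : Ideal (𝓞 Ω)) (hQ : Q.IsPrime) (hQv : Q.under (𝓞 K) = v.asIdeal) (φ : Ω ≃ₐ[K] Ω)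
      (hφ : ∀ x : 𝓞 Ω, φ • x - x ^ v.asIdeal.absNorm ∈ Q),
      eulerPoly (V.rep l) Q φ * (C v).map (algebraMap ℚ ℚ_[l]) =
        (A v).map (algebraMap ℚ ℚ_[l]) ∧ ∀ i, (localProd K (E i) v (P i)).coeff 0 = 1 := by
    intro v l _ hl Q hQ hQv φ hφ
    obtain ⟨h1, h2⟩ := local_relation (V.rep l) v Q hQ hQv φ hφ E a 1 (by simpa using ha)
      (fun i w => (P i w).map (algebraMap ℚ ℚ_[l])) (fun i => localFamily (hP i) v l hl)
    simp only [← localProd_map, pow_one] at h1 h2
    refine ⟨?_, fun i => ?_⟩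
    · simp only [A, C, Polynomial.map_prod, Polynomial.map_pow]
      exact h1
    · have := h2 i
      rw [coeff_map] at this
      exact (algebraMap ℚ ℚ_[l]).injective (by rw [this, map_one])
  have hc0 : ∀ v i, (localProd K (E i) v (P i)).coeff 0 = 1 := by
    intro v
    obtain ⟨l, hl, hlv⟩ := exists_prime v
    obtain ⟨Q, hQ, hQv⟩ := exists_over (Ω := Ω) v
    obtain ⟨φ, hφ⟩ := exists_frob v Q hQ hQv
    exact (key v l hlv Q hQ hQv φ hφ).2
  have hCne : ∀ v, C v ≠ 0 := by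
    intro v
    refine Finset.prod_ne_zero_iff.2 fun i _ => pow_ne_zero _ fun h0 => ?_
    have := hc0 v i
    rw [h0] at this
    simp at this
  have hdvd : ∀ v, C v ∣ A v := by
    intro v
    obtain ⟨l, hl, hlv⟩ := exists_prime v
    obtain ⟨Q, hQ, hQv⟩ := exists_over (Ω := Ω) v
    obtain ⟨φ, hφ⟩ := exists_frob v Q hQ hQv
    rw [← Polynomial.map_dvd_map' (algebraMap ℚ ℚ_[l])]
    exact ⟨_, by rw [← (key v l hlv Q hQ hQv φ hφ).1, mul_comm]⟩
  choose P0 hP0 using hdvd
  have hfam : IsEulerFamily K Ω V P0 := by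
    intro v l _ hl Q hQ hQv φ hφ
    have h1 := (key v l hl Q hQ hQv φ hφ).1
    rw [hP0 v, Polynomial.map_mul, mul_comm] at h1
    exact mul_left_cancel₀ ((Polynomial.map_ne_zero_iff (algebraMap ℚ ℚ_[l]).injective).2 (hCne v)) h1
  let σ0 : ℝ := Finset.univ.sup' Finset.univ_nonempty σ
  have hσ0 : ∀ i, σ i ≤ σ0 := fun i => Finset.le_sup' σ (Finset.mem_univ i)
  refine ⟨P0, hfam, σ0, ⋂ i, U i, fun s => ∏ i, Λ i s ^ a i, isOpen_iInter_of_finite hUo,
    ?_, ?_, ?_, ?_, ?_⟩
  · intro s hs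
    refine Set.mem_iInter.2 fun i => hUσ i ?_
    exact lt_of_le_of_lt (hσ0 i) hs
  · intro t ht
    exact Set.mem_iInter.2 fun i => hUr i t ht
  · intro s hs
    have hmi : ∀ i, MeromorphicAt (Λ i) s := fun i => hmer i s (Set.mem_iInter.1 hs i)
    exact MeromorphicAt.fun_prod fun i _ => (hmi i).fun_zpow (a i)
  · intro s hs
    have hs' : ∀ i, σ i < s.re := fun i => lt_of_le_of_lt (hσ0 i) hs
    choose z hz hzp hzΛ using fun i => hprod i s (hs' i)
    refine ⟨∏ i, z i ^ a i, Finset.prod_ne_zero_iff.2 fun i _ => zpow_ne_zero _ (hz i), ?_, ?_⟩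
    · exact hasProd_core E a P A C P0 (fun _ => rfl) (fun _ => rfl) hP0 s z hz hzp
    · simp only [pow_one]
      exact Finset.prod_congr rfl fun i _ => by rw [hzΛ i, pow_one]
  · intro p _
    have hfin : ∀ i, Module.Finite ℚ_[p] (H1f ((V.rep p).comp (resHom K (E i) Ω))
        ((B p).res (E i))) := fun i => (hord i p).1
    have hfin0 : Module.Finite ℚ_[p] (H1f (V.rep p) (B p)) :=
      finite_H1f (V.rep p) (V.cont p) (B p) (E hne.some) (hfin _)
    refine ⟨hfin0, ?_⟩
    have h1 := h1_relation (V.rep p) (V.cont p) (B p) E a 1 ha hfin hfin0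
    have h0 := h0_relation (V.rep p) E a 1 ha
    have h2 := (order_prod_zpow Λ 0
      (fun i => hmer i 0 (by simpa using hUr i 0 le_rfl)) a _ (fun i => (hord i p).2)).2
    rw [h2]
    congr 1
    rw [one_mul] at h1 h0
    push_cast
    rw [one_mul, ← h1, ← h0, ← Finset.sum_sub_distrib]
    refine Finset.sum_congr rfl fun i _ => ?_
    rw [one_mul, mul_sub]
    rfl

end Main

end Pool.BK
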