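import Pool.Agent.Helper95.BK.Defs2

/-!
Solomon's induction theorem: the trivial character of a finite group is an integral combination
of the permutation characters on the cosets of its hyperelementary subgroups.
-/

namespace Pool.BK

/-- A (finite) group is hyperelementary if, for some prime `p`, it has a cyclic normal subgroup
`C` of order prime to `p` such that every element has a `p`-power power in `C`, that is, such
that the quotient by `C` is a `p`-group. -/
def IsHyperelementary (Γ : Type) [Group Γ] : Prop :=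
  ∃ p : ℕ, p.Prime ∧ ∃ C : Subgroup Γ, C.Normal ∧ IsCyclic C ∧ (Nat.card C).Coprime p ∧
    ∀ g : Γ, ∃ k : ℕ, g ^ p ^ k ∈ C

namespace Solomon

theorem of_injective {Γ Γ' : Type} [Group Γ] [Group Γ'] (f : Γ' →* Γ)
    (hf : Function.Injective f) (h : IsHyperelementary Γ) : IsHyperelementary Γ' := by
  obtain ⟨p, hp, C, hn, hc, hcop, hg⟩ := h
  refine ⟨p, hp, C.comap f, inferInstance, ?_, ?_, fun g => ?_⟩
  · have hinj : Function.Injective (f.subgroupComap C) := by
      intro a b hab
      apply Subtype.ext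
      apply hf
      exact congrArg Subtype.val hab
    exact isCyclic_of_injective (f.subgroupComap C) hinj
  · have hinj : Function.Injective (f.subgroupComap C) := by
      intro a b hab
      apply Subtype.ext
      apply hf
      exact congrArg Subtype.val hab
    exact Nat.Coprime.coprime_dvd_left (Subgroup.card_dvd_of_injective _ hinj) hcop
  · obtain ⟨k, hk⟩ := hg (f g)
    refine ⟨k, ?_⟩
    rw [Subgroup.mem_comap, map_pow]
    exact hk

theorem card_eq_of_fibres {S A B : Type} (u : S → A) (v : S → B) (hu : Function.Surjective u)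
    (hv : Function.Surjective v) (h : ∀ s t, u s = u t ↔ v s = v t) : Nat.card A = Nat.card B := by
  refine Nat.card_congr (Equiv.ofBijective (fun a => v (Function.surjInv hu a)) ⟨?_, ?_⟩)
  · intro a b hab
    have := (h _ _).2 hab
    rwa [Function.surjInv_eq hu, Function.surjInv_eq hu] at this
  · intro b
    obtain ⟨s, rfl⟩ := hv b
    exact ⟨u s, (h _ _).1 (Function.surjInv_eq hu _)⟩

/-- the character of a finite `G`-set is a sum of coset characters of point stabilisers -/
theorem card_fixedBy {G X : Type} [Group G] [MulAction G X] [Finite X] [Finite G] (g : G) :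
    (Nat.card (MulAction.fixedBy X g) : ℤ) =
      ∑ᶠ ω : MulAction.orbitRel.Quotient G X,
        (fixCount (MulAction.stabilizer G ω.out) g : ℤ) := by
  classical
  have e : MulAction.fixedBy X g ≃ Σ ω : MulAction.orbitRel.Quotient G X,
      MulAction.fixedBy (G ⧸ MulAction.stabilizer G ω.out) g := by
    symm
    refine Equiv.ofBijective (fun s => ⟨MulAction.ofQuotientStabilizer G s.1.out s.2.1, ?_⟩)
      ⟨?_, ?_⟩
    · have := s.2.2
      rw [MulAction.mem_fixedBy] at this ⊢
      rw [← MulAction.ofQuotientStabilizer_smul, this]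
    · rintro ⟨ω, a, ha⟩ ⟨ω', a', ha'⟩ h
      have h1 := congrArg Subtype.val h
      simp only at h1
      have h2 : ω = ω' := by
        obtain ⟨b, rfl⟩ := QuotientGroup.mk_surjective a
        obtain ⟨b', rfl⟩ := QuotientGroup.mk_surjective a'
        rw [MulAction.ofQuotientStabilizer_mk, MulAction.ofQuotientStabilizer_mk] at h1
        have h3 : (Quotient.mk'' (b • ω.out) : MulAction.orbitRel.Quotient G X) =
            Quotient.mk'' (b' • ω'.out) := by rw [h1]
        have h4 : ∀ (c : G) (w : MulAction.orbitRel.Quotient G X),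
            (Quotient.mk'' (c • w.out) : MulAction.orbitRel.Quotient G X) = w := by
          intro c w
          conv_rhs => rw [← Quotient.out_eq' w]
          exact Quotient.sound' (MulAction.mem_orbit _ _)
        rwa [h4, h4] at h3
      subst h2
      have h5 := MulAction.injective_ofQuotientStabilizer G ω.out h1
      subst h5
      rfl
    · rintro ⟨x, hx⟩
      let ω : MulAction.orbitRel.Quotient G X := Quotient.mk'' x
      have h1 : ω.out ∈ MulAction.orbit G x := by
        have : (Quotient.mk'' ω.out : MulAction.orbitRel.Quotient G X) = Quotient.mk'' x :=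
          Quotient.out_eq' ω
        exact Quotient.exact' this
      have h2 : x ∈ MulAction.orbit G ω.out := MulAction.mem_orbit_symm.1 h1
      obtain ⟨b, hb⟩ := h2
      refine ⟨⟨ω, ⟨(b : G ⧸ MulAction.stabilizer G ω.out), ?_⟩⟩, ?_⟩
      · rw [MulAction.mem_fixedBy]
        apply MulAction.injective_ofQuotientStabilizer G ω.out
        rw [MulAction.ofQuotientStabilizer_smul, MulAction.ofQuotientStabilizer_mk]
        simp only at hb
        rw [hb]
        exact hx
      · apply Subtype.ext
        simp only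
        rw [MulAction.ofQuotientStabilizer_mk]
        exact hb
  have : Fintype (MulAction.orbitRel.Quotient G X) := Fintype.ofFinite _
  rw [Nat.card_congr e, Nat.card_sigma, finsum_eq_sum_of_fintype]
  push_cast
  rfl

/-- the stabiliser of a pair of cosets of hyperelementary subgroups is hyperelementary -/
theorem stabilizer_pair {G : Type} [Group G] (H K : Subgroup G) (hH : IsHyperelementary H)
    (x : (G ⧸ H) × (G ⧸ K)) : IsHyperelementary (MulAction.stabilizer G x) := by
  obtain ⟨a, ha⟩ := QuotientGroup.mk_surjective x.1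
  have key : ∀ s : MulAction.stabilizer G x, a⁻¹ * (s : G) * a ∈ H := by
    intro s
    have h1 : (s : G) • x = x := s.2
    have h2 : (s : G) • x.1 = x.1 := congrArg Prod.fst h1
    rw [← ha] at h2
    have h3 : (((s : G) * a : G) : G ⧸ H) = a := h2
    rw [eq_comm, QuotientGroup.eq] at h3
    rwa [mul_assoc]
  let f : MulAction.stabilizer G x →* H :=
    { toFun := fun s => ⟨a⁻¹ * (s : G) * a, key s⟩
      map_one' := by
        apply Subtype.ext
        simp
      map_mul' := by
        intro s t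
        apply Subtype.ext
        simp only [Subgroup.coe_mul]
        group }
  refine of_injective f ?_ hH
  intro s t hst
  have h1 : a⁻¹ * (s : G) * a = a⁻¹ * (t : G) * a := congrArg Subtype.val hst
  apply Subtype.ext
  exact mul_left_cancel (mul_right_cancel h1)

/-- the coset characters of the hyperelementary subgroups -/
noncomputable def chars (G : Type) [Group G] (H : {H : Subgroup G // IsHyperelementary H}) :
    G → ℤ := fun g => (fixCount H.1 g : ℤ)

/-- their integral span -/
noncomputable def spn (G : Type) [Group G] : Submodule ℤ (G → ℤ) :=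
  Submodule.span ℤ (Set.range (chars G))

theorem mul_mem_spn {G : Type} [Group G] [Finite G] {f g : G → ℤ} (hf : f ∈ spn G)
    (hg : g ∈ spn G) : f * g ∈ spn G := by
  have h1 : f * g ∈ spn G * spn G := Submodule.mul_mem_mul hf hg
  have h2 : spn G * spn G ≤ spn G := by
    rw [spn, Submodule.span_mul_span, Submodule.span_le]
    rintro _ ⟨_, ⟨H, rfl⟩, _, ⟨K, rfl⟩, rfl⟩
    have h3 : chars G H * chars G K = fun g =>
        ∑ᶠ ω : MulAction.orbitRel.Quotient G ((G ⧸ H.1) × (G ⧸ K.1)),
          (fixCount (MulAction.stabilizer G ω.out) g : ℤ) := by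
      funext g
      rw [← card_fixedBy g]
      have e : MulAction.fixedBy ((G ⧸ H.1) × (G ⧸ K.1)) g ≃
          MulAction.fixedBy (G ⧸ H.1) g × MulAction.fixedBy (G ⧸ K.1) g :=
        { toFun := fun x => ⟨⟨x.1.1, congrArg Prod.fst x.2⟩, ⟨x.1.2, congrArg Prod.snd x.2⟩⟩
          invFun := fun x => ⟨⟨x.1.1, x.2.1⟩, Prod.ext x.1.2 x.2.2⟩
          left_inv := fun x => rfl
          right_inv := fun x => rfl }
      rw [Nat.card_congr e, Nat.card_prod]
      push_cast
      rfl
    have : Fintype (MulAction.orbitRel.Quotient G ((G ⧸ H.1) × (G ⧸ K.1))) := Fintype.ofFinite _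
    change chars G H * chars G K ∈ Submodule.span ℤ (Set.range (chars G))
    rw [h3]
    simp only [finsum_eq_sum_of_fintype]
    have h4 : (fun g => ∑ ω : MulAction.orbitRel.Quotient G ((G ⧸ H.1) × (G ⧸ K.1)),
          (fixCount (MulAction.stabilizer G ω.out) g : ℤ)) =
        ∑ ω : MulAction.orbitRel.Quotient G ((G ⧸ H.1) × (G ⧸ K.1)),
          chars G ⟨MulAction.stabilizer G ω.out, stabilizer_pair H.1 K.1 H.2 ω.out⟩ := by
      funext g
      rw [Finset.sum_apply]
      rfl
    rw [h4]
    exact Submodule.sum_mem _ fun ω _ => Submodule.subset_span ⟨_, rfl⟩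
  exact h2 h1

/-- Banaschewski's lemma -/
theorem one_mem_of_local {X : Type} [Finite X] (R : Submodule ℤ (X → ℤ))
    (hmul : ∀ f g, f ∈ R → g ∈ R → f * g ∈ R)
    (hloc : ∀ (x : X) (p : ℕ), p.Prime → ∃ f ∈ R, ¬ (p : ℤ) ∣ f x) : (1 : X → ℤ) ∈ R := by
  classical
  have hone : ∀ x : X, ∃ f ∈ R, f x = 1 := by
    intro x
    let I : Ideal ℤ := R.map (LinearMap.proj x)
    have hI : I = ⊤ := by
      by_contra hne
      obtain ⟨M, hM, hIM⟩ := Ideal.exists_le_maximal I hne
      have hprin := IsPrincipalIdealRing.principal M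
      obtain ⟨m, hm⟩ := hprin
      by_cases hm0 : m = 0
      · obtain ⟨f, hf, hfx⟩ := hloc x 2 Nat.prime_two
        have h1 : f x ∈ M := hIM ⟨f, hf, rfl⟩
        rw [hm, hm0] at h1
        have h2 : f x = 0 := by simpa using h1
        exact hfx (by rw [h2]; exact dvd_zero _)
      · have hprime : Prime m := by
          have : M.IsPrime := hM.isPrime
          rw [hm] at this
          exact (Ideal.span_singleton_prime hm0).1 this
        have hnp : (m.natAbs).Prime := Int.prime_iff_natAbs_prime.1 hprime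
        obtain ⟨f, hf, hfx⟩ := hloc x m.natAbs hnp
        have h1 : f x ∈ M := hIM ⟨f, hf, rfl⟩
        rw [hm] at h1
        have h2 : m ∣ f x := Ideal.mem_span_singleton.1 h1
        exact hfx (Int.natAbs_dvd.2 h2)
    have h1 : (1 : ℤ) ∈ I := by rw [hI]; trivial
    obtain ⟨f, hf, hfx⟩ := h1
    exact ⟨f, hf, hfx⟩
  choose f hf hfx using hone
  have : Fintype X := Fintype.ofFinite X
  have key : ∀ s : Finset X, (1 - ∏ x ∈ s, (1 - f x) : X → ℤ) ∈ R := by
    intro s
    induction s using Finset.induction_on with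
    | empty => simp
    | insert a s ha ih =>
      rw [Finset.prod_insert ha]
      have h1 : (1 - (1 - f a) * ∏ x ∈ s, (1 - f x) : X → ℤ) =
          f a + (1 - ∏ x ∈ s, (1 - f x)) - f a * (1 - ∏ x ∈ s, (1 - f x)) := by ring
      rw [h1]
      exact R.sub_mem (R.add_mem (hf a) ih) (hmul _ _ (hf a) ih)
  have h0 : (∏ x : X, (1 - f x) : X → ℤ) = 0 := by
    funext y
    rw [Finset.prod_apply]
    refine Finset.prod_eq_zero (Finset.mem_univ y) ?_
    rw [Pi.sub_apply, Pi.one_apply, hfx y, sub_self]
  have h1 := key Finset.univ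
  rw [h0, sub_zero] at h1
  exact h1

theorem exists_local {G : Type} [Group G] [Finite G] (x : G) (p : ℕ) (hp : p.Prime) :
    ∃ H : Subgroup G, IsHyperelementary H ∧ ¬ p ∣ fixCount H x := by
  classical
  have : Fact p.Prime := ⟨hp⟩
  have hn0 : orderOf x ≠ 0 := (orderOf_pos x).ne'
  obtain ⟨a, m, hm, ham⟩ := Nat.exists_eq_pow_mul_and_not_dvd hn0 p hp.ne_one
  let c : G := x ^ p ^ a
  let C : Subgroup G := Subgroup.zpowers c
  have hcm : orderOf c = m := by
    have h1 : orderOf c = orderOf x / p ^ a :=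
      orderOf_pow_of_dvd (pow_ne_zero _ hp.ne_zero) (by rw [ham]; exact dvd_mul_right _ _)
    rw [h1, ham, Nat.mul_div_cancel_left _ (pow_pos hp.pos _)]
  have hcardC : Nat.card C = m := by rw [Nat.card_zpowers, hcm]
  have hcop : (Nat.card C).Coprime p := by
    rw [hcardC, Nat.coprime_comm]
    exact (Nat.Prime.coprime_iff_not_dvd hp).2 hm
  have hcC : c ∈ C := Subgroup.mem_zpowers c
  let Nn : Subgroup G := Subgroup.normalizer (C : Set G)
  have hcomm : ∀ y ∈ C, x * y * x⁻¹ = y := by
    rintro y ⟨k, rfl⟩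
    have h1 : Commute x (c ^ k) := ((Commute.refl x).pow_right _).zpow_right k
    have h2 : x * c ^ k = c ^ k * x := h1
    change x * c ^ k * x⁻¹ = c ^ k
    rw [h2, mul_inv_cancel_right]
  have hxN : x ∈ Nn := by
    rw [Subgroup.mem_normalizer_iff]
    intro h
    constructor
    · intro hh
      rw [hcomm h hh]
      exact hh
    · intro hh
      have h1 := hcomm _ hh
      have h2 : x * h * x⁻¹ = h := by
        have h3 : x * (x * h * x⁻¹) * x⁻¹ = x * h * x⁻¹ := h1
        have h4 : x * h * x⁻¹ = h := mul_left_cancel (mul_right_cancel h3)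
        exact h4
      rwa [h2] at hh
  let C' : Subgroup Nn := C.subgroupOf Nn
  have hC'n : C'.Normal := Subgroup.normal_in_normalizer
  let Q := Nn ⧸ C'
  let xb : Q := QuotientGroup.mk ⟨x, hxN⟩
  have hxb : xb ^ p ^ a = 1 := by
    have h1 : xb ^ p ^ a = QuotientGroup.mk ((⟨x, hxN⟩ : Nn) ^ p ^ a) := rfl
    rw [h1, QuotientGroup.eq_one_iff]
    exact hcC
  have hpg : IsPGroup p (Subgroup.zpowers xb) := by
    rintro ⟨y, k, rfl⟩
    refine ⟨a, ?_⟩
    apply Subtype.ext
    change (xb ^ k) ^ p ^ a = 1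
    rw [← zpow_natCast, ← zpow_mul, mul_comm, zpow_mul, zpow_natCast, hxb, one_zpow]
  obtain ⟨P, hP⟩ := hpg.exists_le_sylow
  let H' : Subgroup Nn := (P : Subgroup Q).comap (QuotientGroup.mk' C')
  let H : Subgroup G := H'.map Nn.subtype
  have hHN : H ≤ Nn := by
    rintro _ ⟨y, -, rfl⟩
    exact y.2
  have hmemH : ∀ y : Nn, (y : G) ∈ H ↔ (QuotientGroup.mk y : Q) ∈ (P : Subgroup Q) := by
    intro y
    constructor
    · rintro ⟨z, hz, hzy⟩
      have : z = y := Subtype.ext hzy
      rw [← this]
      exact hz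
    · intro hy
      exact ⟨y, hy, rfl⟩
  -- an element of `H` of order prime to `p` lies in `C`
  have hprime : ∀ y : G, y ∈ H → (orderOf y).Coprime p → y ∈ C := by
    intro y hy hyp
    have hyN := hHN hy
    have h1 := (hmemH ⟨y, hyN⟩).1 hy
    obtain ⟨k, hk⟩ := P.isPGroup' ⟨_, h1⟩
    have h2 : (QuotientGroup.mk (⟨y, hyN⟩ : Nn) : Q) ^ p ^ k = 1 := congrArg Subtype.val hk
    have h3 : (QuotientGroup.mk (⟨y, hyN⟩ : Nn) : Q) ^ orderOf y = 1 := by
      have h4 : (QuotientGroup.mk (⟨y, hyN⟩ : Nn) : Q) ^ orderOf y =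
          QuotientGroup.mk ((⟨y, hyN⟩ : Nn) ^ orderOf y) := rfl
      rw [h4]
      have h5 : (⟨y, hyN⟩ : Nn) ^ orderOf y = 1 := by
        apply Subtype.ext
        change y ^ orderOf y = 1
        exact pow_orderOf_eq_one y
      rw [h5]
      rfl
    have h6 : orderOf (QuotientGroup.mk (⟨y, hyN⟩ : Nn) : Q) ∣ 1 := by
      have h7 := orderOf_dvd_of_pow_eq_one h2
      have h8 := orderOf_dvd_of_pow_eq_one h3
      have h9 : (orderOf y).Coprime (p ^ k) := hyp.pow_right k
      rw [← h9.gcd_eq_one]
      exact Nat.dvd_gcd h8 h7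
    have h10 : (QuotientGroup.mk (⟨y, hyN⟩ : Nn) : Q) = 1 := by
      rw [← orderOf_eq_one_iff]
      exact Nat.dvd_one.1 h6
    rw [QuotientGroup.eq_one_iff] at h10
    exact h10
  have hnorm : ∀ g : G, g⁻¹ * x * g ∈ H → g ∈ Nn := by
    intro g hg
    have h1 : g⁻¹ * c * g ∈ C := by
      apply hprime
      · have h2 : g⁻¹ * c * g = (g⁻¹ * x * g) ^ p ^ a := by
          have := conj_pow (i := p ^ a) (a := g⁻¹) (b := x)
          rw [inv_inv] at this
          exact this.symm
        rw [h2]
        exact H.pow_mem hg _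
      · have h3 : orderOf (g⁻¹ * c * g) = orderOf c := by
          have h4 : g⁻¹ * c * g = MulAut.conj g⁻¹ c := by
            rw [MulAut.conj_apply, inv_inv]
          rw [h4]
          exact orderOf_injective (MulAut.conj g⁻¹).toMonoidHom (MulAut.conj g⁻¹).injective c
        rw [h3, hcm, Nat.coprime_comm]
        exact (Nat.Prime.coprime_iff_not_dvd hp).2 hm
    have hmap : C.map (MulAut.conj g⁻¹).toMonoidHom ≤ C := by
      rintro _ ⟨y, ⟨k, rfl⟩, rfl⟩
      have h5 : (MulAut.conj g⁻¹).toMonoidHom (c ^ k) = (g⁻¹ * c * g) ^ k := by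
        rw [map_zpow]
        congr 1
        change MulAut.conj g⁻¹ c = _
        rw [MulAut.conj_apply, inv_inv]
      change (MulAut.conj g⁻¹).toMonoidHom (c ^ k) ∈ C
      rw [h5]
      exact C.zpow_mem h1 k
    have hcard : Nat.card (C.map (MulAut.conj g⁻¹).toMonoidHom) = Nat.card C :=
      Subgroup.card_map_of_injective (MulAut.conj g⁻¹).injective
    have hinv : g⁻¹ ∈ Nn := by
      change g⁻¹ ∈ Subgroup.normalizer (C : Set G)
      rw [Subgroup.mem_normalizer_iff_map_conj_eq]
      exact Subgroup.eq_of_le_of_card_ge hmap (le_of_eq hcard.symm)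
    exact (inv_mem_iff).1 hinv
  refine ⟨H, ⟨p, hp, C.subgroupOf H, ?_, ?_, ?_, ?_⟩, ?_⟩
  · constructor
    intro n hn g
    have h1 : (g : G) * n * (g : G)⁻¹ ∈ C := ((Subgroup.mem_normalizer_iff.1 (hHN g.2)) n).1 hn
    exact h1
  · have hinj : Function.Injective (H.subtype.subgroupComap C) := by
      intro a b hab
      exact Subtype.ext (Subtype.ext (congrArg (fun z : C => (z : G)) hab))
    exact isCyclic_of_injective (H.subtype.subgroupComap C) hinj
  · have hinj : Function.Injective (H.subtype.subgroupComap C) := by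
      intro a b hab
      exact Subtype.ext (Subtype.ext (congrArg (fun z : C => (z : G)) hab))
    exact Nat.Coprime.coprime_dvd_left (Subgroup.card_dvd_of_injective _ hinj) hcop
  · intro g
    have h1 := (hmemH ⟨g, hHN g.2⟩).1 g.2
    obtain ⟨k, hk⟩ := P.isPGroup' ⟨_, h1⟩
    have h2 : (QuotientGroup.mk ((⟨g, hHN g.2⟩ : Nn) ^ p ^ k) : Q) = 1 := congrArg Subtype.val hk
    rw [QuotientGroup.eq_one_iff] at h2
    exact ⟨k, h2⟩
  · -- counting
    let S := {n : Nn // (n : G)⁻¹ * x * n ∈ H}
    have hfixG : ∀ g : G, (g : G ⧸ H) ∈ MulAction.fixedBy (G ⧸ H) x ↔ g⁻¹ * x * g ∈ H := by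
      intro g
      rw [MulAction.mem_fixedBy]
      change ((x * g : G) : G ⧸ H) = g ↔ _
      rw [eq_comm, QuotientGroup.eq, mul_assoc]
    have hfixQ : ∀ q : Q, (q : Q ⧸ (P : Subgroup Q)) ∈
        MulAction.fixedBy (Q ⧸ (P : Subgroup Q)) xb ↔ q⁻¹ * xb * q ∈ (P : Subgroup Q) := by
      intro g
      rw [MulAction.mem_fixedBy]
      change ((xb * g : Q) : Q ⧸ (P : Subgroup Q)) = g ↔ _
      rw [eq_comm, QuotientGroup.eq, mul_assoc]
    have hrel : ∀ n : Nn, (n : G)⁻¹ * x * n ∈ H ↔
        (QuotientGroup.mk n : Q)⁻¹ * xb * (QuotientGroup.mk n : Q) ∈ (P : Subgroup Q) := by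
      intro n
      have := hmemH (n⁻¹ * ⟨x, hxN⟩ * n)
      exact this
    let u : S → MulAction.fixedBy (G ⧸ H) x := fun n => ⟨((n.1 : G) : G ⧸ H), (hfixG _).2 n.2⟩
    let v : S → MulAction.fixedBy (Q ⧸ (P : Subgroup Q)) xb := fun n =>
      ⟨((QuotientGroup.mk n.1 : Q) : Q ⧸ (P : Subgroup Q)), (hfixQ _).2 ((hrel n.1).1 n.2)⟩
    have hu : Function.Surjective u := by
      rintro ⟨z, hz⟩
      obtain ⟨g, rfl⟩ := QuotientGroup.mk_surjective z
      have h1 := (hfixG g).1 hz
      exact ⟨⟨⟨g, hnorm g h1⟩, h1⟩, rfl⟩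
    have hv : Function.Surjective v := by
      rintro ⟨z, hz⟩
      obtain ⟨q, rfl⟩ := QuotientGroup.mk_surjective z
      obtain ⟨n, rfl⟩ := QuotientGroup.mk_surjective q
      have h1 := (hfixQ _).1 hz
      exact ⟨⟨n, (hrel n).2 h1⟩, rfl⟩
    have huv : ∀ s t, u s = u t ↔ v s = v t := by
      intro s t
      have h1 : u s = u t ↔ ((s.1 : G) : G ⧸ H) = ((t.1 : G) : G ⧸ H) := Subtype.ext_iff
      have h2 : v s = v t ↔ ((QuotientGroup.mk s.1 : Q) : Q ⧸ (P : Subgroup Q)) =
          ((QuotientGroup.mk t.1 : Q) : Q ⧸ (P : Subgroup Q)) := Subtype.ext_iff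
      rw [h1, h2, QuotientGroup.eq, QuotientGroup.eq]
      exact hmemH (s.1⁻¹ * t.1)
    have hcount : fixCount H x = Nat.card (MulAction.fixedBy (Q ⧸ (P : Subgroup Q)) xb) :=
      card_eq_of_fibres u v hu hv huv
    have hfp : Nat.card (MulAction.fixedPoints (Subgroup.zpowers xb) (Q ⧸ (P : Subgroup Q))) =
        Nat.card (MulAction.fixedBy (Q ⧸ (P : Subgroup Q)) xb) := by
      have : MulAction.fixedPoints (Subgroup.zpowers xb) (Q ⧸ (P : Subgroup Q)) =
          MulAction.fixedBy (Q ⧸ (P : Subgroup Q)) xb := by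
        ext z
        rw [MulAction.mem_fixedPoints, MulAction.mem_fixedBy]
        constructor
        · intro h
          exact h ⟨xb, Subgroup.mem_zpowers xb⟩
        · rintro h ⟨y, k, rfl⟩
          change (xb ^ k) • z = z
          have h1 : xb ∈ MulAction.stabilizer Q z := h
          exact Subgroup.zpow_mem _ h1 k
      rw [this]
    have hmod := hpg.card_modEq_card_fixedPoints (Q ⧸ (P : Subgroup Q))
    rw [hfp, ← hcount] at hmod
    intro hdvd
    have h1 : p ∣ Nat.card (Q ⧸ (P : Subgroup Q)) := (Nat.ModEq.dvd_iff hmod dvd_rfl).2 hdvd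
    exact P.not_dvd_index h1

/-- **Solomon's induction theorem** -/
theorem solomon (G : Type) [Group G] [Finite G] :
    ∃ a : {H : Subgroup G // IsHyperelementary H} → ℤ,
      ∀ g, ∑ᶠ H, a H * (fixCount H.1 g : ℤ) = 1 := by
  classical
  have h1 : (1 : G → ℤ) ∈ spn G := by
    refine one_mem_of_local (spn G) (fun f g hf hg => mul_mem_spn hf hg) fun x p hp => ?_
    obtain ⟨H, hH, hx⟩ := exists_local x p hp
    refine ⟨chars G ⟨H, hH⟩, Submodule.subset_span ⟨_, rfl⟩, ?_⟩
    intro h
    exact hx (Int.natCast_dvd_natCast.1 h)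
  have : Fintype {H : Subgroup G // IsHyperelementary H} := Fintype.ofFinite _
  obtain ⟨a, ha⟩ := (Submodule.mem_span_range_iff_exists_fun ℤ).1 h1
  refine ⟨a, fun g => ?_⟩
  rw [finsum_eq_sum_of_fintype]
  have h2 := congrFun ha g
  rw [Finset.sum_apply] at h2
  exact h2

end Solomon

end Pool.BK
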